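import Pool.Agent.MP_ed9623_an.H64.Fin5a

open Filter Topology MeasureTheory Set
open scoped ContDiff

namespace Pool.Agent.MP_ed9623_an.H64

variable {ρ g₁ g₂ : PP → ℝ} {a1 a2 w1 w2 P g1 g2 : ST → ℝ}

theorem zero_on (hρ : ∀ k : ℕ, ContDiff ℝ k ρ) (h : Dom ρ)
    (hc : IsPreconnected {x | ρ x < 0}) {x₀ : ℝ × ℝ} (h0 : ρ x₀ = 0) (hk : curv2 ρ x₀ ≠ 0)
    (ha1 : ContDiff ℝ (2 : ℕ) a1) (ha2 : ContDiff ℝ (2 : ℕ) a2)
    (hw1 : ContDiff ℝ (4 : ℕ) w1) (hw2 : ContDiff ℝ (4 : ℕ) w2)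
    (hS : ∀ y : ST, ρ y.2 < 0 → Sys a1 a2 w1 w2 P g1 g2 y)
    (hB : ∀ y : ST, ρ y.2 = 0 → a1 y = 0 ∧ a2 y = 0 ∧ w1 y = 0 ∧ w2 y = 0) {I : Set ℝ}
    (hI : IsOpen I) (c0 : ∀ t ∈ I, vort w1 w2 (t, x₀) = 0) :
    ∀ x, ρ x < 0 → ∀ t ∈ I, w1 (t, x) = 0 ∧ w2 (t, x) = 0 := by
  have hr : ∀ k : ℕ, ContDiff ℝ k fun y : ST => ρ y.2 := fun k => (hρ k).comp contDiff_snd
  have l1 := fun {f : ST → ℝ} (h : ContDiff ℝ (4 : ℕ) f) => cdg_le h (by norm_num : 1 ≤ 4)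
  have l2 := fun {f : ST → ℝ} (h : ContDiff ℝ (4 : ℕ) f) => cdg_le h (by norm_num : 2 ≤ 4)
  have l3 := fun {f : ST → ℝ} (h : ContDiff ℝ (4 : ℕ) f) => cdg_le h (by norm_num : 3 ≤ 4)
  have cω := cd_vort (n := 3) hw1 hw2
  have cω1 := cdg_le cω (by norm_num : 1 ≤ 3)
  have hU : ∀ y : ST, ρ y.2 < 0 → ∀ᶠ z : ST in 𝓝 y, ρ z.2 < 0 := fun y hy =>
    (h.isOpen.preimage continuous_snd).mem_nhds hy
  have rd : ∀ y : ST, ρ y.2 = 0 → fderiv ℝ (fun y : ST => ρ y.2) y ≠ 0 := fun y hy hz =>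
    h.2.1 _ hy (fderiv_zero_of_pd fun e => by
      rw [← pd_snd (cdg_diff (hρ 1) le_rfl _) (0, e)]; unfold pd; rw [hz]; rfl)
  have cl : ∀ y : ST, ρ y.2 = 0 → ∀ f : ST → ℝ, Continuous f → (∀ z : ST, ρ z.2 < 0 → f z = 0) →
      f y = 0 := fun y hy f hf hz => eq_zero_of_closure hf.continuousAt
    (mem_closure_neg (r := fun y : ST => ρ y.2) hy (rd y hy)) (Eventually.of_forall hz)
  have ca := fun {f : ST → ℝ} (h : ContDiff ℝ (2 : ℕ) f) e => (contDiff_pd (n := 1) e h).continuous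
  have cb := fun {f : ST → ℝ} (h : ContDiff ℝ (4 : ℕ) f) e =>
    (contDiff_pd (n := 2) e (contDiff_pd (n := 3) e h)).continuous
  have gω : ∀ t y, ρ y = 0 → fderiv ℝ (fun x => vort w1 w2 (t, x)) y = 0 := fun t y hy => by
    refine fderiv_zero_of_pd fun e => ?_
    obtain ⟨b1, b2, b3, b4⟩ := hB (t, y) hy
    have c0 := fun {f : ST → ℝ} (h : ContDiff ℝ (4 : ℕ) f) => (cd_heat (n := 0)
      (contDiff_zero.2 ha1.continuous) (contDiff_zero.2 ha2.continuous) (l2 h)).continuous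
    have p1 := cl (t, y) hy _ ((c0 hw1).add ((hw1.continuous.mul (ca ha1 e1)).add
      (hw2.continuous.mul (ca ha1 e2)))) fun z hz => (hS z hz).1.1
    have p2 := cl (t, y) hy _ ((c0 hw2).add ((hw1.continuous.mul (ca ha2 e1)).add
      (hw2.continuous.mul (ca ha2 e2)))) fun z hz => (hS z hz).1.2.1
    have p3 := cl (t, y) hy _ ((ca (cdg_le cω (by norm_num)) e1).sub ((cb hw2 e1).add (cb hw2 e2)))
      fun z hz => sub_eq_zero.2 (vort_pd (l2 hw1) (l2 hw2)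
        ((hU z hz).mono fun y hy => (hS y hy).1.2.2.2)).1
    have p4 := cl (t, y) hy _ ((ca (cdg_le cω (by norm_num)) e2).sub
      ((cb hw1 e1).add (cb hw1 e2)).neg) fun z hz => sub_eq_zero.2 (vort_pd (l2 hw1) (l2 hw2)
        ((hU z hz).mono fun y hy => (hS y hy).1.2.2.2)).2
    have p5 := pd_time_zero (l1 hw1) (fun y hy => (hB y hy).2.2.1) (z := (t, y)) hy
    have p6 := pd_time_zero (l1 hw2) (fun y hy => (hB y hy).2.2.2) (z := (t, y)) hy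
    simp only [heat, Pi.add_apply, Pi.sub_apply, Pi.mul_apply, Pi.neg_apply, b1, b2, b3, b4, p5,
      p6] at p1 p2 p3 p4
    rw [pd_dir2, pd_slice (cdg_diff cω1 le_rfl _), pd_slice (cdg_diff cω1 le_rfl _)]
    linear_combination e.1 * (p3 - p2) + e.2 * (p4 + p1)
  have dω : ∀ t, Differentiable ℝ fun x => vort w1 w2 (t, x) := fun t x =>
    cdg_diff (cω1.comp (by fun_prop : ContDiff ℝ (1 : ℕ) fun x : ℝ × ℝ => ((t, x) : ST))) le_rfl x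
  refine zero_of_arc (r := fun y : ST => ρ y.2) (hρ 1) (fun _ => rfl) (hr 4) hc hI ha1 ha2
    hw1 hw2 (fun y _ hy => ⟨(hS y hy).1.1, (hS y hy).1.2.1⟩) h0 (h.2.1 _ h0) ?_
  filter_upwards [(curv2_cont (hρ 2)).continuousAt.eventually_ne hk,
    arc_const (hρ 1).contDiffAt h0 (h.2.1 _ h0)] with y h1 h2 s hs hy
  have k : curv (fun y : ST => ρ y.2) (s, y) ≠ 0 := by rwa [curv_snd (hρ 2)]
  refine ⟨k, (hB (s, y) hy).2.2.1, (hB (s, y) hy).2.2.2, fun e => ?_⟩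
  have o : vort w1 w2 (s, y) = 0 := (h2 hy _ (dω s) (gω s)).trans (c0 s hs)
  have dv : ∀ f : ST → ℝ, ContDiff ℝ (4 : ℕ) f → (∀ y : ST, ρ y.2 = 0 → f y = 0) →
      ∃ W : ℝ, ∀ e, pd e f (s, y) = pd e (fun y : ST => ρ y.2) (s, y) * W := fun f hf hv => by
    obtain ⟨W, b1, b2⟩ := exists_div (n := 1) (z₀ := (s, y)) (hr 2).contDiffAt (l2 hf).contDiffAt
      hy (rd _ hy) (Eventually.of_forall hv)
    exact ⟨_, grad_zero_of_van (hr 1).contDiffAt b1 hy (b2.mono fun y hy => by simpa using hy)⟩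
  obtain ⟨W1, q1⟩ := dv w1 hw1 fun y hy => (hB y hy).2.2.1
  obtain ⟨W2, q2⟩ := dv w2 hw2 fun y hy => (hB y hy).2.2.2
  have d := cl (s, y) hy _ ((ca (l2 hw1) e1).add (ca (l2 hw2) e2)) fun z hz => (hS z hz).1.2.2.2
  simp only [vort, Pi.add_apply, Pi.sub_apply, q1, q2] at d o ⊢
  have G : pd e1 (fun y : ST => ρ y.2) (s, y) ^ 2 + pd e2 (fun y : ST => ρ y.2) (s, y) ^ 2 ≠ 0 := by
    intro hG
    apply k
    unfold curv
    generalize pd e1 (fun y : ST => ρ y.2) (s, y) = r1 at *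
    generalize pd e2 (fun y : ST => ρ y.2) (s, y) = r2 at *
    rw [show r1 = 0 by nlinarith [sq_nonneg r1, sq_nonneg r2],
      show r2 = 0 by nlinarith [sq_nonneg r1, sq_nonneg r2]]
    ring
  generalize pd e1 (fun y : ST => ρ y.2) (s, y) = r1 at *
  generalize pd e2 (fun y : ST => ρ y.2) (s, y) = r2 at *
  have z1 : W1 = 0 := (mul_eq_zero.1 (by linear_combination r1 * d - r2 * o)).resolve_left G
  have z2 : W2 = 0 := (mul_eq_zero.1 (by linear_combination r2 * d + r1 * o)).resolve_left G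
  simp [z1, z2]

theorem loc_sys (hρ : Continuous ρ) (sa1 : Sm ρ a1) (sa2 : Sm ρ a2) (sw1 : Sm ρ w1) (sw2 : Sm ρ w2)
    (hS : ∀ y : ST, ρ y.2 < 0 → Sys a1 a2 w1 w2 P g1 g2 y) {z : ST} (hz : ρ z.2 < 0) :
    ∃ A1 A2 W1 W2 : SA ST, A1.1 =ᶠ[𝓝 z] a1 ∧ A2.1 =ᶠ[𝓝 z] a2 ∧
      ∀ᶠ y in 𝓝 z, Sys A1.1 A2.1 W1.1 W2.1 P g1 g2 y := by
  obtain ⟨A1, b1⟩ := sa1.loc hρ hz
  obtain ⟨A2, b2⟩ := sa2.loc hρ hz
  obtain ⟨W1, b3⟩ := sw1.loc hρ hz
  obtain ⟨W2, b4⟩ := sw2.loc hρ hz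
  refine ⟨A1, A2, W1, W2, b1, b2, ?_⟩
  filter_upwards [b1.eventuallyEq_nhds, b2.eventuallyEq_nhds, b3.eventuallyEq_nhds,
    b4.eventuallyEq_nhds, (hρ.comp continuous_snd).continuousAt.eventually (gt_mem_nhds hz)]
    with y c1 c2 c3 c4 hy
  unfold Sys heat
  simp only [pd_congr_pt _ c1, pd_congr_pt _ c2, pd_congr_pt _ c3, pd_congr_pt _ c4,
    pd_congr_pt _ (pd_congr _ c1), pd_congr_pt _ (pd_congr _ c2), pd_congr_pt _ (pd_congr _ c3),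
    pd_congr_pt _ (pd_congr _ c4), c1.eq_of_nhds, c2.eq_of_nhds, c3.eq_of_nhds, c4.eq_of_nhds]
  exact hS y hy

section val
variable {E : Type*} [NormedAddCommGroup E] [NormedSpace ℝ E] (f g : SA E) (y : E)
theorem add_v : (f + g).1 y = f.1 y + g.1 y := rfl
theorem sub_v : (f - g).1 y = f.1 y - g.1 y := rfl
theorem mul_v : (f * g).1 y = f.1 y * g.1 y := rfl
theorem smul_v (c : ℝ) : (c • f).1 y = c * f.1 y := rfl
theorem an_D (h : AnalyticAt ℝ f.1 y) (e : E) : AnalyticAt ℝ (D e f).1 y :=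
  ((ContinuousLinearMap.apply ℝ ℝ e).analyticAt _).comp h.fderiv
end val

theorem up_v (g : SA PP) (y : ST) : (up g).1 y = g.1 y.2 := rfl

theorem tend_sl (z : ST) : Tendsto (fun x : PP => ((z.1, x) : ST)) (𝓝 z.2) (𝓝 z) :=
  (by fun_prop : Continuous fun x : PP => ((z.1, x) : ST)).tendsto z.2

theorem ana_a (hρ : Continuous ρ) (G1 G2 : SA PP) (hP : ContDiff ℝ (2 : ℕ) P) (sa1 : Sm ρ a1)
    (sa2 : Sm ρ a2) (sw1 : Sm ρ w1) (sw2 : Sm ρ w2)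
    (hS : ∀ y : ST, ρ y.2 < 0 → Sys a1 a2 w1 w2 P (up G1).1 (up G2).1 y) {z : ST} (hz : ρ z.2 < 0)
    (hG : AnalyticAt ℝ (d1 G2 - d2 G1).1 z.2) :
    AnalyticAt ℝ (fun x => a1 (z.1, x)) z.2 ∧ AnalyticAt ℝ (fun x => a2 (z.1, x)) z.2 := by
  obtain ⟨A1, A2, W1, W2, b1, b2, b⟩ := loc_sys hρ sa1 sa2 sw1 sw2 hS hz
  have k : ∀ s : ℝ, s * s = 1 → AnalyticAt ℝ (sl z.1 (A1 + s • W1)).1 z.2 ∧
      AnalyticAt ℝ (sl z.1 (A2 + s • W2)).1 z.2 := fun s hs =>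
    ana_SA _ _ G1 G2 hP (σ := 1) (by norm_num) hG (b.mono fun y ⟨⟨c1, c2, c3, c4⟩, c5, c6⟩ => by
      simp only [map_add, map_smul]
      simp only [add_v, sub_v, mul_v, smul_v, D_val]
      unfold heat at c1 c2 c5 c6
      refine ⟨by linear_combination c3 + s * c4, ?_, ?_⟩
      · linear_combination -c5 - s * c1 - (W1.1 y * pd e1 W1.1 y + W2.1 y * pd e2 W1.1 y) * hs
      · linear_combination -c6 - s * c2 - (W1.1 y * pd e1 W2.1 y + W2.1 y * pd e2 W2.1 y) * hs)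
  have f : ∀ (A W : SA ST) (a : ST → ℝ), A.1 =ᶠ[𝓝 z] a → AnalyticAt ℝ (sl z.1 (A + (1 : ℝ) • W)).1 z.2 →
      AnalyticAt ℝ (sl z.1 (A + (-1 : ℝ) • W)).1 z.2 → AnalyticAt ℝ (fun x => a (z.1, x)) z.2 :=
    fun A W a e p q => ((p.add q).div_const (c := 2)).congr (((tend_sl z).eventually e).mono
      fun x hx => by
        change (A.1 (z.1, x) + 1 * W.1 (z.1, x) + (A.1 (z.1, x) + -1 * W.1 (z.1, x))) / 2 = a (z.1, x)
        rw [← hx]; ring)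
  exact ⟨f _ _ _ b1 (k 1 (by norm_num)).1 (k (-1) (by norm_num)).1,
    f _ _ _ b2 (k 1 (by norm_num)).2 (k (-1) (by norm_num)).2⟩

theorem ana_g (hρ : Continuous ρ) (G1 G2 : SA PP) (hP : ContDiff ℝ (2 : ℕ) P) (sa1 : Sm ρ a1)
    (sa2 : Sm ρ a2) (sw1 : Sm ρ w1) (sw2 : Sm ρ w2)
    (hS : ∀ y : ST, ρ y.2 < 0 → Sys a1 a2 w1 w2 P (up G1).1 (up G2).1 y) {z : ST} (hz : ρ z.2 < 0)
    (ha : ∀ᶠ y in 𝓝 z, a1 y = 0 ∧ a2 y = 0) : AnalyticAt ℝ (d1 G2 - d2 G1).1 z.2 := by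
  obtain ⟨A1, A2, W1, W2, b1, b2, b⟩ := loc_sys hρ sa1 sa2 sw1 sw2 hS hz
  have z1 : A1.1 =ᶠ[𝓝 z] fun _ => 0 := b1.trans (ha.mono fun _ h => h.1)
  have z2 : A2.1 =ᶠ[𝓝 z] fun _ => 0 := b2.trans (ha.mono fun _ h => h.2)
  have k : ∀ᶠ y in 𝓝 z, Sys (fun _ => 0) (fun _ => 0) W1.1 W2.1 P (up G1).1 (up G2).1 y := by
    filter_upwards [b, z1.eventuallyEq_nhds, z2.eventuallyEq_nhds] with y hy c1 c2
    unfold Sys heat at hy ⊢
    simpa only [pd_congr_pt _ c1, pd_congr_pt _ c2, pd_congr_pt _ (pd_congr _ c1),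
      pd_congr_pt _ (pd_congr _ c2), c1.eq_of_nhds, c2.eq_of_nhds] using hy
  simp only [Sys, heat, pd_zero_fun, zero_mul, mul_zero, add_zero, sub_zero, zero_add] at k
  obtain ⟨p, q⟩ := ana_SA W1 W2 0 0 (P := fun _ => 0) contDiff_const (σ := 0) (z := z) (by norm_num)
    (by rw [map_zero, map_zero, sub_zero]; exact analyticAt_const) (k.mono fun y hy => by
      simp only [add_v, sub_v, mul_v, smul_v, D_val, pd_zero_fun, up_v,
        show (0 : SA PP).1 y.2 = 0 from rfl]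
      exact ⟨hy.1.2.2.2, by linear_combination -hy.1.1, by linear_combination -hy.1.2.1⟩)
  have e1' : (up G1 - (W1 * D e1 W1 + W2 * D e2 W1)).1 =ᶠ[𝓝 z] pd e1 P := k.mono fun y hy => by
    simp only [add_v, sub_v, mul_v, D_val]; linear_combination -hy.2.1
  have e2' : (up G2 - (W1 * D e1 W2 + W2 * D e2 W2)).1 =ᶠ[𝓝 z] pd e2 P := k.mono fun y hy => by
    simp only [add_v, sub_v, mul_v, D_val]; linear_combination -hy.2.2
  refine ((an_D (sl z.1 W1 * d1 (sl z.1 W2) + sl z.1 W2 * d2 (sl z.1 W2)) _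
    ((p.mul (an_D _ _ q _)).add (q.mul (an_D _ _ q _))) (1, 0)).sub
    (an_D (sl z.1 W1 * d1 (sl z.1 W1) + sl z.1 W2 * d2 (sl z.1 W1)) _
      ((p.mul (an_D _ _ p _)).add (q.mul (an_D _ _ p _))) (0, 1))).congr ?_
  filter_upwards [(tend_sl z).eventually ((pd_congr e2 e1').and (pd_congr e1 e2'))] with x hx
  have := hx.1.trans ((pd_comm _ _ hP.contDiffAt).trans hx.2.symm)
  rw [← D_val, ← D_val, map_sub, map_sub, D_up, D_up, sub_v, sub_v, up_v, up_v] at this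
  simp only [← sl_e1, ← sl_e2, ← map_mul, ← map_add]
  change (D e1 _).1 (z.1, x) - (D e2 _).1 (z.1, x) = (d1 G2).1 x - (d2 G1).1 x
  linarith

/-- Complete bounded pairs with the same pressure coincide. -/
def ZC (ρ g₁ g₂ : PP → ℝ) : Prop := ∀ a1 a2 w1 w2 P : ST → ℝ, ContDiff ℝ (2 : ℕ) a1 →
  ContDiff ℝ (2 : ℕ) a2 → ContDiff ℝ (4 : ℕ) w1 → ContDiff ℝ (4 : ℕ) w2 → ContDiff ℝ (2 : ℕ) P →
  Sm ρ a1 → Sm ρ a2 → Sm ρ w1 → Sm ρ w2 →
  (∀ y : ST, ρ y.2 < 0 → Sys a1 a2 w1 w2 P (fun y => g₁ y.2) (fun y => g₂ y.2) y) →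
  (∀ y : ST, ρ y.2 = 0 → a1 y = 0 ∧ a2 y = 0 ∧ w1 y = 0 ∧ w2 y = 0) → ∀ M : ℝ,
  (∀ y, |w1 y| ≤ M ∧ |w2 y| ≤ M) → (∀ y, |vort w1 w2 y| ≤ 2 * M) →
  ∀ x, ρ x < 0 → ∀ t, w1 (t, x) = 0 ∧ w2 (t, x) = 0

theorem zc_ana (hρ : ∀ k : ℕ, ContDiff ℝ k ρ) (h : Dom ρ) (hc : IsPreconnected {x | ρ x < 0})
    (G1 G2 : SA PP) {x₀ : PP} (h0 : ρ x₀ = 0) (hk : 0 < curv2 ρ x₀)
    (H : (∀ᶠ x in 𝓝[{x | ρ x < 0}] x₀, AnalyticAt ℝ (d1 G2 - d2 G1).1 x) →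
      AnalyticOnNhd ℝ (d1 G2 - d2 G1).1 {x | ρ x < 0}) : ZC ρ G1.1 G2.1 := by
  intro a1 a2 w1 w2 P ha1 ha2 hw1 hw2 hP sa1 sa2 sw1 sw2 hS hB M hM _ x hx t
  have zo := @zero_on _ _ _ _ _ _ _ _ hρ h hc _ h0 hk.ne' ha1 ha2 hw1 hw2 hS hB
  refine zo isOpen_univ (fun t₀ _ => ?_) x hx t (mem_univ _)
  by_contra hne
  have cρ := h.1.continuous
  have cω := (cd_vort (n := 3) hw1 hw2).continuous
  have hU : ∀ y : ST, ρ y.2 < 0 → ∀ᶠ z : ST in 𝓝 y, ρ z.2 < 0 := fun y hy =>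
    (h.isOpen.preimage continuous_snd).mem_nhds hy
  have cl := mem_closure_neg h0 (h.2.1 _ h0)
  haveI := mem_closure_iff_nhdsWithin_neBot.1 cl
  have loc : ∀ s, vort w1 w2 (s, x₀) ≠ 0 → ∀ᶠ x in 𝓝[{x | ρ x < 0}] x₀,
      ρ x < 0 ∧ ∀ᶠ y in 𝓝 ((s, x) : ST), a1 y = 0 ∧ a2 y = 0 := fun s hs => by
    have := epd_link h rfl (z := (s, x₀)) (fun k => (hρ k).comp contDiff_snd) (by
      rw [pd_snd_fun (hρ 1)]; funext z; simp [pd, Prod.mk_zero_zero]) h0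
      (by rwa [curv_snd (hρ 2)]) (sa1.at _) (sa2.at _) (sw1.at _) (sw2.at _) ha1.continuous
      ha2.continuous (cdg_le hw1 (by norm_num)) (cdg_le hw2 (by norm_num))
      (eventually_nhdsWithin_of_forall hS) (Eventually.of_forall hB) hs
    filter_upwards [self_mem_nhdsWithin, mem_nhdsWithin_of_mem_nhds ((tend_sl (s, x₀)).eventually
      (eventually_nhdsWithin_iff.1 this).eventually_nhds)] with x hx k
    exact ⟨hx, (k.and (hU (s, x) hx)).mono fun y hy => hy.1 hy.2⟩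
  have hG := H ((loc _ hne).mono fun x k => ana_g cρ G1 G2 hP sa1 sa2 sw1 sw2 hS (z := (t₀, x))
    k.1 k.2)
  have az : ∀ y : ST, vort w1 w2 (y.1, x₀) ≠ 0 → ρ y.2 < 0 → a1 y = 0 ∧ a2 y = 0 := fun y hs hy => by
    obtain ⟨x₁, k1, k2⟩ := (loc _ hs).exists
    have an := fun x (hx : ρ x < 0) => ana_a cρ G1 G2 hP sa1 sa2 sw1 sw2 hS (z := (y.1, x)) hx (hG x hx)
    have k3 := (tend_sl (y.1, x₁)).eventually k2
    exact ⟨AnalyticOnNhd.eqOn_zero_of_preconnected_of_eventuallyEq_zero (fun x hx => (an x hx).1) hc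
      k1 (k3.mono fun _ h => h.1) hy, AnalyticOnNhd.eqOn_zero_of_preconnected_of_eventuallyEq_zero
        (fun x hx => (an x hx).2) hc k1 (k3.mono fun _ h => h.2) hy⟩
  have ct : Continuous fun y : ST => vort w1 w2 (y.1, x₀) := cω.comp (by fun_prop)
  have ht : ∀ w : ST → ℝ, ContDiff ℝ (4 : ℕ) w → (∀ y : ST, ρ y.2 < 0 → (∀ᶠ z in 𝓝 y, a1 z = 0 ∧
      a2 z = 0) → pd e0 w y = pd e1 (pd e1 w) y + pd e2 (pd e2 w) y) → (∀ y : ST, w1 y = 0 ∧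
      w2 y = 0 → w y = 0) → ∀ y : ST, ρ y.2 < 0 →
        pd e0 w y = pd e1 (pd e1 w) y + pd e2 (pd e2 w) y := fun w hw k1 k2 y hy => by
    by_contra hn
    have c1 := fun e => contDiff_pd (n := 3) e hw
    have c2 := fun e => (contDiff_pd (n := 2) e (c1 e)).continuous
    have k3 : ∀ᶠ s in 𝓝 y.1, vort w1 w2 (s, x₀) = 0 := by
      have c3 : Continuous fun s : ℝ => ((s, y.2) : ST) := by fun_prop
      filter_upwards [(((c1 e0).continuous.sub ((c2 e1).add (c2 e2))).comp c3).continuousAt.eventually_ne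
        (sub_ne_zero.2 hn)] with s hs
      by_contra hv
      refine hs (sub_eq_zero.2 (k1 (s, y.2) hy ?_))
      filter_upwards [hU (s, y.2) hy, (ct.continuousAt (x := (s, y.2))).eventually_ne hv] with z b c
      exact az z c b
    obtain ⟨I, i1, i2, i3⟩ := eventually_nhds_iff.1 k3
    have k4 : ∀ᶠ z in 𝓝 y, w z = 0 := by
      filter_upwards [hU y hy, continuous_fst.continuousAt.eventually (i2.mem_nhds i3)] with z b c
      exact k2 z (zo i2 i1 _ b _ c)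
    have k5 := fun e => pd_zero_on_open e k4
    exact hn (by rw [(k5 _).self_of_nhds, (pd_zero_on_open _ (k5 _)).self_of_nhds,
      (pd_zero_on_open _ (k5 _)).self_of_nhds, add_zero])
  have k6 : ∀ y : ST, (∀ᶠ z in 𝓝 y, a1 z = 0 ∧ a2 z = 0) → a1 y = 0 ∧ a2 y = 0 ∧
      ∀ e, pd e a1 y = 0 ∧ pd e a2 y = 0 := fun y k => ⟨k.self_of_nhds.1, k.self_of_nhds.2, fun e =>
    ⟨(pd_zero_on_open e (k.mono fun _ h => h.1)).self_of_nhds,
      (pd_zero_on_open e (k.mono fun _ h => h.2)).self_of_nhds⟩⟩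
  have z1 := heat_zero h (cdg_le hw1 (by norm_num)) (fun y => (hM y).1) (fun y hy => (hB y hy).2.2.1)
    (ht w1 hw1 (fun y hy k => by
      have := (hS y hy).1.1
      simp only [heat, k6 y k] at this
      linarith) fun _ h => h.1)
  have z2 := heat_zero h (cdg_le hw2 (by norm_num)) (fun y => (hM y).2) (fun y hy => (hB y hy).2.2.2)
    (ht w2 hw2 (fun y hy k => by
      have := (hS y hy).1.2.1
      simp only [heat, k6 y k] at this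
      linarith) fun _ h => h.2)
  exact hne (eq_zero_of_closure (f := fun x => vort w1 w2 (t₀, x)) (cω.comp (by fun_prop)).continuousAt
    cl (Eventually.of_forall fun x hx => by
      rw [vort, Pi.sub_apply, (z1 (t₀, x) hx).2, (z2 (t₀, x) hx).1, sub_zero]))

end Pool.Agent.MP_ed9623_an.H64
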