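import Pool.Agent.MP_ed9623_an.H64.Unique

open Filter Topology MeasureTheory Set

namespace Pool.Agent.MP_ed9623_an.H64

theorem pd_snd {f : ℝ × ℝ → ℝ} {z : ST} (hf : DifferentiableAt ℝ f z.2) (e : ST) :
    pd e (fun y : ST => f y.2) z = pd e.2 f z.2 := by
  have := (hf.hasFDerivAt.comp z (hasFDerivAt_snd (𝕜 := ℝ) (p := z))).fderiv
  unfold pd
  change fderiv ℝ (f ∘ Prod.snd) z e = _
  rw [this]; rfl

theorem pd_snd_fun {f : ℝ × ℝ → ℝ} (hf : ContDiff ℝ (1 : ℕ) f) (e : ST) :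
    pd e (fun y : ST => f y.2) = fun z => pd e.2 f z.2 :=
  funext fun z => pd_snd (cdg_diff hf le_rfl z.2) e

noncomputable def curv2 (ρ : ℝ × ℝ → ℝ) (x : ℝ × ℝ) : ℝ :=
  pd (1, 0) (pd (1, 0) ρ) x * pd (0, 1) ρ x ^ 2
    - 2 * pd (1, 0) (pd (0, 1) ρ) x * pd (1, 0) ρ x * pd (0, 1) ρ x
    + pd (0, 1) (pd (0, 1) ρ) x * pd (1, 0) ρ x ^ 2

theorem curv_snd {ρ : ℝ × ℝ → ℝ} (hρ : ContDiff ℝ (2 : ℕ) ρ) (z : ST) :
    curv (fun y : ST => ρ y.2) z = curv2 ρ z.2 := by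
  have h1 := cdg_le hρ (by norm_num : 1 ≤ 2)
  unfold curv curv2
  rw [pd_snd_fun h1, pd_snd_fun h1, pd_snd_fun (contDiff_pd (n := 1) _ hρ),
    pd_snd_fun (contDiff_pd (n := 1) _ hρ), pd_snd_fun (contDiff_pd (n := 1) _ hρ)]

noncomputable def hsum (u v : ST → ℝ) : ST → ℝ := fun z => 1 / 2 * (u z + v z)
noncomputable def hdif (u v : ST → ℝ) : ST → ℝ := fun z => 1 / 2 * (u z - v z)

theorem cd_hsum {u v : ST → ℝ} {n : ℕ} (hu : ContDiff ℝ n u) (hv : ContDiff ℝ n v) :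
    ContDiff ℝ n (hsum u v) := contDiff_const.mul (hu.add hv)

theorem cd_hdif {u v : ST → ℝ} {n : ℕ} (hu : ContDiff ℝ n u) (hv : ContDiff ℝ n v) :
    ContDiff ℝ n (hdif u v) := contDiff_const.mul (hu.sub hv)

theorem pd_hsum {u v : ST → ℝ} (hu : ContDiff ℝ (1 : ℕ) u) (hv : ContDiff ℝ (1 : ℕ) v) (e : ST) :
    pd e (hsum u v) = hsum (pd e u) (pd e v) := funext fun z =>
  (((HD.of_diff (cdg_diff hu le_rfl z)).add (HD.of_diff (cdg_diff hv le_rfl z))).cmul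
    (1 / 2)).pd_eq (cdg_diff (cd_hsum hu hv) le_rfl z)

theorem pd_hdif {u v : ST → ℝ} (hu : ContDiff ℝ (1 : ℕ) u) (hv : ContDiff ℝ (1 : ℕ) v) (e : ST) :
    pd e (hdif u v) = hdif (pd e u) (pd e v) := funext fun z =>
  (((HD.of_diff (cdg_diff hu le_rfl z)).sub (HD.of_diff (cdg_diff hv le_rfl z))).cmul
    (1 / 2)).pd_eq (cdg_diff (cd_hdif hu hv) le_rfl z)

theorem heat_hsum (a1 a2 : ST → ℝ) {u v : ST → ℝ} (hu : ContDiff ℝ (2 : ℕ) u)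
    (hv : ContDiff ℝ (2 : ℕ) v) (z : ST) :
    heat a1 a2 (hsum u v) z = 1 / 2 * (heat a1 a2 u z + heat a1 a2 v z) := by
  have u1 := cdg_le hu (by norm_num : 1 ≤ 2)
  have v1 := cdg_le hv (by norm_num : 1 ≤ 2)
  unfold heat
  rw [pd_hsum u1 v1, pd_hsum u1 v1, pd_hsum u1 v1,
    pd_hsum (contDiff_pd _ hu) (contDiff_pd _ hv), pd_hsum (contDiff_pd _ hu) (contDiff_pd _ hv)]
  unfold hsum; ring

theorem heat_hdif (a1 a2 : ST → ℝ) {u v : ST → ℝ} (hu : ContDiff ℝ (2 : ℕ) u)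
    (hv : ContDiff ℝ (2 : ℕ) v) (z : ST) :
    heat a1 a2 (hdif u v) z = 1 / 2 * (heat a1 a2 u z - heat a1 a2 v z) := by
  have u1 := cdg_le hu (by norm_num : 1 ≤ 2)
  have v1 := cdg_le hv (by norm_num : 1 ≤ 2)
  unfold heat
  rw [pd_hdif u1 v1, pd_hdif u1 v1, pd_hdif u1 v1,
    pd_hdif (contDiff_pd _ hu) (contDiff_pd _ hv), pd_hdif (contDiff_pd _ hu) (contDiff_pd _ hv)]
  unfold hdif; ring

theorem sys_of_NS {Ω : Set (ℝ × ℝ)} {g₁ g₂ : ℝ × ℝ → ℝ} {u₁ u₂ v₁ v₂ p q : ST → ℝ}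
    (hu₁ : ContDiff ℝ (2 : ℕ) u₁) (hu₂ : ContDiff ℝ (2 : ℕ) u₂) (hv₁ : ContDiff ℝ (2 : ℕ) v₁)
    (hv₂ : ContDiff ℝ (2 : ℕ) v₂) {z : ST} (hu : NS Ω g₁ g₂ u₁ u₂ p z.1)
    (hv : NS Ω g₁ g₂ v₁ v₂ q z.1) (hz : z.2 ∈ Ω) (h1 : pd e1 p z = pd e1 q z)
    (h2 : pd e2 p z = pd e2 q z) :
    Sys (hsum u₁ v₁) (hsum u₂ v₂) (hdif u₁ v₁) (hdif u₂ v₂) p (fun y => g₁ y.2)
      (fun y => g₂ y.2) z := by
  have l := fun {f : ST → ℝ} (h : ContDiff ℝ (2 : ℕ) f) => cdg_le h (by norm_num : 1 ≤ 2)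
  obtain ⟨a1, a2, a3⟩ := hu.1 z.2 hz
  obtain ⟨b1, b2, b3⟩ := hv.1 z.2 hz
  simp only [Prod.mk.eta] at a1 a2 a3 b1 b2 b3
  unfold Sys
  rw [heat_hdif _ _ hu₁ hv₁, heat_hdif _ _ hu₂ hv₂, heat_hsum _ _ hu₁ hv₁, heat_hsum _ _ hu₂ hv₂]
  simp only [pd_hsum (l hu₁) (l hv₁), pd_hsum (l hu₂) (l hv₂), pd_hdif (l hu₁) (l hv₁),
    pd_hdif (l hu₂) (l hv₂)]
  unfold heat hsum hdif at *
  refine ⟨⟨?_, ?_, ?_, ?_⟩, ?_, ?_⟩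
  · linear_combination (1 / 2) * (a1 - b1 - h1)
  · linear_combination (1 / 2) * (a2 - b2 - h2)
  · linear_combination (1 / 2) * (a3 + b3)
  · linear_combination (1 / 2) * (a3 - b3)
  · linear_combination (1 / 2) * (a1 + b1 + h1)
  · linear_combination (1 / 2) * (a2 + b2 + h2)

theorem mem_frontier_of_zero {ρ : ℝ × ℝ → ℝ} (hρ : Continuous ρ) {x : ℝ × ℝ} (h0 : ρ x = 0)
    (hd : fderiv ℝ ρ x ≠ 0) : x ∈ frontier {y | ρ y < 0} := by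
  rw [(isOpen_lt hρ continuous_const).frontier_eq]
  exact ⟨mem_closure_neg h0 hd, not_lt.2 h0.ge⟩

theorem curv2_cont {ρ : ℝ × ℝ → ℝ} (hρ : ContDiff ℝ (2 : ℕ) ρ) : Continuous (curv2 ρ) := by
  have : curv2 ρ = fun x => curv (fun y : ST => ρ y.2) (0, x) :=
    funext fun x => (curv_snd hρ (0, x)).symm
  rw [this]
  exact (curv_cont (hρ.comp contDiff_snd)).comp (by fun_prop)

theorem fderiv_ne_of_curv2 {ρ : ℝ × ℝ → ℝ} {x : ℝ × ℝ} (h : curv2 ρ x ≠ 0) :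
    fderiv ℝ ρ x ≠ 0 := by
  intro h0
  apply h
  have : ∀ e, pd e ρ x = 0 := fun e => by unfold pd; rw [h0]; rfl
  unfold curv2
  rw [this (1, 0), this (0, 1)]; ring

theorem unique_of_pressure {ρ g₁ g₂ : ℝ × ℝ → ℝ} (hρ : ContDiff ℝ (6 : ℕ) ρ)
    (hc : IsPreconnected {x | ρ x < 0}) (hg₁ : ContDiff ℝ (1 : ℕ) g₁)
    (hg₂ : ContDiff ℝ (1 : ℕ) g₂) {x₀ : ℝ × ℝ} (h0 : ρ x₀ = 0) (hk : curv2 ρ x₀ ≠ 0)
    (hg : pd (1, 0) g₂ x₀ - pd (0, 1) g₁ x₀ ≠ 0) {I : Set ℝ} (hI : IsOpen I)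
    {u₁ u₂ v₁ v₂ p q : ST → ℝ} (hu₁ : ContDiff ℝ (6 : ℕ) u₁) (hu₂ : ContDiff ℝ (6 : ℕ) u₂)
    (hv₁ : ContDiff ℝ (6 : ℕ) v₁) (hv₂ : ContDiff ℝ (6 : ℕ) v₂) (hp : ContDiff ℝ (2 : ℕ) p)
    (hu : ∀ t ∈ I, NS {x | ρ x < 0} g₁ g₂ u₁ u₂ p t)
    (hv : ∀ t ∈ I, NS {x | ρ x < 0} g₁ g₂ v₁ v₂ q t)
    (hpq : ∀ t ∈ I, ∀ x, ρ x < 0 → pd e1 p (t, x) = pd e1 q (t, x) ∧
      pd e2 p (t, x) = pd e2 q (t, x)) :
    ∀ t ∈ I, ∀ x, ρ x < 0 → u₁ (t, x) = v₁ (t, x) ∧ u₂ (t, x) = v₂ (t, x) := by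
  have l2 := fun {f : ST → ℝ} (h : ContDiff ℝ (6 : ℕ) f) => cdg_le h (by norm_num : 2 ≤ 6)
  have l4 := fun {f : ST → ℝ} (h : ContDiff ℝ (6 : ℕ) f) => cdg_le h (by norm_num : 4 ≤ 6)
  have ρ2 := cdg_le hρ (by norm_num : 2 ≤ 6)
  have hr : ContDiff ℝ (6 : ℕ) fun y : ST => ρ y.2 := hρ.comp contDiff_snd
  have hS : ∀ y : ST, y.1 ∈ I → ρ y.2 < 0 → Sys (hsum u₁ v₁) (hsum u₂ v₂) (hdif u₁ v₁)
      (hdif u₂ v₂) p (fun y => g₁ y.2) (fun y => g₂ y.2) y := fun y h1 h2 =>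
    sys_of_NS (l2 hu₁) (l2 hu₂) (l2 hv₁) (l2 hv₂) (hu y.1 h1) (hv y.1 h1) h2
      (hpq y.1 h1 y.2 h2).1 (hpq y.1 h1 y.2 h2).2
  have hB : ∀ y : ST, y.1 ∈ I → curv2 ρ y.2 ≠ 0 → ρ y.2 = 0 → hsum u₁ v₁ y = 0 ∧
      hsum u₂ v₂ y = 0 ∧ hdif u₁ v₁ y = 0 ∧ hdif u₂ v₂ y = 0 := fun y h1 h2 h3 => by
    have hf := mem_frontier_of_zero hρ.continuous h3 (fderiv_ne_of_curv2 h2)
    obtain ⟨a1, a2⟩ := (hu y.1 h1).2 y.2 hf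
    obtain ⟨b1, b2⟩ := (hv y.1 h1).2 y.2 hf
    simp only [Prod.mk.eta] at a1 a2 b1 b2
    simp only [hsum, hdif, a1, a2, b1, b2]
    norm_num
  have cg : Continuous fun x => pd (1, 0) g₂ x - pd (0, 1) g₁ x :=
    (contDiff_pd (n := 0) _ hg₂).continuous.sub (contDiff_pd (n := 0) _ hg₁).continuous
  have main := zero_of_arc (r := fun y : ST => ρ y.2) (cdg_le hρ (by norm_num)) (fun _ => rfl)
    (l4 hr) hc hI (l2 (cd_hsum hu₁ hv₁)) (l2 (cd_hsum hu₂ hv₂)) (l4 (cd_hdif hu₁ hv₁))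
    (l4 (cd_hdif hu₂ hv₂)) (fun y h1 h2 => ⟨(hS y h1 h2).1.1, (hS y h1 h2).1.2.1⟩) h0
    (fderiv_ne_of_curv2 hk) (by
      filter_upwards [(curv2_cont ρ2).continuousAt.eventually_ne hk,
        cg.continuousAt.eventually_ne hg] with x h1 h2 t ht hx
      have k : curv (fun y : ST => ρ y.2) (t, x) ≠ 0 := by rw [curv_snd ρ2]; exact h1
      refine ⟨k, (hB (t, x) ht h1 hx).2.2.1, (hB (t, x) ht h1 hx).2.2.2, ?_⟩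
      have hIn : ∀ᶠ y : ST in 𝓝 (t, x), y.1 ∈ I := (hI.preimage continuous_fst).mem_nhds ht
      refine grad_zero hr (cd_hsum hu₁ hv₁) (cd_hsum hu₂ hv₂) (cd_hdif hu₁ hv₁) (cd_hdif hu₂ hv₂)
        hp (hg₁.comp contDiff_snd) (hg₂.comp contDiff_snd) hx k ?_
        (hIn.mono fun y hy hn => hS y hy hn) ?_
      · have a1 := pd_snd (z := (t, x)) (cdg_diff hg₂ le_rfl x) e1
        have a2 := pd_snd (z := (t, x)) (cdg_diff hg₁ le_rfl x) e2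
        change pd e1 (fun y : ST => g₂ y.2) (t, x) - pd e2 (fun y : ST => g₁ y.2) (t, x) ≠ 0
        rw [a1, a2]; exact h2
      · have hc2 : ContinuousAt (fun y : ST => curv2 ρ y.2) (t, x) :=
          ((curv2_cont ρ2).comp continuous_snd).continuousAt
        filter_upwards [hIn, hc2.eventually_ne h1] with y a b c using hB y a b c)
  intro t ht x hx
  obtain ⟨a, b⟩ := main x hx t ht
  unfold hdif at a b
  constructor <;> linarith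

end Pool.Agent.MP_ed9623_an.H64
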