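import Pool.Agent.MP_ed9623_an.H64.Poincare
import Pool.Agent.MP_ed9623_an.H64.Unique2

open Filter Topology MeasureTheory Set

namespace Pool.Agent.MP_ed9623_an.H64

/-- The linear system satisfied by the half difference of two solutions. -/
structure Lin (ρ : ℝ × ℝ → ℝ) (M : ℝ) (a1 a2 w1 w2 r : ST → ℝ) : Prop where
  ha1 : ContDiff ℝ (1 : ℕ) a1
  ha2 : ContDiff ℝ (1 : ℕ) a2
  hw1 : ContDiff ℝ (2 : ℕ) w1
  hw2 : ContDiff ℝ (2 : ℕ) w2
  hr : ContDiff ℝ (1 : ℕ) r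
  eq : ∀ z : ST, ρ z.2 < 0 →
    heat a1 a2 w1 z + (w1 z * pd e1 a1 z + w2 z * pd e2 a1 z) + pd e1 r z = 0 ∧
    heat a1 a2 w2 z + (w1 z * pd e1 a2 z + w2 z * pd e2 a2 z) + pd e2 r z = 0 ∧
    pd e1 w1 z + pd e2 w2 z = 0
  bc : ∀ z : ST, ρ z.2 = 0 → w1 z = 0 ∧ w2 z = 0
  b0 : ∀ z, |a1 z| ≤ M ∧ |a2 z| ≤ M
  b1 : ∀ z, |pd e1 a1 z| ≤ M ∧ |pd e2 a1 z| ≤ M ∧ |pd e1 a2 z| ≤ M ∧ |pd e2 a2 z| ≤ M
  b2 : ∀ z, |pd e0 (pd e0 w1) z| ≤ M ∧ |pd e0 (pd e0 w2) z| ≤ M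

noncomputable def En (ρ : ℝ × ℝ → ℝ) (w1 w2 : ST → ℝ) (t : ℝ) : ℝ :=
  ∫ x in {x | ρ x < 0}, (w1 (t, x) ^ 2 + w2 (t, x) ^ 2)

noncomputable def Gn (ρ : ℝ × ℝ → ℝ) (w1 w2 : ST → ℝ) (t : ℝ) : ℝ :=
  ∫ x in {x | ρ x < 0}, (gr w1 (t, x) + gr w2 (t, x))

theorem En_nonneg (ρ : ℝ × ℝ → ℝ) (w1 w2 : ST → ℝ) (t : ℝ) : 0 ≤ En ρ w1 w2 t :=
  integral_nonneg fun _ => by simp only [Pi.zero_apply]; positivity

theorem Gn_nonneg (ρ : ℝ × ℝ → ℝ) (w1 w2 : ST → ℝ) (t : ℝ) : 0 ≤ Gn ρ w1 w2 t :=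
  integral_nonneg fun _ => add_nonneg (gr_nonneg _ _) (gr_nonneg _ _)

theorem sq_le_of_abs {a C : ℝ} (h : |a| ≤ C) : a ^ 2 ≤ C ^ 2 := by
  rw [← sq_abs]; exact pow_le_pow_left₀ (abs_nonneg _) h 2

variable {ρ : ℝ × ℝ → ℝ} {M : ℝ} {a1 a2 w1 w2 r : ST → ℝ}

theorem Dom.int_le (h : Dom ρ) {F0 F1 F2 R : ST → ℝ} (c0 : Continuous F0)
    (h1 : ContDiff ℝ (1 : ℕ) F1) (h2 : ContDiff ℝ (1 : ℕ) F2) (cR : Continuous R) (t : ℝ)
    (b : ∀ x, ρ x = 0 → F1 (t, x) = 0 ∧ F2 (t, x) = 0)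
    (hle : ∀ x, ρ x < 0 → F0 (t, x) ≤ pd e1 F1 (t, x) + pd e2 F2 (t, x) + R (t, x)) :
    ∫ x in {x | ρ x < 0}, F0 (t, x) ≤ ∫ x in {x | ρ x < 0}, R (t, x) := by
  have i1 := h.intST (contDiff_pd (n := 0) e1 h1).continuous t
  have i2 := h.intST (contDiff_pd (n := 0) e2 h2).continuous t
  have i12 : IntegrableOn (fun x => pd e1 F1 (t, x) + pd e2 F2 (t, x)) {x | ρ x < 0} volume :=
    i1.add i2
  have := setIntegral_mono_on (h.intST c0 t) (i12.add (h.intST cR t)) h.meas hle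
  simp only [Pi.add_apply] at this
  rw [integral_add i12 (h.intST cR t), integral_add i1 i2] at this
  have z1 := h.div_zero h1 (fun x hx => (b x hx).1) (1, 0)
  have z2 := h.div_zero h2 (fun x hx => (b x hx).2) (0, 1)
  linarith

theorem Lin.bc0 (L : Lin ρ M a1 a2 w1 w2 r) (z : ST) (hz : ρ z.2 = 0) :
    pd e0 w1 z = 0 ∧ pd e0 w2 z = 0 := by
  have k : ∀ w : ST → ℝ, ContDiff ℝ (2 : ℕ) w → (∀ y : ST, ρ y.2 = 0 → w y = 0) →
      pd e0 w z = 0 := fun w hw h => by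
    have a := HD.of_diff (e := e0) (cdg_diff hw (by norm_num) z)
    unfold HD at a
    have : (fun s : ℝ => w (z + s • e0)) = fun _ => 0 :=
      funext fun s => h _ (by simpa [Prod.mk_zero_zero] using hz)
    rw [this] at a
    exact a.unique (hasDerivAt_const _ _)
  exact ⟨k w1 L.hw1 fun y hy => (L.bc y hy).1, k w2 L.hw2 fun y hy => (L.bc y hy).2⟩

theorem Lin.en (h : Dom ρ) (L : Lin ρ M a1 a2 w1 w2 r) (t : ℝ) : ∃ d, HasDerivAt (En ρ w1 w2) d t ∧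
    d ≤ (4 * M ^ 2 + 2) * En ρ w1 w2 t - Gn ρ w1 w2 t := by
  have u1 := cdg_le L.hw1 (by norm_num : 1 ≤ 2)
  have u2 := cdg_le L.hw2 (by norm_num : 1 ≤ 2)
  have p1 := fun e => contDiff_pd (n := 1) e L.hw1
  have p2 := fun e => contDiff_pd (n := 1) e L.hw2
  have hF : ContDiff ℝ (1 : ℕ) fun z => w1 z * w1 z + w2 z * w2 z := (u1.mul u1).add (u2.mul u2)
  have hd := h.hasDerivAt hF t
  simp only [← sq] at hd
  refine ⟨_, hd, ?_⟩
  have hF1 : ContDiff ℝ (1 : ℕ) fun z => 2 * (w1 z * pd e1 w1 z + w2 z * pd e1 w2 z - w1 z * r z) :=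
    contDiff_const.mul (((u1.mul (p1 e1)).add (u2.mul (p2 e1))).sub (u1.mul L.hr))
  have hF2 : ContDiff ℝ (1 : ℕ) fun z => 2 * (w1 z * pd e2 w1 z + w2 z * pd e2 w2 z - w2 z * r z) :=
    contDiff_const.mul (((u1.mul (p1 e2)).add (u2.mul (p2 e2))).sub (u2.mul L.hr))
  have c1 := u1.continuous
  have c2 := u2.continuous
  have g1 := ct_gr L.hw1
  have g2 := ct_gr L.hw2
  simp only [sq] at hd ⊢
  refine (h.int_le (R := fun z => (4 * (M * M) + 2) * (w1 z ^ 2 + w2 z ^ 2) - (gr w1 z + gr w2 z))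
    (contDiff_pd (n := 0) e0 hF).continuous hF1 hF2 (by fun_prop) t
    (fun x hx => by simp [(L.bc (t, x) hx).1, (L.bc (t, x) hx).2]) fun x hx => ?_).trans_eq ?_
  · have D := fun {f : ST → ℝ} (h : ContDiff ℝ (1 : ℕ) f) e =>
      HD.of_diff (e := e) (cdg_diff h le_rfl (t, x))
    rw [(((D u1 e0).mul (D u1 e0)).add ((D u2 e0).mul (D u2 e0))).pd_eq (cdg_diff hF le_rfl _),
      (((((D u1 e1).mul (D (p1 e1) e1)).add ((D u2 e1).mul (D (p2 e1) e1))).sub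
        ((D u1 e1).mul (D L.hr e1))).cmul 2).pd_eq (cdg_diff hF1 le_rfl _),
      (((((D u1 e2).mul (D (p1 e2) e2)).add ((D u2 e2).mul (D (p2 e2) e2))).sub
        ((D u2 e2).mul (D L.hr e2))).cmul 2).pd_eq (cdg_diff hF2 le_rfl _)]
    obtain ⟨q1, q2, q3⟩ := L.eq (t, x) hx
    unfold heat at q1 q2
    have m1 := sq_le_of_abs (L.b0 (t, x)).1
    have m2 := sq_le_of_abs (L.b0 (t, x)).2
    have m3 := sq_le_of_abs (L.b1 (t, x)).1
    have m4 := sq_le_of_abs (L.b1 (t, x)).2.1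
    have m5 := sq_le_of_abs (L.b1 (t, x)).2.2.1
    have m6 := sq_le_of_abs (L.b1 (t, x)).2.2.2
    unfold gr
    set z : ST := (t, x)
    have s1 := sq_nonneg (w1 z)
    have s2 := sq_nonneg (w2 z)
    have k1 : w1 z * pd e0 w1 z = _ := congrArg (w1 z * ·) (by linarith :
      pd e0 w1 z = pd e1 (pd e1 w1) z + pd e2 (pd e2 w1) z - pd e1 r z - (a1 z * pd e1 w1 z
        + a2 z * pd e2 w1 z + w1 z * pd e1 a1 z + w2 z * pd e2 a1 z))
    have k2 : w2 z * pd e0 w2 z = _ := congrArg (w2 z * ·) (by linarith :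
      pd e0 w2 z = pd e1 (pd e1 w2) z + pd e2 (pd e2 w2) z - pd e2 r z - (a1 z * pd e1 w2 z
        + a2 z * pd e2 w2 z + w1 z * pd e1 a2 z + w2 z * pd e2 a2 z))
    have k3 : r z * (pd e1 w1 z + pd e2 w2 z) = 0 := by rw [q3, mul_zero]
    nlinarith [sq_nonneg (pd e1 w1 z + a1 z * w1 z), sq_nonneg (pd e2 w1 z + a2 z * w1 z),
      sq_nonneg (pd e1 w2 z + a1 z * w2 z), sq_nonneg (pd e2 w2 z + a2 z * w2 z),
      sq_nonneg (w1 z + w1 z * pd e1 a1 z), sq_nonneg (w1 z + w2 z * pd e2 a1 z),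
      sq_nonneg (w2 z + w1 z * pd e1 a2 z), sq_nonneg (w2 z + w2 z * pd e2 a2 z),
      mul_le_mul_of_nonneg_right m1 s1, mul_le_mul_of_nonneg_right m2 s1,
      mul_le_mul_of_nonneg_right m1 s2, mul_le_mul_of_nonneg_right m2 s2,
      mul_le_mul_of_nonneg_right m3 s1, mul_le_mul_of_nonneg_right m4 s2,
      mul_le_mul_of_nonneg_right m5 s1, mul_le_mul_of_nonneg_right m6 s2]
  · have i1 := h.intST (F := fun z => w1 z ^ 2 + w2 z ^ 2) (by fun_prop) t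
    have i2 := h.intST (F := fun z => gr w1 z + gr w2 z) (by fun_prop) t
    rw [integral_sub (i1.const_mul _) i2, integral_const_mul]
    rfl

theorem Lin.gn (h : Dom ρ) (L : Lin ρ M a1 a2 w1 w2 r) (t : ℝ) : ∃ d, HasDerivAt (Gn ρ w1 w2) d t ∧
    d ≤ 4 * M ^ 2 * (En ρ w1 w2 t + Gn ρ w1 w2 t) := by
  have u1 := cdg_le L.hw1 (by norm_num : 1 ≤ 2)
  have u2 := cdg_le L.hw2 (by norm_num : 1 ≤ 2)
  have p1 := fun e => contDiff_pd (n := 1) e L.hw1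
  have p2 := fun e => contDiff_pd (n := 1) e L.hw2
  have hF : ContDiff ℝ (1 : ℕ) fun z => pd e1 w1 z * pd e1 w1 z + pd e2 w1 z * pd e2 w1 z
      + (pd e1 w2 z * pd e1 w2 z + pd e2 w2 z * pd e2 w2 z) :=
    (((p1 e1).mul (p1 e1)).add ((p1 e2).mul (p1 e2))).add
      (((p2 e1).mul (p2 e1)).add ((p2 e2).mul (p2 e2)))
  have hd := h.hasDerivAt hF t
  simp only [← sq] at hd
  refine ⟨_, hd, ?_⟩
  have hF1 : ContDiff ℝ (1 : ℕ) fun z => 2 * (pd e1 w1 z * pd e0 w1 z + pd e1 w2 z * pd e0 w2 z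
      - pd e0 w1 z * r z) :=
    contDiff_const.mul ((((p1 e1).mul (p1 e0)).add ((p2 e1).mul (p2 e0))).sub ((p1 e0).mul L.hr))
  have hF2 : ContDiff ℝ (1 : ℕ) fun z => 2 * (pd e2 w1 z * pd e0 w1 z + pd e2 w2 z * pd e0 w2 z
      - pd e0 w2 z * r z) :=
    contDiff_const.mul ((((p1 e2).mul (p1 e0)).add ((p2 e2).mul (p2 e0))).sub ((p2 e0).mul L.hr))
  have c1 := u1.continuous
  have c2 := u2.continuous
  have g1 := ct_gr L.hw1
  have g2 := ct_gr L.hw2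
  simp only [sq] at hd ⊢
  refine (h.int_le (R := fun z => 4 * (M * M) * ((w1 z ^ 2 + w2 z ^ 2) + (gr w1 z + gr w2 z)))
    (contDiff_pd (n := 0) e0 hF).continuous hF1 hF2 (by fun_prop) t
    (fun x hx => by simp [(L.bc0 (t, x) hx).1, (L.bc0 (t, x) hx).2]) fun x hx => ?_).trans_eq ?_
  · have D := fun {f : ST → ℝ} (h : ContDiff ℝ (1 : ℕ) f) e =>
      HD.of_diff (e := e) (cdg_diff h le_rfl (t, x))
    rw [((((D (p1 e1) e0).mul (D (p1 e1) e0)).add ((D (p1 e2) e0).mul (D (p1 e2) e0))).add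
        (((D (p2 e1) e0).mul (D (p2 e1) e0)).add ((D (p2 e2) e0).mul (D (p2 e2) e0)))).pd_eq
        (cdg_diff hF le_rfl _),
      (((((D (p1 e1) e1).mul (D (p1 e0) e1)).add ((D (p2 e1) e1).mul (D (p2 e0) e1))).sub
        ((D (p1 e0) e1).mul (D L.hr e1))).cmul 2).pd_eq (cdg_diff hF1 le_rfl _),
      (((((D (p1 e2) e2).mul (D (p1 e0) e2)).add ((D (p2 e2) e2).mul (D (p2 e0) e2))).sub
        ((D (p2 e0) e2).mul (D L.hr e2))).cmul 2).pd_eq (cdg_diff hF2 le_rfl _),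
      pd_comm e0 e1 L.hw1.contDiffAt, pd_comm e0 e2 L.hw1.contDiffAt,
      pd_comm e0 e1 L.hw2.contDiffAt, pd_comm e0 e2 L.hw2.contDiffAt]
    obtain ⟨q1, q2, -⟩ := L.eq (t, x) hx
    have hO : ∀ᶠ y : ST in 𝓝 (t, x), ρ y.2 < 0 :=
      (h.isOpen.preimage continuous_snd).mem_nhds hx
    have q3 := (div_pd L.hw1 L.hw2 (hO.mono fun y hy => (L.eq y hy).2.2) e0).self_of_nhds
    unfold heat at q1 q2
    have m1 := sq_le_of_abs (L.b0 (t, x)).1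
    have m2 := sq_le_of_abs (L.b0 (t, x)).2
    have m3 := sq_le_of_abs (L.b1 (t, x)).1
    have m4 := sq_le_of_abs (L.b1 (t, x)).2.1
    have m5 := sq_le_of_abs (L.b1 (t, x)).2.2.1
    have m6 := sq_le_of_abs (L.b1 (t, x)).2.2.2
    unfold gr
    set z : ST := (t, x)
    have cs : ∀ a b c d x u v w : ℝ, a ^ 2 ≤ M ^ 2 → b ^ 2 ≤ M ^ 2 → c ^ 2 ≤ M ^ 2 →
        d ^ 2 ≤ M ^ 2 → (a * x + b * u + v * c + w * d) ^ 2
        ≤ 4 * (M * M) * (x ^ 2 + u ^ 2 + v ^ 2 + w ^ 2) := by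
      intro a b c d x u v w ha hb hc hd
      have : 0 ≤ x ^ 2 + u ^ 2 + v ^ 2 + w ^ 2 := by positivity
      nlinarith [sq_nonneg (a * u - b * x), sq_nonneg (a * v - c * x), sq_nonneg (a * w - d * x),
        sq_nonneg (b * v - c * u), sq_nonneg (b * w - d * u), sq_nonneg (c * w - d * v),
        mul_le_mul_of_nonneg_right (add_le_add (add_le_add ha hb) (add_le_add hc hd)) this]
    have n1 := cs _ _ _ _ (pd e1 w1 z) (pd e2 w1 z) (w1 z) (w2 z) m1 m2 m3 m4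
    have n2 := cs _ _ _ _ (pd e1 w2 z) (pd e2 w2 z) (w1 z) (w2 z) m1 m2 m5 m6
    have k1 : pd e0 w1 z * (pd e1 (pd e1 w1) z + pd e2 (pd e2 w1) z - pd e1 r z) = _ :=
      congrArg (pd e0 w1 z * ·) (by linarith : pd e1 (pd e1 w1) z + pd e2 (pd e2 w1) z - pd e1 r z
        = pd e0 w1 z + (a1 z * pd e1 w1 z + a2 z * pd e2 w1 z + w1 z * pd e1 a1 z
          + w2 z * pd e2 a1 z))
    have k2 : pd e0 w2 z * (pd e1 (pd e1 w2) z + pd e2 (pd e2 w2) z - pd e2 r z) = _ :=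
      congrArg (pd e0 w2 z * ·) (by linarith : pd e1 (pd e1 w2) z + pd e2 (pd e2 w2) z - pd e2 r z
        = pd e0 w2 z + (a1 z * pd e1 w2 z + a2 z * pd e2 w2 z + w1 z * pd e1 a2 z
          + w2 z * pd e2 a2 z))
    have k3 : r z * (pd e1 (pd e0 w1) z + pd e2 (pd e0 w2) z) = 0 := by rw [q3, mul_zero]
    generalize a1 z * pd e1 w1 z + a2 z * pd e2 w1 z + w1 z * pd e1 a1 z
      + w2 z * pd e2 a1 z = N1 at *
    generalize a1 z * pd e1 w2 z + a2 z * pd e2 w2 z + w1 z * pd e1 a2 z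
      + w2 z * pd e2 a2 z = N2 at *
    have g0 : 0 ≤ (M * M) * (pd e1 w1 z ^ 2 + pd e2 w1 z ^ 2 + pd e1 w2 z ^ 2 + pd e2 w2 z ^ 2) :=
      mul_nonneg (mul_self_nonneg M) (by positivity)
    nlinarith [sq_nonneg (2 * pd e0 w1 z + N1), sq_nonneg (2 * pd e0 w2 z + N2)]
  · have i1 := h.intST (F := fun z => w1 z ^ 2 + w2 z ^ 2) (by fun_prop) t
    have i2 := h.intST (F := fun z => gr w1 z + gr w2 z) (by fun_prop) t
    rw [integral_const_mul, integral_add i1 i2]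
    rfl

theorem Lin.smoothing (h : Dom ρ) (L : Lin ρ M a1 a2 w1 w2 r) {t : ℝ} (ht : t ∈ Icc (-1 : ℝ) 1) :
    En ρ w1 w2 t + (t + 1) * Gn ρ w1 w2 t
      ≤ Real.exp (2 * (12 * M ^ 2 + 2)) * En ρ w1 w2 (-1) := by
  set K := 12 * M ^ 2 + 2 with hK
  have K0 : 0 ≤ K := by positivity
  choose dE hE1 hE2 using L.en h
  choose dG hG1 hG2 using L.gn h
  let H : ℝ → ℝ := fun s => Real.exp (-K * (s + 1)) * (En ρ w1 w2 s + (s + 1) * Gn ρ w1 w2 s)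
  have hH : ∀ s, HasDerivAt H (Real.exp (-K * (s + 1)) * (-K * (En ρ w1 w2 s
      + (s + 1) * Gn ρ w1 w2 s) + (dE s + (Gn ρ w1 w2 s + (s + 1) * dG s)))) s := fun s => by
    have a := ((((hasDerivAt_id s).add_const 1).const_mul (-K)).exp).fun_mul
      ((hE1 s).fun_add (((hasDerivAt_id s).add_const 1).fun_mul (hG1 s)))
    refine HasDerivAt.congr_deriv (f := H) a ?_
    simp only [id]; ring
  have anti : AntitoneOn H (Icc (-1) 1) := by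
    refine antitoneOn_of_deriv_nonpos (convex_Icc _ _)
      (fun s _ => (hH s).continuousAt.continuousWithinAt)
      (fun s _ => (hH s).differentiableAt.differentiableWithinAt) fun s hs => ?_
    rw [(hH s).deriv]
    refine mul_nonpos_of_nonneg_of_nonpos (Real.exp_pos _).le ?_
    have hs' := interior_subset hs
    have s0 : 0 ≤ s + 1 := by linarith [hs'.1]
    have s2 : s + 1 ≤ 2 := by linarith [hs'.2]
    have e0 := En_nonneg ρ w1 w2 s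
    have g0 := Gn_nonneg ρ w1 w2 s
    have v1 := mul_le_mul_of_nonneg_left (hG2 s) s0
    have v2 := mul_le_mul_of_nonneg_right s2 (mul_nonneg (sq_nonneg M) e0)
    have v3 := mul_nonneg s0 g0
    have v4 := mul_nonneg (sq_nonneg M) v3
    nlinarith [hE2 s]
  have := anti (left_mem_Icc.2 (by norm_num)) ht ht.1
  simp only [H, neg_add_cancel, mul_zero, Real.exp_zero, zero_mul, add_zero, one_mul] at this
  have P0 : 0 ≤ En ρ w1 w2 t + (t + 1) * Gn ρ w1 w2 t :=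
    add_nonneg (En_nonneg _ _ _ _) (mul_nonneg (by linarith [ht.1]) (Gn_nonneg _ _ _ _))
  have h1 : 1 ≤ Real.exp (2 * K) * Real.exp (-K * (t + 1)) := by
    rw [← Real.exp_add]
    exact Real.one_le_exp (by nlinarith [ht.2])
  nlinarith [mul_le_mul_of_nonneg_left this (Real.exp_pos (2 * K)).le,
    mul_le_mul_of_nonneg_right h1 P0]

end Pool.Agent.MP_ed9623_an.H64
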