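import Pool.Agent.MP_ed9623_an.H64.Link
import Pool.Agent.MP_ed9623_an.H64.Energy

open Filter Topology Set MeasureTheory

namespace Pool.Agent.MP_ed9623_an.H64

theorem arc_const {E : Type*} [NormedAddCommGroup E] [NormedSpace ℝ E] [FiniteDimensional ℝ E]
    {ρ : E → ℝ} {z₀ : E} (hρ : ContDiffAt ℝ (1 : ℕ) ρ z₀) (h0 : ρ z₀ = 0)
    (hd : fderiv ℝ ρ z₀ ≠ 0) : ∀ᶠ x in 𝓝 z₀, ρ x = 0 → ∀ f : E → ℝ, Differentiable ℝ f →
      (∀ y, ρ y = 0 → fderiv ℝ f y = 0) → f x = f z₀ := by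
  haveI : CompleteSpace E := FiniteDimensional.complete ℝ E
  set l := fderiv ℝ ρ z₀ with hl
  obtain ⟨e, he⟩ : ∃ e, l e = 1 := by
    obtain ⟨e, he⟩ : ∃ e, l e ≠ 0 := by
      by_contra h
      push Not at h
      exact hd (ContinuousLinearMap.ext h)
    exact ⟨(l e)⁻¹ • e, by rw [map_smul, smul_eq_mul, inv_mul_cancel₀ he]⟩
  let Ψ : E → E := fun z => z + (ρ z - l z) • e
  have hΨ : ContDiffAt ℝ (1 : ℕ) Ψ z₀ := by
    have := l.contDiff (n := (1 : ℕ)).contDiffAt (x := z₀)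
    exact contDiffAt_id.add ((hρ.sub this).smul contDiffAt_const)
  have hΨ' : HasFDerivAt Ψ ((ContinuousLinearEquiv.refl ℝ E : E ≃L[ℝ] E) : E →L[ℝ] E) z₀ := by
    have a1 : HasFDerivAt ρ l z₀ := (cd_diff hρ le_rfl).hasFDerivAt
    have a2 := (hasFDerivAt_id z₀).add ((a1.sub l.hasFDerivAt).smul_const e)
    convert a2 using 1
    · rfl
    · ext v; simp
  have hn : ((1 : ℕ) : WithTop ℕ∞) ≠ 0 := by simp
  have hlΨ : ∀ z, l (Ψ z) = ρ z := fun z => by simp [Ψ, he]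
  have hs := hΨ.hasStrictFDerivAt' hΨ' hn
  let Φ := hΨ.localInverse hΨ' hn
  have hΦ : ContDiffAt ℝ (1 : ℕ) Φ (Ψ z₀) := hΨ.to_localInverse hΨ' hn
  have hΦ0 : Φ (Ψ z₀) = z₀ := hΨ.localInverse_apply_image hΨ' hn
  have hL : ∀ᶠ z in 𝓝 z₀, Φ (Ψ z) = z := hs.eventually_left_inverse
  have hR : ∀ᶠ y in 𝓝 (Ψ z₀), Ψ (Φ y) = y := hs.eventually_right_inverse
  obtain ⟨ε, hε, hB⟩ := Metric.eventually_nhds_iff_ball.1 (hR.and (hΦ.eventually (by simp)))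
  have hΨt : Tendsto Ψ (𝓝 z₀) (𝓝 (Ψ z₀)) := hΨ.continuousAt
  filter_upwards [hL, hΨt.eventually (Metric.ball_mem_nhds _ hε)] with x h1 h2 hx f hf hf0
  have hcv : Convex ℝ (Metric.ball (Ψ z₀) ε ∩ {y | l y = 0}) :=
    (convex_ball _ _).inter (LinearMap.ker (l : E →ₗ[ℝ] ℝ)).convex
  have := hcv.norm_image_sub_le_of_norm_hasFDerivWithin_le (f := fun y => f (Φ y))
    (f' := fun _ => 0) (C := 0) (x := Ψ z₀) (y := Ψ x) (fun y hy => by
      have a := (hf (Φ y)).hasFDerivAt.comp y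
        ((hB y hy.1).2.differentiableAt (by simp)).hasFDerivAt
      rw [hf0 _ (by rw [← hlΨ, (hB y hy.1).1]; exact hy.2), ContinuousLinearMap.zero_comp] at a
      exact a.hasFDerivWithinAt) (fun _ _ => by simp)
    ⟨Metric.mem_ball_self hε, by simp only [mem_setOf_eq, hlΨ, h0]⟩
    ⟨h2, by simp only [mem_setOf_eq, hlΨ, hx]⟩
  rw [zero_mul, norm_le_zero_iff, sub_eq_zero, h1, hΦ0] at this
  exact this

theorem bdd_mono {m m' : ℝ → ℝ} (h1 : ∀ t, HasDerivAt m (m' t) t) (hm : Monotone m') {C : ℝ}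
    (hb : ∀ t, |m t| ≤ C) (t : ℝ) : m' t = 0 := by
  have C0 : 0 ≤ C := (abs_nonneg _).trans (hb 0)
  have key : ∀ a b, a < b → ∃ c ∈ Ioo a b, m' c * (b - a) = m b - m a := fun a b hab => by
    obtain ⟨c, hc, e⟩ := exists_hasDerivAt_eq_slope m m' hab
      (fun x _ => (h1 x).continuousAt.continuousWithinAt) fun x _ => h1 x
    exact ⟨c, hc, by rw [e, div_mul_cancel₀ _ (sub_pos.2 hab).ne']⟩
  by_contra hne
  have hp := abs_pos.2 hne
  set s := (2 * C + 1) / |m' t| with hs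
  have s0 : 0 < s := by positivity
  have s1 : s * |m' t| = 2 * C + 1 := div_mul_cancel₀ _ hp.ne'
  rcases lt_or_gt_of_ne hne with h | h
  · obtain ⟨c, hc, e⟩ := key (t - s) t (by linarith)
    rw [abs_of_neg h] at s1
    nlinarith [hm hc.2.le, abs_le.1 (hb t), abs_le.1 (hb (t - s))]
  · obtain ⟨c, hc, e⟩ := key t (t + s) (by linarith)
    rw [abs_of_pos h] at s1
    nlinarith [hm hc.1.le, abs_le.1 (hb t), abs_le.1 (hb (t + s))]

theorem const_of_convex {c c' c'' : ℝ → ℝ} (h1 : ∀ t, HasDerivAt c (c' t) t)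
    (h2 : ∀ t, HasDerivAt c' (c'' t) t) {C : ℝ} (hb : ∀ t, |c t| ≤ C)
    (hk : ∀ t, c t ≠ 0 → 0 ≤ c t * c'' t - c' t ^ 2) (t s : ℝ) : c t = c s := by
  have d2 : ∀ t, HasDerivAt (fun t => c' t * c t + c t * c' t)
      (c'' t * c t + c' t * c' t + (c' t * c' t + c t * c'' t)) t := fun t =>
    ((h2 t).fun_mul (h1 t)).fun_add ((h1 t).fun_mul (h2 t))
  have p : ∀ t, 2 * c' t ^ 2 ≤ c'' t * c t + c' t * c' t + (c' t * c' t + c t * c'' t) := by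
    intro t
    by_cases h : c t = 0
    · rw [h]; nlinarith
    · nlinarith [hk t h, sq_nonneg (c' t)]
  have z := bdd_mono (m := fun t => c t * c t) (fun t => (h1 t).fun_mul (h1 t))
    (monotone_of_deriv_nonneg (fun t => (d2 t).differentiableAt) fun t => by
      rw [(d2 t).deriv]; nlinarith [p t, sq_nonneg (c' t)]) (C := C * C) fun t => by
      rw [abs_mul]; exact mul_self_le_mul_self (abs_nonneg _) (hb t)
  refine is_const_of_deriv_eq_zero (fun t => (h1 t).differentiableAt) (fun t => ?_) t s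
  have a := d2 t
  rw [show (fun t => c' t * c t + c t * c' t) = fun _ => 0 from funext z] at a
  have := a.unique (hasDerivAt_const _ _)
  rw [(h1 t).deriv]
  nlinarith [p t]

theorem hasDerivAt_time {F : ST → ℝ} (hF : ContDiff ℝ (1 : ℕ) F) (x : ℝ × ℝ) (s : ℝ) :
    HasDerivAt (fun s => F (s, x)) (pd e0 F (s, x)) s :=
  (cdg_diff hF le_rfl (s, x)).hasFDerivAt.comp_hasDerivAt s
    ((hasDerivAt_id s).prodMk (hasDerivAt_const s x))

theorem pd_time_zero {ρ : ℝ × ℝ → ℝ} {w : ST → ℝ} (hw : ContDiff ℝ (1 : ℕ) w)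
    (h : ∀ y : ST, ρ y.2 = 0 → w y = 0) {z : ST} (hz : ρ z.2 = 0) : pd e0 w z = 0 := by
  have a := hasDerivAt_time hw z.2 z.1
  rw [show (fun s => w (s, z.2)) = fun _ => 0 from funext fun s => h _ hz] at a
  exact a.unique (hasDerivAt_const _ _)

theorem vort_pd {w1 w2 : ST → ℝ} (h1 : ContDiff ℝ (2 : ℕ) w1) (h2 : ContDiff ℝ (2 : ℕ) w2) {z : ST}
    (h : ∀ᶠ y in 𝓝 z, pd e1 w1 y + pd e2 w2 y = 0) :
    pd e1 (vort w1 w2) z = pd e1 (pd e1 w2) z + pd e2 (pd e2 w2) z ∧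
      pd e2 (vort w1 w2) z = -(pd e1 (pd e1 w1) z + pd e2 (pd e2 w1) z) := by
  have a1 := (div_pd h1 h2 h e1).self_of_nhds
  have a2 := (div_pd h1 h2 h e2).self_of_nhds
  have b := fun e => pd_sub (z := z) e (cdg_diff (contDiff_pd (n := 1) e1 h2) le_rfl z)
    (cdg_diff (contDiff_pd (n := 1) e2 h1) le_rfl z)
  have b1 : pd e1 (vort w1 w2) z = _ := b e1
  have b2 : pd e2 (vort w1 w2) z = _ := b e2
  constructor <;> linarith

noncomputable def gsq (ρ : ℝ × ℝ → ℝ) (x : ℝ × ℝ) : ℝ := pd (1, 0) ρ x ^ 2 + pd (0, 1) ρ x ^ 2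

noncomputable def kap2 (ρ : ℝ × ℝ → ℝ) (x : ℝ × ℝ) : ℝ :=
  2 * gsq ρ x * pd (-pd (0, 1) ρ x, pd (1, 0) ρ x) (curv2 ρ) x
    - 3 * curv2 ρ x * pd (-pd (0, 1) ρ x, pd (1, 0) ρ x) (gsq ρ) x

theorem cd_gsq {ρ : ℝ × ℝ → ℝ} (hρ : ∀ k : ℕ, ContDiff ℝ k ρ) : ContDiff ℝ (1 : ℕ) (gsq ρ) :=
  ((contDiff_pd _ (hρ _)).pow 2).add ((contDiff_pd _ (hρ _)).pow 2)

theorem cd_curv2 {ρ : ℝ × ℝ → ℝ} (hρ : ∀ k : ℕ, ContDiff ℝ k ρ) : ContDiff ℝ (1 : ℕ) (curv2 ρ) := by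
  have a := fun e => contDiff_pd (n := 1) e (hρ _)
  have b := fun e e' => contDiff_pd (n := 1) e (contDiff_pd e' (hρ _))
  exact (((b _ _).mul ((a _).pow 2)).sub (((contDiff_const.mul (b _ _)).mul (a _)).mul (a _))).add
    ((b _ _).mul ((a _).pow 2))

theorem kapS_snd {ρ : ℝ × ℝ → ℝ} (hρ : ∀ k : ℕ, ContDiff ℝ k ρ) (z : ST) :
    kapS (fun y : ST => ρ y.2) z = kap2 ρ z.2 := by
  have e1 : GS (fun y : ST => ρ y.2) = fun y => gsq ρ y.2 := by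
    funext y
    simp only [GS, gsq, pd_snd_fun (hρ 1), Pi.add_apply, Pi.mul_apply, sq]
  have e2 : curv (fun y : ST => ρ y.2) = fun y => curv2 ρ y.2 := funext (curv_snd (hρ 2))
  rw [kapS, kap2, e1, e2, pd_dir2 (curv2 ρ), pd_dir2 (gsq ρ)]
  simp only [pd_snd_fun (hρ 1), pd_snd_fun (cd_gsq hρ), pd_snd_fun (cd_curv2 hρ)]

/-- `f` agrees in the domain with functions of every finite regularity. -/
def Sm (ρ : ℝ × ℝ → ℝ) (f : ST → ℝ) : Prop :=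
  ∀ k : ℕ, ∃ F, ContDiff ℝ k F ∧ ∀ z : ST, ρ z.2 < 0 → f z = F z

theorem Sm.at {ρ : ℝ × ℝ → ℝ} {f : ST → ℝ} (h : Sm ρ f) (z : ST) :
    SmAt (fun y : ST => ρ y.2) z f := fun k => by
  obtain ⟨F, a, b⟩ := h k
  exact ⟨F, a.contDiffAt, eventually_nhdsWithin_of_forall b⟩

theorem rot_test {ρ : ℝ × ℝ → ℝ} (h : Dom ρ) {a1 a2 w1 w2 : ST → ℝ} (ha1 : ContDiff ℝ (1 : ℕ) a1)
    (ha2 : ContDiff ℝ (1 : ℕ) a2) (hw1 : ContDiff ℝ (2 : ℕ) w1) (hw2 : ContDiff ℝ (2 : ℕ) w2)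
    (hS : ∀ y : ST, ρ y.2 < 0 → heat a1 a2 w1 y + (w1 y * pd e1 a1 y + w2 y * pd e2 a1 y) = 0 ∧
      heat a1 a2 w2 y + (w1 y * pd e1 a2 y + w2 y * pd e2 a2 y) = 0 ∧
      pd e1 a1 y + pd e2 a2 y = 0 ∧ pd e1 w1 y + pd e2 w2 y = 0) {c M : ℝ}
    (hB : ∀ y : ST, ρ y.2 = 0 → a1 y = 0 ∧ a2 y = 0 ∧ w1 y = 0 ∧ w2 y = 0 ∧ vort w1 w2 y = c)
    (hM : ∀ y, |w1 y| ≤ M ∧ |w2 y| ≤ M) {x : ℝ × ℝ} (hx : ρ x < 0) : c = 0 := by
  have u1 := cdg_le hw1 (by norm_num : 1 ≤ 2)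
  have u2 := cdg_le hw2 (by norm_num : 1 ≤ 2)
  have cX : ContDiff ℝ (1 : ℕ) fun y : ST => y.2.1 := by fun_prop
  have cY : ContDiff ℝ (1 : ℕ) fun y : ST => y.2.2 := by fun_prop
  have cω := cd_vort (n := 1) hw1 hw2
  have cm := (cX.mul u2).sub (cY.mul u1)
  have cn := (cX.mul ha2).sub (cY.mul ha1)
  have cF1 := ((((cω.sub (contDiff_const (c := c))).mul cX).sub
    ((contDiff_const (c := 2)).mul u2)).sub (ha1.mul cm)).sub (u1.mul cn)
  have cF2 := ((((cω.sub (contDiff_const (c := c))).mul cY).add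
    ((contDiff_const (c := 2)).mul u1)).sub (ha2.mul cm)).sub (u2.mul cn)
  have hd : ∀ t, HasDerivAt (fun s => ∫ x in {x | ρ x < 0}, (x.1 * w2 (s, x) - x.2 * w1 (s, x)))
      (volume.real {x | ρ x < 0} * (2 * c)) t := fun t => by
    have z1 := h.div_zero cF1 (t := t) (fun x hx => by simp [hB (t, x) hx]) (1, 0)
    have z2 := h.div_zero cF2 (t := t) (fun x hx => by simp [hB (t, x) hx]) (0, 1)
    have i1 := h.intST (contDiff_pd (n := 0) e1 cF1).continuous t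
    have i2 := h.intST (contDiff_pd (n := 0) e2 cF2).continuous t
    have z3 := integral_add i1 i2
    rw [z1, z2, add_zero] at z3
    have z4 := integral_add (i1.add i2) (h.int (continuous_const (y := 2 * c)))
    simp only [Pi.add_apply] at z4
    rw [z3, zero_add, setIntegral_const, smul_eq_mul] at z4
    convert h.hasDerivAt cm t using 1
    rw [← z4]
    refine setIntegral_congr_fun h.meas fun x hx => ?_
    have D := fun {f : ST → ℝ} (h : ContDiff ℝ (1 : ℕ) f) e =>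
      HD.of_diff (e := e) (cdg_diff h le_rfl (t, x))
    have X : ∀ e : ST, HD e (t, x) (fun y : ST => y.2.1) e.2.1 := fun e => by
      simpa [HD] using ((hasDerivAt_id (0 : ℝ)).mul_const e.2.1).const_add x.1
    have Y : ∀ e : ST, HD e (t, x) (fun y : ST => y.2.2) e.2.2 := fun e => by
      simpa [HD] using ((hasDerivAt_id (0 : ℝ)).mul_const e.2.2).const_add x.2
    have m := fun e => ((X e).mul (D u2 e)).sub ((Y e).mul (D u1 e))
    have n := fun e => ((X e).mul (D ha2 e)).sub ((Y e).mul (D ha1 e))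
    have k := fun e => (D cω e).sub (HD.const e (t, x) c)
    have f0 := (m e0).pd_eq (cdg_diff cm le_rfl _)
    have f1 := (((((k e1).mul (X e1)).sub ((D u2 e1).cmul 2)).sub ((D ha1 e1).mul (m e1))).sub
      ((D u1 e1).mul (n e1))).pd_eq (cdg_diff cF1 le_rfl _)
    have f2 := (((((k e2).mul (Y e2)).add ((D u1 e2).cmul 2)).sub ((D ha2 e2).mul (m e2))).sub
      ((D u2 e2).mul (n e2))).pd_eq (cdg_diff cF2 le_rfl _)
    have hU : ∀ᶠ y : ST in 𝓝 (t, x), ρ y.2 < 0 := (h.isOpen.preimage continuous_snd).mem_nhds hx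
    obtain ⟨v1, v2⟩ := vort_pd hw1 hw2 (hU.mono fun y hy => (hS y hy).2.2.2)
    obtain ⟨s1, s2, s3, s4⟩ := hS (t, x) hx
    unfold heat at s1 s2
    have v0 : vort w1 w2 (t, x) = pd e1 w2 (t, x) - pd e2 w1 (t, x) := rfl
    beta_reduce
    rw [f0, f1, f2, v1, v2, v0]
    simp only
    linear_combination -x.1 * s2 + x.2 * s1 - (x.1 * w2 (t, x) - x.2 * w1 (t, x)) * s3
      - (x.1 * a2 (t, x) - x.2 * a1 (t, x)) * s4
  obtain ⟨C, -, hC⟩ := h.bound (F := fun x => |x.1| + |x.2|) (by fun_prop)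
  have z := bdd_mono hd monotone_const (C := C * M * volume.real {x | ρ x < 0}) (fun t =>
    norm_setIntegral_le_of_norm_le_const (f := fun x : ℝ × ℝ => x.1 * w2 (t, x) - x.2 * w1 (t, x))
      h.vol fun x hx => by
      rw [Real.norm_eq_abs]
      have a := (le_abs_self _).trans (hC x hx)
      have b := hM (t, x)
      refine (abs_sub _ _).trans ?_
      rw [abs_mul, abs_mul]
      nlinarith [mul_le_mul_of_nonneg_left b.1 (abs_nonneg x.2), abs_nonneg (w1 (t, x)),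
        mul_le_mul_of_nonneg_left b.2 (abs_nonneg x.1)]) 0
  have V : 0 < volume.real {x | ρ x < 0} :=
    ENNReal.toReal_pos (h.isOpen.measure_pos volume ⟨x, hx⟩).ne' h.vol.ne
  have := (mul_eq_zero.1 z).resolve_left V.ne'
  linarith

theorem zero_of_complete {ρ g₁ g₂ : ℝ × ℝ → ℝ} (hρ : ∀ k : ℕ, ContDiff ℝ k ρ) (h : Dom ρ)
    (hc : IsPreconnected {x | ρ x < 0}) (hg₁ : ∀ k : ℕ, ContDiff ℝ k g₁)
    (hg₂ : ∀ k : ℕ, ContDiff ℝ k g₂) {x₀ : ℝ × ℝ} (h0 : ρ x₀ = 0) (hk : curv2 ρ x₀ ≠ 0)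
    (H : ∀ L, Tendsto (fun x => (pd (1, 0) g₂ x - pd (0, 1) g₁ x) / ρ x ^ 6)
      (𝓝[{x | ρ x < 0}] x₀) (𝓝 L) →
        IsPreconnected {x | ρ x = 0} ∧ kap2 ρ x₀ ≠ 0 ∧ 0 ≤ L * kap2 ρ x₀)
    {a1 a2 w1 w2 P : ST → ℝ} (ha1 : ContDiff ℝ (2 : ℕ) a1) (ha2 : ContDiff ℝ (2 : ℕ) a2)
    (hw1 : ContDiff ℝ (4 : ℕ) w1) (hw2 : ContDiff ℝ (4 : ℕ) w2) (hP : ContDiff ℝ (2 : ℕ) P)
    (sa1 : Sm ρ a1) (sa2 : Sm ρ a2) (sw1 : Sm ρ w1) (sw2 : Sm ρ w2)
    (hS : ∀ y : ST, ρ y.2 < 0 → Sys a1 a2 w1 w2 P (fun y => g₁ y.2) (fun y => g₂ y.2) y)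
    (hB : ∀ y : ST, ρ y.2 = 0 → a1 y = 0 ∧ a2 y = 0 ∧ w1 y = 0 ∧ w2 y = 0) {M : ℝ}
    (hM : ∀ y, |w1 y| ≤ M ∧ |w2 y| ≤ M) (hM' : ∀ y, |vort w1 w2 y| ≤ 2 * M) :
    ∀ x, ρ x < 0 → ∀ t, w1 (t, x) = 0 ∧ w2 (t, x) = 0 := by
  have hr : ∀ k : ℕ, ContDiff ℝ k fun y : ST => ρ y.2 := fun k => (hρ k).comp contDiff_snd
  have l1 := fun {f : ST → ℝ} (h : ContDiff ℝ (4 : ℕ) f) => cdg_le h (by norm_num : 1 ≤ 4)
  have l2 := fun {f : ST → ℝ} (h : ContDiff ℝ (4 : ℕ) f) => cdg_le h (by norm_num : 2 ≤ 4)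
  have l3 := fun {f : ST → ℝ} (h : ContDiff ℝ (4 : ℕ) f) => cdg_le h (by norm_num : 3 ≤ 4)
  have cω := cd_vort (n := 3) hw1 hw2
  have cω1 := cdg_le cω (by norm_num : 1 ≤ 3)
  have t0 : ∀ {f : ℝ × ℝ → ℝ}, ContDiff ℝ (1 : ℕ) f → pd e0 (fun y : ST => f y.2) = 0 :=
    fun hf => by rw [pd_snd_fun hf]; funext z; simp [pd, Prod.mk_zero_zero]
  have hU : ∀ y : ST, ρ y.2 < 0 → ∀ᶠ z : ST in 𝓝 y, ρ z.2 < 0 := fun y hy =>
    (h.isOpen.preimage continuous_snd).mem_nhds hy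
  have rd : ∀ y : ST, ρ y.2 = 0 → fderiv ℝ (fun y : ST => ρ y.2) y ≠ 0 := fun y hy hz =>
    h.2.1 _ hy (fderiv_zero_of_pd fun e => by
      rw [← pd_snd (cdg_diff (hρ 1) le_rfl _) (0, e)]; unfold pd; rw [hz]; rfl)
  have cl : ∀ y : ST, ρ y.2 = 0 → ∀ f : ST → ℝ, Continuous f → (∀ z : ST, ρ z.2 < 0 → f z = 0) →
      f y = 0 := fun y hy f hf hz => eq_zero_of_closure hf.continuousAt
    (mem_closure_neg (r := fun y : ST => ρ y.2) hy (rd y hy)) (Eventually.of_forall hz)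
  have ca := fun {f : ST → ℝ} (h : ContDiff ℝ (2 : ℕ) f) e => (contDiff_pd (n := 1) e h).continuous
  have cb := fun {f : ST → ℝ} (h : ContDiff ℝ (4 : ℕ) f) e =>
    (contDiff_pd (n := 2) e (contDiff_pd (n := 3) e h)).continuous
  have gω : ∀ t y, ρ y = 0 → fderiv ℝ (fun x => vort w1 w2 (t, x)) y = 0 := fun t y hy => by
    refine fderiv_zero_of_pd fun e => ?_
    obtain ⟨b1, b2, b3, b4⟩ := hB (t, y) hy
    have c0 := fun {f : ST → ℝ} (h : ContDiff ℝ (4 : ℕ) f) => (cd_heat (n := 0)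
      (contDiff_zero.2 ha1.continuous) (contDiff_zero.2 ha2.continuous) (l2 h)).continuous
    have p1 := cl (t, y) hy _ ((c0 hw1).add ((hw1.continuous.mul (ca ha1 e1)).add
      (hw2.continuous.mul (ca ha1 e2)))) fun z hz => (hS z hz).1.1
    have p2 := cl (t, y) hy _ ((c0 hw2).add ((hw1.continuous.mul (ca ha2 e1)).add
      (hw2.continuous.mul (ca ha2 e2)))) fun z hz => (hS z hz).1.2.1
    have p3 := cl (t, y) hy _ ((ca (cdg_le cω (by norm_num)) e1).sub ((cb hw2 e1).add (cb hw2 e2)))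
      fun z hz => sub_eq_zero.2 (vort_pd (l2 hw1) (l2 hw2)
        ((hU z hz).mono fun y hy => (hS y hy).1.2.2.2)).1
    have p4 := cl (t, y) hy _ ((ca (cdg_le cω (by norm_num)) e2).sub
      ((cb hw1 e1).add (cb hw1 e2)).neg) fun z hz => sub_eq_zero.2 (vort_pd (l2 hw1) (l2 hw2)
        ((hU z hz).mono fun y hy => (hS y hy).1.2.2.2)).2
    have p5 := pd_time_zero (l1 hw1) (fun y hy => (hB y hy).2.2.1) (z := (t, y)) hy
    have p6 := pd_time_zero (l1 hw2) (fun y hy => (hB y hy).2.2.2) (z := (t, y)) hy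
    simp only [heat, Pi.add_apply, Pi.sub_apply, Pi.mul_apply, Pi.neg_apply, b1, b2, b3, b4, p5,
      p6] at p1 p2 p3 p4
    rw [pd_dir2, pd_slice (cdg_diff cω1 le_rfl _), pd_slice (cdg_diff cω1 le_rfl _)]
    linear_combination e.1 * (p3 - p2) + e.2 * (p4 + p1)
  have dω : ∀ t, Differentiable ℝ fun x => vort w1 w2 (t, x) := fun t x =>
    cdg_diff (cω1.comp (by fun_prop : ContDiff ℝ (1 : ℕ) fun x : ℝ × ℝ => ((t, x) : ST))) le_rfl x
  have jet : ∀ t, vort w1 w2 (t, x₀) ≠ 0 → IsPreconnected {x | ρ x = 0} ∧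
      0 ≤ vort w1 w2 (t, x₀) * pd e0 (pd e0 (vort w1 w2)) (t, x₀)
        - pd e0 (vort w1 w2) (t, x₀) ^ 2 := fun t ht => by
    obtain ⟨L, k1, k2⟩ := jet6 (z := (t, x₀)) hr (t0 (hρ 1)) h0 (by rwa [curv_snd (hρ 2)])
      (sa1.at _) (sa2.at _) (sw1.at _) (sw2.at _) ha1.continuous ha2.continuous (l3 hw1) (l3 hw2)
      hP (g1 := fun y => g₁ y.2) (g2 := fun y => g₂ y.2) (fun k => (hg₁ k).comp contDiff_snd)
      (fun k => (hg₂ k).comp contDiff_snd) (t0 (hg₁ 1))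
      (t0 (hg₂ 1)) (eventually_nhdsWithin_of_forall hS) (Eventually.of_forall hB) ht
    have tt : Tendsto (fun x : ℝ × ℝ => ((t, x) : ST)) (𝓝[{x | ρ x < 0}] x₀)
        (𝓝[{y : ST | ρ y.2 < 0}] (t, x₀)) :=
      (Continuous.continuousWithinAt (by fun_prop)).tendsto_nhdsWithin fun x hx => hx
    obtain ⟨m1, m2, m3⟩ := H L ((k1.comp tt).congr fun x => by
      simp only [Function.comp, vort, Pi.sub_apply, pd_snd_fun (hg₁ 1), pd_snd_fun (hg₂ 1)])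
    rw [kapS_snd hρ] at k2
    refine ⟨m1, ?_⟩
    by_contra hn
    have p := mul_pos (neg_pos.2 (not_le.1 hn)) (mul_self_pos.2 m2)
    have q : 0 ≤ 180 * GS (fun y : ST => ρ y.2) (t, x₀) ^ 6 * (L * kap2 ρ x₀) := by positivity
    have k3 := congrArg (· * kap2 ρ x₀) k2
    simp only at k3
    nlinarith
  have cst := const_of_convex (fun t => hasDerivAt_time cω1 x₀ t)
    (fun t => hasDerivAt_time (contDiff_pd (n := 1) e0 (cdg_le cω (by norm_num))) x₀ t)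
    (fun t => hM' _) fun t ht => (jet t ht).2
  obtain ⟨x₁, hx₁⟩ : {x | ρ x < 0}.Nonempty :=
    closure_nonempty_iff.1 ⟨x₀, mem_closure_neg h0 (h.2.1 _ h0)⟩
  have c0 : ∀ t, vort w1 w2 (t, x₀) = 0 := fun t => by
    by_contra hne
    refine hne (rot_test h (cdg_le ha1 (by norm_num)) (cdg_le ha2 (by norm_num)) (l2 hw1) (l2 hw2)
      (fun y hy => (hS y hy).1) (fun y hy => ?_) hM hx₁)
    obtain ⟨b1, b2, b3, b4⟩ := hB y hy
    refine ⟨b1, b2, b3, b4, Eq.trans ?_ (cst y.1 t)⟩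
    refine (jet t hne).1.induction₂' (fun x x' => vort w1 w2 (y.1, x) = vort w1 w2 (y.1, x'))
      (fun x hx => ?_) (fun _ _ _ _ _ _ a b => a.trans b) hy h0
    filter_upwards [mem_nhdsWithin_of_mem_nhds (arc_const (hρ 1).contDiffAt hx (h.2.1 _ hx)),
      self_mem_nhdsWithin] with x' a b
    exact ⟨(a b _ (dω _) (gω _)).symm, a b _ (dω _) (gω _)⟩
  intro x hx t
  refine zero_of_arc (r := fun y : ST => ρ y.2) (hρ 1) (fun _ => rfl) (hr 4) hc isOpen_univ ha1 ha2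
    hw1 hw2 (fun y _ hy => ⟨(hS y hy).1.1, (hS y hy).1.2.1⟩) h0 (h.2.1 _ h0) ?_ x hx t (mem_univ _)
  filter_upwards [(curv2_cont (hρ 2)).continuousAt.eventually_ne hk,
    arc_const (hρ 1).contDiffAt h0 (h.2.1 _ h0)] with y h1 h2 s _ hy
  have k : curv (fun y : ST => ρ y.2) (s, y) ≠ 0 := by rwa [curv_snd (hρ 2)]
  refine ⟨k, (hB (s, y) hy).2.2.1, (hB (s, y) hy).2.2.2, fun e => ?_⟩
  have o : vort w1 w2 (s, y) = 0 := (h2 hy _ (dω s) (gω s)).trans (c0 s)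
  have dv : ∀ f : ST → ℝ, ContDiff ℝ (4 : ℕ) f → (∀ y : ST, ρ y.2 = 0 → f y = 0) →
      ∃ W : ℝ, ∀ e, pd e f (s, y) = pd e (fun y : ST => ρ y.2) (s, y) * W := fun f hf hv => by
    obtain ⟨W, b1, b2⟩ := exists_div (n := 1) (z₀ := (s, y)) (hr 2).contDiffAt (l2 hf).contDiffAt
      hy (rd _ hy) (Eventually.of_forall hv)
    exact ⟨_, grad_zero_of_van (hr 1).contDiffAt b1 hy (b2.mono fun y hy => by simpa using hy)⟩
  obtain ⟨W1, q1⟩ := dv w1 hw1 fun y hy => (hB y hy).2.2.1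
  obtain ⟨W2, q2⟩ := dv w2 hw2 fun y hy => (hB y hy).2.2.2
  have d := cl (s, y) hy _ ((ca (l2 hw1) e1).add (ca (l2 hw2) e2)) fun z hz => (hS z hz).1.2.2.2
  simp only [vort, Pi.add_apply, Pi.sub_apply, q1, q2] at d o ⊢
  have G : pd e1 (fun y : ST => ρ y.2) (s, y) ^ 2 + pd e2 (fun y : ST => ρ y.2) (s, y) ^ 2 ≠ 0 := by
    intro hG
    apply k
    unfold curv
    generalize pd e1 (fun y : ST => ρ y.2) (s, y) = r1 at *
    generalize pd e2 (fun y : ST => ρ y.2) (s, y) = r2 at *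
    rw [show r1 = 0 by nlinarith [sq_nonneg r1, sq_nonneg r2],
      show r2 = 0 by nlinarith [sq_nonneg r1, sq_nonneg r2]]
    ring
  generalize pd e1 (fun y : ST => ρ y.2) (s, y) = r1 at *
  generalize pd e2 (fun y : ST => ρ y.2) (s, y) = r2 at *
  have z1 : W1 = 0 := (mul_eq_zero.1 (by linear_combination r1 * d - r2 * o)).resolve_left G
  have z2 : W2 = 0 := (mul_eq_zero.1 (by linear_combination r2 * d + r1 * o)).resolve_left G
  simp [z1, z2]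

end Pool.Agent.MP_ed9623_an.H64
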