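import Pool.Agent.MP_ed9623_an.H64.Time1

open Filter Topology MeasureTheory Set
open scoped ContDiff

namespace Pool.Agent.MP_ed9623_an.H64

noncomputable def sq2 (c : PP) (s : ℝ) : SA PP :=
  ⟨fun x => (x.1 - c.1) ^ 2 + (x.2 - c.2) ^ 2 - s, (by fun_prop :
    ContDiff ℝ ∞ fun x : PP => (x.1 - c.1) ^ 2 + (x.2 - c.2) ^ 2 - s)⟩

theorem sq2_D (c : PP) (s : ℝ) (e x : PP) :
    (D e (sq2 c s)).1 x = 2 * (x.1 - c.1) * e.1 + 2 * (x.2 - c.2) * e.2 := by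
  refine HD.pd_eq ?_ (cdg_diff ((sq2 c s).cd 1) le_rfl x)
  have X := (((hasDerivAt_id (0 : ℝ)).mul_const e.1).const_add x.1).sub_const c.1
  have Y := (((hasDerivAt_id (0 : ℝ)).mul_const e.2).const_add x.2).sub_const c.2
  have := ((X.fun_pow 2).fun_add (Y.fun_pow 2)).sub_const s
  simpa [HD, sq2] using this

theorem sq2_dist {c x : PP} {r : ℝ} (hr : 0 < r) (h : (sq2 c (r ^ 2)).1 x < 0) : dist x c < r := by
  change (x.1 - c.1) ^ 2 + (x.2 - c.2) ^ 2 - r ^ 2 < 0 at h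
  rw [Prod.dist_eq, max_lt_iff, Real.dist_eq, Real.dist_eq]
  constructor <;> refine abs_lt_of_sq_lt_sq ?_ hr.le <;>
    linarith [sq_nonneg (x.1 - c.1), sq_nonneg (x.2 - c.2)]

theorem D_up (g : SA PP) (e : PP) : D (0, e) (up g) = up (D e g) :=
  Subtype.ext (pd_snd_fun (g.cd 1) _)

end Pool.Agent.MP_ed9623_an.H64
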