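import Pool.Agent.MP_ed9623_an.H64.Mane

open Filter Topology MeasureTheory Set
open scoped ENNReal

namespace Pool.Agent.MP_ed9623_an.H64

theorem inner_toLp {X : Type*} [MeasurableSpace X] {μ : Measure X} (K : Lp ℝ 2 μ) {F : X → ℝ}
    (hF : MemLp F 2 μ) : inner ℝ K (hF.toLp F) = ∫ x, K x * F x ∂μ := by
  rw [L2.inner_def]
  refine integral_congr_ae ?_
  filter_upwards [hF.coeFn_toLp] with x hx
  rw [hx]; simp [mul_comm]

theorem kernels {X J ι κ : Type*} [MeasurableSpace X] (μ : Measure X) [IsFiniteMeasure μ]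
    [Fintype κ] (k : J → X → ℝ) (hk : ∀ j, AEStronglyMeasurable (k j) μ)
    (hk1 : ∀ j, ∀ᵐ x ∂μ, ‖k j x‖ ≤ 1) (F : ι → X → ℝ) (hF : ∀ a, MemLp (F a) 2 μ) {C : ℝ}
    (hC : 0 < C) (h : ∀ n : ℕ, ∃ c : ι → (Fin n → κ), ∀ a b, c a = c b → ∀ j,
      |∫ x, k j x * F a x ∂μ - ∫ x, k j x * F b x ∂μ| ≤ C / 2 ^ n) :
    ∃ (N : ℕ) (K : Fin N → X → ℝ), (∀ i, MemLp (K i) 2 μ) ∧
      ∀ a, (∀ i, ∫ x, K i x * F a x ∂μ = 0) → ∀ j, ∫ x, k j x * F a x ∂μ = 0 := by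
  have mk : ∀ j, MemLp (k j) 2 μ := fun j => MemLp.of_bound (hk j) 1 (hk1 j)
  let kk : J → Lp ℝ 2 μ := fun j => (mk j).toLp (k j)
  obtain ⟨D, D0, hD⟩ : ∃ D : ℝ, 0 ≤ D ∧ ∀ j, ‖kk j‖ ≤ D := by
    refine ⟨_, ?_, fun j => Lp.norm_le_of_ae_bound zero_le_one ?_⟩
    · positivity
    · filter_upwards [(mk j).coeFn_toLp, hk1 j] with x h1 h2
      rw [h1]; exact h2
  have bd : ∀ (u : Lp ℝ 2 μ) j, ‖inner ℝ (kk j) u‖ ≤ D * ‖u‖ := fun u j =>
    (norm_inner_le_norm _ _).trans (mul_le_mul_of_nonneg_right (hD j) (norm_nonneg _))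
  let T0 : Lp ℝ 2 μ →ₗ[ℝ] lp (fun _ : J => ℝ) ∞ :=
    { toFun := fun u => ⟨fun j => inner ℝ (kk j) u,
        memℓp_infty ⟨D * ‖u‖, by rintro _ ⟨j, rfl⟩; exact bd u j⟩⟩
      map_add' := fun u v => by
        ext j
        exact inner_add_right _ _ _
      map_smul' := fun c u => by
        ext j
        exact inner_smul_right _ _ _ }
  let T : Lp ℝ 2 μ →L[ℝ] lp (fun _ : J => ℝ) ∞ := T0.mkContinuous D fun u =>
    lp.norm_le_of_forall_le (by positivity) fun j => bd u j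
  have hT : ∀ a j, T ((hF a).toLp (F a)) j = ∫ x, k j x * F a x ∂μ := fun a j => by
    change inner ℝ (kk j) _ = _
    rw [inner_toLp]
    refine integral_congr_ae ?_
    filter_upwards [(mk j).coeFn_toLp] with x hx
    rw [hx]
  obtain ⟨N, Λ, hΛ⟩ := mane_cover (κ := κ) (fun a => T ((hF a).toLp (F a))) hC fun n => by
    obtain ⟨c, hc⟩ := h n
    refine ⟨c, fun a b hab => lp.norm_le_of_forall_le (by positivity) fun j => ?_⟩
    rw [lp.coeFn_sub, Pi.sub_apply, hT, hT]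
    exact hc a b hab j
  let Φ : Fin N → Lp ℝ 2 μ →L[ℝ] ℝ := fun i => (ContinuousLinearMap.proj i).comp (Λ.comp T)
  refine ⟨N, fun i => (InnerProductSpace.toDual ℝ (Lp ℝ 2 μ)).symm (Φ i),
    fun i => Lp.memLp _, fun a ha j => ?_⟩
  rw [← hT, hΛ a]
  · rfl
  · funext i
    have := ha i
    rw [← inner_toLp _ (hF a), InnerProductSpace.toDual_symm_apply] at this
    exact this

end Pool.Agent.MP_ed9623_an.H64
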