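import Pool.Agent.MP_ed9623_an.H64.Hold
import Pool.Agent.MP_ed9623_an.H64.Func

open Filter Topology MeasureTheory Set

namespace Pool.Agent.MP_ed9623_an.H64

def shift (c : ℝ) (f : ST → ℝ) : ST → ℝ := fun z => f (z + (c, 0))

theorem pd_shift (c : ℝ) (e : ST) (f : ST → ℝ) : pd e (shift c f) = shift c (pd e f) := by
  funext z
  unfold pd shift
  rw [fderiv_comp_add_right]

theorem cd_shift (c : ℝ) {n : ℕ} {f : ST → ℝ} (hf : ContDiff ℝ n f) : ContDiff ℝ n (shift c f) :=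
  hf.comp (contDiff_id.add contDiff_const)

theorem shift_apply (c t : ℝ) (x : ℝ × ℝ) (f : ST → ℝ) : shift c f (t, x) = f (t + c, x) := by
  simp [shift]

theorem NS.shift {Ω : Set (ℝ × ℝ)} {g₁ g₂ : ℝ × ℝ → ℝ} {u₁ u₂ p : ST → ℝ} {t c : ℝ}
    (h : NS Ω g₁ g₂ u₁ u₂ p (t + c)) :
    NS Ω g₁ g₂ (shift c u₁) (shift c u₂) (shift c p) t := by
  unfold NS heat at *
  simp only [pd_shift, shift_apply]
  exact h

/-- Complete trajectories with uniform bounds. -/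
structure Tr (ρ g₁ g₂ : ℝ × ℝ → ℝ) (M : ℝ) where
  u1 : ST → ℝ
  u2 : ST → ℝ
  p : ST → ℝ
  hu1 : ContDiff ℝ (6 : ℕ) u1
  hu2 : ContDiff ℝ (6 : ℕ) u2
  hp : ContDiff ℝ (2 : ℕ) p
  ns : ∀ t, NS {x | ρ x < 0} g₁ g₂ u1 u2 p t
  b0 : ∀ z, |u1 z| ≤ M ∧ |u2 z| ≤ M
  b1 : ∀ z, |pd e1 u1 z| ≤ M ∧ |pd e2 u1 z| ≤ M ∧ |pd e1 u2 z| ≤ M ∧ |pd e2 u2 z| ≤ M
  b2 : ∀ z, |pd e0 (pd e0 u1) z| ≤ M ∧ |pd e0 (pd e0 u2) z| ≤ M

variable {ρ g₁ g₂ : ℝ × ℝ → ℝ} {M : ℝ}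

def Tr.sh (c : ℝ) (τ : Tr ρ g₁ g₂ M) : Tr ρ g₁ g₂ M where
  u1 := shift c τ.u1
  u2 := shift c τ.u2
  p := shift c τ.p
  hu1 := cd_shift c τ.hu1
  hu2 := cd_shift c τ.hu2
  hp := cd_shift c τ.hp
  ns := fun t => (τ.ns (t + c)).shift
  b0 := fun _ => τ.b0 _
  b1 := fun z => by simp only [pd_shift]; exact τ.b1 _
  b2 := fun z => by simp only [pd_shift]; exact τ.b2 _

theorem abs_hsum {u v : ST → ℝ} {z : ST} (h1 : |u z| ≤ M) (h2 : |v z| ≤ M) : |hsum u v z| ≤ M := by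
  unfold hsum
  rw [abs_le] at *
  constructor <;> linarith [h1.1, h1.2, h2.1, h2.2]

theorem abs_hdif {u v : ST → ℝ} {z : ST} (h1 : |u z| ≤ M) (h2 : |v z| ≤ M) : |hdif u v z| ≤ M := by
  unfold hdif
  rw [abs_le] at *
  constructor <;> linarith [h1.1, h1.2, h2.1, h2.2]

theorem Tr.lin (h : Dom ρ) (τ σ : Tr ρ g₁ g₂ M) : Lin ρ M (hsum τ.u1 σ.u1) (hsum τ.u2 σ.u2)
    (hdif τ.u1 σ.u1) (hdif τ.u2 σ.u2) (hdif τ.p σ.p) := by
  have l1 := fun {f : ST → ℝ} (h : ContDiff ℝ (6 : ℕ) f) => cdg_le h (by norm_num : 1 ≤ 6)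
  have l2 := fun {f : ST → ℝ} (h : ContDiff ℝ (6 : ℕ) f) => cdg_le h (by norm_num : 2 ≤ 6)
  have l3 := fun {f : ST → ℝ} (h : ContDiff ℝ (6 : ℕ) f) e => contDiff_pd (n := 1) e (l2 h)
  have p1 := cdg_le τ.hp (by norm_num : 1 ≤ 2)
  have q1 := cdg_le σ.hp (by norm_num : 1 ≤ 2)
  refine ⟨l1 (cd_hsum τ.hu1 σ.hu1), l1 (cd_hsum τ.hu2 σ.hu2), l2 (cd_hdif τ.hu1 σ.hu1),
    l2 (cd_hdif τ.hu2 σ.hu2), cd_hdif p1 q1, fun z hz => ?_, fun z hz => ?_,
    fun z => ⟨abs_hsum (τ.b0 z).1 (σ.b0 z).1, abs_hsum (τ.b0 z).2 (σ.b0 z).2⟩, fun z => ?_,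
    fun z => ?_⟩
  · obtain ⟨a1, a2, a3⟩ := (τ.ns z.1).1 z.2 hz
    obtain ⟨b1, b2, b3⟩ := (σ.ns z.1).1 z.2 hz
    simp only [Prod.mk.eta] at a1 a2 a3 b1 b2 b3
    rw [heat_hdif _ _ (l2 τ.hu1) (l2 σ.hu1), heat_hdif _ _ (l2 τ.hu2) (l2 σ.hu2)]
    simp only [pd_hsum (l1 τ.hu1) (l1 σ.hu1), pd_hsum (l1 τ.hu2) (l1 σ.hu2),
      pd_hdif (l1 τ.hu1) (l1 σ.hu1), pd_hdif (l1 τ.hu2) (l1 σ.hu2), pd_hdif p1 q1]
    unfold heat hsum hdif at *
    refine ⟨?_, ?_, ?_⟩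
    · linear_combination (1 / 2) * (a1 - b1)
    · linear_combination (1 / 2) * (a2 - b2)
    · linear_combination (1 / 2) * (a3 - b3)
  · have hf := mem_frontier_of_zero h.1.continuous hz (h.2.1 _ hz)
    obtain ⟨a1, a2⟩ := (τ.ns z.1).2 z.2 hf
    obtain ⟨b1, b2⟩ := (σ.ns z.1).2 z.2 hf
    simp only [Prod.mk.eta] at a1 a2 b1 b2
    simp only [hdif, a1, a2, b1, b2]
    norm_num
  · simp only [pd_hsum (l1 τ.hu1) (l1 σ.hu1), pd_hsum (l1 τ.hu2) (l1 σ.hu2)]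
    exact ⟨abs_hsum (τ.b1 z).1 (σ.b1 z).1, abs_hsum (τ.b1 z).2.1 (σ.b1 z).2.1,
      abs_hsum (τ.b1 z).2.2.1 (σ.b1 z).2.2.1, abs_hsum (τ.b1 z).2.2.2 (σ.b1 z).2.2.2⟩
  · rw [pd_hdif (l1 τ.hu1) (l1 σ.hu1), pd_hdif (l1 τ.hu2) (l1 σ.hu2),
      pd_hdif (l3 τ.hu1 e0) (l3 σ.hu1 e0), pd_hdif (l3 τ.hu2 e0) (l3 σ.hu2 e0)]
    exact ⟨abs_hdif (τ.b2 z).1 (σ.b2 z).1, abs_hdif (τ.b2 z).2 (σ.b2 z).2⟩

noncomputable def Tr.D (τ σ : Tr ρ g₁ g₂ M) : ℝ := En ρ (hdif τ.u1 σ.u1) (hdif τ.u2 σ.u2) 0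

theorem Tr.D_sh (τ σ : Tr ρ g₁ g₂ M) : (τ.sh (-1)).D (σ.sh (-1))
    = En ρ (hdif τ.u1 σ.u1) (hdif τ.u2 σ.u2) (-1) := by
  simp only [Tr.D, En, Tr.sh, hdif, shift_apply, zero_add]

theorem Tr.cover (h : Dom ρ) (g₁ g₂ : ℝ × ℝ → ℝ) (M : ℝ) : ∃ (m K : ℕ), ∀ n : ℕ,
    ∃ c : Tr ρ g₁ g₂ M → (Fin n → (Fin m × Bool → Fin K)), ∀ a b, c a = c b →
      a.D b ≤ 2 * M ^ 2 * volume.real {x | ρ x < 0} / 2 ^ n := by
  set V := volume.real {x | ρ x < 0} with hV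
  have V0 : 0 ≤ V := measureReal_nonneg
  set X := Real.exp (2 * (12 * M ^ 2 + 2)) with hX
  have X0 : 0 < X := Real.exp_pos _
  obtain ⟨m, κ, A, A0, cκ, hP⟩ := h.poincare (ε := 1 / (4 * X)) (by positivity)
  obtain ⟨B, B0, hB⟩ := h.bound (F := fun x => ∑ i, |κ i x|) (by fun_prop)
  have hB' : ∀ i x, ρ x < 0 → |κ i x| ≤ B := fun i x hx =>
    (Finset.single_le_sum (f := fun i => |κ i x|) (fun j _ => abs_nonneg _)
      (Finset.mem_univ i)).trans ((le_abs_self _).trans (hB x hx))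
  let l : Tr ρ g₁ g₂ M → Fin m × Bool → ℝ := fun a i =>
    1 / 2 * ∫ x in {x | ρ x < 0}, κ i.1 x * (if i.2 then a.u1 else a.u2) (0, x)
  have hl : ∀ (u v : ST → ℝ) i, Continuous u → Continuous v →
      (1 / 2 * ∫ x in {x | ρ x < 0}, κ i x * u (0, x))
        - 1 / 2 * ∫ x in {x | ρ x < 0}, κ i x * v (0, x)
      = ∫ x in {x | ρ x < 0}, κ i x * hdif u v (0, x) := fun u v i cu cv => by
    have := cκ i
    rw [← mul_sub, ← integral_sub (h.int (by fun_prop)) (h.int (by fun_prop)),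
      ← integral_const_mul]
    congr 1; funext x; unfold hdif; ring
  have sm := fun a b : Tr ρ g₁ g₂ M => (Tr.lin h a b).smoothing h (t := 0)
    ⟨by norm_num, by norm_num⟩
  refine ⟨m, cover_iter (Tr.sh (-1)) Tr.D l (A := A) (Bc := B ^ 2 * V * X) (by positivity) A0
    (by positivity) (fun a b => ?_) (fun a b => ?_) fun a b i => ?_⟩
  · have := norm_setIntegral_le_of_norm_le_const (μ := volume) (s := {x | ρ x < 0})
      (f := fun x => hdif a.u1 b.u1 (0, x) ^ 2 + hdif a.u2 b.u2 (0, x) ^ 2) (C := 2 * M ^ 2)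
      h.vol fun x _ => by
        rw [Real.norm_eq_abs, abs_of_nonneg (by positivity)]
        linarith [sq_le_of_abs (abs_hdif (a.b0 (0, x)).1 (b.b0 (0, x)).1),
          sq_le_of_abs (abs_hdif (a.b0 (0, x)).2 (b.b0 (0, x)).2)]
    exact (le_abs_self _).trans this
  · have L := Tr.lin h a b
    have u1 := cdg_le L.hw1 (by norm_num : 1 ≤ 2)
    have u2 := cdg_le L.hw2 (by norm_num : 1 ≤ 2)
    have P1 := hP (fun x => hdif a.u1 b.u1 (0, x)) (u1.comp (by fun_prop))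
      fun x hx => (L.bc (0, x) hx).1
    have P2 := hP (fun x => hdif a.u2 b.u2 (0, x)) (u2.comp (by fun_prop))
      fun x hx => (L.bc (0, x) hx).2
    simp only [pd_slice (cdg_diff u1 le_rfl _), pd_slice (cdg_diff u2 le_rfl _)] at P1 P2
    have c1 := u1.continuous
    have c2 := u2.continuous
    have s := sm a b
    rw [Tr.D_sh, Fintype.sum_prod_type]
    simp only [Fintype.sum_bool, l, if_true, Bool.false_eq_true, if_false,
      hl _ _ _ a.hu1.continuous b.hu1.continuous, hl _ _ _ a.hu2.continuous b.hu2.continuous,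
      Finset.sum_add_distrib]
    have e1 : a.D b = (∫ x in {x | ρ x < 0}, hdif a.u1 b.u1 (0, x) ^ 2)
        + ∫ x in {x | ρ x < 0}, hdif a.u2 b.u2 (0, x) ^ 2 :=
      integral_add (h.int (by fun_prop)) (h.int (by fun_prop))
    have e2 : Gn ρ (hdif a.u1 b.u1) (hdif a.u2 b.u2) 0
        = (∫ x in {x | ρ x < 0}, gr (hdif a.u1 b.u1) (0, x))
        + ∫ x in {x | ρ x < 0}, gr (hdif a.u2 b.u2) (0, x) :=
      integral_add (h.intST (ct_gr L.hw1) 0) (h.intST (ct_gr L.hw2) 0)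
    have s2 : Gn ρ (hdif a.u1 b.u1) (hdif a.u2 b.u2) 0
        ≤ X * En ρ (hdif a.u1 b.u1) (hdif a.u2 b.u2) (-1) := by
      linarith [En_nonneg ρ (hdif a.u1 b.u1) (hdif a.u2 b.u2) 0]
    have s3 := mul_le_mul_of_nonneg_left s2 (by positivity : 0 ≤ 1 / (4 * X))
    have e3 : 1 / (4 * X) * (X * En ρ (hdif a.u1 b.u1) (hdif a.u2 b.u2) (-1))
        = 1 / 4 * En ρ (hdif a.u1 b.u1) (hdif a.u2 b.u2) (-1) := by field_simp
    rw [e2, e3] at s3
    unfold gr at s3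
    rw [e1]
    linarith
  · have L := Tr.lin h a b
    have c1 := L.hw1.continuous
    have c2 := L.hw2.continuous
    have s := sm a b
    have s2 : En ρ (hdif a.u1 b.u1) (hdif a.u2 b.u2) 0
        ≤ X * En ρ (hdif a.u1 b.u1) (hdif a.u2 b.u2) (-1) := by
      linarith [Gn_nonneg ρ (hdif a.u1 b.u1) (hdif a.u2 b.u2) 0]
    have key : ∀ w : ST → ℝ, Continuous w →
        (∀ z, w z ^ 2 ≤ hdif a.u1 b.u1 z ^ 2 + hdif a.u2 b.u2 z ^ 2) →
        (∫ x in {x | ρ x < 0}, κ i.1 x * w (0, x)) ^ 2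
          ≤ B ^ 2 * V * X * En ρ (hdif a.u1 b.u1) (hdif a.u2 b.u2) (-1) := fun w cw hw => by
      have := cκ i.1
      have t1 : |∫ x in {x | ρ x < 0}, κ i.1 x * w (0, x)|
          ≤ B * ∫ x in {x | ρ x < 0}, |w (0, x)| := by
        rw [← integral_const_mul]
        refine abs_integral_le_integral_abs.trans (setIntegral_mono_on (h.int (by fun_prop))
          (h.int (by fun_prop)) h.meas fun x hx => ?_)
        rw [abs_mul]
        exact mul_le_mul_of_nonneg_right (hB' _ x hx) (abs_nonneg _)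
      have t2 := h.sq_int_le (F := fun x => w (0, x)) (by fun_prop)
      have t3 : ∫ x in {x | ρ x < 0}, w (0, x) ^ 2 ≤ En ρ (hdif a.u1 b.u1) (hdif a.u2 b.u2) 0 :=
        integral_mono (h.int (by fun_prop)) (h.int (by fun_prop)) fun x => hw _
      have t4 := sq_le_of_abs t1
      have t5 := mul_le_mul_of_nonneg_left (t2.trans (mul_le_mul_of_nonneg_left (t3.trans s2) V0))
        (sq_nonneg B)
      rw [mul_pow] at t4
      linarith
    rw [Tr.D_sh]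
    obtain ⟨i, j⟩ := i
    cases j
    · simp only [l, Bool.false_eq_true, if_false, hl _ _ _ a.hu2.continuous b.hu2.continuous]
      exact key _ c2 fun z => by nlinarith [sq_nonneg (hdif a.u1 b.u1 z)]
    · simp only [l, if_true, hl _ _ _ a.hu1.continuous b.hu1.continuous]
      exact key _ c1 fun z => by nlinarith [sq_nonneg (hdif a.u2 b.u2 z)]

theorem Dom.grad_zero (h : Dom ρ) {r : ℝ × ℝ → ℝ} (hr : ContDiff ℝ (2 : ℕ) r) (f : ℝ × ℝ)
    (H : ∀ ζ : ℝ × ℝ → ℝ, ContDiff ℝ (1 : ℕ) ζ → (∀ x, ρ x = 0 → ζ x = 0) →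
      (∀ x, ρ x < 0 → |ζ x| ≤ 1 ∧ |pd (1, 0) ζ x| ≤ 1 ∧ |pd (0, 1) ζ x| ≤ 1) →
      ∫ x in {x | ρ x < 0}, pd f ζ x * r x = 0) : ∀ x, ρ x < 0 → pd f r x = 0 := by
  have r1 := cdg_le hr (by norm_num : 1 ≤ 2)
  have d1 := contDiff_pd (n := 1) f hr
  have hz : ContDiff ℝ (1 : ℕ) fun x => ρ x * pd f r x := h.1.mul d1
  obtain ⟨C0, p0, b0⟩ := h.bound hz.continuous
  obtain ⟨C1, p1, b1⟩ := h.bound (contDiff_pd (n := 0) (1, 0) hz).continuous
  obtain ⟨C2, p2, b2⟩ := h.bound (contDiff_pd (n := 0) (0, 1) hz).continuous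
  set c := 1 / (C0 + C1 + C2 + 1) with hc
  have c0 : 0 < c := by positivity
  have hζ : ContDiff ℝ (1 : ℕ) fun x => c * (ρ x * pd f r x) := contDiff_const.mul hz
  have sm : ∀ a C : ℝ, |a| ≤ C → C ≤ C0 + C1 + C2 + 1 → |c * a| ≤ 1 := fun a C h1 h2 => by
    rw [abs_mul, abs_of_pos c0, hc, one_div_mul_eq_div, div_le_one (by positivity)]
    linarith
  have z1 := H _ hζ (fun x hx => by simp [hx]) fun x hx => by
    rw [pd_const_mul _ _ (cdg_diff hz le_rfl x), pd_const_mul _ _ (cdg_diff hz le_rfl x)]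
    exact ⟨sm _ _ (b0 x hx) (by linarith), sm _ _ (b1 x hx) (by linarith),
      sm _ _ (b2 x hx) (by linarith)⟩
  have z2 := h.div_zero2 (hζ.mul r1) (fun x hx => by simp [hx]) f
  have cr := r1.continuous
  have cd := d1.continuous
  have cρ := h.1.continuous
  have cζ := (contDiff_pd (n := 0) f hζ).continuous
  simp only [pd_mul f (cdg_diff hζ le_rfl _) (cdg_diff r1 le_rfl _)] at z2
  rw [integral_add (h.int (by fun_prop)) (h.int (by fun_prop)), z1, zero_add] at z2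
  have z3 : ∫ x in {x | ρ x < 0}, -(c * (ρ x * pd f r x) * pd f r x) = 0 := by
    rw [integral_neg, z2, neg_zero]
  have z4 := (setIntegral_eq_zero_iff_of_nonneg_ae ((ae_restrict_iff' h.meas).2
    (Eventually.of_forall fun x hx => by
      have hx' : ρ x < 0 := hx
      simp only [Pi.zero_apply]
      nlinarith [mul_nonneg (mul_pos c0 (neg_pos.2 hx')).le (mul_self_nonneg (pd f r x))]))
    (h.int (by fun_prop))).1 z3
  have z5 := Measure.eqOn_open_of_ae_eq z4 h.isOpen (by fun_prop) continuousOn_const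
  intro x hx
  have := z5 hx
  simp only [Pi.zero_apply, neg_eq_zero, mul_eq_zero] at this
  rcases this with (h1 | h1 | h1) | h1
  · exact absurd h1 c0.ne'
  · exact absurd h1 hx.ne
  · exact h1
  · exact h1

theorem Tr.functionals (h : Dom ρ) (g₁ g₂ : ℝ × ℝ → ℝ) (M : ℝ) :
    ∃ (N : ℕ) (K : Fin N → ℝ × ℝ → ℝ), (∀ i, MemLp (K i) 2 (volume.restrict {x | ρ x < 0})) ∧
      ∀ τ σ : Tr ρ g₁ g₂ M,
        (∀ i, ∫ x in {x | ρ x < 0}, K i x * (τ.p (0, x) - σ.p (0, x)) = 0) →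
        ∀ x, ρ x < 0 → pd e1 τ.p (0, x) = pd e1 σ.p (0, x) ∧
          pd e2 τ.p (0, x) = pd e2 σ.p (0, x) := by
  haveI : IsFiniteMeasure (volume.restrict {x | ρ x < 0}) := isFiniteMeasure_restrict.2 h.vol.ne
  obtain ⟨m, K, hc⟩ := Tr.cover h g₁ g₂ M
  let J := {ζ : ℝ × ℝ → ℝ // ContDiff ℝ (1 : ℕ) ζ ∧ (∀ x, ρ x = 0 → ζ x = 0) ∧
    ∀ x, ρ x < 0 → |ζ x| ≤ 1 ∧ |pd (1, 0) ζ x| ≤ 1 ∧ |pd (0, 1) ζ x| ≤ 1} × Bool
  let k : J → ℝ × ℝ → ℝ := fun j => pd (if j.2 then (1, 0) else (0, 1)) j.1.1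
  have ck : ∀ j, Continuous (k j) := fun j => (contDiff_pd (n := 0) _ j.1.2.1).continuous
  set V := volume.real {x | ρ x < 0} with hV
  set C := (4 * M + 4) * Real.sqrt (V * (Real.exp (2 * (12 * M ^ 2 + 2)) * (2 * M ^ 2 * V)))
    + M * V with hC
  obtain ⟨N, Kk, h1, h2⟩ := kernels (κ := (Fin 4 → Fin m × Bool → Fin K)
      × (Fin 4 → Fin m × Bool → Fin K)) (volume.restrict {x | ρ x < 0}) k
    (fun j => (ck j).aestronglyMeasurable)
    (fun j => (ae_restrict_iff' h.meas).2 (Eventually.of_forall fun x hx => by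
      obtain ⟨⟨ζ, a, b, c⟩, j⟩ := j
      cases j
      · exact (c x hx).2.2
      · exact (c x hx).2.1))
    (fun (a : Tr ρ g₁ g₂ M × Tr ρ g₁ g₂ M) x => a.1.p (0, x) - a.2.p (0, x))
    (fun a => by
      have c : Continuous fun x => a.1.p (0, x) - a.2.p (0, x) := by
        have := a.1.hp.continuous
        have := a.2.hp.continuous
        fun_prop
      obtain ⟨D, -, hD⟩ := h.bound c
      exact MemLp.of_bound c.aestronglyMeasurable D
        ((ae_restrict_iff' h.meas).2 (Eventually.of_forall hD)))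
    (C := 4 * |C| + 1) (by positivity) (fun n => by
      obtain ⟨c, hc⟩ := hc (n * 4)
      refine ⟨fun a j => (fun i => c (a.1.sh (-1)) (finProdFinEquiv (j, i)),
        fun i => c (a.2.sh (-1)) (finProdFinEquiv (j, i))), fun a b hab j => ?_⟩
      have key : ∀ τ σ : Tr ρ g₁ g₂ M, (∀ j i, c (τ.sh (-1)) (finProdFinEquiv (j, i))
          = c (σ.sh (-1)) (finProdFinEquiv (j, i))) →
          |∫ x in {x | ρ x < 0}, k j x * hdif τ.p σ.p (0, x)| ≤ |C| * (1 / 2 ^ n) := by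
        intro τ σ he
        have e : c (τ.sh (-1)) = c (σ.sh (-1)) := by
          funext i
          obtain ⟨⟨a, b⟩, rfl⟩ := finProdFinEquiv.surjective i
          exact he a b
        have d := hc _ _ e
        rw [Tr.D_sh] at d
        refine ((Tr.lin h τ σ).hold h j.1.2.1 j.1.2.2.1 j.1.2.2.2 (θ := 1 / 2 ^ n)
          (R := 2 * M ^ 2 * V) (by positivity)
          ((div_le_one (by positivity)).2 (one_le_pow₀ one_le_two)) ?_ j.2).trans
          (mul_le_mul_of_nonneg_right (le_abs_self _) (by positivity))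
        rw [one_div_pow, ← pow_mul, mul_one_div]
        exact d
      have k1 := key a.1 b.1 fun j i => congrFun (congrArg Prod.fst (congrFun hab j)) i
      have k2 := key a.2 b.2 fun j i => congrFun (congrArg Prod.snd (congrFun hab j)) i
      have := ck j
      have := a.1.hp.continuous
      have := a.2.hp.continuous
      have := b.1.hp.continuous
      have := b.2.hp.continuous
      have e : (∫ x in {x | ρ x < 0}, k j x * (a.1.p (0, x) - a.2.p (0, x)))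
          - ∫ x in {x | ρ x < 0}, k j x * (b.1.p (0, x) - b.2.p (0, x))
          = 2 * (∫ x in {x | ρ x < 0}, k j x * hdif a.1.p b.1.p (0, x))
            - 2 * ∫ x in {x | ρ x < 0}, k j x * hdif a.2.p b.2.p (0, x) := by
        unfold hdif
        rw [← integral_const_mul, ← integral_const_mul,
          ← integral_sub (h.int (by fun_prop)) (h.int (by fun_prop)),
          ← integral_sub (h.int (by fun_prop)) (h.int (by fun_prop))]
        congr 1; funext x; ring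
      rw [e, div_eq_mul_one_div]
      have : (0 : ℝ) < 1 / 2 ^ n := by positivity
      rw [abs_le] at k1 k2 ⊢
      constructor <;> linarith [k1.1, k1.2, k2.1, k2.2])
  refine ⟨N, Kk, h1, fun τ σ h0 x hx => ?_⟩
  have hr : ContDiff ℝ (2 : ℕ) fun x => τ.p (0, x) - σ.p (0, x) :=
    (τ.hp.comp (by fun_prop)).sub (σ.hp.comp (by fun_prop))
  have a1 := h.grad_zero hr (1, 0) (fun ζ a b c => h2 (τ, σ) h0 (⟨ζ, a, b, c⟩, true)) x hx
  have a2 := h.grad_zero hr (0, 1) (fun ζ a b c => h2 (τ, σ) h0 (⟨ζ, a, b, c⟩, false)) x hx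
  have d1 := cdg_diff τ.hp (by norm_num) (0, x)
  have d2 := cdg_diff σ.hp (by norm_num) (0, x)
  rw [pd_slice (F := fun z => τ.p z - σ.p z) (d1.sub d2), pd_sub _ d1 d2] at a1 a2
  constructor <;> linarith

end Pool.Agent.MP_ed9623_an.H64
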