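import Pool.Agent.MP_ed9623_an.H64.Ana3
import Pool.Agent.MP_ed9623_an.H64.Unique3
import Pool.Agent.MP_ed9623_an.H64.Sq2
import Pool.Agent.MP_ed9623_an.H64.Traj

open Filter Topology MeasureTheory Set
open scoped ContDiff Nat

namespace Pool.Agent.MP_ed9623_an.H64

noncomputable def bl (c : PP) {r : ℝ} (hr : 0 < r) : Dm where
  ρ := sq2 c (r ^ 2)
  reg := fun x hx h => by
    have := sq2_D c (r ^ 2) (x - c) x
    change (x.1 - c.1) ^ 2 + (x.2 - c.2) ^ 2 - r ^ 2 = 0 at hx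
    rw [D_val, pd, h] at this
    simp only [ContinuousLinearMap.zero_apply, Prod.fst_sub, Prod.snd_sub] at this
    nlinarith
  bdd := Metric.isBounded_ball.subset fun _ hx => sq2_dist hr hx

theorem bl_wt (c : PP) {r : ℝ} (hr : 0 < r) (h1 : r ≤ 1) : (bl c hr).Wt (-sq2 c (r ^ 2)) := by
  have r2 : r ^ 2 ≤ 1 := pow_le_one₀ hr.le h1
  refine ⟨(bl c hr).B.neg_mem Dm.ρ_mem, fun x hx => ?_, fun x hx => ?_⟩
  · change (x.1 - c.1) ^ 2 + (x.2 - c.2) ^ 2 - r ^ 2 < 0 at hx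
    change (-((x.1 - c.1) ^ 2 + (x.2 - c.2) ^ 2 - r ^ 2)) ^ 2 ≤ 1
    refine pow_le_one₀ (by linarith) ?_
    linarith [sq_nonneg (x.1 - c.1), sq_nonneg (x.2 - c.2)]
  · change (x.1 - c.1) ^ 2 + (x.2 - c.2) ^ 2 - r ^ 2 < 0 at hx
    rw [map_neg, map_neg]
    change (-(d1 (sq2 c (r ^ 2))).1 x) ^ 2 + (-(d2 (sq2 c (r ^ 2))).1 x) ^ 2 ≤ 4
    rw [sq2_D, sq2_D]
    nlinarith

theorem inner_le {Q Q' : Dm} (h : ∀ x, Q'.ρ.1 x < 0 → Q.ρ.1 x < 0) {p : SA PP} {θ : ℝ} (h0 : 0 ≤ θ)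
    (hp : ∀ x, Q'.ρ.1 x < 0 → θ ≤ p.1 x) (k : ℕ) (f : SA PP) :
    (θ ^ k) ^ 2 * Q'.S 0 f ≤ Q.nn p k f := by
  rw [← Dm.S0_smul]
  refine le_trans (Dm.I_mono (g := p ^ k * f * (p ^ k * f)) fun x hx => ?_)
    (setIntegral_mono_set (Q.dom.int (p ^ k * f * (p ^ k * f)).ct)
      (Eventually.of_forall fun x => mul_self_nonneg ((p ^ k * f).1 x)) (LE.le.eventuallyLE h))
  change θ ^ k * f.1 x * (θ ^ k * f.1 x) ≤ p.1 x ^ k * f.1 x * (p.1 x ^ k * f.1 x)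
  have := pow_le_pow_left₀ (pow_nonneg h0 k) (pow_le_pow_left₀ h0 (hp x hx) k) 2
  nlinarith [mul_le_mul_of_nonneg_right this (sq_nonneg (f.1 x))]

theorem fact_two (k : ℕ) : ((k + 2)! : ℝ) ≤ 2 * 3 ^ k * k ! := by
  have : ∀ k : ℕ, ((k : ℝ) + 2) * (k + 1) ≤ 2 * 3 ^ k := fun k => by
    induction k with
    | zero => norm_num
    | succ k ih => push_cast; rw [pow_succ]; nlinarith [k.cast_nonneg (α := ℝ)]
  rw [Nat.factorial_succ, Nat.factorial_succ]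
  push_cast
  nlinarith [mul_le_mul_of_nonneg_right (this k) (k !).cast_nonneg]

theorem ana_of_S {Q : Dm} {f : SA PP} {A R : ℝ} (hA : 0 ≤ A) (hR : 1 ≤ R)
    (h : ∀ l : List Bool, Q.S 0 (DL dP l f) ≤ A * (R ^ l.length * l.length !) ^ 2) {x : PP}
    (hx : Q.ρ.1 x < 0) : AnalyticAt ℝ f.1 x := by
  obtain ⟨C, c0, hC⟩ := Dm.sup2 (Q := Q)
  obtain ⟨K, k1, hK⟩ := le_DL
  refine analytic_of_bounds f.sm (C := √(C * (7 * A)) * (2 * R ^ 2)) (R := K * (3 * R))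
    (by positivity) ?_
  filter_upwards [Q.dom.isOpen.mem_nhds hx] with y hy n
  refine (hK y n f (√(C * (7 * A)) * (R ^ (n + 2) * (n + 2)!)) fun l hl => ?_).trans ?_
  · have e1 : ∀ l, d1 (DL dP l f) = DL dP (true :: l) f := fun l => (DL_cons' _ true _ _).symm
    have e2 : ∀ l, d2 (DL dP l f) = DL dP (false :: l) f := fun l => (DL_cons' _ false _ _).symm
    have b : ∀ l : List Bool, l.length ≤ n + 2 → Q.I (DL dP l f * DL dP l f)
        ≤ A * (R ^ (n + 2) * (n + 2)!) ^ 2 := fun l hl => (h l).trans (by gcongr)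
    refine abs_le_of_sq_le_sq ((hC _ y hy).trans ?_) (by positivity)
    rw [mul_pow, Real.sq_sqrt (by positivity), mul_assoc]
    refine mul_le_mul_of_nonneg_left ?_ c0
    simp only [Dm.S, e1, e2]
    linarith [b l (by omega), b (true :: l) (by simp [hl]), b (false :: l) (by simp [hl]),
      b (true :: true :: l) (by simp [hl]), b (true :: false :: l) (by simp [hl]),
      b (false :: true :: l) (by simp [hl]), b (false :: false :: l) (by simp [hl])]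
  · calc _ ≤ K ^ n * (√(C * (7 * A)) * (R ^ (n + 2) * (2 * 3 ^ n * n !))) := by
          gcongr; exact fact_two n
      _ = _ := by rw [mul_pow, mul_pow]; ring

noncomputable def sh (c : ℝ) : SA ST →+* SA ST where
  toFun := fun f => ⟨shift c f.1, f.sm.comp (by fun_prop : ContDiff ℝ ∞ fun z : ST => z + (c, 0))⟩
  map_one' := rfl
  map_mul' := fun _ _ => rfl
  map_zero' := rfl
  map_add' := fun _ _ => rfl

theorem D_sh (c : ℝ) (e : ST) (f : SA ST) : D e (sh c f) = sh c (D e f) :=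
  Subtype.ext (pd_shift c e f.1)

theorem ana_local (u1 u2 : SA ST) (G : SA PP) {σ : ℝ} (σ1 : σ ^ 2 ≤ 1) {z : ST}
    (hG : AnalyticAt ℝ G.1 z.2) (h : ∀ᶠ y in 𝓝 z, (D e1 u1 + D e2 u2).1 y = 0 ∧
      (dt (D e1 u2 - D e2 u1) - (D e1 (D e1 (D e1 u2 - D e2 u1))
      + D e2 (D e2 (D e1 u2 - D e2 u1))) + σ • (D e1 (u1 * (D e1 u2 - D e2 u1))
      + D e2 (u2 * (D e1 u2 - D e2 u1))) - up G).1 y = 0) :
    AnalyticAt ℝ (sl z.1 u1).1 z.2 ∧ AnalyticAt ℝ (sl z.1 u2).1 z.2 := by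
  obtain ⟨C0, R0, -, r0, hb⟩ := bounds_of_analytic hG
  obtain ⟨ε, e0', he⟩ := Metric.eventually_nhds_iff_ball.1
    (h.and (continuous_snd.continuousAt.eventually hb))
  obtain ⟨r, hr⟩ : ∃ r, r = min (ε / 2) 1 := ⟨_, rfl⟩
  have r1 : 0 < r := by rw [hr]; positivity
  have r2 : r ≤ 1 := hr ▸ min_le_right _ _
  have r3 : r < ε := (hr ▸ min_le_left _ _ : r ≤ ε / 2).trans_lt (by linarith)
  have mem : ∀ t ∈ Icc 0 r, ∀ x, (bl z.2 r1).ρ.1 x < 0 →
      ((t, x) : ST) + (z.1 - r, 0) ∈ Metric.ball z ε := fun t ht x hx => by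
    rw [Metric.mem_ball, Prod.dist_eq, max_lt_iff, Real.dist_eq, abs_lt]
    refine ⟨⟨?_, ?_⟩, by simpa using (sq2_dist r1 hx).trans r3⟩ <;>
      simp only [Prod.fst_add] <;> linarith [ht.1, ht.2]
  have s1 : ∀ f, σ • sh (z.1 - r) f = sh (z.1 - r) (σ • f) := fun _ => rfl
  have s2 : up G = sh (z.1 - r) (up G) := Subtype.ext (funext fun y =>
    congrArg G.1 (add_zero y.2).symm)
  let a : AD (bl z.2 r1) := ⟨_, bl_wt z.2 r1 r2, r, r2, sh (z.1 - r) u1, sh (z.1 - r) u2, G, σ, σ1,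
    fun t ht x hx => by
      simp only [D_sh, ← map_add]
      exact (he _ (mem t ht x hx)).1.1, fun t ht x hx => by
      rw [s2]
      simp only [D_sh, ← map_add, ← map_sub, ← map_mul, s1]
      exact (he _ (mem t ht x hx)).1.2⟩
  obtain ⟨A, R, a0, R0', hA⟩ := AD.all (a := a) r1.le r0 fun x hx => by
    simpa using (he _ (mem 0 ⟨le_rfl, r1.le⟩ x hx)).2
  have e : ∀ f, sl r (sh (z.1 - r) f) = sl z.1 f := fun f =>
    Subtype.ext (funext fun x => (shift_apply _ _ _ _).trans (by rw [add_sub_cancel]; rfl))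
  obtain ⟨θ, hθ⟩ : ∃ θ, θ = r * (3 / 4 * r ^ 2) := ⟨_, rfl⟩
  have θ0 : 0 < θ := by rw [hθ]; positivity
  have key : ∀ f : SA PP, (∀ l : List Bool, (bl z.2 r1).nn (r • -sq2 z.2 (r ^ 2)) l.length
      (DL dP l f) ≤ A * mj R l.length ^ 2) → AnalyticAt ℝ f.1 z.2 := fun f hf => by
    refine ana_of_S (Q := bl z.2 (half_pos r1)) a0 (le_max_left 1 (4 * R / θ)) (fun l => ?_)
      (by change (z.2.1 - z.2.1) ^ 2 + (z.2.2 - z.2.2) ^ 2 - (r / 2) ^ 2 < 0; nlinarith)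
    have b1 := (inner_le (Q' := bl z.2 (half_pos r1)) (fun x hx => by
      change (x.1 - z.2.1) ^ 2 + (x.2 - z.2.2) ^ 2 - (r / 2) ^ 2 < 0 at hx
      change (x.1 - z.2.1) ^ 2 + (x.2 - z.2.2) ^ 2 - r ^ 2 < 0
      nlinarith) θ0.le (fun x hx => by
      change (x.1 - z.2.1) ^ 2 + (x.2 - z.2.2) ^ 2 - (r / 2) ^ 2 < 0 at hx
      change θ ≤ r * -((x.1 - z.2.1) ^ 2 + (x.2 - z.2.2) ^ 2 - r ^ 2)
      rw [hθ]
      exact mul_le_mul_of_nonneg_left (by linarith) r1.le) _ _).trans (hf l)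
    rw [mul_comm, ← le_div_iff₀ (by positivity), mul_div_assoc, ← div_pow] at b1
    refine b1.trans (mul_le_mul_of_nonneg_left (pow_le_pow_left₀ (by
      have := mj_pos R0' l.length; positivity) ?_ 2) a0)
    refine (div_le_div_of_nonneg_right (mj_le R0' _) (by positivity)).trans ?_
    rw [mul_div_right_comm, ← div_pow]
    gcongr
    exact le_max_right _ _
  refine ⟨key _ fun l => le_trans ?_ (hA l), key _ fun l => le_trans ?_ (hA l)⟩
  · rw [← e]; exact le_add_of_nonneg_right (Dm.nn_nonneg _ _)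
  · rw [← e]; exact le_add_of_nonneg_left (Dm.nn_nonneg _ _)

theorem ana_SA (u1 u2 : SA ST) (g1 g2 : SA PP) {P : ST → ℝ} (hP : ContDiff ℝ (2 : ℕ) P) {σ : ℝ}
    (σ1 : σ ^ 2 ≤ 1) {z : ST} (hG : AnalyticAt ℝ (d1 g2 - d2 g1).1 z.2)
    (h : ∀ᶠ y in 𝓝 z, (D e1 u1 + D e2 u2).1 y = 0 ∧
      (up g1 - (dt u1 + σ • (u1 * D e1 u1 + u2 * D e2 u1) - (D e1 (D e1 u1) + D e2 (D e2 u1)))).1 y
        = pd e1 P y ∧
      (up g2 - (dt u2 + σ • (u1 * D e1 u2 + u2 * D e2 u2) - (D e1 (D e1 u2) + D e2 (D e2 u2)))).1 y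
        = pd e2 P y) :
    AnalyticAt ℝ (sl z.1 u1).1 z.2 ∧ AnalyticAt ℝ (sl z.1 u2).1 z.2 := by
  refine ana_local u1 u2 _ σ1 hG ?_
  filter_upwards [h, pd_congr e2 (h.mono fun _ h => h.2.1), pd_congr e1 (h.mono fun _ h => h.2.2)]
    with y h1 h2 h3
  refine ⟨h1.1, Eq.trans ?_ (sub_eq_zero.2 (h2.trans ((pd_comm _ _ hP.contDiffAt).trans h3.symm)))⟩
  refine congrFun (congrArg Subtype.val (?_ : _ = D e2 _ - D e1 _)) y
  have c : ∀ f : SA ST, D e2 (D e1 f) = D e1 (D e2 f) := D_comm _ _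
  have c1 : ∀ f : SA ST, D e1 (dt f) = dt (D e1 f) := D_comm _ _
  have c2 : ∀ f : SA ST, D e2 (dt f) = dt (D e2 f) := D_comm _ _
  have u : up (d1 g2 - d2 g1) = D e1 (up g2) - D e2 (up g1) := by rw [D_up, D_up]; rfl
  simp only [u, map_sub, map_add, map_smul, D_mul, c, c1, c2]
  simp only [Algebra.smul_def]
  ring

theorem Sm.loc {ρ : PP → ℝ} (hρ : Continuous ρ) {f : ST → ℝ} (h : Sm ρ f) {z : ST}
    (hz : ρ z.2 < 0) : ∃ F : SA ST, F.1 =ᶠ[𝓝 z] f := by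
  have o : IsOpen {y : ST | ρ y.2 < 0} := isOpen_lt (hρ.comp continuous_snd) continuous_const
  obtain ⟨r, hr, hrf⟩ := Metric.isOpen_iff.1 o z hz
  let b : ContDiffBump z := ⟨r / 3, r / 2, by positivity, by linarith⟩
  refine ⟨⟨fun y => b y * f y, contDiff_infty.2 fun n => contDiff_iff_contDiffAt.2 fun y => ?_⟩, ?_⟩
  · by_cases hy : y ∈ Metric.ball z r
    · obtain ⟨F, a, c⟩ := h n
      exact b.contDiff.contDiffAt.mul (a.contDiffAt.congr_of_eventuallyEq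
        (Filter.mem_of_superset (o.mem_nhds (hrf hy)) c))
    · have : y ∉ tsupport b := by
        rw [b.tsupport_eq]
        exact fun h => hy (Metric.closedBall_subset_ball (by simp only [b]; linarith) h)
      refine (contDiffAt_const (c := (0 : ℝ))).congr_of_eventuallyEq ?_
      filter_upwards [notMem_tsupport_iff_eventuallyEq.1 this] with w hw
      rw [hw]; simp
  · filter_upwards [b.eventuallyEq_one] with y hy
    change b y * f y = f y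
    rw [hy]; simp

end Pool.Agent.MP_ed9623_an.H64
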