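import Pool.Agent.MP_ed9623_an.H64.Epd3
import Pool.Agent.MP_ed9623_an.H64.Ana4

open Filter Topology MeasureTheory Set
open scoped ContDiff

namespace Pool.Agent.MP_ed9623_an.H64

variable {ρ : PP → ℝ}

theorem convex_pt (hρ : ContDiff ℝ (2 : ℕ) ρ) (h : Dom ρ) {x : PP} (hx : ρ x < 0) :
    ∃ x₀, ρ x₀ = 0 ∧ 0 < curv2 ρ x₀ := by
  obtain ⟨x₀, m0, hm⟩ := h.compact.exists_isMaxOn ⟨x, subset_closure hx⟩
    (f := fun x : PP => x.1 ^ 2 + x.2 ^ 2) (Continuous.continuousOn (by fun_prop))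
  have cv : ∀ T X : PP, 2 * (x₀.1 * X.1 + x₀.2 * X.2) < T.1 ^ 2 + T.2 ^ 2 →
      ¬ ∀ᶠ s : ℝ in 𝓝 0, ρ (x₀ + s • T - s ^ 2 • X) ≤ 0 := fun T X hT hs => by
    have k : ∀ y, ρ y ≤ 0 → y.1 ^ 2 + y.2 ^ 2 ≤ x₀.1 ^ 2 + x₀.2 ^ 2 := fun y hy => hm (by
      rcases hy.lt_or_eq with a | a
      · exact subset_closure a
      · exact mem_closure_neg a (h.2.1 _ a))
    have n : Tendsto (fun s : ℝ => -s) (𝓝 0) (𝓝 0) := by simpa using continuous_neg.tendsto (0 : ℝ)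
    obtain ⟨s, ⟨a, b⟩, c⟩ := (((hs.and (n.eventually hs)).filter_mono
      (nhdsWithin_le_nhds (s := {0}ᶜ))).and self_mem_nhdsWithin).exists
    have a := k _ a
    have b := k _ b
    simp only [Prod.fst_sub, Prod.fst_add, Prod.snd_sub, Prod.snd_add, Prod.smul_fst, Prod.smul_snd,
      smul_eq_mul] at a b
    nlinarith [mul_pos (sq_pos_of_ne_zero c) (sub_pos.2 hT), sq_nonneg (s ^ 2 * X.1),
      sq_nonneg (s ^ 2 * X.2)]
  have r0 : ρ x₀ = 0 := by
    refine le_antisymm (closure_lt_subset_le h.1.continuous continuous_const m0)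
      (not_lt.1 fun a => cv (1, 0) 0 (by simp) ?_)
    have c := h.1.continuous
    exact ((Continuous.continuousAt (by fun_prop : Continuous fun s : ℝ =>
      ρ (x₀ + s • ((1, 0) : PP) - s ^ 2 • (0 : PP)))).eventually
        (gt_mem_nhds (by simpa using a))).mono fun _ h => h.le
  refine ⟨x₀, r0, not_le.1 fun hk => ?_⟩
  obtain ⟨p, hp⟩ : ∃ p, p = pd (1, 0) ρ x₀ := ⟨_, rfl⟩
  obtain ⟨q, hq⟩ : ∃ q, q = pd (0, 1) ρ x₀ := ⟨_, rfl⟩
  have G : 0 < p ^ 2 + q ^ 2 := not_le.1 fun a => h.2.1 _ r0 (fderiv_zero_of_pd fun e => by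
    rw [pd_dir2, ← hp, ← hq, show p = 0 by nlinarith [sq_nonneg p, sq_nonneg q],
      show q = 0 by nlinarith [sq_nonneg p, sq_nonneg q]]; ring)
  obtain ⟨k, k0, k1⟩ : ∃ k, 0 < k ∧ k * (2 * |x₀.1 * p + x₀.2 * q| + 1) = p ^ 2 + q ^ 2 :=
    ⟨_, div_pos G (by positivity), div_mul_cancel₀ _ (by positivity)⟩
  refine cv (-q, p) (k * p, k * q) (by
    nlinarith [mul_le_mul_of_nonneg_left (le_abs_self (x₀.1 * p + x₀.2 * q)) k0.le]) ?_
  obtain ⟨γ, hγ⟩ : ∃ γ : ℝ → PP, γ = fun s => x₀ + s • (-q, p) - s ^ 2 • (k * p, k * q) := ⟨_, rfl⟩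
  have γ0 : γ 0 = x₀ := by simp [hγ]
  have ch : ∀ F : PP → ℝ, ContDiff ℝ (1 : ℕ) F → ∀ s, HasDerivAt (fun s => F (γ s))
      ((-q - 2 * s * (k * p)) * pd (1, 0) F (γ s) + (p - 2 * s * (k * q)) * pd (0, 1) F (γ s)) s :=
    fun F hF s => by
      have a : HasDerivAt γ (-q - 2 * s * (k * p), p - 2 * s * (k * q)) s := by
        have := (((hasDerivAt_id s).smul_const ((-q, p) : PP)).const_add x₀).sub
          ((hasDerivAt_pow 2 s).smul_const ((k * p, k * q) : PP))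
        rw [hγ]
        exact this.congr_deriv (by ext <;> simp)
      exact ((cdg_diff hF le_rfl _).hasFDerivAt.comp_hasDerivAt s a).congr_deriv (pd_dir2 F _ _)
  have c1 := cdg_le hρ (by norm_num : 1 ≤ 2)
  have l : ∀ a b : ℝ, HasDerivAt (fun s : ℝ => a - 2 * s * b) (-(2 * b)) 0 := fun a b => by
    simpa using (((hasDerivAt_id (0 : ℝ)).const_mul 2).mul_const b).const_sub a
  have d2 := ((l (-q) (k * p)).fun_mul (ch _ (contDiff_pd (1, 0) hρ) 0)).fun_add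
    ((l p (k * q)).fun_mul (ch _ (contDiff_pd (0, 1) hρ) 0))
  have := isLocalMax_of_deriv_deriv_neg (f := fun s => ρ (γ s)) (x₀ := 0) (by
    rw [funext fun s => (ch ρ c1 s).deriv, d2.deriv, γ0, pd_comm (0, 1) (1, 0) hρ.contDiffAt]
    rw [curv2] at hk
    rw [← hp, ← hq] at hk ⊢
    nlinarith [mul_pos k0 G]) (by rw [(ch ρ c1 0).deriv, γ0, ← hp, ← hq]; ring)
    (ch ρ c1 0).continuousAt
  filter_upwards [this] with s hs
  rwa [γ0, r0, hγ] at hs

theorem Dom.int_div (h : Dom ρ) {F1 F2 A B : ST → ℝ} (h1 : ContDiff ℝ (1 : ℕ) F1)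
    (h2 : ContDiff ℝ (1 : ℕ) F2) (hB : Continuous B) (z : ∀ y : ST, ρ y.2 = 0 → F1 y = 0 ∧ F2 y = 0)
    (e : ∀ y : ST, ρ y.2 < 0 → A y = pd e1 F1 y + pd e2 F2 y + B y) (t : ℝ) :
    ∫ x in {x | ρ x < 0}, A (t, x) = ∫ x in {x | ρ x < 0}, B (t, x) := by
  have i1 := h.intST (contDiff_pd (n := 0) e1 h1).continuous t
  have i2 := h.intST (contDiff_pd (n := 0) e2 h2).continuous t
  have i3 := integral_add (i1.add i2) (h.intST hB t)
  simp only [Pi.add_apply] at i3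
  rw [setIntegral_congr_fun h.meas fun x hx => e (t, x) hx, i3, integral_add i1 i2, h.div_zero h1 (fun x hx => (z (t, x) hx).1),
    h.div_zero h2 (fun x hx => (z (t, x) hx).2), zero_add, zero_add]

theorem heat_zero (h : Dom ρ) {w : ST → ℝ} (hw : ContDiff ℝ (3 : ℕ) w) {M : ℝ} (hM : ∀ y, |w y| ≤ M)
    (hB : ∀ y : ST, ρ y.2 = 0 → w y = 0)
    (hS : ∀ y : ST, ρ y.2 < 0 → pd e0 w y = pd e1 (pd e1 w) y + pd e2 (pd e2 w) y) :
    ∀ y : ST, ρ y.2 < 0 → pd e1 w y = 0 ∧ pd e2 w y = 0 := by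
  have c0 := cdg_le hw (by norm_num : 1 ≤ 3)
  have c2 := cdg_le hw (by norm_num : 2 ≤ 3)
  have c1 := fun e => contDiff_pd (n := 1) e c2
  have d0 := fun y => cdg_diff c0 le_rfl y
  have d1 := fun e y => cdg_diff (c1 e) le_rfl y
  have two := contDiff_const (𝕜 := ℝ) (n := (1 : ℕ)) (E := ST) (c := (-2 : ℝ))
  have cf := two.mul (((c1 e1).mul (c1 e1)).add ((c1 e2).mul (c1 e2)))
  have a1 : ∀ t, HasDerivAt (fun s => ∫ x in {x | ρ x < 0}, w (s, x) * w (s, x))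
      (∫ x in {x | ρ x < 0}, -2 * (pd e1 w (t, x) * pd e1 w (t, x)
        + pd e2 w (t, x) * pd e2 w (t, x))) t := fun t =>
    (h.hasDerivAt (c0.mul c0) t).congr_deriv (h.int_div ((c0.add c0).mul (c1 e1))
      ((c0.add c0).mul (c1 e2)) cf.continuous (fun y hy => by simp [hB y hy]) (fun y hy => by
        rw [pd_mul _ (d0 y) (d0 y), pd_mul _ ((d0 y).fun_add (d0 y)) (d1 _ y),
          pd_mul _ ((d0 y).fun_add (d0 y)) (d1 _ y), pd_add _ (d0 y) (d0 y), pd_add _ (d0 y) (d0 y),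
          hS y hy]; ring) t)
  have c4 := two.mul ((c1 e0).add (c1 e0))
  have d4 := fun y => (d1 e0 y).fun_add (d1 e0 y)
  have a2 : ∀ t, HasDerivAt (fun t => ∫ x in {x | ρ x < 0}, -2 * (pd e1 w (t, x) * pd e1 w (t, x)
        + pd e2 w (t, x) * pd e2 w (t, x)))
      (∫ x in {x | ρ x < 0}, 4 * (pd e0 w (t, x) * pd e0 w (t, x))) t := fun t =>
    (h.hasDerivAt cf t).congr_deriv (h.int_div (c4.mul (c1 e1)) (c4.mul (c1 e2))
      (B := fun y => 4 * (pd e0 w y * pd e0 w y))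
      (continuous_const.mul ((c1 e0).mul (c1 e0)).continuous)
      (fun y hy => by simp [pd_time_zero c0 hB hy]) (fun y hy => by
        rw [pd_const_mul _ _ (((d1 _ y).fun_mul (d1 _ y)).fun_add ((d1 _ y).fun_mul (d1 _ y))),
          pd_add _ ((d1 _ y).fun_mul (d1 _ y)) ((d1 _ y).fun_mul (d1 _ y)),
          pd_mul _ (d1 _ y) (d1 _ y), pd_mul _ (d1 _ y) (d1 _ y),
          pd_mul _ (cdg_diff c4 le_rfl y) (d1 _ y), pd_mul _ (cdg_diff c4 le_rfl y) (d1 _ y),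
          pd_const_mul _ _ (d4 y), pd_const_mul _ _ (d4 y), pd_add _ (d1 _ y) (d1 _ y),
          pd_add _ (d1 _ y) (d1 _ y), pd_comm e0 e1 c2.contDiffAt, pd_comm e0 e2 c2.contDiffAt]
        linear_combination -4 * pd e0 w y * hS y hy) t)
  intro y hy
  have z := bdd_mono a1 (monotone_of_deriv_nonneg (fun t => (a2 t).differentiableAt) fun t => by
    rw [(a2 t).deriv]
    exact integral_nonneg fun x => mul_nonneg (by norm_num) (mul_self_nonneg _))
    (C := M * M * volume.real {x | ρ x < 0}) (fun t => norm_setIntegral_le_of_norm_le_const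
      (f := fun x : PP => w (t, x) * w (t, x)) (C := M * M) h.vol fun x _ => by
        rw [Real.norm_eq_abs, abs_mul]
        exact mul_self_le_mul_self (abs_nonneg _) (hM _)) y.1
  rw [integral_const_mul, mul_eq_zero, or_iff_right (by norm_num)] at z
  have c5 := (((c1 e1).mul (c1 e1)).add ((c1 e2).mul (c1 e2))).continuous
  have := Measure.eqOn_open_of_ae_eq ((setIntegral_eq_zero_iff_of_nonneg_ae (Eventually.of_forall
    fun x => add_nonneg (mul_self_nonneg _) (mul_self_nonneg _)) (h.intST c5 y.1)).1 z) h.isOpen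
      (c5.comp (by fun_prop)).continuousOn continuousOn_const hy
  exact mul_self_add_mul_self_eq_zero.1 this

end Pool.Agent.MP_ed9623_an.H64
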