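import Pool.Agent.MP_ed9623_an.H64.Defs

namespace Pool.Agent.MP_ed9623_an.H64

/-- Curvature of the level curves of `ρ` (positive where `{ρ < 0}` is convex). -/
noncomputable def curvature (ρ : ℝ × ℝ → ℝ) (x : ℝ × ℝ) : ℝ :=
  (pd (1, 0) (pd (1, 0) ρ) x * pd (0, 1) ρ x ^ 2
    - 2 * pd (1, 0) (pd (0, 1) ρ) x * pd (1, 0) ρ x * pd (0, 1) ρ x
    + pd (0, 1) (pd (0, 1) ρ) x * pd (1, 0) ρ x ^ 2)
    / Real.sqrt (pd (1, 0) ρ x ^ 2 + pd (0, 1) ρ x ^ 2) ^ 3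

/-- Derivative of the curvature along the tangent vector `(-ρ_y, ρ_x)`. -/
noncomputable def dcurvature (ρ : ℝ × ℝ → ℝ) (x : ℝ × ℝ) : ℝ :=
  pd (-pd (0, 1) ρ x, pd (1, 0) ρ x) (curvature ρ) x

end Pool.Agent.MP_ed9623_an.H64
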