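import Pool.Agent.MP_ed9623_an.H64.Final
import Pool.Agent.MP_ed9623_an.H64.Unique3
import Pool.Agent.MP_ed9623_an.H64.Defs3

open Filter Topology MeasureTheory Set

namespace Pool.Agent.MP_ed9623_an.H64

variable {ρ g₁ g₂ : ℝ × ℝ → ℝ}

/-- `u` has, for every `k`, a `C^k` extension from the domain which is eventually bounded. -/
def Cls (ρ : ℝ × ℝ → ℝ) (M : ℕ → ℝ) (u : ST → ℝ) : Prop :=
  ∀ k : ℕ, ∃ F, ContDiff ℝ k F ∧ (∀ z : ST, ρ z.2 < 0 → u z = F z) ∧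
    ∀ᶠ t in atTop, ∀ x : ℝ × ℝ, ∀ j ≤ k, ‖iteratedFDeriv ℝ j F (t, x)‖ ≤ M k

theorem Cls.sm {M : ℕ → ℝ} {u U : ST → ℝ} (h : Cls ρ M u) (hU : ∀ z : ST, ρ z.2 < 0 → u z = U z)
    {l : Ultrafilter ℕ} {t : ℕ → ℝ} (ht : Tendsto t l atTop) :
    Sm ρ (ulim l fun n => shift (t n) U) := fun k => by
  obtain ⟨F, a, b, c⟩ := h (k + 1)
  refine ⟨_, LB.contDiff k (LB_shift ht a c), fun z hz => ?_⟩
  unfold ulim shift
  congr 1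
  funext n
  have : ρ (z + (t n, 0)).2 < 0 := by simpa using hz
  exact (hU _ this).symm.trans (b _ this)

theorem Sm.hsum {u v : ST → ℝ} (hu : Sm ρ u) (hv : Sm ρ v) : Sm ρ (hsum u v) := fun k => by
  obtain ⟨F, a, b⟩ := hu k
  obtain ⟨G, c, d⟩ := hv k
  exact ⟨_, cd_hsum a c, fun z hz => by unfold H64.hsum; rw [b z hz, d z hz]⟩

theorem Sm.hdif {u v : ST → ℝ} (hu : Sm ρ u) (hv : Sm ρ v) : Sm ρ (hdif u v) := fun k => by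
  obtain ⟨F, a, b⟩ := hu k
  obtain ⟨G, c, d⟩ := hv k
  exact ⟨_, cd_hdif a c, fun z hz => by unfold H64.hdif; rw [b z hz, d z hz]⟩

theorem NS.congr (h : Dom ρ) {u₁ u₂ p U₁ U₂ P : ST → ℝ} {t : ℝ} (c1 : Continuous u₁)
    (c2 : Continuous u₂) (C1 : Continuous U₁) (C2 : Continuous U₂)
    (e1 : ∀ z : ST, ρ z.2 < 0 → u₁ z = U₁ z) (e2 : ∀ z : ST, ρ z.2 < 0 → u₂ z = U₂ z)
    (e3 : ∀ z : ST, ρ z.2 < 0 → p z = P z) (hn : NS {x | ρ x < 0} g₁ g₂ u₁ u₂ p t) :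
    NS {x | ρ x < 0} g₁ g₂ U₁ U₂ P t := by
  refine ⟨fun x hx => ?_, fun x hx => ?_⟩
  · have hU : ∀ᶠ y : ST in 𝓝 (t, x), ρ y.2 < 0 := (h.isOpen.preimage continuous_snd).mem_nhds hx
    have a1 : U₁ =ᶠ[𝓝 (t, x)] u₁ := hU.mono fun y hy => (e1 y hy).symm
    have a2 : U₂ =ᶠ[𝓝 (t, x)] u₂ := hU.mono fun y hy => (e2 y hy).symm
    have a3 : P =ᶠ[𝓝 (t, x)] p := hU.mono fun y hy => (e3 y hy).symm
    unfold heat
    simp only [pd_congr_pt _ a1, pd_congr_pt _ a2, pd_congr_pt _ a3, pd_congr_pt _ (pd_congr _ a1),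
      pd_congr_pt _ (pd_congr _ a2), a1.eq_of_nhds, a2.eq_of_nhds]
    exact hn.1 x hx
  · have k : ∀ u U : ST → ℝ, Continuous u → Continuous U → (∀ z : ST, ρ z.2 < 0 → u z = U z) →
        u (t, x) - U (t, x) = 0 := fun u U c C e => eq_zero_of_closure
      (f := fun y => u (t, y) - U (t, y)) (Continuous.continuousAt (by fun_prop))
      (frontier_subset_closure hx) (Eventually.of_forall fun y hy => sub_eq_zero.2 (e (t, y) hy))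
    obtain ⟨b1, b2⟩ := hn.2 x hx
    constructor
    · linarith [k _ _ c1 C1 e1]
    · linarith [k _ _ c2 C2 e2]

theorem determining2 (hρ : ∀ k : ℕ, ContDiff ℝ k ρ) (h : Dom ρ)
    (hc : IsPreconnected {x | ρ x < 0}) (hg₁ : ∀ k : ℕ, ContDiff ℝ k g₁)
    (hg₂ : ∀ k : ℕ, ContDiff ℝ k g₂) {x₀ : ℝ × ℝ} (h0 : ρ x₀ = 0) (hk : curv2 ρ x₀ ≠ 0)
    (H : ∀ L, Tendsto (fun x => (pd (1, 0) g₂ x - pd (0, 1) g₁ x) / ρ x ^ 6)
      (𝓝[{x | ρ x < 0}] x₀) (𝓝 L) →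
        IsPreconnected {x | ρ x = 0} ∧ kap2 ρ x₀ ≠ 0 ∧ 0 ≤ L * kap2 ρ x₀) (M : ℕ → ℝ) :
    ∃ (N : ℕ) (K : Fin N → ℝ × ℝ → ℝ), (∀ i, MemLp (K i) 2 (volume.restrict {x | ρ x < 0})) ∧
      ∀ u₁ u₂ p v₁ v₂ q : ST → ℝ, Continuous u₁ → Continuous u₂ → Continuous v₁ → Continuous v₂ →
        (∀ᶠ t in atTop, NS {x | ρ x < 0} g₁ g₂ u₁ u₂ p t) →
        (∀ᶠ t in atTop, NS {x | ρ x < 0} g₁ g₂ v₁ v₂ q t) →
        Cls ρ M u₁ → Cls ρ M u₂ → Cls ρ M p → Cls ρ M v₁ → Cls ρ M v₂ → Cls ρ M q →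
        (∀ i, Tendsto (fun t => (∫ x in {x | ρ x < 0}, K i x * p (t, x))
          - ∫ x in {x | ρ x < 0}, K i x * q (t, x)) atTop (𝓝 0)) →
        Tendsto (fun t => ∫ x in {x | ρ x < 0},
          ((u₁ (t, x) - v₁ (t, x)) ^ 2 + (u₂ (t, x) - v₂ (t, x)) ^ 2)) atTop (𝓝 0) := by
  obtain ⟨N, K, hK, H'⟩ := determining_gen h g₁ g₂ (M 7)
  refine ⟨N, K, hK, fun u₁ u₂ p v₁ v₂ q cu1 cu2 cv1 cv2 nu nv su1 su2 sp sv1 sv2 sq hlim => ?_⟩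
  have tr : ∀ u₁ u₂ p : ST → ℝ, Continuous u₁ → Continuous u₂ →
      (∀ᶠ t in atTop, NS {x | ρ x < 0} g₁ g₂ u₁ u₂ p t) → Cls ρ M u₁ → Cls ρ M u₂ → Cls ρ M p →
      ∃ U₁ U₂ P, Traj {x | ρ x < 0} g₁ g₂ (M 7) U₁ U₂ P ∧ (∀ z : ST, ρ z.2 < 0 → u₁ z = U₁ z) ∧
        (∀ z : ST, ρ z.2 < 0 → u₂ z = U₂ z) ∧ ∀ z : ST, ρ z.2 < 0 → p z = P z := by
    intro u₁ u₂ p c1 c2 n s1 s2 s3
    obtain ⟨U₁, a1, b1, d1⟩ := s1 7
    obtain ⟨U₂, a2, b2, d2⟩ := s2 7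
    obtain ⟨P, a3, b3, d3⟩ := s3 7
    refine ⟨U₁, U₂, P, ⟨a1, a2, cdg_le (m := 3) a3 (by norm_num), ?_⟩, b1, b2, b3⟩
    filter_upwards [n, d1, d2, d3] with t k0 k1 k2 k3
    exact ⟨k0.congr h c1 c2 a1.continuous a2.continuous b1 b2 b3, fun x =>
      ⟨fun j hj => ⟨k1 x j hj, k2 x j hj⟩, fun j hj => k3 x j (by omega)⟩⟩
  obtain ⟨U₁, U₂, P, hu, a1, a2, a3⟩ := tr _ _ _ cu1 cu2 nu su1 su2 sp
  obtain ⟨V₁, V₂, Q, hv, b1, b2, b3⟩ := tr _ _ _ cv1 cv2 nv sv1 sv2 sq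
  refine (H' U₁ U₂ P V₁ V₂ Q hu hv (fun l t ht τ σ τ1 τ2 σ1 σ2 hpq x hx => ?_)
    fun i => (hlim i).congr fun t => ?_).congr fun t => ?_
  · have l2 := fun {f : ST → ℝ} (h : ContDiff ℝ (6 : ℕ) f) => cdg_le h (by norm_num : 2 ≤ 6)
    have l4 := fun {f : ST → ℝ} (h : ContDiff ℝ (6 : ℕ) f) => cdg_le h (by norm_num : 4 ≤ 6)
    have l1 := fun {f : ST → ℝ} (h : ContDiff ℝ (6 : ℕ) f) => cdg_le h (by norm_num : 1 ≤ 6)
    have m1 := τ1 ▸ su1.sm a1 ht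
    have m2 := τ2 ▸ su2.sm a2 ht
    have m3 := σ1 ▸ sv1.sm b1 ht
    have m4 := σ2 ▸ sv2.sm b2 ht
    have := zero_of_complete hρ h hc hg₁ hg₂ h0 hk H (l2 (cd_hsum τ.hu1 σ.hu1))
      (l2 (cd_hsum τ.hu2 σ.hu2)) (l4 (cd_hdif τ.hu1 σ.hu1)) (l4 (cd_hdif τ.hu2 σ.hu2)) τ.hp
      (m1.hsum m3) (m2.hsum m4) (m1.hdif m3) (m2.hdif m4)
      (fun y hy => sys_of_NS (l2 τ.hu1) (l2 τ.hu2) (l2 σ.hu1) (l2 σ.hu2) (τ.ns y.1) (σ.ns y.1) hy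
        (hpq y.1 y.2 hy).1 (hpq y.1 y.2 hy).2) (fun y hy => by
        have hf := mem_frontier_of_zero h.1.continuous hy (h.2.1 _ hy)
        obtain ⟨a1, a2⟩ := (τ.ns y.1).2 y.2 hf
        obtain ⟨b1, b2⟩ := (σ.ns y.1).2 y.2 hf
        simp only [Prod.mk.eta] at a1 a2 b1 b2
        simp only [hsum, hdif, a1, a2, b1, b2]
        norm_num) (M := M 7)
      (fun y => ⟨abs_hdif (τ.b0 y).1 (σ.b0 y).1, abs_hdif (τ.b0 y).2 (σ.b0 y).2⟩) (fun y => by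
        rw [vort, Pi.sub_apply, pd_hdif (l1 τ.hu1) (l1 σ.hu1), pd_hdif (l1 τ.hu2) (l1 σ.hu2)]
        linarith [abs_sub (hdif (pd e1 τ.u2) (pd e1 σ.u2) y) (hdif (pd e2 τ.u1) (pd e2 σ.u1) y),
          abs_hdif (τ.b1 y).2.1 (σ.b1 y).2.1, abs_hdif (τ.b1 y).2.2.1 (σ.b1 y).2.2.1]) x hx 0
    unfold hdif at this
    constructor <;> linarith [this.1, this.2]
  · congr 1
    · exact setIntegral_congr_fun h.meas fun x hx => by rw [a3 (t, x) hx]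
    · exact setIntegral_congr_fun h.meas fun x hx => by rw [b3 (t, x) hx]
  · exact setIntegral_congr_fun h.meas fun x hx => by
      simp only [a1 (t, x) hx, a2 (t, x) hx, b1 (t, x) hx, b2 (t, x) hx]

theorem kap2_eq (hρ : ∀ k : ℕ, ContDiff ℝ k ρ) {x : ℝ × ℝ} (hx : fderiv ℝ ρ x ≠ 0) :
    ∃ c d, 0 < c ∧ 0 < d ∧ curv2 ρ x = d * curvature ρ x ∧ kap2 ρ x = c * dcurvature ρ x := by
  have g0 : 0 < gsq ρ x := by
    by_contra hn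
    have hn := not_lt.1 hn
    unfold gsq at hn
    refine hx (fderiv_zero_of_pd fun e => ?_)
    rw [pd_dir2]
    generalize pd (1, 0) ρ x = r1 at *
    generalize pd (0, 1) ρ x = r2 at *
    rw [show r1 = 0 by nlinarith [sq_nonneg r1, sq_nonneg r2],
      show r2 = 0 by nlinarith [sq_nonneg r1, sq_nonneg r2]]
    ring
  have s0 := Real.sqrt_pos.2 g0
  have e : curvature ρ = fun y => curv2 ρ y / Real.sqrt (gsq ρ y) ^ 3 := rfl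
  refine ⟨2 * Real.sqrt (gsq ρ x) ^ 5, Real.sqrt (gsq ρ x) ^ 3, by positivity, by positivity,
    by rw [e]; field_simp, ?_⟩
  have d1 := cdg_diff (cd_curv2 hρ) le_rfl x
  have d2 := cdg_diff (cd_gsq hρ) le_rfl x
  have d3 : DifferentiableAt ℝ (curvature ρ) x := by
    have := d1.mul (((d2.sqrt g0.ne').fun_pow 3).inv (pow_ne_zero 3 s0.ne'))
    rw [e]
    exact this
  set τ : ℝ × ℝ := (-pd (0, 1) ρ x, pd (1, 0) ρ x) with hτ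
  have a1 := HD.of_diff (e := τ) d1
  have a2 := HD.of_diff (e := τ) d2
  have a3 := HasDerivAt.fun_div a1 ((HasDerivAt.sqrt a2 (by simpa using g0.ne')).fun_pow 3)
    (by simpa using s0.ne')
  have a4 := (HD.of_diff (e := τ) d3).unique a3
  have q := Real.sq_sqrt g0.le
  simp only [zero_smul, add_zero] at a4
  change _ = _ * pd τ (curvature ρ) x
  rw [a4, kap2, ← hτ]
  generalize Real.sqrt (gsq ρ x) = s at *
  rw [← q]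
  field_simp
  ring

end Pool.Agent.MP_ed9623_an.H64
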