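import Pool.Agent.MP_ed9623_an.H64.Unique3

open Filter Topology MeasureTheory Set

namespace Pool.Agent.MP_ed9623_an.H64

theorem hd_curve {f : ℝ × ℝ → ℝ} (hf : ContDiff ℝ (1 : ℕ) f) {a b : ℝ → ℝ} {a' b' r : ℝ}
    (ha : HasDerivAt a a' r) (hb : HasDerivAt b b' r) : HasDerivAt (fun r => f (a r, b r))
      (a' * pd (1, 0) f (a r, b r) + b' * pd (0, 1) f (a r, b r)) r :=
  ((cdg_diff hf le_rfl (a r, b r)).hasFDerivAt.comp_hasDerivAt r (ha.prodMk hb)).congr_deriv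
    (pd_dir2 f _ (a', b'))

theorem graph {f : ℝ × ℝ → ℝ} (hf : ∀ k : ℕ, ContDiff ℝ k f) (f0 : f (0, 0) = 0)
    (f1 : pd (1, 0) f (0, 0) = 0) (f2 : pd (0, 1) f (0, 0) < 0)
    (f3 : 0 < pd (1, 0) (pd (1, 0) f) (0, 0)) :
    ∃ φ : ℝ → ℝ, ContDiff ℝ (2 : ℕ) φ ∧ φ 0 = 0 ∧ deriv φ 0 = 0 ∧
      (∃ η > 0, ConvexOn ℝ (Ioo (-η) η) φ) ∧
      ∀ᶠ p in 𝓝 ((0, 0) : ℝ × ℝ), (φ p.1 < p.2 → f p < 0) ∧ (f p = 0 ↔ p.2 = φ p.1) := by
  have iv : (fderiv ℝ f (0, 0) ∘L ContinuousLinearMap.inr ℝ ℝ ℝ).IsInvertible :=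
    ⟨ContinuousLinearEquiv.unitsEquivAut ℝ (Units.mk0 _ f2.ne), by ext; simp [pd]⟩
  have cf := (hf 2).contDiffAt (x := (0, 0))
  obtain ⟨φ, c, e⟩ := globalize (cf.contDiffAt_implicitFunction (by simp) iv)
  have k : ∀ᶠ p in 𝓝 ((0, 0) : ℝ × ℝ), (f p = 0 ↔ p.2 = φ p.1) := by
    filter_upwards [cf.eventually_apply_eq_iff_implicitFunction (by simp) iv,
      continuous_fst.continuousAt.eventually e] with p a b
    rw [f0] at a
    rw [b, a, eq_comm]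
  have φ0 : φ 0 = 0 := (k.self_of_nhds.1 f0).symm
  have d1 : ∀ r, HasDerivAt φ (deriv φ r) r := fun r => (cdg_diff c one_le_two r).hasDerivAt
  have c1 : ContDiff ℝ (1 : ℕ) (deriv φ) := c.deriv'
  have d2 : ∀ r, HasDerivAt (deriv φ) (deriv (deriv φ) r) r := fun r =>
    (cdg_diff c1 le_rfl r).hasDerivAt
  have t : Tendsto (fun r => (r, φ r)) (𝓝 0) (𝓝 ((0, 0) : ℝ × ℝ)) := by
    have := c.continuous
    simpa [φ0] using (by fun_prop : Continuous fun r => (r, φ r)).tendsto 0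
  have z1 : ∀ᶠ r in 𝓝 (0 : ℝ), 1 * pd (1, 0) f (r, φ r) + deriv φ r * pd (0, 1) f (r, φ r) = 0 := by
    filter_upwards [(t.eventually k).eventually_nhds] with r hr
    exact (hd_curve (hf 1) (hasDerivAt_id r) (d1 r)).unique
      ((hasDerivAt_const r 0).congr_of_eventuallyEq (hr.mono fun s hs => hs.2 rfl))
  have φ1 : deriv φ 0 = 0 := by
    have := z1.self_of_nhds
    rw [φ0, f1] at this
    exact (mul_eq_zero.1 (by linarith)).resolve_right f2.ne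
  have p := fun e => contDiff_pd (n := 1) e (hf 2)
  have z2 := (((hd_curve (p _) (hasDerivAt_id 0) (d1 0)).const_mul 1).add ((d2 0).mul
    (hd_curve (p _) (hasDerivAt_id 0) (d1 0)))).unique
      ((hasDerivAt_const 0 0).congr_of_eventuallyEq z1)
  simp only [id, φ0, φ1] at z2
  have φ2 : 0 < deriv (deriv φ) 0 := by nlinarith
  obtain ⟨η, η0, hη⟩ := Metric.eventually_nhds_iff_ball.1
    ((c1.continuous_deriv le_rfl).continuousAt.eventually (lt_mem_nhds φ2))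
  have cr : ContDiff ℝ (2 : ℕ) fun p : ℝ × ℝ => p.2 - φ p.1 := by fun_prop
  have q2 : ∀ p, pd (0, 1) (fun p : ℝ × ℝ => p.2 - φ p.1) p = 1 := fun p =>
    HD.pd_eq (by simpa [HD] using ((hasDerivAt_id (0 : ℝ)).const_add p.2).sub_const (φ p.1))
      (cdg_diff cr one_le_two p)
  obtain ⟨Q, q0, q1⟩ := exists_div (n := 1) (z₀ := (0, 0)) cr.contDiffAt cf (by simp [φ0])
    (fun h => by simpa [pd, h] using q2 (0, 0)) (k.mono fun p a b => a.2 (sub_eq_zero.1 b))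
  have q3 : Q (0, 0) < 0 := by
    rw [pd_congr_pt _ q1, pd_mul _ (cdg_diff cr one_le_two _) (cd_diff q0 le_rfl), q2] at f2
    simpa [φ0] using f2
  refine ⟨φ, c, φ0, φ1, ⟨η, η0, convexOn_of_deriv2_nonneg (convex_Ioo _ _) c.continuous.continuousOn
    (fun r _ => (d1 r).differentiableAt.differentiableWithinAt)
    (fun r _ => (d2 r).differentiableAt.differentiableWithinAt) fun r hr => (hη r ?_).le⟩, ?_⟩
  · simpa [abs_lt] using hr
  filter_upwards [k, q1, q0.continuousAt.eventually (gt_mem_nhds q3)] with p a b d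
  exact ⟨fun h => b ▸ mul_neg_of_pos_of_neg (sub_pos.2 h) d, a⟩

theorem circle {ρ : ℝ × ℝ → ℝ} (hρ : ∀ k : ℕ, ContDiff ℝ k ρ) {a b a' b' : ℝ → ℝ}
    (ha : ∀ r, HasDerivAt a (a' r) r) (hb : ∀ r, HasDerivAt b (b' r) r)
    (h : ∀ᶠ r in 𝓝 (0 : ℝ), ρ (a r, b r) = 0 ∧ curv2 ρ (a r, b r) ≠ 0 ∧ kap2 ρ (a r, b r) = 0) :
    ∀ᶠ r in 𝓝 (0 : ℝ), (a r - a 0) ^ 2 + (b r - b 0) ^ 2 + 2 * (gsq ρ (a 0, b 0) / curv2 ρ (a 0, b 0))
      * ((a r - a 0) * pd (1, 0) ρ (a 0, b 0) + (b r - b 0) * pd (0, 1) ρ (a 0, b 0)) = 0 := by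
  obtain ⟨η, η0, hη⟩ := Metric.eventually_nhds_iff_ball.1 h.eventually_nhds
  have cs : ∀ f : ℝ → ℝ, (∀ r ∈ Metric.ball (0 : ℝ) η, HasDerivAt f 0 r) →
      ∀ r ∈ Metric.ball (0 : ℝ) η, f r = f 0 := fun f hf r hr => by
    simpa [sub_eq_zero] using (convex_ball (0 : ℝ) η).norm_image_sub_le_of_norm_hasDerivWithin_le
      (C := 0) (fun x hx => (hf x hx).hasDerivWithinAt) (fun _ _ => by simp)
      (Metric.mem_ball_self η0) hr
  have p := fun e => contDiff_pd (n := 1) e (hρ 2)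
  have o : ∀ r ∈ Metric.ball (0 : ℝ) η,
      a' r * pd (1, 0) ρ (a r, b r) + b' r * pd (0, 1) ρ (a r, b r) = 0 := fun r hr =>
    (hd_curve (hρ 1) (ha r) (hb r)).unique
      ((hasDerivAt_const r 0).congr_of_eventuallyEq ((hη r hr).mono fun s hs => hs.1))
  have g : ∀ e x, pd e (gsq ρ) x = 2 * pd (1, 0) ρ x * pd e (pd (1, 0) ρ) x
      + 2 * pd (0, 1) ρ x * pd e (pd (0, 1) ρ) x := fun e x => by
    have d := fun e' => HD.of_diff (e := e) (cdg_diff (p e') le_rfl x)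
    have : gsq ρ = fun x => pd (1, 0) ρ x * pd (1, 0) ρ x + pd (0, 1) ρ x * pd (0, 1) ρ x := by
      funext x; simp [gsq, sq]
    rw [HD.pd_eq (f := gsq ρ) (this ▸ ((d _).mul (d _)).add ((d _).mul (d _)))
      (cdg_diff (cd_gsq hρ) le_rfl x)]
    ring
  have E : ∀ r ∈ Metric.ball (0 : ℝ) η,
      HasDerivAt (fun r => a r - gsq ρ (a r, b r) / curv2 ρ (a r, b r) * pd (1, 0) ρ (a r, b r)) 0 r ∧
      HasDerivAt (fun r => b r - gsq ρ (a r, b r) / curv2 ρ (a r, b r) * pd (0, 1) ρ (a r, b r)) 0 r := by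
    intro r hr
    obtain ⟨-, k1, k2⟩ := (hη r hr).self_of_nhds
    have k3 := o r hr
    have q := (hd_curve (cd_gsq hρ) (ha r) (hb r)).div (hd_curve (cd_curv2 hρ) (ha r) (hb r)) k1
    have k4 : gsq ρ (a r, b r) ≠ 0 := fun e => k1 (by
      unfold gsq at e
      unfold curv2
      generalize pd (1, 0) ρ (a r, b r) = r1 at *
      generalize pd (0, 1) ρ (a r, b r) = r2 at *
      rw [show r1 = 0 by nlinarith [sq_nonneg r1, sq_nonneg r2],
        show r2 = 0 by nlinarith [sq_nonneg r1, sq_nonneg r2]]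
      ring)
    rw [kap2, pd_dir2 (curv2 ρ), pd_dir2 (gsq ρ), g, g] at k2
    have cm := pd_comm (1, 0) (0, 1) (hρ 2).contDiffAt (z := (a r, b r))
    have k5 := curv2.eq_1 ρ (a r, b r)
    have k6 := gsq.eq_1 ρ (a r, b r)
    obtain ⟨l, l1, l2⟩ : ∃ l, a' r = -l * pd (0, 1) ρ (a r, b r) ∧ b' r = l * pd (1, 0) ρ (a r, b r) :=
      ⟨(b' r * pd (1, 0) ρ (a r, b r) - a' r * pd (0, 1) ρ (a r, b r)) / gsq ρ (a r, b r), by
        field_simp; rw [k6]; linear_combination pd (1, 0) ρ (a r, b r) * k3, by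
        field_simp; rw [k6]; linear_combination pd (0, 1) ρ (a r, b r) * k3⟩
    refine ⟨((ha r).sub (q.mul (hd_curve (p _) (ha r) (hb r)))).congr_deriv ?_,
      ((hb r).sub (q.mul (hd_curve (p _) (ha r) (hb r)))).congr_deriv ?_⟩
    · simp only [Pi.div_apply, g, ← cm, l1, l2] at k2 ⊢
      field_simp
      rw [k5, k6] at *
      linear_combination l * pd (1, 0) ρ (a r, b r) / 2 * k2
    · simp only [Pi.div_apply, g, ← cm, l1, l2] at k2 ⊢
      field_simp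
      rw [k5, k6] at *
      linear_combination l * pd (0, 1) ρ (a r, b r) / 2 * k2
  filter_upwards [Metric.ball_mem_nhds (0 : ℝ) η0] with r hr
  have := cs (fun r => (a r - a 0) ^ 2 + (b r - b 0) ^ 2 + 2 * (gsq ρ (a 0, b 0) / curv2 ρ (a 0, b 0))
      * ((a r - a 0) * pd (1, 0) ρ (a 0, b 0) + (b r - b 0) * pd (0, 1) ρ (a 0, b 0))) (fun r hr => by
    refine (((((ha r).sub_const _).pow 2).add (((hb r).sub_const _).pow 2)).add
      (((((ha r).sub_const _).mul_const _).add (((hb r).sub_const _).mul_const _)).const_mul _)).congr_deriv ?_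
    have e1 := cs _ (fun r hr => (E r hr).1) r hr
    have e2 := cs _ (fun r hr => (E r hr).2) r hr
    simp only [Nat.cast_ofNat, Nat.add_one_sub_one, pow_one] at e1 e2 ⊢
    linear_combination 2 * a' r * e1 + 2 * b' r * e2
      + 2 * (gsq ρ (a r, b r) / curv2 ρ (a r, b r)) * o r hr) r hr
  simpa using this

end Pool.Agent.MP_ed9623_an.H64
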