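import Pool.Agent.MP_ed9623_an.H64.Calc

open Filter Topology MeasureTheory Set

namespace Pool.Agent.MP_ed9623_an.H64

variable {E : Type*} [NormedAddCommGroup E] [NormedSpace ℝ E]

theorem cd_eventually {f : E → ℝ} {z : E} {n : ℕ} (hf : ContDiffAt ℝ n f z) :
    ∀ᶠ y in 𝓝 z, ContDiffAt ℝ n f y := hf.eventually (by simp)

theorem globalize [FiniteDimensional ℝ E] {f : E → ℝ} {z : E} {n : ℕ}
    (hf : ContDiffAt ℝ n f z) : ∃ g : E → ℝ, ContDiff ℝ n g ∧ g =ᶠ[𝓝 z] f := by
  obtain ⟨r, hr, hrf⟩ := Metric.eventually_nhds_iff_ball.1 (cd_eventually hf)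
  let b : ContDiffBump z := ⟨r / 3, r / 2, by positivity, by linarith⟩
  refine ⟨fun y => b y * f y, contDiff_iff_contDiffAt.2 fun y => ?_, ?_⟩
  · by_cases hy : y ∈ Metric.ball z r
    · exact b.contDiff.contDiffAt.mul (hrf y hy)
    · have : y ∉ tsupport b := by
        rw [b.tsupport_eq]
        intro h
        exact hy (Metric.closedBall_subset_ball (by simp only [b]; linarith) h)
      refine (contDiffAt_const (c := (0 : ℝ))).congr_of_eventuallyEq ?_
      filter_upwards [notMem_tsupport_iff_eventuallyEq.1 this] with w hw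
      rw [hw]; simp
  · filter_upwards [b.eventuallyEq_one] with y hy
    rw [hy]; simp

theorem contDiff_param_integral {K : E × ℝ → ℝ} {n : ℕ} (hK : ContDiff ℝ n K) :
    ContDiff ℝ n fun p => ∫ s in (0 : ℝ)..1, K (p, s) := by
  let b : ContDiffBump (0 : ℝ) := ⟨1, 2, by norm_num, by norm_num⟩
  have h := contDiffOn_convolution_right_with_param_comp (μ := volume) (n := (n : ℕ∞))
    (ContinuousLinearMap.mul ℝ ℝ) (s := (univ : Set E)) (v := fun _ => (0 : ℝ))
    contDiffOn_const (f := (Ioc (0 : ℝ) 1).indicator fun _ => (1 : ℝ))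
    (g := fun p x => b x * K (p, -x)) (k := tsupport b) isOpen_univ b.hasCompactSupport
    (fun p x _ hx => by rw [image_eq_zero_of_notMem_tsupport hx, zero_mul])
    ((integrable_indicator_iff measurableSet_Ioc).2 (by simp)).locallyIntegrable
    (by
      refine ContDiff.contDiffOn ?_
      have hb : ContDiff ℝ n b := b.contDiff
      change ContDiff ℝ n fun q : E × ℝ => b q.2 * K (q.1, -q.2)
      fun_prop)
  rw [contDiffOn_univ] at h
  convert h using 2 with p
  · rfl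
  rw [intervalIntegral.integral_of_le zero_le_one, convolution_def,
    ← integral_indicator measurableSet_Ioc]
  congr 1
  funext s
  by_cases hs : s ∈ Ioc (0 : ℝ) 1
  · have : b (-s) = 1 := b.one_of_mem_closedBall (by
      simp only [b, Metric.mem_closedBall, dist_zero_right, norm_neg, Real.norm_eq_abs]
      rw [abs_of_pos hs.1]; exact hs.2)
    simp [hs, this]
  · simp [hs]

/-- Division by a defining function. -/
theorem exists_div [FiniteDimensional ℝ E] {ρ f : E → ℝ} {z₀ : E} {n : ℕ}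
    (hρ : ContDiffAt ℝ (n + 1 : ℕ) ρ z₀) (hf : ContDiffAt ℝ (n + 1 : ℕ) f z₀) (h0 : ρ z₀ = 0)
    (hd : fderiv ℝ ρ z₀ ≠ 0) (hv : ∀ᶠ z in 𝓝 z₀, ρ z = 0 → f z = 0) :
    ∃ h : E → ℝ, ContDiffAt ℝ n h z₀ ∧ f =ᶠ[𝓝 z₀] fun z => ρ z * h z := by
  haveI : CompleteSpace E := FiniteDimensional.complete ℝ E
  set l := fderiv ℝ ρ z₀ with hl
  obtain ⟨e, he⟩ : ∃ e, l e = 1 := by
    obtain ⟨e, he⟩ : ∃ e, l e ≠ 0 := by
      by_contra h
      push Not at h
      exact hd (ContinuousLinearMap.ext h)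
    exact ⟨(l e)⁻¹ • e, by rw [map_smul, smul_eq_mul, inv_mul_cancel₀ he]⟩
  let Ψ : E → E := fun z => z + (ρ z - l z) • e
  have hΨ : ContDiffAt ℝ (n + 1 : ℕ) Ψ z₀ := by
    have := l.contDiff (n := (n + 1 : ℕ)).contDiffAt (x := z₀)
    exact contDiffAt_id.add ((hρ.sub this).smul contDiffAt_const)
  have hΨ' : HasFDerivAt Ψ ((ContinuousLinearEquiv.refl ℝ E : E ≃L[ℝ] E) : E →L[ℝ] E) z₀ := by
    have a1 : HasFDerivAt ρ l z₀ := (cd_diff hρ (by omega)).hasFDerivAt
    have a2 := (hasFDerivAt_id z₀).add ((a1.sub l.hasFDerivAt).smul_const e)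
    convert a2 using 1
    · rfl
    · ext v; simp
  have hn : ((n + 1 : ℕ) : WithTop ℕ∞) ≠ 0 := by exact_mod_cast Nat.succ_ne_zero n
  have hlΨ : ∀ z, l (Ψ z) = ρ z := fun z => by simp [Ψ, he]
  have hs := hΨ.hasStrictFDerivAt' hΨ' hn
  let Φ := hΨ.localInverse hΨ' hn
  have hΦ : ContDiffAt ℝ (n + 1 : ℕ) Φ (Ψ z₀) := hΨ.to_localInverse hΨ' hn
  have hΦ0 : Φ (Ψ z₀) = z₀ := hΨ.localInverse_apply_image hΨ' hn
  have hL : ∀ᶠ z in 𝓝 z₀, Φ (Ψ z) = z := hs.eventually_left_inverse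
  have hR : ∀ᶠ y in 𝓝 (Ψ z₀), Ψ (Φ y) = y := hs.eventually_right_inverse
  have hT : Tendsto Φ (𝓝 (Ψ z₀)) (𝓝 z₀) := hs.localInverse_tendsto
  obtain ⟨G, hG, hGe⟩ := globalize (ContDiffAt.comp (Ψ z₀) (g := f) (by rwa [hΦ0]) hΦ)
  have hG0 : ∀ᶠ y in 𝓝 (Ψ z₀), l y = 0 → G y = 0 := by
    filter_upwards [hGe, hR, hT.eventually hv] with y h1 h2 h3 hy
    rw [h1]
    exact h3 (by rw [← hlΨ, h2, hy])
  let K : E × ℝ → ℝ := fun q => pd e G (q.1 - (q.2 * l q.1) • e)
  have hK : ContDiff ℝ n K := by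
    have a1 : ContDiff ℝ n (pd e G) := contDiff_pd e hG
    have a2 : ContDiff ℝ n l := l.contDiff
    simp only [K]
    fun_prop
  have hH := contDiff_param_integral hK
  have ftc : ∀ y, G y - G (y - l y • e) = l y * ∫ s in (0 : ℝ)..1, K (y, s) := by
    intro y
    have d : ∀ s ∈ uIcc (0 : ℝ) 1, HasDerivAt (fun s : ℝ => - G (y - (s * l y) • e))
        (l y * K (y, s)) s := by
      intro s _
      have a1 : HasDerivAt (fun s : ℝ => y - (s * l y) • e) (-(l y • e)) s := by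
        simpa using (((hasDerivAt_id s).mul_const (l y)).smul_const e).const_sub y
      have a2 := ((cdg_diff hG (by omega) (y - (s * l y) • e)).hasFDerivAt.comp_hasDerivAt s
        a1).neg
      have a3 : l y * K (y, s) = -(fderiv ℝ G (y - (s * l y) • e)) (-(l y • e)) := by
        simp [K, pd]
      rw [a3]
      exact a2
    have c : Continuous fun s : ℝ => l y * K (y, s) := by
      have := hK.continuous
      fun_prop
    have := intervalIntegral.integral_eq_sub_of_hasDerivAt d (c.intervalIntegrable 0 1)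
    rw [intervalIntegral.integral_const_mul] at this
    rw [this]
    simp
    ring
  refine ⟨fun z => ∫ s in (0 : ℝ)..1, K (Ψ z, s),
    hH.contDiffAt.comp z₀ (hΨ.of_le (by exact_mod_cast Nat.le_succ n)), ?_⟩
  have hP : Tendsto (fun y => y - l y • e) (𝓝 (Ψ z₀)) (𝓝 (Ψ z₀)) := by
    have : Continuous fun y => y - l y • e := by fun_prop
    have h2 := this.tendsto (Ψ z₀)
    rwa [hlΨ, h0, zero_smul, sub_zero] at h2
  have hΨt : Tendsto Ψ (𝓝 z₀) (𝓝 (Ψ z₀)) := hΨ.continuousAt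
  filter_upwards [hL, hΨt.eventually hGe, hΨt.eventually (hP.eventually hG0)] with z h1 h2 h3
  have h4 := ftc (Ψ z)
  rw [h3 (by simp [he]), h2, hlΨ, Function.comp, h1] at h4
  linarith

end Pool.Agent.MP_ed9623_an.H64
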