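import Pool.Agent.MP_ed9623_an.H64.NA3
import Pool.Agent.MP_ed9623_an.H64.Fin5b

open Filter Topology MeasureTheory Set

namespace Pool.Agent.MP_ed9623_an.H64

variable {ρ g₁ g₂ : PP → ℝ} {a1 a2 w1 w2 P g1 g2 : ST → ℝ}

theorem grad_vort (hρ : ∀ k : ℕ, ContDiff ℝ k ρ) (h : Dom ρ)
    (ha1 : ContDiff ℝ (2 : ℕ) a1) (ha2 : ContDiff ℝ (2 : ℕ) a2)
    (hw1 : ContDiff ℝ (4 : ℕ) w1) (hw2 : ContDiff ℝ (4 : ℕ) w2)
    (hS : ∀ y : ST, ρ y.2 < 0 → Sys a1 a2 w1 w2 P g1 g2 y)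
    (hB : ∀ y : ST, ρ y.2 = 0 → a1 y = 0 ∧ a2 y = 0 ∧ w1 y = 0 ∧ w2 y = 0) (t : ℝ) (y : PP)
    (hy : ρ y = 0) : fderiv ℝ (fun x => vort w1 w2 (t, x)) y = 0 := by
  have l1 := fun {f : ST → ℝ} (h : ContDiff ℝ (4 : ℕ) f) => cdg_le h (by norm_num : 1 ≤ 4)
  have l2 := fun {f : ST → ℝ} (h : ContDiff ℝ (4 : ℕ) f) => cdg_le h (by norm_num : 2 ≤ 4)
  have cω := cd_vort (n := 3) hw1 hw2
  have cω1 := cdg_le cω (by norm_num : 1 ≤ 3)
  have hU : ∀ y : ST, ρ y.2 < 0 → ∀ᶠ z : ST in 𝓝 y, ρ z.2 < 0 := fun y hy =>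
    (h.isOpen.preimage continuous_snd).mem_nhds hy
  have rd : ∀ y : ST, ρ y.2 = 0 → fderiv ℝ (fun y : ST => ρ y.2) y ≠ 0 := fun y hy hz =>
    h.2.1 _ hy (fderiv_zero_of_pd fun e => by
      rw [← pd_snd (cdg_diff (hρ 1) le_rfl _) (0, e)]; unfold pd; rw [hz]; rfl)
  have cl : ∀ y : ST, ρ y.2 = 0 → ∀ f : ST → ℝ, Continuous f → (∀ z : ST, ρ z.2 < 0 → f z = 0) →
      f y = 0 := fun y hy f hf hz => eq_zero_of_closure hf.continuousAt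
    (mem_closure_neg (r := fun y : ST => ρ y.2) hy (rd y hy)) (Eventually.of_forall hz)
  have ca := fun {f : ST → ℝ} (h : ContDiff ℝ (2 : ℕ) f) e => (contDiff_pd (n := 1) e h).continuous
  have cb := fun {f : ST → ℝ} (h : ContDiff ℝ (4 : ℕ) f) e =>
    (contDiff_pd (n := 2) e (contDiff_pd (n := 3) e h)).continuous
  refine fderiv_zero_of_pd fun e => ?_
  obtain ⟨b1, b2, b3, b4⟩ := hB (t, y) hy
  have c0 := fun {f : ST → ℝ} (h : ContDiff ℝ (4 : ℕ) f) => (cd_heat (n := 0)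
    (contDiff_zero.2 ha1.continuous) (contDiff_zero.2 ha2.continuous) (l2 h)).continuous
  have p1 := cl (t, y) hy _ ((c0 hw1).add ((hw1.continuous.mul (ca ha1 e1)).add
    (hw2.continuous.mul (ca ha1 e2)))) fun z hz => (hS z hz).1.1
  have p2 := cl (t, y) hy _ ((c0 hw2).add ((hw1.continuous.mul (ca ha2 e1)).add
    (hw2.continuous.mul (ca ha2 e2)))) fun z hz => (hS z hz).1.2.1
  have p3 := cl (t, y) hy _ ((ca (cdg_le cω (by norm_num)) e1).sub ((cb hw2 e1).add (cb hw2 e2)))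
    fun z hz => sub_eq_zero.2 (vort_pd (l2 hw1) (l2 hw2)
      ((hU z hz).mono fun y hy => (hS y hy).1.2.2.2)).1
  have p4 := cl (t, y) hy _ ((ca (cdg_le cω (by norm_num)) e2).sub
    ((cb hw1 e1).add (cb hw1 e2)).neg) fun z hz => sub_eq_zero.2 (vort_pd (l2 hw1) (l2 hw2)
      ((hU z hz).mono fun y hy => (hS y hy).1.2.2.2)).2
  have p5 := pd_time_zero (l1 hw1) (fun y hy => (hB y hy).2.2.1) (z := (t, y)) hy
  have p6 := pd_time_zero (l1 hw2) (fun y hy => (hB y hy).2.2.2) (z := (t, y)) hy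
  simp only [heat, Pi.add_apply, Pi.sub_apply, Pi.mul_apply, Pi.neg_apply, b1, b2, b3, b4, p5,
    p6] at p1 p2 p3 p4
  rw [pd_dir2, pd_slice (cdg_diff cω1 le_rfl _), pd_slice (cdg_diff cω1 le_rfl _)]
  linear_combination e.1 * (p3 - p2) + e.2 * (p4 + p1)

theorem time_eq {F G : ST → ℝ} (hF : ContDiff ℝ (1 : ℕ) F) (hG : ContDiff ℝ (1 : ℕ) G) {x x' : PP}
    (h : ∀ s, F (s, x) = G (s, x')) (s : ℝ) : pd e0 F (s, x) = pd e0 G (s, x') :=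
  (hasDerivAt_time hF x s).unique ((funext h : (fun s => F (s, x)) = _) ▸ hasDerivAt_time hG x' s)

theorem ode2 {c c1 c2 c3 : ℝ → ℝ} {t δ K : ℝ} (d0 : ∀ s, HasDerivAt c (c1 s) s)
    (d1 : ∀ s, HasDerivAt c1 (c2 s) s) (d2 : ∀ s, HasDerivAt c2 (c3 s) s)
    (h : ∀ s ∈ Metric.ball t δ, c s ≠ 0 ∧ c s * c2 s - c1 s ^ 2 = K) :
    ∃ μ, ∀ s ∈ Metric.ball t δ, c2 s = μ * c s := by
  refine ⟨c2 t / c t, fun s hs => ?_⟩
  have := (convex_ball t δ).norm_image_sub_le_of_norm_hasDerivWithin_le (f := fun s => c2 s / c s)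
    (f' := fun _ => 0) (C := 0) (fun s hs => HasDerivAt.hasDerivWithinAt (by
      have k := (((d0 s).mul (d2 s)).sub ((d1 s).pow 2)).unique ((hasDerivAt_const s K).congr_of_eventuallyEq
        (mem_of_superset (Metric.isOpen_ball.mem_nhds hs) fun u hu => (h u hu).2))
      refine ((d2 s).div (d0 s) (h s hs).1).congr_deriv ?_
      simp only [Nat.cast_ofNat, Nat.add_one_sub_one, pow_one] at k
      rw [div_eq_zero_iff]
      exact Or.inl (by linarith))) (fun _ _ => by simp)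
    (Metric.mem_ball_self (Metric.pos_of_mem_ball hs)) hs
  rw [← (sub_eq_zero.1 (by simpa using this) : c2 s / c s = c2 t / c t), div_mul_cancel₀ _ (h s hs).1]

theorem zc_na (hρ : ∀ k : ℕ, ContDiff ℝ k ρ) (h : Dom ρ) (hc : IsPreconnected {x | ρ x < 0})
    (hg₁ : ∀ k : ℕ, ContDiff ℝ k g₁) (hg₂ : ∀ k : ℕ, ContDiff ℝ k g₂) {x₀ : PP} (h0 : ρ x₀ = 0)
    (hk : 0 < curv2 ρ x₀) (H : ¬ ∃ F : PP → ℝ, AnalyticAt ℝ F x₀ ∧ fderiv ℝ F x₀ ≠ 0 ∧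
      ∀ᶠ x in 𝓝 x₀, ρ x = 0 ↔ F x = 0) : ZC ρ g₁ g₂ := by
  intro a1 a2 w1 w2 P ha1 ha2 hw1 hw2 hP sa1 sa2 sw1 sw2 hS hB M hM _ x hx t
  refine zero_on hρ h hc h0 hk.ne' ha1 ha2 hw1 hw2 hS hB isOpen_univ (fun t₀ _ => ?_) x hx t
    (mem_univ _)
  by_contra hne
  obtain ⟨τ, φ, f1, f2, f3, f4, f5, f6, f7, f8⟩ := geo hρ h0 hk
  refine H (f8 ?_)
  by_cases hκ : ∀ᶠ x in 𝓝 x₀, ρ x = 0 → kap2 ρ x = 0
  · exact f7 hκ
  have hr : ∀ k : ℕ, ContDiff ℝ k fun y : ST => ρ y.2 := fun k => (hρ k).comp contDiff_snd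
  have t0 : ∀ {f : ℝ × ℝ → ℝ}, ContDiff ℝ (1 : ℕ) f → pd e0 (fun y : ST => f y.2) = 0 :=
    fun hf => by rw [pd_snd_fun hf]; funext z; simp [pd, Prod.mk_zero_zero]
  have l3 := fun {f : ST → ℝ} (h : ContDiff ℝ (4 : ℕ) f) => cdg_le h (by norm_num : 3 ≤ 4)
  have l1 := fun {f : ST → ℝ} (h : ContDiff ℝ (4 : ℕ) f) => cdg_le h (by norm_num : 1 ≤ 4)
  have cω := cd_vort (n := 3) hw1 hw2
  have cω1 := cdg_le cω (by norm_num : 1 ≤ 3)
  have cω2 := contDiff_pd (n := 2) e0 cω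
  have hU : ∀ y : ST, ρ y.2 < 0 → ∀ᶠ z : ST in 𝓝 y, ρ z.2 < 0 := fun y hy =>
    (h.isOpen.preimage continuous_snd).mem_nhds hy
  have cl : ∀ {f g : ST → ℝ}, Continuous f → Continuous g → (∀ z : ST, ρ z.2 < 0 → f z = g z) →
      ∀ y : ST, ρ y.2 = 0 → f y = g y := fun {f g} hf hg hz y hy => sub_eq_zero.1 (eq_zero_of_closure
        (f := fun x => f (y.1, x) - g (y.1, x)) (z := y.2) (((hf.sub hg).comp (Continuous.prodMk_right y.1)).continuousAt)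
        (mem_closure_neg hy (h.2.1 _ hy)) (Eventually.of_forall fun x hx => sub_eq_zero.2 (hz (y.1, x) hx)))
  obtain ⟨W1, cW1, eW1⟩ := sw1 6
  obtain ⟨W2, cW2, eW2⟩ := sw2 6
  have v1 := fun (y : ST) hy => (show w1 =ᶠ[𝓝 y] W1 from (hU y hy).mono eW1)
  have v2 := fun (y : ST) hy => (show w2 =ᶠ[𝓝 y] W2 from (hU y hy).mono eW2)
  have bW : ∀ y : ST, ρ y.2 = 0 → W1 y = 0 ∧ W2 y = 0 := fun y hy =>
    ⟨(cl hw1.continuous cW1.continuous eW1 y hy).symm.trans (hB y hy).2.2.1,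
      (cl hw2.continuous cW2.continuous eW2 y hy).symm.trans (hB y hy).2.2.2⟩
  have cΩ := cdg_le (cd_vort (n := 5) cW1 cW2) (by norm_num : 2 ≤ 5)
  have eΩ := cl cΩ.continuous cω.continuous fun y hy => by
    simp only [vort, Pi.sub_apply, pd_congr_pt _ (v1 y hy), pd_congr_pt _ (v2 y hy)]
  have ep := epd_link h rfl (z := (t₀, x₀)) hr (t0 (hρ 1)) h0
    (by rwa [curv_snd (hρ 2)]) (sa1.at _) (sa2.at _) (sw1.at _) (sw2.at _) ha1.continuous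
    ha2.continuous (l1 hw1) (l1 hw2) (eventually_nhdsWithin_of_forall hS) (Eventually.of_forall hB) hne
  have ct : Continuous fun y : ST => vort w1 w2 (y.1, x₀) := cω.continuous.comp (by fun_prop)
  obtain ⟨δ, δ0, hδ⟩ := Metric.eventually_nhds_iff_ball.1 (((eventually_nhdsWithin_iff.1 ep).and
    (ct.continuousAt.eventually_ne hne)).and (continuous_snd.continuousAt.eventually
      (((curv2_cont (hρ 2)).continuousAt.eventually_ne hk.ne').and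
        (arc_const (hρ 1).contDiffAt h0 (h.2.1 _ h0)))))
  simp only [← ball_prod_same, mem_prod, and_imp] at hδ
  have m0 := Metric.mem_ball_self (x := t₀) δ0
  have n0 := Metric.mem_ball_self (x := x₀) δ0
  have ar : ∀ x ∈ Metric.ball x₀ δ, ρ x = 0 → ∀ s, vort w1 w2 (s, x) = vort w1 w2 (s, x₀) :=
    fun x hx hx' s => (hδ (t₀, x) m0 hx).2.2 hx' _ (fun x => cdg_diff (cω1.comp
      (by fun_prop : ContDiff ℝ (1 : ℕ) fun x : ℝ × ℝ => ((s, x) : ST))) le_rfl x)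
        (grad_vort hρ h ha1 ha2 hw1 hw2 hS hB s)
  have tr : ∀ {F : ST → ℝ}, ContDiff ℝ (2 : ℕ) F → ∀ x, (∀ s, F (s, x) = vort w1 w2 (s, x₀)) →
      ∀ s, pd e0 F (s, x) = pd e0 (vort w1 w2) (s, x₀) ∧
        pd e0 (pd e0 F) (s, x) = pd e0 (pd e0 (vort w1 w2)) (s, x₀) := fun hF x k s =>
    ⟨time_eq (cdg_le hF one_le_two) cω1 k s, time_eq (contDiff_pd _ hF) (cdg_le cω2 one_le_two)
      (time_eq (cdg_le hF one_le_two) cω1 k) s⟩
  have hS' : ∀ y : ST, y.1 ∈ Metric.ball t₀ δ → y.2 ∈ Metric.ball x₀ δ → ρ y.2 < 0 →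
      Lh W1 y = 0 ∧ Lh W2 y = 0 ∧ pd e1 W1 y + pd e2 W2 y = 0 := fun y k1 k2 k3 => by
    have k : ∀ᶠ z in 𝓝 y, a1 z = 0 ∧ a2 z = 0 := by
      filter_upwards [hU y k3, (Metric.isOpen_ball.prod Metric.isOpen_ball).mem_nhds ⟨k1, k2⟩]
        with z b c using (hδ z c.1 c.2).1.1 b
    have p1 := fun e => (pd_zero_on_open e (k.mono fun _ h => h.1)).self_of_nhds
    have p2 := fun e => (pd_zero_on_open e (k.mono fun _ h => h.2)).self_of_nhds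
    obtain ⟨⟨s1, s2, -, s4⟩, -⟩ := hS y k3
    simp only [heat, p1, p2, k.self_of_nhds] at s1 s2
    rw [← Lh_congr (v1 y k3), ← Lh_congr (v2 y k3), ← pd_congr_pt _ (v1 y k3),
      ← pd_congr_pt _ (v2 y k3)]
    unfold Lh
    exact ⟨by linarith, by linarith, s4⟩
  obtain ⟨x₁, k1, k2⟩ := ((not_eventually.1 hκ).and_eventually (Metric.ball_mem_nhds x₀ δ0)).exists
  obtain ⟨k3, k4⟩ := Classical.not_imp.1 k1
  haveI := mem_closure_iff_nhdsWithin_neBot.1 (mem_closure_neg k3 (h.2.1 _ k3))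
  have jet : ∀ s ∈ Metric.ball t₀ δ, ∃ L, Tendsto (fun x => (pd (1, 0) g₂ x - pd (0, 1) g₁ x) / ρ x ^ 6)
      (𝓝[{x | ρ x < 0}] x₁) (𝓝 L) ∧ vort w1 w2 (s, x₀) * pd e0 (pd e0 (vort w1 w2)) (s, x₀)
        - pd e0 (vort w1 w2) (s, x₀) ^ 2 = 180 * gsq ρ x₁ ^ 6 * L / kap2 ρ x₁ := fun s hs => by
    obtain ⟨L, j1, j2⟩ := jet6 (z := (s, x₁)) hr (t0 (hρ 1)) k3
      (by rw [curv_snd (hρ 2)]; exact (hδ (s, x₁) hs k2).2.1)
      (sa1.at _) (sa2.at _) (sw1.at _) (sw2.at _) ha1.continuous ha2.continuous (l3 hw1) (l3 hw2)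
      hP (g1 := fun y => g₁ y.2) (g2 := fun y => g₂ y.2) (fun k => (hg₁ k).comp contDiff_snd)
      (fun k => (hg₂ k).comp contDiff_snd) (t0 (hg₁ 1)) (t0 (hg₂ 1))
      (eventually_nhdsWithin_of_forall hS) (Eventually.of_forall hB)
      (by rw [ar x₁ k2 k3]; exact (hδ (s, x₁) hs k2).1.2)
    have tt : Tendsto (fun x : ℝ × ℝ => ((s, x) : ST)) (𝓝[{x | ρ x < 0}] x₁)
        (𝓝[{y : ST | ρ y.2 < 0}] (s, x₁)) :=
      (Continuous.continuousWithinAt (by fun_prop)).tendsto_nhdsWithin fun x hx => hx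
    refine ⟨L, (j1.comp tt).congr fun x => by
      simp only [Function.comp, vort, Pi.sub_apply, pd_snd_fun (hg₁ 1), pd_snd_fun (hg₂ 1)], ?_⟩
    obtain ⟨j3, j4⟩ := tr (cdg_le cω (by norm_num)) x₁ (ar x₁ k2 k3) s
    rw [kapS_snd hρ, j3, j4, ar x₁ k2 k3] at j2
    rw [eq_div_iff k4, ← j2]
    simp only [GS, gsq, pd_snd_fun (hρ 1), Pi.add_apply, Pi.mul_apply, sq]
  obtain ⟨L, jL, -⟩ := jet t₀ m0
  obtain ⟨μ, hμ⟩ := ode2 (fun s => hasDerivAt_time cω1 x₀ s)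
    (fun s => hasDerivAt_time (cdg_le cω2 one_le_two) x₀ s)
    (fun s => hasDerivAt_time (contDiff_pd e0 cω2) x₀ s) (t := t₀) (δ := δ) fun s hs => by
      obtain ⟨L', j1, j2⟩ := jet s hs
      exact ⟨(hδ (s, x₀) hs n0).1.2, tendsto_nhds_unique j1 jL ▸ j2⟩
  have tΩ := fun x hx hx' => tr cΩ x fun s => (eΩ (s, x) hx').trans (ar x hx hx' s)
  have uc : ∀ a b c : ℝ, (∀ s ∈ Metric.ball t₀ δ, a * pd e0 (pd e0 (vort w1 w2)) (s, x₀)
      + b * pd e0 (vort w1 w2) (s, x₀) + c * vort w1 w2 (s, x₀) = 0) → ∀ s ∈ Metric.ball t₀ δ,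
      ∀ x ∈ Metric.ball x₀ δ, ρ x < 0 → Tm a b c W1 (s, x) = 0 ∧ Tm a b c W2 (s, x) = 0 :=
    fun a b c k s hs x hx => vec_uc hρ h0 (h.2.1 _ h0) δ0 Metric.isOpen_ball cW1 cW2 hS' bW
      (fun y j1 j2 j3 => ⟨(hδ y j1 j2).2.1, by
        unfold Tm
        rw [(tΩ y.2 j2 j3 y.1).1, (tΩ y.2 j2 j3 y.1).2, eΩ y j3, ar y.2 j2 j3 y.1]
        exact k _ j1⟩) (s, x) hs hx
  have fin : ∀ s ∈ Metric.ball t₀ δ, ∀ p q σ : ℂ, p * pd e0 (vort w1 w2) (s, x₀)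
      + q * vort w1 w2 (s, x₀) ≠ 0 → ∀ a b c : ℝ, (∀ s ∈ Metric.ball t₀ δ,
        a * pd e0 (pd e0 (vort w1 w2)) (s, x₀) + b * pd e0 (vort w1 w2) (s, x₀)
        + c * vort w1 w2 (s, x₀) = 0) → p = a → q - σ * p = b → -σ * q = c → AnalyticAt ℝ φ 0 := by
    intro s hs p q σ hk a b c k j1 j2 j3
    refine helm (x₀ := x₀) (hρ 0).continuous f1 f2 f3 f4 f5 f6 (cdg_le cW1 (by norm_num))
      (cdg_le cW2 (by norm_num)) (p := p) (q := q) (σ := σ) hk (mem_of_superset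
        ((Metric.isOpen_ball.prod Metric.isOpen_ball).mem_nhds (show ((s, x₀) : ST) ∈ _ from ⟨hs, n0⟩))
          fun y hy => hS' y hy.1 hy.2) bW (mem_of_superset (Metric.ball_mem_nhds x₀ δ0)
            fun x hx => ⟨fun n => ?_, fun n => by
              rw [(tΩ x hx n s).1, eΩ (s, x) n, ar x hx n s]⟩)
    obtain ⟨u1, u2⟩ := uc a b c k s hs x hx n
    have u3 := congrArg Complex.ofReal u1
    have u4 := congrArg Complex.ofReal u2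
    unfold Tm at u3 u4
    push_cast at u3 u4
    rw [← j1, ← j2, ← j3] at u3 u4
    exact ⟨by linear_combination u3, by linear_combination u4⟩
  by_cases hA : ∀ s ∈ Metric.ball t₀ δ, pd e0 (vort w1 w2) (s, x₀) = 0
  · exact fin t₀ m0 0 1 0 (by simpa using hne) 0 1 0 (fun s hs => by simp [hA s hs]) (by simp)
      (by simp) (by simp)
  push Not at hA
  obtain ⟨s, hs, hA⟩ := hA
  obtain ⟨σ, hσ⟩ := IsAlgClosed.exists_eq_mul_self (μ : ℂ)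
  have k := fun σ' hk => fin s hs 1 σ' σ' hk 1 0 (-μ) (fun s hs => by rw [hμ s hs]; ring) (by simp)
    (by simp)
  by_cases hB' : 1 * (pd e0 (vort w1 w2) (s, x₀) : ℂ) + σ * vort w1 w2 (s, x₀) = 0
  · refine k (-σ) (fun e => hA ?_) (by push_cast; rw [hσ]; ring)
    exact_mod_cast (by linear_combination (e + hB') / 2 : (pd e0 (vort w1 w2) (s, x₀) : ℂ) = 0)
  · exact k σ hB' (by push_cast; rw [hσ]; ring)

end Pool.Agent.MP_ed9623_an.H64
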