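import Mathlib

open Filter Topology MeasureTheory Set
open scoped ENNReal NNReal

namespace Pool.Agent.MP_ed9623_an.H64

variable {B : Type*} [NormedAddCommGroup B] [NormedSpace ℝ B]

theorem mane {Z : Set B} (hZ : IsCompact Z) {N : ℕ} (hd : dimH Z < N) :
    ∃ Λ : B →L[ℝ] (Fin N → ℝ), ∀ z ∈ Z, Λ z = 0 → z = 0 := by
  have key : ∀ m : ℕ, ∃ U : Set (B →L[ℝ] (Fin N → ℝ)), IsOpen U ∧ Dense U ∧
      ∀ Λ ∈ U, ∀ z ∈ Z ∩ {z | 1 / ((m : ℝ) + 1) ≤ ‖z‖}, Λ z ≠ 0 := by
    intro m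
    have hK : IsCompact (Z ∩ {z | 1 / ((m : ℝ) + 1) ≤ ‖z‖}) :=
      hZ.inter_right (isClosed_le continuous_const continuous_norm)
    refine hK.induction_on (p := fun s => ∃ U : Set (B →L[ℝ] (Fin N → ℝ)), IsOpen U ∧ Dense U ∧
      ∀ Λ ∈ U, ∀ z ∈ s, Λ z ≠ 0) ⟨univ, isOpen_univ, dense_univ, by simp⟩ ?_ ?_ ?_
    · rintro s t hst ⟨U, a, b, c⟩
      exact ⟨U, a, b, fun Λ h z hz => c Λ h z (hst hz)⟩
    · rintro s t ⟨U, a, b, c⟩ ⟨V, a', b', c'⟩
      refine ⟨U ∩ V, a.inter a', b.inter_of_isOpen_left b' a, fun Λ h z hz => ?_⟩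
      rcases hz with hz | hz
      · exact c Λ h.1 z hz
      · exact c' Λ h.2 z hz
    · rintro z₀ ⟨hz₀, hz₀'⟩
      have hpos : 0 < ‖z₀‖ := lt_of_lt_of_le (by positivity) hz₀'
      obtain ⟨ψ, -, hψ⟩ := exists_dual_vector ℝ z₀ hpos.ne'
      have hψ' : ψ z₀ = ‖z₀‖ := by simpa using hψ
      let s : Set B := Z ∩ {z | ‖z₀‖ / 2 ≤ ψ z}
      have hs : IsCompact s := hZ.inter_right (isClosed_le continuous_const ψ.continuous)
      refine ⟨s, ?_, {Λ | ∀ z ∈ s, Λ z ≠ 0}, ?_, ?_, fun Λ h => h⟩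
      · have : {z | ‖z₀‖ / 2 ≤ ψ z} ∈ 𝓝 z₀ :=
          ψ.continuous.continuousAt.eventually (eventually_ge_nhds (by rw [hψ']; linarith))
        filter_upwards [self_mem_nhdsWithin, mem_nhdsWithin_of_mem_nhds this] with z h1 h2
        exact ⟨h1.1, h2⟩
      · refine isOpen_iff_mem_nhds.2 fun Λ h => ?_
        refine hs.eventually_forall_of_forall_eventually
          (P := fun (L : B →L[ℝ] (Fin N → ℝ)) z => L z ≠ 0) fun y hy => ?_
        have : Continuous fun q : (B →L[ℝ] (Fin N → ℝ)) × B => q.1 q.2 := by fun_prop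
        exact this.continuousAt.eventually_ne (h y hy)
      · intro Λ
        let φ : (Fin N → ℝ) × ℝ → (Fin N → ℝ) := fun q => -(q.2⁻¹ • q.1)
        have hφ : ContDiffOn ℝ 1 φ {q | ‖z₀‖ / 2 ≤ q.2} := by
          intro q hq
          have hq' : q.2 ≠ 0 := ne_of_gt (lt_of_lt_of_le (by positivity) hq)
          exact ((contDiffAt_snd.inv hq').smul contDiffAt_fst).neg.contDiffWithinAt
        have hcv : Convex ℝ {q : (Fin N → ℝ) × ℝ | ‖z₀‖ / 2 ≤ q.2} :=
          (convex_Ici (‖z₀‖ / 2)).linear_preimage (LinearMap.snd ℝ _ _)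
        have h1 : dimH (φ '' ((Λ.prod ψ) '' s)) < Module.finrank ℝ (Fin N → ℝ) := by
          refine lt_of_le_of_lt (hφ.dimH_image_le hcv ?_) ?_
          · rintro _ ⟨z, hz, rfl⟩; exact hz.2
          · refine lt_of_le_of_lt ((Λ.prod ψ).lipschitz.dimH_image_le s) ?_
            refine lt_of_le_of_lt (dimH_mono inter_subset_left) ?_
            simpa using hd
        have h2 := dense_compl_of_dimH_lt_finrank h1
        have c : Continuous fun y : Fin N → ℝ => Λ + ψ.smulRight y := by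
          have := (ContinuousLinearMap.smulRightL ℝ B (Fin N → ℝ) ψ).continuous
          exact continuous_const.add this
        have h3 := image_closure_subset_closure_image c (mem_image_of_mem _ (h2 0))
        simp only [ContinuousLinearMap.smulRight_zero, add_zero] at h3
        refine closure_mono ?_ h3
        rintro _ ⟨y, hy, rfl⟩ z hz h0
        refine hy ⟨(Λ z, ψ z), ⟨z, hz, rfl⟩, ?_⟩
        have hne : ψ z ≠ 0 := ne_of_gt (lt_of_lt_of_le (by positivity) hz.2)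
        have h4 : Λ z = -(ψ z • y) := by
          rw [eq_neg_iff_add_eq_zero]; simpa using h0
        simp only [φ, h4, smul_neg, neg_neg, smul_smul, inv_mul_cancel₀ hne, one_smul]
  choose U hU1 hU2 hU3 using key
  obtain ⟨Λ, hΛ⟩ := (dense_iInter_of_isOpen hU1 hU2).nonempty
  refine ⟨Λ, fun z hz h0 => ?_⟩
  by_contra hne
  obtain ⟨m, hm⟩ := exists_nat_one_div_lt (norm_pos_iff.2 hne)
  exact hU3 m Λ (mem_iInter.1 hΛ m) z ⟨hz, hm.le⟩ h0

theorem mane_cover [CompleteSpace B] {ι κ : Type*} [Fintype κ] (f : ι → B) {C : ℝ} (hC : 0 < C)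
    (h : ∀ k : ℕ, ∃ c : ι → (Fin k → κ), ∀ a b, c a = c b → ‖f a - f b‖ ≤ C / 2 ^ k) :
    ∃ (N : ℕ) (Λ : B →L[ℝ] (Fin N → ℝ)), ∀ a, Λ (f a) = 0 → f a = 0 := by
  classical
  borelize B
  choose c hc using h
  let S : (k : ℕ) → (Fin k → κ) → Set B := fun k i => closure (f '' {a | c k a = i})
  have hcov : ∀ k, closure (range f) ⊆ ⋃ i, S k i := fun k => by
    refine closure_minimal ?_ (isClosed_iUnion_of_finite fun i => isClosed_closure)
    rintro _ ⟨a, rfl⟩
    exact mem_iUnion.2 ⟨c k a, subset_closure ⟨a, rfl, rfl⟩⟩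
  have hdiam : ∀ k i, Metric.ediam (S k i) ≤ ENNReal.ofReal (C / 2 ^ k) := fun k i => by
    simp only [S]
    rw [Metric.ediam_closure]
    refine Metric.ediam_le ?_
    rintro _ ⟨a, ha, rfl⟩ _ ⟨b, hb, rfl⟩
    rw [edist_dist, dist_eq_norm]
    exact ENNReal.ofReal_le_ofReal (hc k a b (ha.trans hb.symm))
  have hlim : Tendsto (fun k : ℕ => C / 2 ^ k) atTop (𝓝 0) :=
    tendsto_const_nhds.div_atTop (tendsto_pow_atTop_atTop_of_one_lt one_lt_two)
  have hZ : IsCompact (closure (range f)) := by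
    refine TotallyBounded.isCompact_of_isClosed (TotallyBounded.closure ?_) isClosed_closure
    refine Metric.totallyBounded_iff.2 fun ε hε => ?_
    obtain ⟨k, hk⟩ := (hlim.eventually (gt_mem_nhds hε)).exists
    refine ⟨range fun i : {i // ∃ a, c k a = i} => f i.2.choose, finite_range _, ?_⟩
    rintro _ ⟨a, rfl⟩
    have ha : ∃ b, c k b = c k a := ⟨a, rfl⟩
    refine mem_biUnion (mem_range_self ⟨c k a, ha⟩) ?_
    rw [Metric.mem_ball, dist_eq_norm]
    exact (hc k a _ ha.choose_spec.symm).trans_lt hk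
  obtain ⟨d, hd⟩ := pow_unbounded_of_one_lt (Fintype.card κ : ℝ) one_lt_two
  have hH : μH[((d : ℝ≥0) : ℝ)] (closure (range f)) ≠ ∞ := by
    refine ne_top_of_le_ne_top (b := ENNReal.ofReal (C ^ d)) ENNReal.ofReal_ne_top ?_
    refine (Measure.hausdorffMeasure_le_liminf_sum _ _ (l := atTop)
      (fun k => ENNReal.ofReal (C / 2 ^ k)) (by simpa using ENNReal.tendsto_ofReal hlim) S
      (Eventually.of_forall hdiam) (Eventually.of_forall hcov)).trans ?_
    refine liminf_le_of_frequently_le' (Frequently.of_forall fun k => ?_)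
    calc ∑ i, Metric.ediam (S k i) ^ ((d : ℝ≥0) : ℝ)
        ≤ ∑ _i : Fin k → κ, ENNReal.ofReal ((C / 2 ^ k) ^ d) := by
          refine Finset.sum_le_sum fun i _ => ?_
          rw [ENNReal.ofReal_pow (by positivity), NNReal.coe_natCast, ENNReal.rpow_natCast]
          exact pow_le_pow_left' (hdiam k i) d
      _ = ENNReal.ofReal ((Fintype.card κ : ℝ) ^ k * (C / 2 ^ k) ^ d) := by
          rw [Finset.sum_const, Finset.card_univ, Fintype.card_fun, Fintype.card_fin,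
            nsmul_eq_mul, ENNReal.ofReal_mul (by positivity), ← Nat.cast_pow,
            ENNReal.ofReal_natCast]
      _ ≤ ENNReal.ofReal (C ^ d) := by
          refine ENNReal.ofReal_le_ofReal ?_
          have : (Fintype.card κ : ℝ) ^ k ≤ (2 ^ k) ^ d := by
            rw [← pow_mul, mul_comm, pow_mul]
            exact pow_le_pow_left₀ (by positivity) hd.le k
          rw [div_pow, mul_div_assoc', div_le_iff₀ (by positivity)]
          nlinarith [pow_pos hC d]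
  have hdim : dimH (closure (range f)) < ((d + 1 : ℕ) : ℝ≥0∞) := by
    refine (dimH_le_of_hausdorffMeasure_ne_top hH).trans_lt ?_
    exact_mod_cast Nat.lt_succ_self d
  obtain ⟨Λ, hΛ⟩ := mane hZ hdim
  exact ⟨d + 1, Λ, fun a => hΛ _ (subset_closure ⟨a, rfl⟩)⟩

theorem grid_color (K : ℕ) (R : ℝ) (hR : 0 ≤ R) : ∃ col : ℝ → Fin (K + 2), ∀ x y, |x| ≤ R →
    |y| ≤ R → col x = col y → (K + 1) * |x - y| ≤ 2 * R := by
  rcases hR.eq_or_lt with h | h
  · refine ⟨fun _ => 0, fun x y hx hy _ => ?_⟩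
    rw [← h] at hx hy ⊢
    rw [abs_nonpos_iff.1 hx, abs_nonpos_iff.1 hy]; simp
  refine ⟨fun x => ⟨min ⌊(x + R) / (2 * R) * (K + 1)⌋₊ (K + 1), by omega⟩,
    fun x y hx hy hxy => ?_⟩
  have b : ∀ x, |x| ≤ R → 0 ≤ (x + R) / (2 * R) * (K + 1) ∧
      ⌊(x + R) / (2 * R) * (K + 1)⌋₊ ≤ K + 1 := fun x hx => by
    have h1 : 0 ≤ (x + R) / (2 * R) := div_nonneg (by linarith [(abs_le.1 hx).1]) (by positivity)
    have h2 : (x + R) / (2 * R) ≤ 1 := (div_le_one (by positivity)).2 (by linarith [(abs_le.1 hx).2])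
    refine ⟨by positivity, Nat.floor_le_of_le ?_⟩
    push_cast
    nlinarith [(by positivity : (0 : ℝ) ≤ K + 1)]
  have e := Fin.mk.inj hxy
  rw [min_eq_left (b x hx).2, min_eq_left (b y hy).2] at e
  have a1 := Nat.floor_le (b x hx).1
  have a2 := Nat.lt_floor_add_one ((x + R) / (2 * R) * (K + 1))
  have a3 := Nat.floor_le (b y hy).1
  have a4 := Nat.lt_floor_add_one ((y + R) / (2 * R) * (K + 1))
  rw [e] at a1 a2
  have : |(x + R) / (2 * R) * (K + 1) - (y + R) / (2 * R) * (K + 1)| ≤ 1 :=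
    abs_le.2 ⟨by linarith, by linarith⟩
  have e2 : (x + R) / (2 * R) * (K + 1) - (y + R) / (2 * R) * (K + 1)
      = (K + 1) * (x - y) / (2 * R) := by ring
  rw [e2, abs_div, abs_mul, abs_of_pos (by positivity : (0 : ℝ) < 2 * R),
    abs_of_pos (by positivity : (0 : ℝ) < K + 1), div_le_one (by positivity)] at this
  exact this

theorem cover_iter {ι α : Type*} [Fintype α] (sh : ι → ι) (D : ι → ι → ℝ) (l : ι → α → ℝ)
    {D₀ A Bc : ℝ} (hD₀ : 0 ≤ D₀) (hA : 0 ≤ A) (hB : 0 ≤ Bc) (h1 : ∀ a b, D a b ≤ D₀)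
    (h2 : ∀ a b, D a b ≤ 1 / 4 * D (sh a) (sh b) + A * ∑ i, (l a i - l b i) ^ 2)
    (h3 : ∀ a b i, (l a i - l b i) ^ 2 ≤ Bc * D (sh a) (sh b)) :
    ∃ K : ℕ, ∀ n : ℕ, ∃ c : ι → (Fin n → (α → Fin K)), ∀ a b, c a = c b → D a b ≤ D₀ / 2 ^ n := by
  classical
  obtain ⟨K, hK⟩ := exists_nat_ge (16 * A * Fintype.card α * Bc)
  refine ⟨K + 2, fun n => ?_⟩
  induction n with
  | zero => exact ⟨fun _ => Fin.elim0, fun a b _ => by simpa using h1 a b⟩
  | succ n ih =>
    obtain ⟨c, hc⟩ := ih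
    obtain ⟨col, hcol⟩ := grid_color K (Real.sqrt (Bc * (D₀ / 2 ^ n))) (Real.sqrt_nonneg _)
    let rep : ι → ι := fun a => (⟨a, rfl⟩ : ∃ b, c (sh b) = c (sh a)).choose
    have hrep : ∀ a, c (sh (rep a)) = c (sh a) := fun a =>
      (⟨a, rfl⟩ : ∃ b, c (sh b) = c (sh a)).choose_spec
    have hrep2 : ∀ a b, c (sh a) = c (sh b) → rep a = rep b := fun a b h => by
      simp only [rep, h]
    refine ⟨fun a => Fin.cons (fun i => col (l a i - l (rep a) i)) (c (sh a)), fun a b hab => ?_⟩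
    obtain ⟨e1, e2⟩ := Fin.cons_injective2 hab
    have bd : ∀ a i, |l a i - l (rep a) i| ≤ Real.sqrt (Bc * (D₀ / 2 ^ n)) := fun a i =>
      Real.abs_le_sqrt ((h3 a _ i).trans
        (mul_le_mul_of_nonneg_left (hc _ _ (hrep a).symm) hB))
    have hs : ∀ i, ((K : ℝ) + 1) ^ 2 * (l a i - l b i) ^ 2 ≤ 4 * (Bc * (D₀ / 2 ^ n)) := by
      intro i
      have := hcol _ _ (bd a i) (bd b i) (congrFun e1 i)
      rw [hrep2 a b e2, sub_sub_sub_cancel_right] at this
      have h4 := pow_le_pow_left₀ (by positivity) this 2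
      rw [mul_pow, mul_pow, sq_abs, Real.sq_sqrt (by positivity)] at h4
      linarith
    have hsum : ((K : ℝ) + 1) ^ 2 * ∑ i, (l a i - l b i) ^ 2
        ≤ Fintype.card α * (4 * (Bc * (D₀ / 2 ^ n))) := by
      rw [Finset.mul_sum]
      refine (Finset.sum_le_sum fun i _ => hs i).trans ?_
      rw [Finset.sum_const, Finset.card_univ, nsmul_eq_mul]
    have hS : 0 ≤ ∑ i, (l a i - l b i) ^ 2 := Finset.sum_nonneg fun i _ => sq_nonneg _
    have hP : 0 ≤ D₀ / 2 ^ n := by positivity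
    have hK1 : (K : ℝ) + 1 ≤ ((K : ℝ) + 1) ^ 2 := by nlinarith [(by positivity : (0 : ℝ) ≤ K)]
    have h5 : A * ∑ i, (l a i - l b i) ^ 2 ≤ 1 / 4 * (D₀ / 2 ^ n) := by
      have hKp : (0 : ℝ) < (K + 1) ^ 2 := by positivity
      refine le_of_mul_le_mul_left ?_ hKp
      have u1 := mul_le_mul_of_nonneg_left hsum hA
      have u2 := mul_le_mul_of_nonneg_right (hK.trans (by linarith : (K : ℝ) ≤ (K + 1) ^ 2)) hP
      nlinarith
    have := h2 a b
    have := hc _ _ e2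
    rw [pow_succ, ← div_div]
    linarith

end Pool.Agent.MP_ed9623_an.H64
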