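import Pool.Agent.MP_ed9623_an.H64.Sob

open Filter Topology MeasureTheory Set
open scoped ContDiff

namespace Pool.Agent.MP_ed9623_an.H64

section
variable {E : Type*} [NormedAddCommGroup E] [NormedSpace ℝ E]

theorem hadamard {Φ : E × ℝ → ℝ} (hΦ : ContDiff ℝ ∞ Φ) :
    ∃ r : E × ℝ → ℝ, ContDiff ℝ ∞ r ∧ (∀ z, r (z, 0) = pd (0, 1) Φ (z, 0)) ∧
      ∀ z s, Φ (z, s) = Φ (z, 0) + s * r (z, s) := by
  have h1 := sm_pd hΦ ((0, 1) : E × ℝ)
  have hK : ContDiff ℝ ∞ fun q : (E × ℝ) × ℝ => pd (0, 1) Φ (q.1.1, q.2 * q.1.2) := by fun_prop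
  refine ⟨fun p => ∫ τ in (0 : ℝ)..1, pd (0, 1) Φ (p.1, τ * p.2),
    contDiff_infty.2 fun n => contDiff_param_integral (contDiff_infty.1 hK n), fun z => by simp,
    fun z s => ?_⟩
  have d : ∀ τ ∈ uIcc (0 : ℝ) 1, HasDerivAt (fun τ : ℝ => Φ (z, τ * s))
      (s * pd (0, 1) Φ (z, τ * s)) τ := fun τ _ => by
    have a := (cdg_diff (contDiff_infty.1 hΦ 1) le_rfl (z, τ * s)).hasFDerivAt.comp_hasDerivAt τ
      ((hasDerivAt_const τ z).prodMk ((hasDerivAt_id' τ).mul_const s))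
    refine a.congr_deriv ?_
    rw [pd, ← smul_eq_mul s, ← map_smul]
    simp
  have c : Continuous fun τ : ℝ => s * pd (0, 1) Φ (z, τ * s) := by
    have := h1.continuous
    fun_prop
  have := intervalIntegral.integral_eq_sub_of_hasDerivAt d (c.intervalIntegrable 0 1)
  rw [intervalIntegral.integral_const_mul] at this
  simp only [one_mul, zero_mul] at this
  linarith

theorem taylor_had (n : ℕ) : ∀ Φ : E × ℝ → ℝ, ContDiff ℝ ∞ Φ → ∃ (b : ℕ → E → ℝ) (r : E × ℝ → ℝ),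
    ContDiff ℝ ∞ r ∧ ∀ z s, Φ (z, s)
      = Φ (z, 0) + ∑ j ∈ Finset.range n, s ^ (j + 1) * b j z + s ^ (n + 1) * r (z, s) := by
  induction n with
  | zero =>
    intro Φ hΦ
    obtain ⟨r, h1, -, h2⟩ := hadamard hΦ
    exact ⟨0, r, h1, fun z s => by simpa using h2 z s⟩
  | succ n ih =>
    intro Φ hΦ
    obtain ⟨r0, h1, -, h2⟩ := hadamard hΦ
    obtain ⟨b, r, h3, h4⟩ := ih r0 h1
    refine ⟨fun j => Nat.casesOn j (fun z => r0 (z, 0)) b, r, h3, fun z s => ?_⟩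
    rw [h2, h4, Finset.sum_range_succ', mul_add, mul_add, Finset.mul_sum]
    simp only [← mul_assoc, ← pow_succ', Nat.rec_zero]
    ring

theorem weights (n : ℕ) : ∃ c : ℕ → ℝ, ∑ i ∈ Finset.range (n + 1), c i = 1 ∧
    ∀ j < n, ∑ i ∈ Finset.range (n + 1), c i * ((i : ℝ) + 2) ^ (j + 1) = 0 := by
  have inj : InjOn (fun i : ℕ => (i : ℝ) + 2) (Finset.range (n + 1)) := fun a _ b _ h => by
    simpa using h
  have key : ∀ j ≤ n, ∑ i ∈ Finset.range (n + 1), Polynomial.eval 0 (Lagrange.basis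
      (Finset.range (n + 1)) (fun i : ℕ => (i : ℝ) + 2) i) * ((i : ℝ) + 2) ^ j = 0 ^ j := by
    intro j hj
    have := congrArg (Polynomial.eval 0) (Lagrange.eq_interpolate (f := Polynomial.X ^ j) inj
      (by rw [Polynomial.degree_X_pow, Finset.card_range]; exact_mod_cast Nat.lt_succ_of_le hj))
    rw [Lagrange.interpolate_apply, Polynomial.eval_finset_sum] at this
    simp only [Polynomial.eval_pow, Polynomial.eval_X, Polynomial.eval_mul, Polynomial.eval_C]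
      at this
    rw [this]
    exact Finset.sum_congr rfl fun i _ => mul_comm _ _
  exact ⟨_, by simpa using key 0 (Nat.zero_le _), fun j hj => by simpa using key (j + 1) hj⟩

theorem pos_pow (k : ℕ) : ∃ P : ℝ → ℝ, ContDiff ℝ k P ∧ (∀ t ≤ 0, P t = 0) ∧
    ∀ t, 0 < t → P t = t ^ (2 * k + 1) := by
  refine ⟨fun t => (t ^ ((k : ℝ) + 1 / 2)) ^ 2,
    (Real.contDiff_rpow_const_of_le (by norm_num)).pow 2, fun t ht => ?_, fun t ht => ?_⟩
  · rcases ht.eq_or_lt with rfl | ht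
    · simp only [Real.zero_rpow (show (k : ℝ) + 1 / 2 ≠ 0 by positivity)]; norm_num
    · have : Real.cos (((k : ℝ) + 1 / 2) * Real.pi) = 0 :=
        Real.cos_eq_zero_iff.2 ⟨k, by push_cast; ring⟩
      simp only [Real.rpow_def_of_neg ht, this]; norm_num
  · beta_reduce
    rw [← Real.rpow_natCast, ← Real.rpow_mul ht.le, ← Real.rpow_natCast]
    congr 1
    push_cast
    ring

theorem glue (k : ℕ) : ∃ c : ℕ → ℝ, ∀ (Φ : E × ℝ → ℝ) (σ : E → ℝ), ContDiff ℝ ∞ Φ →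
    ContDiff ℝ ∞ σ → ContDiff ℝ k fun z => if σ z ≤ 0 then Φ (z, 0) else
      ∑ i ∈ Finset.range (2 * k + 1), c i * Φ (z, ((i : ℝ) + 2) * σ z) := by
  obtain ⟨c, c1, c2⟩ := weights (2 * k)
  obtain ⟨P, p1, p2, p3⟩ := pos_pow k
  refine ⟨c, fun Φ σ hΦ hσ => ?_⟩
  obtain ⟨b, r, hr, H⟩ := taylor_had (2 * k) Φ hΦ
  have a1 := contDiff_infty.1 hΦ k
  have a2 := contDiff_infty.1 hσ k
  have a3 := contDiff_infty.1 hr k
  have : ContDiff ℝ k fun z => Φ (z, 0) + P (σ z) * ∑ i ∈ Finset.range (2 * k + 1),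
      c i * ((i : ℝ) + 2) ^ (2 * k + 1) * r (z, ((i : ℝ) + 2) * σ z) := by fun_prop
  convert this using 2 with z
  split_ifs with h
  · rw [p2 _ h, zero_mul, add_zero]
  · have e : ∑ i ∈ Finset.range (2 * k + 1), c i * ∑ j ∈ Finset.range (2 * k),
        (((i : ℝ) + 2) * σ z) ^ (j + 1) * b j z = 0 := by
      simp only [Finset.mul_sum]
      rw [Finset.sum_comm]
      refine Finset.sum_eq_zero fun j hj => ?_
      have := congrArg (· * (σ z ^ (j + 1) * b j z)) (c2 j (Finset.mem_range.1 hj))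
      simp only [Finset.sum_mul, zero_mul] at this
      rw [← this]
      exact Finset.sum_congr rfl fun i _ => by rw [mul_pow]; ring
    rw [p3 _ (not_le.1 h), Finset.sum_congr rfl fun i _ => by rw [H]]
    simp only [mul_add, Finset.sum_add_distrib, e, ← Finset.sum_mul, c1]
    rw [one_mul, add_zero, Finset.mul_sum]
    congr 1
    exact Finset.sum_congr rfl fun i _ => by rw [mul_pow]; ring

theorem bdd_on {G : Type*} [NormedAddCommGroup G] [NormedSpace ℝ G] {K : Set E}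
    (hK : IsCompact K) {g : E → G} (hg : ContDiff ℝ ∞ g) (k : ℕ) :
    ∃ D, 1 ≤ D ∧ ∀ j ≤ k, ∀ x ∈ K, ‖iteratedFDeriv ℝ j g x‖ ≤ D := by
  have c : Continuous fun x => ∑ j ∈ Finset.range (k + 1), ‖iteratedFDeriv ℝ j g x‖ :=
    continuous_finset_sum _ fun j _ =>
      (hg.continuous_iteratedFDeriv (by exact_mod_cast le_top)).norm
  obtain ⟨C, hC⟩ := hK.exists_bound_of_continuousOn c.continuousOn
  refine ⟨max C 1, le_max_right _ _, fun j hj x hx => ?_⟩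
  exact ((Finset.single_le_sum (f := fun j => ‖iteratedFDeriv ℝ j g x‖) (fun _ _ => norm_nonneg _)
    (Finset.mem_range.2 (Nat.lt_succ_of_le hj))).trans ((le_abs_self _).trans (hC x hx))).trans
    (le_max_left _ _)

end

variable (Q : Dm)

noncomputable def Dm.nu (x : PP) : PP := Q.Ginv.1 x • ((d1 Q.ρ).1 x, (d2 Q.ρ).1 x)

theorem Dm.nu_sm : ContDiff ℝ ∞ Q.nu := Q.Ginv.sm.smul ((d1 Q.ρ).sm.prodMk (d2 Q.ρ).sm)

theorem Dm.refl_in {x₀ : PP} (h0 : Q.ρ.1 x₀ ≤ 0) (i : ℕ) :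
    ∀ᶠ x in 𝓝 x₀, 0 < Q.ρ.1 x → Q.ρ.1 (x - (((i : ℝ) + 2) * Q.ρ.1 x) • Q.nu x) < 0 := by
  rcases h0.eq_or_lt with h0 | h0
  swap
  · filter_upwards [Q.dom.isOpen.mem_nhds h0] with x hx h using absurd hx (not_lt.2 h.le)
  have n := Q.nu_sm
  have r0 := Q.ρ.sm
  have hΦ : ContDiff ℝ ∞ fun q : PP × ℝ => Q.ρ.1 (q.1 - q.2 • Q.nu q.1) := by fun_prop
  obtain ⟨r, h1, h2, h3⟩ := hadamard hΦ
  have e : r (x₀, 0) = -1 := by
    rw [h2]
    have a : HasDerivAt (fun s : ℝ => Q.ρ.1 (x₀ - s • Q.nu x₀))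
        (fderiv ℝ Q.ρ.1 x₀ (-Q.nu x₀)) 0 := by
      refine HasFDerivAt.comp_hasDerivAt_of_eq (0 : ℝ)
        (cdg_diff (Q.ρ.cd 1) le_rfl x₀).hasFDerivAt ?_ (by simp)
      simpa using ((hasDerivAt_id' (0 : ℝ)).smul_const (Q.nu x₀)).const_sub x₀
    have b := (cdg_diff (contDiff_infty.1 hΦ 1) le_rfl (x₀, 0)).hasFDerivAt.comp_hasDerivAt (0 : ℝ)
      ((hasDerivAt_const (0 : ℝ) x₀).prodMk (hasDerivAt_id' (0 : ℝ)))
    have g : Q.Ginv.1 x₀ * ((d1 Q.ρ).1 x₀ * (d1 Q.ρ).1 x₀ + (d2 Q.ρ).1 x₀ * (d2 Q.ρ).1 x₀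
        + Q.ρ.1 x₀ * Q.ρ.1 x₀) = 1 := congrFun (congrArg Subtype.val (Dm.Ginv_mul (Q := Q))) x₀
    have v : Q.nu x₀ = (Q.Ginv.1 x₀ * (d1 Q.ρ).1 x₀) • ((1, 0) : PP)
        + (Q.Ginv.1 x₀ * (d2 Q.ρ).1 x₀) • ((0, 1) : PP) := by simp [Dm.nu]
    refine (b.unique a).trans ?_
    rw [map_neg, v, map_add, map_smul, map_smul]
    change -(_ * (d1 Q.ρ).1 x₀ + _ * (d2 Q.ρ).1 x₀) = _
    rw [h0] at g
    linarith
  have c : Continuous fun x => 1 + ((i : ℝ) + 2) * r (x, ((i : ℝ) + 2) * Q.ρ.1 x) := by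
    have := h1.continuous
    have := Q.ρ.ct
    fun_prop
  filter_upwards [c.continuousAt.eventually_lt (continuousAt_const (y := (0 : ℝ))) (x₀ := x₀) (by
    rw [h0, mul_zero, e]; linarith [(i.cast_nonneg : (0 : ℝ) ≤ i)])] with x hx h
  have := h3 x (((i : ℝ) + 2) * Q.ρ.1 x)
  simp only [zero_smul, sub_zero] at this
  rw [this]
  nlinarith

theorem Dm.cutoff (n : ℕ) : ∃ χ : PP → ℝ, ContDiff ℝ ∞ χ ∧ HasCompactSupport χ ∧
    (∀ x, Q.ρ.1 x < 0 → χ x = 1) ∧ ∀ x ∈ tsupport χ, ∀ i ∈ Finset.range n, 0 < Q.ρ.1 x →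
      Q.ρ.1 (x - (((i : ℝ) + 2) * Q.ρ.1 x) • Q.nu x) < 0 := by
  have hW : interior {x | ∀ i ∈ Finset.range n, 0 < Q.ρ.1 x →
      Q.ρ.1 (x - (((i : ℝ) + 2) * Q.ρ.1 x) • Q.nu x) < 0} ∈ 𝓝ˢ (closure {x | Q.ρ.1 x < 0}) :=
    isOpen_interior.mem_nhdsSet.2 fun x hx => mem_interior_iff_mem_nhds.2
      ((Finset.eventually_all _).2 fun i _ => Q.refl_in
        (closure_lt_subset_le Q.ρ.ct continuous_const hx) i)
  obtain ⟨K, k1, k2, k3⟩ := exists_compact_between Q.dom.compact isOpen_interior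
    (subset_of_mem_nhdsSet hW)
  obtain ⟨χ, c1, c2, -⟩ := exists_contMDiffMap_zero_one_of_isClosed (n := ⊤)
    (modelWithCornersSelf ℝ PP)
    isOpen_interior.isClosed_compl Q.dom.compact.isClosed (disjoint_compl_left_iff_subset.2 k2)
  have s : tsupport χ ⊆ K := closure_minimal (fun x hx => by
    by_contra h
    exact hx (c1 fun h' => h (interior_subset h'))) k1.isClosed
  exact ⟨χ, χ.contMDiff.contDiff, k1.of_isClosed_subset (isClosed_tsupport _) s,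
    fun x hx => c2 (subset_closure hx), fun x hx => interior_subset (k3 (s hx))⟩

theorem Dm.extend (k : ℕ) : ∃ (C : ℝ) (X : (ST → ℝ) → ST → ℝ), 0 ≤ C ∧
    (∀ f t z, X (fun z => f (z + (t, 0))) z = X f (z + (t, 0))) ∧ ∀ f, ContDiff ℝ ∞ f →
      ContDiff ℝ k (X f) ∧ (∀ z : ST, Q.ρ.1 z.2 < 0 → f z = X f z) ∧ ∀ M,
        (∀ j ≤ k, ∀ x, Q.ρ.1 x < 0 → ‖iteratedFDeriv ℝ j f (0, x)‖ ≤ M) → 0 ≤ M →
          ∀ x, ∀ j ≤ k, ‖iteratedFDeriv ℝ j (X f) (0, x)‖ ≤ C * M := by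
  obtain ⟨c, hc⟩ := glue (E := ST) k
  obtain ⟨χ, χ1, χ2, χ3, χ4⟩ := Q.cutoff (2 * k + 1)
  have n := Q.nu_sm
  have r0 := Q.ρ.sm
  let R : ℕ → ST → ST := fun i z => (z.1, z.2 - (((i : ℝ) + 2) * Q.ρ.1 z.2) • Q.nu z.2)
  have hR : ∀ i, ContDiff ℝ ∞ (R i) := fun i => by simp only [R]; fun_prop
  have hK : IsCompact (({0} : Set ℝ) ×ˢ tsupport χ) := isCompact_singleton.prod χ2
  choose D d1 hD using fun i => bdd_on hK (hR i) k
  have χ5 : ContDiff ℝ ∞ fun z : ST => χ z.2 := χ1.comp contDiff_snd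
  obtain ⟨B, b1, hB⟩ := bdd_on hK χ5 k
  let G : (ST → ℝ) → ST → ℝ := fun f z => if Q.ρ.1 z.2 ≤ 0 then f z else
    ∑ i ∈ Finset.range (2 * k + 1), c i * f (R i z)
  obtain ⟨A, hA⟩ : ∃ A, A = 1 + ∑ i ∈ Finset.range (2 * k + 1), |c i| * (k.factorial * D i ^ k) :=
    ⟨_, rfl⟩
  have d0 : ∀ i, 0 ≤ D i := fun i => zero_le_one.trans (d1 i)
  have s0 : 0 ≤ ∑ i ∈ Finset.range (2 * k + 1), |c i| * (k.factorial * D i ^ k) :=
    Finset.sum_nonneg fun i _ => by have := d0 i; positivity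
  refine ⟨2 ^ k * B * A, fun f z => χ z.2 * G f z, by rw [hA]; positivity, fun f t z => by
    simp [G, R], fun f hf => ?_⟩
  have hG : ContDiff ℝ k (G f) := by
    have := hc (fun q => f (q.1.1, q.1.2 - q.2 • Q.nu q.1.2)) (fun z => Q.ρ.1 z.2) (by fun_prop)
      (by fun_prop)
    simpa only [zero_smul, sub_zero] using this
  refine ⟨(contDiff_infty.1 χ5 k).mul hG, fun z hz => by simp [G, χ3 _ hz, hz.le],
    fun M hM m0 x j hj => ?_⟩
  have cr : Continuous fun z : ST => Q.ρ.1 z.2 := Q.ρ.ct.comp continuous_snd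
  have neg : ∀ j ≤ k, ∀ x, Q.ρ.1 x < 0 → ‖iteratedFDeriv ℝ j (G f) (0, x)‖ ≤ M := by
    intro j hj x hx
    have : G f =ᶠ[𝓝 (0, x)] f := by
      filter_upwards [(isOpen_lt cr continuous_const).mem_nhds (show Q.ρ.1 ((0, x) : ST).2 < 0
        from hx)] with z hz using if_pos (le_of_lt hz)
    rw [(this.iteratedFDeriv ℝ j).eq_of_nhds]
    exact hM j hj x hx
  have gb : ∀ j ≤ k, ∀ x ∈ tsupport χ, ‖iteratedFDeriv ℝ j (G f) (0, x)‖ ≤ A * M := by
    intro j hj x hx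
    rcases lt_trichotomy (Q.ρ.1 x) 0 with h | h | h
    · exact (neg j hj x h).trans (by nlinarith)
    · have c0 : Continuous fun x : PP => ‖iteratedFDeriv ℝ j (G f) (0, x)‖ :=
        ((hG.continuous_iteratedFDeriv (by exact_mod_cast hj)).comp (by fun_prop)).norm
      exact le_trans (b := M) (closure_minimal (fun y hy => neg j hj y hy)
        (isClosed_le c0 continuous_const) (mem_closure_neg h (Q.reg x h))) (by nlinarith)
    · have : G f =ᶠ[𝓝 (0, x)] fun z => ∑ i ∈ Finset.range (2 * k + 1), c i • (f ∘ R i) z := by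
        filter_upwards [(isOpen_lt continuous_const cr).mem_nhds (show 0 < Q.ρ.1 ((0, x) : ST).2
          from h)] with z hz using if_neg (not_le.2 hz)
      have cf : ∀ i, ContDiff ℝ j (f ∘ R i) := fun i => contDiff_infty.1 (hf.comp (hR i)) j
      rw [(this.iteratedFDeriv ℝ j).eq_of_nhds, iteratedFDeriv_sum fun i _ =>
        (cf i).const_smul (c i), Finset.sum_apply]
      refine (norm_sum_le_of_le _ (n := fun i => |c i| * (k.factorial * D i ^ k) * M)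
        fun i hi => ?_).trans (by rw [← Finset.sum_mul]; nlinarith)
      rw [iteratedFDeriv_const_smul_apply' (cf i).contDiffAt, norm_smul, Real.norm_eq_abs,
        mul_assoc]
      refine mul_le_mul_of_nonneg_left ((norm_iteratedFDeriv_comp_le hf (hR i)
        (by exact_mod_cast le_top) _ (C := M) (D := D i)
        (fun l hl => hM l (hl.trans hj) _ (χ4 x hx i hi h)) fun l l1 hl =>
          (hD i l (hl.trans hj) (0, x) ⟨rfl, hx⟩).trans (le_self_pow₀ (d1 i) (by omega))).trans ?_)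
        (abs_nonneg _)
      rw [mul_right_comm]
      refine mul_le_mul_of_nonneg_right (mul_le_mul (by exact_mod_cast Nat.factorial_le hj)
        (pow_le_pow_right₀ (d1 i) hj) (pow_nonneg (d0 i) _) (Nat.cast_nonneg _)) m0
  by_cases hx : x ∈ tsupport χ
  · refine (norm_iteratedFDeriv_mul_le (contDiff_infty.1 χ5 k) hG _ (by exact_mod_cast hj)).trans
      ((Finset.sum_le_sum (g := fun i => (j.choose i : ℝ) * (B * A * M)) fun i hi => ?_).trans ?_)
    · have hi' := Nat.lt_succ_iff.1 (Finset.mem_range.1 hi)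
      rw [mul_assoc, mul_assoc]
      exact mul_le_mul_of_nonneg_left (mul_le_mul (hB i (by omega) (0, x) ⟨rfl, hx⟩)
        (gb _ (by omega) x hx) (norm_nonneg _) (by linarith)) (Nat.cast_nonneg _)
    · rw [← Finset.sum_mul, ← Nat.cast_sum, Nat.sum_range_choose, mul_assoc (2 ^ k * B),
        mul_assoc (2 ^ k : ℝ), mul_assoc B]
      refine mul_le_mul_of_nonneg_right ?_ (by rw [hA]; positivity)
      exact_mod_cast Nat.pow_le_pow_right (by norm_num) hj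
  · have : (fun z : ST => χ z.2 * G f z) =ᶠ[𝓝 (0, x)] fun _ => 0 := by
      filter_upwards [continuous_snd.continuousAt.eventually (notMem_tsupport_iff_eventuallyEq.1 hx
        : ∀ᶠ y in 𝓝 ((0, x) : ST).2, χ y = 0)] with z hz
      rw [hz, Pi.zero_apply, zero_mul]
    rw [(this.iteratedFDeriv ℝ j).eq_of_nhds, iteratedFDeriv_fun_zero, Pi.zero_apply, norm_zero, hA]
    positivity

end Pool.Agent.MP_ed9623_an.H64
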