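import Pool.Agent.MP_ed9623_an.H64.Calc

open Filter Topology MeasureTheory Set

namespace Pool.Agent.MP_ed9623_an.H64

variable {E : Type} [NormedAddCommGroup E] [NormedSpace ℝ E] [FiniteDimensional ℝ E]

/-- Locally, eventually along `l`, all derivatives up to order `k` are bounded by `M`. -/
def LB {F : Type} [NormedAddCommGroup F] [NormedSpace ℝ F] (l : Ultrafilter ℕ) (M : ℝ) (k : ℕ)
    (f : ℕ → E → F) : Prop :=
  (∀ n, ContDiff ℝ k (f n)) ∧
    ∀ x, ∀ᶠ n in l, ∀ y ∈ Metric.ball x 1, ∀ j ≤ k, ‖iteratedFDeriv ℝ j (f n) y‖ ≤ M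

noncomputable def ulim {F : Type} [NormedAddCommGroup F] (l : Ultrafilter ℕ) (f : ℕ → E → F) :
    E → F := fun x => limUnder (l : Filter ℕ) fun n => f n x

section
variable {F : Type} [NormedAddCommGroup F] [NormedSpace ℝ F] {l : Ultrafilter ℕ} {M : ℝ}
  {f : ℕ → E → F}

omit [FiniteDimensional ℝ E] in
theorem LB.mono {k m : ℕ} (h : LB l M k f) (hm : m ≤ k) : LB l M m f :=
  ⟨fun n => (h.1 n).of_le (by exact_mod_cast hm),
    fun x => (h.2 x).mono fun _ hn y hy j hj => hn y hy j (hj.trans hm)⟩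

omit [FiniteDimensional ℝ E] in
theorem LB.fderiv {k : ℕ} (h : LB l M (k + 1) f) : LB l M k fun n => fderiv ℝ (f n) :=
  ⟨fun n => (h.1 n).fderiv_right (by push_cast; exact le_rfl),
    fun x => (h.2 x).mono fun _ hn y hy j hj => by
      rw [norm_iteratedFDeriv_fderiv]; exact hn y hy (j + 1) (by omega)⟩

omit [FiniteDimensional ℝ E] in
theorem LB.tendsto [FiniteDimensional ℝ F] {k : ℕ} (h : LB l M k f) (x : E) :
    Tendsto (fun n => f n x) l (𝓝 (ulim l f x)) := by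
  have h1 : ∀ᶠ n in l, f n x ∈ Metric.closedBall (0 : F) M :=
    (h.2 x).mono fun n hn => by
      simpa using hn x (Metric.mem_ball_self one_pos) 0 (Nat.zero_le _)
  obtain ⟨a, -, ha⟩ := (isCompact_closedBall (0 : F) M).ultrafilter_le_nhds
    (l.map fun n => f n x) (le_principal_iff.2 h1)
  exact tendsto_nhds_limUnder ⟨a, ha⟩

omit [FiniteDimensional ℝ E] in
theorem LB.tlu [FiniteDimensional ℝ F] (h : LB l M 1 f) :
    TendstoLocallyUniformly f (ulim l f) l := by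
  refine Metric.tendstoLocallyUniformly_iff.2 fun ε hε x => ?_
  have lip : ∀ᶠ n in l, ∀ y ∈ Metric.ball x 1, ‖f n y - f n x‖ ≤ M * ‖y - x‖ :=
    (h.2 x).mono fun n hn y hy => (convex_ball x 1).norm_image_sub_le_of_norm_fderiv_le
      (fun z _ => (h.1 n).differentiable (by simp) z)
      (fun z hz => by simpa using hn z hz 1 le_rfl) (Metric.mem_ball_self one_pos) hy
  have lip' : ∀ y ∈ Metric.ball x 1, ‖ulim l f y - ulim l f x‖ ≤ M * ‖y - x‖ := fun y hy =>
    le_of_tendsto ((h.tendsto y).sub (h.tendsto x)).norm (lip.mono fun n hn => hn y hy)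
  have c : Tendsto (fun y => M * ‖y - x‖) (𝓝 x) (𝓝 0) := by
    have : Continuous fun y => M * ‖y - x‖ := by fun_prop
    simpa using this.tendsto x
  refine ⟨_, inter_mem (Metric.ball_mem_nhds x one_pos)
    (c.eventually (gt_mem_nhds (by positivity : 0 < ε / 3))), ?_⟩
  filter_upwards [lip, Metric.tendsto_nhds.1 (h.tendsto x) (ε / 3) (by positivity)]
    with n h1 h2 y hy
  have a1 := h1 y hy.1
  have a2 := lip' y hy.1
  have a3 : M * ‖y - x‖ < ε / 3 := hy.2
  rw [← dist_eq_norm] at a1 a2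
  linarith [dist_triangle4 (ulim l f y) (ulim l f x) (f n x) (f n y),
    dist_comm (f n x) (ulim l f x), dist_comm (f n x) (f n y)]

theorem LB.hasFDerivAt [FiniteDimensional ℝ F] (h : LB l M 2 f) (x : E) :
    HasFDerivAt (ulim l f) (ulim l (fun n => _root_.fderiv ℝ (f n)) x) x :=
  hasFDerivAt_of_tendstoLocallyUniformlyOn isOpen_univ
    (tendstoLocallyUniformlyOn_univ.2 h.fderiv.tlu)
    (fun n y _ => ((h.1 n).differentiable (by simp) y).hasFDerivAt)
    (fun y _ => h.tendsto y) (mem_univ x)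

end

theorem LB.contDiff {l : Ultrafilter ℕ} {M : ℝ} (k : ℕ) : ∀ {F : Type} [NormedAddCommGroup F]
    [NormedSpace ℝ F] [FiniteDimensional ℝ F] {f : ℕ → E → F}, LB l M (k + 1) f →
    ContDiff ℝ k (ulim l f) := by
  induction k with
  | zero =>
    intro F _ _ _ f h
    exact contDiff_zero.2 (h.tlu.continuous (Frequently.of_forall fun n => (h.1 n).continuous))
  | succ k ih =>
    intro F _ _ _ f h
    push_cast
    exact contDiff_succ_iff_hasFDerivAt.2 ⟨_, ih h.fderiv, (h.mono (by omega)).hasFDerivAt⟩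

theorem LB.tendsto_pd {l : Ultrafilter ℕ} {M : ℝ} {f : ℕ → E → ℝ} (h : LB l M 2 f) (e x : E) :
    Tendsto (fun n => pd e (f n) x) l (𝓝 (pd e (ulim l f) x)) := by
  unfold pd
  rw [(h.hasFDerivAt x).fderiv]
  exact ((ContinuousLinearMap.apply ℝ ℝ e).continuous.tendsto _).comp (h.fderiv.tendsto x)

omit [FiniteDimensional ℝ E] in
theorem pd_pd_eq {f : E → ℝ} (hf : ContDiff ℝ (2 : ℕ) f) (a b x : E) :
    pd a (pd b f) x = fderiv ℝ (fderiv ℝ f) x a b := by
  have hd : DifferentiableAt ℝ (fderiv ℝ f) x :=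
    (hf.fderiv_right (m := (1 : ℕ)) (by norm_num)).differentiable (by simp) x
  unfold pd
  rw [fderiv_clm_apply hd (differentiableAt_const b)]
  simp

theorem LB.tendsto_pd2 {l : Ultrafilter ℕ} {M : ℝ} {f : ℕ → E → ℝ} (h : LB l M 3 f)
    (a b x : E) :
    Tendsto (fun n => pd a (pd b (f n)) x) l (𝓝 (pd a (pd b (ulim l f)) x)) := by
  have e1 : _root_.fderiv ℝ (ulim l f) = ulim l fun n => _root_.fderiv ℝ (f n) :=
    funext fun y => ((h.mono (by norm_num)).hasFDerivAt y).fderiv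
  rw [pd_pd_eq (LB.contDiff 2 h), e1, (h.fderiv.hasFDerivAt x).fderiv]
  have c : Continuous fun L : E →L[ℝ] E →L[ℝ] ℝ => L a b := by fun_prop
  refine ((c.tendsto _).comp (h.fderiv.fderiv.tendsto x)).congr fun n => ?_
  exact (pd_pd_eq (cdg_le (h.1 n) (by norm_num)) a b x).symm

omit [FiniteDimensional ℝ E] in
theorem abs_pd_le {f : E → ℝ} {x e : E} {M : ℝ} (h : ‖iteratedFDeriv ℝ 1 f x‖ ≤ M)
    (he : ‖e‖ ≤ 1) : |pd e f x| ≤ M := by
  rw [norm_iteratedFDeriv_one] at h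
  have := (fderiv ℝ f x).le_of_opNorm_le_of_le h he
  simpa [pd] using this

omit [FiniteDimensional ℝ E] in
theorem abs_pd2_le {f : E → ℝ} (hf : ContDiff ℝ (2 : ℕ) f) {x e : E} {M : ℝ}
    (h : ‖iteratedFDeriv ℝ 2 f x‖ ≤ M) (he : ‖e‖ ≤ 1) : |pd e (pd e f) x| ≤ M := by
  rw [← norm_iteratedFDeriv_fderiv, norm_iteratedFDeriv_one] at h
  rw [pd_pd_eq hf]
  have h1 := (fderiv ℝ (fderiv ℝ f) x).le_of_opNorm_le_of_le h he
  have := (fderiv ℝ (fderiv ℝ f) x e).le_of_opNorm_le_of_le h1 he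
  simpa using this

end Pool.Agent.MP_ed9623_an.H64
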