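import Pool.Agent.MP_ed9623_an.H64.Time2

open Filter Topology MeasureTheory Set
open scoped ContDiff

namespace Pool.Agent.MP_ed9623_an.H64

variable {Q : Dm} {g1 g2 : SA PP}

section
variable {ι : Type*} {l : Filter ι} {F G : ι → SA PP} {X Y : ι → ℝ} {k : ℕ}

theorem Ctl.mul (f : Ctl Q l (max k 2) F X) (g : Ctl Q l k G Y) :
    Ctl Q l k (fun i => F i * G i) fun i => X i * Y i := by
  obtain ⟨C, c, H⟩ := Dm.S_mul (Q := Q) k
  exact ((Big.mul f g (fun _ => Dm.S_nonneg _ _) fun _ => Dm.S_nonneg _ _).cmul c).le_left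
    (Eventually.of_forall fun i => H _ _)

theorem Ctl.mul3 (f : Ctl Q l 1 F X) (g : Ctl Q l 1 G Y) :
    Ctl Q l 0 (fun i => F i * G i) fun i => X i * Y i := by
  obtain ⟨C, c, H⟩ := Dm.lady3 (Q := Q)
  exact ((Big.mul f g (fun _ => Dm.S_nonneg _ _) fun _ => Dm.S_nonneg _ _).cmul c).le_left
    (Eventually.of_forall fun i => H _ _)

theorem Ctl.evq (h : Ctl Q l k G X) (e : ∀ᶠ i in l, F i = G i) : Ctl Q l k F X :=
  h.congr (e.mono fun i hi => by rw [hi, sub_self]; exact Q.Z.zero_mem)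

theorem Ctl.le (h : Ctl Q l k F X) (e : ∀ i, X i ≤ Y i) : Ctl Q l k F Y :=
  Big.le_right h (Eventually.of_forall e)

theorem Ctl.sup (h : Ctl Q l 2 F fun _ => 1) :
    ∃ M, 0 ≤ M ∧ ∀ᶠ i in l, ∀ x, Q.ρ.1 x < 0 → |(F i).1 x| ≤ M := by
  obtain ⟨C, c, H⟩ := Dm.sup2 (Q := Q)
  obtain ⟨D, d, K⟩ := h
  exact ⟨√(C * (D * 1)), Real.sqrt_nonneg _, K.mono fun i hi x hx => Real.abs_le_sqrt
    ((H _ x hx).trans (mul_le_mul_of_nonneg_left hi c))⟩

end

noncomputable def FF (g : SA PP) (V : ℕ → Sol Q g1 g2 × ℝ → SA PP) (j : ℕ)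
    (i : Sol Q g1 g2 × ℝ) : SA PP := GG g j - V (j + 1) i - NL V j i

theorem ctl_FF {V : ℕ → Sol Q g1 g2 × ℝ → SA PP} {k j : ℕ} {X : Sol Q g1 g2 × ℝ → ℝ} (g : SA PP)
    (hX : ∀ i, 1 ≤ X i) (h0 : Ctl Q (late Q g1 g2) k (V (j + 1)) fun _ => 1)
    (h : ∀ a b, a + b = j → ∀ W, Cmp W → ∀ e : PP, (∀ k f, Q.S k (D e f) ≤ Q.S (k + 1) f) →
      Ctl Q (late Q g1 g2) k (fun i => W a i * D e (V b i)) X) :
    Ctl Q (late Q g1 g2) k (FF g V j) X :=
  ((Ctl.const _ hX).sub (h0.le hX)).sub (Ctl.sum _ fun q hq =>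
    ((h _ _ (Finset.HasAntidiagonal.mem_antidiagonal.1 hq) _ cmp1 _ Dm.S_d1).add
      (h _ _ (Finset.HasAntidiagonal.mem_antidiagonal.1 hq) _ cmp2 _ Dm.S_d2)).fix _)

theorem stokesj (k j : ℕ) {X X' : Sol Q g1 g2 × ℝ → ℝ} (X0 : ∀ i, 0 ≤ X i) (X1 : ∀ i, 0 ≤ X' i)
    (hu : Big (late Q g1 g2) (SS (k + 1) j) X)
    (f : ∀ g V, Cmp V → Ctl Q (late Q g1 g2) k (FF g V j) X)
    (f' : ∀ g V, Cmp V → Ctl Q (late Q g1 g2) (k + 1) (FF g V j) X') :
    Big (late Q g1 g2) (SS (k + 2) j) fun i => X i + √(X i * X' i) := by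
  classical
  have z : Stk Q := ⟨0, 0, 0, 0, 0, zero_mem _, zero_mem _, by simp, by simp [lp2], by simp [lp2]⟩
  obtain ⟨σ, hσ⟩ : ∃ σ : Sol Q g1 g2 × ℝ → Stk Q, ∀ᶠ i in late Q g1 g2, (σ i).u1 = V1 j i ∧
      (σ i).u2 = V2 j i ∧ (σ i).p = PV j i ∧ (σ i).f1 = FF g1 V1 j i ∧ (σ i).f2 = FF g2 V2 j i :=
    ⟨fun i => if h : ∃ s : Stk Q, s.u1 = V1 j i ∧ s.u2 = V2 j i ∧ s.p = PV j i ∧
      s.f1 = FF g1 V1 j i ∧ s.f2 = FF g2 V2 j i then h.choose else z,
      (good j).mono fun i hi => by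
        have hi' : ∃ s : Stk Q, s.u1 = V1 j i ∧ s.u2 = V2 j i ∧ s.p = PV j i ∧
          s.f1 = FF g1 V1 j i ∧ s.f2 = FF g2 V2 j i := hi
        simp only [dif_pos hi']
        exact hi'.choose_spec⟩
  obtain ⟨a, b⟩ := stokes k σ X X' X0 X1 ((f _ _ cmp1).evq (hσ.mono fun _ h => h.2.2.2.1))
    ((f _ _ cmp2).evq (hσ.mono fun _ h => h.2.2.2.2)) ((cmp1.ctl hu).evq (hσ.mono fun _ h => h.1))
    ((cmp2.ctl hu).evq (hσ.mono fun _ h => h.2.1)) ((f' _ _ cmp1).evq (hσ.mono fun _ h => h.2.2.2.1))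
    ((f' _ _ cmp2).evq (hσ.mono fun _ h => h.2.2.2.2))
  exact Big.add (a.evq (hσ.mono fun _ h => h.1.symm)) (b.evq (hσ.mono fun _ h => h.2.1.symm))

theorem Cmp.D {V : ℕ → Sol Q g1 g2 × ℝ → SA PP} (h : Cmp V) {l} {k j : ℕ} {X} {e : PP}
    (he : ∀ k f, Q.S k (D e f) ≤ Q.S (k + 1) f) (hX : Big l (SS (k + 1) j) X) :
    Ctl Q l k (fun i => D e (V j i)) X := (h.ctl hX).le_left (Eventually.of_forall fun _ => he _ _)

theorem bound20 : Big (late Q g1 g2) (SS 2 0) fun _ => 1 := by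
  obtain ⟨C, c, H⟩ := Dm.sup6 (Q := Q)
  obtain ⟨C1, c1, H1⟩ := bound1 (Q := Q) (g1 := g1) (g2 := g2) 0
  have y0 := SS_nonneg (Q := Q) (g1 := g1) (g2 := g2) 2 0
  obtain ⟨m, m0, m3⟩ : ∃ m : Sol Q g1 g2 × ℝ → ℝ, (∀ i, 0 ≤ m i) ∧
      ∀ i, m i ^ 3 = C * C1 ^ 2 * (1 + SS 2 0 i) :=
    ⟨fun i => (C * C1 ^ 2 * (1 + SS 2 0 i)) ^ ((3 : ℕ) : ℝ)⁻¹,
      fun i => by have := y0 i; positivity,
      fun i => Real.rpow_inv_natCast_pow (by have := y0 i; positivity) (by norm_num)⟩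
  have hm : ∀ W, Cmp W → ∀ {G : Sol Q g1 g2 × ℝ → SA PP} {Y}, Ctl Q (late Q g1 g2) 0 G Y →
      Ctl Q (late Q g1 g2) 0 (fun i => W 0 i * G i) fun i => m i * Y i := fun W hW G Y hG => by
    refine (Big.mul Big.refl hG m0 fun _ => Dm.S_nonneg _ _).le_left (H1.mono fun i hi =>
      Dm.S0_mul_le (fun x hx => ?_) _)
    refine le_of_pow_le_pow_left₀ (n := 3) (by norm_num) (m0 i) ((H _ x hx).trans ?_)
    rw [m3, mul_assoc]
    refine mul_le_mul_of_nonneg_left (mul_le_mul (pow_le_pow_left₀ (Dm.S_nonneg _ _)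
      (((hW 1 0 i).trans hi).trans_eq (mul_one _)) 2) ((hW 2 0 i).trans (by linarith))
      (Dm.S_nonneg _ _) (sq_nonneg _)) c
  have b1 := bound1 (Q := Q) (g1 := g1) (g2 := g2)
  have Y1 : Big (late Q g1 g2) (SS 2 0) fun i => 1 + SS 2 0 i := Big.of_le' fun i => by linarith
  have p1 : ∀ i, 1 ≤ (1 + m i) * (1 + SS 2 0 i) := fun i => by nlinarith [m0 i, y0 i]
  have t0 : ∀ V, Cmp V → ∀ W, Cmp W → ∀ e : PP, (∀ k f, Q.S k (D e f) ≤ Q.S (k + 1) f) →
      Ctl Q (late Q g1 g2) 0 (fun i => W 0 i * D e (V 0 i)) fun i => 1 + m i :=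
    fun V hV W hW e he => (hm W hW (hV.D he (b1 0))).le fun i => by linarith
  have s := stokesj 0 0 (X := fun i => 1 + m i) (X' := fun i => (1 + m i) * (1 + SS 2 0 i))
    (fun i => by linarith [m0 i]) (fun i => zero_le_one.trans (p1 i)) ((b1 0).radd m0)
    (fun g V hV => ctl_FF g (fun i => by linarith [m0 i]) (hV.ctl (bound0 1)) fun a b hab => by
      obtain ⟨rfl, rfl⟩ : a = 0 ∧ b = 0 := by omega
      exact t0 V hV)
    fun g V hV => ctl_FF g p1 (hV.ctl (b1 1)) fun a b hab W hW e he => by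
      obtain ⟨rfl, rfl⟩ : a = 0 ∧ b = 0 := by omega
      have k : ∀ e' : PP, (∀ k f, Q.S k (D e' f) ≤ Q.S (k + 1) f) → Ctl Q (late Q g1 g2) 0
          (fun i => D e' (W 0 i * D e (V 0 i))) fun i => (1 + m i) * (1 + SS 2 0 i) := by
        intro e' he'
        refine ((((hW.D he' (b1 0)).prod0 (hW.D he' Y1) (hV.D he (b1 0)) (hV.D he Y1)
          fun i => by linarith [y0 i]).le fun i => by nlinarith [m0 i, y0 i]).add
          ((hm W hW (Big.le_left (hV.D he Y1) (Eventually.of_forall fun i => he' 0 _))).le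
            fun i => by nlinarith [m0 i, y0 i])).eq fun i => D_mul _ _ _
      exact ((t0 V hV W hW e he).le fun i => by nlinarith [m0 i, y0 i]).succ (k _ Dm.S_d1)
        (k _ Dm.S_d2)
  have s2 : Big (late Q g1 g2) (fun i => 1 + SS 2 0 i) fun i => (1 + m i) * (1 + m i) := by
    refine Big.absorb (Big.add ((Big.of_le' fun i => by nlinarith [m0 i]).radd
      fun i => Real.sqrt_nonneg _) (s.le_right (Eventually.of_forall fun i => ?_)))
      (fun i => mul_self_nonneg _) fun i => by linarith [y0 i]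
    rw [mul_assoc]
    nlinarith [m0 i]
  obtain ⟨K, k0, HK⟩ := s2
  refine ⟨32 * K ^ 3 * (1 + (C * C1 ^ 2) ^ 2), by positivity, HK.mono fun i hi => ?_⟩
  have a1 := pow_le_pow_left₀ (by linarith [y0 i]) hi 3
  have a2 := add_pow_le zero_le_one (m0 i) 6
  have a3 : m i ^ 6 = (C * C1 ^ 2) ^ 2 * (1 + SS 2 0 i) ^ 2 := by
    rw [← mul_pow, ← m3]; ring
  have a4 := y0 i
  beta_reduce at a1 ⊢
  generalize SS 2 0 i = y at a1 a3 a4 ⊢
  have a5 : (1 + y) ^ 2 * (1 + y) ≤ (1 + y) ^ 2 * (32 * K ^ 3 * (1 + (C * C1 ^ 2) ^ 2)) := by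
    have := mul_le_mul_of_nonneg_left a2 (pow_nonneg k0 3)
    have b : 0 ≤ K ^ 3 * (y * (2 + y)) := by positivity
    rw [a3] at this
    norm_num at this
    nlinarith
  have := le_of_mul_le_mul_left a5 (by positivity)
  linarith

theorem boot {k j : ℕ} (hu : Big (late Q g1 g2) (SS (k + 1) j) fun _ => 1)
    (f : ∀ g V, Cmp V → Ctl Q (late Q g1 g2) k (FF g V j) fun _ => 1)
    (f' : ∀ g V, Cmp V → Ctl Q (late Q g1 g2) (k + 1) (FF g V j) fun i => 1 + SS (k + 2) j i) :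
    Big (late Q g1 g2) (SS (k + 2) j) fun _ => 1 := by
  have y0 := SS_nonneg (Q := Q) (g1 := g1) (g2 := g2) (k + 2) j
  have s := stokesj k j (fun _ => zero_le_one) (fun i => by linarith [y0 i]) hu f f'
  exact (Big.absorb (Q := fun i => 1 + SS (k + 2) j i) (Big.add (Big.refl.radd
    fun i => Real.sqrt_nonneg _) s) (fun _ => zero_le_one) fun i => by linarith [y0 i]).le_left
    (Eventually.of_forall fun i => by linarith)

theorem bound2 (j : ℕ) : Big (late Q g1 g2) (SS 2 j) fun _ => 1 := by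
  induction j using Nat.strong_induction_on with
  | _ j ih =>
    rcases j.eq_zero_or_pos with rfl | hj
    · exact bound20
    have y0 := SS_nonneg (Q := Q) (g1 := g1) (g2 := g2) 2 j
    have Y1 : Big (late Q g1 g2) (SS 2 j) fun i => 1 + SS 2 j i := Big.of_le' fun i => by linarith
    refine boot (bound1 j) (fun g V hV => ctl_FF g (fun _ => le_rfl) (hV.ctl (bound0 _))
      fun a b hab W hW e he => ?_) fun g V hV => ctl_FF g (fun i => by linarith [y0 i])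
      (hV.ctl (bound1 _)) fun a b hab W hW e he => ?_
    · rcases (show b < j ∨ a < j by omega) with h | h
      · exact ((hW.ctl (bound1 a)).mul3 (hV.D he (ih b h))).le fun _ => by norm_num
      · exact (Ctl.mul (k := 0) (hW.ctl (ih a h)) (hV.D he (bound1 b))).le fun _ => by norm_num
    · rcases (show (a < j ∧ b < j) ∨ (a = j ∧ b < j) ∨ (a < j ∧ b = j) by omega) with
        h | ⟨rfl, h⟩ | ⟨h, rfl⟩
      · exact (Ctl.mul (k := 1) (hW.ctl (ih a h.1)) (hV.D he (ih b h.2))).le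
          fun i => by linarith [y0 i]
      · exact (Ctl.mul (k := 1) (hW.ctl Y1) (hV.D he (ih b h))).le fun i => by linarith
      · exact (Ctl.mul (k := 1) (hW.ctl (ih a h)) (hV.D he Y1)).le fun i => by linarith

theorem bound3 (k : ℕ) : ∀ j, Big (late Q g1 g2) (SS (k + 2) j) fun _ => 1 := by
  induction k with
  | zero => exact bound2
  | succ k ihk =>
    intro j
    induction j using Nat.strong_induction_on with
    | _ j ih =>
      have y0 := SS_nonneg (Q := Q) (g1 := g1) (g2 := g2) (k + 1 + 2) j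
      refine boot (ihk j) (fun g V hV => ctl_FF g (fun _ => le_rfl) (hV.ctl (ihk _)).pred
        fun a b hab W hW e he => ?_) fun g V hV => ctl_FF g (fun i => by linarith [y0 i])
        (hV.ctl (ihk _)) fun a b hab W hW e he => ?_
      · exact (Ctl.mul ((hW.ctl (ihk a)).mono (by omega)) (hV.D he (ihk b))).le
          fun _ => by norm_num
      · have : Big (late Q g1 g2) (SS (k + 1 + 2) b) fun i => 1 + SS (k + 1 + 2) j i := by
          rcases (show b < j ∨ b = j by omega) with h | rfl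
          · exact (ih b h).radd y0
          · exact Big.of_le' fun i => by linarith
        exact (Ctl.mul ((hW.ctl (ihk a)).mono (by omega)) (hV.D he this)).le fun i => by linarith

theorem bound_u {V : ℕ → Sol Q g1 g2 × ℝ → SA PP} (hV : Cmp V) (k j : ℕ) :
    Ctl Q (late Q g1 g2) k (V j) fun _ => 1 := (hV.ctl (bound3 k j)).mono (by omega)

theorem bound_p (hc : IsPreconnected {x | Q.ρ.1 x < 0}) (k j : ℕ) :
    Ctl Q (late Q g1 g2) k (PV j) fun _ => 1 := by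
  have f : ∀ k g V, Cmp V → Ctl Q (late Q g1 g2) k (FF g V j) fun _ => 1 := fun k g V hV =>
    ctl_FF g (fun _ => le_rfl) (bound_u hV _ _) fun a b _ W hW e he =>
      (Ctl.mul (bound_u hW _ a) (hV.D he ((bound3 k b).le_left (Eventually.of_forall fun i =>
        add_le_add (Dm.S_succ _ _) (Dm.S_succ _ _))))).le fun _ => by norm_num
  have p1 : ∀ k, Ctl Q (late Q g1 g2) k (fun i => d1 (PV j i)) fun _ => 1 := fun k =>
    ((bound_u cmp1 _ j).lp2.add (f k g1 _ cmp1)).congr ((good j).mono fun i ⟨s, h⟩ => by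
      have := s.e1
      rw [h.1, h.2.2.1, h.2.2.2.1] at this
      rwa [← sub_sub])
  have p2 : ∀ k, Ctl Q (late Q g1 g2) k (fun i => d2 (PV j i)) fun _ => 1 := fun k =>
    ((bound_u cmp2 _ j).lp2.add (f k g2 _ cmp2)).congr ((good j).mono fun i ⟨s, h⟩ => by
      have := s.e2
      rw [h.2.1, h.2.2.1, h.2.2.2.2] at this
      rwa [← sub_sub])
  induction k with
  | succ k ih => exact ih.succ (p1 k) (p2 k)
  | zero =>
    obtain ⟨C, c, H⟩ := Dm.path hc
    obtain ⟨M1, m1, H1⟩ := (p1 2).sup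
    obtain ⟨M2, m2, H2⟩ := (p2 2).sup
    refine ⟨(C * (M1 + M2)) ^ 2 * Q.S 0 1, mul_nonneg (sq_nonneg _) (Dm.S_nonneg _ _), ?_⟩
    filter_upwards [H1, H2, (ev_late (P := fun i => Q.I (PV j i) = 0)).2 fun s => iter_I s.mean j]
      with i a1 a2 a3
    rw [mul_one, ← mul_one (PV j i)]
    refine Dm.S0_mul_le (fun x hx => sq_le_sq' (neg_le_of_abs_le ?_) (le_of_abs_le ?_)) 1
    all_goals
      have V0 : 0 < volume.real {x | Q.ρ.1 x < 0} :=
        ENNReal.toReal_pos (Q.dom.isOpen.measure_pos volume ⟨x, hx⟩).ne' Q.dom.vol.ne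
      have := norm_setIntegral_le_of_norm_le_const (μ := volume) (s := {x | Q.ρ.1 x < 0})
        (f := fun y => (PV j i).1 x - (PV j i).1 y) (C := C * (M1 + M2)) Q.dom.vol fun y hy =>
          H x y hx hy _ _ fun z hz => add_le_add (a1 z hz) (a2 z hz)
      rw [integral_sub (Q.dom.int continuous_const) (Q.dom.int (PV j i).ct),
        show ∫ y in {x | Q.ρ.1 x < 0}, (PV j i).1 y = 0 from a3, sub_zero, setIntegral_const,
        smul_eq_mul, Real.norm_eq_abs, abs_mul, abs_of_pos V0, mul_comm] at this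
      exact le_of_mul_le_mul_right this V0

theorem reg_bound (n : ℕ) : ∀ F : Sol Q g1 g2 → SA ST, (∀ k j, Ctl Q (late Q g1 g2) k
    (fun i => sl i.2 (dt^[j] (F i.1))) fun _ => 1) → ∃ M, 0 ≤ M ∧ ∀ᶠ i in late Q g1 g2,
      ∀ x, Q.ρ.1 x < 0 → ‖iteratedFDeriv ℝ n (F i.1).1 (i.2, x)‖ ≤ M := by
  induction n with
  | zero =>
    intro F h
    obtain ⟨M, m, H⟩ := (h 2 0).sup
    exact ⟨M, m, H.mono fun i hi x hx => by rw [norm_iteratedFDeriv_zero]; exact hi x hx⟩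
  | succ n ih =>
    intro F h
    obtain ⟨M0, m0, H0⟩ := ih (fun s => dt (F s)) fun k j => h k (j + 1)
    obtain ⟨M1, m1, H1⟩ := ih (fun s => D e1 (F s)) fun k j =>
      (h (k + 1) j).d1.eq fun i => by rw [iter_D, sl_e1]
    obtain ⟨M2, m2, H2⟩ := ih (fun s => D e2 (F s)) fun k j =>
      (h (k + 1) j).d2.eq fun i => by rw [iter_D, sl_e2]
    let L0 := ContinuousLinearMap.toSpanSingleton ℝ (ContinuousLinearMap.fst ℝ ℝ PP)
    let L1 := ContinuousLinearMap.toSpanSingleton ℝ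
      ((ContinuousLinearMap.fst ℝ ℝ ℝ).comp (ContinuousLinearMap.snd ℝ ℝ PP))
    let L2 := ContinuousLinearMap.toSpanSingleton ℝ
      ((ContinuousLinearMap.snd ℝ ℝ ℝ).comp (ContinuousLinearMap.snd ℝ ℝ PP))
    refine ⟨‖L0‖ * M0 + ‖L1‖ * M1 + ‖L2‖ * M2, by positivity, ?_⟩
    filter_upwards [H0, H1, H2] with i a0 a1 a2 x hx
    have e : fderiv ℝ (F i.1).1 = L0 ∘ (dt (F i.1)).1 + L1 ∘ (D e1 (F i.1)).1
        + L2 ∘ (D e2 (F i.1)).1 := by
      funext z
      refine ContinuousLinearMap.ext fun v => ?_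
      have : v = v.1 • e0 + v.2.1 • e1 + v.2.2 • e2 := by ext <;> simp
      conv_lhs => rw [this]
      simp [L0, L1, L2, D_val, pd, mul_comm, -Prod.smul_mk, -Prod.mk_add_mk]
    have c0 := (L0.contDiff.comp ((dt (F i.1)).cd n)).contDiffAt (x := (i.2, x))
    have c1 := (L1.contDiff.comp ((D e1 (F i.1)).cd n)).contDiffAt (x := (i.2, x))
    have c2 := (L2.contDiff.comp ((D e2 (F i.1)).cd n)).contDiffAt (x := (i.2, x))
    have c01 : ContDiffAt ℝ n (L0 ∘ (dt (F i.1)).1 + L1 ∘ (D e1 (F i.1)).1) (i.2, x) := c0.add c1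
    rw [← norm_iteratedFDeriv_fderiv, e, iteratedFDeriv_add_apply c01 c2,
      iteratedFDeriv_add_apply c0 c1]
    refine norm_add₃_le.trans (add_le_add (add_le_add ?_ ?_) ?_)
    · exact (L0.norm_iteratedFDeriv_comp_left (SA.cd _ n).contDiffAt le_rfl).trans
        (mul_le_mul_of_nonneg_left (a0 x hx) (norm_nonneg _))
    · exact (L1.norm_iteratedFDeriv_comp_left (SA.cd _ n).contDiffAt le_rfl).trans
        (mul_le_mul_of_nonneg_left (a1 x hx) (norm_nonneg _))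
    · exact (L2.norm_iteratedFDeriv_comp_left (SA.cd _ n).contDiffAt le_rfl).trans
        (mul_le_mul_of_nonneg_left (a2 x hx) (norm_nonneg _))

end Pool.Agent.MP_ed9623_an.H64
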