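import Pool.Agent.MP_ed9623_an.H64.Defs

open scoped ContDiff

namespace Pool.Agent.MP_ed9623_an.H64

/-- A smooth trajectory: for all large times it solves the Navier-Stokes system and its
pressure has mean zero. -/
def SmoothTraj (Ω : Set (ℝ × ℝ)) (g₁ g₂ : ℝ × ℝ → ℝ) (u₁ u₂ p : ℝ × ℝ × ℝ → ℝ) : Prop :=
  ContDiff ℝ ∞ u₁ ∧ ContDiff ℝ ∞ u₂ ∧ ContDiff ℝ ∞ p ∧
    ∀ᶠ t in Filter.atTop, NS Ω g₁ g₂ u₁ u₂ p t ∧ ∫ x in Ω, p (t, x) = 0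

end Pool.Agent.MP_ed9623_an.H64
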