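import Pool.Agent.MP_ed9623_an.H64.Defs

open scoped ContDiff

namespace Pool.Agent.MP_ed9623_an.H64

/-- A smooth trajectory which, for all large times, solves the Navier-Stokes system and has
its space-time derivatives of order `k` bounded by `M k`. -/
def TrajM (Ω : Set (ℝ × ℝ)) (g₁ g₂ : ℝ × ℝ → ℝ) (M : ℕ → ℝ) (u₁ u₂ p : ℝ × ℝ × ℝ → ℝ) : Prop :=
  ContDiff ℝ ∞ u₁ ∧ ContDiff ℝ ∞ u₂ ∧ ContDiff ℝ ∞ p ∧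
    (∀ᶠ t in Filter.atTop, NS Ω g₁ g₂ u₁ u₂ p t) ∧ ∀ k, ∀ᶠ t in Filter.atTop, ∀ x : ℝ × ℝ,
      ‖iteratedFDeriv ℝ k u₁ (t, x)‖ ≤ M k ∧ ‖iteratedFDeriv ℝ k u₂ (t, x)‖ ≤ M k ∧
        ‖iteratedFDeriv ℝ k p (t, x)‖ ≤ M k

end Pool.Agent.MP_ed9623_an.H64
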