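import Pool.Agent.MP_ed9623_an.H64.Final2
import Pool.Agent.MP_ed9623_an.H64.Defs4

open Filter Topology MeasureTheory Set
open scoped ContDiff

namespace Pool.Agent.MP_ed9623_an.H64

variable {ρ g₁ g₂ : ℝ × ℝ → ℝ}

theorem hyp_conv (hρ : ∀ k : ℕ, ContDiff ℝ k ρ) {x₀ : ℝ × ℝ} (hd : fderiv ℝ ρ x₀ ≠ 0)
    (hk : curvature ρ x₀ ≠ 0) {F : ℝ × ℝ → ℝ} {l : Filter (ℝ × ℝ)} {P : Prop}
    (H : ∀ L, Tendsto F l (𝓝 L) → P ∧ dcurvature ρ x₀ ≠ 0 ∧ 0 ≤ L * dcurvature ρ x₀) :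
    curv2 ρ x₀ ≠ 0 ∧ ∀ L, Tendsto F l (𝓝 L) → P ∧ kap2 ρ x₀ ≠ 0 ∧ 0 ≤ L * kap2 ρ x₀ := by
  obtain ⟨c, d, c0, d0, e1, e2⟩ := kap2_eq hρ hd
  refine ⟨by rw [e1]; positivity, fun L hL => ?_⟩
  obtain ⟨a1, a2, a3⟩ := H L hL
  refine ⟨a1, by rw [e2]; positivity, ?_⟩
  rw [e2, mul_left_comm]; positivity

theorem Cls.of_bound {M : ℕ → ℝ} {u : ST → ℝ} (hu : ContDiff ℝ ∞ u)
    (h : ∀ k, ∀ᶠ t in atTop, ∀ x : ℝ × ℝ, ‖iteratedFDeriv ℝ k u (t, x)‖ ≤ M k) :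
    Cls ρ (fun k => ∑ j ∈ Finset.range (k + 1), |M j|) u := fun k => by
  refine ⟨u, hu.of_le (by exact_mod_cast le_top), fun _ _ => rfl, ?_⟩
  have : ∀ᶠ t in atTop, ∀ j ∈ Finset.range (k + 1), ∀ x : ℝ × ℝ,
      ‖iteratedFDeriv ℝ j u (t, x)‖ ≤ M j := (Finset.eventually_all _).2 fun j _ => h j
  filter_upwards [this] with t ht x j hj
  have m := Finset.mem_range.2 (Nat.lt_succ_of_le hj)
  exact ((ht j m x).trans (le_abs_self _)).trans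
    (Finset.single_le_sum (f := fun j => |M j|) (fun _ _ => abs_nonneg _) m)

theorem determining3 (hρ : ContDiff ℝ ∞ ρ) (hreg : ∀ x, ρ x = 0 → fderiv ℝ ρ x ≠ 0)
    (hb : Bornology.IsBounded {x | ρ x < 0}) (hc : IsPreconnected {x | ρ x < 0})
    (hg₁ : ContDiff ℝ ∞ g₁) (hg₂ : ContDiff ℝ ∞ g₂) {x₀ : ℝ × ℝ} (h0 : ρ x₀ = 0)
    (hk : curvature ρ x₀ ≠ 0)
    (H : ∀ L, Tendsto (fun x => (pd (1, 0) g₂ x - pd (0, 1) g₁ x) / ρ x ^ 6)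
      (𝓝[{x | ρ x < 0}] x₀) (𝓝 L) →
        IsPreconnected {x | ρ x = 0} ∧ dcurvature ρ x₀ ≠ 0 ∧ 0 ≤ L * dcurvature ρ x₀)
    (M : ℕ → ℝ) :
    ∃ (N : ℕ) (K : Fin N → ℝ × ℝ → ℝ), (∀ i, MemLp (K i) 2 (volume.restrict {x | ρ x < 0})) ∧
      ∀ u₁ u₂ p v₁ v₂ q : ST → ℝ, TrajM {x | ρ x < 0} g₁ g₂ M u₁ u₂ p →
        TrajM {x | ρ x < 0} g₁ g₂ M v₁ v₂ q →
        (∀ i, Tendsto (fun t => (∫ x in {x | ρ x < 0}, K i x * p (t, x))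
          - ∫ x in {x | ρ x < 0}, K i x * q (t, x)) atTop (𝓝 0)) →
        Tendsto (fun t => ∫ x in {x | ρ x < 0},
          ((u₁ (t, x) - v₁ (t, x)) ^ 2 + (u₂ (t, x) - v₂ (t, x)) ^ 2)) atTop (𝓝 0) := by
  have hρ' := contDiff_infty.1 hρ
  obtain ⟨k1, k2⟩ := hyp_conv hρ' (hreg _ h0) hk H
  obtain ⟨N, K, hK, H'⟩ := determining2 hρ' ⟨hρ' 1, hreg, hb⟩ hc (contDiff_infty.1 hg₁)
    (contDiff_infty.1 hg₂) h0 k1 k2 fun k => ∑ j ∈ Finset.range (k + 1), |M j|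
  refine ⟨N, K, hK, fun u₁ u₂ p v₁ v₂ q ⟨a1, a2, a3, a4, a5⟩ ⟨b1, b2, b3, b4, b5⟩ => H' _ _ _ _ _ _
    a1.continuous a2.continuous b1.continuous b2.continuous a4 b4
    (Cls.of_bound a1 fun k => (a5 k).mono fun _ h x => (h x).1)
    (Cls.of_bound a2 fun k => (a5 k).mono fun _ h x => (h x).2.1)
    (Cls.of_bound a3 fun k => (a5 k).mono fun _ h x => (h x).2.2)
    (Cls.of_bound b1 fun k => (b5 k).mono fun _ h x => (h x).1)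
    (Cls.of_bound b2 fun k => (b5 k).mono fun _ h x => (h x).2.1)
    (Cls.of_bound b3 fun k => (b5 k).mono fun _ h x => (h x).2.2)⟩

end Pool.Agent.MP_ed9623_an.H64
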