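import Pool.Agent.MP_ed9623_an.H64.Ext
import Pool.Agent.MP_ed9623_an.H64.Boot
import Pool.Agent.MP_ed9623_an.H64.Final3
import Pool.Agent.MP_ed9623_an.H64.Defs5

open Filter Topology MeasureTheory Set
open scoped ContDiff

namespace Pool.Agent.MP_ed9623_an.H64

variable {Q : Dm} {g1 g2 : SA PP}

theorem cls_of (F : Sol Q g1 g2 → SA ST) (h : ∀ k j, Ctl Q (late Q g1 g2) k
    (fun i => sl i.2 (dt^[j] (F i.1))) fun _ => 1) : ∃ M : ℕ → ℝ, ∀ s, Cls Q.ρ.1 M (F s).1 := by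
  choose B b0 hB using fun n => reg_bound n F h
  choose C X c0 hX H using fun k => Q.extend k
  refine ⟨fun k => C k * ∑ j ∈ Finset.range (k + 1), B j, fun s k =>
    ⟨X k (F s).1, (H k _ (F s).sm).1, (H k _ (F s).sm).2.1, ?_⟩⟩
  have : ∀ᶠ t in atTop, ∀ j ∈ Finset.range (k + 1), ∀ x, Q.ρ.1 x < 0 →
      ‖iteratedFDeriv ℝ j (F s).1 (t, x)‖ ≤ B j :=
    (Finset.eventually_all _).2 fun j _ => ev_late.1 (hB j) s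
  filter_upwards [this] with t ht x j hj
  have sm := (F s).sm
  have := (H k (fun z => (F s).1 (z + (t, 0))) (by fun_prop)).2.2 (∑ j ∈ Finset.range (k + 1), B j)
    (fun j hj x hx => by
      have m := Finset.mem_range.2 (Nat.lt_succ_of_le hj)
      rw [iteratedFDeriv_comp_add_right]
      simpa using (ht j m x hx).trans (Finset.single_le_sum (f := B) (fun _ _ => b0 _) m))
    (Finset.sum_nonneg fun _ _ => b0 _) x j hj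
  rw [funext (hX k (F s).1 t), iteratedFDeriv_comp_add_right] at this
  simpa using this

theorem Cls.mono {ρ : PP → ℝ} {M M' : ℕ → ℝ} {u : ST → ℝ} (h : Cls ρ M u) (hM : ∀ k, M k ≤ M' k) :
    Cls ρ M' u := fun k => by
  obtain ⟨F, a, b, c⟩ := h k
  exact ⟨F, a, b, c.mono fun t ht x j hj => (ht x j hj).trans (hM k)⟩

theorem cls_sol (hc : IsPreconnected {x | Q.ρ.1 x < 0}) : ∃ M : ℕ → ℝ, ∀ s : Sol Q g1 g2,
    Cls Q.ρ.1 M s.u1.1 ∧ Cls Q.ρ.1 M s.u2.1 ∧ Cls Q.ρ.1 M s.p.1 := by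
  obtain ⟨M1, H1⟩ := cls_of (Q := Q) (g1 := g1) (g2 := g2) (fun s => s.u1) (bound_u cmp1)
  obtain ⟨M2, H2⟩ := cls_of (Q := Q) (g1 := g1) (g2 := g2) (fun s => s.u2) (bound_u cmp2)
  obtain ⟨M3, H3⟩ := cls_of (Q := Q) (g1 := g1) (g2 := g2) (fun s => s.p) (bound_p hc)
  exact ⟨fun k => max (max (M1 k) (M2 k)) (M3 k), fun s =>
    ⟨(H1 s).mono fun k => (le_max_left _ _).trans (le_max_left _ _),
      (H2 s).mono fun k => (le_max_right _ _).trans (le_max_left _ _),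
      (H3 s).mono fun k => le_max_right _ _⟩⟩

theorem determining4 {ρ g₁ g₂ : ℝ × ℝ → ℝ} (hρ : ContDiff ℝ ∞ ρ)
    (hreg : ∀ x, ρ x = 0 → fderiv ℝ ρ x ≠ 0)
    (hb : Bornology.IsBounded {x | ρ x < 0}) (hc : IsPreconnected {x | ρ x < 0})
    (hg₁ : ContDiff ℝ ∞ g₁) (hg₂ : ContDiff ℝ ∞ g₂) {x₀ : ℝ × ℝ} (h0 : ρ x₀ = 0)
    (hk : curvature ρ x₀ ≠ 0)
    (H : ∀ L, Tendsto (fun x => (pd (1, 0) g₂ x - pd (0, 1) g₁ x) / ρ x ^ 6)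
      (𝓝[{x | ρ x < 0}] x₀) (𝓝 L) →
        IsPreconnected {x | ρ x = 0} ∧ dcurvature ρ x₀ ≠ 0 ∧ 0 ≤ L * dcurvature ρ x₀) :
    ∃ (N : ℕ) (K : Fin N → ℝ × ℝ → ℝ), (∀ i, MemLp (K i) 2 (volume.restrict {x | ρ x < 0})) ∧
      ∀ u₁ u₂ p v₁ v₂ q : ST → ℝ, SmoothTraj {x | ρ x < 0} g₁ g₂ u₁ u₂ p →
        SmoothTraj {x | ρ x < 0} g₁ g₂ v₁ v₂ q →
        (∀ i, Tendsto (fun t => (∫ x in {x | ρ x < 0}, K i x * p (t, x))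
          - ∫ x in {x | ρ x < 0}, K i x * q (t, x)) atTop (𝓝 0)) →
        Tendsto (fun t => ∫ x in {x | ρ x < 0},
          ((u₁ (t, x) - v₁ (t, x)) ^ 2 + (u₂ (t, x) - v₂ (t, x)) ^ 2)) atTop (𝓝 0) := by
  have hρ' := contDiff_infty.1 hρ
  obtain ⟨k1, k2⟩ := hyp_conv hρ' (hreg _ h0) hk H
  let Q : Dm := ⟨⟨ρ, hρ⟩, hreg, hb⟩
  obtain ⟨M, hM⟩ := cls_sol (Q := Q) (g1 := ⟨g₁, hg₁⟩) (g2 := ⟨g₂, hg₂⟩) hc
  obtain ⟨N, K, hK, H'⟩ := determining2 hρ' ⟨hρ' 1, hreg, hb⟩ hc (contDiff_infty.1 hg₁)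
    (contDiff_infty.1 hg₂) h0 k1 k2 M
  refine ⟨N, K, hK, fun u₁ u₂ p v₁ v₂ q ⟨a1, a2, a3, a4⟩ ⟨b1, b2, b3, b4⟩ => ?_⟩
  obtain ⟨c1, c2, c3⟩ := hM ⟨⟨u₁, a1⟩, ⟨u₂, a2⟩, ⟨p, a3⟩, a4.mono fun _ h => h.1,
    a4.mono fun _ h => h.2⟩
  obtain ⟨d1, d2, d3⟩ := hM ⟨⟨v₁, b1⟩, ⟨v₂, b2⟩, ⟨q, b3⟩, b4.mono fun _ h => h.1,
    b4.mono fun _ h => h.2⟩
  exact H' _ _ _ _ _ _ a1.continuous a2.continuous b1.continuous b2.continuous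
    (a4.mono fun _ h => h.1) (b4.mono fun _ h => h.1) c1 c2 c3 d1 d2 d3

end Pool.Agent.MP_ed9623_an.H64
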