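import Pool.Agent.MP_ed9623_an.H64.Tan1
import Pool.Agent.MP_ed9623_an.H64.Final4

open Filter Topology MeasureTheory Set
open scoped ContDiff Nat NNReal ENNReal

namespace Pool.Agent.MP_ed9623_an.H64

variable {ρ g₁ g₂ : PP → ℝ}

theorem ana_of_taylor {F : ℝ → ℝ} {t C R : ℝ} (c : ℕ → ℝ) (hR : 0 < R) (hc : ∀ n, |c n| ≤ C * R ^ n)
    (h : ∀ y n, |F (t + y) - ∑ j ∈ Finset.range n, y ^ j * c j| ≤ C * (R * |y|) ^ n) :
    AnalyticAt ℝ F t := by
  obtain ⟨r, hr⟩ : ∃ r : ℝ≥0, (r : ℝ) = R⁻¹ := ⟨⟨_, by positivity⟩, rfl⟩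
  have r0 : (0 : ℝ) < r := by rw [hr]; positivity
  have r1 : R * r = 1 := by rw [hr]; field_simp
  let p := FormalMultilinearSeries.ofScalars ℝ c
  have hp : (r : ℝ≥0∞) ≤ p.radius := p.le_radius_of_bound C fun n => by
    rw [FormalMultilinearSeries.ofScalars_norm]
    refine (mul_le_mul_of_nonneg_right (hc n) (by positivity)).trans_eq ?_
    rw [mul_assoc, ← mul_pow, r1, one_pow, mul_one]
  refine ⟨p, r, hp, by exact_mod_cast r0, fun {y} hy => ?_⟩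
  have hy' : |y| < r := by simpa [enorm, ← NNReal.coe_lt_coe] using hy
  refine ((p.summable (Metric.eball_subset_eball hp hy)).hasSum_iff_tendsto_nat).2 ?_
  rw [tendsto_iff_norm_sub_tendsto_zero]
  refine squeeze_zero (fun _ => norm_nonneg _) (fun n => ?_) (by
    simpa using (tendsto_pow_atTop_nhds_zero_of_lt_one (by positivity : 0 ≤ R * |y|)
      ((mul_lt_mul_of_pos_left hy' hR).trans_eq r1)).const_mul C)
  rw [norm_sub_rev]
  simpa [p, FormalMultilinearSeries.ofScalars_apply_eq, mul_comm] using h y n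

/-- Factorial bounds for the time derivatives, in the weak sense, for large times. -/
def TB (ρ : PP → ℝ) (u : ST → ℝ) : Prop := ∀ f : SA PP, ∃ (C R : ℝ) (F : ℕ → ℝ → ℝ), 0 < R ∧
  (∀ k t, HasDerivAt (F k) (F (k + 1) t) t) ∧ (∀ t, F 0 t = ∫ x in {x | ρ x < 0}, f.1 x * u (t, x)) ∧
    ∀ᶠ t in atTop, ∀ k, |F k t| ≤ C * R ^ k * k !

/-- Weak analyticity in time. -/
def TA (ρ : PP → ℝ) (u : ST → ℝ) : Prop :=
  ∀ (f : SA PP) t, AnalyticAt ℝ (fun t => ∫ x in {x | ρ x < 0}, f.1 x * u (t, x)) t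

theorem tb_sol {Q : Dm} {g1 g2 : SA PP} (s : Sol Q g1 g2) : TB Q.ρ.1 s.u1.1 ∧ TB Q.ρ.1 s.u2.1 := by
  obtain ⟨A, R, a0, r0, h⟩ := time_bound s
  have k : ∀ u : SA ST, (∀ k t, Q.S 0 (sl t (dt^[k] u)) ≤ SS 0 k (s, t)) → TB Q.ρ.1 u.1 := by
    intro u hu f
    refine ⟨√(Q.S 0 f * A), R, fun k t => Q.I (sl t (up f * dt^[k] u)), r0, fun k t => ?_,
      fun t => rfl, h.mono fun t ht k => ?_⟩
    · have := I_deriv (Q := Q) (up f * dt^[k] u) t
      rwa [D_mul, dt_up, zero_mul, zero_add, ← Function.iterate_succ_apply' dt] at this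
    · have n := Dm.S_nonneg (Q := Q) 0 f
      refine abs_le_of_sq_le_sq ?_ (by positivity)
      beta_reduce
      rw [mul_assoc, mul_pow, Real.sq_sqrt (by positivity), map_mul, mul_assoc]
      exact (Dm.I_mul_sq _ _).trans (mul_le_mul_of_nonneg_left ((hu k t).trans (ht k)) n)
  exact ⟨k _ fun k t => cmp1 0 k (s, t), k _ fun k t => cmp2 0 k (s, t)⟩

theorem TB.lim (h : Dom ρ) {u U : ST → ℝ} (hu : TB ρ u) (e : ∀ z : ST, ρ z.2 < 0 → u z = U z)
    {l : Ultrafilter ℕ} {t : ℕ → ℝ} (ht : Tendsto t l atTop) {M : ℝ}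
    (hf : LB l M 1 fun n => shift (t n) U) : TA ρ (ulim l fun n => shift (t n) U) := by
  intro f s
  obtain ⟨C, R, F, r0, dF, F0, hF⟩ := hu f
  obtain ⟨T, hT⟩ := eventually_atTop.1 hF
  have cl : Continuous (ulim l fun n => shift (t n) U) := (LB.contDiff 0 hf).continuous
  have cf := f.ct
  have conv : ∀ s, Tendsto (fun n => F 0 (s + t n)) l
      (𝓝 (∫ x in {x | ρ x < 0}, f.1 x * ulim l (fun n => shift (t n) U) (s, x))) := fun s => by
    obtain ⟨D, D0, hD⟩ := h.bound cf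
    have V0 : 0 ≤ volume.real {x | ρ x < 0} := measureReal_nonneg
    refine Metric.tendsto_nhds.2 fun η hη => ?_
    filter_upwards [h.unif hf s (η := η / (D * volume.real {x | ρ x < 0} + 1)) (by positivity)]
      with n hn
    have cn := (hf.1 n).continuous
    rw [F0, setIntegral_congr_fun h.meas (g := fun x => f.1 x * shift (t n) U (s, x))
      fun x hx => by beta_reduce; rw [shift_apply, e (_, x) hx], dist_eq_norm,
      ← integral_sub (h.int (by fun_prop)) (h.int (by fun_prop))]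
    refine (norm_setIntegral_le_of_norm_le_const (C := D * (η / (D * volume.real {x | ρ x < 0} + 1)))
      h.vol fun x hx => ?_).trans_lt ?_
    · rw [← mul_sub, norm_mul, norm_sub_rev]
      exact mul_le_mul (hD x hx) (hn x hx).le (norm_nonneg _) D0
    · rw [mul_right_comm, mul_div_assoc', div_lt_iff₀ (by positivity)]
      linarith
  have ev : ∀ a, ∀ᶠ n in l, a ≤ s + t n := fun a =>
    (tendsto_atTop_add_const_left _ s ht).eventually (eventually_ge_atTop a)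
  have lim : ∀ k, ∃ c, Tendsto (fun n => F k (s + t n)) l (𝓝 c) := fun k => by
    obtain ⟨a, -, ha⟩ := (isCompact_closedBall (0 : ℝ) (C * R ^ k * k !)).ultrafilter_le_nhds
      (l.map fun n => F k (s + t n)) (le_principal_iff.2 ((ev T).mono fun n hn => by
        simpa using hT _ hn k))
    exact ⟨a, ha⟩
  choose c hc using lim
  refine ana_of_taylor (C := C) (fun k => c k / k !) r0 (fun k => ?_) fun y k => ?_
  · rw [abs_div, Nat.abs_cast, div_le_iff₀ (by positivity)]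
    exact le_of_tendsto (hc k).abs ((ev T).mono fun n hn => hT _ hn k)
  · refine le_of_tendsto ((conv (s + y)).sub (tendsto_finset_sum _ fun j _ =>
      ((hc j).div_const _).const_mul (y ^ j))).abs ((ev (T + |y|)).mono fun n hn => ?_)
    have := taylor_fam k (fun j r => y ^ j * F j (s + t n + r * y)) (C * R ^ k * k ! * |y| ^ k)
      (fun j r => ((((dF j _).comp r (((hasDerivAt_id r).mul_const y).const_add _))).const_mul
        (y ^ j)).congr_deriv (by simp only [id]; ring)) (fun r hr => by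
        rw [abs_mul, abs_pow, mul_comm]
        refine mul_le_mul_of_nonneg_right (hT _ ?_ k) (by positivity)
        nlinarith [hr.1, hr.2, neg_abs_le y, abs_nonneg y]) 1 ⟨zero_le_one, le_rfl⟩
    refine (le_of_eq ?_).trans (this.trans_eq (by rw [mul_pow, one_pow]; field_simp))
    simp only [pow_zero, one_mul, zero_mul, add_zero, one_pow, add_right_comm s y]
    congr 2
    exact Finset.sum_congr rfl fun j _ => by ring

theorem TA.hsum (h : Dom ρ) {u v : ST → ℝ} (cu : Continuous u) (cv : Continuous v) (hu : TA ρ u)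
    (hv : TA ρ v) : TA ρ (hsum u v) := fun f t => by
  have cf := f.ct
  refine (((hu f t).add (hv f t)).div_const (c := 2)).congr (Eventually.of_forall fun s => ?_)
  beta_reduce
  rw [Pi.add_apply, ← integral_add (h.int (by fun_prop)) (h.int (by fun_prop)), ← integral_div]
  congr 1; funext x; unfold H64.hsum; ring

theorem TA.zero (h : Dom ρ) {a : ST → ℝ} (ca : Continuous a) (ha : TA ρ a) {U : Set PP} (hU : IsOpen U)
    {t₀ : ℝ} (h0 : ∀ᶠ t in 𝓝 t₀, ∀ x ∈ U, ρ x < 0 → a (t, x) = 0) (t : ℝ) :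
    ∀ x ∈ U, ρ x < 0 → a (t, x) = 0 := fun x hx hx' => by
  by_contra hne
  have c1 : Continuous fun y : PP => a (t, y) * a (t, x) := by fun_prop
  obtain ⟨r, r0, hr⟩ := Metric.eventually_nhds_iff_ball.1 ((hU.eventually_mem hx).and
    (c1.continuousAt.eventually (lt_mem_nhds (mul_self_pos.2 hne))))
  let b : ContDiffBump x := ⟨r / 3, r / 2, by positivity, by linarith⟩
  have bs : ∀ y, y ∉ Metric.ball x r → b y = 0 := fun y hy => b.zero_of_le_dist (by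
    simp only [b]; linarith [not_lt.1 (mt Metric.mem_ball.2 hy)])
  have z := AnalyticOnNhd.eqOn_zero_of_preconnected_of_eventuallyEq_zero
    (fun t _ => ha ⟨b, (b.contDiff : ContDiff ℝ ∞ b)⟩ t) isPreconnected_univ (mem_univ t₀)
    (h0.mono fun s hs => setIntegral_eq_zero_of_forall_eq_zero fun y hy => by
      by_cases k : y ∈ Metric.ball x r
      · exact mul_eq_zero_of_right _ (hs y (hr y k).1 hy)
      · exact mul_eq_zero_of_left (bs y k) _) (mem_univ t)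
  have cb := b.continuous
  have z2 : ∫ y in {x | ρ x < 0}, b y * (a (t, y) * a (t, x)) = 0 := by
    simp only [← mul_assoc]
    rw [integral_mul_const]
    exact mul_eq_zero_of_left z _
  have := Measure.eqOn_open_of_ae_eq ((setIntegral_eq_zero_iff_of_nonneg_ae (Eventually.of_forall
    fun y => by
      by_cases k : y ∈ Metric.ball x r
      · exact mul_nonneg b.nonneg (hr y k).2.le
      · simp [bs y k]) (h.int (cb.mul c1))).1 z2) h.isOpen
      (cb.mul c1).continuousOn continuousOn_const hx'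
  simp only [Pi.mul_apply, b.one_of_mem_closedBall (Metric.mem_closedBall_self b.rIn_pos.le),
    one_mul, Pi.zero_apply, mul_self_eq_zero] at this
  exact hne this

/-- Complete bounded time-analytic pairs with the same pressure coincide. -/
def ZT (ρ g₁ g₂ : PP → ℝ) : Prop := ∀ a1 a2 w1 w2 P : ST → ℝ, ContDiff ℝ (6 : ℕ) a1 →
  ContDiff ℝ (6 : ℕ) a2 → ContDiff ℝ (6 : ℕ) w1 → ContDiff ℝ (6 : ℕ) w2 →
  Sm ρ a1 → Sm ρ a2 → Sm ρ w1 → Sm ρ w2 → TA ρ a1 → TA ρ a2 →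
  (∀ y : ST, ρ y.2 < 0 → Sys a1 a2 w1 w2 P (fun y => g₁ y.2) (fun y => g₂ y.2) y) →
  (∀ y : ST, ρ y.2 = 0 → a1 y = 0 ∧ a2 y = 0 ∧ w1 y = 0 ∧ w2 y = 0) → ∀ M : ℝ,
  (∀ y, |w1 y| ≤ M ∧ |w2 y| ≤ M) → ∀ x, ρ x < 0 → ∀ t, w1 (t, x) = 0 ∧ w2 (t, x) = 0

theorem determining_zt (hρ : ContDiff ℝ ∞ ρ) (hreg : ∀ x, ρ x = 0 → fderiv ℝ ρ x ≠ 0)
    (hb : Bornology.IsBounded {x | ρ x < 0}) (hc : IsPreconnected {x | ρ x < 0})
    (hg₁ : ContDiff ℝ ∞ g₁) (hg₂ : ContDiff ℝ ∞ g₂) (H : ZT ρ g₁ g₂) :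
    ∃ (N : ℕ) (K : Fin N → ℝ × ℝ → ℝ), (∀ i, MemLp (K i) 2 (volume.restrict {x | ρ x < 0})) ∧
      ∀ u₁ u₂ p v₁ v₂ q : ST → ℝ, SmoothTraj {x | ρ x < 0} g₁ g₂ u₁ u₂ p →
        SmoothTraj {x | ρ x < 0} g₁ g₂ v₁ v₂ q →
        (∀ i, Tendsto (fun t => (∫ x in {x | ρ x < 0}, K i x * p (t, x))
          - ∫ x in {x | ρ x < 0}, K i x * q (t, x)) atTop (𝓝 0)) →
        Tendsto (fun t => ∫ x in {x | ρ x < 0},
          ((u₁ (t, x) - v₁ (t, x)) ^ 2 + (u₂ (t, x) - v₂ (t, x)) ^ 2)) atTop (𝓝 0) := by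
  have h : Dom ρ := ⟨contDiff_infty.1 hρ 1, hreg, hb⟩
  let Q : Dm := ⟨⟨ρ, hρ⟩, hreg, hb⟩
  obtain ⟨M, hM⟩ := cls_sol (Q := Q) (g1 := ⟨g₁, hg₁⟩) (g2 := ⟨g₂, hg₂⟩) hc
  obtain ⟨N, K, hK, H'⟩ := determining_gen h g₁ g₂ (M 7)
  refine ⟨N, K, hK, fun u₁ u₂ p v₁ v₂ q hu0 hv0 hlim => ?_⟩
  have tr : ∀ u₁ u₂ p : ST → ℝ, SmoothTraj {x | ρ x < 0} g₁ g₂ u₁ u₂ p →
      ∃ U₁ U₂ P, Traj {x | ρ x < 0} g₁ g₂ (M 7) U₁ U₂ P ∧ (∀ z : ST, ρ z.2 < 0 → u₁ z = U₁ z) ∧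
        (∀ z : ST, ρ z.2 < 0 → u₂ z = U₂ z) ∧ (∀ z : ST, ρ z.2 < 0 → p z = P z) ∧
        Cls ρ M u₁ ∧ Cls ρ M u₂ ∧ TB ρ u₁ ∧ TB ρ u₂ := by
    intro u₁ u₂ p ⟨c1, c2, c3, n⟩
    let s : Sol Q ⟨g₁, hg₁⟩ ⟨g₂, hg₂⟩ := ⟨⟨u₁, c1⟩, ⟨u₂, c2⟩, ⟨p, c3⟩, n.mono fun _ h => h.1,
      n.mono fun _ h => h.2⟩
    obtain ⟨s1, s2, s3⟩ := hM s
    obtain ⟨U₁, a1, b1, d1⟩ := s1 7
    obtain ⟨U₂, a2, b2, d2⟩ := s2 7
    obtain ⟨P, a3, b3, d3⟩ := s3 7
    refine ⟨U₁, U₂, P, ⟨a1, a2, cdg_le (m := 3) a3 (by norm_num), ?_⟩, b1, b2, b3, s1, s2, tb_sol s⟩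
    filter_upwards [n, d1, d2, d3] with t k0 k1 k2 k3
    exact ⟨k0.1.congr h c1.continuous c2.continuous a1.continuous a2.continuous b1 b2 b3, fun x =>
      ⟨fun j hj => ⟨k1 x j hj, k2 x j hj⟩, fun j hj => k3 x j (by omega)⟩⟩
  obtain ⟨U₁, U₂, P, hu, a1, a2, a3, su1, su2, tu1, tu2⟩ := tr _ _ _ hu0
  obtain ⟨V₁, V₂, Q, hv, b1, b2, b3, sv1, sv2, tv1, tv2⟩ := tr _ _ _ hv0
  refine (H' U₁ U₂ P V₁ V₂ Q hu hv (fun l t ht τ σ τ1 τ2 σ1 σ2 hpq x hx => ?_)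
    fun i => (hlim i).congr fun t => ?_).congr fun t => ?_
  · have l2 := fun {f : ST → ℝ} (h : ContDiff ℝ (6 : ℕ) f) => cdg_le h (by norm_num : 2 ≤ 6)
    have m1 := τ1 ▸ su1.sm a1 ht
    have m2 := τ2 ▸ su2.sm a2 ht
    have m3 := σ1 ▸ sv1.sm b1 ht
    have m4 := σ2 ▸ sv2.sm b2 ht
    have n1 := τ1 ▸ tu1.lim h a1 ht ((hu.lb ht).1.mono (by norm_num))
    have n2 := τ2 ▸ tu2.lim h a2 ht ((hu.lb ht).2.1.mono (by norm_num))
    have n3 := σ1 ▸ tv1.lim h b1 ht ((hv.lb ht).1.mono (by norm_num))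
    have n4 := σ2 ▸ tv2.lim h b2 ht ((hv.lb ht).2.1.mono (by norm_num))
    have := H _ _ _ _ _ (cd_hsum τ.hu1 σ.hu1) (cd_hsum τ.hu2 σ.hu2) (cd_hdif τ.hu1 σ.hu1)
      (cd_hdif τ.hu2 σ.hu2) (m1.hsum m3) (m2.hsum m4) (m1.hdif m3) (m2.hdif m4)
      (n1.hsum h τ.hu1.continuous σ.hu1.continuous n3) (n2.hsum h τ.hu2.continuous σ.hu2.continuous n4)
      (fun y hy => sys_of_NS (l2 τ.hu1) (l2 τ.hu2) (l2 σ.hu1) (l2 σ.hu2) (τ.ns y.1) (σ.ns y.1) hy
        (hpq y.1 y.2 hy).1 (hpq y.1 y.2 hy).2) (fun y hy => by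
        have hf := mem_frontier_of_zero h.1.continuous hy (h.2.1 _ hy)
        obtain ⟨a1, a2⟩ := (τ.ns y.1).2 y.2 hf
        obtain ⟨b1, b2⟩ := (σ.ns y.1).2 y.2 hf
        simp only [Prod.mk.eta] at a1 a2 b1 b2
        simp only [hsum, hdif, a1, a2, b1, b2]
        norm_num) (M 7)
      (fun y => ⟨abs_hdif (τ.b0 y).1 (σ.b0 y).1, abs_hdif (τ.b0 y).2 (σ.b0 y).2⟩) x hx 0
    unfold hdif at this
    constructor <;> linarith [this.1, this.2]
  · congr 1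
    · exact setIntegral_congr_fun h.meas fun x hx => by rw [a3 (t, x) hx]
    · exact setIntegral_congr_fun h.meas fun x hx => by rw [b3 (t, x) hx]
  · exact setIntegral_congr_fun h.meas fun x hx => by
      simp only [a1 (t, x) hx, a2 (t, x) hx, b1 (t, x) hx, b2 (t, x) hx]

end Pool.Agent.MP_ed9623_an.H64
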