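import Pool.Agent.MP_ed9623_an.H64.Circ3
import Pool.Agent.MP_ed9623_an.H64.Tan2
import Pool.Agent.MP_ed9623_an.H64.Fin5b

open Filter Topology MeasureTheory Set
open scoped ContDiff

namespace Pool.Agent.MP_ed9623_an.H64

variable {ρ g₁ g₂ : PP → ℝ} {c : PP} {R : ℝ}

theorem near_circ (hρ : ∀ k : ℕ, ContDiff ℝ k ρ) (h : Dom ρ) (R0 : 0 < R)
    (hi : ∀ x, ρ x < 0 → qq c (0, x) < R ^ 2) (hb : ∀ x, qq c (0, x) = R ^ 2 → ρ x = 0) {x₀ : PP}
    (h0 : qq c (0, x₀) = R ^ 2) : 0 < curv2 ρ x₀ ∧ ∀ᶠ x in 𝓝 x₀, qq c (0, x) < R ^ 2 → ρ x < 0 := by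
  have hr : ∀ k : ℕ, ContDiff ℝ k fun y : ST => ρ y.2 := fun k => (hρ k).comp contDiff_snd
  have c2 : ∀ k : ℕ, ContDiff ℝ k fun y => qq c y - R ^ 2 := fun k => by fun_prop
  obtain ⟨W, b1, b2⟩ := exists_div (n := 2) (z₀ := (0, x₀)) (c2 _).contDiffAt (hr _).contDiffAt
    (sub_eq_zero.2 h0) (fderiv_ne_of_curv (by
      rw [curv_mul (W := fun _ => 1) contDiffAt_const h0 (by simp)]; positivity))
    (Eventually.of_forall fun y hy => hb _ (sub_eq_zero.1 hy))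
  have b3 := (tend_sl (0, x₀)).eventually b2
  have W0 : 0 < W (0, x₀) := by
    refine lt_of_le_of_ne (not_lt.1 fun k => ?_) fun k => h.2.1 _ (hb _ h0) (fderiv_zero_of_pd fun e => ?_)
    · obtain ⟨x, k1, k2, k3⟩ := ((mem_closure_iff_frequently.1 (mem_closure_neg (hb _ h0)
        (h.2.1 _ (hb _ h0)))).and_eventually (b3.and ((tend_sl (0, x₀)).eventually
          (b1.continuousAt.eventually (gt_mem_nhds k))))).exists
      exact (mul_pos_of_neg_of_neg (sub_neg.2 (hi x k1)) k3).not_gt (k2.symm.trans_lt k1)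
    · rw [← pd_snd (z := (0, x₀)) (cdg_diff (hρ 1) le_rfl _) (0, e), grad_zero_of_van (c2 1).contDiffAt
        (cd_le b1 one_le_two) (sub_eq_zero.2 h0) (b2.mono fun y hy => by simpa using hy), ← k, mul_zero]
  refine ⟨by rw [← curv_snd (hρ 2) (0, x₀), curv_mul b1 h0 b2]; positivity, ?_⟩
  filter_upwards [b3, (tend_sl (0, x₀)).eventually (b1.continuousAt.eventually (lt_mem_nhds W0))]
    with x k1 k2 k3
  exact k1.trans_lt (mul_neg_of_neg_of_pos (sub_neg.2 k3) k2)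

theorem zt_circle (hρ : ∀ k : ℕ, ContDiff ℝ k ρ) (h : Dom ρ) (hc : IsPreconnected {x | ρ x < 0})
    (R0 : 0 < R) (hi : ∀ x, ρ x < 0 → qq c (0, x) < R ^ 2) (hb : ∀ x, qq c (0, x) = R ^ 2 → ρ x = 0) :
    ZT ρ g₁ g₂ := by
  intro a1 a2 w1 w2 P ha1 ha2 hw1 hw2 sa1 sa2 sw1 sw2 t1 t2 hS hB M hM x hx t
  by_contra hn
  have l := fun {f : ST → ℝ} (h : ContDiff ℝ (6 : ℕ) f) (k : ℕ) (hk : k ≤ 6) => cdg_le h hk
  have c1 := ha1.continuous
  have c2 := ha2.continuous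
  have cq : Continuous fun x : PP => qq c (0, x) := by fun_prop
  have hU : ∀ y : ST, ρ y.2 < 0 → ∀ᶠ z : ST in 𝓝 y, ρ z.2 < 0 := fun y hy =>
    (h.isOpen.preimage continuous_snd).mem_nhds hy
  have hne : ∀ x₀, qq c (0, x₀) = R ^ 2 → ¬ ∀ t, vort w1 w2 (t, x₀) = 0 := fun x₀ h0 k =>
    hn (zero_on hρ h hc (hb _ h0) (near_circ hρ h R0 hi hb h0).1.ne' (l ha1 2 (by norm_num))
      (l ha2 2 (by norm_num)) (l hw1 4 (by norm_num)) (l hw2 4 (by norm_num)) hS hB isOpen_univ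
      (fun t _ => k t) x hx t (mem_univ _))
  have ta : ∀ (x₀ : PP) (t₀ ε : ℝ), 0 < ε → (∀ᶠ t in 𝓝 t₀, ∀ x ∈ Metric.ball x₀ ε, ρ x < 0 →
      a1 (t, x) = 0 ∧ a2 (t, x) = 0) → ∀ᶠ x in 𝓝 x₀, ρ x < 0 → ∀ t, a1 (t, x) = 0 ∧ a2 (t, x) = 0 :=
    fun x₀ t₀ ε e0 k => (Metric.isOpen_ball.eventually_mem (Metric.mem_ball_self e0)).mono
      fun x hx hx' t => ⟨t1.zero h c1 Metric.isOpen_ball (k.mono fun t k x a b => (k x a b).1) t x hx hx',
        t2.zero h c2 Metric.isOpen_ball (k.mono fun t k x a b => (k x a b).2) t x hx hx'⟩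
  let Gd : Set PP := {x | ∀ᶠ y in 𝓝 x, qq c (0, y) < R ^ 2 → ρ y < 0 ∧ ∀ t, a1 (t, y) = 0 ∧ a2 (t, y) = 0}
  have gc : ∀ x₀, qq c (0, x₀) = R ^ 2 → x₀ ∈ Gd := fun x₀ h0 => by
    obtain ⟨t₀, k⟩ := not_forall.1 (hne x₀ h0)
    obtain ⟨n1, n2⟩ := near_circ hρ h R0 hi hb h0
    have := epd_link h rfl (z := (t₀, x₀)) (fun k => (hρ k).comp contDiff_snd) (by
      rw [pd_snd_fun (hρ 1)]; funext z; simp [pd, Prod.mk_zero_zero]) (hb _ h0)
      (by rwa [curv_snd (hρ 2)]) (sa1.at _) (sa2.at _) (sw1.at _) (sw2.at _) c1 c2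
      (l hw1 1 (by norm_num)) (l hw2 1 (by norm_num))
      (eventually_nhdsWithin_of_forall hS) (Eventually.of_forall hB) k
    obtain ⟨ε, e0, he⟩ := Metric.eventually_nhds_iff_ball.1 (eventually_nhdsWithin_iff.1 this)
    filter_upwards [n2, ta x₀ t₀ ε e0 ((Metric.isOpen_ball.eventually_mem (Metric.mem_ball_self e0)).mono
      fun t ht x hx => he (t, x) (by rw [← ball_prod_same]; exact ⟨ht, hx⟩))] with y k1 k2 k3
    exact ⟨k1 k3, k2 (k1 k3)⟩
  have cK : IsCompact (insert c ({x | qq c (0, x) ≤ R ^ 2} \ Gd)) := by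
    refine (IsCompact.diff (Metric.isCompact_of_isClosed_isBounded (isClosed_le cq continuous_const)
      ((Metric.isBounded_closedBall (x := c) (r := R)).subset fun x hx => ?_))
      isOpen_setOf_eventually_nhds).insert c
    simp only [mem_setOf_eq, qq, XX, YY] at hx
    rw [Metric.mem_closedBall, Prod.dist_eq, max_le_iff, Real.dist_eq, Real.dist_eq]
    constructor <;> refine abs_le_of_sq_le_sq ?_ R0.le <;>
      nlinarith [sq_nonneg (x.1 - c.1), sq_nonneg (x.2 - c.2)]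
  obtain ⟨x₁, m1, m2⟩ := cK.exists_isMaxOn (insert_nonempty _ _) cq.continuousOn
  obtain ⟨r, e, r0, he, e1', hr⟩ : ∃ (r : ℝ) (e : PP), 0 ≤ r ∧ e.1 ^ 2 + e.2 ^ 2 = 1 ∧ x₁ = c + r • e ∧
      (r ≠ 0 → x₁ ≠ c) := by
    by_cases k : x₁ = c
    · exact ⟨0, (1, 0), le_rfl, by simp, by simp [k], fun h => (h rfl).elim⟩
    have q0 : 0 < qq c (0, x₁) := (add_nonneg (mul_self_nonneg _) (mul_self_nonneg _)).lt_of_ne'
      fun q => k (by
        obtain ⟨a, b⟩ := mul_self_add_mul_self_eq_zero.1 q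
        exact Prod.ext (sub_eq_zero.1 a) (sub_eq_zero.1 b))
    have s0 := Real.sqrt_pos.2 q0
    have s1 := Real.sq_sqrt q0.le
    refine ⟨_, (√(qq c (0, x₁)))⁻¹ • (x₁ - c), s0.le, ?_, by
      rw [smul_smul, mul_inv_cancel₀ s0.ne', one_smul, add_sub_cancel], fun _ => k⟩
    simp only [Prod.smul_fst, Prod.smul_snd, smul_eq_mul, mul_pow, inv_pow, s1, ← mul_add]
    rw [inv_mul_eq_one₀ q0.ne']
    simp [qq, XX, YY, sq]
  have q1 : qq c (0, x₁) = r ^ 2 := e1' ▸ ray_q he 0 r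
  have hR : r < R := by
    refine lt_of_pow_lt_pow_left₀ 2 R0.le ?_
    rcases m1 with k | k
    · rw [← q1, k]; simpa [qq, XX, YY] using by positivity
    · exact q1 ▸ lt_of_le_of_ne k.1 fun a => k.2 (gc _ a)
  have an : ∀ x, r ^ 2 < qq c (0, x) → qq c (0, x) < R ^ 2 →
      ρ x < 0 ∧ ∀ t, a1 (t, x) = 0 ∧ a2 (t, x) = 0 := fun x k1 k2 => by
    have : x ∈ Gd := by
      by_contra k
      exact (q1 ▸ m2 (Or.inr ⟨k2.le, k⟩) : qq c (0, x) ≤ r ^ 2).not_gt k1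
    exact this.self_of_nhds k2
  have an' : ∀ y : ST, (qq c y - R ^ 2) * (qq c y - r ^ 2) < 0 → ρ y.2 < 0 ∧ a1 y = 0 ∧ a2 y = 0 :=
    fun y hy => by
      have k := pow_lt_pow_left₀ hR r0 two_ne_zero
      have := an y.2 (show r ^ 2 < qq c y by by_contra h; nlinarith)
        (show qq c y < R ^ 2 by by_contra h; nlinarith)
      exact ⟨this.1, this.2 y.1⟩
  have hA : ∀ y, (qq c y - R ^ 2) * (qq c y - r ^ 2) < 0 →
      Lh w1 y = 0 ∧ Lh w2 y = 0 ∧ pd e1 w1 y + pd e2 w2 y = 0 := fun y hy => by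
    have k := ((by fun_prop : Continuous fun z => (qq c z - R ^ 2) * (qq c z - r ^ 2)).continuousAt.eventually
      (gt_mem_nhds hy)).mono an'
    have p1 := fun e => (pd_zero_on_open e (k.mono fun _ h => h.2.1)).self_of_nhds
    have p2 := fun e => (pd_zero_on_open e (k.mono fun _ h => h.2.2)).self_of_nhds
    obtain ⟨⟨b1, b2, -, b3⟩, -⟩ := hS y (an' y hy).1
    simp only [heat, p1, p2, an' y hy] at b1 b2
    exact ⟨by unfold Lh; linarith, by unfold Lh; linarith, b3⟩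
  have hB' : ∀ y, qq c y = R ^ 2 → w1 y = 0 ∧ w2 y = 0 := fun y hy => (hB y (hb _ hy)).2.2
  refine hne (c + R • e) (ray_q he 0 R) (ray_zero he r0 hR (l hw1 5 (by norm_num))
    (l hw2 5 (by norm_num)) hA hB' hM fun t₀ => ?_)
  by_contra k0
  have r1 : 0 < r := r0.lt_of_ne' (left_ne_zero_of_mul k0)
  have m3 := (m1.resolve_left (hr r1.ne')).2
  have ρ1 : ρ x₁ < 0 := by
    refine lt_of_le_of_ne ?_ fun k => k0 (by
      have := hB (ray c e t₀ r) (by rwa [e1'] at k)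
      simp [this])
    have cr : Continuous fun s => ρ (ray c e 0 s).2 := h.1.continuous.comp (ct_ray' 0).snd
    rw [e1']
    exact (isClosed_le cr continuous_const).closure_subset (closure_mono (s := Ioo r R)
      (fun s hs => (an' _ (ray_ann he r0 0 hs)).1.le) (by rw [closure_Ioo hR.ne]; exact ⟨le_rfl, hR.le⟩))
  have p := fun {f : ST → ℝ} (h : ContDiff ℝ (6 : ℕ) f) e => contDiff_pd (n := 5) e h
  let I : Set ℝ := {t | r * (w1 (ray c e t r) * (e.1 * pd e1 w1 (ray c e t r) + e.2 * pd e2 w1 (ray c e t r))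
      + w2 (ray c e t r) * (e.1 * pd e1 w2 (ray c e t r) + e.2 * pd e2 w2 (ray c e t r))) ≠ 0}
  have oI : IsOpen I := isOpen_ne_fun (by
    have := hw1.continuous
    have := hw2.continuous
    have := (p hw1 e1).continuous
    have := (p hw1 e2).continuous
    have := (p hw2 e1).continuous
    have := (p hw2 e2).continuous
    unfold ray
    fun_prop) continuous_const
  have uc : ∀ t ∈ I, ∀ᶠ x in 𝓝 x₁, a1 (t, x) = 0 ∧ a2 (t, x) = 0 := fun t ht => by
    obtain ⟨b1, b2, b3, b4⟩ := ray_facts he r0 hR (l hw1 5 (by norm_num)) (l hw2 5 (by norm_num)) hA hB'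
      t r ⟨le_rfl, hR.le⟩
    have b5 := (mul_eq_zero.1 b4).resolve_left r1.ne'
    have sl := fun {f : ST → ℝ} (h : ContDiff ℝ (2 : ℕ) f) =>
      h.comp (by fun_prop : ContDiff ℝ (2 : ℕ) fun x : PP => ((t, x) : ST))
    have ht' : _ ≠ (0 : ℝ) := right_ne_zero_of_mul ht
    simp only [Rz, ray_X, ray_Y] at b1 b2
    rw [show ray c e t r = (t, x₁) by rw [e1']; rfl] at b1 b2 b3 b5 ht'
    have b6 : r * ((e.1 ^ 2 - e.2 ^ 2) * pd e1 w1 (t, x₁) + e.1 * e.2 * (pd e1 w2 (t, x₁)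
        + pd e2 w1 (t, x₁))) = 0 := by
      linear_combination e.2 * b1 - e.1 * b2 - b5 + r * e.1 ^ 2 * b3
    refine uc_tr (n := -e) (by simpa using he) (sl (l ha1 2 (by norm_num))) (sl (l ha2 2 (by norm_num)))
      (sl (cdg_le (p hw1 e1) (by norm_num))) (sl (cdg_le (p hw2 e1) (by norm_num)))
      (sl (cdg_le (p hw1 e2) (by norm_num))) (fun k => ht' ?_)
      (by simpa using (mul_eq_zero.1 b6).resolve_left r1.ne') (fun k => ht' ?_)
      (κ := 1 / (2 * r)) (by positivity) ?_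
    · simp only [Function.comp_apply, Prod.fst_neg, Prod.snd_neg] at k
      have f : e.1 * w2 (t, x₁) - e.2 * w1 (t, x₁) = 0 := by
        linear_combination e.1 * b1 + e.2 * b2 - r * k - r * e.1 * e.2 * b3
      rw [show w1 (t, x₁) = 0 by linear_combination e.1 * b5 - e.2 * f - w1 (t, x₁) * he,
        show w2 (t, x₁) = 0 by linear_combination e.2 * b5 + e.1 * f - w2 (t, x₁) * he]
      ring
    · simp only [Function.comp_apply, Prod.fst_neg, Prod.snd_neg] at k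
      have b7 := (mul_eq_zero.1 b6).resolve_left r1.ne'
      rw [show e.1 * pd e1 w1 (t, x₁) + e.2 * pd e2 w1 (t, x₁) = 0 by
          linear_combination e.1 * b7 - e.2 * k
            - (e.1 * pd e1 w1 (t, x₁) + e.2 * pd e2 w1 (t, x₁)) * he,
        show e.1 * pd e1 w2 (t, x₁) + e.2 * pd e2 w2 (t, x₁) = 0 by
          linear_combination e.2 * b7 + e.1 * k + e.2 * b3
            - (e.1 * pd e1 w2 (t, x₁) - e.2 * pd e1 w1 (t, x₁)) * he]
      ring
    filter_upwards [h.isOpen.eventually_mem ρ1, cq.continuousAt.eventually (gt_mem_nhds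
      (q1.trans_lt (pow_lt_pow_left₀ hR r0 two_ne_zero)))] with x k1 k2
    have s1 := fun e => pd_slice (cdg_diff ha1 (by norm_num) (t, x)) e
    have s2 := fun e => pd_slice (cdg_diff ha2 (by norm_num) (t, x)) e
    have tr := trace_at (l ha1 3 (by norm_num)) (l ha2 3 (by norm_num)) (l hw1 3 (by norm_num))
      (l hw2 3 (by norm_num)) ((hU (t, x) k1).mono fun y hy => (hS y hy).1)
    obtain ⟨⟨-, -, d1, d2⟩, -⟩ := hS (t, x) k1
    simp only [Function.comp_def, s1, s2]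
    refine ⟨d1, by linear_combination tr - pd e2 a2 (t, x) * d2, fun k3 => (an x ?_ k2).2 t⟩
    rw [one_div_mul_eq_div, lt_div_iff₀ (by positivity)] at k3
    have k4 : dist x x₁ ^ 2 ≤ (x.1 - x₁.1) ^ 2 + (x.2 - x₁.2) ^ 2 := by
      rw [Prod.dist_eq, Real.dist_eq, Real.dist_eq]
      rcases max_choice |x.1 - x₁.1| |x.2 - x₁.2| with m | m <;> rw [m, sq_abs] <;>
        nlinarith [sq_nonneg (x.1 - x₁.1), sq_nonneg (x.2 - x₁.2)]
    simp only [e1', qq, XX, YY, Prod.fst_add, Prod.snd_add, Prod.smul_fst, Prod.smul_snd, smul_eq_mul,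
      Prod.fst_neg, Prod.snd_neg] at k3 k4 ⊢
    nlinarith [congrArg (r ^ 2 * ·) he]
  let J : ℕ → Set ℝ := fun n => {t | ∀ x ∈ Metric.ball x₁ (1 / (n + 1)), a1 (t, x) = 0 ∧ a2 (t, x) = 0}
  have cJ : ∀ n, IsClosed (J n) := fun n => by
    simp only [J, setOf_forall]
    exact isClosed_iInter fun x => isClosed_iInter fun _ => (isClosed_eq (by fun_prop)
      continuous_const).inter (isClosed_eq (by fun_prop) continuous_const)
  obtain ⟨s, k1, k2⟩ := (dense_iUnion_interior_of_closed (f := fun n => J n ∪ Iᶜ)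
    (fun n => (cJ n).union oI.isClosed_compl) (eq_univ_of_forall fun t => by
      by_cases ht : t ∈ I
      · obtain ⟨ε, e0, he⟩ := Metric.eventually_nhds_iff_ball.1 (uc t ht)
        obtain ⟨n, hn⟩ := exists_nat_one_div_lt e0
        exact mem_iUnion.2 ⟨n, Or.inl fun x hx => he x (Metric.ball_subset_ball hn.le hx)⟩
      · exact mem_iUnion.2 ⟨0, Or.inr ht⟩)).inter_open_nonempty I oI ⟨t₀, k0⟩
  obtain ⟨n, k3⟩ := mem_iUnion.1 k2
  refine m3 ?_
  filter_upwards [h.isOpen.eventually_mem ρ1, ta x₁ s (1 / (n + 1)) (by positivity) (by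
    filter_upwards [mem_interior_iff_mem_nhds.1 k3, oI.mem_nhds k1] with t a b x hx _
    exact a.resolve_right (not_not.2 b) x hx)] with y a b _
  exact ⟨a, b a⟩

end Pool.Agent.MP_ed9623_an.H64
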