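import Pool.Agent.MP_ed9623_an.H64.Poincare

open Filter Topology MeasureTheory Set
open scoped ContDiff

namespace Pool.Agent.MP_ed9623_an.H64

section general
variable (E : Type*) [NormedAddCommGroup E] [NormedSpace ℝ E]

/-- The algebra of smooth functions. -/
def SAsub : Subalgebra ℝ (E → ℝ) where
  carrier := {f | ContDiff ℝ ∞ f}
  mul_mem' := fun {a b} (ha : ContDiff ℝ ∞ a) (hb : ContDiff ℝ ∞ b) => ha.mul hb
  add_mem' := fun {a b} (ha : ContDiff ℝ ∞ a) (hb : ContDiff ℝ ∞ b) => ha.add hb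
  algebraMap_mem' := fun c => (contDiff_const : ContDiff ℝ ∞ fun _ : E => c)

/-- Smooth functions as a type. -/
def SA : Type _ := SAsub E

noncomputable instance : CommRing (SA E) := inferInstanceAs (CommRing (SAsub E))
noncomputable instance : Algebra ℝ (SA E) := inferInstanceAs (Algebra ℝ (SAsub E))

variable {E}

theorem SA.sm (f : SA E) : ContDiff ℝ ∞ f.1 := f.2

theorem SA.cd (f : SA E) (n : ℕ) : ContDiff ℝ n f.1 := f.sm.of_le (by exact_mod_cast le_top)

theorem SA.ct (f : SA E) : Continuous f.1 := f.sm.continuous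

theorem sm_pd {f : E → ℝ} (hf : ContDiff ℝ ∞ f) (e : E) : ContDiff ℝ ∞ (pd e f) :=
  contDiff_infty.2 fun n => contDiff_pd e (contDiff_infty.1 hf (n + 1))

noncomputable def D (e : E) : SA E →ₗ[ℝ] SA E where
  toFun := fun f => ⟨pd e f.1, sm_pd f.sm e⟩
  map_add' := fun f g => Subtype.ext (funext fun z =>
    pd_add e (cdg_diff (f.cd 1) le_rfl z) (cdg_diff (g.cd 1) le_rfl z))
  map_smul' := fun c f => Subtype.ext (funext fun z =>
    pd_const_mul e c (cdg_diff (f.cd 1) le_rfl z))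

theorem D_val (e : E) (f : SA E) : (D e f).1 = pd e f.1 := rfl

theorem D_mul (e : E) (f g : SA E) : D e (f * g) = D e f * g + f * D e g :=
  Subtype.ext (funext fun z => pd_mul e (cdg_diff (f.cd 1) le_rfl z) (cdg_diff (g.cd 1) le_rfl z))

theorem D_comm (e e' : E) (f : SA E) : D e (D e' f) = D e' (D e f) :=
  Subtype.ext (pd_comm_fun e e' (f.cd 2))

theorem D_natCast (e : E) (n : ℕ) : D e (n : SA E) = 0 :=
  Subtype.ext (funext fun z => pd_const e z n)

theorem D_ofNat (e : E) (n : ℕ) [n.AtLeastTwo] : D e (no_index (OfNat.ofNat n : SA E)) = 0 :=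
  D_natCast e n

theorem D_one (e : E) : D e (1 : SA E) = 0 := Subtype.ext (funext fun z => pd_const e z 1)

theorem D_iter_mul (e : E) (f g : SA E) (n : ℕ) : (D e)^[n] (f * g)
    = ∑ p ∈ Finset.HasAntidiagonal.antidiagonal n, (n.choose p.1 : SA E) * ((D e)^[p.1] f * (D e)^[p.2] g) := by
  induction n with
  | zero => simp
  | succ n ih =>
    rw [Function.iterate_succ_apply', ih, map_sum,
      Finset.sum_antidiagonal_choose_succ_mul (fun a b => (D e)^[a] f * (D e)^[b] g),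
      ← Finset.sum_add_distrib]
    refine Finset.sum_congr rfl fun p hp => ?_
    rw [D_mul, D_natCast, D_mul, Function.iterate_succ_apply', Function.iterate_succ_apply',
      ← Nat.choose_symm_of_eq_add (Finset.HasAntidiagonal.mem_antidiagonal.1 hp).symm]
    ring

end general

section big
variable {ι : Type*} {l : Filter ι} {Q Q' B B' : ι → ℝ}

def Big (l : Filter ι) (Q B : ι → ℝ) : Prop := ∃ C, 0 ≤ C ∧ ∀ᶠ i in l, Q i ≤ C * B i

theorem Big.of_le (h : ∀ᶠ i in l, Q i ≤ B i) : Big l Q B :=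
  ⟨1, zero_le_one, h.mono fun i hi => by rwa [one_mul]⟩

theorem Big.of_le' (h : ∀ i, Q i ≤ B i) : Big l Q B := Big.of_le (Eventually.of_forall h)

theorem Big.refl : Big l Q Q := Big.of_le' fun _ => le_rfl

theorem Big.trans (h : Big l Q Q') (h' : Big l Q' B) : Big l Q B := by
  obtain ⟨C, c0, hC⟩ := h
  obtain ⟨D, d0, hD⟩ := h'
  refine ⟨C * D, by positivity, ?_⟩
  filter_upwards [hC, hD] with i a b
  nlinarith [mul_le_mul_of_nonneg_left b c0]

theorem Big.le_left (h : Big l Q' B) (h' : ∀ᶠ i in l, Q i ≤ Q' i) : Big l Q B :=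
  (Big.of_le h').trans h

theorem Big.le_right (h : Big l Q B) (h' : ∀ᶠ i in l, B i ≤ B' i) : Big l Q B' :=
  h.trans (Big.of_le h')

theorem Big.add (h : Big l Q B) (h' : Big l Q' B) : Big l (fun i => Q i + Q' i) B := by
  obtain ⟨C, c0, hC⟩ := h
  obtain ⟨D, d0, hD⟩ := h'
  refine ⟨C + D, by positivity, ?_⟩
  filter_upwards [hC, hD] with i a b
  linarith

theorem Big.cmul {c : ℝ} (hc : 0 ≤ c) (h : Big l Q B) : Big l (fun i => c * Q i) B := by
  obtain ⟨C, c0, hC⟩ := h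
  refine ⟨c * C, by positivity, hC.mono fun i a => ?_⟩
  nlinarith [mul_le_mul_of_nonneg_left a hc]

theorem Big.mul (h : Big l Q B) (h' : Big l Q' B') (h0 : ∀ i, 0 ≤ Q i) (h0' : ∀ i, 0 ≤ Q' i) :
    Big l (fun i => Q i * Q' i) fun i => B i * B' i := by
  obtain ⟨C, c0, hC⟩ := h
  obtain ⟨D, d0, hD⟩ := h'
  refine ⟨C * D, by positivity, ?_⟩
  filter_upwards [hC, hD] with i a b
  nlinarith [mul_le_mul a b (h0' i) ((h0 i).trans a)]

theorem Big.zero : Big l (fun _ => 0) B := ⟨0, le_rfl, Eventually.of_forall fun _ => by simp⟩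

theorem Big.sum {α : Type*} (s : Finset α) {R : α → ι → ℝ} (h : ∀ a ∈ s, Big l (R a) B) :
    Big l (fun i => ∑ a ∈ s, R a i) B := by
  classical
  induction s using Finset.induction_on with
  | empty => simpa using Big.zero
  | insert a s ha ih =>
    simp only [Finset.sum_insert ha]
    exact (h a (Finset.mem_insert_self _ _)).add
      (ih fun b hb => h b (Finset.mem_insert_of_mem hb))

/-- From a bound on the square by a product to a bound by the geometric mean. -/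
theorem Big.sqrt (h : Big l (fun i => Q i ^ 2) B) : Big l Q fun i => Real.sqrt (B i) := by
  obtain ⟨C, c0, hC⟩ := h
  refine ⟨Real.sqrt C, Real.sqrt_nonneg _, hC.mono fun i a => ?_⟩
  rw [← Real.sqrt_mul c0]
  exact Real.le_sqrt_of_sq_le a

theorem Big.absorb (h : Big l Q fun i => B i + Real.sqrt (B i * Q i)) (hB : ∀ i, 0 ≤ B i)
    (hQ : ∀ i, 0 ≤ Q i) : Big l Q B := by
  obtain ⟨C, c0, hC⟩ := h
  refine ⟨2 * C + C ^ 2, by positivity, hC.mono fun i a => ?_⟩
  have e := Real.sq_sqrt (mul_nonneg (hB i) (hQ i))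
  have b := hB i
  have q := hQ i
  simp only at a
  generalize Real.sqrt (B i * Q i) = s at *
  have : 2 * (C * s) ≤ C ^ 2 * B i + Q i := by
    refine le_of_sq_le_sq ?_ (by positivity) |> id
    nlinarith [sq_nonneg (C ^ 2 * B i - Q i)]
  nlinarith

end big

abbrev PP : Type := ℝ × ℝ
noncomputable abbrev d1 : SA PP →ₗ[ℝ] SA PP := D (1, 0)
noncomputable abbrev d2 : SA PP →ₗ[ℝ] SA PP := D (0, 1)

theorem d21 (f : SA PP) : d2 (d1 f) = d1 (d2 f) := D_comm _ _ f

/-- A smooth bounded domain given by a defining function. -/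
structure Dm where
  ρ : SA PP
  reg : ∀ x, ρ.1 x = 0 → fderiv ℝ ρ.1 x ≠ 0
  bdd : Bornology.IsBounded {x | ρ.1 x < 0}

namespace Dm
variable (Q : Dm)

theorem dom : Dom Q.ρ.1 := ⟨Q.ρ.cd 1, Q.reg, Q.bdd⟩

noncomputable def I : SA PP →ₗ[ℝ] ℝ where
  toFun := fun f => ∫ x in {x | Q.ρ.1 x < 0}, f.1 x
  map_add' := fun f g => integral_add (Q.dom.int f.ct) (Q.dom.int g.ct)
  map_smul' := fun c f => integral_const_mul c f.1

noncomputable def L1 (f : SA PP) : ℝ := ∫ x in {x | Q.ρ.1 x < 0}, |f.1 x|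

noncomputable def V : ℝ := volume.real {x | Q.ρ.1 x < 0}

theorem V_nonneg : 0 ≤ Q.V := measureReal_nonneg

def Z : Ideal (SA PP) where
  carrier := {f | ∀ x, Q.ρ.1 x < 0 → f.1 x = 0}
  add_mem' := fun {a b} ha hb x hx => by
    change a.1 x + b.1 x = 0
    rw [ha x hx, hb x hx, add_zero]
  zero_mem' := fun _ _ => rfl
  smul_mem' := fun c a ha x hx => by
    change c.1 x * a.1 x = 0
    rw [ha x hx, mul_zero]

def B : Ideal (SA PP) where
  carrier := {f | ∀ x, Q.ρ.1 x = 0 → f.1 x = 0}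
  add_mem' := fun {a b} ha hb x hx => by
    change a.1 x + b.1 x = 0
    rw [ha x hx, hb x hx, add_zero]
  zero_mem' := fun _ _ => rfl
  smul_mem' := fun c a ha x hx => by
    change c.1 x * a.1 x = 0
    rw [ha x hx, mul_zero]

variable {Q}

theorem Z_D {f : SA PP} (hf : f ∈ Q.Z) (e : PP) : D e f ∈ Q.Z := fun x hx =>
  (pd_zero_on_open e (Filter.mem_of_superset (Q.dom.isOpen.mem_nhds hx) hf)).self_of_nhds

theorem Z_le_B {f : SA PP} (hf : f ∈ Q.Z) : f ∈ Q.B := fun x hx =>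
  eq_zero_of_closure f.ct.continuousAt (mem_closure_neg hx (Q.reg x hx)) (Eventually.of_forall hf)

theorem ρ_mem : Q.ρ ∈ Q.B := fun _ hx => hx

theorem I_mono {f g : SA PP} (h : ∀ x, Q.ρ.1 x < 0 → f.1 x ≤ g.1 x) : Q.I f ≤ Q.I g :=
  setIntegral_mono_on (Q.dom.int f.ct) (Q.dom.int g.ct) Q.dom.meas h

theorem I_Z {f : SA PP} (hf : f ∈ Q.Z) : Q.I f = 0 :=
  setIntegral_eq_zero_of_forall_eq_zero hf

theorem I_D {f : SA PP} (hf : f ∈ Q.B) (e : PP) : Q.I (D e f) = 0 :=
  Q.dom.div_zero2 (f.cd 1) hf e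

theorem I_sq_nonneg (f : SA PP) : 0 ≤ Q.I (f * f) := by
  have := I_mono (Q := Q) (f := 0) (g := f * f) fun x _ => mul_self_nonneg (f.1 x)
  rwa [map_zero] at this

theorem I_two (f : SA PP) : Q.I (2 * f) = 2 * Q.I f := by rw [two_mul, map_add]; ring

theorem I_natCast (n : ℕ) (f : SA PP) : Q.I (n * f) = n * Q.I f := by
  rw [← nsmul_eq_mul, map_nsmul, nsmul_eq_mul]

theorem I_le_L1 (f : SA PP) : |Q.I f| ≤ Q.L1 f := abs_integral_le_integral_abs

theorem L1_nonneg (f : SA PP) : 0 ≤ Q.L1 f := integral_nonneg fun _ => abs_nonneg _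

theorem L1_add (f g : SA PP) : Q.L1 (f + g) ≤ Q.L1 f + Q.L1 g := by
  unfold L1
  rw [← integral_add (Q.dom.int f.ct.abs) (Q.dom.int g.ct.abs)]
  exact integral_mono (Q.dom.int (f + g).ct.abs) ((Q.dom.int f.ct.abs).add (Q.dom.int g.ct.abs))
    fun x => abs_add_le _ _

theorem L1_mul (f g : SA PP) : Q.L1 (f * g) ^ 2 ≤ Q.I (f * f) * Q.I (g * g) := by
  have key : ∀ s : ℝ, 0 ≤ Q.I (f * f) * (s * s) + (-2 * Q.L1 (f * g)) * s + Q.I (g * g) := by
    intro s
    have cf := f.ct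
    have cg := g.ct
    have h0 : 0 ≤ ∫ x in {x | Q.ρ.1 x < 0},
        (s * s * (f.1 x * f.1 x) + (-2 * s) * |f.1 x * g.1 x| + g.1 x * g.1 x) :=
      integral_nonneg fun x => by
        have := sq_nonneg (s * |f.1 x| - |g.1 x|)
        simp only [Pi.zero_apply, abs_mul]
        nlinarith [abs_mul_abs_self (f.1 x), abs_mul_abs_self (g.1 x)]
    rw [integral_add (Q.dom.int (by fun_prop)) (Q.dom.int (by fun_prop)),
      integral_add (Q.dom.int (by fun_prop)) (Q.dom.int (by fun_prop)), integral_const_mul,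
      integral_const_mul] at h0
    change 0 ≤ s * s * Q.I (f * f) + -2 * s * Q.L1 (f * g) + Q.I (g * g) at h0
    linarith
  have := discrim_le_zero key
  unfold discrim at this
  nlinarith

theorem I_mul_sq (f g : SA PP) : Q.I (f * g) ^ 2 ≤ Q.I (f * f) * Q.I (g * g) := by
  refine le_trans ?_ (L1_mul f g)
  rw [← sq_abs]
  exact pow_le_pow_left₀ (abs_nonneg _) (I_le_L1 _) 2

variable (Q) in
/-- Squared Sobolev norms. -/
noncomputable def S : ℕ → SA PP → ℝ
  | 0, f => Q.I (f * f)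
  | k + 1, f => Q.I (f * f) + S k (d1 f) + S k (d2 f)

theorem S_nonneg (k : ℕ) : ∀ f, 0 ≤ Q.S k f := by
  induction k with
  | zero => exact I_sq_nonneg
  | succ k ih => exact fun f => add_nonneg (add_nonneg (I_sq_nonneg f) (ih _)) (ih _)

theorem S_d1 (k : ℕ) (f : SA PP) : Q.S k (d1 f) ≤ Q.S (k + 1) f := by
  simp only [S]; linarith [I_sq_nonneg (Q := Q) f, S_nonneg (Q := Q) k (d2 f)]

theorem S_d2 (k : ℕ) (f : SA PP) : Q.S k (d2 f) ≤ Q.S (k + 1) f := by
  simp only [S]; linarith [I_sq_nonneg (Q := Q) f, S_nonneg (Q := Q) k (d1 f)]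

theorem S_succ (k : ℕ) : ∀ f, Q.S k f ≤ Q.S (k + 1) f := by
  induction k with
  | zero => intro f; simp only [S]; linarith [I_sq_nonneg (Q := Q) (d1 f),
      I_sq_nonneg (Q := Q) (d2 f)]
  | succ k ih =>
    intro f
    have a := ih (d1 f)
    have b := ih (d2 f)
    simp only [S] at a b ⊢
    linarith

theorem S_mono {k m : ℕ} (h : k ≤ m) (f : SA PP) : Q.S k f ≤ Q.S m f := by
  induction h with
  | refl => exact le_rfl
  | step _ ih => exact ih.trans (S_succ _ f)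

theorem S_neg (k : ℕ) : ∀ f, Q.S k (-f) = Q.S k f := by
  induction k with
  | zero => intro f; simp [S]
  | succ k ih => intro f; simp [S, ih]

theorem S_add (k : ℕ) : ∀ f g, Q.S k (f + g) ≤ 2 * Q.S k f + 2 * Q.S k g := by
  have h0 : ∀ f g : SA PP, Q.I ((f + g) * (f + g)) ≤ 2 * Q.I (f * f) + 2 * Q.I (g * g) := by
    intro f g
    have := I_sq_nonneg (Q := Q) (f - g)
    have e : (f + g) * (f + g) + (f - g) * (f - g) = 2 * (f * f) + 2 * (g * g) := by ring
    have e2 := congrArg Q.I e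
    rw [map_add, map_add, I_two, I_two] at e2
    linarith
  induction k with
  | zero => exact h0
  | succ k ih =>
    intro f g
    simp only [S, map_add]
    linarith [h0 f g, ih (d1 f) (d1 g), ih (d2 f) (d2 g)]

theorem S_congr (k : ℕ) : ∀ {f g : SA PP}, f - g ∈ Q.Z → Q.S k f = Q.S k g := by
  have h0 : ∀ {f g : SA PP}, f - g ∈ Q.Z → Q.I (f * f) = Q.I (g * g) := fun {f g} h => by
    have := I_Z (Q.Z.mul_mem_left (f + g) h)
    rw [show (f + g) * (f - g) = f * f - g * g by ring, map_sub] at this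
    linarith
  induction k with
  | zero => exact h0
  | succ k ih =>
    intro f g h
    simp only [S]
    rw [h0 h, ih (by rw [← map_sub]; exact Z_D h _), ih (f := d2 f) (g := d2 g)
      (by rw [← map_sub]; exact Z_D h _)]

theorem S0_mul_le {a : SA PP} {C : ℝ} (h : ∀ x, Q.ρ.1 x < 0 → a.1 x ^ 2 ≤ C) (f : SA PP) :
    Q.S 0 (a * f) ≤ C * Q.S 0 f := by
  simp only [S]
  rw [← smul_eq_mul C, ← map_smul]
  refine I_mono fun x hx => ?_
  change a.1 x * f.1 x * (a.1 x * f.1 x) ≤ C * (f.1 x * f.1 x)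
  nlinarith [mul_le_mul_of_nonneg_right (h x hx) (mul_self_nonneg (f.1 x))]

theorem S_mul_fix (k : ℕ) : ∀ a : SA PP, ∃ C, 0 ≤ C ∧ ∀ f, Q.S k (a * f) ≤ C * Q.S k f := by
  have h0 : ∀ a : SA PP, ∃ C, 0 ≤ C ∧ ∀ f, Q.S 0 (a * f) ≤ C * Q.S 0 f := fun a => by
    obtain ⟨C, c0, hC⟩ := Q.dom.bound (a.ct.pow 2)
    exact ⟨C, c0, S0_mul_le fun x hx => (le_abs_self _).trans (hC x hx)⟩
  induction k with
  | zero => exact h0
  | succ k ih =>
    intro a
    obtain ⟨C0, c0, H0⟩ := h0 a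
    obtain ⟨C, c, H⟩ := ih a
    obtain ⟨C1, c1, H1⟩ := ih (d1 a)
    obtain ⟨C2, c2, H2⟩ := ih (d2 a)
    refine ⟨C0 + 2 * C1 + 2 * C2 + 4 * C, by positivity, fun f => ?_⟩
    have e : Q.S (k + 1) (a * f) = Q.S 0 (a * f) + Q.S k (d1 a * f + a * d1 f)
      + Q.S k (d2 a * f + a * d2 f) := by simp only [S, D_mul]
    have s0 := S_mono (Q := Q) (Nat.zero_le (k + 1)) f
    have s1 := S_succ (Q := Q) k f
    have s2 := S_d1 (Q := Q) k f
    have s3 := S_d2 (Q := Q) k f
    rw [e]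
    nlinarith [H0 f, H1 f, H2 f, H (d1 f), H (d2 f), S_add (Q := Q) k (d1 a * f) (a * d1 f),
      S_add (Q := Q) k (d2 a * f) (a * d2 f), mul_le_mul_of_nonneg_left s0 c0,
      mul_le_mul_of_nonneg_left s1 c1, mul_le_mul_of_nonneg_left s1 c2,
      mul_le_mul_of_nonneg_left s2 c, mul_le_mul_of_nonneg_left s3 c]

end Dm

section ctl
variable {ι : Type*} {l : Filter ι} {Q : Dm} {k : ℕ} {F G : ι → SA PP} {B : ι → ℝ}

def Ctl (Q : Dm) (l : Filter ι) (k : ℕ) (F : ι → SA PP) (B : ι → ℝ) : Prop :=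
  Big l (fun i => Q.S k (F i)) B

theorem Ctl.add (h : Ctl Q l k F B) (h' : Ctl Q l k G B) : Ctl Q l k (fun i => F i + G i) B :=
  ((Big.cmul zero_le_two h).add (Big.cmul zero_le_two h')).le_left
    (Eventually.of_forall fun _ => Dm.S_add _ _ _)

theorem Ctl.neg (h : Ctl Q l k F B) : Ctl Q l k (fun i => -F i) B := by
  unfold Ctl; simp only [Dm.S_neg]; exact h

theorem Ctl.sub (h : Ctl Q l k F B) (h' : Ctl Q l k G B) : Ctl Q l k (fun i => F i - G i) B := by
  simp only [sub_eq_add_neg]; exact h.add h'.neg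

theorem Ctl.fix (a : SA PP) (h : Ctl Q l k F B) : Ctl Q l k (fun i => a * F i) B := by
  obtain ⟨C, c, H⟩ := Dm.S_mul_fix (Q := Q) k a
  exact (Big.cmul c h).le_left (Eventually.of_forall fun _ => H _)

theorem Ctl.d1 (h : Ctl Q l (k + 1) F B) : Ctl Q l k (fun i => d1 (F i)) B :=
  h.le_left (Eventually.of_forall fun _ => Dm.S_d1 _ _)

theorem Ctl.d2 (h : Ctl Q l (k + 1) F B) : Ctl Q l k (fun i => d2 (F i)) B :=
  h.le_left (Eventually.of_forall fun _ => Dm.S_d2 _ _)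

theorem Ctl.mono {m : ℕ} (h : Ctl Q l m F B) (hk : k ≤ m) : Ctl Q l k F B :=
  h.le_left (Eventually.of_forall fun _ => Dm.S_mono hk _)

theorem Ctl.pred (h : Ctl Q l (k + 1) F B) : Ctl Q l k F B := h.mono (Nat.le_succ k)

theorem Ctl.congr (h : Ctl Q l k G B) (hz : ∀ᶠ i in l, F i - G i ∈ Q.Z) : Ctl Q l k F B :=
  h.le_left (hz.mono fun _ hi => (Dm.S_congr k hi).le)

theorem Ctl.eq (h : Ctl Q l k G B) (he : ∀ i, F i = G i) : Ctl Q l k F B := by
  rw [show F = G from funext he]; exact h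

theorem Ctl.succ (h0 : Ctl Q l k F B) (h1 : Ctl Q l k (fun i => H64.d1 (F i)) B)
    (h2 : Ctl Q l k (fun i => H64.d2 (F i)) B) : Ctl Q l (k + 1) F B :=
  Big.add (Big.add (h0.mono (Nat.zero_le k)) h1) h2

theorem Ctl.const (a : SA PP) (hB : ∀ i, 1 ≤ B i) : Ctl Q l k (fun _ => a) B :=
  ⟨Q.S k a, Dm.S_nonneg _ _, Eventually.of_forall fun i =>
    le_mul_of_one_le_right (Dm.S_nonneg _ _) (hB i)⟩

theorem Ctl.zero : Ctl Q l k (fun _ => 0) B := by
  have : Q.S k 0 = 0 := by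
    induction k with
    | zero => simp [Dm.S]
    | succ k ih => simp [Dm.S, ih]
  unfold Ctl; simp only [this]; exact Big.zero

theorem Ctl.sum {α : Type*} (s : Finset α) {R : α → ι → SA PP} (h : ∀ a ∈ s, Ctl Q l k (R a) B) :
    Ctl Q l k (fun i => ∑ a ∈ s, R a i) B := by
  classical
  induction s using Finset.induction_on with
  | empty => simpa using Ctl.zero
  | insert a s ha ih =>
    simp only [Finset.sum_insert ha]
    exact (h a (Finset.mem_insert_self _ _)).add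
      (ih fun b hb => h b (Finset.mem_insert_of_mem hb))

theorem Ctl.mix {B' : ι → ℝ} (h : Ctl Q l 0 F B) (h' : Ctl Q l 0 G B') :
    Big l (fun i => |Q.I (F i * G i)|) fun i => Real.sqrt (B i * B' i) :=
  Big.sqrt ((Big.mul h h' (fun _ => Dm.S_nonneg _ _) fun _ => Dm.S_nonneg _ _).le_left
    (Eventually.of_forall fun i => by rw [sq_abs]; exact Dm.I_mul_sq _ _))

end ctl

end Pool.Agent.MP_ed9623_an.H64
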