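import Pool.Agent.MP_ed9623_an.H64.Time1

open Filter Topology MeasureTheory Set
open scoped ContDiff NNReal ENNReal Nat

namespace Pool.Agent.MP_ed9623_an.H64

section words
variable {E : Type*} [NormedAddCommGroup E] [NormedSpace ℝ E] (d : Bool → E)

noncomputable def DL : List Bool → SA E →ₗ[ℝ] SA E
  | [] => LinearMap.id
  | b :: l => DL l ∘ₗ D (d b)

theorem DL_nil (f : SA E) : DL d [] f = f := rfl
theorem DL_cons (b : Bool) (l : List Bool) (f : SA E) : DL d (b :: l) f = DL d l (D (d b) f) := rfl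

theorem DL_comm (e : E) (l : List Bool) : ∀ f, D e (DL d l f) = DL d l (D e f) := by
  induction l with
  | nil => exact fun _ => rfl
  | cons b l ih => intro f; rw [DL_cons, DL_cons, ih, D_comm]

theorem DL_cons' (b : Bool) (l : List Bool) (f : SA E) : DL d (b :: l) f = D (d b) (DL d l f) :=
  (DL_comm d _ l f).symm

def splits : List Bool → List (List Bool × List Bool)
  | [] => [([], [])]
  | b :: l => (splits l).map (fun p => (p.1, b :: p.2)) ++ (splits l).map fun p => (b :: p.1, p.2)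

theorem DL_mul (l : List Bool) : ∀ f g : SA E,
    DL d l (f * g) = ((splits l).map fun p => DL d p.1 f * DL d p.2 g).sum := by
  induction l with
  | nil => intro f g; simp [splits, DL_nil]
  | cons b l ih =>
    intro f g
    rw [DL_cons, D_mul, map_add, ih, ih, add_comm]
    simp [splits, Function.comp_def, DL_cons]

theorem splits_len (l : List Bool) : ∀ p ∈ splits l, p.1.length + p.2.length = l.length := by
  induction l with
  | nil => simp [splits]
  | cons b l ih =>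
    intro p hp
    simp only [splits, List.mem_append, List.mem_map] at hp
    rcases hp with ⟨q, hq, rfl⟩ | ⟨q, hq, rfl⟩ <;> have := ih q hq <;> simp <;> omega

theorem splits_nil (l : List Bool) : ∀ p ∈ splits l, (p.1 = [] → p.2 = l) ∧ (p.2 = [] → p.1 = l) := by
  induction l with
  | nil => simp [splits]
  | cons b l ih =>
    intro p hp
    simp only [splits, List.mem_append, List.mem_map] at hp
    rcases hp with ⟨q, hq, rfl⟩ | ⟨q, hq, rfl⟩ <;> have := ih q hq <;> simp <;> tauto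

theorem sum_splits (l : List Bool) : ∀ F : ℕ → ℕ → ℝ,
    ((splits l).map fun p => F p.1.length p.2.length).sum
      = ∑ q ∈ Finset.HasAntidiagonal.antidiagonal l.length, (l.length.choose q.1 : ℝ) * F q.1 q.2 := by
  induction l with
  | nil => simp [splits]
  | cons b l ih =>
    intro F
    rw [List.length_cons, Finset.sum_antidiagonal_choose_succ_mul, ← ih fun a b => F a (b + 1),
      Finset.sum_congr rfl fun q hq => by rw [← Nat.choose_symm_of_eq_add
        (Finset.HasAntidiagonal.mem_antidiagonal.1 hq).symm], ← ih fun a b => F (a + 1) b]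
    simp [splits, Function.comp_def]

theorem DL_le (hd : ∀ b, ‖d b‖ ≤ 1) (x : E) (l : List Bool) :
    ∀ f : SA E, |(DL d l f).1 x| ≤ ‖iteratedFDeriv ℝ l.length f.1 x‖ := by
  induction l with
  | nil => intro f; simp [DL_nil]
  | cons b l ih =>
    intro f
    rw [List.length_cons, ← norm_iteratedFDeriv_fderiv]
    refine (ih _).trans ((norm_iteratedFDeriv_clm_apply_const (N := l.length) (f := fderiv ℝ f.1)
      ((f.cd (l.length + 1)).contDiffAt.fderiv_right (by push_cast; exact le_rfl)) le_rfl).trans ?_)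
    exact mul_le_of_le_one_left (norm_nonneg _) (hd b)

theorem co_bound (p : FormalMultilinearSeries ℝ E ℝ) (r : ℝ≥0) (h : (r + r : ℝ≥0∞) < p.radius) :
    ∃ T : ℝ≥0, ∀ (n : ℕ) (z : E), ‖z‖₊ ≤ r → ‖p.changeOrigin z n‖₊ * r ^ n ≤ T := by
  obtain ⟨s1, s2⟩ := NNReal.summable_sigma.1 (p.changeOriginSeries_summable_aux₁ h)
  refine ⟨_, fun n z hz => le_trans ?_ (s2.le_tsum n fun _ _ => zero_le)⟩
  have hy2 : (‖z‖₊ : ℝ≥0∞) < p.radius := lt_of_le_of_lt ((ENNReal.coe_le_coe.2 hz).trans le_self_add) h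
  refine (mul_le_mul_left (p.nnnorm_changeOrigin_le n hy2) _).trans ?_
  rw [← NNReal.tsum_mul_right]
  have le : ∀ s : Σ l : ℕ, { s : Finset (Fin (n + l)) // s.card = l },
        ‖p (n + s.1)‖₊ * ‖z‖₊ ^ s.1 * r ^ n ≤ ‖p (n + s.1)‖₊ * r ^ s.1 * r ^ n := fun s => by
      gcongr
  exact Summable.tsum_le_tsum le (NNReal.summable_of_le le (s1 n)) (s1 n)

theorem bounds_of_analytic {f : E → ℝ} {x : E} (h : AnalyticAt ℝ f x) : ∃ C R : ℝ, 0 ≤ C ∧ 1 ≤ R ∧
    ∀ᶠ y in 𝓝 x, ∀ n, ‖iteratedFDeriv ℝ n f y‖ ≤ C * R ^ n * n ! := by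
  obtain ⟨p, r0, hp⟩ := h
  obtain ⟨r1, h1, h2⟩ := ENNReal.lt_iff_exists_nnreal_btwn.1 hp.r_pos
  have h1' : 0 < r1 := by exact_mod_cast h1
  obtain ⟨r, hr⟩ : ∃ r : ℝ≥0, r = r1 / 2 := ⟨_, rfl⟩
  have r0' : 0 < r := by rw [hr]; positivity
  have h3 : (r + r : ℝ≥0∞) < r0 := by
    rw [← ENNReal.coe_add, hr, add_halves]; exact h2
  obtain ⟨T, hT⟩ := co_bound p r (h3.trans_le hp.r_le)
  refine ⟨T, max 1 (r : ℝ)⁻¹, NNReal.coe_nonneg _, le_max_left _ _, ?_⟩
  filter_upwards [Metric.ball_mem_nhds x (show (0 : ℝ) < r from r0')] with y hy n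
  have hy' : ‖y - x‖₊ ≤ r := by
    rw [Metric.mem_ball, dist_eq_norm] at hy
    exact hy.le
  have hy2 : (‖y - x‖₊ : ℝ≥0∞) < r0 := lt_of_le_of_lt ((ENNReal.coe_le_coe.2 hy').trans le_self_add) h3
  have q := hp.changeOrigin hy2
  rw [add_sub_cancel] at q
  have b2 : ‖p.changeOrigin (y - x) n‖ * (r : ℝ) ^ n ≤ T := by exact_mod_cast hT n _ hy'
  have b3 : (r : ℝ)⁻¹ ^ n ≤ max 1 (r : ℝ)⁻¹ ^ n := pow_le_pow_left₀ (by positivity) (le_max_right _ _) n
  have b4 : ‖p.changeOrigin (y - x) n‖ ≤ T * max 1 (r : ℝ)⁻¹ ^ n := by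
    rw [← le_div_iff₀ (by positivity), div_eq_mul_inv, ← inv_pow] at b2
    exact b2.trans (mul_le_mul_of_nonneg_left b3 (NNReal.coe_nonneg _))
  generalize p.changeOrigin (y - x) = P at q b4
  refine ContinuousMultilinearMap.opNorm_le_bound (by positivity) fun v => ?_
  rw [q.iteratedFDeriv_eq_sum_of_completeSpace]
  have k : ∀ σ : Equiv.Perm (Fin n), ‖P n fun i => v (σ i)‖ ≤ ‖P n‖ * ∏ i, ‖v i‖ := fun σ => by
    rw [← Equiv.prod_comp σ]
    exact ContinuousMultilinearMap.le_opNorm _ _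
  refine (norm_sum_le_of_le _ fun σ _ => k σ).trans ?_
  rw [Finset.sum_const, Finset.card_univ, Fintype.card_perm, Fintype.card_fin, nsmul_eq_mul,
      ← mul_assoc, mul_comm (n ! : ℝ)]
  exact mul_le_mul_of_nonneg_right (mul_le_mul_of_nonneg_right b4 (by positivity))
      (by positivity)

theorem taylor_fam (n : ℕ) : ∀ (F : ℕ → ℝ → ℝ) (C : ℝ), (∀ k s, HasDerivAt (F k) (F (k + 1) s) s) →
    (∀ s ∈ Icc (0 : ℝ) 1, |F n s| ≤ C) → ∀ s ∈ Icc (0 : ℝ) 1,
      |F 0 s - ∑ j ∈ Finset.range n, s ^ j / j ! * F j 0| ≤ C * (s ^ n / n !) := by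
  induction n with
  | zero => intro F C _ h s hs; simpa using h s hs
  | succ n ih =>
    intro F C hF h s hs
    have a := ih (fun k => F (k + 1)) C (fun k => hF (k + 1)) h
    have pw : ∀ (j : ℕ) (s : ℝ), HasDerivAt (fun s : ℝ => s ^ (j + 1) / (j + 1)!) (s ^ j / j !) s :=
      fun j s => ((hasDerivAt_pow (j + 1) s).div_const _).congr_deriv (by
        rw [Nat.factorial_succ]; push_cast; field_simp)
    have b := image_norm_le_of_norm_deriv_right_le_deriv_boundary (a := 0) (b := 1)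
      (f := fun s => F 0 s - F 0 0 - ∑ j ∈ Finset.range n, s ^ (j + 1) / (j + 1)! * F (j + 1) 0)
      (f' := fun s => F 1 s - ∑ j ∈ Finset.range n, s ^ j / j ! * F (j + 1) 0)
      (B := fun s => C * (s ^ (n + 1) / (n + 1)!)) (B' := fun s => C * (s ^ n / n !))
      (fun s _ => (((hF 0 s).sub_const _).fun_sub (HasDerivAt.fun_sum fun j _ =>
        (pw j s).mul_const _)).continuousAt.continuousWithinAt)
      (fun s _ => (((hF 0 s).sub_const _).fun_sub (HasDerivAt.fun_sum fun j _ =>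
        (pw j s).mul_const _)).hasDerivWithinAt) (by simp) (fun s => (pw n s).const_mul C)
      (fun s hs => a s (Ico_subset_Icc_self hs)) hs
    rw [Finset.sum_range_succ']
    convert b using 2
    simp
    ring

theorem analytic_of_bounds {f : E → ℝ} (hf : ContDiff ℝ ∞ f) {x : E} {C R : ℝ} (hR : 0 < R)
    (h : ∀ᶠ y in 𝓝 x, ∀ n, ‖iteratedFDeriv ℝ n f y‖ ≤ C * R ^ n * n !) : AnalyticAt ℝ f x := by
  obtain ⟨ε, e0, he⟩ := Metric.eventually_nhds_iff_ball.1 h
  obtain ⟨r, hr⟩ : ∃ r : ℝ≥0, (r : ℝ) = min ε R⁻¹ := ⟨⟨_, by positivity⟩, rfl⟩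
  have r0 : (0 : ℝ) < r := by rw [hr]; positivity
  have r1 : R * r ≤ 1 := by
    rw [hr]; exact (mul_le_mul_of_nonneg_left (min_le_right _ _) hR.le).trans_eq (by field_simp)
  let p : FormalMultilinearSeries ℝ E ℝ := fun n => (n ! : ℝ)⁻¹ • iteratedFDeriv ℝ n f x
  have c0 : 0 ≤ C := by simpa using (norm_nonneg _).trans (he x (Metric.mem_ball_self e0) 0)
  have hp : (r : ℝ≥0∞) ≤ p.radius := p.le_radius_of_bound C fun n => by
    have := he x (Metric.mem_ball_self e0) n
    rw [norm_smul, norm_inv, Real.norm_natCast, ← div_eq_inv_mul]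
    rw [← div_le_iff₀ (by positivity)] at this
    refine (mul_le_mul_of_nonneg_right this (by positivity)).trans ?_
    rw [mul_assoc, ← mul_pow]
    exact mul_le_of_le_one_right c0 (pow_le_one₀ (by positivity) r1)
  refine ⟨p, r, hp, by exact_mod_cast r0, fun {y} hy => ?_⟩
  have hy' : ‖y‖ < r := by simpa [enorm, ← NNReal.coe_lt_coe] using hy
  refine ((p.summable (Metric.eball_subset_eball hp hy)).hasSum_iff_tendsto_nat).2 ?_
  have hF : ∀ (k : ℕ) (s : ℝ), HasDerivAt (fun s : ℝ => iteratedFDeriv ℝ k f (x + s • y) fun _ => y)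
      (iteratedFDeriv ℝ (k + 1) f (x + s • y) fun _ => y) s := fun k s => by
    have a : HasDerivAt (fun r : ℝ => x + r • y) y s := by
      simpa using ((hasDerivAt_id s).smul_const y).const_add x
    have b := ((hf.differentiable_iteratedFDeriv (m := k) (by exact_mod_cast ENat.coe_lt_top k))
      (x + s • y)).hasFDerivAt.comp_hasDerivAt s a
    exact ((ContinuousMultilinearMap.apply ℝ (fun _ : Fin k => E) ℝ fun _ => y).hasFDerivAt).comp_hasDerivAt s b
  have key : ∀ n, ‖∑ i ∈ Finset.range n, (p i fun _ => y) - f (x + y)‖ ≤ C * (R * ‖y‖) ^ n := by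
    intro n
    have := taylor_fam n (fun k s => iteratedFDeriv ℝ k f (x + s • y) fun _ : Fin k => y)
      (C * R ^ n * n ! * ‖y‖ ^ n) hF (fun s hs => by
      refine ((iteratedFDeriv ℝ n f (x + s • y)).le_opNorm fun _ => y).trans ?_
      rw [Finset.prod_const, Finset.card_univ, Fintype.card_fin]
      refine mul_le_mul_of_nonneg_right (he _ ?_ n) (by positivity)
      rw [Metric.mem_ball, dist_eq_norm, add_sub_cancel_left, norm_smul, Real.norm_of_nonneg hs.1]
      nlinarith [hs.2, norm_nonneg y, min_le_left ε R⁻¹]) 1 ⟨zero_le_one, le_rfl⟩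
    rw [norm_sub_rev]
    convert this using 1
    · simp [p]
    · rw [mul_pow, one_pow]; field_simp
  rw [tendsto_iff_norm_sub_tendsto_zero]
  refine squeeze_zero (fun _ => norm_nonneg _) key ?_
  simpa using (tendsto_pow_atTop_nhds_zero_of_lt_one (by positivity : 0 ≤ R * ‖y‖)
    ((mul_lt_mul_of_pos_left hy' hR).trans_le r1)).const_mul C

end words

def dP (b : Bool) : PP := if b then (1, 0) else (0, 1)
def dS (b : Bool) : ST := (0, dP b)

theorem sl_DL (t : ℝ) (l : List Bool) : ∀ f, sl t (DL dS l f) = DL dP l (sl t f) := by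
  induction l with
  | nil => exact fun _ => rfl
  | cons b l ih => intro f; rw [DL_cons, DL_cons, ih, dS, sl_D]

theorem le_DL : ∃ K : ℝ, 1 ≤ K ∧ ∀ (x : PP) (n : ℕ) (f : SA PP) (M : ℝ), (∀ l : List Bool,
    l.length = n → |(DL dP l f).1 x| ≤ M) → ‖iteratedFDeriv ℝ n f.1 x‖ ≤ K ^ n * M := by
  let L1 := ContinuousLinearMap.toSpanSingleton ℝ (ContinuousLinearMap.fst ℝ ℝ ℝ)
  let L2 := ContinuousLinearMap.toSpanSingleton ℝ (ContinuousLinearMap.snd ℝ ℝ ℝ)
  refine ⟨1 + ‖L1‖ + ‖L2‖, by linarith [norm_nonneg L1, norm_nonneg L2], fun x n => ?_⟩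
  induction n with
  | zero => intro f M h; simpa [DL_nil] using h [] rfl
  | succ n ih =>
    intro f M h
    have a1 := ih (d1 f) M fun l hl => h (true :: l) (by simp [hl])
    have a2 := ih (d2 f) M fun l hl => h (false :: l) (by simp [hl])
    have e : fderiv ℝ f.1 = L1 ∘ (d1 f).1 + L2 ∘ (d2 f).1 := by
      funext z
      refine ContinuousLinearMap.ext fun v => ?_
      have : v = v.1 • ((1, 0) : PP) + v.2 • ((0, 1) : PP) := by ext <;> simp
      conv_lhs => rw [this]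
      simp [L1, L2, D_val, pd, mul_comm, -Prod.smul_mk, -Prod.mk_add_mk]
    have c1 := (L1.contDiff.comp ((d1 f).cd n)).contDiffAt (x := x)
    have c2 := (L2.contDiff.comp ((d2 f).cd n)).contDiffAt (x := x)
    rw [← norm_iteratedFDeriv_fderiv, e, iteratedFDeriv_add_apply c1 c2]
    have b1 := (L1.norm_iteratedFDeriv_comp_left ((d1 f).cd n).contDiffAt le_rfl).trans
        (mul_le_mul_of_nonneg_left a1 (norm_nonneg _))
    have b2 := (L2.norm_iteratedFDeriv_comp_left ((d2 f).cd n).contDiffAt le_rfl).trans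
        (mul_le_mul_of_nonneg_left a2 (norm_nonneg _))
    refine (norm_add_le_of_le b1 b2).trans ?_
    rw [pow_succ]
    nlinarith [(norm_nonneg _).trans a1]

/-- Majorant sequence. -/
noncomputable def mj (R : ℝ) (k : ℕ) : ℝ := R ^ k * k ! * catalan (k - 1)

theorem catalan_mono (n : ℕ) : 1 ≤ catalan n ∧ catalan n ≤ catalan (n + 1) := by
  have : ∀ n, catalan n ≤ catalan (n + 1) := fun n => by
    rw [catalan_succ']
    simpa using Finset.single_le_sum (f := fun ij : ℕ × ℕ => catalan ij.1 * catalan ij.2)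
      (fun _ _ => Nat.zero_le _) (Finset.HasAntidiagonal.mem_antidiagonal.2 (zero_add n) : (0, n) ∈ _)
  exact ⟨by simpa using monotone_nat_of_le_succ this (Nat.zero_le n), this n⟩

variable {R : ℝ}

theorem mj_zero : mj R 0 = 1 := by simp [mj]

theorem mj_pos (hR : 0 < R) (k : ℕ) : 0 < mj R k := by
  have := (catalan_mono (k - 1)).1
  unfold mj; positivity

theorem mj_succ (hR : 0 < R) (k : ℕ) : R * ((k + 1) * mj R k) ≤ mj R (k + 1) := by
  have : (catalan (k - 1) : ℝ) ≤ catalan k := by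
    rcases k with _ | k
    · rfl
    · exact_mod_cast (catalan_mono k).2
  unfold mj
  rw [Nat.factorial_succ, pow_succ, Nat.add_sub_cancel]
  push_cast
  calc _ = R ^ k * R * ((k + 1) * k !) * (catalan (k - 1) : ℝ) := by ring
    _ ≤ _ := by gcongr

theorem mj_ge (hR : 0 < R) (k : ℕ) : R ^ k * k ! ≤ mj R k :=
  le_mul_of_one_le_right (by positivity) (by exact_mod_cast (catalan_mono _).1)

theorem mj_le (hR : 0 < R) (k : ℕ) : mj R k ≤ (4 * R) ^ k * k ! := by
  have : (catalan (k - 1) : ℝ) ≤ 4 ^ k := by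
    rw [catalan_eq_centralBinom_div]
    exact_mod_cast (Nat.div_le_self _ _).trans ((Nat.centralBinom_le_four_pow _).trans
      (Nat.pow_le_pow_right (by norm_num) (Nat.sub_le _ _)))
  unfold mj
  rw [mul_pow]
  calc _ ≤ R ^ k * k ! * (4 : ℝ) ^ k := by gcongr
    _ = _ := by ring

theorem mj_conv (hR : 0 < R) (k : ℕ) : ∑ q ∈ Finset.HasAntidiagonal.antidiagonal (k + 1),
    ((k + 1).choose q.1 : ℝ) * (mj R q.1 * mj R q.2) ≤ 3 * mj R (k + 1) := by
  have e : ∀ q ∈ Finset.HasAntidiagonal.antidiagonal (k + 1), ((k + 1).choose q.1 : ℝ)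
      * (mj R q.1 * mj R q.2) = R ^ (k + 1) * (k + 1)!
        * (catalan (q.1 - 1) * catalan (q.2 - 1) : ℕ) := fun q hq => by
    have h := Finset.HasAntidiagonal.mem_antidiagonal.1 hq
    rw [← h, ← Nat.add_choose_mul_factorial_mul_factorial, Nat.choose_symm_add, pow_add]
    unfold mj
    push_cast
    ring
  rw [Finset.sum_congr rfl e, ← Finset.mul_sum, ← Nat.cast_sum, mj, mul_left_comm]
  refine mul_le_mul_of_nonneg_left ?_ (by positivity)
  norm_cast
  rw [Finset.Nat.sum_antidiagonal_succ]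
  rcases k with _ | k
  · simp
  · rw [Finset.Nat.sum_antidiagonal_succ']
    simp only [Nat.add_sub_cancel, ← catalan_succ', zero_add, Nat.zero_sub, catalan_zero]
    omega

/-- `f` has an integral over `[0, t]`, `t ≤ τ`, at most `c`. -/
def IB (τ : ℝ) (f : ℝ → ℝ) (c : ℝ) : Prop := ∃ Φ u : ℝ → ℝ, (∀ t, HasDerivAt Φ (u t) t) ∧ Φ 0 = 0 ∧
  ∀ t ∈ Icc 0 τ, f t ≤ u t ∧ 0 ≤ u t ∧ Φ t ≤ c

variable {τ c c' : ℝ} {f g : ℝ → ℝ}

theorem IB.const (hτ : τ ≤ 1) (hc : 0 ≤ c) : IB τ (fun _ => c) c :=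
  ⟨fun t => c * t, fun _ => c, fun t => by simpa using (hasDerivAt_id t).const_mul c, mul_zero c,
    fun t ht => ⟨le_rfl, hc, mul_le_of_le_one_right hc (ht.2.trans hτ)⟩⟩

theorem IB.mono (h : IB τ f c) (hg : ∀ t ∈ Icc 0 τ, g t ≤ f t) (hc : c ≤ c') : IB τ g c' := by
  obtain ⟨Φ, u, a, b, h⟩ := h
  exact ⟨Φ, u, a, b, fun t ht => ⟨(hg t ht).trans (h t ht).1, (h t ht).2.1, (h t ht).2.2.trans hc⟩⟩

theorem IB.add (h : IB τ f c) (h' : IB τ g c') : IB τ (fun t => f t + g t) (c + c') := by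
  obtain ⟨Φ, u, a, b, h⟩ := h
  obtain ⟨Ψ, v, a', b', h'⟩ := h'
  exact ⟨fun t => Φ t + Ψ t, _, fun t => (a t).add (a' t), by simp [b, b'], fun t ht =>
    ⟨add_le_add (h t ht).1 (h' t ht).1, add_nonneg (h t ht).2.1 (h' t ht).2.1,
      add_le_add (h t ht).2.2 (h' t ht).2.2⟩⟩

theorem IB.cmul (h : IB τ f c) (k : ℝ) (hk : 0 ≤ k) : IB τ (fun t => k * f t) (k * c) := by
  obtain ⟨Φ, u, a, b, h⟩ := h
  exact ⟨fun t => k * Φ t, _, fun t => (a t).const_mul k, by simp [b], fun t ht =>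
    ⟨mul_le_mul_of_nonneg_left (h t ht).1 hk, mul_nonneg hk (h t ht).2.1,
      mul_le_mul_of_nonneg_left (h t ht).2.2 hk⟩⟩

theorem IB.sum {α : Type*} (hτ : τ ≤ 1) (L : List α) {F : α → ℝ → ℝ} {C : α → ℝ}
    (h : ∀ a ∈ L, IB τ (F a) (C a)) : IB τ (fun t => (L.map fun a => F a t).sum) (L.map C).sum := by
  induction L with
  | nil => simpa using IB.const hτ le_rfl
  | cons a L ih =>
    simpa using (h a List.mem_cons_self).add (ih fun b hb => h b (List.mem_cons_of_mem _ hb))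

theorem IB.gron (hτ : τ ≤ 1) {K : ℝ} (hK : 0 ≤ K) {Y Y' H L : ℝ → ℝ} (hL : IB τ L c)
    (hY : ∀ t, HasDerivAt Y (Y' t) t) (h0 : Y 0 = 0) (Y0 : ∀ t, 0 ≤ Y t) (H0 : ∀ t, 0 ≤ H t)
    (h : ∀ t ∈ Icc 0 τ, Y' t + H t ≤ K * Y t + L t) :
    (∀ t ∈ Icc 0 τ, Y t ≤ Real.exp K * c) ∧ IB τ H (Real.exp K * c) := by
  obtain ⟨Φ, u, a, b, hL⟩ := hL
  have hd : ∀ t, HasDerivAt (fun t => Real.exp K * Φ t - Real.exp (K - K * t) * Y t)
      (Real.exp K * u t - (Real.exp (K - K * t) * -(K * 1) * Y t + Real.exp (K - K * t) * Y' t)) t :=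
    fun t => ((a t).const_mul _).sub
      ((((hasDerivAt_id' t).const_mul K).const_sub K).exp.fun_mul (hY t))
  have e1 : ∀ t ∈ Icc 0 τ, 1 ≤ Real.exp (K - K * t) := fun t ht =>
    Real.one_le_exp (by nlinarith [ht.2])
  have k : ∀ t ∈ Icc 0 τ, H t ≤ Real.exp K * u t
      - (Real.exp (K - K * t) * -(K * 1) * Y t + Real.exp (K - K * t) * Y' t) := fun t ht => by
    have e2 : Real.exp (K - K * t) ≤ Real.exp K := Real.exp_le_exp.2 (by nlinarith [ht.1])
    obtain ⟨b1, b2, -⟩ := hL t ht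
    nlinarith [mul_le_mul_of_nonneg_left ((h t ht).trans (add_le_add le_rfl b1))
      (Real.exp_pos (K - K * t)).le, mul_le_mul_of_nonneg_right e2 b2,
      mul_le_mul_of_nonneg_right (e1 t ht) (H0 t)]
  have mono := monotoneOn_of_deriv_nonneg (convex_Icc 0 τ)
    (fun r _ => (hd r).continuousAt.continuousWithinAt)
    (fun r _ => (hd r).differentiableAt.differentiableWithinAt) fun r hr => by
      rw [(hd r).deriv]; exact (H0 r).trans (k r (interior_subset hr))
  refine ⟨fun t ht => ?_, _, _, hd, by simp [b, h0], fun t ht => ⟨k t ht, (H0 t).trans (k t ht), ?_⟩⟩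
  · have := mono ⟨le_rfl, ht.1.trans ht.2⟩ ht ht.1
    simp only [b, h0, mul_zero, sub_zero] at this
    nlinarith [mul_le_mul_of_nonneg_right (e1 t ht) (Y0 t),
      mul_le_mul_of_nonneg_left (hL t ht).2.2 (Real.exp_pos K).le]
  · nlinarith [mul_nonneg (Real.exp_pos (K - K * t)).le (Y0 t),
      mul_le_mul_of_nonneg_left (hL t ht).2.2 (Real.exp_pos K).le]

end Pool.Agent.MP_ed9623_an.H64
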