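import Pool.Agent.MP_ed9623_an.H64.Ana1

open Filter Topology MeasureTheory Set
open scoped ContDiff Nat

namespace Pool.Agent.MP_ed9623_an.H64

theorem D_smul_pow {E : Type*} [NormedAddCommGroup E] [NormedSpace ℝ E] (e : E) (f : SA E) (k : ℕ) :
    D e (f ^ (k + 1)) = ((k : ℝ) + 1) • (D e f * f ^ k) := by
  induction k with
  | zero => simp
  | succ k ih =>
    rw [pow_succ, D_mul, ih]
    simp only [Algebra.smul_def, map_add, map_one, Nat.cast_add, Nat.cast_one]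
    ring

namespace Dm
variable {Q : Dm}

theorem S0_smul (c : ℝ) (f : SA PP) : Q.S 0 (c • f) = c ^ 2 * Q.S 0 f := by
  simp only [S, smul_mul_smul_comm, map_smul, smul_eq_mul, sq]

theorem young (c : ℝ) (f g : SA PP) : 2 * c * Q.I (f * g) ≤ Q.S 0 f + c ^ 2 * Q.S 0 g := by
  have h := I_sq_nonneg (Q := Q) (f - c • g)
  have e : (f - c • g) * (f - c • g) = f * f - (2 * c) • (f * g) + c ^ 2 • (g * g) := by
    simp only [Algebra.smul_def, map_mul, map_pow, map_ofNat]; ring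
  rw [e, map_add, map_sub, map_smul, map_smul, smul_eq_mul, smul_eq_mul] at h
  simp only [S]
  linarith

/-- Admissible weights. -/
structure Wt (Q : Dm) (p : SA PP) : Prop where
  bd : p ∈ Q.B
  le : ∀ x, Q.ρ.1 x < 0 → p.1 x ^ 2 ≤ 1
  dg : ∀ x, Q.ρ.1 x < 0 → (d1 p).1 x ^ 2 + (d2 p).1 x ^ 2 ≤ 4

variable (Q) in
noncomputable def nn (p : SA PP) (k : ℕ) (f : SA PP) : ℝ := Q.S 0 (p ^ k * f)

variable (Q) in
noncomputable def gr (p : SA PP) (k : ℕ) (f : SA PP) : ℝ := Q.nn p k (d1 f) + Q.nn p k (d2 f)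

variable {p : SA PP}

theorem nn_nonneg (k : ℕ) (f : SA PP) : 0 ≤ Q.nn p k f := S_nonneg _ _

theorem gr_nonneg (k : ℕ) (f : SA PP) : 0 ≤ Q.gr p k f := add_nonneg (nn_nonneg _ _) (nn_nonneg _ _)

theorem nn_D (k : ℕ) (f : SA PP) (b : Bool) : Q.nn p k (D (dP b) f) ≤ Q.gr p k f := by
  cases b
  · exact le_add_of_nonneg_left (nn_nonneg _ _)
  · exact le_add_of_nonneg_right (nn_nonneg _ _)

theorem Wt.succ (h : Q.Wt p) (k : ℕ) (f : SA PP) : Q.nn p (k + 1) f ≤ Q.nn p k f := by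
  have := S0_mul_le h.le (p ^ k * f)
  rwa [one_mul, ← mul_assoc, ← pow_succ'] at this

theorem Wt.nn_le (h : Q.Wt p) (k : ℕ) (f : SA PP) : Q.nn p k f ≤ Q.S 0 f := by
  induction k with
  | zero => simp [nn]
  | succ k ih => exact (h.succ k f).trans ih

theorem Wt.dpow (h : Q.Wt p) (k : ℕ) (f : SA PP) : Q.S 0 (d1 (p ^ (k + 1)) * f)
    + Q.S 0 (d2 (p ^ (k + 1)) * f) ≤ 4 * ((k : ℝ) + 1) ^ 2 * Q.nn p k f := by
  rw [D_smul_pow, D_smul_pow, smul_mul_assoc, smul_mul_assoc, S0_smul, S0_smul, ← mul_add,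
    mul_comm 4, mul_assoc, mul_assoc, mul_assoc, nn]
  refine mul_le_mul_of_nonneg_left ?_ (sq_nonneg _)
  generalize p ^ k * f = g
  simp only [S]
  rw [← map_add, ← smul_eq_mul 4, ← map_smul]
  refine I_mono fun x hx => ?_
  change (d1 p).1 x * g.1 x * ((d1 p).1 x * g.1 x) + (d2 p).1 x * g.1 x * ((d2 p).1 x * g.1 x)
    ≤ 4 * (g.1 x * g.1 x)
  nlinarith [mul_le_mul_of_nonneg_right (h.dg x hx) (mul_self_nonneg (g.1 x))]

theorem Wt.pB (h : Q.Wt p) (k : ℕ) (f : SA PP) : p ^ (k + 1) * f ∈ Q.B := by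
  rw [pow_succ', mul_assoc]; exact Q.B.mul_mem_right _ h.bd

theorem Wt.S1 (h : Q.Wt p) (k : ℕ) (f : SA PP) : Q.S 1 (p ^ (k + 1) * f) ≤ Q.nn p (k + 1) f
    + 2 * Q.gr p (k + 1) f + 8 * ((k : ℝ) + 1) ^ 2 * Q.nn p k f := by
  have e : Q.S 1 (p ^ (k + 1) * f) = Q.nn p (k + 1) f + Q.S 0 (d1 (p ^ (k + 1)) * f
      + p ^ (k + 1) * d1 f) + Q.S 0 (d2 (p ^ (k + 1)) * f + p ^ (k + 1) * d2 f) := by
    simp only [S, D_mul, nn]
  have a := h.dpow k f
  rw [e]
  unfold gr nn at *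
  linarith [S_add (Q := Q) 0 (d1 (p ^ (k + 1)) * f) (p ^ (k + 1) * d1 f),
    S_add (Q := Q) 0 (d2 (p ^ (k + 1)) * f) (p ^ (k + 1) * d2 f)]

theorem Wt.divcurl (h : Q.Wt p) (k : ℕ) {u v : SA PP} (hd : d1 u + d2 v ∈ Q.Z) :
    Q.gr p (k + 1) u + Q.gr p (k + 1) v ≤ 2 * Q.nn p (k + 1) (d1 v - d2 u)
      + 64 * ((k : ℝ) + 1) ^ 2 * (Q.nn p k u + Q.nn p k v) := by
  have a := h.dpow k u
  have a' := nn_nonneg (Q := Q) (p := p) k v
  have hB := h.pB k
  unfold gr nn at *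
  generalize p ^ (k + 1) = F at *
  have e : F * d1 u * (F * d1 u) + F * d2 u * (F * d2 u) + F * d1 v * (F * d1 v)
      + F * d2 v * (F * d2 v) = F * (d1 v - d2 u) * (F * (d1 v - d2 u))
      + F * F * (d1 u + d2 v) * (d1 u + d2 v) - 2 * d1 (F * (F * u * d2 v))
      + 2 * d2 (F * (F * u * d1 v)) + 2 * (2 * (F * d2 v * (d1 F * u)))
      - 2 * (2 * (F * d1 v * (d2 F * u))) := by
    simp only [D_mul, d21]; ring
  have e2 := congrArg Q.I e
  simp only [map_add, map_sub, I_two, I_D (hB _), I_Z (Q.Z.mul_mem_left _ hd)] at e2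
  have y1 := young (Q := Q) 4 (F * d2 v) (d1 F * u)
  have y2 := young (Q := Q) (-4) (F * d1 v) (d2 F * u)
  have n1 := S_nonneg (Q := Q) 0 (F * d1 u)
  have n2 := S_nonneg (Q := Q) 0 (F * d2 u)
  simp only [S] at *
  nlinarith [sq_nonneg ((k : ℝ) + 1), mul_nonneg (sq_nonneg ((k : ℝ) + 1)) a']

theorem I_listsum {α : Type*} (L : List α) (g : SA PP) (a : α → SA PP) :
    Q.I (g * (L.map a).sum) = (L.map fun i => Q.I (g * a i)).sum := by
  induction L with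
  | nil => simp
  | cons i L ih => simp [mul_add, ih]

theorem Wt.energy (h : Q.Wt p) (k : ℕ) {α : Type*} (L : List α) (a b : α → SA PP) (w : α → ℝ)
    (hw : ∀ i ∈ L, 0 < w i) (hs : (L.map w).sum ≤ 3) {f ft G : SA PP} {σ : ℝ} (hσ : σ ^ 2 ≤ 1)
    (he : ft - (d1 (d1 f) + d2 (d2 f)) + σ • (d1 (L.map a).sum + d2 (L.map b).sum) - G ∈ Q.Z) :
    2 * Q.I (p ^ (k + 1) * f * (p ^ (k + 1) * ft)) + Q.gr p (k + 1) f ≤ Q.nn p (k + 1) f
      + Q.nn p (k + 1) G + 40 * (((k : ℝ) + 1) ^ 2 * Q.nn p k f) + (L.map fun i => 12 / w i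
        * (Q.S 0 (p ^ (k + 1) * a i) + Q.S 0 (p ^ (k + 1) * b i))).sum := by
  have a0 := h.dpow k f
  have hB := h.pB k
  unfold gr nn at *
  generalize p ^ (k + 1) = F at *
  generalize hN : ((k : ℝ) + 1) ^ 2 * Q.S 0 (p ^ k * f) = N at *
  rw [mul_assoc, hN] at a0
  have b1 := S_add (Q := Q) 0 (F * d1 f) ((2 : ℝ) • (d1 F * f))
  have b2 := S_add (Q := Q) 0 (F * d2 f) ((2 : ℝ) • (d2 F * f))
  rw [S0_smul] at b1 b2
  generalize hB1 : F * d1 f + (2 : ℝ) • (d1 F * f) = B1 at b1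
  generalize hB2 : F * d2 f + (2 : ℝ) • (d2 F * f) = B2 at b2
  have s0 := add_nonneg (S_nonneg (Q := Q) 0 B1) (S_nonneg (Q := Q) 0 B2)
  have key : 2 * σ * (Q.I (B1 * F * (L.map a).sum) + Q.I (B2 * F * (L.map b).sum))
      ≤ (L.map w).sum / 12 * (Q.S 0 B1 + Q.S 0 B2) + (L.map fun i => 12 / w i
        * (Q.S 0 (F * a i) + Q.S 0 (F * b i))).sum := by
    clear he hs
    induction L with
    | nil => simp
    | cons i L ih =>
      have w0 := hw i List.mem_cons_self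
      have ih := ih fun j hj => hw j (List.mem_cons_of_mem _ hj)
      have y1 := young (Q := Q) (12 * σ / w i) B1 (F * a i)
      have y2 := young (Q := Q) (12 * σ / w i) B2 (F * b i)
      have y3 := mul_le_mul_of_nonneg_left (add_le_add y1 y2) (by positivity : 0 ≤ w i / 12)
      have n := add_nonneg (S_nonneg (Q := Q) 0 (F * a i)) (S_nonneg (Q := Q) 0 (F * b i))
      have y4 := mul_le_mul_of_nonneg_right (mul_le_mul_of_nonneg_left hσ
        (by positivity : 0 ≤ 12 / w i)) n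
      simp only [List.map_cons, List.sum_cons, mul_add, map_add, ← mul_assoc] at *
      have e1 : w i / 12 * 2 * (12 * σ / w i) = 2 * σ := by field_simp
      have e2 : w i / 12 * (12 * σ / w i) ^ 2 = 12 / w i * σ ^ 2 := by field_simp
      rw [e1, e2] at y3
      linarith
  generalize (L.map a).sum = V1 at *
  generalize (L.map b).sum = V2 at *
  have e : F * f * (F * ft) = F * F * f * (ft - (d1 (d1 f) + d2 (d2 f)) + σ • (d1 V1 + d2 V2) - G)
      + d1 (F * (F * f * d1 f)) + d2 (F * (F * f * d2 f)) - F * d1 f * (F * d1 f)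
      - F * d2 f * (F * d2 f) - 2 * (F * d1 f * (d1 F * f)) - 2 * (F * d2 f * (d2 F * f))
      + F * f * (F * G) - σ • (d1 (F * (F * f * V1)) + d2 (F * (F * f * V2)))
      + σ • (B1 * F * V1 + B2 * F * V2) := by
    rw [← hB1, ← hB2]
    simp only [D_mul, Algebra.smul_def, map_ofNat]; ring
  have e2 := congrArg Q.I e
  simp only [map_add, map_sub, I_two, I_D (hB _), I_Z (Q.Z.mul_mem_left _ he), map_smul,
    smul_eq_mul] at e2
  have y1 := young (Q := Q) (-4) (F * d1 f) (d1 F * f)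
  have y2 := young (Q := Q) (-4) (F * d2 f) (d2 F * f)
  have y3 := young (Q := Q) 1 (F * f) (F * G)
  have y4 := mul_le_mul_of_nonneg_right hs s0
  simp only [S] at *
  linarith

end Dm

end Pool.Agent.MP_ed9623_an.H64
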