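import Pool.Agent.MP_ed9623_an.H64.Ana2

open Filter Topology MeasureTheory Set
open scoped ContDiff Nat

namespace Pool.Agent.MP_ed9623_an.H64

variable {Q : Dm}

theorem Dm.lady4 : ∃ C, 0 ≤ C ∧ ∀ (f g : SA PP) (a c : ℝ), Q.S 0 f ≤ a → Q.S 0 g ≤ c →
    Q.S 0 (f * g) ≤ C * (c * Q.S 1 f + a * Q.S 1 g) := by
  obtain ⟨C, c0, hC⟩ := Dm.lady2 (Q := Q)
  refine ⟨√C, Real.sqrt_nonneg _, fun f g a c ha hc => ?_⟩
  have n := @Dm.S_nonneg Q
  have f1 := n 1 f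
  have g1 := n 1 g
  have a0 := (n 0 f).trans ha
  have b0 := (n 0 g).trans hc
  refine le_of_sq_le_sq ((hC f g).trans ?_) (by positivity)
  rw [mul_pow, Real.sq_sqrt c0]
  refine mul_le_mul_of_nonneg_left ((mul_le_mul (mul_le_mul_of_nonneg_right ha f1)
    (mul_le_mul_of_nonneg_right hc g1) (mul_nonneg (n 0 g) g1) (by positivity)).trans ?_) c0
  nlinarith [sq_nonneg (c * Q.S 1 f), sq_nonneg (a * Q.S 1 g),
    mul_nonneg (mul_nonneg b0 f1) (mul_nonneg a0 g1)]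

theorem Dm.Wt.smul {p : SA PP} (h : Q.Wt p) {t : ℝ} (ht : t ∈ Icc (0 : ℝ) 1) : Q.Wt (t • p) := by
  have t2 : t ^ 2 ≤ 1 := pow_le_one₀ ht.1 ht.2
  refine ⟨fun x hx => mul_eq_zero_of_right t (h.bd x hx), fun x hx => ?_, fun x hx => ?_⟩
  · change (t * p.1 x) ^ 2 ≤ 1
    nlinarith [h.le x hx, sq_nonneg (p.1 x)]
  · rw [map_smul, map_smul]
    change (t * (d1 p).1 x) ^ 2 + (t * (d2 p).1 x) ^ 2 ≤ 4
    nlinarith [h.dg x hx, sq_nonneg ((d1 p).1 x), sq_nonneg ((d2 p).1 x)]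

theorem Z_DL {f : SA PP} (hf : f ∈ Q.Z) (l : List Bool) : DL dP l f ∈ Q.Z := by
  induction l with
  | nil => exact hf
  | cons b l ih => rw [DL_cons']; exact Dm.Z_D ih _

theorem bdd01 (f : SA ST) : ∃ M, 0 ≤ M ∧ ∀ t ∈ Icc (0 : ℝ) 1, ∀ x, Q.ρ.1 x < 0 →
    (sl t f).1 x ^ 2 ≤ M := by
  obtain ⟨M, hM⟩ := ((isCompact_Icc (a := (0 : ℝ)) (b := 1)).prod
    Q.dom.compact).exists_bound_of_continuousOn
    (f := fun z : ST => f.1 z ^ 2) (f.ct.pow 2).continuousOn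
  exact ⟨|M|, abs_nonneg _, fun t ht x hx =>
    ((le_abs_self _).trans (hM (t, x) ⟨ht, subset_closure hx⟩)).trans (le_abs_self _)⟩

theorem S0_le {f : SA PP} {M : ℝ} (h : ∀ x, Q.ρ.1 x < 0 → f.1 x ^ 2 ≤ M) :
    Q.S 0 f ≤ M * Q.S 0 1 := by simpa using Dm.S0_mul_le h 1

def tc : SA ST := ⟨Prod.fst, (contDiff_fst : ContDiff ℝ ∞ (Prod.fst : ST → ℝ))⟩

theorem dt_tc : dt tc = 1 := Subtype.ext (funext fun z => by
  change fderiv ℝ (Prod.fst : ST → ℝ) z e0 = 1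
  rw [fderiv_fst]; rfl)

theorem nn_deriv (q : SA PP) (k : ℕ) (f : SA ST) (t : ℝ) :
    HasDerivAt (fun t => Q.nn (t • q) (k + 1) (sl t f))
      (2 * Q.I ((t • q) ^ (k + 1) * sl t f * ((t • q) ^ (k + 1) * sl t (dt f)))
        + 2 * ((k : ℝ) + 1) * Q.I ((t • q) ^ (k + 1) * sl t f * (q * ((t • q) ^ k * sl t f)))) t := by
  have e : ∀ t, sl t (tc * up q) = t • q := fun _ => rfl
  have e' : sl t (up q) = q := rfl
  have e'' : ∀ (c : ℝ) g, sl t (c • g) = c • sl t g := fun _ _ => rfl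
  have e1 : dt (tc * up q) = up q := by rw [D_mul, dt_tc, dt_up, one_mul, mul_zero, add_zero]
  have := I_deriv (Q := Q) ((tc * up q) ^ (k + 1) * f * ((tc * up q) ^ (k + 1) * f)) t
  generalize tc * up q = Φ at *
  simp only [map_mul, map_pow, e, D_mul, D_smul_pow, e1, map_add, e', e''] at this
  refine HasDerivAt.congr_deriv this ?_
  rw [← Dm.I_two, mul_assoc 2, ← smul_eq_mul ((k : ℝ) + 1), ← map_smul, ← Dm.I_two, ← map_add,
    ← map_add]
  congr 1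
  simp only [Algebra.smul_def]; ring

/-- The data of the interior analyticity estimate. -/
structure AD (Q : Dm) where
  q : SA PP
  wt : Q.Wt q
  τ : ℝ
  τ1 : τ ≤ 1
  u1 : SA ST
  u2 : SA ST
  G : SA PP
  σ : ℝ
  σ1 : σ ^ 2 ≤ 1
  dv : ∀ t ∈ Icc 0 τ, sl t (D e1 u1 + D e2 u2) ∈ Q.Z
  eq : ∀ t ∈ Icc 0 τ, sl t (dt (D e1 u2 - D e2 u1) - (D e1 (D e1 (D e1 u2 - D e2 u1))
    + D e2 (D e2 (D e1 u2 - D e2 u1))) + σ • (D e1 (u1 * (D e1 u2 - D e2 u1))
    + D e2 (u2 * (D e1 u2 - D e2 u1))) - up G) ∈ Q.Z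

namespace AD
variable (a : AD Q)

noncomputable def U (l : List Bool) (t : ℝ) : SA PP := DL dP l (sl t a.u1)
noncomputable def V (l : List Bool) (t : ℝ) : SA PP := DL dP l (sl t a.u2)
noncomputable def W (l : List Bool) (t : ℝ) : SA PP := DL dP l (sl t (D e1 a.u2 - D e2 a.u1))
noncomputable def Y (l : List Bool) (t : ℝ) : ℝ := Q.nn (t • a.q) (l.length + 1) (a.W l t)
noncomputable def H (l : List Bool) (t : ℝ) : ℝ := Q.gr (t • a.q) (l.length + 1) (a.W l t)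
noncomputable def N (l : List Bool) (t : ℝ) : ℝ :=
  ((l.length : ℝ) + 1) ^ 2 * Q.nn (t • a.q) l.length (a.W l t)
noncomputable def X (l : List Bool) (t : ℝ) : ℝ :=
  Q.nn (t • a.q) l.length (a.U l t) + Q.nn (t • a.q) l.length (a.V l t)
noncomputable def Z (l : List Bool) (t : ℝ) : ℝ :=
  Q.gr (t • a.q) l.length (a.U l t) + Q.gr (t • a.q) l.length (a.V l t)
noncomputable def T (l : List Bool) (t : ℝ) : ℝ :=
  Q.S 1 ((t • a.q) ^ l.length * a.U l t) + Q.S 1 ((t • a.q) ^ l.length * a.V l t)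

def P (l : List Bool) (B : ℝ) : Prop := (∀ t ∈ Icc 0 a.τ, a.Y l t ≤ B) ∧ IB a.τ (a.H l) B ∧
  IB a.τ (a.N l) B ∧ (∀ t ∈ Icc 0 a.τ, a.X l t ≤ B) ∧ IB a.τ (a.Z l) B

variable {a}

theorem wt' {t : ℝ} (ht : t ∈ Icc 0 a.τ) : Q.Wt (t • a.q) := a.wt.smul ⟨ht.1, ht.2.trans a.τ1⟩

theorem W_eq (l : List Bool) (t : ℝ) : a.W l t = d1 (a.V l t) - d2 (a.U l t) := by
  simp only [W, U, V, map_sub, sl_e1, sl_e2, DL_comm]

theorem dc (l : List Bool) (k : ℕ) {t : ℝ} (ht : t ∈ Icc 0 a.τ) :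
    Q.gr (t • a.q) (k + 1) (a.U l t) + Q.gr (t • a.q) (k + 1) (a.V l t)
      ≤ 2 * Q.nn (t • a.q) (k + 1) (a.W l t) + 64 * ((k : ℝ) + 1) ^ 2
        * (Q.nn (t • a.q) k (a.U l t) + Q.nn (t • a.q) k (a.V l t)) := by
  rw [W_eq]
  refine (wt' ht).divcurl k ?_
  have := Z_DL (a.dv t ht) l
  simpa only [U, V, map_add, sl_e1, sl_e2, DL_comm] using this

theorem cons {l : List Bool} {B : ℝ} (h : a.P l B) (b : Bool) :
    (∀ t ∈ Icc 0 a.τ, a.X (b :: l) t ≤ 66 * (((l.length : ℝ) + 1) ^ 2 * B)) ∧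
    IB a.τ (a.Z (b :: l)) (66 * (((l.length : ℝ) + 1) ^ 2 * B)) ∧
    IB a.τ (a.N (b :: l)) (4 * (((l.length : ℝ) + 1) ^ 2 * B)) ∧
    (0 ≤ a.τ → IB a.τ (a.T (b :: l)) (206 * (((l.length : ℝ) + 1) ^ 2 * B))) := by
  obtain ⟨h1, h2, -, h4, h5⟩ := h
  have k1 : (1 : ℝ) ≤ ((l.length : ℝ) + 1) ^ 2 := one_le_pow₀ (by linarith [l.length.cast_nonneg (α := ℝ)])
  have eU : ∀ t, a.U (b :: l) t = D (dP b) (a.U l t) := fun t => DL_cons' _ _ _ _
  have eV : ∀ t, a.V (b :: l) t = D (dP b) (a.V l t) := fun t => DL_cons' _ _ _ _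
  have eW : ∀ t, a.W (b :: l) t = D (dP b) (a.W l t) := fun t => DL_cons' _ _ _ _
  have z : ∀ t, Q.nn (t • a.q) l.length (a.U (b :: l) t) + Q.nn (t • a.q) l.length (a.V (b :: l) t)
      ≤ a.Z l t := fun t => by rw [eU, eV]; exact add_le_add (Dm.nn_D _ _ _) (Dm.nn_D _ _ _)
  have w : ∀ t, Q.nn (t • a.q) (l.length + 1) (a.W (b :: l) t) ≤ a.H l t := fun t => by
    rw [eW]; exact Dm.nn_D _ _ _
  have B0 : ∀ t ∈ Icc 0 a.τ, 0 ≤ B := fun t ht => (Dm.nn_nonneg _ _).trans (h1 t ht)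
  have c1 : ∀ t ∈ Icc 0 a.τ, a.X (b :: l) t ≤ 66 * (((l.length : ℝ) + 1) ^ 2 * B) := fun t ht => by
    have a1 := dc l l.length ht
    have a2 := add_le_add (Dm.nn_D (Q := Q) (p := t • a.q) (l.length + 1) (a.U l t) b)
      (Dm.nn_D (Q := Q) (p := t • a.q) (l.length + 1) (a.V l t) b)
    have a3 := mul_le_mul_of_nonneg_left (h4 t ht) (sq_nonneg ((l.length : ℝ) + 1))
    have a4 := h1 t ht
    have a5 := mul_le_mul_of_nonneg_right k1 (B0 t ht)
    rw [X, eU, eV, List.length_cons]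
    unfold X at a3
    unfold Y at a4
    linarith
  have c2 : IB a.τ (a.Z (b :: l)) (2 * B + 64 * ((l.length : ℝ) + 1) ^ 2 * B) :=
    ((h2.cmul 2 zero_le_two).add (h5.cmul _ (by positivity))).mono (fun t ht => by
      have a1 := dc (b :: l) l.length ht
      have a2 := mul_le_mul_of_nonneg_left (z t) (sq_nonneg ((l.length : ℝ) + 1))
      rw [Z, List.length_cons]
      linarith [w t]) le_rfl
  have c2' : IB a.τ (a.Z (b :: l)) (66 * (((l.length : ℝ) + 1) ^ 2 * B)) := by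
    obtain ⟨F, u, x1, x2, x3⟩ := c2
    exact ⟨F, u, x1, x2, fun t ht => ⟨(x3 t ht).1, (x3 t ht).2.1, by
      linarith [(x3 t ht).2.2, mul_le_mul_of_nonneg_right k1 (B0 t ht)]⟩⟩
  refine ⟨c1, c2', (h2.cmul (4 * ((l.length : ℝ) + 1) ^ 2) (by positivity)).mono (fun t _ => ?_)
    (by linarith), fun h0 => ?_⟩
  · rw [N, List.length_cons]
    refine mul_le_mul ?_ (w t) (Dm.nn_nonneg _ _) (by positivity)
    push_cast
    nlinarith [l.length.cast_nonneg (α := ℝ)]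
  · have b0 := B0 0 ⟨le_rfl, h0⟩
    refine (((IB.const a.τ1 (c := 66 * (((l.length : ℝ) + 1) ^ 2 * B)) (by positivity)).add
      (c2'.cmul 2 zero_le_two)).add (h5.cmul (8 * ((l.length : ℝ) + 1) ^ 2) (by positivity))).mono
      (fun t ht => ?_) (by linarith)
    have a1 := (wt' ht).S1 l.length (a.U (b :: l) t)
    have a2 := (wt' ht).S1 l.length (a.V (b :: l) t)
    have a3 := mul_le_mul_of_nonneg_left (z t) (sq_nonneg ((l.length : ℝ) + 1))
    have a4 := c1 t ht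
    simp only [T, X, Z, List.length_cons] at a3 a4 ⊢
    linarith

theorem base : ∃ A, 1 ≤ A ∧ a.P [] A := by
  have k : ∀ f : SA ST, ∃ M, 0 ≤ M ∧ ∀ t ∈ Icc 0 a.τ, ∀ k, Q.nn (t • a.q) k (sl t f) ≤ M := fun f => by
    obtain ⟨M, m0, hM⟩ := bdd01 (Q := Q) f
    exact ⟨_, mul_nonneg m0 (Dm.S_nonneg 0 1), fun t ht k =>
      ((wt' ht).nn_le k _).trans (S0_le (hM t ⟨ht.1, ht.2.trans a.τ1⟩))⟩
  have k' : ∀ f : SA ST, ∃ M, 0 ≤ M ∧ ∀ t ∈ Icc 0 a.τ, ∀ k, Q.nn (t • a.q) k (sl t f) ≤ M ∧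
      Q.gr (t • a.q) k (sl t f) ≤ M := fun f => by
    obtain ⟨M0, m0, h0⟩ := k f
    obtain ⟨M1, m1, h1⟩ := k (D e1 f)
    obtain ⟨M2, m2, h2⟩ := k (D e2 f)
    refine ⟨M0 + M1 + M2, by positivity, fun t ht k => ⟨by linarith [h0 t ht k], ?_⟩⟩
    rw [Dm.gr, ← sl_e1, ← sl_e2]
    linarith [h1 t ht k, h2 t ht k]
  obtain ⟨M0, m0, h0⟩ := k' a.u1
  obtain ⟨M1, m1, h1⟩ := k' a.u2
  obtain ⟨M2, m2, h2⟩ := k' (D e1 a.u2 - D e2 a.u1)
  have c := IB.const a.τ1 (c := 1 + M0 + M1 + M2) (by positivity)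
  refine ⟨1 + M0 + M1 + M2, by linarith, fun t ht => ?_, c.mono (fun t ht => ?_) le_rfl,
    c.mono (fun t ht => ?_) le_rfl, fun t ht => ?_, c.mono (fun t ht => ?_) le_rfl⟩ <;>
  simp only [Y, H, N, X, Z, U, V, W, DL_nil, List.length_nil, Nat.cast_zero, zero_add, one_pow,
    one_mul] <;>
  linarith [h0 t ht 0, h1 t ht 0, h2 t ht 0, h2 t ht 1]

theorem deriv_Y (l : List Bool) (w : List Bool × List Bool → ℝ) (hw : ∀ i ∈ splits l, 0 < w i)
    (hs : ((splits l).map w).sum ≤ 3) : ∃ Y' : ℝ → ℝ, (∀ t, HasDerivAt (a.Y l) (Y' t) t) ∧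
      ∀ t ∈ Icc 0 a.τ, Y' t + a.H l t ≤ 2 * a.Y l t + 41 * a.N l t + Q.S 0 (DL dP l a.G)
        + ((splits l).map fun i => 12 / w i
          * (Q.S 0 ((t • a.q) ^ (l.length + 1) * (a.U i.1 t * a.W i.2 t))
            + Q.S 0 ((t • a.q) ^ (l.length + 1) * (a.V i.1 t * a.W i.2 t)))).sum := by
  have e : ∀ t, a.W l t = sl t (DL dS l (D e1 a.u2 - D e2 a.u1)) := fun t => (sl_DL _ _ _).symm
  refine ⟨_, fun t => by
    unfold Y; simp only [e]; exact nn_deriv a.q l.length _ t, fun t ht => ?_⟩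
  have h := Z_DL (a.eq t ht) l
  have e' : sl t (up a.G) = a.G := rfl
  have e'' : ∀ (c : ℝ) g, sl t (c • g) = c • sl t g := fun _ _ => rfl
  have e3 : DL dP l (sl t (dt (D e1 a.u2 - D e2 a.u1)))
      = sl t (dt (DL dS l (D e1 a.u2 - D e2 a.u1))) := by rw [← sl_DL, DL_comm]
  generalize ho : D e1 a.u2 - D e2 a.u1 = o at h e e3 ⊢
  simp only [map_sub, map_add, e', e'', map_smul, sl_e1, sl_e2, ← DL_comm, map_mul, e3, DL_mul] at h
  have a1 := (wt' ht).energy l.length (splits l) _ _ w hw hs a.σ1 h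
  have a2 := Dm.young (Q := Q) ((l.length : ℝ) + 1) ((t • a.q) ^ (l.length + 1) * a.W l t)
    (a.q * ((t • a.q) ^ l.length * a.W l t))
  have a3 := mul_le_mul_of_nonneg_left (Dm.S0_mul_le a.wt.le ((t • a.q) ^ l.length * a.W l t))
    (sq_nonneg ((l.length : ℝ) + 1))
  have a4 := (wt' ht).nn_le (l.length + 1) (DL dP l a.G)
  simp only [sl_DL]
  simp only [Y, H, N, U, V, W, ho, Dm.nn] at *
  linarith

theorem step {R A M C g : ℝ} (hR : 0 < R) (hA : 1 ≤ A) (m0 : 0 ≤ M) (c0 : 0 ≤ C) (g0 : 0 ≤ g)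
    (h0 : 0 ≤ a.τ)
    (hM : ∀ t ∈ Icc 0 a.τ, ∀ x, Q.ρ.1 x < 0 → (sl t a.u1).1 x ^ 2 ≤ M ∧ (sl t a.u2).1 x ^ 2 ≤ M)
    (hC : ∀ (f g : SA PP) (a c : ℝ), Q.S 0 f ≤ a → Q.S 0 g ≤ c →
      Q.S 0 (f * g) ≤ C * (c * Q.S 1 f + a * Q.S 1 g))
    (r1 : 66 + Real.exp (2 + 72 * M) * (164 * A + g + 59688 * C * A ^ 2) ≤ R ^ 2)
    (b : Bool) (l : List Bool)
    (hG : Q.S 0 (DL dP (b :: l) a.G) ≤ g * (((l.length : ℝ) + 1) * mj R l.length) ^ 2)
    (ih : ∀ l' : List Bool, l'.length ≤ l.length → a.P l' (A * mj R l'.length ^ 2)) :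
    a.P (b :: l) (A * mj R (l.length + 1) ^ 2) := by
  have mp := mj_pos hR
  have a0 : 0 ≤ A := by linarith
  obtain ⟨ε, e0, e1⟩ : ∃ ε : ℝ, 0 < ε ∧ ε * R ^ 2 = 1 := ⟨(R ^ 2)⁻¹, by positivity, by field_simp⟩
  have sm : ∀ k : ℕ, (((k : ℝ) + 1) * mj R k) ^ 2 ≤ ε * mj R (k + 1) ^ 2 := fun k => by
    have := mul_le_mul_of_nonneg_left (pow_le_pow_left₀ (by have := mp k; positivity)
      (mj_succ hR k) 2) e0.le
    rwa [mul_pow, ← mul_assoc, e1, one_mul] at this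
  have sm' : ∀ k : ℕ, ((k : ℝ) + 1) ^ 2 * (A * mj R k ^ 2) ≤ ε * (A * mj R (k + 1) ^ 2) := fun k => by
    nlinarith [mul_le_mul_of_nonneg_left (sm k) a0]
  have r2 := mul_le_mul_of_nonneg_left r1 e0.le
  have r3 : 0 ≤ ε * (Real.exp (2 + 72 * M) * (164 * A + g + 59688 * C * A ^ 2)) := by positivity
  rw [e1, mul_add] at r2
  obtain ⟨c1, c2, c3, -⟩ := cons (ih l le_rfl) b
  obtain ⟨μ, hμ⟩ : ∃ μ, μ = mj R (l.length + 1) := ⟨_, rfl⟩
  have μ0 : 0 < μ := hμ ▸ mp _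
  have s0 := sm' l.length
  have s1 := sm l.length
  rw [← hμ] at s0 s1 ⊢
  have s2 : 66 * (ε * (A * μ ^ 2)) ≤ A * μ ^ 2 := by
    nlinarith [mul_le_mul_of_nonneg_right (show ε * 66 ≤ 1 by linarith) (by positivity : 0 ≤ A * μ ^ 2)]
  let w : List Bool × List Bool → ℝ := fun i => mj R i.1.length * mj R i.2.length / μ
  have hw : ∀ i, 0 < w i := fun i => div_pos (mul_pos (mp _) (mp _)) μ0
  have hs : ((splits (b :: l)).map w).sum ≤ 3 := by
    simp only [w, div_eq_mul_inv, List.sum_map_mul_right]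
    rw [sum_splits (b :: l) fun i j => mj R i * mj R j, ← div_eq_mul_inv, div_le_iff₀ μ0, hμ]
    exact mj_conv hR _
  obtain ⟨Y', d1, d2⟩ := deriv_Y (a := a) (b :: l) w (fun i _ => hw i) hs
  let P : List Bool × List Bool → ℝ → ℝ := fun i t => 12 / w i
    * (Q.S 0 ((t • a.q) ^ ((b :: l).length + 1) * (a.U i.1 t * a.W i.2 t))
      + Q.S 0 ((t • a.q) ^ ((b :: l).length + 1) * (a.V i.1 t * a.W i.2 t)))
  let L : List Bool × List Bool → ℝ → ℝ := fun i t => if i.1 = [] then 0 else P i t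
  have k1 : ∀ i ∈ splits (b :: l), IB a.τ (L i) (w i * (19896 * C * A ^ 2 * (ε * μ ^ 2))) := by
    rintro ⟨_ | ⟨b', p⟩, p'⟩ hi
    · exact (IB.const a.τ1 le_rfl).mono (fun t _ => (if_pos rfl).le) (by have := hw ([], p'); positivity)
    have hl := splits_len _ _ hi
    simp only [List.length_cons] at hl
    obtain ⟨x1, -, -, x4⟩ := cons (ih p (by omega)) b'
    obtain ⟨y1, y2, y3, -⟩ := ih p' (by omega)
    have s3 := sm' p.length
    have hw' : w (b' :: p, p') = mj R (p.length + 1) * mj R p'.length / μ := rfl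
    have n1 := mp (p.length + 1)
    have n2 := mp p'.length
    generalize mj R (p.length + 1) = μ1 at *
    generalize mj R p'.length = μ2 at *
    have y4 := ((IB.const a.τ1 (c := A * μ2 ^ 2) (by positivity)).add (y2.cmul 2 zero_le_two)).add
      (y3.cmul 8 (by norm_num))
    refine ((((x4 h0).mono (fun _ _ => le_rfl) (mul_le_mul_of_nonneg_left s3 (by norm_num))).cmul
      (A * μ2 ^ 2) (by positivity)).add (y4.cmul (132 * (ε * (A * μ1 ^ 2))) (by positivity))).cmul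
      (12 / w (b' :: p, p') * C) (by have := hw (b' :: p, p'); positivity) |>.mono
      (fun t ht => ?_) (le_of_eq ?_)
    · simp only [L, P, reduceCtorEq, if_false, mul_assoc (12 / w _)]
      refine mul_le_mul_of_nonneg_left ?_ (by have := hw (b' :: p, p'); positivity)
      have e : ∀ f g : SA PP, (t • a.q) ^ ((b :: l).length + 1) * (f * g)
          = (t • a.q) ^ (b' :: p).length * f * ((t • a.q) ^ (p'.length + 1) * g) := fun f g => by
        rw [List.length_cons, ← hl, List.length_cons]; ring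
      have x2 := (x1 t ht).trans (mul_le_mul_of_nonneg_left s3 (by norm_num))
      have z1 := hC _ _ _ _ ((le_add_of_nonneg_right (Dm.nn_nonneg _ _)).trans x2) (y1 t ht)
      have z2 := hC _ _ _ _ ((le_add_of_nonneg_left (Dm.nn_nonneg _ _)).trans x2) (y1 t ht)
      have z3 := (wt' ht).S1 p'.length (a.W p' t)
      have z4 : Q.S 1 ((t • a.q) ^ (p'.length + 1) * a.W p' t)
          ≤ A * μ2 ^ 2 + 2 * a.H p' t + 8 * a.N p' t := by
        have := y1 t ht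
        unfold Y at this
        unfold H N
        linarith
      have z5 := mul_le_mul_of_nonneg_left (mul_le_mul_of_nonneg_left z4
        (by positivity : 0 ≤ 132 * (ε * (A * μ1 ^ 2)))) c0
      rw [e, e]
      unfold T
      linarith
    · rw [hw']; field_simp; ring
  have k2 : ∀ t ∈ Icc 0 a.τ, ∀ i ∈ splits (b :: l),
      P i t ≤ w i * (24 * M * a.Y (b :: l) t) + L i t := by
    rintro t ht ⟨p, p'⟩ hi
    by_cases hp : p = []
    · obtain rfl : p' = b :: l := (splits_nil _ _ hi).1 hp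
      subst hp
      have e : w ([], b :: l) = 1 := by
        simp only [w, List.length_nil, mj_zero, List.length_cons, ← hμ]; field_simp
      have z1 := Dm.S0_mul_le (fun x hx => (hM t ht x hx).1)
        ((t • a.q) ^ ((b :: l).length + 1) * a.W (b :: l) t)
      have z2 := Dm.S0_mul_le (fun x hx => (hM t ht x hx).2)
        ((t • a.q) ^ ((b :: l).length + 1) * a.W (b :: l) t)
      rw [mul_left_comm] at z1 z2
      simp only [L, P, e, if_true, U, V, DL_nil, Y, Dm.nn]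
      linarith
    · simp only [L, hp, if_false]
      have := hw (p, p')
      have : 0 ≤ a.Y (b :: l) t := Dm.nn_nonneg _ _
      exact le_add_of_nonneg_left (by positivity)
  have k3 := ((c3.cmul 41 (by norm_num)).add (IB.const a.τ1 (c := g * (ε * μ ^ 2))
    (by positivity))).add (IB.sum a.τ1 _ k1)
  obtain ⟨f1, f2⟩ := IB.gron a.τ1 (H := a.H (b :: l)) (K := 2 + 72 * M) (by positivity) k3 d1 (by simp [Y, Dm.nn, Dm.S])
    (fun t => Dm.nn_nonneg _ _) (fun t => Dm.gr_nonneg _ _) fun t ht => by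
      have z1 := List.sum_le_sum (k2 t ht)
      have z2 : 0 ≤ a.Y (b :: l) t := Dm.nn_nonneg _ _
      rw [List.sum_map_add, List.sum_map_mul_right] at z1
      have z3 := mul_le_mul_of_nonneg_right hs (by positivity : 0 ≤ 24 * M * a.Y (b :: l) t)
      linarith [d2 t ht, mul_le_mul_of_nonneg_left s1 g0, hG]
  have fin : Real.exp (2 + 72 * M) * (41 * (4 * (((l.length : ℝ) + 1) ^ 2 * (A * mj R l.length ^ 2)))
      + g * (ε * μ ^ 2) + ((splits (b :: l)).map fun i =>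
        w i * (19896 * C * A ^ 2 * (ε * μ ^ 2))).sum) ≤ A * μ ^ 2 := by
    rw [List.sum_map_mul_right]
    have z1 := mul_le_mul_of_nonneg_right hs (by positivity : 0 ≤ 19896 * C * A ^ 2 * (ε * μ ^ 2))
    refine (mul_le_mul_of_nonneg_left (show _ ≤ (164 * A + g + 59688 * C * A ^ 2) * (ε * μ ^ 2) by
      linarith) (Real.exp_pos _).le).trans ?_
    nlinarith [mul_le_mul_of_nonneg_right (show ε * (Real.exp (2 + 72 * M)
      * (164 * A + g + 59688 * C * A ^ 2)) ≤ A by linarith) (sq_nonneg μ)]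
  have p0 : 0 ≤ ε * (A * μ ^ 2) := by positivity
  exact ⟨fun t ht => (f1 t ht).trans fin, f2.mono (fun _ _ => le_rfl) fin,
    c3.mono (fun _ _ => le_rfl) (by linarith), fun t ht => by linarith [c1 t ht],
    c2.mono (fun _ _ => le_rfl) (by linarith)⟩

theorem all (h0 : 0 ≤ a.τ) {C0 R0 : ℝ} (r0 : 1 ≤ R0)
    (hG : ∀ x, Q.ρ.1 x < 0 → ∀ n, ‖iteratedFDeriv ℝ n a.G.1 x‖ ≤ C0 * R0 ^ n * n !) :
    ∃ A R, 0 ≤ A ∧ 0 < R ∧ ∀ l : List Bool, a.X l a.τ ≤ A * mj R l.length ^ 2 := by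
  obtain ⟨A, hA, hb⟩ := base (a := a)
  obtain ⟨M1, m1, h1⟩ := bdd01 (Q := Q) a.u1
  obtain ⟨M2, m2, h2⟩ := bdd01 (Q := Q) a.u2
  obtain ⟨C, c0, hC⟩ := Dm.lady4 (Q := Q)
  have v0 := Dm.S_nonneg (Q := Q) 0 1
  obtain ⟨E, hE⟩ : ∃ E, E = 66 + Real.exp (2 + 72 * (M1 + M2))
    * (164 * A + (C0 * R0) ^ 2 * Q.S 0 1 + 59688 * C * A ^ 2) := ⟨_, rfl⟩
  have E0 : 0 ≤ E := by rw [hE]; positivity
  have R1 : 0 < R0 + E := by linarith
  suffices ∀ n, ∀ l : List Bool, l.length ≤ n → a.P l (A * mj (R0 + E) l.length ^ 2) from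
    ⟨A, R0 + E, by linarith, R1, fun l => (this _ l le_rfl).2.2.2.1 _ ⟨h0, le_rfl⟩⟩
  intro n
  induction n with
  | zero =>
    intro l hl
    obtain rfl := List.length_eq_zero_iff.1 (Nat.le_zero.1 hl)
    simpa [mj_zero] using hb
  | succ n ih =>
    rintro (_ | ⟨b, l⟩) hl
    · exact ih _ (Nat.zero_le n)
    refine step R1 hA (add_nonneg m1 m2) c0 (g := (C0 * R0) ^ 2 * Q.S 0 1) (by positivity) h0
      (fun t ht x hx => ⟨by linarith [h1 t ⟨ht.1, ht.2.trans a.τ1⟩ x hx],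
        by linarith [h2 t ⟨ht.1, ht.2.trans a.τ1⟩ x hx]⟩) hC (by rw [← hE]; nlinarith) b l ?_
      fun l' h' => ih l' (by simp only [List.length_cons] at hl; omega)
    rw [mul_right_comm, ← mul_pow]
    refine S0_le fun x hx => ?_
    rw [← sq_abs]
    refine pow_le_pow_left₀ (abs_nonneg _) ((DL_le dP (fun b => by cases b <;> simp [dP]) x _ _).trans
      ((hG x hx _).trans ?_)) 2
    have c : 0 ≤ C0 := by simpa using (norm_nonneg _).trans (hG x hx 0)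
    have z : R0 ^ l.length * (l.length ! : ℝ) ≤ mj (R0 + E) l.length :=
      le_trans (by gcongr; linarith) (mj_ge R1 _)
    rw [List.length_cons, Nat.factorial_succ, pow_succ]
    push_cast
    nlinarith [mul_le_mul_of_nonneg_left z (by positivity : 0 ≤ C0 * R0 * ((l.length : ℝ) + 1))]

end AD

end Pool.Agent.MP_ed9623_an.H64
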