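import Pool.Agent.MP_ed9623_an.H64.Jet

open Filter Topology MeasureTheory Set

namespace Pool.Agent.MP_ed9623_an.H64

def Dom (ρ : ℝ × ℝ → ℝ) : Prop :=
  ContDiff ℝ (1 : ℕ) ρ ∧ (∀ x, ρ x = 0 → fderiv ℝ ρ x ≠ 0) ∧ Bornology.IsBounded {x | ρ x < 0}

variable {ρ : ℝ × ℝ → ℝ}

theorem Dom.isOpen (h : Dom ρ) : IsOpen {x | ρ x < 0} := isOpen_lt h.1.continuous continuous_const

theorem Dom.meas (h : Dom ρ) : MeasurableSet {x | ρ x < 0} := h.isOpen.measurableSet

theorem Dom.compact (h : Dom ρ) : IsCompact (closure {x | ρ x < 0}) := h.2.2.isCompact_closure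

theorem Dom.vol (h : Dom ρ) : volume {x | ρ x < 0} < ⊤ := h.2.2.measure_lt_top

theorem Dom.int (h : Dom ρ) {F : ℝ × ℝ → ℝ} (hF : Continuous F) :
    IntegrableOn F {x | ρ x < 0} volume :=
  (hF.continuousOn.integrableOn_compact h.compact).mono_set subset_closure

theorem Dom.bound (h : Dom ρ) {F : ℝ × ℝ → ℝ} (hF : Continuous F) :
    ∃ C, 0 ≤ C ∧ ∀ x, ρ x < 0 → |F x| ≤ C := by
  obtain ⟨C, hC⟩ := h.compact.exists_bound_of_continuousOn hF.continuousOn
  exact ⟨max C 0, le_max_right _ _, fun x hx =>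
    (hC x (subset_closure hx)).trans (le_max_left _ _)⟩

theorem Dom.ratio (h : Dom ρ) {F : ℝ × ℝ → ℝ} (hF : ContDiff ℝ (1 : ℕ) F)
    (h0 : ∀ x, ρ x = 0 → F x = 0) : ∃ C, 0 ≤ C ∧ ∀ x, ρ x < 0 → |F x| ≤ C * |ρ x| := by
  have key : ∃ C, 0 ≤ C ∧ ∀ x ∈ closure {x | ρ x < 0}, |F x| ≤ C * |ρ x| := by
    refine h.compact.induction_on (p := fun s => ∃ C, 0 ≤ C ∧ ∀ x ∈ s, |F x| ≤ C * |ρ x|)
      ⟨0, le_rfl, by simp⟩ ?_ ?_ ?_
    · rintro s t hst ⟨C, a, b⟩
      exact ⟨C, a, fun x hx => b x (hst hx)⟩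
    · rintro s t ⟨C, a, b⟩ ⟨D, a', b'⟩
      refine ⟨max C D, le_max_of_le_left a, fun x hx => ?_⟩
      rcases hx with hx | hx
      · exact (b x hx).trans (mul_le_mul_of_nonneg_right (le_max_left _ _) (abs_nonneg _))
      · exact (b' x hx).trans (mul_le_mul_of_nonneg_right (le_max_right _ _) (abs_nonneg _))
    · intro x _
      obtain ⟨g, g1, g2⟩ : ∃ g : ℝ × ℝ → ℝ, ContinuousAt g x ∧ F =ᶠ[𝓝 x] fun y => ρ y * g y := by
        by_cases hx : ρ x = 0
        · obtain ⟨g, g1, g2⟩ := exists_div (n := 0) h.1.contDiffAt hF.contDiffAt hx (h.2.1 x hx)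
            (Eventually.of_forall h0)
          exact ⟨g, g1.continuousAt, g2⟩
        · refine ⟨fun y => F y / ρ y, hF.continuous.continuousAt.div
            h.1.continuous.continuousAt hx, ?_⟩
          filter_upwards [h.1.continuous.continuousAt.eventually_ne hx] with y hy
          field_simp
      have g3 : ∀ᶠ y in 𝓝 x, |g y| ≤ |g x| + 1 :=
        g1.abs.eventually (eventually_le_nhds (lt_add_one _))
      refine ⟨_, mem_nhdsWithin_of_mem_nhds (g2.and g3), |g x| + 1, by positivity,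
        fun y hy => ?_⟩
      rw [hy.1, abs_mul, mul_comm]
      exact mul_le_mul_of_nonneg_right hy.2 (abs_nonneg _)
  obtain ⟨C, a, b⟩ := key
  exact ⟨C, a, fun x hx => b x (subset_closure hx)⟩

theorem st_deriv_bound : ∃ B, 0 ≤ B ∧ ∀ s, |deriv Real.smoothTransition s * (s + 1)| ≤ B := by
  have c : Continuous fun s => deriv Real.smoothTransition s * (s + 1) :=
    ((Real.smoothTransition.contDiff (n := 1)).continuous_deriv le_rfl).mul (by fun_prop)
  obtain ⟨B, hB⟩ := (isCompact_Icc (a := (0 : ℝ)) (b := 1)).exists_bound_of_continuousOn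
    c.continuousOn
  refine ⟨max B 0, le_max_right _ _, fun s => ?_⟩
  by_cases hs : s ∈ Icc (0 : ℝ) 1
  · exact (hB s hs).trans (le_max_left _ _)
  · have : deriv Real.smoothTransition s = 0 := by
      rcases not_and_or.1 hs with h | h
      · have : Real.smoothTransition =ᶠ[𝓝 s] fun _ => 0 := by
          filter_upwards [gt_mem_nhds (not_le.1 h)] with y hy
          exact Real.smoothTransition.zero_of_nonpos (le_of_lt hy)
        rw [this.deriv_eq, deriv_const]
      · have : Real.smoothTransition =ᶠ[𝓝 s] fun _ => 1 := by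
          filter_upwards [lt_mem_nhds (not_le.1 h)] with y hy
          exact Real.smoothTransition.one_of_one_le (le_of_lt hy)
        rw [this.deriv_eq, deriv_const]
    rw [this, zero_mul, abs_zero]
    exact le_max_right _ _

theorem Dom.approx (h : Dom ρ) {F : ℝ × ℝ → ℝ} (hF : ContDiff ℝ (1 : ℕ) F)
    (h0 : ∀ x, ρ x = 0 → F x = 0) : ∃ G : ℕ → ℝ × ℝ → ℝ,
      (∀ n, ContDiff ℝ (1 : ℕ) (G n)) ∧ (∀ n, HasCompactSupport (G n)) ∧
      (∀ n x, ¬ ρ x < 0 → G n x = 0 ∧ ∀ e, pd e (G n) x = 0) ∧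
      (∀ x, ρ x < 0 → ∀ᶠ n in atTop, G n x = F x ∧ ∀ e, pd e (G n) x = pd e F x) ∧
      (∃ C, ∀ n x, ρ x < 0 → |G n x| ≤ C) ∧
      ∀ e, ∃ C, ∀ n x, ρ x < 0 → |pd e (G n) x| ≤ C := by
  have cρ := h.1.continuous
  let s : ℕ → ℝ × ℝ → ℝ := fun n x => -(((n : ℝ) + 1) * ρ x) - 1
  have hs : ∀ n, ContDiff ℝ (1 : ℕ) (s n) := fun n =>
    (contDiff_const.mul h.1).neg.sub contDiff_const
  let G : ℕ → ℝ × ℝ → ℝ := fun n x => Real.smoothTransition (s n x) * F x
  have hG : ∀ n, ContDiff ℝ (1 : ℕ) (G n) := fun n =>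
    (Real.smoothTransition.contDiff.comp (hs n)).mul hF
  have off : ∀ n x, ¬ ρ x < 0 → G n =ᶠ[𝓝 x] fun _ => 0 := fun n x hx => by
    have : s n x < 0 := by
      simp only [s]
      nlinarith [mul_nonneg (by positivity : (0 : ℝ) ≤ n + 1) (not_lt.1 hx)]
    filter_upwards [(hs n).continuous.continuousAt.eventually (gt_mem_nhds this)] with y hy
    simp only [G]
    rw [Real.smoothTransition.zero_of_nonpos (le_of_lt hy), zero_mul]
  refine ⟨G, hG, fun n => HasCompactSupport.intro h.compact fun x hx =>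
    (off n x fun h' => hx (subset_closure h')).eq_of_nhds,
    fun n x hx => ⟨(off n x hx).eq_of_nhds, fun e => by rw [pd_congr_pt e (off n x hx), pd_const]⟩,
    fun x hx => ?_, ?_, fun e => ?_⟩
  · obtain ⟨m, hm⟩ := exists_nat_gt (2 / (-ρ x))
    rw [div_lt_iff₀ (by linarith)] at hm
    filter_upwards [eventually_ge_atTop m] with n hn
    have hn' : (m : ℝ) ≤ n := by exact_mod_cast hn
    have : 1 < s n x := by simp only [s]; nlinarith
    have ev : G n =ᶠ[𝓝 x] F := by
      filter_upwards [(hs n).continuous.continuousAt.eventually (lt_mem_nhds this)] with y hy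
      simp only [G]
      rw [Real.smoothTransition.one_of_one_le (le_of_lt hy), one_mul]
    exact ⟨ev.eq_of_nhds, fun e => pd_congr_pt e ev⟩
  · obtain ⟨C, -, hC⟩ := h.bound hF.continuous
    refine ⟨C, fun n x hx => ?_⟩
    simp only [G]
    rw [abs_mul, abs_of_nonneg (Real.smoothTransition.nonneg _)]
    exact (mul_le_of_le_one_left (abs_nonneg _) (Real.smoothTransition.le_one _)).trans (hC x hx)
  · obtain ⟨B, hB0, hB⟩ := st_deriv_bound
    obtain ⟨C, hC0, hC⟩ := h.ratio hF h0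
    obtain ⟨D, hD0, hD⟩ := h.bound (contDiff_pd (n := 0) e h.1).continuous
    obtain ⟨D', hD0', hD'⟩ := h.bound (contDiff_pd (n := 0) e hF).continuous
    refine ⟨B * C * D + D', fun n x hx => ?_⟩
    have d1 : HD e x (s n) (-(((n : ℝ) + 1) * pd e ρ x)) := by
      have := ((HD.const e x 0).sub ((HD.of_diff (e := e) (cdg_diff h.1 le_rfl x)).cmul
        ((n : ℝ) + 1))).sub (HD.const e x 1)
      simpa [s] using this
    have d2 : HD e x (fun y => Real.smoothTransition (s n y))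
        (deriv Real.smoothTransition (s n x) * -(((n : ℝ) + 1) * pd e ρ x)) := by
      have a : HasDerivAt Real.smoothTransition (deriv Real.smoothTransition (s n x))
          (s n (x + (0 : ℝ) • e)) := by
        simpa using ((Real.smoothTransition.contDiff (n := 1)).differentiable (by simp)
          (s n x)).hasDerivAt
      exact a.comp (0 : ℝ) d1
    rw [(d2.mul (HD.of_diff (cdg_diff hF le_rfl x))).pd_eq (cdg_diff (hG n) le_rfl x)]
    refine (abs_add_le _ _).trans (add_le_add ?_ ?_)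
    · have b1 := hB (s n x)
      have e1 : s n x + 1 = -(((n : ℝ) + 1) * ρ x) := by simp only [s]; ring
      rw [e1, abs_mul, abs_neg, abs_mul, abs_of_pos (by positivity : (0 : ℝ) < n + 1)] at b1
      rw [abs_mul, abs_mul, abs_neg, abs_mul, abs_of_pos (by positivity : (0 : ℝ) < n + 1)]
      have b2 := hC x hx
      have b3 := hD x hx
      calc |deriv Real.smoothTransition (s n x)| * ((n + 1) * |pd e ρ x|) * |F x|
          ≤ |deriv Real.smoothTransition (s n x)| * ((n + 1) * D) * (C * |ρ x|) := by gcongr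
        _ = |deriv Real.smoothTransition (s n x)| * ((n + 1) * |ρ x|) * (C * D) := by ring
        _ ≤ B * (C * D) := by gcongr
        _ = B * C * D := by ring
    · rw [abs_mul, abs_of_nonneg (Real.smoothTransition.nonneg _)]
      exact (mul_le_of_le_one_left (abs_nonneg _) (Real.smoothTransition.le_one _)).trans
        (hD' x hx)

/-- Dominated convergence for functions supported in the domain. -/
theorem Dom.lim (h : Dom ρ) {G : ℕ → ℝ × ℝ → ℝ} {F : ℝ × ℝ → ℝ} (hG : ∀ n, Continuous (G n))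
    (h1 : ∀ n x, ¬ ρ x < 0 → G n x = 0) (h2 : ∀ x, ρ x < 0 → ∀ᶠ n in atTop, G n x = F x)
    {C : ℝ} (h3 : ∀ n x, ρ x < 0 → |G n x| ≤ C) :
    Tendsto (fun n => ∫ x, G n x) atTop (𝓝 (∫ x in {x | ρ x < 0}, F x)) := by
  have e : ∀ n, ∫ x, G n x = ∫ x in {x | ρ x < 0}, G n x := fun n =>
    (setIntegral_eq_integral_of_forall_compl_eq_zero fun x hx => h1 n x hx).symm
  simp only [e]
  refine tendsto_integral_of_dominated_convergence (fun _ => C)
    (fun n => (hG n).aestronglyMeasurable) (h.int continuous_const) (fun n => ?_) ?_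
  · exact (ae_restrict_iff' h.meas).2 (Eventually.of_forall fun x hx => h3 n x hx)
  · exact (ae_restrict_iff' h.meas).2 (Eventually.of_forall fun x hx =>
      tendsto_const_nhds.congr' ((h2 x hx).mono fun n hn => hn.symm))

theorem Dom.div_zero2 (h : Dom ρ) {F : ℝ × ℝ → ℝ} (hF : ContDiff ℝ (1 : ℕ) F)
    (h0 : ∀ x, ρ x = 0 → F x = 0) (e : ℝ × ℝ) : ∫ x in {x | ρ x < 0}, pd e F x = 0 := by
  haveI := haar2
  obtain ⟨G, g1, g2, g3, g4, -, g6⟩ := h.approx hF h0
  obtain ⟨C, hC⟩ := g6 e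
  have := h.lim (G := fun n => pd e (G n)) (F := pd e F)
    (fun n => (contDiff_pd (n := 0) e (g1 n)).continuous) (fun n x hx => (g3 n x hx).2 e)
    (fun x hx => (g4 x hx).mono fun n hn => hn.2 e) hC
  simp only [integral_pd_eq_zero volume e (g1 _) (g2 _)] at this
  exact tendsto_nhds_unique this tendsto_const_nhds

theorem pd_slice {F : ST → ℝ} {t : ℝ} {x : ℝ × ℝ} (hF : DifferentiableAt ℝ F (t, x))
    (e : ℝ × ℝ) : pd e (fun y => F (t, y)) x = pd (0, e) F (t, x) := by
  have a := HD.of_diff (e := ((0, e) : ST)) hF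
  have b : HD e x (fun y => F (t, y)) (pd (0, e) F (t, x)) := by
    unfold HD at a ⊢
    simpa using a
  exact b.pd_eq (hF.comp x (by fun_prop))

theorem Dom.div_zero (h : Dom ρ) {F : ST → ℝ} (hF : ContDiff ℝ (1 : ℕ) F) {t : ℝ}
    (h0 : ∀ x, ρ x = 0 → F (t, x) = 0) (e : ℝ × ℝ) :
    ∫ x in {x | ρ x < 0}, pd (0, e) F (t, x) = 0 := by
  have := h.div_zero2 (F := fun y => F (t, y)) (hF.comp (by fun_prop)) h0 e
  simpa only [pd_slice (cdg_diff hF le_rfl _)] using this

theorem Dom.intST (h : Dom ρ) {F : ST → ℝ} (hF : Continuous F) (t : ℝ) :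
    IntegrableOn (fun x => F (t, x)) {x | ρ x < 0} volume := h.int (by fun_prop)

theorem Dom.hasDerivAt (h : Dom ρ) {F : ST → ℝ} (hF : ContDiff ℝ (1 : ℕ) F) (t : ℝ) :
    HasDerivAt (fun s => ∫ x in {x | ρ x < 0}, F (s, x))
      (∫ x in {x | ρ x < 0}, pd e0 F (t, x)) t := by
  have c0 := hF.continuous
  have c1 := (contDiff_pd (n := 0) e0 hF).continuous
  obtain ⟨C, hC⟩ := ((isCompact_closedBall t 1).prod h.compact).exists_bound_of_continuousOn
    c1.continuousOn
  refine (hasDerivAt_integral_of_dominated_loc_of_deriv_le (Metric.ball_mem_nhds t one_pos)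
    (F := fun s x => F (s, x)) (F' := fun s x => pd e0 F (s, x)) (bound := fun _ => C)
    (Eventually.of_forall fun s => (h.intST c0 s).aestronglyMeasurable) (h.intST c0 t)
    (h.intST c1 t).aestronglyMeasurable ?_ (h.int continuous_const) ?_).2
  · exact (ae_restrict_iff' h.meas).2 (Eventually.of_forall fun x hx s hs =>
      hC (s, x) ⟨Metric.ball_subset_closedBall hs, subset_closure hx⟩)
  · refine Eventually.of_forall fun x s _ => ?_
    have a : HasDerivAt (fun s : ℝ => ((s, x) : ST)) e0 s :=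
      (hasDerivAt_id s).prodMk (hasDerivAt_const s x)
    exact (cdg_diff hF le_rfl (s, x)).hasFDerivAt.comp_hasDerivAt s a

end Pool.Agent.MP_ed9623_an.H64
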