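import Pool.Agent.MP_ed9623_an.H64.Defs

open Filter Topology MeasureTheory Set

namespace Pool.Agent.MP_ed9623_an.H64

section general
variable {E : Type*} [NormedAddCommGroup E] [NormedSpace ℝ E]

theorem pd_mul {f g : E → ℝ} {z : E} (e : E) (hf : DifferentiableAt ℝ f z)
    (hg : DifferentiableAt ℝ g z) :
    pd e (fun y => f y * g y) z = pd e f z * g z + f z * pd e g z := by
  unfold pd
  rw [fderiv_fun_mul hf hg]
  simp only [ContinuousLinearMap.add_apply, ContinuousLinearMap.smul_apply, smul_eq_mul]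
  ring

theorem pd_add {f g : E → ℝ} {z : E} (e : E) (hf : DifferentiableAt ℝ f z)
    (hg : DifferentiableAt ℝ g z) :
    pd e (fun y => f y + g y) z = pd e f z + pd e g z := by
  unfold pd
  rw [fderiv_fun_add hf hg]
  simp only [ContinuousLinearMap.add_apply]

theorem pd_sub {f g : E → ℝ} {z : E} (e : E) (hf : DifferentiableAt ℝ f z)
    (hg : DifferentiableAt ℝ g z) :
    pd e (fun y => f y - g y) z = pd e f z - pd e g z := by
  unfold pd
  rw [fderiv_fun_sub hf hg]
  simp only [ContinuousLinearMap.sub_apply]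

theorem pd_const_mul {f : E → ℝ} {z : E} (e : E) (c : ℝ) (hf : DifferentiableAt ℝ f z) :
    pd e (fun y => c * f y) z = c * pd e f z := by
  unfold pd
  rw [fderiv_const_mul hf]
  simp only [ContinuousLinearMap.smul_apply, smul_eq_mul]

theorem pd_neg {f : E → ℝ} {z : E} (e : E) :
    pd e (fun y => - f y) z = - pd e f z := by
  unfold pd
  rw [fderiv_fun_neg]
  simp only [ContinuousLinearMap.neg_apply]

theorem pd_const (e z : E) (c : ℝ) : pd e (fun _ => c) z = 0 := by
  unfold pd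
  simp

theorem pd_zero_fun (e : E) : pd e (fun _ : E => (0 : ℝ)) = fun _ => 0 := by
  funext z; exact pd_const e z 0

theorem pd_congr {f g : E → ℝ} {z : E} (e : E) (h : f =ᶠ[𝓝 z] g) :
    pd e f =ᶠ[𝓝 z] pd e g := by
  filter_upwards [h.eventuallyEq_nhds] with y hy
  unfold pd
  rw [hy.fderiv_eq]

theorem pd_congr_pt {f g : E → ℝ} {z : E} (e : E) (h : f =ᶠ[𝓝 z] g) :
    pd e f z = pd e g z := (pd_congr e h).eq_of_nhds

theorem pd_add_dir (f : E → ℝ) (z e e' : E) : pd (e + e') f z = pd e f z + pd e' f z := by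
  unfold pd; simp

theorem pd_smul_dir (f : E → ℝ) (z e : E) (c : ℝ) : pd (c • e) f z = c * pd e f z := by
  unfold pd; simp

theorem contDiffAt_pd {f : E → ℝ} {z : E} (e : E) {n : ℕ} (hf : ContDiffAt ℝ (n + 1 : ℕ) f z) :
    ContDiffAt ℝ n (pd e f) z := by
  have h : ContDiffAt ℝ n (fderiv ℝ f) z := hf.fderiv_right (by push_cast; exact le_rfl)
  exact h.clm_apply contDiffAt_const

theorem contDiff_pd {f : E → ℝ} (e : E) {n : ℕ} (hf : ContDiff ℝ (n + 1 : ℕ) f) :
    ContDiff ℝ n (pd e f) :=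
  contDiff_iff_contDiffAt.2 fun _ => contDiffAt_pd e hf.contDiffAt

theorem cd_le {f : E → ℝ} {z : E} {n m : ℕ} (hf : ContDiffAt ℝ n f z) (h : m ≤ n) :
    ContDiffAt ℝ m f z := hf.of_le (by exact_mod_cast h)

theorem cdg_le {f : E → ℝ} {n m : ℕ} (hf : ContDiff ℝ n f) (h : m ≤ n) :
    ContDiff ℝ m f := hf.of_le (by exact_mod_cast h)

theorem cd_diff {f : E → ℝ} {z : E} {n : ℕ} (hf : ContDiffAt ℝ n f z) (h : 1 ≤ n) :
    DifferentiableAt ℝ f z := hf.differentiableAt (by
      have : (n : WithTop ℕ∞) ≠ 0 := by exact_mod_cast (by omega : n ≠ 0)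
      exact this)

theorem cdg_diff {f : E → ℝ} {n : ℕ} (hf : ContDiff ℝ n f) (h : 1 ≤ n) (z : E) :
    DifferentiableAt ℝ f z := cd_diff hf.contDiffAt h

theorem pd_comm {f : E → ℝ} {z : E} (e e' : E) (hf : ContDiffAt ℝ (2 : ℕ) f z) :
    pd e (pd e' f) z = pd e' (pd e f) z := by
  have hs : IsSymmSndFDerivAt ℝ f z := hf.isSymmSndFDerivAt (by simp)
  have hd : DifferentiableAt ℝ (fderiv ℝ f) z := by
    have h : ContDiffAt ℝ (1 : ℕ) (fderiv ℝ f) z := hf.fderiv_right (by norm_num)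
    exact h.differentiableAt (by simp)
  have key : ∀ a b : E, pd a (pd b f) z = fderiv ℝ (fderiv ℝ f) z a b := by
    intro a b
    unfold pd
    rw [fderiv_clm_apply hd (differentiableAt_const b)]
    simp
  rw [key, key, hs.eq]

/-- A derivative of a function vanishing on an open set vanishes on its closure. -/
theorem pd_eq_zero_of_closure {f : E → ℝ} {U : Set E} (hU : IsOpen U) {z : E} (e : E)
    (hf : ContDiffAt ℝ (1 : ℕ) f z) (hz : z ∈ closure U) (h0 : ∀ᶠ y in 𝓝 z, y ∈ U → f y = 0) :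
    pd e f z = 0 := by
  have hc : ContinuousAt (pd e f) z := (contDiffAt_pd (n := 0) e hf).continuousAt
  have h1 : ∀ᶠ y in 𝓝 z, y ∈ U → pd e f y = 0 := by
    filter_upwards [h0.eventually_nhds] with y hy hyU
    have : f =ᶠ[𝓝 y] fun _ => 0 := by
      filter_upwards [hy, hU.mem_nhds hyU] with w hw hwU using hw hwU
    rw [pd_congr_pt e this, pd_const]
  by_contra hne
  have h2 : ∀ᶠ y in 𝓝 z, pd e f y ≠ 0 := hc.eventually_ne hne
  have h3 : ∃ᶠ y in 𝓝 z, y ∈ U := mem_closure_iff_frequently.1 hz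
  obtain ⟨y, hyU, hy1, hy2⟩ := (h3.and_eventually (h1.and h2)).exists
  exact hy2 (hy1 hyU)

theorem eq_zero_of_closure {f : E → ℝ} {U : Set E} {z : E}
    (hf : ContinuousAt f z) (hz : z ∈ closure U) (h0 : ∀ᶠ y in 𝓝 z, y ∈ U → f y = 0) :
    f z = 0 := by
  by_contra hne
  have h2 : ∀ᶠ y in 𝓝 z, f y ≠ 0 := hf.eventually_ne hne
  have h3 : ∃ᶠ y in 𝓝 z, y ∈ U := mem_closure_iff_frequently.1 hz
  obtain ⟨y, hyU, hy1, hy2⟩ := (h3.and_eventually (h0.and h2)).exists
  exact hy2 (hy1 hyU)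

/-- Line derivative predicate. -/
def HD (e z : E) (f : E → ℝ) (f' : ℝ) : Prop := HasDerivAt (fun s : ℝ => f (z + s • e)) f' 0

theorem HD.of_diff {e z : E} {f : E → ℝ} (hf : DifferentiableAt ℝ f z) : HD e z f (pd e f z) :=
  hf.hasFDerivAt.hasLineDerivAt e

theorem HD.pd_eq {e z : E} {f : E → ℝ} {f' : ℝ} (h : HD e z f f') (hf : DifferentiableAt ℝ f z) :
    pd e f z = f' := (HD.of_diff (e := e) hf).unique h

theorem HD.mul {e z : E} {f g : E → ℝ} {f' g' : ℝ} (hf : HD e z f f') (hg : HD e z g g') :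
    HD e z (fun y => f y * g y) (f' * g z + f z * g') := by
  have := HasDerivAt.fun_mul hf hg
  unfold HD
  simpa using this

theorem HD.add {e z : E} {f g : E → ℝ} {f' g' : ℝ} (hf : HD e z f f') (hg : HD e z g g') :
    HD e z (fun y => f y + g y) (f' + g') := HasDerivAt.add hf hg

theorem HD.sub {e z : E} {f g : E → ℝ} {f' g' : ℝ} (hf : HD e z f f') (hg : HD e z g g') :
    HD e z (fun y => f y - g y) (f' - g') := HasDerivAt.sub hf hg

theorem HD.const (e z : E) (c : ℝ) : HD e z (fun _ => c) 0 := hasDerivAt_const _ _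

theorem HD.cmul {e z : E} {f : E → ℝ} {f' : ℝ} (c : ℝ) (hf : HD e z f f') :
    HD e z (fun y => c * f y) (c * f') := HasDerivAt.const_mul c hf

theorem HD.exp {e z : E} {f : E → ℝ} {f' : ℝ} (hf : HD e z f f') :
    HD e z (fun y => Real.exp (f y)) (Real.exp (f z) * f') := by
  have := HasDerivAt.exp hf
  unfold HD
  simpa using this

theorem HD.congr {e z : E} {f : E → ℝ} {f' g' : ℝ} (hf : HD e z f f') (h : f' = g') :
    HD e z f g' := h ▸ hf

theorem integral_HD_eq_zero [FiniteDimensional ℝ E] [MeasurableSpace E] [BorelSpace E]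
    (μ : Measure E) [μ.IsAddHaarMeasure] {F F' : E → ℝ} (e : E) (hF : Integrable F μ)
    (hF' : Integrable F' μ) (h : ∀ z, HD e z F (F' z)) : ∫ z, F' z ∂μ = 0 := by
  have := integral_bilinear_hasLineDerivAt_right_eq_neg_left_of_integrable (μ := μ)
    (f := fun _ => (1 : ℝ)) (f' := fun _ => (0 : ℝ)) (g := F) (g' := F') (v := e)
    (B := ContinuousLinearMap.mul ℝ ℝ) (by simp) (by simpa using hF') (by simpa using hF)
    (fun x _ => HD.const e x 1) (fun x _ => h x)
  simpa using this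

theorem integral_pd_eq_zero [FiniteDimensional ℝ E] [MeasurableSpace E] [BorelSpace E]
    (μ : Measure E) [μ.IsAddHaarMeasure] {F : E → ℝ} (e : E) (hF : ContDiff ℝ (1 : ℕ) F)
    (hc : HasCompactSupport F) : ∫ z, pd e F z ∂μ = 0 := by
  refine integral_HD_eq_zero μ e (hF.continuous.integrable_of_hasCompactSupport hc) ?_
    (fun z => HD.of_diff (cdg_diff hF le_rfl z))
  refine (contDiff_pd (n := 0) e hF).continuous.integrable_of_hasCompactSupport ?_
  exact hc.fderiv_apply ℝ e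

end general

end Pool.Agent.MP_ed9623_an.H64
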