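import Pool.Agent.MP_ed9623_an.H64.Calc

open Filter Topology MeasureTheory Set

namespace Pool.Agent.MP_ed9623_an.H64

abbrev ST : Type := ℝ × ℝ × ℝ
abbrev e0 : ST := (1, 0, 0)
abbrev e1 : ST := (0, 1, 0)
abbrev e2 : ST := (0, 0, 1)

theorem haar2 : (volume : Measure (ℝ × ℝ)).IsAddHaarMeasure := by
  rw [Measure.volume_eq_prod]; infer_instance

theorem haar3 : (volume : Measure ST).IsAddHaarMeasure := by
  haveI := haar2
  rw [Measure.volume_eq_prod]; infer_instance

def XX (c : ℝ × ℝ) (z : ST) : ℝ := z.2.1 - c.1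
def YY (c : ℝ × ℝ) (z : ST) : ℝ := z.2.2 - c.2
def qq (c : ℝ × ℝ) (z : ST) : ℝ := XX c z * XX c z + YY c z * YY c z
noncomputable def mm (c : ℝ × ℝ) (s : ℝ) (z : ST) : ℝ := 3 * s / 2 - qq c z

theorem HD_XX (c : ℝ × ℝ) (e z : ST) : HD e z (XX c) e.2.1 := by
  unfold HD XX
  simp only [Prod.snd_add, Prod.fst_add, Prod.smul_snd, Prod.smul_fst, smul_eq_mul]
  simpa using (((hasDerivAt_id (0 : ℝ)).mul_const e.2.1).const_add z.2.1).sub_const c.1

theorem HD_YY (c : ℝ × ℝ) (e z : ST) : HD e z (YY c) e.2.2 := by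
  unfold HD YY
  simp only [Prod.snd_add, Prod.smul_snd, smul_eq_mul]
  simpa using (((hasDerivAt_id (0 : ℝ)).mul_const e.2.2).const_add z.2.2).sub_const c.2

theorem HD_TT (t : ℝ) (e z : ST) : HD e z (fun y => y.1 - t) e.1 := by
  unfold HD
  simp only [Prod.fst_add, Prod.smul_fst, smul_eq_mul]
  simpa using (((hasDerivAt_id (0 : ℝ)).mul_const e.1).const_add z.1).sub_const t

theorem HD_qq (c : ℝ × ℝ) (e z : ST) :
    HD e z (qq c) (2 * XX c z * e.2.1 + 2 * YY c z * e.2.2) :=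
  (((HD_XX c e z).mul (HD_XX c e z)).add ((HD_YY c e z).mul (HD_YY c e z))).congr (by ring)

theorem HD_mm (c : ℝ × ℝ) (s : ℝ) (e z : ST) :
    HD e z (mm c s) (-(2 * XX c z * e.2.1 + 2 * YY c z * e.2.2)) :=
  ((HD.const e z (3 * s / 2)).sub (HD_qq c e z)).congr (by ring)

@[fun_prop] theorem cd_XX (c : ℝ × ℝ) (n : WithTop ℕ∞) : ContDiff ℝ n (XX c) := by
  unfold XX; fun_prop
@[fun_prop] theorem cd_YY (c : ℝ × ℝ) (n : WithTop ℕ∞) : ContDiff ℝ n (YY c) := by
  unfold YY; fun_prop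
@[fun_prop] theorem cd_qq (c : ℝ × ℝ) (n : WithTop ℕ∞) : ContDiff ℝ n (qq c) := by
  unfold qq; fun_prop
@[fun_prop] theorem cd_mm (c : ℝ × ℝ) (s : ℝ) (n : WithTop ℕ∞) : ContDiff ℝ n (mm c s) := by
  unfold mm; fun_prop
@[fun_prop] theorem ct_XX (c : ℝ × ℝ) : Continuous (XX c) := (cd_XX c 0).continuous
@[fun_prop] theorem ct_YY (c : ℝ × ℝ) : Continuous (YY c) := (cd_YY c 0).continuous
@[fun_prop] theorem ct_qq (c : ℝ × ℝ) : Continuous (qq c) := (cd_qq c 0).continuous
@[fun_prop] theorem ct_mm (c : ℝ × ℝ) (s : ℝ) : Continuous (mm c s) := (cd_mm c s 0).continuous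

theorem integrable_of_supp {v F : ST → ℝ} (hv : HasCompactSupport v) (hF : Continuous F)
    (h : ∀ z, z ∉ tsupport v → F z = 0) : Integrable F volume :=
  hF.integrable_of_hasCompactSupport (HasCompactSupport.intro hv h)

theorem zero_off_supp {v : ST → ℝ} {z : ST} (hz : z ∉ tsupport v) :
    v z = 0 ∧ (∀ e, pd e v z = 0) ∧ ∀ e e', pd e (pd e' v) z = 0 := by
  have h : v =ᶠ[𝓝 z] fun _ => 0 := notMem_tsupport_iff_eventuallyEq.1 hz
  refine ⟨h.eq_of_nhds, fun e => ?_, fun e e' => ?_⟩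
  · rw [pd_congr_pt e h, pd_const]
  · have h2 := pd_congr e' h
    rw [pd_zero_fun] at h2
    rw [pd_congr_pt e h2, pd_const]

/-- The conjugated operator without its lower order remainder. -/
noncomputable def conj (c : ℝ × ℝ) (s τ : ℝ) (v : ST → ℝ) (z : ST) : ℝ :=
  pd e1 (pd e1 v) z + pd e2 (pd e2 v) z + τ ^ 2 * (16 * mm c s z ^ 2 * qq c z) * v z - pd e0 v z
    + 8 * τ * mm c s z * (XX c z * pd e1 v z + YY c z * pd e2 v z)
    - τ * (16 * qq c z - 6 * s) * v z

theorem carleman_v (c : ℝ × ℝ) {s τ : ℝ} (hs : 0 < s) (hτ : 0 ≤ τ) {v : ST → ℝ}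
    (hv : ContDiff ℝ (2 : ℕ) v) (hc : HasCompactSupport v)
    (hsupp : ∀ z ∈ tsupport v, s ≤ qq c z ∧ qq c z ≤ 13 / 10 * s) :
    ∫ z, (4 * τ * s * (pd e1 v z ^ 2 + pd e2 v z ^ 2) + (7 * τ ^ 3 * s ^ 4 - 64 * τ) * v z ^ 2)
      ≤ ∫ z, conj c s τ v z ^ 2 := by
  haveI := haar3
  have hv1 : ContDiff ℝ (1 : ℕ) v := cdg_le hv (by norm_num)
  have h0 : ContDiff ℝ (1 : ℕ) (pd e0 v) := contDiff_pd e0 hv
  have h1 : ContDiff ℝ (1 : ℕ) (pd e1 v) := contDiff_pd e1 hv
  have h2 : ContDiff ℝ (1 : ℕ) (pd e2 v) := contDiff_pd e2 hv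
  have h11 : Continuous (pd e1 (pd e1 v)) := (contDiff_pd (n := 0) e1 h1).continuous
  have h22 : Continuous (pd e2 (pd e2 v)) := (contDiff_pd (n := 0) e2 h2).continuous
  have c0 := h0.continuous
  have c1 := h1.continuous
  have c2 := h2.continuous
  have cv := hv1.continuous
  let F0 : ST → ℝ := fun y => 1 / 2 * (pd e1 v y * pd e1 v y + pd e2 v y * pd e2 v y)
    - 8 * τ ^ 2 * (mm c s y * mm c s y * qq c y * (v y * v y))
  let F1 : ST → ℝ := fun y => 16 * τ * (XX c y * (v y * v y)) - pd e1 v y * pd e0 v y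
    + 8 * τ * (pd e1 v y * (mm c s y * (XX c y * pd e1 v y + YY c y * pd e2 v y)))
    - 4 * τ * (mm c s y * XX c y * (pd e1 v y * pd e1 v y + pd e2 v y * pd e2 v y))
    - τ * ((16 * qq c y - 6 * s) * (v y * pd e1 v y))
    + 64 * τ ^ 3 * (mm c s y * mm c s y * qq c y * (mm c s y * XX c y) * (v y * v y))
  let F2 : ST → ℝ := fun y => 16 * τ * (YY c y * (v y * v y)) - pd e2 v y * pd e0 v y
    + 8 * τ * (pd e2 v y * (mm c s y * (XX c y * pd e1 v y + YY c y * pd e2 v y)))
    - 4 * τ * (mm c s y * YY c y * (pd e1 v y * pd e1 v y + pd e2 v y * pd e2 v y))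
    - τ * ((16 * qq c y - 6 * s) * (v y * pd e2 v y))
    + 64 * τ ^ 3 * (mm c s y * mm c s y * qq c y * (mm c s y * YY c y) * (v y * v y))
  have hF0 : ContDiff ℝ (1 : ℕ) F0 := by simp only [F0]; fun_prop
  have hF1 : ContDiff ℝ (1 : ℕ) F1 := by simp only [F1]; fun_prop
  have hF2 : ContDiff ℝ (1 : ℕ) F2 := by simp only [F2]; fun_prop
  have sF0 : HasCompactSupport F0 := HasCompactSupport.intro hc fun z hz => by
    obtain ⟨a, b, -⟩ := zero_off_supp hz
    simp only [F0, a, b]; ring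
  have sF1 : HasCompactSupport F1 := HasCompactSupport.intro hc fun z hz => by
    obtain ⟨a, b, -⟩ := zero_off_supp hz
    simp only [F1, a, b]; ring
  have sF2 : HasCompactSupport F2 := HasCompactSupport.intro hc fun z hz => by
    obtain ⟨a, b, -⟩ := zero_off_supp hz
    simp only [F2, a, b]; ring
  have I0 := integral_pd_eq_zero volume e0 hF0 sF0
  have I1 := integral_pd_eq_zero volume e1 hF1 sF1
  have I2 := integral_pd_eq_zero volume e2 hF2 sF2
  have i0 : Integrable (pd e0 F0) volume :=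
    (contDiff_pd (n := 0) e0 hF0).continuous.integrable_of_hasCompactSupport
      (sF0.fderiv_apply ℝ e0)
  have i1 : Integrable (pd e1 F1) volume :=
    (contDiff_pd (n := 0) e1 hF1).continuous.integrable_of_hasCompactSupport
      (sF1.fderiv_apply ℝ e1)
  have i2 : Integrable (pd e2 F2) volume :=
    (contDiff_pd (n := 0) e2 hF2).continuous.integrable_of_hasCompactSupport
      (sF2.fderiv_apply ℝ e2)
  have iL : Integrable (fun z => (4 * τ * s * (pd e1 v z ^ 2 + pd e2 v z ^ 2)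
      + (7 * τ ^ 3 * s ^ 4 - 64 * τ) * v z ^ 2)) volume :=
    integrable_of_supp hc (by fun_prop) fun z hz => by
      obtain ⟨a, b, -⟩ := zero_off_supp hz
      simp only [a, b]; ring
  have iR : Integrable (fun z => conj c s τ v z ^ 2) volume :=
    integrable_of_supp hc (by unfold conj; fun_prop) fun z hz => by
      obtain ⟨a, b, d⟩ := zero_off_supp hz
      simp only [conj, a, b, d]; ring
  have key : ∀ z, (4 * τ * s * (pd e1 v z ^ 2 + pd e2 v z ^ 2)
      + (7 * τ ^ 3 * s ^ 4 - 64 * τ) * v z ^ 2) + 2 * (pd e0 F0 z + pd e1 F1 z + pd e2 F2 z)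
      ≤ conj c s τ v z ^ 2 := by
    intro z
    have dv := fun e => HD.of_diff (e := e) (cdg_diff hv1 le_rfl z)
    have d0 := fun e => HD.of_diff (e := e) (cdg_diff h0 le_rfl z)
    have d1 := fun e => HD.of_diff (e := e) (cdg_diff h1 le_rfl z)
    have d2 := fun e => HD.of_diff (e := e) (cdg_diff h2 le_rfl z)
    have dX := fun e => HD_XX c e z
    have dY := fun e => HD_YY c e z
    have dq := fun e => HD_qq c e z
    have dm := fun e => HD_mm c s e z
    have E0 := (((((d1 e0).mul (d1 e0)).add ((d2 e0).mul (d2 e0))).cmul (1 / 2)).sub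
      (((((dm e0).mul (dm e0)).mul (dq e0)).mul ((dv e0).mul (dv e0))).cmul (8 * τ ^ 2))).pd_eq
      (cdg_diff hF0 le_rfl z)
    have E1 := ((((((((dX e1).mul ((dv e1).mul (dv e1))).cmul (16 * τ)).sub
      ((d1 e1).mul (d0 e1))).add (((d1 e1).mul ((dm e1).mul (((dX e1).mul (d1 e1)).add
        ((dY e1).mul (d2 e1))))).cmul (8 * τ))).sub
      ((((dm e1).mul (dX e1)).mul (((d1 e1).mul (d1 e1)).add ((d2 e1).mul (d2 e1)))).cmul
        (4 * τ))).sub
      ((((((dq e1).cmul 16).sub (HD.const e1 z (6 * s))).mul ((dv e1).mul (d1 e1)))).cmul τ)).add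
      ((((((dm e1).mul (dm e1)).mul (dq e1)).mul ((dm e1).mul (dX e1))).mul
        ((dv e1).mul (dv e1))).cmul (64 * τ ^ 3))).pd_eq (cdg_diff hF1 le_rfl z)
    have E2 := ((((((((dY e2).mul ((dv e2).mul (dv e2))).cmul (16 * τ)).sub
      ((d2 e2).mul (d0 e2))).add (((d2 e2).mul ((dm e2).mul (((dX e2).mul (d1 e2)).add
        ((dY e2).mul (d2 e2))))).cmul (8 * τ))).sub
      ((((dm e2).mul (dY e2)).mul (((d1 e2).mul (d1 e2)).add ((d2 e2).mul (d2 e2)))).cmul
        (4 * τ))).sub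
      ((((((dq e2).cmul 16).sub (HD.const e2 z (6 * s))).mul ((dv e2).mul (d2 e2)))).cmul τ)).add
      ((((((dm e2).mul (dm e2)).mul (dq e2)).mul ((dm e2).mul (dY e2))).mul
        ((dv e2).mul (dv e2))).cmul (64 * τ ^ 3))).pd_eq (cdg_diff hF2 le_rfl z)
    have s01 := pd_comm e0 e1 (hv.contDiffAt (x := z))
    have s02 := pd_comm e0 e2 (hv.contDiffAt (x := z))
    have s12 := pd_comm e1 e2 (hv.contDiffAt (x := z))
    change pd e0 F0 z = _ at E0
    change pd e1 F1 z = _ at E1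
    change pd e2 F2 z = _ at E2
    rw [E0, E1, E2, s01, s02, s12]
    by_cases hz : z ∈ tsupport v
    swap
    · obtain ⟨a, b, d⟩ := zero_off_supp hz
      simp only [conj, a, b, d]
      norm_num
    obtain ⟨hq1, hq2⟩ := hsupp z hz
    unfold conj
    have hm : mm c s z = 3 * s / 2 - qq c z := rfl
    have hq : qq c z = XX c z * XX c z + YY c z * YY c z := rfl
    generalize pd e1 (pd e1 v) z = w11
    generalize pd e2 (pd e2 v) z = w22
    generalize pd e2 (pd e1 v) z = w12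
    generalize pd e1 (pd e0 v) z = w01
    generalize pd e2 (pd e0 v) z = w02
    generalize pd e0 v z = v0
    generalize pd e1 v z = v1
    generalize pd e2 v z = v2
    generalize v z = w
    generalize mm c s z = m at *
    generalize qq c z = q at *
    generalize XX c z = X at *
    generalize YY c z = Y at *
    simp only
    have hm1 : s / 5 ≤ m := by linarith
    have hG : 16 / 25 * s ^ 3 ≤ 16 * m ^ 2 * q := by
      have : (s / 5) ^ 2 ≤ m ^ 2 := pow_le_pow_left₀ (by positivity) hm1 2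
      nlinarith [mul_le_mul this hq1 hs.le (by positivity)]
    have g1 : 0 ≤ τ * (X * v1 + Y * v2) ^ 2 := by positivity
    have g2 : 0 ≤ τ * (v1 ^ 2 + v2 ^ 2) * (4 * s - 8 * m) :=
      mul_nonneg (by positivity) (by linarith)
    have g3 : 0 ≤ τ ^ 3 * w ^ 2 * (2 * (16 * m ^ 2 * q) * (24 * q - 18 * s) - 7 * s ^ 4) := by
      refine mul_nonneg (by positivity) ?_
      have : 6 * s ≤ 24 * q - 18 * s := by linarith
      have hq0 : 0 ≤ q := by linarith
      nlinarith [mul_le_mul hG this (by positivity) (by positivity), pow_pos hs 4]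
    have g4 := sq_nonneg (w11 + w22 + τ ^ 2 * (16 * m ^ 2 * q) * w)
    have g5 := sq_nonneg (- v0 + 8 * τ * m * (X * v1 + Y * v2) - τ * (16 * q - 6 * s) * w)
    have g6 := add_nonneg (add_nonneg (add_nonneg (add_nonneg
      (mul_nonneg (by norm_num : (0 : ℝ) ≤ 32) g1) (mul_nonneg (by norm_num : (0 : ℝ) ≤ 2) g2)) g3)
      g4) g5
    rw [← sub_nonneg]
    refine g6.trans_eq ?_
    subst hm
    subst hq
    ring
  have i01 : Integrable (fun z => pd e0 F0 z + pd e1 F1 z) volume := i0.add i1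
  have i012 : Integrable (fun z => pd e0 F0 z + pd e1 F1 z + pd e2 F2 z) volume := i01.add i2
  have := integral_mono (iL.add (i012.const_mul 2)) iR key
  simp only [Pi.add_apply] at this
  rw [integral_add iL (i012.const_mul 2), integral_const_mul,
    integral_add i01 i2, integral_add i0 i1, I0, I1, I2] at this
  linarith

end Pool.Agent.MP_ed9623_an.H64
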