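import Pool.Agent.MP_ed9623_an.H64.Carl1

open Filter Topology MeasureTheory Set

namespace Pool.Agent.MP_ed9623_an.H64

noncomputable def Lh (f : ST → ℝ) (z : ST) : ℝ :=
  pd e1 (pd e1 f) z + pd e2 (pd e2 f) z - pd e0 f z

noncomputable def gr (f : ST → ℝ) (z : ST) : ℝ := pd e1 f z ^ 2 + pd e2 f z ^ 2

noncomputable def wt (c : ℝ × ℝ) (s β t : ℝ) (z : ST) : ℝ :=
  mm c s z * mm c s z - β * ((z.1 - t) * (z.1 - t))

@[fun_prop] theorem cd_wt (c : ℝ × ℝ) (s β t : ℝ) (n : WithTop ℕ∞) :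
    ContDiff ℝ n (wt c s β t) := by
  unfold wt; fun_prop
@[fun_prop] theorem ct_wt (c : ℝ × ℝ) (s β t : ℝ) : Continuous (wt c s β t) :=
  (cd_wt c s β t 0).continuous

theorem HD_wt (c : ℝ × ℝ) (s β t : ℝ) (e z : ST) : HD e z (wt c s β t)
    (-4 * (mm c s z * (XX c z * e.2.1 + YY c z * e.2.2)) - 2 * β * (z.1 - t) * e.1) :=
  (((HD_mm c s e z).mul (HD_mm c s e z)).sub
    (((HD_TT t e z).mul (HD_TT t e z)).cmul β)).congr (by ring)

theorem Lh_congr {f g : ST → ℝ} {z : ST} (h : f =ᶠ[𝓝 z] g) : Lh f z = Lh g z := by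
  unfold Lh
  rw [pd_congr_pt e1 (pd_congr e1 h), pd_congr_pt e2 (pd_congr e2 h), pd_congr_pt e0 h]

theorem gr_congr {f g : ST → ℝ} {z : ST} (h : f =ᶠ[𝓝 z] g) : gr f z = gr g z := by
  unfold gr
  rw [pd_congr_pt e1 h, pd_congr_pt e2 h]

theorem Lh_zero {f : ST → ℝ} {z : ST} (hz : z ∉ tsupport f) : Lh f z = 0 := by
  obtain ⟨-, b, d⟩ := zero_off_supp hz
  simp only [Lh, b, d]; ring

theorem gr_zero {f : ST → ℝ} {z : ST} (hz : z ∉ tsupport f) : gr f z = 0 := by
  obtain ⟨-, b, -⟩ := zero_off_supp hz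
  simp only [gr, b]; ring

theorem gr_nonneg (f : ST → ℝ) (z : ST) : 0 ≤ gr f z := by unfold gr; positivity

theorem ct_Lh {f : ST → ℝ} (hf : ContDiff ℝ (2 : ℕ) f) : Continuous (Lh f) := by
  have h0 : Continuous (pd e0 f) := (contDiff_pd (n := 1) e0 hf).continuous
  have h11 : Continuous (pd e1 (pd e1 f)) :=
    (contDiff_pd (n := 0) e1 (contDiff_pd (n := 1) e1 hf)).continuous
  have h22 : Continuous (pd e2 (pd e2 f)) :=
    (contDiff_pd (n := 0) e2 (contDiff_pd (n := 1) e2 hf)).continuous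
  unfold Lh; fun_prop

theorem ct_gr {f : ST → ℝ} (hf : ContDiff ℝ (2 : ℕ) f) : Continuous (gr f) := by
  have h1 : Continuous (pd e1 f) := (contDiff_pd (n := 1) e1 hf).continuous
  have h2 : Continuous (pd e2 f) := (contDiff_pd (n := 1) e2 hf).continuous
  unfold gr; fun_prop

theorem carleman_f (c : ℝ × ℝ) {s τ β t K : ℝ} (hs : 0 < s) (hτ : 0 ≤ τ) {f : ST → ℝ}
    (hf : ContDiff ℝ (2 : ℕ) f) (hc : HasCompactSupport f)
    (hsupp : ∀ z ∈ tsupport f, s ≤ qq c z ∧ qq c z ≤ 13 / 10 * s ∧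
      (6 * s - 2 * β * (z.1 - t)) ^ 2 ≤ K) :
    ∫ z, Real.exp (τ * wt c s β t z) ^ 2 * (τ * s / 4 * gr f z
        + (4 * τ ^ 3 * s ^ 4 - 64 * τ - 2 * τ ^ 2 * K) * f z ^ 2)
      ≤ ∫ z, Real.exp (τ * wt c s β t z) ^ 2 * (2 * Lh f z ^ 2) := by
  let v : ST → ℝ := fun y => Real.exp (τ * wt c s β t y) * f y
  have hv : ContDiff ℝ (2 : ℕ) v := by simp only [v]; fun_prop
  have hsub : tsupport v ⊆ tsupport f := tsupport_mul_subset_right
  have hcv : HasCompactSupport v := hc.mul_left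
  have main := carleman_v c hs hτ hv hcv fun z hz =>
    ⟨(hsupp z (hsub hz)).1, (hsupp z (hsub hz)).2.1⟩
  have hf1 : ContDiff ℝ (1 : ℕ) f := cdg_le hf (by norm_num)
  have h1 : ContDiff ℝ (1 : ℕ) (pd e1 f) := contDiff_pd e1 hf
  have h2 : ContDiff ℝ (1 : ℕ) (pd e2 f) := contDiff_pd e2 hf
  have dE : ∀ e z, HD e z (fun y => Real.exp (τ * wt c s β t y)) _ :=
    fun e z => ((HD_wt c s β t e z).cmul τ).exp
  have dv : ∀ e z, pd e v z = _ := fun e z =>
    ((dE e z).mul (HD.of_diff (e := e) (cdg_diff hf1 le_rfl z))).pd_eq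
      (cdg_diff hv (by norm_num) z)
  have v1 : pd e1 v = fun y => Real.exp (τ * wt c s β t y)
      * (pd e1 f y - 4 * τ * (mm c s y * XX c y * f y)) := by
    funext y; rw [dv]; simp only; ring
  have v2 : pd e2 v = fun y => Real.exp (τ * wt c s β t y)
      * (pd e2 f y - 4 * τ * (mm c s y * YY c y * f y)) := by
    funext y; rw [dv]; simp only; ring
  have hconj : ∀ z, conj c s τ v z = Real.exp (τ * wt c s β t z)
      * (Lh f z - τ * (6 * s - 2 * β * (z.1 - t)) * f z) := by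
    intro z
    have df := fun e => HD.of_diff (e := e) (cdg_diff hf1 le_rfl z)
    have a1 := ((dE e1 z).mul ((HD.of_diff (e := e1) (cdg_diff h1 le_rfl z)).sub
      ((((HD_mm c s e1 z).mul (HD_XX c e1 z)).mul (df e1)).cmul (4 * τ)))).pd_eq
      (cdg_diff (n := 1) (by fun_prop) le_rfl z)
    have a2 := ((dE e2 z).mul ((HD.of_diff (e := e2) (cdg_diff h2 le_rfl z)).sub
      ((((HD_mm c s e2 z).mul (HD_YY c e2 z)).mul (df e2)).cmul (4 * τ)))).pd_eq
      (cdg_diff (n := 1) (by fun_prop) le_rfl z)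
    unfold conj Lh
    rw [dv e0 z, v1, v2, a1, a2]
    have hm : mm c s z = 3 * s / 2 - qq c z := rfl
    have hq : qq c z = XX c z * XX c z + YY c z * YY c z := rfl
    simp only [v]
    rw [hm, hq]
    ring
  have cf := hf.continuous
  have cL := ct_Lh hf
  have cg := ct_gr hf
  have c1 : Continuous (pd e1 v) := (contDiff_pd (n := 1) e1 hv).continuous
  have c2 : Continuous (pd e2 v) := (contDiff_pd (n := 1) e2 hv).continuous
  have cv := hv.continuous
  have iA : Integrable (fun z => Real.exp (τ * wt c s β t z) ^ 2 * (τ * s / 4 * gr f z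
        + (4 * τ ^ 3 * s ^ 4 - 64 * τ - 2 * τ ^ 2 * K) * f z ^ 2)) volume :=
    integrable_of_supp hc (by fun_prop) fun z hz => by
      rw [gr_zero hz, (zero_off_supp hz).1]; ring
  have iB : Integrable (fun z => Real.exp (τ * wt c s β t z) ^ 2 * (2 * Lh f z ^ 2)) volume :=
    integrable_of_supp hc (by fun_prop) fun z hz => by rw [Lh_zero hz]; ring
  have iC : Integrable (fun z => (4 * τ * s * (pd e1 v z ^ 2 + pd e2 v z ^ 2)
      + (7 * τ ^ 3 * s ^ 4 - 64 * τ) * v z ^ 2)) volume :=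
    integrable_of_supp hcv (by fun_prop) fun z hz => by
      obtain ⟨a, b, -⟩ := zero_off_supp hz
      simp only [a, b]; ring
  have iD : Integrable (fun z => conj c s τ v z ^ 2) volume := by
    simp only [hconj]
    exact integrable_of_supp hc (by fun_prop) fun z hz => by
      rw [Lh_zero hz, (zero_off_supp hz).1]; ring
  have key : ∀ z, Real.exp (τ * wt c s β t z) ^ 2 * (τ * s / 4 * gr f z
        + (4 * τ ^ 3 * s ^ 4 - 64 * τ - 2 * τ ^ 2 * K) * f z ^ 2) + conj c s τ v z ^ 2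
      ≤ Real.exp (τ * wt c s β t z) ^ 2 * (2 * Lh f z ^ 2)
        + (4 * τ * s * (pd e1 v z ^ 2 + pd e2 v z ^ 2)
          + (7 * τ ^ 3 * s ^ 4 - 64 * τ) * v z ^ 2) := by
    intro z
    rw [hconj, v1, v2]
    simp only [v]
    by_cases hz : z ∈ tsupport f
    swap
    · obtain ⟨a, b, -⟩ := zero_off_supp hz
      rw [Lh_zero hz, gr_zero hz, a, b, b]
      norm_num
    obtain ⟨hq1, hq2, hK⟩ := hsupp z hz
    have hm : mm c s z = 3 * s / 2 - qq c z := rfl
    have hq : qq c z = XX c z * XX c z + YY c z * YY c z := rfl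
    unfold gr
    generalize Real.exp (τ * wt c s β t z) = E
    generalize Lh f z = L
    generalize pd e1 f z = f1
    generalize pd e2 f z = f2
    generalize f z = w
    generalize (6 * s - 2 * β * (z.1 - t)) = k at *
    generalize mm c s z = m at *
    generalize qq c z = q at *
    generalize XX c z = X at *
    generalize YY c z = Y at *
    have hm0 : 0 ≤ m := by linarith
    have hG : 16 * m ^ 2 * q ≤ 6 * s ^ 3 := by
      have : m ^ 2 ≤ (s / 2) ^ 2 := pow_le_pow_left₀ hm0 (by linarith) 2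
      nlinarith [mul_le_mul this hq2 (by linarith) (by positivity), pow_pos hs 3]
    have g1 : 0 ≤ (L + τ * k * w) ^ 2 := sq_nonneg _
    have g2 : 0 ≤ 2 * τ ^ 2 * w ^ 2 * (K - k ^ 2) := mul_nonneg (by positivity) (by linarith)
    have g3 : 0 ≤ τ * s * (7 / 2 * ((f1 - 4 * τ * (m * X * w)) ^ 2
        + (f2 - 4 * τ * (m * Y * w)) ^ 2) + 1 / 4 * ((f1 - 8 * τ * (m * X * w)) ^ 2
        + (f2 - 8 * τ * (m * Y * w)) ^ 2)) := by positivity
    have g4 : 0 ≤ τ ^ 3 * s / 2 * w ^ 2 * (6 * s ^ 3 - 16 * m ^ 2 * q) :=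
      mul_nonneg (by positivity) (by linarith)
    have g6 := mul_nonneg (sq_nonneg E) (add_nonneg (add_nonneg (add_nonneg g1 g2) g3) g4)
    rw [← sub_nonneg]
    refine g6.trans_eq ?_
    rw [hq]
    ring
  have := integral_mono (iA.add iD) (iB.add iC) key
  simp only [Pi.add_apply] at this
  rw [integral_add iA iD, integral_add iB iC] at this
  linarith

end Pool.Agent.MP_ed9623_an.H64
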