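import Pool.Agent.MP_ed9623_an.H64.Carl2

open Filter Topology MeasureTheory Set

namespace Pool.Agent.MP_ed9623_an.H64

theorem absorb (c : ℝ × ℝ) {s β t K C a : ℝ} (hs : 0 < s) (hC : 0 ≤ C) {f g : ST → ℝ}
    (hf : ContDiff ℝ (2 : ℕ) f) (hcf : HasCompactSupport f)
    (hg : ContDiff ℝ (2 : ℕ) g) (hcg : HasCompactSupport g)
    (sf : ∀ z ∈ tsupport f, s ≤ qq c z ∧ qq c z ≤ 13 / 10 * s ∧
      (6 * s - 2 * β * (z.1 - t)) ^ 2 ≤ K)
    (sg : ∀ z ∈ tsupport g, s ≤ qq c z ∧ qq c z ≤ 13 / 10 * s ∧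
      (6 * s - 2 * β * (z.1 - t)) ^ 2 ≤ K)
    (hb : ∀ z, wt c s β t z ≤ a ∨
      Lh f z ^ 2 + Lh g z ^ 2 ≤ C * (f z ^ 2 + g z ^ 2 + gr f z + gr g z))
    {z₀ : ST} (hz₀ : a < wt c s β t z₀) : f z₀ = 0 ∧ g z₀ = 0 := by
  haveI := haar3
  have cf := hf.continuous
  have cg := hg.continuous
  have cLf := ct_Lh hf
  have cLg := ct_Lh hg
  have cgf := ct_gr hf
  have cgg := ct_gr hg
  let ψ : ST → ℝ := fun z => min 1 (max 0 (wt c s β t z - a)) * (f z ^ 2 + g z ^ 2)
  have cψ : Continuous ψ := by simp only [ψ]; fun_prop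
  have ψ0 : ∀ z, 0 ≤ ψ z := fun z =>
    mul_nonneg (le_min zero_le_one (le_max_left _ _)) (by positivity)
  have iψ : Integrable ψ volume := by
    have a1 : Integrable (fun z => min 1 (max 0 (wt c s β t z - a)) * f z ^ 2) volume :=
      integrable_of_supp hcf (by fun_prop) fun z hz => by rw [(zero_off_supp hz).1]; ring
    have a2 : Integrable (fun z => min 1 (max 0 (wt c s β t z - a)) * g z ^ 2) volume :=
      integrable_of_supp hcg (by fun_prop) fun z hz => by rw [(zero_off_supp hz).1]; ring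
    refine (a1.add a2).congr (Eventually.of_forall fun z => ?_)
    simp only [ψ, Pi.add_apply]; ring
  have iLf : Integrable (fun z => Lh f z ^ 2) volume :=
    integrable_of_supp hcf (by fun_prop) fun z hz => by rw [Lh_zero hz]; ring
  have iLg : Integrable (fun z => Lh g z ^ 2) volume :=
    integrable_of_supp hcg (by fun_prop) fun z hz => by rw [Lh_zero hz]; ring
  have iB : Integrable (fun z => Lh f z ^ 2 + Lh g z ^ 2) volume := iLf.add iLg
  have main : ∀ τ : ℝ, 0 ≤ τ → 2 * C ≤ τ * s / 4 →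
      2 * C + τ ≤ 4 * τ ^ 3 * s ^ 4 - 64 * τ - 2 * τ ^ 2 * K →
      τ * ∫ z, ψ z ≤ 2 * ∫ z, (Lh f z ^ 2 + Lh g z ^ 2) := by
    intro τ hτ t1 t2
    have m1 := carleman_f c (β := β) (t := t) hs hτ hf hcf sf
    have m2 := carleman_f c (β := β) (t := t) hs hτ hg hcg sg
    generalize 4 * τ ^ 3 * s ^ 4 - 64 * τ - 2 * τ ^ 2 * K = P at *
    have i1 : Integrable (fun z => Real.exp (τ * wt c s β t z) ^ 2 * (τ * s / 4 * gr f z
        + P * f z ^ 2)) volume :=
      integrable_of_supp hcf (by fun_prop) fun z hz => by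
        rw [gr_zero hz, (zero_off_supp hz).1]; ring
    have i2 : Integrable (fun z => Real.exp (τ * wt c s β t z) ^ 2 * (τ * s / 4 * gr g z
        + P * g z ^ 2)) volume :=
      integrable_of_supp hcg (by fun_prop) fun z hz => by
        rw [gr_zero hz, (zero_off_supp hz).1]; ring
    have i3 : Integrable (fun z => Real.exp (τ * wt c s β t z) ^ 2 * (2 * Lh f z ^ 2)) volume :=
      integrable_of_supp hcf (by fun_prop) fun z hz => by rw [Lh_zero hz]; ring
    have i4 : Integrable (fun z => Real.exp (τ * wt c s β t z) ^ 2 * (2 * Lh g z ^ 2)) volume :=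
      integrable_of_supp hcg (by fun_prop) fun z hz => by rw [Lh_zero hz]; ring
    have i5 := iψ.const_mul (Real.exp (τ * a) ^ 2 * τ)
    have i6 := iB.const_mul (Real.exp (τ * a) ^ 2 * 2)
    have i34 : Integrable (fun z => Real.exp (τ * wt c s β t z) ^ 2 * (2 * Lh f z ^ 2)
      + Real.exp (τ * wt c s β t z) ^ 2 * (2 * Lh g z ^ 2)) volume := i3.add i4
    have i12 : Integrable (fun z => Real.exp (τ * wt c s β t z) ^ 2 * (τ * s / 4 * gr f z
        + P * f z ^ 2) + Real.exp (τ * wt c s β t z) ^ 2 * (τ * s / 4 * gr g z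
        + P * g z ^ 2)) volume := i1.add i2
    have key : ∀ z, Real.exp (τ * a) ^ 2 * τ * ψ z
        + (Real.exp (τ * wt c s β t z) ^ 2 * (2 * Lh f z ^ 2)
          + Real.exp (τ * wt c s β t z) ^ 2 * (2 * Lh g z ^ 2))
        ≤ (Real.exp (τ * wt c s β t z) ^ 2 * (τ * s / 4 * gr f z + P * f z ^ 2)
          + Real.exp (τ * wt c s β t z) ^ 2 * (τ * s / 4 * gr g z + P * g z ^ 2))
          + Real.exp (τ * a) ^ 2 * 2 * (Lh f z ^ 2 + Lh g z ^ 2) := by
      intro z
      have n1 := gr_nonneg f z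
      have n2 := gr_nonneg g z
      have hN : 0 ≤ f z ^ 2 + g z ^ 2 := by positivity
      have hL : 0 ≤ Lh f z ^ 2 + Lh g z ^ 2 := by positivity
      have hE : 0 ≤ Real.exp (τ * wt c s β t z) ^ 2 := by positivity
      have hA : 0 ≤ Real.exp (τ * a) ^ 2 := by positivity
      by_cases h : wt c s β t z ≤ a
      · have hψ : ψ z = 0 := by
          simp only [ψ]
          rw [max_eq_left (by linarith), min_eq_right zero_le_one, zero_mul]
        have hle : Real.exp (τ * wt c s β t z) ^ 2 ≤ Real.exp (τ * a) ^ 2 :=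
          pow_le_pow_left₀ (Real.exp_pos _).le
            (Real.exp_le_exp.2 (mul_le_mul_of_nonneg_left h hτ)) 2
        rw [hψ]
        have u1 := mul_le_mul_of_nonneg_right hle hL
        have u2 : 0 ≤ Real.exp (τ * wt c s β t z) ^ 2 * (τ * s / 4 * (gr f z + gr g z)
            + P * (f z ^ 2 + g z ^ 2)) :=
          mul_nonneg hE (add_nonneg (mul_nonneg (by linarith) (by linarith))
            (mul_nonneg (by linarith) hN))
        nlinarith
      · have h' := (hb z).resolve_left h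
        have hle : Real.exp (τ * a) ^ 2 ≤ Real.exp (τ * wt c s β t z) ^ 2 :=
          pow_le_pow_left₀ (Real.exp_pos _).le
            (Real.exp_le_exp.2 (mul_le_mul_of_nonneg_left (not_le.1 h).le hτ)) 2
        have hψ : ψ z ≤ f z ^ 2 + g z ^ 2 := by
          simp only [ψ]
          exact mul_le_of_le_one_left hN (min_le_left _ _)
        have u0 : Real.exp (τ * a) ^ 2 * ψ z
            ≤ Real.exp (τ * wt c s β t z) ^ 2 * (f z ^ 2 + g z ^ 2) :=
          mul_le_mul hle hψ (ψ0 z) hE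
        have u1 := mul_le_mul_of_nonneg_left u0 hτ
        have u2 := mul_le_mul_of_nonneg_left h' hE
        have u3 := mul_nonneg hA hL
        have u4 := mul_nonneg hE (mul_nonneg (sub_nonneg.2 t1) (add_nonneg n1 n2))
        have u5 := mul_nonneg hE (mul_nonneg (sub_nonneg.2 t2) hN)
        nlinarith
    have := integral_mono (i5.add i34) (i12.add i6) key
    simp only [Pi.add_apply] at this
    rw [integral_add i5 i34, integral_add i12 i6, integral_add i3 i4, integral_add i1 i2,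
      integral_const_mul, integral_const_mul] at this
    have hpos : 0 < Real.exp (τ * a) ^ 2 := by positivity
    have h2 : Real.exp (τ * a) ^ 2 * (τ * ∫ z, ψ z)
        ≤ Real.exp (τ * a) ^ 2 * (2 * ∫ z, (Lh f z ^ 2 + Lh g z ^ 2)) := by linarith
    exact le_of_mul_le_mul_left h2 hpos
  have hz : ∫ z, ψ z = 0 := by
    refine le_antisymm ?_ (integral_nonneg ψ0)
    by_contra hne
    push Not at hne
    have hs4 : 0 < s ^ 4 := by positivity
    have ev : ∀ᶠ τ : ℝ in atTop, (1 ≤ τ ∧ 8 * C / s ≤ τ) ∧ ((2 * C + 65 + 2 * |K|) / s ^ 4 ≤ τ ∧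
        (2 * ∫ z, (Lh f z ^ 2 + Lh g z ^ 2)) / (∫ z, ψ z) < τ) :=
      ((eventually_ge_atTop _).and (eventually_ge_atTop _)).and
        ((eventually_ge_atTop _).and (eventually_gt_atTop _))
    obtain ⟨τ, ⟨h1, h2⟩, h3, h4⟩ := ev.exists
    rw [div_le_iff₀ hs] at h2
    rw [div_le_iff₀ hs4] at h3
    rw [div_lt_iff₀ hne] at h4
    have := main τ (by linarith) (by linarith) (by
      have hK := le_abs_self K
      have hK0 := abs_nonneg K
      have t2 : τ ≤ τ ^ 2 := by nlinarith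
      have t3 : 1 ≤ τ ^ 2 := by nlinarith
      have u1 := mul_le_mul_of_nonneg_left h3 (sq_nonneg τ)
      have u2 := mul_le_mul_of_nonneg_left hK (sq_nonneg τ)
      have u3 := mul_le_mul_of_nonneg_left t3 hC
      have u4 : 0 ≤ τ ^ 3 * s ^ 4 := by positivity
      nlinarith)
    linarith
  have hae := (integral_eq_zero_iff_of_nonneg ψ0 iψ).1 hz
  have hall := (cψ.ae_eq_iff_eq volume continuous_zero).1 hae
  have h0 : ψ z₀ = 0 := congrFun hall z₀
  simp only [ψ] at h0
  have hp : 0 < min 1 (max 0 (wt c s β t z₀ - a)) :=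
    lt_min one_pos (lt_max_of_lt_right (by linarith))
  have h1 : f z₀ ^ 2 + g z₀ ^ 2 = 0 := (mul_eq_zero.1 h0).resolve_left hp.ne'
  constructor <;> nlinarith [sq_nonneg (f z₀), sq_nonneg (g z₀)]

theorem uc_ball (c : ℝ × ℝ) {s : ℝ} (hs : 0 < s) {I : Set ℝ} (hI : IsOpen I)
    {W₁ W₂ Cf : ST → ℝ} (hCf : Continuous Cf)
    (hW : ∀ z : ST, z.1 ∈ I → qq c z < 3 / 2 * s →
      ContDiffAt ℝ (2 : ℕ) W₁ z ∧ ContDiffAt ℝ (2 : ℕ) W₂ z ∧
      Lh W₁ z ^ 2 + Lh W₂ z ^ 2 ≤ Cf z * (W₁ z ^ 2 + W₂ z ^ 2 + gr W₁ z + gr W₂ z))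
    (h0 : ∀ z : ST, z.1 ∈ I → qq c z < s → W₁ z = 0 ∧ W₂ z = 0)
    (z₀ : ST) (hz₀ : z₀.1 ∈ I) (hq₀ : qq c z₀ < 11 / 10 * s) : W₁ z₀ = 0 ∧ W₂ z₀ = 0 := by
  obtain ⟨ε, hε, hεI⟩ := Metric.isOpen_iff.1 hI z₀.1 hz₀
  set t := z₀.1 with ht
  set δ := ε / 3 with hδ
  have hδ0 : 0 < δ := by positivity
  let T : ST → ℝ := fun z => (z.1 - t) * (z.1 - t)
  have cT : Continuous T := by simp only [T]; fun_prop
  let χ : ST → ℝ := fun z => Real.smoothTransition ((13 / 10 * s - qq c z) / (s / 10))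
    * Real.smoothTransition ((4 * δ ^ 2 - T z) / (3 * δ ^ 2))
  have hχ : ContDiff ℝ (2 : ℕ) χ := by
    simp only [χ, T]
    refine ContDiff.mul (Real.smoothTransition.contDiff.comp ?_)
      (Real.smoothTransition.contDiff.comp ?_) <;> fun_prop
  let K : Set ST := {z | qq c z ≤ 13 / 10 * s ∧ T z ≤ 4 * δ ^ 2}
  have hKc : IsClosed K :=
    (isClosed_le (ct_qq c) continuous_const).inter (isClosed_le cT continuous_const)
  have hTI : ∀ z : ST, T z ≤ 4 * δ ^ 2 → |z.1 - t| ≤ 2 * δ := fun z hz =>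
    abs_le_of_sq_le_sq' (by simp only [T] at hz; nlinarith) (by positivity) |> abs_le.2
  have hKI : ∀ z ∈ K, z.1 ∈ I := fun z hz => hεI (by
    rw [Metric.mem_ball, Real.dist_eq]; linarith [hTI z hz.2])
  have hK : IsCompact K := by
    refine Metric.isCompact_of_isClosed_isBounded hKc ?_
    refine (Metric.isBounded_closedBall (x := ((t, c) : ST)) (r := 2 * δ + 2 * s + 1)).subset ?_
    intro z hz
    have a1 := hTI z hz.2
    have a2 : XX c z * XX c z + YY c z * YY c z ≤ 13 / 10 * s := hz.1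
    have a3 : |XX c z| ≤ 2 * s + 1 :=
      abs_le.2 (abs_le_of_sq_le_sq' (by nlinarith [mul_self_nonneg (YY c z)]) (by positivity))
    have a4 : |YY c z| ≤ 2 * s + 1 :=
      abs_le.2 (abs_le_of_sq_le_sq' (by nlinarith [mul_self_nonneg (XX c z)]) (by positivity))
    rw [Metric.mem_closedBall, Prod.dist_eq, Prod.dist_eq, Real.dist_eq, Real.dist_eq,
      Real.dist_eq]
    unfold XX at a3
    unfold YY at a4
    exact max_le (by linarith) (max_le (by linarith) (by linarith))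
  have χ0 : ∀ z, z ∉ K → χ z = 0 := by
    intro z hz
    simp only [K, mem_setOf_eq, not_and_or, not_le] at hz
    rcases hz with h | h
    · simp only [χ]
      rw [Real.smoothTransition.zero_of_nonpos
        (div_nonpos_of_nonpos_of_nonneg (by linarith) (by positivity)), zero_mul]
    · simp only [χ]
      rw [Real.smoothTransition.zero_of_nonpos (x := (4 * δ ^ 2 - T z) / (3 * δ ^ 2))
        (div_nonpos_of_nonpos_of_nonneg (by linarith) (by positivity)), mul_zero]
  have χ1 : ∀ z, qq c z < 12 / 10 * s → T z < δ ^ 2 → χ z = 1 := by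
    intro z h1 h2
    simp only [χ]
    rw [Real.smoothTransition.one_of_one_le, Real.smoothTransition.one_of_one_le, one_mul]
    · rw [le_div_iff₀ (by positivity)]; linarith
    · rw [le_div_iff₀ (by positivity)]; linarith
  have prep : ∀ W : ST → ℝ, (∀ z : ST, z.1 ∈ I → qq c z < 3 / 2 * s → ContDiffAt ℝ (2 : ℕ) W z) →
      (∀ z : ST, z.1 ∈ I → qq c z < s → W z = 0) →
      ContDiff ℝ (2 : ℕ) (fun z => χ z * W z) ∧ HasCompactSupport (fun z => χ z * W z) ∧
      ∀ z ∈ tsupport (fun z => χ z * W z), z ∈ K ∧ s ≤ qq c z := by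
    intro W hWd hW0
    have off : ∀ z, z ∉ K → (fun z => χ z * W z) =ᶠ[𝓝 z] fun _ => 0 := fun z hz => by
      filter_upwards [hKc.isOpen_compl.mem_nhds hz] with y hy
      rw [χ0 y hy, zero_mul]
    refine ⟨contDiff_iff_contDiffAt.2 fun z => ?_,
      HasCompactSupport.intro hK fun z hz => (off z hz).eq_of_nhds, fun z hz => ?_⟩
    · by_cases hz : z ∈ K
      · exact hχ.contDiffAt.mul (hWd z (hKI z hz) (by linarith [hz.1]))
      · exact contDiffAt_const.congr_of_eventuallyEq (off z hz)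
    · have hzK : z ∈ K := by
        by_contra h
        exact notMem_tsupport_iff_eventuallyEq.2 (off z h) hz
      refine ⟨hzK, ?_⟩
      by_contra h
      refine notMem_tsupport_iff_eventuallyEq.2 ?_ hz
      filter_upwards [(hI.preimage continuous_fst).mem_nhds (hKI z hzK),
        (isOpen_lt (ct_qq c) continuous_const).mem_nhds (not_le.1 h)] with y hy1 hy2
      rw [hW0 y hy1 hy2]; simp
  obtain ⟨d1, k1, s1⟩ := prep W₁ (fun z a b => (hW z a b).1) (fun z a b => (h0 z a b).1)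
  obtain ⟨d2, k2, s2⟩ := prep W₂ (fun z a b => (hW z a b).2.1) (fun z a b => (h0 z a b).2)
  obtain ⟨C, hC⟩ := hK.exists_bound_of_continuousOn hCf.continuousOn
  obtain ⟨K', hK'⟩ := hK.exists_bound_of_continuousOn
    (f := fun z : ST => (6 * s - 2 * (s ^ 2 / δ ^ 2) * (z.1 - t)) ^ 2) (by fun_prop)
  have hT₀ : T z₀ = 0 := by simp only [T, ht]; ring
  have hz₀K : z₀ ∈ K := ⟨by linarith, by rw [hT₀]; positivity⟩
  have hC0 : 0 ≤ C := (norm_nonneg _).trans (hC z₀ hz₀K)
  have res := absorb c (β := s ^ 2 / δ ^ 2) (t := t) (K := K') (a := 9 / 100 * s ^ 2) hs hC0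
    d1 k1 d2 k2
    (fun z hz => ⟨(s1 z hz).2, (s1 z hz).1.1, (le_abs_self _).trans (hK' z (s1 z hz).1)⟩)
    (fun z hz => ⟨(s2 z hz).2, (s2 z hz).1.1, (le_abs_self _).trans (hK' z (s2 z hz).1)⟩)
    (fun z => ?_) (z₀ := z₀) ?_
  · have := χ1 z₀ (by linarith) (by rw [hT₀]; positivity)
    simpa [this] using res
  · by_cases hz : z ∈ K ∧ s ≤ qq c z
    swap
    · right
      rw [Lh_zero (fun h => hz (s1 z h)), Lh_zero (fun h => hz (s2 z h))]
      have := gr_nonneg (fun z => χ z * W₁ z) z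
      have := gr_nonneg (fun z => χ z * W₂ z) z
      norm_num
      positivity
    obtain ⟨hzK, hzs⟩ := hz
    by_cases hin : qq c z < 12 / 10 * s ∧ T z < δ ^ 2
    · right
      have ev : ∀ᶠ y in 𝓝 z, χ y = 1 := by
        filter_upwards [(isOpen_lt (ct_qq c) continuous_const).mem_nhds hin.1,
          (isOpen_lt cT continuous_const).mem_nhds hin.2] with y hy1 hy2 using χ1 y hy1 hy2
      have e1 : (fun z => χ z * W₁ z) =ᶠ[𝓝 z] W₁ := by
        filter_upwards [ev] with y hy; rw [hy, one_mul]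
      have e2 : (fun z => χ z * W₂ z) =ᶠ[𝓝 z] W₂ := by
        filter_upwards [ev] with y hy; rw [hy, one_mul]
      rw [Lh_congr e1, Lh_congr e2, gr_congr e1, gr_congr e2, ev.self_of_nhds, one_mul, one_mul]
      refine (hW z (hKI z hzK) (by linarith [hzK.1])).2.2.trans ?_
      have := gr_nonneg W₁ z
      have := gr_nonneg W₂ z
      exact mul_le_mul_of_nonneg_right ((le_abs_self _).trans (hC z hzK)) (by positivity)
    · left
      have hq := hzK.1
      have hT0 : 0 ≤ T z := mul_self_nonneg _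
      have hβ : 0 ≤ s ^ 2 / δ ^ 2 := by positivity
      change mm c s z * mm c s z - s ^ 2 / δ ^ 2 * T z ≤ _
      unfold mm
      rcases not_and_or.1 hin with h | h
      · have := mul_nonneg hβ hT0
        nlinarith [not_lt.1 h]
      · have h1 : s ^ 2 ≤ s ^ 2 / δ ^ 2 * T z := by
          have := mul_le_mul_of_nonneg_left (not_lt.1 h) hβ
          rwa [div_mul_cancel₀ _ (by positivity)] at this
        nlinarith
  · unfold wt mm
    rw [← ht, sub_self]
    nlinarith

theorem qq_lt_of_dist {c x : ℝ × ℝ} {r : ℝ} (t : ℝ) (h : dist x c < r) :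
    qq c (t, x) < 2 * r ^ 2 := by
  rw [Prod.dist_eq, max_lt_iff, Real.dist_eq, Real.dist_eq] at h
  have a1 := sq_lt_sq' (abs_lt.1 h.1).1 (abs_lt.1 h.1).2
  have a2 := sq_lt_sq' (abs_lt.1 h.2).1 (abs_lt.1 h.2).2
  unfold qq XX YY
  simp only
  nlinarith

theorem dist_lt_of_qq {c : ℝ × ℝ} {z : ST} {r : ℝ} (hr : 0 ≤ r) (h : qq c z < r ^ 2) :
    dist z.2 c < r := by
  unfold qq at h
  have a1 : |XX c z| < r :=
    abs_lt.2 (abs_lt_of_sq_lt_sq' (by nlinarith [mul_self_nonneg (YY c z)]) hr)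
  have a2 : |YY c z| < r :=
    abs_lt.2 (abs_lt_of_sq_lt_sq' (by nlinarith [mul_self_nonneg (XX c z)]) hr)
  rw [Prod.dist_eq, Real.dist_eq, Real.dist_eq]
  exact max_lt a1 a2

/-- Unique continuation from an open set for a parabolic differential inequality. -/
theorem uc_connected {U : Set (ℝ × ℝ)} (hU : IsOpen U) (hUc : IsPreconnected U) {I : Set ℝ}
    (hI : IsOpen I) {W₁ W₂ Cf : ST → ℝ} (hCf : Continuous Cf)
    (hW : ∀ z : ST, z.1 ∈ I → z.2 ∈ U →
      ContDiffAt ℝ (2 : ℕ) W₁ z ∧ ContDiffAt ℝ (2 : ℕ) W₂ z ∧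
      Lh W₁ z ^ 2 + Lh W₂ z ^ 2 ≤ Cf z * (W₁ z ^ 2 + W₂ z ^ 2 + gr W₁ z + gr W₂ z))
    {x₀ : ℝ × ℝ} (hx₀ : x₀ ∈ U)
    (h0 : ∀ᶠ x in 𝓝 x₀, ∀ t ∈ I, W₁ (t, x) = 0 ∧ W₂ (t, x) = 0) :
    ∀ x ∈ U, ∀ t ∈ I, W₁ (t, x) = 0 ∧ W₂ (t, x) = 0 := by
  let Z : Set (ℝ × ℝ) := interior {x | ∀ t ∈ I, W₁ (t, x) = 0 ∧ W₂ (t, x) = 0}
  have hsub : U ⊆ Z := by
    refine hUc.subset_of_closure_inter_subset isOpen_interior
      ⟨x₀, hx₀, mem_interior_iff_mem_nhds.2 h0⟩ ?_
    rintro x ⟨hxc, hxU⟩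
    obtain ⟨ε, hε, hεU⟩ := Metric.isOpen_iff.1 hU x hxU
    obtain ⟨c, hcZ, hcx⟩ := Metric.mem_closure_iff.1 hxc (ε / 8) (by positivity)
    obtain ⟨r, hr, hrZ⟩ := Metric.isOpen_iff.1 isOpen_interior c hcZ
    have ind : ∀ n : ℕ, ∀ s : ℝ, 0 < s → s ≤ (ε / 2) ^ 2 → s ≤ r ^ 2 * (11 / 10) ^ n →
        ∀ z : ST, z.1 ∈ I → qq c z < s → W₁ z = 0 ∧ W₂ z = 0 := by
      intro n
      induction n with
      | zero =>
        intro s _ _ h z hz hq
        have := interior_subset (hrZ (dist_lt_of_qq hr.le (by simpa using hq.trans_le h)))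
        exact this z.1 hz
      | succ n ih =>
        intro s hs h1 h2 z hz hq
        refine uc_ball c (s := s / (11 / 10)) (by positivity) hI hCf (fun y hy hyq => ?_)
          (ih _ (by positivity) (by linarith) ?_) z hz (by linarith)
        · refine hW y hy (hεU ?_)
          have : dist y.2 c < 3 / 4 * ε := dist_lt_of_qq (by positivity) (by nlinarith)
          rw [Metric.mem_ball]
          linarith [dist_triangle y.2 c x, dist_comm x c]
        · rw [pow_succ (11 / 10 : ℝ) n] at h2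
          rw [div_le_iff₀ (by norm_num)]
          linarith
    obtain ⟨n, hn⟩ := pow_unbounded_of_one_lt ((ε / 2) ^ 2 / r ^ 2) (by norm_num : (1 : ℝ) < 11 / 10)
    rw [div_lt_iff₀ (by positivity)] at hn
    refine mem_interior_iff_mem_nhds.2 ?_
    filter_upwards [Metric.ball_mem_nhds x (by positivity : 0 < ε / 8)] with y hy t ht
    refine ind n _ (by positivity) le_rfl (by linarith) (t, y) ht ?_
    have : dist y c < ε / 4 := by
      rw [Metric.mem_ball] at hy
      linarith [dist_triangle y x c]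
    have := qq_lt_of_dist t this
    nlinarith
  exact fun x hx => interior_subset (hsub hx)

end Pool.Agent.MP_ed9623_an.H64
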