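import Pool.Agent.MP_ed9623_an.H64.Energy
import Pool.Agent.MP_ed9623_an.H64.Alg

open Filter Topology MeasureTheory Set
open scoped ContDiff

namespace Pool.Agent.MP_ed9623_an.H64

theorem car_pt {P Q Pn Pt Qn Qt a1 a2 b m1 m2 c1 c2 f l K E : ℝ} (h1 : |m2 * a2 - m1| ≤ E)
    (h2 : |m2 * b| ≤ E) (h3 : |c1| ≤ E) (h4 : |c2| ≤ E) (hf : |f| ≤ 2) (hb : b * (a1 - a2) = 0)
    (hl : 1 ≤ l) (hK : 2 * K = 1 + 2 * E ^ 2 + 6 * E) :
    l * (P ^ 2 + Q ^ 2) + (2 * (m1 * b) * P * Qt + 2 * b * Pn * Qt - 2 * K * l * (P ^ 2 + Q ^ 2)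
      - 2 * l * f * (P * Pn + Q * Qn) - 2 * (m2 * b) * P * Qn - 2 * b * Pt * Qn
      + l * f * (c1 * P ^ 2 + c2 * Q ^ 2) + 2 * l * f * (a1 * P * Pt + a2 * Q * Qt))
      ≤ (Pn - a1 * Pt + b * Qt - l * f * P) ^ 2 + (Qn - a2 * Qt - b * Pt - l * f * Q) ^ 2 := by
  have E0 := (abs_nonneg _).trans h1
  have m : ∀ c : ℝ, |c| ≤ E → |c * f| ≤ E * 2 := fun c hc => by
    rw [abs_mul]; exact mul_le_mul hc hf (abs_nonneg _) E0
  have p1 := mul_le_mul_of_nonneg_right (sq_le_of_abs h1) (sq_nonneg P)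
  have p2 := mul_le_mul_of_nonneg_right (sq_le_of_abs h2) (sq_nonneg P)
  have lP : 0 ≤ l * P ^ 2 := by positivity
  have lQ : 0 ≤ l * Q ^ 2 := by positivity
  have p3 := mul_le_mul_of_nonneg_right (abs_le.1 (m _ h1)).1 lP
  have p4 := mul_le_mul_of_nonneg_right (abs_le.1 (m _ h3)).2 lP
  have p5 := mul_le_mul_of_nonneg_right (abs_le.1 (m _ h4)).2 lQ
  have p6 := mul_le_mul_of_nonneg_right hl (by positivity : 0 ≤ E ^ 2 * P ^ 2)
  have p7 := mul_nonneg E0 lQ
  have p8 := mul_nonneg (sq_nonneg E) lQ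
  have p9 := congrArg (· * (Pt * Qt)) hb
  rw [hK]
  nlinarith [sq_nonneg (Pn - a1 * Pt), sq_nonneg (b * Pt + l * f * Q),
    sq_nonneg (b * Qt - l * f * P + (m2 * a2 - m1) * P), sq_nonneg (Qn - a2 * Qt + m2 * b * P)]

theorem HD_lin (L : PP →L[ℝ] ℝ) (c : ℝ) (e x : PP) : HD e x (fun y => L y - c) (L e) :=
  (L.hasFDerivAt.sub_const c).hasLineDerivAt e

theorem car_int {n τ : PP} (L : PP →L[ℝ] ℝ) (hn : L n = 1) (hτ : L τ = 0) (c : ℝ)
    {P Q a1 a2 b G : PP → ℝ} (hP : ContDiff ℝ (2 : ℕ) P) (hQ : ContDiff ℝ (2 : ℕ) Q)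
    (sP : HasCompactSupport P) (sQ : HasCompactSupport Q) (h1 : ContDiff ℝ (1 : ℕ) a1)
    (h2 : ContDiff ℝ (1 : ℕ) a2) (hb : ContDiff ℝ (1 : ℕ) b) (hG : Integrable G) {l K E : ℝ}
    (hl : 1 ≤ l) (hK : 2 * K = 1 + 2 * E ^ 2 + 6 * E)
    (h : ∀ x, (P x = 0 ∧ Q x = 0 ∧ ∀ e, pd e P x = 0 ∧ pd e Q x = 0) ∨ ∃ m1 m2,
      pd n b x = m1 * b x ∧ pd τ b x = m2 * b x ∧ |m2 * a2 x - m1| ≤ E ∧ |m2 * b x| ≤ E ∧
      |pd τ a1 x| ≤ E ∧ |pd τ a2 x| ≤ E ∧ |2 * K * (L x - c) - 1| ≤ 2 ∧ b x * (a1 x - a2 x) = 0)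
    (hF : ∀ x, (pd n P x - a1 x * pd τ P x + b x * pd τ Q x - l * (2 * K * (L x - c) - 1) * P x) ^ 2
      + (pd n Q x - a2 x * pd τ Q x - b x * pd τ P x - l * (2 * K * (L x - c) - 1) * Q x) ^ 2 ≤ G x) :
    l * ∫ x, (P x * P x + Q x * Q x) ≤ ∫ x, G x := by
  haveI := haar2
  have P1 := cdg_le hP (by norm_num : 1 ≤ 2)
  have Q1 := cdg_le hQ (by norm_num : 1 ≤ 2)
  have Qd := fun e => contDiff_pd (n := 1) e hQ
  have cf : ContDiff ℝ (1 : ℕ) fun x => l * (2 * K * (L x - c) - 1) := by fun_prop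
  have s0 : HasCompactSupport fun x => P x * P x + Q x * Q x := sP.mul_right.add sQ.mul_right
  have c1 := ((contDiff_const (c := (2 : ℝ))).mul (P1.mul (hb.mul (Qd τ)))).sub
    (cf.mul ((P1.mul P1).add (Q1.mul Q1)))
  have c2 := (cf.mul ((P1.mul (h1.mul P1)).add (Q1.mul (h2.mul Q1)))).sub
    ((contDiff_const (c := (2 : ℝ))).mul (P1.mul (hb.mul (Qd n))))
  have s1 : HasCompactSupport fun x => 2 * (P x * (b x * pd τ Q x))
      - l * (2 * K * (L x - c) - 1) * (P x * P x + Q x * Q x) := sP.mul_right.mul_left.sub s0.mul_left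
  have s2 : HasCompactSupport fun x => l * (2 * K * (L x - c) - 1) * (P x * (a1 x * P x)
      + Q x * (a2 x * Q x)) - 2 * (P x * (b x * pd n Q x)) :=
    (sP.mul_right.add sQ.mul_right).mul_left.sub sP.mul_right.mul_left
  have i0 := (((P1.mul P1).add (Q1.mul Q1)).continuous.integrable_of_hasCompactSupport
    (μ := volume) s0).const_mul l
  have i1 := (contDiff_pd (n := 0) n c1).continuous.integrable_of_hasCompactSupport (μ := volume)
    (s1.fderiv_apply ℝ n)
  have i2 := (contDiff_pd (n := 0) τ c2).continuous.integrable_of_hasCompactSupport (μ := volume)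
    (s2.fderiv_apply ℝ τ)
  have := integral_mono ((i0.add i1).add i2) hG fun x => by
    have d := fun {f : PP → ℝ} (h : ContDiff ℝ (1 : ℕ) f) e => HD.of_diff (e := e) (cdg_diff h le_rfl x)
    have df := fun e => (((HD_lin L c e x).cmul (2 * K)).sub (HD.const e x 1)).cmul l
    have e1 := ((((d P1 n).mul ((d hb n).mul (d (Qd τ) n))).cmul 2).sub ((df n).mul
      (((d P1 n).mul (d P1 n)).add ((d Q1 n).mul (d Q1 n))))).pd_eq (cdg_diff c1 le_rfl x)
    have e2 := (((df τ).mul (((d P1 τ).mul ((d h1 τ).mul (d P1 τ))).add ((d Q1 τ).mul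
      ((d h2 τ).mul (d Q1 τ))))).sub (((d P1 τ).mul ((d hb τ).mul (d (Qd n) τ))).cmul 2)).pd_eq
      (cdg_diff c2 le_rfl x)
    simp only [Pi.add_apply]
    rw [e1, e2, hn, hτ, pd_comm τ n hQ.contDiffAt]
    refine le_trans ?_ (hF x)
    rcases h x with ⟨a, b, c⟩ | ⟨m1, m2, k1, k2, k3, k4, k5, k6, k7, k8⟩
    · simp [a, b, c]
    · rw [k1, k2]
      linarith [car_pt (P := P x) (Q := Q x) (Pn := pd n P x) (Pt := pd τ P x) (Qn := pd n Q x)
        (Qt := pd τ Q x) k3 k4 k5 k6 k7 k8 hl hK]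
  rwa [integral_add' (i0.add i1) i2, integral_add' i0 i1, integral_pd_eq_zero _ n c1 s1,
    integral_pd_eq_zero _ τ c2 s2, add_zero, add_zero, integral_const_mul] at this

/-- Unique continuation for a first-order system in the plane, elliptic or strictly hyperbolic. -/
theorem uc2 {x₀ n τ : PP} (L : PP →L[ℝ] ℝ) (hn : L n = 1) (hτ : L τ = 0) {p q a1 a2 β : PP → ℝ}
    (hp : ContDiff ℝ (2 : ℕ) p) (hq : ContDiff ℝ (2 : ℕ) q) (h1 : ContDiff ℝ (1 : ℕ) a1)
    (h2 : ContDiff ℝ (1 : ℕ) a2) (hb : ContDiff ℝ (1 : ℕ) β) {κ E : ℝ} (hκ : 0 < κ) (E0 : 0 ≤ E)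
    (h : ∀ᶠ x in 𝓝 x₀, (∃ m1 m2, pd n β x = m1 * β x ∧ pd τ β x = m2 * β x ∧ |m2 * a2 x - m1| ≤ E ∧
      |m2 * β x| ≤ E) ∧ |pd τ a1 x| ≤ E ∧ |pd τ a2 x| ≤ E ∧ β x * (a1 x - a2 x) = 0 ∧
      (pd n p x - a1 x * pd τ p x + β x * pd τ q x) ^ 2
        + (pd n q x - a2 x * pd τ q x - β x * pd τ p x) ^ 2 ≤ E * (p x ^ 2 + q x ^ 2) ∧
      (L x - L x₀ < κ * dist x x₀ ^ 2 → p x = 0 ∧ q x = 0)) : ∀ᶠ x in 𝓝 x₀, p x = 0 ∧ q x = 0 := by
  haveI := haar2
  obtain ⟨K, hK⟩ : ∃ K, 2 * K = 1 + 2 * E ^ 2 + 6 * E := ⟨(1 + 2 * E ^ 2 + 6 * E) / 2, by ring⟩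
  have K0 : 0 < K := by nlinarith
  have cs : Continuous fun x => L x - L x₀ := by fun_prop
  have sm : ∀ δ, 0 < δ → ∀ᶠ x in 𝓝 x₀, |L x - L x₀| < δ := fun δ hδ =>
    cs.abs.continuousAt.eventually (gt_mem_nhds (by simpa using hδ))
  obtain ⟨ε, e0, he⟩ := Metric.eventually_nhds_iff_ball.1 (h.and (sm (1 / (2 * K)) (by positivity)))
  let b : ContDiffBump x₀ := ⟨ε / 2, 3 * ε / 4, by positivity, by linarith⟩
  have bz : ∀ x, x ∉ Metric.ball x₀ ε → b =ᶠ[𝓝 x] fun _ => 0 := fun x hx =>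
    notMem_tsupport_iff_eventuallyEq.1 (by
      rw [b.tsupport_eq]
      exact fun h => hx (Metric.closedBall_subset_ball (by simp only [b]; linarith) h))
  obtain ⟨η, η0, η1, η2⟩ : ∃ η, 0 < η ∧ η ≤ κ * (ε / 2) ^ 2 ∧ η ≤ 1 / (2 * K) :=
    ⟨min _ _, lt_min (by positivity) (by positivity), min_le_left _ _, min_le_right _ _⟩
  rw [le_div_iff₀ (by positivity)] at η2
  have cb : ContDiff ℝ (2 : ℕ) b := b.contDiff
  have sb := b.hasCompactSupport
  have l1 := fun {f : PP → ℝ} (h : ContDiff ℝ (2 : ℕ) f) => cdg_le h (by norm_num : 1 ≤ 2)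
  have cp := hp.continuous
  have cq := hq.continuous
  have c1 := h1.continuous
  have c2 := h2.continuous
  have cβ := hb.continuous
  have cb0 := cb.continuous
  have cn := (contDiff_pd (n := 1) n cb).continuous
  have ct := (contDiff_pd (n := 1) τ cb).continuous
  let G : PP → ℝ := fun x => 2 * (((pd n b x - a1 x * pd τ b x) * p x + β x * pd τ b x * q x) ^ 2
    + ((pd n b x - a2 x * pd τ b x) * q x - β x * pd τ b x * p x) ^ 2)
  let H : PP → ℝ := fun x => ((b x * p x) ^ 2 + (b x * q x) ^ 2) * min 1 (max 0 (η / 2 - (L x - L x₀)))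
  have G1 : ∀ x, (∀ e, pd e b x = 0) → G x = 0 := fun x hx => by simp [G, hx]
  have G2 := fun x hx => G1 x fun e => (pd_congr_pt e (bz x hx)).trans (pd_const _ _ _)
  have iG : Integrable G := Continuous.integrable_of_hasCompactSupport (by fun_prop)
    (HasCompactSupport.intro (isCompact_closedBall x₀ ε) fun x hx =>
      G2 x fun h => hx (Metric.ball_subset_closedBall h))
  have cH : Continuous H := by fun_prop
  have iH : Integrable H := cH.integrable_of_hasCompactSupport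
    (HasCompactSupport.intro (isCompact_closedBall x₀ ε) fun x hx => by
      simp [H, (bz x fun h => hx (Metric.ball_subset_closedBall h)).eq_of_nhds])
  have H0 : ∀ x, 0 ≤ H x := fun x => by simp only [H]; positivity
  have key : ∀ l, 2 * E + 1 ≤ l →
      ∫ x, H x ≤ Real.exp (-(l * (η * (1 - 3 / 2 * K * η)))) * ∫ x, G x := fun l hl => by
    let X : PP → ℝ := fun x => Real.exp (l * (K * ((L x - L x₀) * (L x - L x₀)) - (L x - L x₀)))
    have cX : ContDiff ℝ (2 : ℕ) X := by fun_prop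
    have dX : ∀ (f : PP → ℝ), ContDiff ℝ (2 : ℕ) f → ∀ e x, pd e (fun x => X x * (b x * f x)) x
        = X x * (l * (2 * K * (L x - L x₀) - 1) * L e * (b x * f x) + pd e b x * f x
          + b x * pd e f x) := fun f hf e x => by
      have s := HD_lin L (L x₀) e x
      refine ((((((s.mul s).cmul K).sub s).cmul l).exp.mul ((HD.of_diff (cdg_diff cb one_le_two x)).mul
        (HD.of_diff (cdg_diff hf one_le_two x)))).pd_eq
          (cdg_diff (cX.mul (cb.mul hf)) one_le_two x)).trans ?_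
      simp only [X]; ring
    have cN := ((cX.mul (cb.mul hp)).mul (cX.mul (cb.mul hp))).add
      ((cX.mul (cb.mul hq)).mul (cX.mul (cb.mul hq)))
    have iN : Integrable fun x => X x * (b x * p x) * (X x * (b x * p x))
        + X x * (b x * q x) * (X x * (b x * q x)) := cN.continuous.integrable_of_hasCompactSupport
      (sb.mul_right.mul_left.mul_right.add sb.mul_right.mul_left.mul_right)
    have l0 : 0 ≤ l := by linarith
    have a := car_int L hn hτ (L x₀) (cX.mul (cb.mul hp)) (cX.mul (cb.mul hq)) sb.mul_right.mul_left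
      sb.mul_right.mul_left h1 h2 hb ((iN.const_mul (2 * E)).add
        (iG.const_mul (Real.exp (l * (K * (η * η) - η)) ^ 2))) (l := l) (by linarith) hK
      (fun x => by
        by_cases hx : x ∈ Metric.ball x₀ ε
        · obtain ⟨⟨⟨m1, m2, k1, k2, k3, k4⟩, k5, k6, k7, -⟩, k8⟩ := he x hx
          rw [lt_div_iff₀ (by positivity)] at k8
          refine Or.inr ⟨m1, m2, k1, k2, k3, k4, k5, k6, abs_le.2 ⟨?_, ?_⟩, k7⟩ <;>
            nlinarith [le_abs_self (L x - L x₀), neg_abs_le (L x - L x₀)]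
        · have z := fun e => (pd_congr_pt e (bz x hx)).trans (pd_const _ _ _)
          have z0 := (bz x hx).eq_of_nhds
          exact Or.inl ⟨by simp [z0], by simp [z0], fun e => by simp [dX _ hp, dX _ hq, z, z0]⟩)
      fun x => by
        simp only [dX _ hp, dX _ hq, hn, hτ, Pi.add_apply]
        have g : X x ^ 2 * G x ≤ Real.exp (l * (K * (η * η) - η)) ^ 2 * G x := by
          by_cases hx : x ∈ Metric.ball x₀ ε
          · by_cases hy : x ∈ Metric.ball x₀ (ε / 2)
            · rw [G1 x fun e => (pd_congr_pt e (b.eventuallyEq_one_of_mem_ball hy)).trans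
                (pd_const _ _ _), mul_zero, mul_zero]
            obtain ⟨⟨-, -, -, -, -, k7⟩, k8⟩ := he x hx
            rw [lt_div_iff₀ (by positivity)] at k8
            by_cases hs : L x - L x₀ < η
            · obtain ⟨z1, z2⟩ := k7 (hs.trans_le (η1.trans (mul_le_mul_of_nonneg_left
                (pow_le_pow_left₀ (by positivity) (not_lt.1 hy) 2) hκ.le)))
              simp [G, z1, z2]
            refine mul_le_mul_of_nonneg_right (pow_le_pow_left₀ (Real.exp_pos _).le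
              (Real.exp_le_exp.2 (mul_le_mul_of_nonneg_left ?_ l0)) 2) (by simp only [G]; positivity)
            nlinarith [mul_nonneg (sub_nonneg.2 (not_lt.1 hs)) (show 0 ≤ 1 - K * (L x - L x₀ + η) by
              nlinarith [le_abs_self (L x - L x₀)])]
          · rw [G2 x hx, mul_zero, mul_zero]
        have f : (X x * b x) ^ 2 * ((pd n p x - a1 x * pd τ p x + β x * pd τ q x) ^ 2
            + (pd n q x - a2 x * pd τ q x - β x * pd τ p x) ^ 2)
            ≤ (X x * b x) ^ 2 * (E * (p x ^ 2 + q x ^ 2)) := by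
          by_cases hx : x ∈ Metric.ball x₀ ε
          · exact mul_le_mul_of_nonneg_left (he x hx).1.2.2.2.2.1 (sq_nonneg _)
          · simp [(bz x hx).eq_of_nhds]
        simp only [G] at g ⊢
        nlinarith [sq_nonneg (X x * (b x * (pd n p x - a1 x * pd τ p x + β x * pd τ q x)
          - ((pd n b x - a1 x * pd τ b x) * p x + β x * pd τ b x * q x))),
          sq_nonneg (X x * (b x * (pd n q x - a2 x * pd τ q x - β x * pd τ p x)
          - ((pd n b x - a2 x * pd τ b x) * q x - β x * pd τ b x * p x)))]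
    rw [integral_add' (iN.const_mul _) (iG.const_mul _), integral_const_mul, integral_const_mul] at a
    have lo := integral_mono (iH.const_mul (Real.exp (l * (K * (η / 2 * (η / 2)) - η / 2)) ^ 2)) iN
      fun x => by
        by_cases hs : L x - L x₀ < η / 2
        · have := mul_le_mul (pow_le_pow_left₀ (Real.exp_pos _).le (Real.exp_le_exp.2
            (mul_le_mul_of_nonneg_left (show K * (η / 2 * (η / 2)) - η / 2 ≤ K * ((L x - L x₀)
              * (L x - L x₀)) - (L x - L x₀) by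
              nlinarith [mul_nonneg (sub_nonneg.2 hs.le) (show 0 ≤ 1 - K * (L x - L x₀ + η / 2) by
                nlinarith)]) l0)) 2) (mul_le_of_le_one_right (by positivity) (min_le_left _ _) :
                  H x ≤ _) (H0 x) (sq_nonneg _)
          simp only [X]
          linarith
        · simp only [H, max_eq_left (sub_nonpos.2 (not_lt.1 hs)), min_eq_right zero_le_one, mul_zero]
          exact add_nonneg (mul_self_nonneg _) (mul_self_nonneg _)
    rw [integral_const_mul] at lo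
    have n0 := integral_nonneg (μ := volume) (f := fun x => X x * (b x * p x) * (X x * (b x * p x))
      + X x * (b x * q x) * (X x * (b x * q x))) fun x =>
        add_nonneg (mul_self_nonneg _) (mul_self_nonneg _)
    refine le_of_mul_le_mul_left (lo.trans ?_) (by positivity)
    rw [← mul_assoc, ← Real.exp_nat_mul, ← Real.exp_add, show ((2 : ℕ) : ℝ) * (l * (K * (η / 2
      * (η / 2)) - η / 2)) + -(l * (η * (1 - 3 / 2 * K * η))) = (2 : ℕ) * (l * (K * (η * η) - η)) by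
        push_cast; ring, Real.exp_nat_mul]
    nlinarith
  have z : ∫ x, H x = 0 := by
    refine le_antisymm ?_ (integral_nonneg H0)
    have t := (Real.tendsto_exp_neg_atTop_nhds_zero.comp (tendsto_id.atTop_mul_const
      (show 0 < η * (1 - 3 / 2 * K * η) from mul_pos η0 (by nlinarith)))).mul_const (∫ x, G x)
    rw [zero_mul] at t
    exact ge_of_tendsto t ((eventually_ge_atTop _).mono key)
  have z2 := (cH.ae_eq_iff_eq volume continuous_zero).1 ((integral_eq_zero_iff_of_nonneg H0 iH).1 z)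
  filter_upwards [b.eventuallyEq_one, sm (η / 2) (by positivity)] with x k1 k2
  have := congrFun z2 x
  simp only [H, k1, Pi.one_apply, one_mul, Pi.zero_apply] at this
  have k3 := (mul_eq_zero.1 this).resolve_right (lt_min one_pos (lt_max_of_lt_right (by
    linarith [le_abs_self (L x - L x₀)]))).ne'
  constructor <;> nlinarith [sq_nonneg (p x), sq_nonneg (q x)]

end Pool.Agent.MP_ed9623_an.H64
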