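import Pool.Agent.MP_ed9623_an.H64.Jet2
import Pool.Agent.MP_ed9623_an.H64.Carl3

open Filter Topology MeasureTheory Set

namespace Pool.Agent.MP_ed9623_an.H64

section ind
variable {E F : Type*} [NormedAddCommGroup E] [NormedSpace ℝ E] [NormedAddCommGroup F]
  [NormedSpace ℝ F]

theorem ind_neg {r : E → ℝ} (hr : Continuous r) (f : E → F) {y : E} (h : r y < 0) :
    {x | r x < 0}.indicator f =ᶠ[𝓝 y] f := by
  filter_upwards [(isOpen_lt hr continuous_const).mem_nhds h] with x hx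
  exact indicator_of_mem (s := {x | r x < 0}) hx f

theorem ind_pos {r : E → ℝ} (hr : Continuous r) (f : E → F) {y : E} (h : 0 < r y) :
    {x | r x < 0}.indicator f =ᶠ[𝓝 y] fun _ => 0 := by
  filter_upwards [(isOpen_lt continuous_const hr).mem_nhds h] with x hx
  exact indicator_of_notMem (s := {x | r x < 0}) (not_lt.2 (le_of_lt hx)) f

theorem ind_cont {r : E → ℝ} (hr : Continuous r) {f : E → F} {y : E} (hf : ContinuousAt f y)
    (h0 : r y = 0 → f y = 0) : ContinuousAt ({x | r x < 0}.indicator f) y := by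
  rcases lt_trichotomy (r y) 0 with h | h | h
  · exact hf.congr (ind_neg hr f h).symm
  · have h1 : {x | r x < 0}.indicator f y = 0 :=
      indicator_of_notMem (s := {x | r x < 0}) (not_lt.2 h.ge) f
    rw [ContinuousAt, h1]
    rw [ContinuousAt, h0 h] at hf
    exact squeeze_zero_norm (fun x => norm_indicator_le_norm_self f x)
      (tendsto_zero_iff_norm_tendsto_zero.1 hf)
  · exact continuousAt_const.congr (ind_pos hr f h).symm

theorem ind_deriv {r : E → ℝ} (hr : Continuous r) {f : E → F} {y : E}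
    (hf : DifferentiableAt ℝ f y) (h0 : r y = 0 → f y = 0 ∧ fderiv ℝ f y = 0) :
    HasFDerivAt ({x | r x < 0}.indicator f) ({x | r x < 0}.indicator (fderiv ℝ f) y) y := by
  rcases lt_trichotomy (r y) 0 with h | h | h
  · rw [indicator_of_mem (show y ∈ {x | r x < 0} from h)]
    exact hf.hasFDerivAt.congr_of_eventuallyEq (ind_neg hr f h)
  · have hy : y ∉ {x | r x < 0} := not_lt.2 h.ge
    rw [indicator_of_notMem hy]
    have h1 := hf.hasFDerivAt
    rw [(h0 h).2, hasFDerivAt_iff_isLittleO_nhds_zero, (h0 h).1] at h1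
    rw [hasFDerivAt_iff_isLittleO_nhds_zero, indicator_of_notMem hy]
    refine Asymptotics.IsBigO.trans_isLittleO (Asymptotics.IsBigO.of_bound' ?_) h1
    refine Eventually.of_forall fun x => ?_
    simpa using norm_indicator_le_norm_self f (y + x)
  · rw [indicator_of_notMem (show y ∉ {x | r x < 0} from not_lt.2 h.le)]
    exact (hasFDerivAt_const (0 : F) y).congr_of_eventuallyEq (ind_pos hr f h)

theorem ind_C1 {r : E → ℝ} (hr : Continuous r) {f : E → F} {z : E} (hf : ContDiff ℝ (1 : ℕ) f)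
    (h0 : ∀ᶠ y in 𝓝 z, r y = 0 → f y = 0 ∧ fderiv ℝ f y = 0) :
    ContDiffAt ℝ (1 : ℕ) ({x | r x < 0}.indicator f) z := by
  refine contDiffAt_one_iff.2 ⟨{x | r x < 0}.indicator (fderiv ℝ f), _, h0, fun y hy => ?_,
    fun y hy => ind_deriv hr (hf.differentiable (by simp) y) hy⟩
  exact (ind_cont hr (hf.continuous_fderiv (by simp)).continuousAt
    fun h => (hy h).2).continuousWithinAt

theorem ind_C2 {r : E → ℝ} (hr : Continuous r) {f : E → F} {z : E} (hf : ContDiff ℝ (2 : ℕ) f)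
    (h0 : ∀ᶠ y in 𝓝 z, r y = 0 → f y = 0 ∧ fderiv ℝ f y = 0 ∧ fderiv ℝ (fderiv ℝ f) y = 0) :
    ContDiffAt ℝ (2 : ℕ) ({x | r x < 0}.indicator f) z := by
  refine (contDiffAt_succ_iff_hasFDerivAt (n := 1)).2 ⟨{x | r x < 0}.indicator (fderiv ℝ f),
    ⟨_, h0, fun y hy => ind_deriv hr (hf.differentiable (by simp) y)
      fun h => ⟨(hy h).1, (hy h).2.1⟩⟩, ?_⟩
  exact ind_C1 hr (hf.fderiv_right (by norm_num)) (h0.mono fun y hy h => (hy h).2)

theorem fderiv_zero_of_pd {f : E → ℝ} {z : E} (h : ∀ e, pd e f z = 0) : fderiv ℝ f z = 0 :=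
  ContinuousLinearMap.ext h

theorem fderiv2_zero_of_pd {f : E → ℝ} {z : E} (hf : ContDiff ℝ (2 : ℕ) f)
    (h : ∀ e e', pd e (pd e' f) z = 0) : fderiv ℝ (fderiv ℝ f) z = 0 := by
  have hd : DifferentiableAt ℝ (fderiv ℝ f) z :=
    (hf.fderiv_right (m := (1 : ℕ)) (by norm_num)).differentiable (by simp) z
  ext a b
  have := h a b
  unfold pd at this
  rw [fderiv_clm_apply hd (differentiableAt_const b)] at this
  simpa using this

theorem pd_ind {r : E → ℝ} (hr : Continuous r) {f : E → ℝ} {y : E}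
    (hf : DifferentiableAt ℝ f y) (h0 : r y = 0 → f y = 0 ∧ ∀ e, pd e f y = 0) (e : E) :
    pd e ({x | r x < 0}.indicator f) y = {x | r x < 0}.indicator (pd e f) y := by
  unfold pd
  rw [(ind_deriv hr hf fun h => ⟨(h0 h).1, fderiv_zero_of_pd (h0 h).2⟩).fderiv]
  by_cases hy : y ∈ {x | r x < 0}
  · rw [indicator_of_mem hy, indicator_of_mem hy]
  · rw [indicator_of_notMem hy, indicator_of_notMem hy]; rfl

end ind

theorem hess_zero {r w a1 a2 b : ST → ℝ} {z : ST} (hr : ContDiff ℝ (4 : ℕ) r)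
    (hw : ContDiff ℝ (4 : ℕ) w) (ha1 : Continuous a1) (ha2 : Continuous a2) (hb : Continuous b)
    (h0 : r z = 0) (hk : curv r z ≠ 0) (hb0 : b z = 0)
    (hS : ∀ᶠ y in 𝓝 z, r y < 0 → heat a1 a2 w y + b y = 0)
    (hB : ∀ᶠ y in 𝓝 z, r y = 0 → w y = 0 ∧ ∀ e, pd e w y = 0) (e e' : ST) :
    pd e (pd e' w) z = 0 := by
  have hd := fderiv_ne_of_curv hk
  have r1 := cdg_le hr (by norm_num : 1 ≤ 4)
  have r2 := cdg_le hr (by norm_num : 2 ≤ 4)
  obtain ⟨W, hW, ew⟩ := exists_div (n := 3) hr.contDiffAt hw.contDiffAt h0 hd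
    (hB.mono fun y h hy => (h hy).1)
  have ew' : w =ᶠ[𝓝 z] fun y => r y ^ (0 + 1) * W y := ew.mono fun y hy => by simpa using hy
  have hv : ∀ᶠ y in 𝓝 z, r y = 0 → W y = 0 := by
    filter_upwards [hB, ew'.eventually_nhds, cd_eventually hW,
      (curv_cont r2).continuousAt.eventually_ne hk] with y h1 h2 h3 h4 hy
    by_contra hne
    refine fderiv_ne_of_curv h4 (fderiv_zero_of_pd fun e => ?_)
    have := grad_zero_of_van r1.contDiffAt (cd_le h3 (by norm_num)) hy h2 e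
    rw [(h1 hy).2 e] at this
    exact (mul_eq_zero.1 this.symm).resolve_right hne
  obtain ⟨V, hV, ev⟩ := exists_div (n := 2) (cdg_le hr (by norm_num)).contDiffAt hW h0 hd hv
  have ev' : w =ᶠ[𝓝 z] fun y => r y ^ (1 + 1) * V y := by
    filter_upwards [ew, ev] with y h1 h2
    rw [h1, h2]; ring
  have V1 := cd_le hV (by norm_num : 1 ≤ 2)
  have sec : ∀ e, pd e (pd e w) z = 2 * pd e r z ^ 2 * V z := by
    intro e
    have p := pd_pow_mul e 1 r1.contDiffAt V1 ev'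
    have c : ContDiffAt ℝ (1 : ℕ) (fun y => (((1 : ℕ) : ℝ) + 1) * pd e r y * V y
        + r y * pd e V y) z :=
      ((contDiffAt_const.mul (contDiff_pd (n := 1) e r2).contDiffAt).mul V1).add
        (r1.contDiffAt.mul (contDiffAt_pd (n := 1) e hV))
    rw [grad_zero_of_van r1.contDiffAt c h0 p e, h0]
    push_cast; ring
  have E : heat a1 a2 w z + b z = 0 := by
    refine eq_zero_of_closure (f := fun y => heat a1 a2 w y + b y) ?_ (mem_closure_neg h0 hd) hS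
    exact ((cd_heat (n := 0) (contDiff_zero.2 ha1) (contDiff_zero.2 ha2)
      (cdg_le hw (by norm_num))).continuous.add hb).continuousAt
  unfold heat at E
  have g := (hB.self_of_nhds h0).2
  rw [g, g, g, hb0, sec, sec] at E
  have hV0 : V z = 0 := by
    by_contra hne
    have : (pd e1 r z ^ 2 + pd e2 r z ^ 2) * V z = 0 := by linarith
    have h2 := (mul_eq_zero.1 this).resolve_right hne
    have a1 : pd e1 r z = 0 := by nlinarith [sq_nonneg (pd e1 r z), sq_nonneg (pd e2 r z)]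
    have a2 : pd e2 r z = 0 := by nlinarith [sq_nonneg (pd e1 r z), sq_nonneg (pd e2 r z)]
    apply hk
    unfold curv
    rw [a1, a2]; ring
  have hVan : Van r z 2 2 w := ⟨V, hV, hV0, ev'⟩
  exact ((hVan.pd r2.contDiffAt h0 e').pd r1.contDiffAt h0 e).zero

theorem sys_ineq {a1 a2 w1 w2 : ST → ℝ} {y : ST}
    (h1 : heat a1 a2 w1 y + (w1 y * pd e1 a1 y + w2 y * pd e2 a1 y) = 0)
    (h2 : heat a1 a2 w2 y + (w1 y * pd e1 a2 y + w2 y * pd e2 a2 y) = 0) :
    Lh w1 y ^ 2 + Lh w2 y ^ 2 ≤ (2 * (a1 y ^ 2 + a2 y ^ 2) + gr a1 y + gr a2 y)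
      * (w1 y ^ 2 + w2 y ^ 2 + gr w1 y + gr w2 y) := by
  have cs : ∀ a b c d x u v w : ℝ, (a * x + b * u + c * v + d * w) ^ 2
      ≤ (a ^ 2 + b ^ 2 + c ^ 2 + d ^ 2) * (x ^ 2 + u ^ 2 + v ^ 2 + w ^ 2) := by
    intro a b c d x u v w
    nlinarith [sq_nonneg (a * u - b * x), sq_nonneg (a * v - c * x), sq_nonneg (a * w - d * x),
      sq_nonneg (b * v - c * u), sq_nonneg (b * w - d * u), sq_nonneg (c * w - d * v)]
  have l1 : Lh w1 y = a1 y * pd e1 w1 y + a2 y * pd e2 w1 y + pd e1 a1 y * w1 y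
      + pd e2 a1 y * w2 y := by
    unfold heat at h1; unfold Lh; linarith
  have l2 : Lh w2 y = a1 y * pd e1 w2 y + a2 y * pd e2 w2 y + pd e1 a2 y * w1 y
      + pd e2 a2 y * w2 y := by
    unfold heat at h2; unfold Lh; linarith
  have c1 := cs (a1 y) (a2 y) (pd e1 a1 y) (pd e2 a1 y) (pd e1 w1 y) (pd e2 w1 y) (w1 y) (w2 y)
  have c2 := cs (a1 y) (a2 y) (pd e1 a2 y) (pd e2 a2 y) (pd e1 w2 y) (pd e2 w2 y) (w1 y) (w2 y)
  rw [l1, l2]
  unfold gr
  have n1 : 0 ≤ (a1 y ^ 2 + a2 y ^ 2 + pd e1 a1 y ^ 2 + pd e2 a1 y ^ 2)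
    * (pd e1 w2 y ^ 2 + pd e2 w2 y ^ 2) := by positivity
  have n2 : 0 ≤ (a1 y ^ 2 + a2 y ^ 2 + pd e1 a2 y ^ 2 + pd e2 a2 y ^ 2)
    * (pd e1 w1 y ^ 2 + pd e2 w1 y ^ 2) := by positivity
  nlinarith

/-- If the gradient of `w` vanishes on a curved boundary arc, then `w` vanishes. -/
theorem zero_of_arc {ρ : ℝ × ℝ → ℝ} {r a1 a2 w1 w2 : ST → ℝ} (hρ : ContDiff ℝ (1 : ℕ) ρ)
    (hrρ : ∀ z, r z = ρ z.2) (hr : ContDiff ℝ (4 : ℕ) r)
    (hc : IsPreconnected {x | ρ x < 0}) {I : Set ℝ} (hI : IsOpen I)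
    (ha1 : ContDiff ℝ (2 : ℕ) a1) (ha2 : ContDiff ℝ (2 : ℕ) a2) (hw1 : ContDiff ℝ (4 : ℕ) w1)
    (hw2 : ContDiff ℝ (4 : ℕ) w2)
    (hS : ∀ y : ST, y.1 ∈ I → r y < 0 →
      heat a1 a2 w1 y + (w1 y * pd e1 a1 y + w2 y * pd e2 a1 y) = 0 ∧
      heat a1 a2 w2 y + (w1 y * pd e1 a2 y + w2 y * pd e2 a2 y) = 0)
    {x₀ : ℝ × ℝ} (h0 : ρ x₀ = 0) (hd : fderiv ℝ ρ x₀ ≠ 0)
    (hB : ∀ᶠ x in 𝓝 x₀, ∀ t ∈ I, ρ x = 0 → curv r (t, x) ≠ 0 ∧ w1 (t, x) = 0 ∧ w2 (t, x) = 0 ∧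
      ∀ e, pd e w1 (t, x) = 0 ∧ pd e w2 (t, x) = 0) :
    ∀ x, ρ x < 0 → ∀ t ∈ I, w1 (t, x) = 0 ∧ w2 (t, x) = 0 := by
  obtain ⟨ε, hε, hεB⟩ := Metric.eventually_nhds_iff_ball.1 hB
  have cr := hr.continuous
  have l2 := fun {f : ST → ℝ} (h : ContDiff ℝ (4 : ℕ) f) => cdg_le h (by norm_num : 2 ≤ 4)
  have ca := fun {f : ST → ℝ} (h : ContDiff ℝ (2 : ℕ) f) e =>
    (contDiff_pd (n := 1) e h).continuous
  have hO : IsOpen {y : ST | y.1 ∈ I ∧ y.2 ∈ Metric.ball x₀ ε} :=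
    (hI.preimage continuous_fst).inter (Metric.isOpen_ball.preimage continuous_snd)
  have loc : ∀ z : ST, z.1 ∈ I → z.2 ∈ Metric.ball x₀ ε → ∀ᶠ y in 𝓝 z,
      y.1 ∈ I ∧ (r y = 0 → curv r y ≠ 0 ∧ w1 y = 0 ∧ w2 y = 0 ∧
        ∀ e, pd e w1 y = 0 ∧ pd e w2 y = 0) := fun z h1 h2 => by
    filter_upwards [hO.mem_nhds ⟨h1, h2⟩] with y hy
    exact ⟨hy.1, fun h => hεB y.2 hy.2 y.1 hy.1 (by rw [← hrρ, h])⟩
  have hess : ∀ z : ST, z.1 ∈ I → z.2 ∈ Metric.ball x₀ ε → r z = 0 →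
      (∀ e e', pd e (pd e' w1) z = 0) ∧ ∀ e e', pd e (pd e' w2) z = 0 := fun z h1 h2 h => by
    have L := loc z h1 h2
    obtain ⟨k, y1, y2, -⟩ := L.self_of_nhds.2 h
    constructor
    · refine hess_zero (b := fun y => w1 y * pd e1 a1 y + w2 y * pd e2 a1 y) hr hw1
        ha1.continuous ha2.continuous ((hw1.continuous.mul (ca ha1 e1)).add
          (hw2.continuous.mul (ca ha1 e2))) h k (by simp only [y1, y2]; ring)
        (L.mono fun y hy hn => (hS y hy.1 hn).1)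
        (L.mono fun y hy hn => ⟨(hy.2 hn).2.1, fun e => ((hy.2 hn).2.2.2 e).1⟩)
    · refine hess_zero (b := fun y => w1 y * pd e1 a2 y + w2 y * pd e2 a2 y) hr hw2
        ha1.continuous ha2.continuous ((hw1.continuous.mul (ca ha2 e1)).add
          (hw2.continuous.mul (ca ha2 e2))) h k (by simp only [y1, y2]; ring)
        (L.mono fun y hy hn => (hS y hy.1 hn).2)
        (L.mono fun y hy hn => ⟨(hy.2 hn).2.2.1, fun e => ((hy.2 hn).2.2.2 e).2⟩)
  have cCf : Continuous fun y => 2 * (a1 y ^ 2 + a2 y ^ 2) + gr a1 y + gr a2 y := by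
    have := ha1.continuous
    have := ha2.continuous
    have := ct_gr ha1
    have := ct_gr ha2
    fun_prop
  have ext : ∀ w : ST → ℝ, ContDiff ℝ (4 : ℕ) w → (∀ z : ST, z.1 ∈ I → z.2 ∈ Metric.ball x₀ ε →
      r z = 0 → w z = 0 ∧ (∀ e, pd e w z = 0) ∧ ∀ e e', pd e (pd e' w) z = 0) →
      ∀ z : ST, z.1 ∈ I → z.2 ∈ Metric.ball x₀ ε →
        ContDiffAt ℝ (2 : ℕ) ({x | r x < 0}.indicator w) z ∧
        (¬ r z < 0 → Lh ({x | r x < 0}.indicator w) z = 0) := by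
    intro w hw hj z h1 h2
    have L : ∀ᶠ y in 𝓝 z, r y = 0 → w y = 0 ∧ (∀ e, pd e w y = 0) ∧
        ∀ e e', pd e (pd e' w) y = 0 := by
      filter_upwards [hO.mem_nhds ⟨h1, h2⟩] with y hy using hj y hy.1 hy.2
    refine ⟨ind_C2 cr (l2 hw) (L.mono fun y hy h => ⟨(hy h).1, fderiv_zero_of_pd (hy h).2.1,
      fderiv2_zero_of_pd (l2 hw) (hy h).2.2⟩), fun hn => ?_⟩
    have p1 : ∀ e, pd e ({x | r x < 0}.indicator w) =ᶠ[𝓝 z] {x | r x < 0}.indicator (pd e w) :=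
      fun e => L.mono fun y hy => pd_ind cr (cdg_diff hw (by norm_num) y)
        (fun h => ⟨(hy h).1, (hy h).2.1⟩) e
    have p2 : ∀ e, pd e (pd e ({x | r x < 0}.indicator w)) z = 0 := fun e => by
      rw [pd_congr_pt e (p1 e), pd_ind cr (cdg_diff (contDiff_pd (n := 3) e hw) (by norm_num) z)
        (fun h => ⟨(L.self_of_nhds h).2.1 e, fun e' => (L.self_of_nhds h).2.2 e' e⟩) e]
      exact indicator_of_notMem (s := {x | r x < 0}) hn _
    unfold Lh
    rw [p2, p2, (p1 e0).eq_of_nhds, indicator_of_notMem (s := {x | r x < 0}) hn]; ring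
  have ext1 := ext w1 hw1 fun z h1 h2 h => by
    obtain ⟨-, y1, -, y3⟩ := (loc z h1 h2).self_of_nhds.2 h
    exact ⟨y1, fun e => (y3 e).1, (hess z h1 h2 h).1⟩
  have ext2 := ext w2 hw2 fun z h1 h2 h => by
    obtain ⟨-, -, y2, y3⟩ := (loc z h1 h2).self_of_nhds.2 h
    exact ⟨y2, fun e => (y3 e).2, (hess z h1 h2 h).2⟩
  obtain ⟨x₁, hx₁, hx₁'⟩ := mem_closure_iff_nhds.1 (mem_closure_pos h0 hd) _
    (Metric.ball_mem_nhds x₀ hε)
  obtain ⟨x₂, hx₂, hx₂'⟩ := mem_closure_iff_nhds.1 (mem_closure_neg h0 hd) _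
    (Metric.ball_mem_nhds x₀ hε)
  have U1 := uc_connected Metric.isOpen_ball (convex_ball x₀ ε).isPreconnected hI
    (W₁ := {x | r x < 0}.indicator w1) (W₂ := {x | r x < 0}.indicator w2) cCf
    (fun z h1 h2 => ⟨(ext1 z h1 h2).1, (ext2 z h1 h2).1, by
      by_cases hn : r z < 0
      · rw [Lh_congr (ind_neg cr w1 hn), Lh_congr (ind_neg cr w2 hn), gr_congr (ind_neg cr w1 hn),
          gr_congr (ind_neg cr w2 hn), (ind_neg cr w1 hn).eq_of_nhds,
          (ind_neg cr w2 hn).eq_of_nhds]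
        exact sys_ineq (hS z h1 hn).1 (hS z h1 hn).2
      · rw [(ext1 z h1 h2).2 hn, (ext2 z h1 h2).2 hn]
        have := gr_nonneg a1 z
        have := gr_nonneg a2 z
        have := gr_nonneg ({x | r x < 0}.indicator w1) z
        have := gr_nonneg ({x | r x < 0}.indicator w2) z
        norm_num
        positivity⟩) hx₁ (by
      filter_upwards [(isOpen_lt continuous_const hρ.continuous).mem_nhds hx₁'] with x hx t _
      have : (t, x) ∉ {x | r x < 0} := by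
        simp only [mem_setOf_eq, hrρ, not_lt]; exact le_of_lt hx
      exact ⟨indicator_of_notMem this _, indicator_of_notMem this _⟩)
  have hΩ : IsOpen {x | ρ x < 0} := isOpen_lt hρ.continuous continuous_const
  refine uc_connected hΩ hc hI cCf (fun z h1 h2 => ⟨(l2 hw1).contDiffAt, (l2 hw2).contDiffAt, ?_⟩)
    hx₂' ?_
  · have hn : r z < 0 := by rw [hrρ]; exact h2
    exact sys_ineq (hS z h1 hn).1 (hS z h1 hn).2
  · filter_upwards [hΩ.mem_nhds hx₂', Metric.isOpen_ball.mem_nhds hx₂] with x h1 h2 t ht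
    have := U1 x h2 t ht
    have hm : (t, x) ∈ {x | r x < 0} := by simp only [mem_setOf_eq, hrρ]; exact h1
    rwa [indicator_of_mem hm, indicator_of_mem hm] at this

end Pool.Agent.MP_ed9623_an.H64
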