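import Pool.Agent.MP_ed9623_an.H64.Circ1
import Pool.Agent.MP_ed9623_an.H64.Unique

open Filter Topology MeasureTheory Set
open scoped ContDiff

namespace Pool.Agent.MP_ed9623_an.H64

theorem ev_bd {x : PP} {f g h k l : PP → ℝ} (hf : ContinuousAt f x) (hg : ContinuousAt g x)
    (hh : ContinuousAt h x) (hk : ContinuousAt k x) (hl : ContinuousAt l x) : ∃ E, 0 ≤ E ∧
    ∀ᶠ y in 𝓝 x, |f y| ≤ E ∧ |g y| ≤ E ∧ |h y| ≤ E ∧ |k y| ≤ E ∧ l y ≤ E := by
  have c := (((hf.abs.add hg.abs).add hh.abs).add hk.abs).add hl.abs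
  refine ⟨|f x| + |g x| + |h x| + |k x| + |l x| + 1, by positivity,
    (c.eventually (gt_mem_nhds (lt_add_one _))).mono fun y hy => ?_⟩
  simp only [Pi.add_apply] at hy ⊢
  refine ⟨?_, ?_, ?_, ?_, ?_⟩ <;> linarith [abs_nonneg (f y), abs_nonneg (g y), abs_nonneg (h y),
    abs_nonneg (k y), abs_nonneg (l y), le_abs_self (l y)]

theorem uc_sys {x₀ n τ : PP} (L : PP →L[ℝ] ℝ) (hn : L n = 1) (hτ : L τ = 0) {u v b c : PP → ℝ}
    (hu : ContDiff ℝ (2 : ℕ) u) (hv : ContDiff ℝ (2 : ℕ) v) (hb : ContDiffAt ℝ (2 : ℕ) b x₀)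
    (hc : ContDiffAt ℝ (2 : ℕ) c x₀) (hδ : b x₀ ^ 2 + c x₀ ≠ 0) {κ : ℝ} (hκ : 0 < κ)
    (h : ∀ᶠ x in 𝓝 x₀, pd n u x = -pd τ v x ∧ pd n v x = 2 * b x * pd τ v x - c x * pd τ u x ∧
      (L x - L x₀ < κ * dist x x₀ ^ 2 → u x = 0 ∧ v x = 0)) : ∀ᶠ x in 𝓝 x₀, u x = 0 ∧ v x = 0 := by
  obtain ⟨B, cB, eB⟩ := globalize hb
  have l1 := fun {f : PP → ℝ} (h : ContDiff ℝ (2 : ℕ) f) => cdg_le h (by norm_num : 1 ≤ 2)
  have d := fun {f : PP → ℝ} (h : ContDiff ℝ (2 : ℕ) f) e x => HD.of_diff (e := e) (cdg_diff h one_le_two x)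
  have ct := fun {f : PP → ℝ} (h : ContDiff ℝ (2 : ℕ) f) e =>
    (contDiff_pd (n := 1) e h).continuous.continuousAt (x := x₀)
  have sq : ∀ s : ℝ, 0 < s * (b x₀ ^ 2 + c x₀) → ∃ S : PP → ℝ, ContDiff ℝ (2 : ℕ) S ∧ S x₀ ≠ 0 ∧
      ∀ᶠ x in 𝓝 x₀, S x ≠ 0 ∧ S x ^ 2 = s * (B x ^ 2 + c x) := fun s hs => by
    have c1 := (contDiffAt_const (c := s)).mul ((hb.pow 2).add hc)
    obtain ⟨S, cS, eS⟩ := globalize (c1.sqrt hs.ne')
    have : ∀ᶠ x in 𝓝 x₀, S x ≠ 0 ∧ S x ^ 2 = s * (B x ^ 2 + c x) := by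
      filter_upwards [eS, eB, c1.continuousAt.eventually (lt_mem_nhds hs)] with x k1 k2 k3
      rw [k1, k2]
      exact ⟨(Real.sqrt_pos.2 k3).ne', Real.sq_sqrt k3.le⟩
    exact ⟨S, cS, this.self_of_nhds.1, this⟩
  have B0 := cB.continuous.continuousAt (x := x₀)
  rcases hδ.lt_or_gt with k | k
  · obtain ⟨S, cS, S0, eS⟩ := sq (-1) (by linarith)
    have S1 := cS.continuous.continuousAt (x := x₀)
    obtain ⟨E, E0, hE⟩ := ev_bd ((((ct cS τ).div S1 S0).mul B0).sub ((ct cS n).div S1 S0))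
      (((ct cS τ).div S1 S0).mul S1) (ct cB τ) (ct cB τ)
      ((((((ct cB n).sub (B0.mul (ct cB τ))).sub (S1.mul (ct cS τ))).pow 2).add
        ((((B0.mul (ct cS τ)).sub (ct cS n)).sub (S1.mul (ct cB τ))).pow 2)).div (S1.pow 2)
          (pow_ne_zero 2 S0))
    have cp := hv.add (cB.mul hu)
    have cq := (cS.mul hu).neg
    filter_upwards [uc2 L hn hτ cp cq (l1 cB) (l1 cB) (l1 cS) hκ E0 (by
      filter_upwards [h, eB, eS, hE] with x ⟨k1, k2, k3⟩ k4 ⟨k5, k6⟩ ⟨k7, k8, k9, _, k10⟩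
      refine ⟨⟨_, _, (div_mul_cancel₀ _ k5).symm, (div_mul_cancel₀ _ k5).symm, k7, k8⟩, k9, k9,
        by simp, ?_, fun hx => by simp [k3 hx]⟩
      have p := fun e => ((d hv e x).add ((d cB e x).mul (d hu e x))).pd_eq (cdg_diff cp one_le_two x)
      have q := fun e => (pd_neg e).trans (congrArg Neg.neg
        (((d cS e x).mul (d hu e x)).pd_eq (cdg_diff (cS.mul hu) one_le_two x)))
      rw [p, p, q, q, k1, k2, ← k4, show c x = -B x ^ 2 - S x ^ 2 by linarith]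
      simp only [Pi.div_apply, Pi.add_apply, Pi.pow_apply, Pi.sub_apply, Pi.mul_apply] at k10
      rw [div_le_iff₀ (by positivity)] at k10
      nlinarith [mul_le_mul_of_nonneg_right k10 (sq_nonneg (u x)),
        mul_nonneg E0 (sq_nonneg (v x + B x * u x))]), eS] with x ⟨k1, k2⟩ k3
    have : u x = 0 := by simpa [k3.1] using k2
    exact ⟨this, by simpa [this] using k1⟩
  · obtain ⟨S, cS, S0, eS⟩ := sq 1 (by linarith)
    have S1 := cS.continuous.continuousAt (x := x₀)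
    obtain ⟨E, E0, hE⟩ := ev_bd (ct (cB.add cS) τ) (ct (cB.sub cS) τ) B0 B0
      (((((ct (cB.sub cS) n).sub ((B0.add S1).mul (ct (cB.sub cS) τ))).pow 2).add
        (((ct (cB.add cS) n).sub ((B0.sub S1).mul (ct (cB.add cS) τ))).pow 2)).div (S1.pow 2)
          (pow_ne_zero 2 S0))
    have cp := hv.add ((cB.sub cS).mul hu)
    have cq := hv.add ((cB.add cS).mul hu)
    filter_upwards [uc2 L hn hτ cp cq (l1 (cB.add cS)) (l1 (cB.sub cS)) (β := fun _ => 0)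
      contDiff_const hκ E0 (by
      filter_upwards [h, eB, eS, hE] with x ⟨k1, k2, k3⟩ k4 ⟨k5, k6⟩ ⟨k7, k8, _, _, k10⟩
      refine ⟨⟨0, 0, by simp [pd_const], by simp [pd_const], by simpa, by simpa⟩, k7, k8,
        by simp, ?_, fun hx => by simp [k3 hx]⟩
      have p := fun e => ((d hv e x).add ((d (cB.sub cS) e x).mul (d hu e x))).pd_eq
        (cdg_diff cp one_le_two x)
      have q := fun e => ((d hv e x).add ((d (cB.add cS) e x).mul (d hu e x))).pd_eq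
        (cdg_diff cq one_le_two x)
      rw [p, p, q, q, k1, k2, ← k4, show c x = S x ^ 2 - B x ^ 2 by linarith]
      simp only [Pi.div_apply, Pi.add_apply, Pi.pow_apply, Pi.sub_apply, Pi.mul_apply] at k10
      rw [div_le_iff₀ (by positivity)] at k10
      nlinarith [mul_le_mul_of_nonneg_right k10 (sq_nonneg (u x)),
        mul_nonneg E0 (sq_nonneg (v x + B x * u x)), mul_nonneg E0 (sq_nonneg (S x * u x))]), eS]
      with x ⟨k1, k2⟩ k3
    have : u x = 0 := (mul_eq_zero.1 (show S x * u x = 0 by linarith)).resolve_left k3.1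
    exact ⟨this, by simpa [this] using k1⟩

theorem uc_tr {x₀ n : PP} (hn : n.1 ^ 2 + n.2 ^ 2 = 1) {a1 a2 m1 m2 m3 : PP → ℝ}
    (h1 : ContDiff ℝ (2 : ℕ) a1) (h2 : ContDiff ℝ (2 : ℕ) a2) (c1 : ContDiff ℝ (2 : ℕ) m1)
    (c2 : ContDiff ℝ (2 : ℕ) m2) (c3 : ContDiff ℝ (2 : ℕ) m3)
    (hA : -2 * n.1 * n.2 * m1 x₀ - n.2 ^ 2 * m2 x₀ + n.1 ^ 2 * m3 x₀ ≠ 0)
    (hB : (n.1 ^ 2 - n.2 ^ 2) * m1 x₀ + n.1 * n.2 * (m2 x₀ + m3 x₀) = 0)
    (hC : -2 * n.1 * n.2 * m1 x₀ + n.1 ^ 2 * m2 x₀ - n.2 ^ 2 * m3 x₀ ≠ 0) {κ : ℝ} (hκ : 0 < κ)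
    (h : ∀ᶠ x in 𝓝 x₀, pd (1, 0) a1 x + pd (0, 1) a2 x = 0 ∧ pd (1, 0) a1 x * m1 x
      + pd (0, 1) a1 x * m2 x + pd (1, 0) a2 x * m3 x - pd (0, 1) a2 x * m1 x = 0 ∧
      (n.1 * (x.1 - x₀.1) + n.2 * (x.2 - x₀.2) < κ * dist x x₀ ^ 2 → a1 x = 0 ∧ a2 x = 0)) :
    ∀ᶠ x in 𝓝 x₀, a1 x = 0 ∧ a2 x = 0 := by
  have cA : ContDiff ℝ (2 : ℕ) fun x => -2 * n.1 * n.2 * m1 x - n.2 ^ 2 * m2 x + n.1 ^ 2 * m3 x := by
    fun_prop
  have cu : ContDiff ℝ (2 : ℕ) fun x => n.1 * a1 x + n.2 * a2 x := by fun_prop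
  have cv : ContDiff ℝ (2 : ℕ) fun x => n.1 * a2 x - n.2 * a1 x := by fun_prop
  have d := fun {f : PP → ℝ} (h : ContDiff ℝ (2 : ℕ) f) e x => HD.of_diff (e := e) (cdg_diff h one_le_two x)
  filter_upwards [uc_sys (n.1 • ContinuousLinearMap.fst ℝ ℝ ℝ + n.2 • ContinuousLinearMap.snd ℝ ℝ ℝ)
    (n := n) (τ := (-n.2, n.1)) (by simpa [sq] using hn) (by simp; ring) cu cv
    ((by fun_prop : ContDiff ℝ (2 : ℕ) fun x => (n.1 ^ 2 - n.2 ^ 2) * m1 x + n.1 * n.2 * (m2 x + m3 x)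
      ).contDiffAt.div cA.contDiffAt hA) ((by fun_prop : ContDiff ℝ (2 : ℕ) fun x =>
        -2 * n.1 * n.2 * m1 x + n.1 ^ 2 * m2 x - n.2 ^ 2 * m3 x).contDiffAt.div cA.contDiffAt hA)
    (by simp only [Pi.div_apply, hB]; simpa using div_ne_zero hC hA) hκ (by
      filter_upwards [h, cA.continuous.continuousAt.eventually_ne hA] with x ⟨k1, k2, k3⟩ k4
      have p := fun e => (((d h1 e x).cmul n.1).add ((d h2 e x).cmul n.2)).pd_eq (cdg_diff cu one_le_two x)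
      have q := fun e => (((d h2 e x).cmul n.1).sub ((d h1 e x).cmul n.2)).pd_eq (cdg_diff cv one_le_two x)
      simp only [p, q, pd_dir2 a1 x n, pd_dir2 a2 x n, pd_dir2 a1 x (-n.2, n.1), pd_dir2 a2 x (-n.2, n.1)]
      rw [show pd (0, 1) a2 x = -pd (1, 0) a1 x by linarith] at k2 ⊢
      refine ⟨by ring, ?_, fun hx => by simp [k3 (by simpa [mul_sub, add_sub_add_comm] using hx)]⟩
      have i := mul_inv_cancel₀ k4
      simp only [Pi.div_apply, div_eq_mul_inv]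
      generalize (_ : ℝ)⁻¹ = j at i ⊢
      linear_combination j * (n.1 ^ 2 + n.2 ^ 2) ^ 2 * k2 - (n.1 * (n.1 * pd (1, 0) a2 x
        - n.2 * pd (1, 0) a1 x) - n.2 * (n.1 * pd (1, 0) a1 x + n.2 * pd (0, 1) a1 x)) * i)] with x ⟨k1, k2⟩
  exact ⟨by linear_combination n.1 * k1 - n.2 * k2 - a1 x * hn,
    by linear_combination n.2 * k1 + n.1 * k2 - a2 x * hn⟩

variable {c : PP}

theorem curv_mul {r W : ST → ℝ} {z : ST} {s : ℝ} (hW : ContDiffAt ℝ (2 : ℕ) W z) (hz : qq c z = s)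
    (e : r =ᶠ[𝓝 z] fun y => (qq c y - s) * W y) : curv r z = 8 * s * W z ^ 3 := by
  have p : ∀ e', pd e' r =ᶠ[𝓝 z] fun y => (2 * XX c y * e'.2.1 + 2 * YY c y * e'.2.2) * W y
      + (qq c y - s) * pd e' W y := fun e' => by
    filter_upwards [pd_congr e' e, cd_eventually hW] with y k1 k2
    have d := cd_diff k2 one_le_two
    rw [k1, (((HD_qq c e' y).sub (HD.const _ _ s)).mul (HD.of_diff d)).pd_eq
      (((cdg_diff (cd_qq c (1 : ℕ)) le_rfl y).sub_const s).mul d), sub_zero]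
  have d := cd_diff hW one_le_two
  have q : ∀ e e', pd e (pd e' r) z = (2 * e.2.1 * e'.2.1 + 2 * e.2.2 * e'.2.2) * W z
      + (2 * XX c z * e'.2.1 + 2 * YY c z * e'.2.2) * pd e W z
      + (2 * XX c z * e.2.1 + 2 * YY c z * e.2.2) * pd e' W z := fun e e' => by
    have d' := cd_diff (contDiffAt_pd (n := 1) e' hW) le_rfl
    rw [pd_congr_pt e (p e'), (((((((HD_XX c e z).cmul 2).mul (HD.const _ _ e'.2.1)).add
      (((HD_YY c e z).cmul 2).mul (HD.const _ _ e'.2.2))).mul (HD.of_diff d)).add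
      (((HD_qq c e z).sub (HD.const _ _ s)).mul (HD.of_diff d'))).pd_eq (((cdg_diff (n := 1)
        (by fun_prop) le_rfl z).mul d).add (((cdg_diff (cd_qq c (1 : ℕ)) le_rfl z).sub_const s).mul d'))),
      hz]
    ring
  rw [curv, q, q, q, (p _).eq_of_nhds, (p _).eq_of_nhds, hz, ← hz, qq]
  simp only [sub_self]
  ring

theorem tang {f : ST → ℝ} (hf : ContDiff ℝ (2 : ℕ) f) {s : ℝ} (hs : 0 < s) (h : ∀ y, qq c y = s → f y = 0)
    {z : ST} (hz : qq c z = s) : ∃ V, ∀ e, pd e f z = (XX c z * e.2.1 + YY c z * e.2.2) * V := by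
  have c2 : ContDiff ℝ (2 : ℕ) fun y => qq c y - s := by fun_prop
  have p := fun e => ((HD_qq c e z).sub (HD.const _ _ s)).pd_eq (cdg_diff c2 one_le_two z)
  obtain ⟨W, b1, b2⟩ := exists_div (n := 1) (z₀ := z) c2.contDiffAt hf.contDiffAt (sub_eq_zero.2 hz)
    (fun h0 => by
      have := p (0, XX c z, YY c z)
      rw [pd, h0, ContinuousLinearMap.zero_apply] at this
      unfold qq at hz
      linarith) (Eventually.of_forall fun y hy => h y (sub_eq_zero.1 hy))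
  refine ⟨2 * W z, fun e => ?_⟩
  rw [grad_zero_of_van (cdg_le c2 one_le_two).contDiffAt b1 (sub_eq_zero.2 hz)
    (b2.mono fun y hy => by simpa using hy), p]
  ring

theorem ann_conn (c : PP) {r R : ℝ} (hr : 0 ≤ r) (hR : r < R) :
    IsPreconnected {x : PP | (qq c (0, x) - R ^ 2) * (qq c (0, x) - r ^ 2) < 0} := by
  have := ((convex_Ioo r R).prod (convex_univ (E := ℝ))).isPreconnected.image
    (fun p : PP => ((c.1 + p.1 * Real.cos p.2, c.2 + p.1 * Real.sin p.2) : PP))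
    (Continuous.continuousOn (by fun_prop))
  convert this using 1
  ext x
  constructor
  · intro hx
    have n : ‖(⟨XX c (0, x), YY c (0, x)⟩ : ℂ)‖ ^ 2 = qq c (0, x) := by
      rw [Complex.sq_norm, Complex.normSq_mk]; rfl
    have n0 := norm_nonneg (⟨XX c (0, x), YY c (0, x)⟩ : ℂ)
    rw [mem_setOf_eq, ← n] at hx
    have k := pow_lt_pow_left₀ hR hr two_ne_zero
    refine ⟨(_, Complex.arg ⟨XX c (0, x), YY c (0, x)⟩), ⟨⟨lt_of_pow_lt_pow_left₀ 2 n0 ?_,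
      lt_of_pow_lt_pow_left₀ 2 (hr.trans hR.le) ?_⟩, mem_univ _⟩, ?_⟩
    · by_contra h; nlinarith
    · by_contra h; nlinarith
    · simp only [Complex.norm_mul_cos_arg, Complex.norm_mul_sin_arg, XX, YY, add_sub_cancel]
  · rintro ⟨p, ⟨⟨h1, h2⟩, -⟩, rfl⟩
    have : qq c (0, (c.1 + p.1 * Real.cos p.2, c.2 + p.1 * Real.sin p.2)) = p.1 ^ 2 := by
      simp only [qq, XX, YY, add_sub_cancel_left]
      linear_combination p.1 ^ 2 * Real.cos_sq_add_sin_sq p.2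
    rw [mem_setOf_eq, this]
    exact mul_neg_of_neg_of_pos (by nlinarith) (by nlinarith)

/-- Rotation derivative plus a correction. -/
noncomputable def Rz (c : PP) (f g : ST → ℝ) : ST → ℝ :=
  fun y => XX c y * pd e2 f y - YY c y * pd e1 f y + g y

theorem cd_Rz {f g : ST → ℝ} {n : ℕ} (hf : ContDiff ℝ (n + 1 : ℕ) f) (hg : ContDiff ℝ n g) :
    ContDiff ℝ n (Rz c f g) :=
  (((cd_XX c _).mul (contDiff_pd _ hf)).sub ((cd_YY c _).mul (contDiff_pd _ hf))).add hg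

theorem pd_Rz {f g : ST → ℝ} (hf : ContDiff ℝ (2 : ℕ) f) (hg : ContDiff ℝ (1 : ℕ) g) (e : ST) :
    pd e (Rz c f g) = Rz c (pd e f) fun y => e.2.1 * pd e2 f y - e.2.2 * pd e1 f y + pd e g y := by
  funext y
  have d := fun e' => HD.of_diff (e := e) (cdg_diff (contDiff_pd (n := 1) e' hf) le_rfl y)
  refine (((((HD_XX c e y).mul (d e2)).sub ((HD_YY c e y).mul (d e1))).add
    (HD.of_diff (cdg_diff hg le_rfl y))).pd_eq (cdg_diff (cd_Rz hf hg) le_rfl y)).trans ?_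
  rw [Rz, pd_comm e e1 hf.contDiffAt, pd_comm e e2 hf.contDiffAt]
  ring

theorem Lh_Rz {f g : ST → ℝ} (hf : ContDiff ℝ (3 : ℕ) f) (hg : ContDiff ℝ (2 : ℕ) g) {y : ST}
    (h : ∀ᶠ z in 𝓝 y, Lh f z = 0) : Lh (Rz c f g) y = Lh g y := by
  have f2 := cdg_le hf (by norm_num : 2 ≤ 3)
  have g1 := cdg_le hg one_le_two
  have p := fun e => contDiff_pd (n := 2) e hf
  have p1 := fun e => contDiff_pd (n := 1) e f2
  have q := fun e e' => contDiff_pd (n := 1) e (p e')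
  have d := fun {f : ST → ℝ} (h : ContDiff ℝ (1 : ℕ) f) e => HD.of_diff (e := e) (cdg_diff h le_rfl y)
  have cc : ∀ e : ST, ContDiff ℝ (1 : ℕ) fun y => e.2.1 * pd e2 f y - e.2.2 * pd e1 f y + pd e g y :=
    fun e => ((contDiff_const.mul (p1 _)).sub (contDiff_const.mul (p1 _))).add (contDiff_pd e hg)
  have k := fun e : ST => ((((d (p1 e2) e).cmul e.2.1).sub ((d (p1 e1) e).cmul e.2.2)).add
    (d (contDiff_pd e hg) e)).pd_eq (cdg_diff (cc e) le_rfl y)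
  have z := fun e => (((d (q e1 e1) e).add (d (q e2 e2) e)).sub (d (p1 e0) e)).eq_zero h
  rw [Lh, pd_Rz f2 g1, pd_Rz f2 g1, pd_Rz f2 g1, pd_Rz (p _) (cc _), pd_Rz (p _) (cc _)]
  simp only [Rz, k, Lh, pd_comm e2 e1 f2.contDiffAt]
  linear_combination XX c y * z e2 - YY c y * z e1

theorem rot_zero {r R : ℝ} (hr : 0 ≤ r) (hR : r < R) {w1 w2 : ST → ℝ} (h1 : ContDiff ℝ (5 : ℕ) w1)
    (h2 : ContDiff ℝ (5 : ℕ) w2) (hA : ∀ y, (qq c y - R ^ 2) * (qq c y - r ^ 2) < 0 →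
      Lh w1 y = 0 ∧ Lh w2 y = 0 ∧ pd e1 w1 y + pd e2 w2 y = 0)
    (hB : ∀ y, qq c y = R ^ 2 → w1 y = 0 ∧ w2 y = 0) :
    ∀ y, (qq c y - R ^ 2) * (qq c y - r ^ 2) < 0 → Rz c w1 w2 y = 0 ∧ Rz c w2 (fun y => -w1 y) y = 0 := by
  have l := fun {f : ST → ℝ} (h : ContDiff ℝ (5 : ℕ) f) (k : ℕ) (hk : k ≤ 5) => cdg_le h hk
  have R0 : 0 < R := hr.trans_lt hR
  have k := pow_lt_pow_left₀ hR hr two_ne_zero
  have cr : ∀ n, ContDiff ℝ n fun y => (qq c y - R ^ 2) * (qq c y - r ^ 2) := fun n => by fun_prop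
  have hU : ∀ y, (qq c y - R ^ 2) * (qq c y - r ^ 2) < 0 →
      ∀ᶠ z in 𝓝 y, (qq c z - R ^ 2) * (qq c z - r ^ 2) < 0 := fun y hy =>
    (cr 0).continuous.continuousAt.eventually (gt_mem_nhds hy)
  have z1 := cd_Rz (c := c) (n := 4) h1 (l h2 4 (by norm_num))
  have z2 := cd_Rz (c := c) (n := 4) h2 (l h1 4 (by norm_num)).neg
  have cv : ∀ y, qq c y = R ^ 2 → curv (fun y => (qq c y - R ^ 2) * (qq c y - r ^ 2)) y ≠ 0 :=
    fun y hy => by
      rw [curv_mul (W := fun y => qq c y - r ^ 2) (by fun_prop) hy EventuallyEq.rfl, hy]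
      have := sub_pos.2 k
      positivity
  have b : ∀ y, qq c y = R ^ 2 → Rz c w1 w2 y = 0 ∧ Rz c w2 (fun y => -w1 y) y = 0 := fun y hy => by
    obtain ⟨V1, p1⟩ := tang (l h1 2 (by norm_num)) (by positivity) (fun y h => (hB y h).1) hy
    obtain ⟨V2, p2⟩ := tang (l h2 2 (by norm_num)) (by positivity) (fun y h => (hB y h).2) hy
    simp only [Rz, p1, p2, hB y hy]
    constructor <;> ring
  intro y hy
  refine zero_of_arc (ρ := fun x => (qq c (0, x) - R ^ 2) * (qq c (0, x) - r ^ 2)) (a1 := fun _ => 0)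
    (a2 := fun _ => 0) ((cr _).comp (by fun_prop : ContDiff ℝ (1 : ℕ) fun x : PP => ((0, x) : ST)))
    (fun _ => rfl) (cr _) (ann_conn c hr hR) isOpen_univ contDiff_const contDiff_const z1 z2
    (fun y _ hy => ?_) (x₀ := (c.1 + R, c.2)) (by simp [qq, XX, YY, sq]) (fun h => ?_) ?_ y.2 hy y.1
    (mem_univ _)
  · have a1 := Lh_Rz (c := c) (l h1 3 (by norm_num)) (l h2 2 (by norm_num))
      ((hU y hy).mono fun z h => (hA z h).1)
    have a2 := Lh_Rz (c := c) (l h2 3 (by norm_num)) (l h1 2 (by norm_num)).neg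
      ((hU y hy).mono fun z h => (hA z h).2.1)
    obtain ⟨a3, a4, -⟩ := hA y hy
    have ng : ∀ e, pd e (fun x => -w1 x) = fun z => -pd e w1 z := fun e => funext fun z => pd_neg e
    simp only [Lh, ng, pd_neg] at a1 a2 a3 a4
    simp only [heat, pd_zero_fun]
    constructor <;> linarith
  · refine cv (0, c.1 + R, c.2) (by simp [qq, XX, YY, sq]) ?_
    have : ∀ e : PP, pd (0, e) (fun y => (qq c y - R ^ 2) * (qq c y - r ^ 2)) (0, c.1 + R, c.2) = 0 :=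
      fun e => by rw [← pd_slice (cdg_diff (cr (1 : ℕ)) le_rfl _), pd, h]; rfl
    rw [curv, this, this]; ring
  · have c0 : Continuous fun x : PP => qq c (0, x) := by fun_prop
    filter_upwards [c0.continuousAt.eventually (lt_mem_nhds (show r ^ 2 < qq c (0, c.1 + R, c.2) by
      simpa [qq, XX, YY, sq] using k))] with x hx t _ h0
    have hy : qq c (t, x) = R ^ 2 := sub_eq_zero.1 ((mul_eq_zero.1 h0).resolve_right (sub_pos.2 hx).ne')
    refine ⟨cv _ hy, (b _ hy).1, (b _ hy).2, fun e => ?_⟩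
    have cl : ∀ f : ST → ℝ, Continuous f → (∀ z, (qq c z - R ^ 2) * (qq c z - r ^ 2) < 0 → f z = 0) →
        f (t, x) = 0 := fun f hf hz => eq_zero_of_closure hf.continuousAt
      (mem_closure_neg (by rw [hy, sub_self, zero_mul]) (fderiv_ne_of_curv (cv _ hy)))
      (Eventually.of_forall hz)
    obtain ⟨V1, p1⟩ := tang (cdg_le z1 (by norm_num)) (by positivity) (fun y h => (b y h).1) hy
    obtain ⟨V2, p2⟩ := tang (cdg_le z2 (by norm_num)) (by positivity) (fun y h => (b y h).2) hy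
    obtain ⟨U1, q1⟩ := tang (l h1 2 (by norm_num)) (by positivity) (fun y h => (hB y h).1) hy
    obtain ⟨U2, q2⟩ := tang (l h2 2 (by norm_num)) (by positivity) (fun y h => (hB y h).2) hy
    have a1 := cl _ (ct_Lh (l h1 2 (by norm_num))) fun z h => (hA z h).1
    have a2 := cl _ (ct_Lh (l h2 2 (by norm_num))) fun z h => (hA z h).2.1
    have cc := fun {f : ST → ℝ} (h : ContDiff ℝ (5 : ℕ) f) e e' =>
      (contDiff_pd (n := 3) e (contDiff_pd (n := 4) e' h)).continuous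
    have a3 := fun e => cl _ ((cc h1 e1 e).add (cc h2 e2 e)) fun z h => (div_pd (l h1 2 (by norm_num))
      (l h2 2 (by norm_num)) ((hU z h).mono fun z h => (hA z h).2.2) e).self_of_nhds
    have a4 := a3 e1
    have a5 := a3 e2
    have b1 := p1 e1
    have b2 := p1 e2
    have b3 := p2 e1
    have b4 := p2 e2
    rw [pd_Rz (l h1 2 (by norm_num)) (l h2 1 (by norm_num))] at b1 b2
    rw [pd_Rz (l h2 2 (by norm_num)) (l h1 1 (by norm_num)).neg] at b3 b4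
    simp only [Rz, Lh, pd_neg, q1 e0, q2 e0, Pi.add_apply, pd_comm e2 e1 (l h1 2 (by norm_num)).contDiffAt,
      pd_comm e2 e1 (l h2 2 (by norm_num)).contDiffAt] at a1 a2 a4 a5 b1 b2 b3 b4
    unfold qq at hy
    generalize XX c (t, x) = X at *
    generalize YY c (t, x) = Y at *
    have d : X * V1 + Y * V2 = 0 := by linear_combination -b1 - b4 + X * a5 - Y * a4
    have o : X * V2 - Y * V1 = 0 := by linear_combination b2 - b3 - X * a1 - Y * a2 + X * a4 + Y * a5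
    have v1 : V1 = 0 := (mul_eq_zero.1 (show R ^ 2 * V1 = 0 by
      linear_combination X * d - Y * o - V1 * hy)).resolve_left (by positivity)
    have v2 : V2 = 0 := (mul_eq_zero.1 (show R ^ 2 * V2 = 0 by
      linear_combination Y * d + X * o - V2 * hy)).resolve_left (by positivity)
    simp [p1, p2, v1, v2]

end Pool.Agent.MP_ed9623_an.H64
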