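import Pool.Agent.MP_ed9623_an.H64.Circ2
import Pool.Agent.MP_ed9623_an.H64.Unique3

open Filter Topology MeasureTheory Set
open scoped ContDiff

namespace Pool.Agent.MP_ed9623_an.H64

theorem int_deriv {F F' : ℝ → ℝ → ℝ} (cF : Continuous fun p : PP => F p.1 p.2)
    (cF' : Continuous fun p : PP => F' p.1 p.2) (h : ∀ t s, HasDerivAt (fun t => F t s) (F' t s) t)
    (a b t : ℝ) : HasDerivAt (fun t => ∫ s in a..b, F t s) (∫ s in a..b, F' t s) t := by
  obtain ⟨C, hC⟩ := ((isCompact_closedBall t 1).prod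
    (isCompact_uIcc (a := a) (b := b))).exists_bound_of_continuousOn cF'.continuousOn
  have c : ∀ t, Continuous (F t) := fun t => cF.comp (Continuous.prodMk_right t)
  exact (intervalIntegral.hasDerivAt_integral_of_dominated_loc_of_deriv_le (bound := fun _ => C)
    (Metric.ball_mem_nhds t one_pos) (Eventually.of_forall fun s => (c s).aestronglyMeasurable)
    ((c t).intervalIntegrable _ _) (cF'.comp (Continuous.prodMk_right t)).aestronglyMeasurable
    (Eventually.of_forall fun s hs x hx => hC (x, s) ⟨Metric.ball_subset_closedBall hx,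
      uIoc_subset_uIcc hs⟩) intervalIntegrable_const (Eventually.of_forall fun s _ x _ => h x s)).2

theorem anc_zero {E E' : ℝ → ℝ} (h : ∀ t, HasDerivAt E (E' t) t) {K C : ℝ} (hK : 0 < K)
    (h1 : ∀ t, K * E' t ≤ -E t) (h2 : ∀ t, E t ≤ C) (t : ℝ) : E t ≤ 0 := by
  have hd : ∀ r, HasDerivAt (fun r => Real.exp (r / K) * E r)
      (Real.exp (r / K) * (1 / K) * E r + Real.exp (r / K) * E' r) r := fun r =>
    ((hasDerivAt_id' r).div_const K).exp.fun_mul (h r)
  have anti := antitone_of_deriv_nonpos (fun r => (hd r).differentiableAt) fun r => by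
    rw [(hd r).deriv, mul_assoc, ← mul_add, show 1 / K * E r + E' r = (K * E' r + E r) / K by
      field_simp; ring]
    exact mul_nonpos_of_nonneg_of_nonpos (Real.exp_pos _).le
      (div_nonpos_of_nonpos_of_nonneg (by linarith [h1 r]) hK.le)
  have l := (Real.tendsto_exp_atBot.comp (tendsto_id.atBot_div_const hK)).mul_const C
  rw [zero_mul] at l
  exact nonpos_of_mul_nonpos_right (ge_of_tendsto l ((eventually_le_atBot t).mono fun r hr =>
    (anti hr).trans (mul_le_mul_of_nonneg_left (h2 r) (Real.exp_pos _).le))) (Real.exp_pos _)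

variable {c e : PP} {r R : ℝ} {w1 w2 : ST → ℝ}

/-- The ray from `c` in the direction `e`. -/
def ray (c e : PP) (t s : ℝ) : ST := (t, c + s • e)

theorem ray_X (t s : ℝ) : XX c (ray c e t s) = s * e.1 := by simp [XX, ray]
theorem ray_Y (t s : ℝ) : YY c (ray c e t s) = s * e.2 := by simp [YY, ray]

theorem ray_q (he : e.1 ^ 2 + e.2 ^ 2 = 1) (t s : ℝ) : qq c (ray c e t s) = s ^ 2 := by
  rw [qq, ray_X, ray_Y]; linear_combination s ^ 2 * he

@[fun_prop] theorem ct_ray : Continuous fun p : PP => ray c e p.1 p.2 := by unfold ray; fun_prop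

theorem ct_ray' (t : ℝ) : Continuous (ray c e t) := ct_ray.comp (Continuous.prodMk_right t)

theorem ray_ds {f : ST → ℝ} (hf : ContDiff ℝ (1 : ℕ) f) (t s : ℝ) : HasDerivAt (fun s => f (ray c e t s))
    (e.1 * pd e1 f (ray c e t s) + e.2 * pd e2 f (ray c e t s)) s := by
  have a : HasDerivAt (ray c e t) (e.1 • e1 + e.2 • e2) s :=
    ((hasDerivAt_const s t).prodMk (((hasDerivAt_id s).smul_const e).const_add c)).congr_deriv
      (by ext <;> simp)
  refine ((cdg_diff hf le_rfl _).hasFDerivAt.comp_hasDerivAt s a).congr_deriv ?_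
  simp [pd, -Prod.smul_mk]

theorem ray_ann (he : e.1 ^ 2 + e.2 ^ 2 = 1) (hr : 0 ≤ r) (t : ℝ) {s : ℝ} (hs : s ∈ Ioo r R) :
    (qq c (ray c e t s) - R ^ 2) * (qq c (ray c e t s) - r ^ 2) < 0 := by
  rw [ray_q he]
  exact mul_neg_of_neg_of_pos (by nlinarith [hs.1, hs.2]) (by nlinarith [hs.1])

theorem ray_cl (hR : r < R) {f : ST → ℝ} (hf : Continuous f) {t : ℝ}
    (h : ∀ s ∈ Ioo r R, f (ray c e t s) = 0) : ∀ s ∈ Icc r R, f (ray c e t s) = 0 := fun s hs =>
  eq_zero_of_closure (f := fun s => f (ray c e t s)) (U := Ioo r R) (hf.comp (ct_ray' t)).continuousAt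
    (by rwa [closure_Ioo hR.ne]) (Eventually.of_forall h)

theorem ray_facts (he : e.1 ^ 2 + e.2 ^ 2 = 1) (hr : 0 ≤ r) (hR : r < R) (h1 : ContDiff ℝ (5 : ℕ) w1)
    (h2 : ContDiff ℝ (5 : ℕ) w2) (hA : ∀ y, (qq c y - R ^ 2) * (qq c y - r ^ 2) < 0 →
      Lh w1 y = 0 ∧ Lh w2 y = 0 ∧ pd e1 w1 y + pd e2 w2 y = 0)
    (hB : ∀ y, qq c y = R ^ 2 → w1 y = 0 ∧ w2 y = 0) (t : ℝ) : ∀ s ∈ Icc r R,
    Rz c w1 w2 (ray c e t s) = 0 ∧ Rz c w2 (fun y => -w1 y) (ray c e t s) = 0 ∧
      pd e1 w1 (ray c e t s) + pd e2 w2 (ray c e t s) = 0 ∧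
      s * (e.1 * w1 (ray c e t s) + e.2 * w2 (ray c e t s)) = 0 := by
  have l := fun {f : ST → ℝ} (h : ContDiff ℝ (5 : ℕ) f) (k : ℕ) (hk : k ≤ 5) => cdg_le h hk
  have z := fun s hs => rot_zero hr hR h1 h2 hA hB _ (ray_ann (c := c) he hr t (s := s) hs)
  have k1 := ray_cl hR (cd_Rz (n := 4) h1 (l h2 4 (by norm_num))).continuous fun s hs => (z s hs).1
  have k2 := ray_cl hR (cd_Rz (n := 4) h2 (l h1 4 (by norm_num)).neg).continuous fun s hs => (z s hs).2
  have k3 := ray_cl hR ((contDiff_pd (n := 4) e1 h1).add (contDiff_pd (n := 4) e2 h2)).continuous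
    fun s hs => (hA _ (ray_ann (c := c) he hr t hs)).2.2
  refine fun s hs => ⟨k1 s hs, k2 s hs, k3 s hs, ?_⟩
  have d := fun s => (hasDerivAt_id' s).fun_mul (((ray_ds (c := c) (e := e) (l h1 1 (by norm_num)) t
    s).const_mul e.1).fun_add ((ray_ds (c := c) (e := e) (l h2 1 (by norm_num)) t s).const_mul e.2))
  have := constant_of_has_deriv_right_zero (a := r) (b := R)
    (fun s _ => (d s).continuousAt.continuousWithinAt) fun s hs => ((d s).congr_deriv (by
      have a1 := k1 s (Ico_subset_Icc_self hs)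
      have a2 := k2 s (Ico_subset_Icc_self hs)
      have a3 := k3 s (Ico_subset_Icc_self hs)
      simp only [Rz, ray_X, ray_Y] at a1 a2
      linear_combination e.2 * a1 - e.1 * a2 + s * a3 + s * (pd e1 w1 (ray c e t s)
        + pd e2 w2 (ray c e t s)) * he)).hasDerivWithinAt
  rw [this s hs, ← this R ⟨hR.le, le_rfl⟩]
  simp [hB _ (ray_q he t R)]

theorem ray_zero (he : e.1 ^ 2 + e.2 ^ 2 = 1) (hr : 0 ≤ r) (hR : r < R) (h1 : ContDiff ℝ (5 : ℕ) w1)
    (h2 : ContDiff ℝ (5 : ℕ) w2) (hA : ∀ y, (qq c y - R ^ 2) * (qq c y - r ^ 2) < 0 →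
      Lh w1 y = 0 ∧ Lh w2 y = 0 ∧ pd e1 w1 y + pd e2 w2 y = 0)
    (hB : ∀ y, qq c y = R ^ 2 → w1 y = 0 ∧ w2 y = 0) {M : ℝ} (hM : ∀ y, |w1 y| ≤ M ∧ |w2 y| ≤ M)
    (h0 : ∀ t, r * (w1 (ray c e t r) * (e.1 * pd e1 w1 (ray c e t r) + e.2 * pd e2 w1 (ray c e t r))
      + w2 (ray c e t r) * (e.1 * pd e1 w2 (ray c e t r) + e.2 * pd e2 w2 (ray c e t r))) = 0) (t : ℝ) :
    vort w1 w2 (ray c e t R) = 0 := by
  have l := fun {f : ST → ℝ} (h : ContDiff ℝ (5 : ℕ) f) (k : ℕ) (hk : k ≤ 5) => cdg_le h hk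
  have R0 : 0 < R := hr.trans_lt hR
  have p := fun {f : ST → ℝ} (h : ContDiff ℝ (5 : ℕ) f) e => cdg_le (contDiff_pd (n := 4) e h)
    (by norm_num : 1 ≤ 4)
  have c1 := h1.continuous
  have c2 := h2.continuous
  have c3 := (p h1 e0).continuous
  have c4 := (p h2 e0).continuous
  have dE := int_deriv (F := fun t s => s * (w1 (ray c e t s) * w1 (ray c e t s)
      + w2 (ray c e t s) * w2 (ray c e t s))) (F' := fun t s => s * (pd e0 w1 (ray c e t s)
      * w1 (ray c e t s) + w1 (ray c e t s) * pd e0 w1 (ray c e t s) + (pd e0 w2 (ray c e t s)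
      * w2 (ray c e t s) + w2 (ray c e t s) * pd e0 w2 (ray c e t s)))) (by fun_prop) (by fun_prop)
    (fun t s => by
      have a := hasDerivAt_time (l h1 1 (by norm_num)) (c + s • e) t
      have b := hasDerivAt_time (l h2 1 (by norm_num)) (c + s • e) t
      exact ((a.fun_mul a).fun_add (b.fun_mul b)).const_mul s) r R
  have cr := ct_ray' (c := c) (e := e)
  have cF : ∀ t, Continuous fun s => s * (w1 (ray c e t s) * w1 (ray c e t s)
      + w2 (ray c e t s) * w2 (ray c e t s)) := fun t => by have := cr t; fun_prop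
  have z := anc_zero dE (K := R ^ 2 / 2) (C := R * (M ^ 2 + M ^ 2) * |R - r|) (by positivity) (fun t => by
    have := cr t
    have D := fun {f : ST → ℝ} (h : ContDiff ℝ (1 : ℕ) f) s => ray_ds (c := c) (e := e) h t s
    have d := fun s => (hasDerivAt_id' s).fun_mul (((D (l h1 1 (by norm_num)) s).fun_mul
      (((D (p h1 e1) s).const_mul e.1).fun_add ((D (p h1 e2) s).const_mul e.2))).fun_add
      ((D (l h2 1 (by norm_num)) s).fun_mul (((D (p h2 e1) s).const_mul e.1).fun_add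
        ((D (p h2 e2) s).const_mul e.2))))
    have q := fun {f : ST → ℝ} (h : ContDiff ℝ (5 : ℕ) f) e e' => (contDiff_pd (n := 0) e (p h e')).continuous
    have := (p h1 e1).continuous
    have := (p h1 e2).continuous
    have := (p h2 e1).continuous
    have := (p h2 e2).continuous
    have := q h1 e1 e1
    have := q h1 e1 e2
    have := q h1 e2 e1
    have := q h1 e2 e2
    have := q h2 e1 e1
    have := q h2 e1 e2
    have := q h2 e2 e1
    have := q h2 e2 e2
    have i := intervalIntegral.integral_eq_sub_of_hasDerivAt (a := r) (b := R) (fun s _ => d s)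
      (Continuous.intervalIntegrable (by fun_prop) _ _)
    rw [h0, (hB _ (ray_q he t R)).1, (hB _ (ray_q he t R)).2, zero_mul, zero_mul, add_zero, mul_zero,
      sub_zero] at i
    rw [← zero_sub, ← mul_zero (R ^ 2), ← i, ← intervalIntegral.integral_const_mul,
      ← intervalIntegral.integral_const_mul, ← intervalIntegral.integral_sub
        (Continuous.intervalIntegrable (by fun_prop) _ _) ((cF t).intervalIntegrable _ _)]
    refine intervalIntegral.integral_mono_on_of_le_Ioo hR.le (Continuous.intervalIntegrable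
      (by fun_prop) _ _) (Continuous.intervalIntegrable (by fun_prop) _ _) fun s hs => ?_
    have hy := ray_ann (c := c) he hr t hs
    have hU : ∀ᶠ z in 𝓝 (ray c e t s), (qq c z - R ^ 2) * (qq c z - r ^ 2) < 0 :=
      (by fun_prop : Continuous fun z => (qq c z - R ^ 2) * (qq c z - r ^ 2)).continuousAt.eventually
        (gt_mem_nhds hy)
    have z := hU.mono (rot_zero hr hR h1 h2 hA hB)
    have a1 := fun e => (pd_zero_on_open e (z.mono fun _ h => h.1)).self_of_nhds
    have a2 := fun e => (pd_zero_on_open e (z.mono fun _ h => h.2)).self_of_nhds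
    obtain ⟨a3, a4⟩ := z.self_of_nhds
    obtain ⟨a5, a6, -⟩ := hA _ hy
    have b1 := a1 e1
    have b2 := a1 e2
    have b3 := a2 e1
    have b4 := a2 e2
    rw [pd_Rz (l h1 2 (by norm_num)) (l h2 1 (by norm_num))] at b1 b2
    rw [pd_Rz (l h2 2 (by norm_num)) (l h1 1 (by norm_num)).neg] at b3 b4
    simp only [Rz, Lh, pd_neg, ray_X, ray_Y, pd_comm e2 e1 (l h1 2 (by norm_num)).contDiffAt,
      pd_comm e2 e1 (l h2 2 (by norm_num)).contDiffAt] at a3 a4 a5 a6 b1 b2 b3 b4 ⊢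
    have s0 : 0 < s := hr.trans_lt hs.1
    generalize ray c e t s = y at *
    have f1 : s ^ 2 * pd e0 w1 y = s ^ 2 * (e.1 * (e.1 * pd e1 (pd e1 w1) y + e.2 * pd e1 (pd e2 w1) y)
        + e.2 * (e.1 * pd e1 (pd e2 w1) y + e.2 * pd e2 (pd e2 w1) y))
        + s * (e.1 * pd e1 w1 y + e.2 * pd e2 w1 y) - w1 y := by
      linear_combination -s ^ 2 * a5 + s * e.1 * b2 - s * e.2 * b1 - a4
        - s ^ 2 * (pd e1 (pd e1 w1) y + pd e2 (pd e2 w1) y) * he
    have f2 : s ^ 2 * pd e0 w2 y = s ^ 2 * (e.1 * (e.1 * pd e1 (pd e1 w2) y + e.2 * pd e1 (pd e2 w2) y)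
        + e.2 * (e.1 * pd e1 (pd e2 w2) y + e.2 * pd e2 (pd e2 w2) y))
        + s * (e.1 * pd e1 w2 y + e.2 * pd e2 w2 y) - w2 y := by
      linear_combination -s ^ 2 * a6 + s * e.1 * b4 - s * e.2 * b3 + a3
        - s ^ 2 * (pd e1 (pd e1 w2) y + pd e2 (pd e2 w2) y) * he
    refine le_of_mul_le_mul_left ?_ s0
    have g1 := congrArg (R ^ 2 * w1 y * ·) f1
    have g2 := congrArg (R ^ 2 * w2 y * ·) f2
    have g3 := mul_le_mul_of_nonneg_right (pow_le_pow_left₀ s0.le hs.2.le 2)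
      (add_nonneg (mul_self_nonneg (w1 y)) (mul_self_nonneg (w2 y)))
    linarith [sq_nonneg (R * s * (e.1 * pd e1 w1 y + e.2 * pd e2 w1 y)),
      sq_nonneg (R * s * (e.1 * pd e1 w2 y + e.2 * pd e2 w2 y))]) (fun t => by
    refine (Real.le_norm_self _).trans (intervalIntegral.norm_integral_le_of_norm_le_const fun s hs => ?_)
    rw [uIoc_of_le hR.le] at hs
    have s0 : 0 < s := hr.trans_lt hs.1
    rw [Real.norm_of_nonneg (mul_nonneg s0.le (add_nonneg (mul_self_nonneg _) (mul_self_nonneg _)))]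
    refine mul_le_mul hs.2 ?_ (add_nonneg (mul_self_nonneg _) (mul_self_nonneg _)) R0.le
    linarith [sq_le_of_abs (hM (ray c e t s)).1, sq_le_of_abs (hM (ray c e t s)).2]) t
  have n : ∀ s ∈ Ioc r R, 0 ≤ s * (w1 (ray c e t s) * w1 (ray c e t s)
      + w2 (ray c e t s) * w2 (ray c e t s)) := fun s hs =>
    mul_nonneg (hr.trans hs.1.le) (add_nonneg (mul_self_nonneg _) (mul_self_nonneg _))
  have w0 : ∀ s ∈ Ioo r R, w1 (ray c e t s) = 0 ∧ w2 (ray c e t s) = 0 := fun s hs => by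
    by_contra hn
    exact z.not_gt (intervalIntegral.integral_pos hR (cF t).continuousOn n ⟨s, Ioo_subset_Icc_self hs,
      mul_pos (hr.trans_lt hs.1) ((add_nonneg (mul_self_nonneg _) (mul_self_nonneg _)).lt_of_ne'
        (mt mul_self_add_mul_self_eq_zero.1 hn))⟩)
  have de : ∀ w : ST → ℝ, ContDiff ℝ (5 : ℕ) w → (∀ s ∈ Ioo r R, w (ray c e t s) = 0) →
      e.1 * pd e1 w (ray c e t R) + e.2 * pd e2 w (ray c e t R) = 0 := fun w hw h =>
    ray_cl hR (f := fun y => e.1 * pd e1 w y + e.2 * pd e2 w y) ((continuous_const.mul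
      (p hw e1).continuous).add (continuous_const.mul (p hw e2).continuous)) (fun s hs =>
        (ray_ds (l hw 1 (by norm_num)) t s).unique ((hasDerivAt_const s (0 : ℝ)).congr_of_eventuallyEq
          ((isOpen_Ioo.eventually_mem hs).mono h))) R ⟨hR.le, le_rfl⟩
  obtain ⟨a1, a2, -⟩ := ray_facts he hr hR h1 h2 hA hB t R ⟨hR.le, le_rfl⟩
  simp only [Rz, ray_X, ray_Y, hB _ (ray_q he t R)] at a1 a2
  refine (mul_eq_zero.1 (show R * _ = 0 from ?_)).resolve_left R0.ne'
  simp only [vort, Pi.sub_apply]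
  linear_combination R * e.1 * de w2 h2 (fun s h => (w0 s h).2) - e.2 * a2
    - R * e.2 * de w1 h1 (fun s h => (w0 s h).1) - e.1 * a1
    - R * (pd e1 w2 (ray c e t R) - pd e2 w1 (ray c e t R)) * he

end Pool.Agent.MP_ed9623_an.H64
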