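import Mathlib

namespace Pool.Agent.MP_ed9623_an.H64

/-- Derivative of a scalar function `f` in the direction `e`. -/
noncomputable def pd {E : Type*} [NormedAddCommGroup E] [NormedSpace ℝ E] (e : E) (f : E → ℝ) :
    E → ℝ := fun z => fderiv ℝ f z e

/-- The operator `∂_t f + a₁ ∂_x f + a₂ ∂_y f - Δ f` on functions of `(t, x, y)`. -/
noncomputable def heat (a₁ a₂ f : ℝ × ℝ × ℝ → ℝ) : ℝ × ℝ × ℝ → ℝ := fun z =>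
  pd (1, 0, 0) f z + a₁ z * pd (0, 1, 0) f z + a₂ z * pd (0, 0, 1) f z
    - (pd (0, 1, 0) (pd (0, 1, 0) f) z + pd (0, 0, 1) (pd (0, 0, 1) f) z)

/-- `(u₁, u₂, p)` solves the Navier-Stokes system with force `(g₁, g₂)` in `Ω` at time `t`,
with the no-slip boundary condition. -/
def NS (Ω : Set (ℝ × ℝ)) (g₁ g₂ : ℝ × ℝ → ℝ) (u₁ u₂ p : ℝ × ℝ × ℝ → ℝ) (t : ℝ) : Prop :=
  (∀ x ∈ Ω, heat u₁ u₂ u₁ (t, x) + pd (0, 1, 0) p (t, x) = g₁ x ∧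
      heat u₁ u₂ u₂ (t, x) + pd (0, 0, 1) p (t, x) = g₂ x ∧
      pd (0, 1, 0) u₁ (t, x) + pd (0, 0, 1) u₂ (t, x) = 0) ∧
    ∀ x ∈ frontier Ω, u₁ (t, x) = 0 ∧ u₂ (t, x) = 0

end Pool.Agent.MP_ed9623_an.H64
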