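import Pool.Agent.MP_ed9623_an.H64.Defs

namespace Pool.Agent.MP_ed9623_an.H64

/-- A classical trajectory which, for all large times, solves the Navier-Stokes system and has
its space-time derivatives (order at most 7 for the velocity, 3 for the pressure) bounded
by `M`. -/
def Traj (Ω : Set (ℝ × ℝ)) (g₁ g₂ : ℝ × ℝ → ℝ) (M : ℝ) (u₁ u₂ p : ℝ × ℝ × ℝ → ℝ) : Prop :=
  ContDiff ℝ 7 u₁ ∧ ContDiff ℝ 7 u₂ ∧ ContDiff ℝ 3 p ∧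
    ∀ᶠ t in Filter.atTop, NS Ω g₁ g₂ u₁ u₂ p t ∧ ∀ x : ℝ × ℝ,
      (∀ j ≤ 7, ‖iteratedFDeriv ℝ j u₁ (t, x)‖ ≤ M ∧ ‖iteratedFDeriv ℝ j u₂ (t, x)‖ ≤ M) ∧
        ∀ j ≤ 3, ‖iteratedFDeriv ℝ j p (t, x)‖ ≤ M

end Pool.Agent.MP_ed9623_an.H64
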