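import Pool.Agent.MP_ed9623_an.H64.Ring3

namespace Pool.Agent.MP_ed9623_an.H64

variable {R : Type*} [CommRing R]

theorem DR.flat_all (X : DR R) {a1 a2 w1 w2 : R} (ha1 : X.ρ ∣ a1) (ha2 : X.ρ ∣ a2)
    (hw1 : X.ρ ∣ w1) (hw2 : X.ρ ∣ w2) (da : X.d1 a1 + X.d2 a2 = 0) (dw : X.d1 w1 + X.d2 w2 = 0)
    (e1 : X.d0 w1 + a1 * X.d1 w1 + a2 * X.d2 w1 - X.lap w1 + (w1 * X.d1 a1 + w2 * X.d2 a1) = 0)
    (e2 : X.d0 w2 + a1 * X.d1 w2 + a2 * X.d2 w2 - X.lap w2 + (w1 * X.d1 a2 + w2 * X.d2 a2) = 0)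
    (hG : X.ev X.G ≠ 0) (he : X.ev X.e ≠ 0) (hω : X.ev (X.curl w1 w2) ≠ 0) :
    X.d1 a1 * X.d1 w1 + X.d2 a1 * X.d1 w2 + X.d1 a2 * X.d2 w1 + X.d2 a2 * X.d2 w2 = 0 ∧
      ∀ m, X.ρ ^ (m + 1) ∣ a1 ∧ X.ρ ^ (m + 1) ∣ a2 := by
  have tr : X.d1 a1 * X.d1 w1 + X.d2 a1 * X.d1 w2 + X.d1 a2 * X.d2 w1 + X.d2 a2 * X.d2 w2 = 0 := by
    refine (X.loc.unit 2 (by rw [map_ofNat]; norm_num)).mul_right_eq_zero.1 ?_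
    have k1 := congrArg X.d1 e1
    have k2 := congrArg X.d2 e2
    have k3 := congrArg X.d0 dw
    have k4 := congrArg X.d1 dw
    have k5 := congrArg X.d2 dw
    have k6 := congrArg X.d1 da
    have k7 := congrArg X.d2 da
    have k8 := congrArg X.d1 k4
    have k9 := congrArg X.d2 k5
    simp only [DR.lap, map_add, map_sub, map_zero, X.l1, X.l2, X.c12, X.c01, X.c02]
      at k1 k2 k3 k4 k5 k6 k7 k8 k9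
    linear_combination k1 + k2 - k3 - a1 * k4 - a2 * k5 - w1 * k6 - w2 * k7 + k8 + k9
  refine ⟨tr, fun m => ?_⟩
  induction m with
  | zero => simpa using ⟨ha1, ha2⟩
  | succ m ih =>
    obtain ⟨⟨A1, rfl⟩, ⟨A2, rfl⟩⟩ := ih
    obtain ⟨k1, k2⟩ := X.flat_step m hw1 hw2 dw da tr hG he hω
    rw [pow_succ _ (m + 1)]
    exact ⟨mul_dvd_mul_left _ k1, mul_dvd_mul_left _ k2⟩

theorem DR.epd (X : DR R) {w1 w2 : R} (h1 : X.ρ ∣ w1) (h2 : X.ρ ∣ w2)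
    (hd : X.d1 w1 + X.d2 w2 = 0) (hG : X.ev X.G ≠ 0) :
    ∃ μ l α1 α2 α3 s1 s2 s3 t1 t2 t3 : R,
      X.ev μ * X.ev X.G ^ 2 = X.ev (X.curl w1 w2) * X.ev X.e ∧ X.ev l = X.ev (X.curl w1 w2) ∧
      ∀ (m : ℕ) (A1 A2 : R), X.d1 (X.ρ ^ (m + 1) * A1) + X.d2 (X.ρ ^ (m + 1) * A2) = 0 →
        X.d1 (X.ρ ^ (m + 1) * A1) * X.d1 w1 + X.d2 (X.ρ ^ (m + 1) * A1) * X.d1 w2
          + X.d1 (X.ρ ^ (m + 1) * A2) * X.d2 w1 + X.d2 (X.ρ ^ (m + 1) * A2) * X.d2 w2 = 0 →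
        ∃ n τ S1 S2 b1 b2 : R, A1 = b1 * n + b2 * τ ∧ A2 = b1 * τ - b2 * n ∧
          S1 = s1 * X.ρ * (n * n) + s2 * (n * τ) + s3 * (τ * τ) ∧
          S2 = t1 * X.ρ * (n * n) + t2 * (n * τ) + t3 * (τ * τ) ∧
          X.d1 X.ρ * S1 + X.d2 X.ρ * S2 = X.ρ * μ * (n * n) - l * (τ * τ) ∧
          X.d1 (X.ρ * S1) + X.d2 (X.ρ * S2) = (2 * m + 1) * (l * (τ * τ) - X.ρ * μ * (n * n))
            + X.ρ * (α1 * (n * n) + α2 * (n * τ) + α3 * (τ * τ)) := by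
  obtain ⟨i, hi⟩ := (X.loc.unit _ hG).exists_right_inv
  have hi' := congrArg X.ev hi
  obtain ⟨μ, ν, k1, k2, k3⟩ : ∃ μ ν : R, -X.d2 w1 * X.d1 X.ρ ^ 2 + 2 * X.d1 w1 * X.d1 X.ρ * X.d2 X.ρ
      + X.d1 w2 * X.d2 X.ρ ^ 2 = X.ρ * μ ∧ (X.d2 w1 + X.d1 w2) * X.d1 X.ρ * X.d2 X.ρ
      + X.d1 w1 * (X.d1 X.ρ ^ 2 - X.d2 X.ρ ^ 2) = X.ρ * ν ∧
      X.ev μ * X.ev X.G = X.ev (X.curl w1 w2) * X.ev X.e := by
    obtain ⟨W1, rfl⟩ := h1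
    obtain ⟨W2, rfl⟩ := h2
    have b0 := congrArg X.ev hd
    have b1 := congrArg (fun x => X.ev (X.d1 x)) hd
    have b2 := congrArg (fun x => X.ev (X.d2 x)) hd
    refine ⟨-X.d1 X.ρ ^ 2 * X.d2 W1 + X.d1 X.ρ * X.d2 X.ρ * (X.d1 W1 - X.d2 W2)
      + X.d2 X.ρ ^ 2 * X.d1 W2, (X.d2 W1 + X.d1 W2) * X.d1 X.ρ * X.d2 X.ρ
      - X.d2 W2 * X.d1 X.ρ ^ 2 - X.d1 W1 * X.d2 X.ρ ^ 2, ?_, ?_, ?_⟩
    · simp only [X.l1, X.l2] at hd ⊢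
      linear_combination X.d1 X.ρ * X.d2 X.ρ * hd
    · simp only [X.l1, X.l2] at hd ⊢
      linear_combination X.d1 X.ρ ^ 2 * hd
    · simp only [DR.G, DR.e, DR.curl, X.l1, X.l2, X.c12, map_add, map_mul, map_sub, map_neg, map_pow,
        map_zero, X.loc.evρ, zero_mul, add_zero, map_ofNat] at b0 b1 b2 ⊢
      generalize X.ev (X.d1 (X.d1 X.ρ)) = r11 at *
      generalize X.ev (X.d1 (X.d2 X.ρ)) = r12 at *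
      generalize X.ev (X.d2 (X.d2 X.ρ)) = r22 at *
      generalize X.ev (X.d1 X.ρ) = r1 at *
      generalize X.ev (X.d2 X.ρ) = r2 at *
      linear_combination (r1 * r1 + r2 * r2) * (r2 * b1 - r1 * b2)
        + (r1 * (-r2 * r11 + r1 * r12) + r2 * (-r2 * r12 + r1 * r22)) * b0
  let F : R → R → R := fun b1 b2 =>
    2 * ((X.d1 (X.d1 X.ρ) * b1 + X.d1 (X.d2 X.ρ) * b2) * (-X.d2 w1 * b1 + X.d1 w1 * b2)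
      + (X.d1 (X.d2 X.ρ) * b1 + X.d2 (X.d2 X.ρ) * b2) * (X.d1 w1 * b1 + X.d1 w2 * b2))
    - (X.d1 (X.d1 X.ρ) + X.d2 (X.d2 X.ρ)) * (-X.d2 w1 * b1 * b1 + 2 * X.d1 w1 * b1 * b2
      + X.d1 w2 * b2 * b2) - (-X.N (X.d2 w1) * b1 * b1 + 2 * X.N (X.d1 w1) * b1 * b2
      + X.N (X.d1 w2) * b2 * b2)
  obtain ⟨l, hl⟩ : ∃ l, l = X.curl w1 w2 - X.ρ * (μ * i) := ⟨_, rfl⟩
  refine ⟨μ * i, l, F (i * X.d1 X.ρ) (i * X.d2 X.ρ), F (i * (X.d1 X.ρ - X.d2 X.ρ))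
    (i * (X.d2 X.ρ + X.d1 X.ρ)) - F (i * X.d1 X.ρ) (i * X.d2 X.ρ) - F (-i * X.d2 X.ρ) (i * X.d1 X.ρ),
    F (-i * X.d2 X.ρ) (i * X.d1 X.ρ), i * (μ * i * X.d1 X.ρ - 2 * ν * i * X.d2 X.ρ),
    -2 * i * l * X.d2 X.ρ, -i * l * X.d1 X.ρ, i * (μ * i * X.d2 X.ρ + 2 * ν * i * X.d1 X.ρ),
    2 * i * l * X.d1 X.ρ, -i * l * X.d2 X.ρ, ?_, by simp [hl, X.loc.evρ], fun m A1 A2 ha ht => ?_⟩
  · rw [map_mul] at hi' ⊢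
    rw [map_one] at hi'
    linear_combination k3 + X.ev μ * X.ev X.G * hi'
  obtain ⟨M, hM⟩ : ∃ M : R, M = m + 1 := ⟨_, rfl⟩
  simp only [X.l1, X.l2, Lb.pow X.l1, Lb.pow X.l2, ← hM] at ha ht
  have ha' : M * (X.d1 X.ρ * A1 + X.d2 X.ρ * A2) + X.ρ * (X.d1 A1 + X.d2 A2) = 0 :=
    X.loc.reg_pow m _ (by linear_combination ha)
  have ht' : M * (X.d1 X.ρ * (A1 * X.d1 w1 + A2 * X.d2 w1)
      + X.d2 X.ρ * (A1 * X.d1 w2 - A2 * X.d1 w1)) + X.ρ * (X.d1 A1 * X.d1 w1 + X.d2 A1 * X.d1 w2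
      + X.d1 A2 * X.d2 w1 - X.d2 A2 * X.d1 w1) = 0 :=
    X.loc.reg_pow m _ (by
      linear_combination ht - (M * X.ρ ^ m * X.d2 X.ρ * A2 + X.ρ ^ (m + 1) * X.d2 A2) * hd)
  obtain ⟨n, hn⟩ : ∃ n, n = X.d1 X.ρ * A2 - X.d2 X.ρ * A1 := ⟨_, rfl⟩
  obtain ⟨τ, hτ⟩ : ∃ τ, τ = -X.d2 X.ρ * A2 - X.d1 X.ρ * A1 := ⟨_, rfl⟩
  obtain ⟨B, hB⟩ : ∃ B, B = -X.d2 w1 * A2 * A2 - 2 * X.d1 w1 * A2 * A1 + X.d1 w2 * A1 * A1 :=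
    ⟨_, rfl⟩
  obtain ⟨S1, hS1⟩ : ∃ S, S = 2 * n * (-X.d2 w1 * A2 - X.d1 w1 * A1) - X.d1 X.ρ * B := ⟨_, rfl⟩
  obtain ⟨S2, hS2⟩ : ∃ S, S = 2 * n * (X.d1 w1 * A2 - X.d1 w2 * A1) - X.d2 X.ρ * B := ⟨_, rfl⟩
  have a1 : A1 = -(i * X.d2 X.ρ) * n + -(i * X.d1 X.ρ) * τ := by
    rw [hn, hτ]; unfold DR.G at hi; linear_combination -A1 * hi
  have a2 : A2 = i * X.d1 X.ρ * n - i * X.d2 X.ρ * τ := by
    rw [hn, hτ]; unfold DR.G at hi; linear_combination -A2 * hi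
  have x1 : X.G * (X.d1 X.ρ * S1 + X.d2 X.ρ * S2) = X.ρ * μ * (n * n)
      - (X.curl w1 w2 * X.G - X.ρ * μ) * (τ * τ) := by
    rw [← k1, hS1, hS2, hB, hn, hτ, DR.G, DR.curl]; ring
  have x2 : X.G * (-X.d2 X.ρ * S1 + X.d1 X.ρ * S2) = 2 * (X.ρ * ν * (n * n)
      + (X.curl w1 w2 * X.G - X.ρ * μ) * (n * τ)) := by
    rw [← k1, ← k2, hS1, hS2, hB, hn, hτ, DR.G, DR.curl]; ring
  have y1 : X.d1 X.ρ * S1 + X.d2 X.ρ * S2 = X.ρ * (μ * i) * (n * n) - l * (τ * τ) := by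
    rw [hl]
    linear_combination i * x1 - (X.d1 X.ρ * S1 + X.d2 X.ρ * S2 + X.curl w1 w2 * (τ * τ)) * hi
  have y2 : -X.d2 X.ρ * S1 + X.d1 X.ρ * S2 = 2 * (X.ρ * ν * i * (n * n) + l * (n * τ)) := by
    rw [hl]
    linear_combination i * x2 - (-X.d2 X.ρ * S1 + X.d1 X.ρ * S2 - 2 * X.curl w1 w2 * (n * τ)) * hi
  have c1 := congrArg X.d1 hd
  have z : X.d1 (X.ρ * S1) + X.d2 (X.ρ * S2)
      = (1 - 2 * M) * (X.d1 X.ρ * S1 + X.d2 X.ρ * S2) + X.ρ * F A2 (-A1) := by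
    simp only [hS1, hS2, hB, hn, F, DR.N_apply, X.l1, X.l2, map_add, map_sub, map_neg, X.c12,
      Lb.ofNat X.l1, Lb.ofNat X.l2, map_zero] at c1 ⊢
    linear_combination (-2) * (X.d1 X.ρ * A2 - X.d2 X.ρ * A1) * ht'
      + 2 * (X.d2 X.ρ * (-X.d2 w1 * A2 - X.d1 w1 * A1) * -1
        + X.d1 X.ρ * (X.d1 w1 * A2 - X.d1 w2 * A1)) * ha'
      - 2 * X.ρ * (X.d1 X.ρ * A2 - X.d2 X.ρ * A1) * A1 * c1
  refine ⟨n, τ, S1, S2, -(i * X.d2 X.ρ), -(i * X.d1 X.ρ), a1, by linear_combination a2, ?_, ?_,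
    y1, ?_⟩
  · unfold DR.G at hi
    linear_combination i * X.d1 X.ρ * y1 - i * X.d2 X.ρ * y2 - S1 * hi
  · unfold DR.G at hi
    linear_combination i * X.d2 X.ρ * y1 + i * X.d1 X.ρ * y2 - S2 * hi
  · rw [z, y1, hM]
    conv_lhs => rw [a1, a2]
    simp only [F]
    ring

end Pool.Agent.MP_ed9623_an.H64
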