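import Pool.Agent.MP_ed9623_an.H64.Ring3
import Pool.Agent.MP_ed9623_an.H64.Unique2

open Filter Topology Set

namespace Pool.Agent.MP_ed9623_an.H64

/-- `f` agrees on the side `r < 0` near `z` with functions of every finite regularity. -/
def SmAt (r : ST → ℝ) (z : ST) (f : ST → ℝ) : Prop :=
  ∀ k : ℕ, ∃ F, ContDiffAt ℝ k F z ∧ f =ᶠ[𝓝[{y | r y < 0}] z] F

variable {r : ST → ℝ} {z : ST}

theorem pd_congrL (hr : Continuous r) (e : ST) {f g : ST → ℝ}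
    (h : f =ᶠ[𝓝[{y | r y < 0}] z] g) : pd e f =ᶠ[𝓝[{y | r y < 0}] z] pd e g := by
  have h1 := (eventually_nhdsWithin_iff.1 h).eventually_nhds
  refine eventually_nhdsWithin_iff.2 (h1.mono fun y hy hn => pd_congr_pt e ?_)
  filter_upwards [hy, (isOpen_lt hr continuous_const).mem_nhds hn] with x a b using a b

theorem SmAt.of_cd {f : ST → ℝ} (h : ∀ k : ℕ, ContDiff ℝ k f) : SmAt r z f :=
  fun k => ⟨f, (h k).contDiffAt, EventuallyEq.rfl⟩

theorem SmAt.pd (hr : Continuous r) (e : ST) {f : ST → ℝ} (h : SmAt r z f) :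
    SmAt r z (pd e f) := fun k => by
  obtain ⟨F, a, b⟩ := h (k + 1)
  exact ⟨_, contDiffAt_pd e a, pd_congrL hr e b⟩

theorem SmAt.cd (hr : Continuous r) {f : ST → ℝ} (h : SmAt r z f) (k : ℕ) :
    ∀ᶠ y in 𝓝[{y | r y < 0}] z, ContDiffAt ℝ k f y := by
  obtain ⟨F, a, b⟩ := h k
  have h1 := (eventually_nhdsWithin_iff.1 b).eventually_nhds
  refine eventually_nhdsWithin_iff.2 ?_
  filter_upwards [h1, cd_eventually a] with y hy hc hn
  refine hc.congr_of_eventuallyEq ?_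
  filter_upwards [hy, (isOpen_lt hr continuous_const).mem_nhds hn] with x a b using a b

theorem SmAt.add {f g : ST → ℝ} (hf : SmAt r z f) (hg : SmAt r z g) : SmAt r z (f + g) :=
  fun k => by
    obtain ⟨F, a, b⟩ := hf k
    obtain ⟨G, c, d⟩ := hg k
    exact ⟨F + G, a.add c, b.add d⟩

theorem SmAt.mul {f g : ST → ℝ} (hf : SmAt r z f) (hg : SmAt r z g) : SmAt r z (f * g) :=
  fun k => by
    obtain ⟨F, a, b⟩ := hf k
    obtain ⟨G, c, d⟩ := hg k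
    exact ⟨F * G, a.mul c, b.mul d⟩

variable (r z) in
/-- The ring of germs which are smooth up to the boundary. -/
def GR : Subring (Germ (𝓝[{y | r y < 0}] z) ℝ) where
  carrier := {φ | ∃ f, SmAt r z f ∧ φ = (f : Germ _ ℝ)}
  mul_mem' := by
    rintro _ _ ⟨f, a, rfl⟩ ⟨g, b, rfl⟩
    exact ⟨f * g, a.mul b, rfl⟩
  add_mem' := by
    rintro _ _ ⟨f, a, rfl⟩ ⟨g, b, rfl⟩
    exact ⟨f + g, a.add b, rfl⟩
  one_mem' := ⟨1, SmAt.of_cd fun _ => contDiff_const, rfl⟩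
  zero_mem' := ⟨0, SmAt.of_cd fun _ => contDiff_const, rfl⟩
  neg_mem' := by
    rintro _ ⟨f, a, rfl⟩
    exact ⟨-f, fun k => (a k).imp' Neg.neg fun F h => ⟨h.1.neg, h.2.neg⟩, rfl⟩

def gm (f : ST → ℝ) (hf : SmAt r z f) : GR r z := ⟨f, f, hf, rfl⟩

theorem gm_sj (φ : GR r z) : ∃ f hf, φ = gm f hf := by
  obtain ⟨_, f, hf, rfl⟩ := φ
  exact ⟨f, hf, rfl⟩

theorem gm_eq {f g : ST → ℝ} {hf : SmAt r z f} {hg : SmAt r z g} :
    gm f hf = gm g hg ↔ f =ᶠ[𝓝[{y | r y < 0}] z] g := Subtype.ext_iff.trans Germ.coe_eq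

theorem gcoe {l : Filter ST} {f g : ST → ℝ} (h : f =ᶠ[l] g) : (f : Germ l ℝ) = g :=
  Germ.coe_eq.2 h

noncomputable def gd (hr : Continuous r) (e : ST) : GR r z →+ GR r z :=
  AddMonoidHom.mk' (fun φ => ⟨φ.1.liftOn (fun f => ((pd e f : ST → ℝ) : Germ _ ℝ))
    fun _ _ h => Germ.coe_eq.2 (pd_congrL hr e h), by
      obtain ⟨f, hf, rfl⟩ := gm_sj φ
      exact ⟨_, hf.pd hr e, rfl⟩⟩) fun φ ψ => by
    obtain ⟨f, hf, rfl⟩ := gm_sj φ
    obtain ⟨g, hg, rfl⟩ := gm_sj ψ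
    refine Subtype.ext (gcoe (f := pd e (f + g)) (g := pd e f + pd e g) ?_)
    filter_upwards [hf.cd hr 1, hg.cd hr 1] with y a b
    exact pd_add e (cd_diff a le_rfl) (cd_diff b le_rfl)

theorem gd_gm (hr : Continuous r) (e : ST) (f : ST → ℝ) (hf : SmAt r z f) :
    gd hr e (gm f hf) = gm (pd e f) (hf.pd hr e) := rfl

theorem gd_mul (hr : Continuous r) (e : ST) (φ ψ : GR r z) :
    gd hr e (φ * ψ) = gd hr e φ * ψ + φ * gd hr e ψ := by
  obtain ⟨f, hf, rfl⟩ := gm_sj φ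
  obtain ⟨g, hg, rfl⟩ := gm_sj ψ
  refine Subtype.ext (gcoe (f := pd e (f * g)) (g := pd e f * g + f * pd e g) ?_)
  filter_upwards [hf.cd hr 1, hg.cd hr 1] with y a b
  exact pd_mul e (cd_diff a le_rfl) (cd_diff b le_rfl)

theorem gd_comm (hr : Continuous r) (e e' : ST) (φ : GR r z) :
    gd hr e (gd hr e' φ) = gd hr e' (gd hr e φ) := by
  obtain ⟨f, hf, rfl⟩ := gm_sj φ
  refine Subtype.ext (gcoe (f := pd e (pd e' f)) (g := pd e' (pd e f)) ?_)
  filter_upwards [hf.cd hr 2] with y a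
  exact pd_comm e e' a

theorem gm_lim (φ : GR r z) : ∃ c : ℝ, φ.1.Tendsto (𝓝 c) := by
  obtain ⟨f, hf, rfl⟩ := gm_sj φ
  obtain ⟨F, a, b⟩ := hf 0
  exact ⟨F z, (a.continuousAt.tendsto.mono_left nhdsWithin_le_nhds).congr' b.symm⟩

theorem gm_lim_eq [(𝓝[{y | r y < 0}] z).NeBot] {f : ST → ℝ} {hf : SmAt r z f} {c : ℝ}
    (h : Tendsto f (𝓝[{y | r y < 0}] z) (𝓝 c)) : (gm_lim (gm f hf)).choose = c :=
  tendsto_nhds_unique (gm_lim (gm f hf)).choose_spec h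

theorem gm_tend {f : ST → ℝ} (hf : SmAt r z f) :
    Tendsto f (𝓝[{y | r y < 0}] z) (𝓝 (gm_lim (gm f hf)).choose) := (gm_lim (gm f hf)).choose_spec

noncomputable def gev [(𝓝[{y | r y < 0}] z).NeBot] : GR r z →+* ℝ where
  toFun := fun φ => (gm_lim φ).choose
  map_one' := gm_lim_eq (f := 1) (hf := SmAt.of_cd fun _ => contDiff_const) tendsto_const_nhds
  map_zero' := gm_lim_eq (f := 0) (hf := SmAt.of_cd fun _ => contDiff_const) tendsto_const_nhds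
  map_mul' := fun φ ψ => by
    obtain ⟨f, hf, rfl⟩ := gm_sj φ
    obtain ⟨g, hg, rfl⟩ := gm_sj ψ
    exact gm_lim_eq (hf := hf.mul hg) ((gm_tend hf).mul (gm_tend hg))
  map_add' := fun φ ψ => by
    obtain ⟨f, hf, rfl⟩ := gm_sj φ
    obtain ⟨g, hg, rfl⟩ := gm_sj ψ
    exact gm_lim_eq (hf := hf.add hg) ((gm_tend hf).add (gm_tend hg))

theorem gev_gm [(𝓝[{y | r y < 0}] z).NeBot] {f : ST → ℝ} (hf : SmAt r z f)
    (hc : ContinuousAt f z) : gev (gm f hf) = f z :=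
  gm_lim_eq (hc.tendsto.mono_left nhdsWithin_le_nhds)

theorem gloc [(𝓝[{y | r y < 0}] z).NeBot] (hr : ∀ k : ℕ, ContDiff ℝ k r) (h0 : r z = 0) :
    Loc (gm r (SmAt.of_cd hr) : GR r z) gev := by
  refine ⟨fun φ h => ?_, by rw [gev_gm _ (hr 0).continuous.continuousAt, h0], fun φ h => ?_⟩
  · obtain ⟨f, hf, rfl⟩ := gm_sj φ
    have h1 : r * f =ᶠ[𝓝[{y | r y < 0}] z] 0 := Germ.coe_eq.1 (congrArg Subtype.val h)
    refine Subtype.ext (gcoe (f := f) (g := 0) ?_)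
    filter_upwards [h1, self_mem_nhdsWithin] with y a b
    exact (mul_eq_zero.1 a).resolve_left (ne_of_lt b)
  · obtain ⟨f, hf, rfl⟩ := gm_sj φ
    have hi : SmAt r z f⁻¹ := fun k => by
      obtain ⟨F, a, b⟩ := hf k
      have : gev (gm f hf) = F z :=
        gm_lim_eq ((a.continuousAt.tendsto.mono_left nhdsWithin_le_nhds).congr' b.symm)
      exact ⟨F⁻¹, a.inv (this ▸ h), b.inv⟩
    refine IsUnit.of_mul_eq_one (gm _ hi) (Subtype.ext (gcoe (f := f * f⁻¹) (g := 1) ?_))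
    filter_upwards [(gm_tend hf).eventually_ne h] with y a
    exact mul_inv_cancel₀ a

theorem gm_dvd (hr : ∀ k : ℕ, ContDiff ℝ k r) (h0 : r z = 0) (hd : fderiv ℝ r z ≠ 0)
    {f : ST → ℝ} (hf : SmAt r z f) (hc : Continuous f) (hv : ∀ᶠ y in 𝓝 z, r y = 0 → f y = 0) :
    (gm r (SmAt.of_cd hr) : GR r z) ∣ gm f hf := by
  have hq : SmAt r z (f / r) := fun k => by
    obtain ⟨F, a, b⟩ := hf (k + 1)
    obtain ⟨h, c, d⟩ := exists_div (hr (k + 1)).contDiffAt a h0 hd (by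
      filter_upwards [hv, (eventually_nhdsWithin_iff.1 b).eventually_nhds, cd_eventually a,
        ((hr 1).continuous_fderiv (by simp)).continuousAt.eventually_ne hd] with y h1 h2 h3 h4 hy
      have := eq_zero_of_closure (f := fun x => f x - F x) (hc.continuousAt.sub h3.continuousAt)
        (mem_closure_neg hy h4) (h2.mono fun x hx hn => sub_eq_zero.2 (hx hn))
      rw [h1 hy] at this
      linarith)
    refine ⟨h, c, ?_⟩
    filter_upwards [b, d.filter_mono nhdsWithin_le_nhds, self_mem_nhdsWithin] with y h1 h2 h3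
    rw [Pi.div_apply, h1, h2, mul_div_cancel_left₀ _ (ne_of_lt h3)]
  refine ⟨gm _ hq, Subtype.ext (gcoe (f := f) (g := r * (f / r)) ?_)⟩
  filter_upwards [self_mem_nhdsWithin] with y h3
  rw [Pi.mul_apply, Pi.div_apply, mul_div_cancel₀ _ (ne_of_lt h3)]

noncomputable def gDR [(𝓝[{y | r y < 0}] z).NeBot] (hr : ∀ k : ℕ, ContDiff ℝ k r) (h0 : r z = 0)
    (ht : pd e0 r = 0) : DR (GR r z) where
  d0 := gd (hr 0).continuous e0
  d1 := gd (hr 0).continuous e1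
  d2 := gd (hr 0).continuous e2
  l0 := gd_mul _ _
  l1 := gd_mul _ _
  l2 := gd_mul _ _
  c01 := gd_comm _ _ _
  c02 := gd_comm _ _ _
  c12 := gd_comm _ _ _
  ρ := gm r (SmAt.of_cd hr)
  ev := gev
  loc := gloc hr h0
  h0 := Subtype.ext (gcoe (f := pd e0 r) (g := 0) (by rw [ht]))

end Pool.Agent.MP_ed9623_an.H64
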