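import Pool.Agent.MP_ed9623_an.H64.Stokes

open Filter Topology MeasureTheory Set
open scoped ContDiff

namespace Pool.Agent.MP_ed9623_an.H64

theorem ode_bound (K : ℝ) (hK : 0 ≤ K) : ∃ C, 0 ≤ C ∧ ∀ y d A H z z' : ℝ → ℝ,
    (∀ t, HasDerivAt y (d t) t) → (∀ t, HasDerivAt z (z' t) t) → (∀ t, 0 ≤ y t) → (∀ t, 0 ≤ A t) →
    (∀ t, 0 ≤ H t) → (∀ t, 0 ≤ z t) → (∀ᶠ t in atTop, d t + A t ≤ K * ((1 + H t) * (1 + y t)) ∧
      y t ≤ K * √((1 + H t) * A t) ∧ z t ≤ K ∧ z' t + H t ≤ K) → ∀ᶠ t in atTop, y t ≤ C := by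
  set K0 := K ^ 2 + K with hK0
  have k0 : 0 ≤ K0 := by positivity
  refine ⟨Real.exp (K0 * (2 * K + 1)), (Real.exp_pos _).le,
    fun y d A H z z' hy hz y0 A0 H0 z0 h => ?_⟩
  obtain ⟨T, hT⟩ := eventually_atTop.1 h
  filter_upwards [eventually_ge_atTop (T + 1)] with t ht
  have hd : ∀ r, HasDerivAt (fun r => Real.exp (K0 * z r - K0 * (K + 1) * (r - (t - 1)))
      * (1 + (r - (t - 1)) * (r - (t - 1)) * y r)) (Real.exp (K0 * z r - K0 * (K + 1) * (r - (t - 1)))
      * (K0 * z' r - K0 * (K + 1) * 1) * (1 + (r - (t - 1)) * (r - (t - 1)) * y r)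
      + Real.exp (K0 * z r - K0 * (K + 1) * (r - (t - 1))) * ((1 * (r - (t - 1)) + (r - (t - 1)) * 1)
        * y r + (r - (t - 1)) * (r - (t - 1)) * d r)) r := fun r => by
    have s := (hasDerivAt_id' r).sub_const (t - 1)
    exact (((hz r).const_mul K0).sub (s.const_mul _)).exp.fun_mul
      (((s.fun_mul s).fun_mul (hy r)).const_add 1)
  have anti := antitoneOn_of_deriv_nonpos (convex_Icc (t - 1) t)
    (fun r _ => (hd r).continuousAt.continuousWithinAt)
    (fun r _ => (hd r).differentiableAt.differentiableWithinAt) (fun r hr => by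
      rw [(hd r).deriv, mul_assoc, ← mul_add]
      refine mul_nonpos_of_nonneg_of_nonpos (Real.exp_pos _).le ?_
      obtain ⟨r0, r1⟩ := interior_subset hr
      obtain ⟨a1, a2, -, a4⟩ := hT r (by linarith)
      generalize hs : r - (t - 1) = s
      have s0 : 0 ≤ s := by linarith
      have s1 : s * s ≤ 1 := by nlinarith
      have q := Real.sq_sqrt (mul_nonneg (by linarith [H0 r] : 0 ≤ 1 + H r) (A0 r))
      have q0 := Real.sqrt_nonneg ((1 + H r) * A r)
      generalize √((1 + H r) * A r) = w at *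
      have h1 := H0 r
      have h2 := y0 r
      have h3 := A0 r
      have p0 : 0 ≤ s * s * y r := by positivity
      have b1 : 2 * s * y r ≤ s * s * A r + K ^ 2 * (1 + H r) := by
        refine le_trans (mul_le_mul_of_nonneg_left a2 (by positivity)) ?_
        refine le_of_sq_le_sq ?_ (by positivity) |> id
        rw [show (2 * s * (K * w)) ^ 2 = 4 * (s * s) * K ^ 2 * w ^ 2 by ring, q]
        nlinarith [sq_nonneg (s * s * A r - K ^ 2 * (1 + H r))]
      have b2 := mul_le_mul_of_nonneg_left a1 (mul_self_nonneg s)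
      have b3 := mul_le_mul_of_nonneg_left s1 (by positivity : 0 ≤ K * (1 + H r))
      have b4 := mul_le_mul_of_nonneg_right (mul_le_mul_of_nonneg_left a4 k0)
        (by positivity : 0 ≤ 1 + s * s * y r)
      have b5 : 0 ≤ K ^ 2 * (1 + H r) * (s * s * y r) := by positivity
      nlinarith) ⟨le_rfl, by linarith⟩ ⟨by linarith, le_rfl⟩ (by linarith : t - 1 ≤ t)
  simp only [sub_self, mul_zero, zero_mul, add_zero, sub_zero, sub_sub_cancel, mul_one,
    one_mul] at anti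
  have e : Real.exp (K0 * z (t - 1)) ≤ Real.exp (K0 * z t - K0 * (K + 1))
      * Real.exp (K0 * (2 * K + 1)) := by
    rw [← Real.exp_add]
    refine Real.exp_le_exp.2 ?_
    nlinarith [mul_le_mul_of_nonneg_left (hT (t - 1) (by linarith)).2.2.1 k0, mul_nonneg k0 (z0 t)]
  have := le_of_mul_le_mul_left (anti.trans e) (Real.exp_pos _)
  linarith

theorem ode_absorb (K : ℝ) (hK : 0 < K) (y d : ℝ → ℝ) (hy : ∀ t, HasDerivAt y (d t) t)
    (h : ∀ᶠ t in atTop, K * d t + y t ≤ K ^ 2) : ∀ᶠ t in atTop, y t ≤ K ^ 2 + 1 := by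
  obtain ⟨T, hT⟩ := eventually_atTop.1 h
  have hd : ∀ r, HasDerivAt (fun r => Real.exp (r / K) * (y r - K ^ 2))
      (Real.exp (r / K) * (1 / K) * (y r - K ^ 2) + Real.exp (r / K) * d r) r := fun r =>
    ((hasDerivAt_id' r).div_const K).exp.fun_mul ((hy r).sub_const _)
  have anti := antitoneOn_of_deriv_nonpos (convex_Ici T)
    (fun r _ => (hd r).continuousAt.continuousWithinAt)
    (fun r _ => (hd r).differentiableAt.differentiableWithinAt) fun r hr => by
      rw [(hd r).deriv, mul_assoc, ← mul_add]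
      refine mul_nonpos_of_nonneg_of_nonpos (Real.exp_pos _).le ?_
      have := hT r (interior_subset hr)
      rw [show 1 / K * (y r - K ^ 2) + d r = (K * d r + y r - K ^ 2) / K by field_simp; ring]
      exact div_nonpos_of_nonpos_of_nonneg (by linarith) hK.le
  filter_upwards [eventually_ge_atTop T, (Real.tendsto_exp_atTop.comp
    (tendsto_id.atTop_div_const hK)).eventually_ge_atTop (Real.exp (T / K) * (y T - K ^ 2))]
    with t h1 h2
  have := le_of_mul_le_mul_left (((anti self_mem_Ici h1 h1).trans h2).trans_eq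
    (mul_one _).symm) (Real.exp_pos _)
  linarith

noncomputable def sl (t : ℝ) : SA ST →+* SA PP where
  toFun := fun f => ⟨fun x => f.1 (t, x), f.sm.comp (by fun_prop : ContDiff ℝ ∞ fun x : PP =>
    ((t, x) : ST))⟩
  map_one' := rfl
  map_mul' := fun _ _ => rfl
  map_zero' := rfl
  map_add' := fun _ _ => rfl

noncomputable def up (g : SA PP) : SA ST := ⟨fun z => g.1 z.2, g.sm.comp contDiff_snd⟩

noncomputable abbrev dt : SA ST →ₗ[ℝ] SA ST := D e0

theorem sl_D (t : ℝ) (f : SA ST) (e : PP) : sl t (D (0, e) f) = D e (sl t f) :=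
  Subtype.ext (funext fun _ => (pd_slice (cdg_diff (f.cd 1) le_rfl _) e).symm)

theorem sl_e1 (t : ℝ) (f : SA ST) : sl t (D e1 f) = d1 (sl t f) := sl_D t f (1, 0)
theorem sl_e2 (t : ℝ) (f : SA ST) : sl t (D e2 f) = d2 (sl t f) := sl_D t f (0, 1)

theorem dt_up (g : SA PP) : dt (up g) = 0 := Subtype.ext (funext fun z =>
  (pd_snd (cdg_diff (g.cd 1) le_rfl _) e0).trans (by simp [pd, Prod.mk_zero_zero]; rfl))

theorem iter_D (e : ST) (f : SA ST) (j : ℕ) : dt^[j] (D e f) = D e (dt^[j] f) :=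
  (Function.Commute.iterate_left (fun f => D_comm e0 e f) j) f

variable {Q : Dm}

theorem I_deriv (f : SA ST) (t : ℝ) :
    HasDerivAt (fun t => Q.I (sl t f)) (Q.I (sl t (dt f))) t := Q.dom.hasDerivAt (f.cd 1) t

theorem dt_ev {f : SA ST} {P : PP → Prop} (h : ∀ᶠ t in atTop, ∀ x, P x → f.1 (t, x) = 0) :
    ∀ᶠ t in atTop, ∀ x, P x → (dt f).1 (t, x) = 0 := by
  obtain ⟨T, hT⟩ := eventually_atTop.1 h
  filter_upwards [eventually_gt_atTop T] with t ht x hx
  have a : HasDerivAt (fun s => f.1 (s, x)) ((dt f).1 (t, x)) t :=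
    (cdg_diff (f.cd 1) le_rfl (t, x)).hasFDerivAt.comp_hasDerivAt t
      ((hasDerivAt_id t).prodMk (hasDerivAt_const t x))
  refine a.unique ((hasDerivAt_const t (0 : ℝ)).congr_of_eventuallyEq ?_)
  filter_upwards [lt_mem_nhds ht] with s hs using hT s (le_of_lt hs) x hx

theorem iter_Z {f : SA ST} (h : ∀ᶠ t in atTop, sl t f ∈ Q.Z) (j : ℕ) :
    ∀ᶠ t in atTop, sl t (dt^[j] f) ∈ Q.Z := by
  induction j with
  | zero => exact h
  | succ j ih => rw [Function.iterate_succ_apply']; exact dt_ev ih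

theorem iter_B {f : SA ST} (h : ∀ᶠ t in atTop, sl t f ∈ Q.B) (j : ℕ) :
    ∀ᶠ t in atTop, sl t (dt^[j] f) ∈ Q.B := by
  induction j with
  | zero => exact h
  | succ j ih => rw [Function.iterate_succ_apply']; exact dt_ev ih

theorem iter_I {f : SA ST} (h : ∀ᶠ t in atTop, Q.I (sl t f) = 0) (j : ℕ) :
    ∀ᶠ t in atTop, Q.I (sl t (dt^[j] f)) = 0 := by
  induction j with
  | zero => exact h
  | succ j ih =>
    rw [Function.iterate_succ_apply']
    obtain ⟨T, hT⟩ := eventually_atTop.1 ih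
    filter_upwards [eventually_gt_atTop T] with t ht
    refine (I_deriv _ t).unique ((hasDerivAt_const t (0 : ℝ)).congr_of_eventuallyEq ?_)
    filter_upwards [lt_mem_nhds ht] with s hs using hT s (le_of_lt hs)

variable (Q) in
/-- Smooth solutions for large times. -/
structure Sol (g1 g2 : SA PP) where
  u1 : SA ST
  u2 : SA ST
  p : SA ST
  ns : ∀ᶠ t in atTop, NS {x | Q.ρ.1 x < 0} g1.1 g2.1 u1.1 u2.1 p.1 t
  mean : ∀ᶠ t in atTop, Q.I (sl t p) = 0

variable {g1 g2 : SA PP}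

variable (Q g1 g2) in
def late : Filter (Sol Q g1 g2 × ℝ) := ⨆ s, map (Prod.mk s) atTop

theorem ev_late {P : Sol Q g1 g2 × ℝ → Prop} :
    (∀ᶠ i in late Q g1 g2, P i) ↔ ∀ s, ∀ᶠ t in atTop, P (s, t) := by
  simp only [late, eventually_iSup, eventually_map]

noncomputable def V1 (j : ℕ) (i : Sol Q g1 g2 × ℝ) : SA PP := sl i.2 (dt^[j] i.1.u1)
noncomputable def V2 (j : ℕ) (i : Sol Q g1 g2 × ℝ) : SA PP := sl i.2 (dt^[j] i.1.u2)
noncomputable def PV (j : ℕ) (i : Sol Q g1 g2 × ℝ) : SA PP := sl i.2 (dt^[j] i.1.p)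
noncomputable def NL (V : ℕ → Sol Q g1 g2 × ℝ → SA PP) (j : ℕ) (i : Sol Q g1 g2 × ℝ) : SA PP :=
  ∑ q ∈ Finset.HasAntidiagonal.antidiagonal j, (j.choose q.1 : SA PP)
    * (V1 q.1 i * d1 (V q.2 i) + V2 q.1 i * d2 (V q.2 i))
noncomputable def GG (g : SA PP) (j : ℕ) : SA PP := if j = 0 then g else 0

theorem good (j : ℕ) : ∀ᶠ i in late Q g1 g2, ∃ s : Stk Q, s.u1 = V1 j i ∧ s.u2 = V2 j i ∧
    s.p = PV j i ∧ s.f1 = GG g1 j - V1 (j + 1) i - NL V1 j i ∧
      s.f2 = GG g2 j - V2 (j + 1) i - NL V2 j i := by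
  refine ev_late.2 fun s => ?_
  have hf := fun x hx => mem_frontier_of_zero Q.ρ.ct hx (Q.reg x hx)
  have b1 := iter_B (Q := Q) (f := s.u1) (s.ns.mono fun t h x hx => (h.2 x (hf x hx)).1) j
  have b2 := iter_B (Q := Q) (f := s.u2) (s.ns.mono fun t h x hx => (h.2 x (hf x hx)).2) j
  have dv := iter_Z (Q := Q) (f := D e1 s.u1 + D e2 s.u2)
    (s.ns.mono fun t h x hx => (h.1 x hx).2.2) j
  have q1 := iter_Z (Q := Q) (f := dt s.u1 + s.u1 * D e1 s.u1 + s.u2 * D e2 s.u1
    - (D e1 (D e1 s.u1) + D e2 (D e2 s.u1)) + D e1 s.p - up g1)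
    (s.ns.mono fun t h x hx => sub_eq_zero.2 (h.1 x hx).1) j
  have q2 := iter_Z (Q := Q) (f := dt s.u2 + s.u1 * D e1 s.u2 + s.u2 * D e2 s.u2
    - (D e1 (D e1 s.u2) + D e2 (D e2 s.u2)) + D e2 s.p - up g2)
    (s.ns.mono fun t h x hx => sub_eq_zero.2 (h.1 x hx).2.1) j
  have gg : ∀ t g, sl t (dt^[j] (up g)) = GG g j := fun t g => by
    rcases j with _ | j
    · rfl
    · rw [Function.iterate_succ_apply, dt_up, iterate_map_zero, map_zero]; simp [GG]
  simp only [iterate_map_add, iterate_map_sub, D_iter_mul, iter_D, map_add, map_sub, map_sum,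
    map_mul, map_natCast, gg, sl_e1, sl_e2] at dv q1 q2
  filter_upwards [b1, b2, dv, q1, q2] with t b1 b2 dv q1 q2
  refine ⟨⟨_, _, PV j (s, t), _, _, b1, b2, dv, ?_, ?_⟩, rfl, rfl, rfl, rfl, rfl⟩
  · convert q1 using 1
    simp only [V1, V2, PV, NL, lp2, Function.iterate_succ_apply', mul_add, Finset.sum_add_distrib]
    ring
  · convert q2 using 1
    simp only [V1, V2, PV, NL, lp2, Function.iterate_succ_apply', mul_add, Finset.sum_add_distrib]
    ring

end Pool.Agent.MP_ed9623_an.H64
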