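import Pool.Agent.MP_ed9623_an.H64.Epd1
import Pool.Agent.MP_ed9623_an.H64.Germ
import Pool.Agent.MP_ed9623_an.H64.Time1
import Pool.Agent.MP_ed9623_an.H64.Sq2

open Filter Topology MeasureTheory Set
open scoped ContDiff

namespace Pool.Agent.MP_ed9623_an.H64

theorem quad_le {a b c K η r : ℝ} (n τ : ℝ) (ha : |a| ≤ K * η) (hb : |b| ≤ K) (hc : |c| ≤ K)
    (r0 : 0 < r) (r1 : r ≤ η ^ 2) (e0 : 0 < η) (e1 : η ≤ 1) :
    r * |a * (n * n) + b * (n * τ) + c * (τ * τ)| ≤ 2 * K * η * (r * (n * n) + τ * τ) := by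
  have K0 := (abs_nonneg _).trans hb
  have h1 : |a * (n * n) + b * (n * τ) + c * (τ * τ)|
      ≤ K * η * (n * n) + K * (|n| * |τ|) + K * (τ * τ) := by
    refine (abs_add_three _ _ _).trans ?_
    rw [abs_mul a, abs_mul b, abs_mul c, abs_mul_self, abs_mul_self, abs_mul]
    gcongr <;> exact mul_self_nonneg _
  have h2 : r * (|n| * |τ|) ≤ η * (r * (n * n) + τ * τ) := by
    refine le_of_mul_le_mul_left ?_ e0
    rw [← abs_mul_abs_self n, ← abs_mul_abs_self τ]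
    nlinarith [sq_nonneg (r * |n| - η * |τ|), mul_nonneg (mul_nonneg r0.le (sub_nonneg.2 r1))
      (mul_self_nonneg |n|), mul_nonneg (mul_nonneg r0.le e0.le) (mul_nonneg (abs_nonneg n)
      (abs_nonneg τ))]
  have h3 : r * (τ * τ) ≤ η * (τ * τ) :=
    mul_le_mul_of_nonneg_right (by nlinarith) (mul_self_nonneg τ)
  nlinarith [mul_le_mul_of_nonneg_left h1 r0.le, mul_le_mul_of_nonneg_left h2 K0,
    mul_le_mul_of_nonneg_left h3 K0]

theorem epd_an {ρ : PP → ℝ} (h : Dom ρ) {r : ST → ℝ} (er : r = fun y => ρ y.2) {z : ST}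
    (h0 : r z = 0) {E S1 S2 : ST → ℝ} {K : ℝ} (s1 : SmAt r z S1) (s2 : SmAt r z S2)
    (H : ∀ᶠ y in 𝓝[{y | r y < 0}] z, pd e1 r y * S1 y + pd e2 r y * S2 y = -E y ∧
      2 * E y ≤ pd e1 (r * S1) y + pd e2 (r * S2) y ∧ 0 ≤ E y ∧ ∀ η, 0 < η → η ≤ 1 → -r y ≤ η ^ 2 →
        -r y * |S1 y| ≤ K * η * E y ∧ -r y * |S2 y| ≤ K * η * E y) :
    ∀ᶠ y in 𝓝[{y | r y < 0}] z, E y = 0 := by
  subst er
  beta_reduce at h0
  have cr : ContDiff ℝ (1 : ℕ) fun y : ST => ρ y.2 := h.1.comp contDiff_snd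
  obtain ⟨F1, a1, b1⟩ := s1 1
  obtain ⟨F2, a2, b2⟩ := s2 1
  obtain ⟨G1, c1, d1⟩ := globalize a1
  obtain ⟨G2, c2, d2⟩ := globalize a2
  have f1 := b1.trans (d1.symm.filter_mono nhdsWithin_le_nhds)
  have f2 := b2.trans (d2.symm.filter_mono nhdsWithin_le_nhds)
  have sm : ∀ᶠ y : ST in 𝓝 z, 12 * K * (|y.2.1 - z.2.1| + |y.2.2 - z.2.2|) < 1 :=
    (Continuous.continuousAt (by fun_prop)).eventually (gt_mem_nhds (by simp))
  obtain ⟨ε, e0', he⟩ := Metric.eventually_nhds_iff_ball.1 (sm.and (eventually_nhdsWithin_iff.1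
    (H.and ((f1.and f2).and ((pd_congrL cr.continuous e1 ((EventuallyEq.refl _
      fun y : ST => ρ y.2).mul f1)).and (pd_congrL cr.continuous e2 ((EventuallyEq.refl _
        fun y : ST => ρ y.2).mul f2)))))))
  obtain ⟨s, hs⟩ : ∃ s, s = min ε 1 := ⟨_, rfl⟩
  have s0 : 0 < s := by rw [hs]; positivity
  have s1 : s ^ 2 ≤ 1 := pow_le_one₀ s0.le (hs ▸ min_le_right _ _)
  let η := up (-sq2 z.2 (s ^ 2))
  have η1 : ∀ y, η.1 y ≤ 1 := fun y => by
    change -((y.2.1 - z.2.1) ^ 2 + (y.2.2 - z.2.2) ^ 2 - s ^ 2) ≤ 1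
    linarith [sq_nonneg (y.2.1 - z.2.1), sq_nonneg (y.2.2 - z.2.2)]
  have dη : ∀ e y, pd (0, e) η.1 y = -(2 * (y.2.1 - z.2.1) * e.1 + 2 * (y.2.2 - z.2.2) * e.2) :=
    fun e y => by
      rw [← sq2_D _ (s ^ 2), ← D_val, D_up, map_neg]; rfl
  obtain ⟨ψ, hψ⟩ : ∃ ψ : ST → ℝ, ψ = fun y => η.1 y ^ 3 + ρ y.2 := ⟨_, rfl⟩
  have cψ : ContDiff ℝ (1 : ℕ) ψ := hψ ▸ ((η.cd 1).pow 3).add cr
  have dψ : ∀ e y, pd e ψ y = 3 * η.1 y ^ 2 * pd e η.1 y + pd e (fun y : ST => ρ y.2) y :=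
    fun e y => by
      refine HD.pd_eq ?_ (cdg_diff cψ le_rfl y)
      have a := HD.of_diff (e := e) (cdg_diff (η.cd 1) le_rfl y)
      have := (((a.mul a).mul a).add (HD.of_diff (e := e) (cdg_diff cr le_rfl y)))
      rw [hψ]
      convert this using 1
      · funext y; ring
      · ring
  have ext : ∀ G : ST → ℝ, ContDiff ℝ (1 : ℕ) G → ∃ J : ST → ℝ, ContDiff ℝ (1 : ℕ) J ∧
      (∀ y : ST, ρ y.2 = 0 → J y = 0) ∧ ∀ e y, pd e J y = if 0 < ψ y then ψ y * (ψ y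
        * pd e ((fun y : ST => ρ y.2) * G) y + 2 * pd e ψ y * (ρ y.2 * G y)) else 0 := by
    intro G hG
    have c := (cψ.mul cψ).mul (cr.mul hG)
    have d : ∀ e y, pd e (fun y => ψ y * ψ y * (ρ y.2 * G y)) y = ψ y * (ψ y
        * pd e ((fun y : ST => ρ y.2) * G) y + 2 * pd e ψ y * (ρ y.2 * G y)) := fun e y => by
      rw [pd_mul e (cdg_diff (cψ.mul cψ) le_rfl y) (cdg_diff (cr.mul hG) le_rfl y),
        pd_mul e (cdg_diff cψ le_rfl y) (cdg_diff cψ le_rfl y)]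
      change _ + _ * pd e ((fun y : ST => ρ y.2) * G) y = _
      ring
    have v : ∀ y, -ψ y = 0 → ψ y * ψ y * (ρ y.2 * G y) = 0 ∧
        ∀ e, pd e (fun y => ψ y * ψ y * (ρ y.2 * G y)) y = 0 := fun y hy => by
      simp [d, neg_eq_zero.1 hy]
    refine ⟨{y | -ψ y < 0}.indicator fun y => ψ y * ψ y * (ρ y.2 * G y),
      contDiff_iff_contDiffAt.2 fun y => ind_C1 cψ.continuous.neg c (Eventually.of_forall fun y hy =>
        ⟨(v y hy).1, fderiv_zero_of_pd (v y hy).2⟩), fun y hy => ?_, fun e y => ?_⟩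
    · simp [indicator, hy]
    · rw [pd_ind (r := fun y => -ψ y) cψ.continuous.neg (cdg_diff c le_rfl y) (v y)]
      simp [indicator, d]
  obtain ⟨J1, j1, k1, l1⟩ := ext G1 c1
  obtain ⟨J2, j2, k2, l2⟩ := ext G2 c2
  have key : ∀ y : ST, |y.1 - z.1| < ε → ρ y.2 < 0 → 0 < ψ y →
      0 ≤ E y ∧ 0 < η.1 y ∧ ψ y * (η.1 y ^ 3 * E y) ≤ pd e1 J1 y + pd e2 J2 y := by
    intro y ht hx hp
    have p3 : -ρ y.2 < η.1 y ^ 3 := by rw [hψ] at hp; linarith
    have p0 : 0 < η.1 y := (Odd.pow_pos_iff (by decide)).1 ((neg_pos.2 hx).trans p3)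
    have mem : y ∈ Metric.ball z ε := by
      rw [Metric.mem_ball, Prod.dist_eq, max_lt_iff]
      exact ⟨ht, (sq2_dist s0 (neg_pos.1 p0)).trans_le (hs ▸ min_le_left _ _)⟩
    obtain ⟨m0, m⟩ := he y mem
    obtain ⟨⟨m1, m2, m3, m4⟩, ⟨m5, m6⟩, m7, m8⟩ := m hx
    obtain ⟨n1, n2⟩ := m4 _ p0 (η1 y) (p3.le.trans (pow_le_pow_of_le_one p0.le (η1 y) (by norm_num)))
    refine ⟨m3, p0, ?_⟩
    rw [l1, l2, if_pos hp, if_pos hp, ← mul_add, ← m7, ← m8, ← m5, ← m6, dψ, dψ, dη, dη]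
    refine mul_le_mul_of_nonneg_left ?_ hp.le
    have q : ψ y = η.1 y ^ 3 + ρ y.2 := by rw [hψ]
    have u : ∀ a S : ℝ, -ρ y.2 * |S| ≤ K * η.1 y * E y →
        -(|a| * (K * η.1 y * E y)) ≤ -a * (ρ y.2 * S) := fun a S hS => by
      have := neg_abs_le (-a * (ρ y.2 * S))
      rw [abs_mul, abs_mul, abs_neg, abs_of_neg hx] at this
      nlinarith [mul_le_mul_of_nonneg_left hS (abs_nonneg a)]
    have u1 := mul_le_mul_of_nonneg_left (u (y.2.1 - z.2.1) _ n1) (sq_nonneg (η.1 y))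
    have u2 := mul_le_mul_of_nonneg_left (u (y.2.2 - z.2.2) _ n2) (sq_nonneg (η.1 y))
    have u3 := mul_le_mul_of_nonneg_left m2 hp.le
    have u4 := mul_le_mul_of_nonneg_left m0.le (by positivity : 0 ≤ η.1 y ^ 3 * E y)
    have u5 := congrArg (ρ y.2 * ·) m1
    have u6 := congrArg (· * E y) q
    simp only at u5 u6 ⊢
    nlinarith
  have c3 := (contDiff_pd (n := 0) e1 j1).continuous
  have c4 := (contDiff_pd (n := 0) e2 j2).continuous
  have zero : ∀ y : ST, |y.1 - z.1| < ε → ρ y.2 < 0 → pd e1 J1 y + pd e2 J2 y = 0 := by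
    intro y ht hx
    have z1 := integral_add (h.intST c3 y.1) (h.intST c4 y.1)
    rw [h.div_zero j1 (fun x hx => k1 _ hx), h.div_zero j2 (fun x hx => k2 _ hx), add_zero] at z1
    have z2 := (setIntegral_eq_zero_iff_of_nonneg_ae ((ae_restrict_iff' h.meas).2
      (Eventually.of_forall fun x hx => by
        by_cases hp : 0 < ψ (y.1, x)
        · obtain ⟨q1, q2, q3⟩ := key (y.1, x) ht hx hp
          exact le_trans (by positivity) q3
        · simp [l1, l2, hp])) (h.intST (c3.add c4) y.1)).1 z1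
    exact Measure.eqOn_open_of_ae_eq z2 h.isOpen (Continuous.continuousOn (by fun_prop))
      continuousOn_const hx
  have p1 : 0 < ψ z := by
    rw [hψ]
    change 0 < (-((z.2.1 - z.2.1) ^ 2 + (z.2.2 - z.2.2) ^ 2 - s ^ 2)) ^ 3 + ρ z.2
    simpa [h0] using by positivity
  refine eventually_nhdsWithin_iff.2 ?_
  filter_upwards [cψ.continuous.continuousAt.eventually (lt_mem_nhds p1),
    continuous_fst.continuousAt.eventually (Metric.ball_mem_nhds z.1 e0')] with y hp ht hx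
  obtain ⟨q1, q2, q3⟩ := key y ht hx hp
  rw [zero y ht hx, ← mul_assoc] at q3
  exact le_antisymm (nonpos_of_mul_nonpos_right q3 (by positivity)) q1

end Pool.Agent.MP_ed9623_an.H64
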