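import Pool.Agent.MP_ed9623_an.H64.Germ

open Filter Topology Set

namespace Pool.Agent.MP_ed9623_an.H64

variable {r : ST → ℝ} {z : ST}

theorem SmAt.neg {f : ST → ℝ} (hf : SmAt r z f) : SmAt r z (-f) :=
  fun k => (hf k).imp' Neg.neg fun _ h => ⟨h.1.neg, h.2.neg⟩

theorem SmAt.sub {f g : ST → ℝ} (hf : SmAt r z f) (hg : SmAt r z g) : SmAt r z (f - g) := by
  rw [sub_eq_add_neg]; exact hf.add hg.neg

theorem SmAt.pow {f : ST → ℝ} (hf : SmAt r z f) (n : ℕ) : SmAt r z (f ^ n) :=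
  fun k => (hf k).imp' (· ^ n) fun _ h => ⟨h.1.pow n, h.2.pow_const n⟩

theorem gm_add {f g : ST → ℝ} (hf : SmAt r z f) (hg : SmAt r z g) :
    gm f hf + gm g hg = gm (f + g) (hf.add hg) := rfl

theorem gm_mul {f g : ST → ℝ} (hf : SmAt r z f) (hg : SmAt r z g) :
    gm f hf * gm g hg = gm (f * g) (hf.mul hg) := rfl

theorem gm_sub {f g : ST → ℝ} (hf : SmAt r z f) (hg : SmAt r z g) :
    gm f hf - gm g hg = gm (f - g) (hf.sub hg) := rfl

theorem gm_pow {f : ST → ℝ} (hf : SmAt r z f) (n : ℕ) : gm f hf ^ n = gm (f ^ n) (hf.pow n) := rfl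

theorem gm_zero {f : ST → ℝ} {hf : SmAt r z f} :
    gm f hf = 0 ↔ ∀ᶠ y in 𝓝[{y | r y < 0}] z, f y = 0 :=
  gm_eq (g := 0) (hg := SmAt.of_cd fun _ => contDiff_const)

noncomputable def vort (w1 w2 : ST → ℝ) : ST → ℝ := pd e1 w2 - pd e2 w1

noncomputable def GS (r : ST → ℝ) : ST → ℝ := pd e1 r * pd e1 r + pd e2 r * pd e2 r

noncomputable def kapS (r : ST → ℝ) (z : ST) : ℝ :=
  2 * GS r z * (-pd e2 r z * pd e1 (curv r) z + pd e1 r z * pd e2 (curv r) z)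
    - 3 * curv r z * (-pd e2 r z * pd e1 (GS r) z + pd e1 r z * pd e2 (GS r) z)

theorem cd_vort {w1 w2 : ST → ℝ} {n : ℕ} (h1 : ContDiff ℝ (n + 1 : ℕ) w1)
    (h2 : ContDiff ℝ (n + 1 : ℕ) w2) : ContDiff ℝ n (vort w1 w2) :=
  (contDiff_pd e1 h2).sub (contDiff_pd e2 h1)

theorem jet6 (hr : ∀ k : ℕ, ContDiff ℝ k r) (ht : pd e0 r = 0) (h0 : r z = 0)
    (hk : curv r z ≠ 0) {a1 a2 w1 w2 P g1 g2 : ST → ℝ} (sa1 : SmAt r z a1) (sa2 : SmAt r z a2)
    (sw1 : SmAt r z w1) (sw2 : SmAt r z w2) (ca1 : Continuous a1) (ca2 : Continuous a2)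
    (cw1 : ContDiff ℝ (3 : ℕ) w1) (cw2 : ContDiff ℝ (3 : ℕ) w2) (hP : ContDiff ℝ (2 : ℕ) P)
    (hg1 : ∀ k : ℕ, ContDiff ℝ k g1) (hg2 : ∀ k : ℕ, ContDiff ℝ k g2) (tg1 : pd e0 g1 = 0)
    (tg2 : pd e0 g2 = 0) (hS : ∀ᶠ y in 𝓝[{y | r y < 0}] z, Sys a1 a2 w1 w2 P g1 g2 y)
    (hB : ∀ᶠ y in 𝓝 z, r y = 0 → a1 y = 0 ∧ a2 y = 0 ∧ w1 y = 0 ∧ w2 y = 0)
    (hω : vort w1 w2 z ≠ 0) :
    ∃ L, Tendsto (fun y => vort g1 g2 y / r y ^ 6) (𝓝[{y | r y < 0}] z) (𝓝 L) ∧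
      180 * GS r z ^ 6 * L = (vort w1 w2 z * pd e0 (pd e0 (vort w1 w2)) z
        - pd e0 (vort w1 w2) z ^ 2) * kapS r z := by
  have hd := fderiv_ne_of_curv hk
  haveI : (𝓝[{y | r y < 0}] z).NeBot := mem_closure_iff_nhdsWithin_neBot.1 (mem_closure_neg h0 hd)
  have cr := (hr 0).continuous
  let X := gDR hr h0 ht
  have x0 : ∀ f hf, X.d0 (gm f hf) = gm (pd e0 f) (hf.pd cr _) := fun _ _ => rfl
  have x1 : ∀ f hf, X.d1 (gm f hf) = gm (pd e1 f) (hf.pd cr _) := fun _ _ => rfl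
  have x2 : ∀ f hf, X.d2 (gm f hf) = gm (pd e2 f) (hf.pd cr _) := fun _ _ => rfl
  have xρ : X.ρ = gm r (SmAt.of_cd hr) := rfl
  have xe : ∀ f hf, Continuous f → X.ev (gm f hf) = f z := fun f hf hc =>
    gev_gm hf hc.continuousAt
  have sm : ∀ {f : ST → ℝ} e, (∀ k : ℕ, ContDiff ℝ k f) → ∀ k : ℕ, ContDiff ℝ k (pd e f) :=
    fun e h k => contDiff_pd e (h (k + 1))
  have sG : ∀ k : ℕ, ContDiff ℝ k (GS r) := fun k =>
    ((sm e1 hr k).mul (sm e1 hr k)).add ((sm e2 hr k).mul (sm e2 hr k))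
  have sE : ∀ k : ℕ, ContDiff ℝ k (curv r) := fun k =>
    (((sm e1 (sm e1 hr) k).mul ((sm e2 hr k).pow 2)).sub (((contDiff_const.mul
      (sm e1 (sm e2 hr) k)).mul (sm e1 hr k)).mul (sm e2 hr k))).add
        ((sm e2 (sm e2 hr) k).mul ((sm e1 hr k).pow 2))
  have xG : X.G = gm (GS r) (SmAt.of_cd sG) := rfl
  have xE : X.e = gm (curv r) (SmAt.of_cd sE) := by
    have t : (2 : GR r z) = gm 2 (SmAt.of_cd fun _ => contDiff_const) := rfl
    simp only [DR.e, xρ, x1, x2, t, gm_mul, gm_sub, gm_add]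
    refine gm_eq.2 (Eventually.of_forall fun y => ?_)
    simp only [curv, Pi.add_apply, Pi.sub_apply, Pi.mul_apply, Pi.ofNat_apply]; ring
  have sω : SmAt r z (vort w1 w2) := (sw2.pd cr _).sub (sw1.pd cr _)
  have xc : X.curl (gm w1 sw1) (gm w2 sw2) = gm (vort w1 w2) sω := rfl
  have cω := cd_vort (n := 2) cw1 cw2
  have cω1 := contDiff_pd (n := 1) e0 cω
  have cω2 := contDiff_pd (n := 0) e0 cω1
  have sv : ∀ k : ℕ, ContDiff ℝ k (vort g1 g2) := fun k => cd_vort (hg1 _) (hg2 _)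
  have sF1 : SmAt r z (g1 - pd e1 P) := fun k => by
    obtain ⟨F, a, b⟩ := ((((sa1.pd cr e0).add (sa1.mul (sa1.pd cr e1))).add
      (sa2.mul (sa1.pd cr e2))).sub (((sa1.pd cr e1).pd cr e1).add ((sa1.pd cr e2).pd cr e2))).add
      ((sw1.mul (sw1.pd cr e1)).add (sw2.mul (sw1.pd cr e2))) k
    refine ⟨F, a, EventuallyEq.trans (hS.mono fun y hy => ?_) b⟩
    have := hy.2.1
    simp only [heat, Pi.add_apply, Pi.sub_apply, Pi.mul_apply] at this ⊢
    linarith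
  have sF2 : SmAt r z (g2 - pd e2 P) := fun k => by
    obtain ⟨F, a, b⟩ := ((((sa2.pd cr e0).add (sa1.mul (sa2.pd cr e1))).add
      (sa2.mul (sa2.pd cr e2))).sub (((sa2.pd cr e1).pd cr e1).add ((sa2.pd cr e2).pd cr e2))).add
      ((sw1.mul (sw2.pd cr e1)).add (sw2.mul (sw2.pd cr e2))) k
    refine ⟨F, a, EventuallyEq.trans (hS.mono fun y hy => ?_) b⟩
    have := hy.2.2
    simp only [heat, Pi.add_apply, Pi.sub_apply, Pi.mul_apply] at this ⊢
    linarith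
  obtain ⟨G6, k1, k2⟩ := X.main (Gc := gm (vort g1 g2) (SmAt.of_cd sv))
    (gm_dvd hr h0 hd sa1 ca1 (hB.mono fun y h hy => (h hy).1))
    (gm_dvd hr h0 hd sa2 ca2 (hB.mono fun y h hy => (h hy).2.1))
    (gm_dvd hr h0 hd sw1 cw1.continuous (hB.mono fun y h hy => (h hy).2.2.1))
    (gm_dvd hr h0 hd sw2 cw2.continuous (hB.mono fun y h hy => (h hy).2.2.2))
    (by simp only [x1, x2, gm_add]; exact gm_zero.2 (hS.mono fun y hy => hy.1.2.2.1))
    (by simp only [x1, x2, gm_add]; exact gm_zero.2 (hS.mono fun y hy => hy.1.2.2.2))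
    (by simp only [DR.lap, x0, x1, x2, gm_add, gm_mul, gm_sub]
        exact gm_zero.2 (hS.mono fun y hy => hy.1.1))
    (by simp only [DR.lap, x0, x1, x2, gm_add, gm_mul, gm_sub]
        exact gm_zero.2 (hS.mono fun y hy => hy.1.2.1))
    (by
      have f1 : X.d0 (gm a1 sa1) + gm a1 sa1 * X.d1 (gm a1 sa1) + gm a2 sa2 * X.d2 (gm a1 sa1)
          - X.lap (gm a1 sa1) + (gm w1 sw1 * X.d1 (gm w1 sw1) + gm w2 sw2 * X.d2 (gm w1 sw1))
          = gm _ sF1 := by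
        simp only [DR.lap, x0, x1, x2, gm_add, gm_mul, gm_sub]
        refine gm_eq.2 (hS.mono fun y hy => ?_)
        have := hy.2.1
        simp only [heat, Pi.add_apply, Pi.sub_apply, Pi.mul_apply] at this ⊢
        linarith
      have f2 : X.d0 (gm a2 sa2) + gm a1 sa1 * X.d1 (gm a2 sa2) + gm a2 sa2 * X.d2 (gm a2 sa2)
          - X.lap (gm a2 sa2) + (gm w1 sw1 * X.d1 (gm w2 sw2) + gm w2 sw2 * X.d2 (gm w2 sw2))
          = gm _ sF2 := by
        simp only [DR.lap, x0, x1, x2, gm_add, gm_mul, gm_sub]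
        refine gm_eq.2 (hS.mono fun y hy => ?_)
        have := hy.2.2
        simp only [heat, Pi.add_apply, Pi.sub_apply, Pi.mul_apply] at this ⊢
        linarith
      rw [f1, f2]
      simp only [DR.curl, x1, x2, gm_sub]
      refine gm_eq.2 (Eventually.of_forall fun y => ?_)
      have p1 := cdg_diff (contDiff_pd (n := 1) e1 hP) le_rfl y
      have p2 := cdg_diff (contDiff_pd (n := 1) e2 hP) le_rfl y
      have q1 := pd_sub e2 (cdg_diff (hg1 1) le_rfl y) p1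
      have q2 := pd_sub e1 (cdg_diff (hg2 1) le_rfl y) p2
      have := pd_comm e1 e2 (hP.contDiffAt (x := y))
      change pd e1 g2 y - pd e2 g1 y = pd e1 (fun y => g2 y - pd e2 P y) y
        - pd e2 (fun y => g1 y - pd e1 P y) y
      rw [q1, q2, this]; ring)
    (by
      rw [x0]
      refine gm_zero.2 (Eventually.of_forall fun y => ?_)
      have q := pd_sub e0 (cdg_diff (sm e1 hg2 1) le_rfl y) (cdg_diff (sm e2 hg1 1) le_rfl y)
      change pd e0 (fun y => pd e1 g2 y - pd e2 g1 y) y = 0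
      rw [q, pd_comm_fun e0 e1 (hg2 2), pd_comm_fun e0 e2 (hg1 2), tg1, tg2]
      exact sub_eq_zero.2 ((pd_const _ _ 0).trans (pd_const _ _ 0).symm))
    (by
      rw [xG, xe _ _ (sG 0).continuous]
      intro h
      simp only [GS, Pi.add_apply, Pi.mul_apply] at h
      have a1 : pd e1 r z = 0 := by nlinarith [mul_self_nonneg (pd e1 r z), mul_self_nonneg (pd e2 r z)]
      have a2 : pd e2 r z = 0 := by nlinarith [mul_self_nonneg (pd e1 r z), mul_self_nonneg (pd e2 r z)]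
      apply hk
      unfold curv
      rw [a1, a2]; ring)
    (by rwa [xE, xe _ _ (sE 0).continuous]) (by rwa [xc, xe _ _ cω.continuous])
  obtain ⟨f, hf, rfl⟩ := gm_sj G6
  refine ⟨X.ev (gm f hf), (gm_tend hf).congr' ?_, ?_⟩
  · rw [xρ, gm_pow, gm_mul, gm_eq] at k1
    filter_upwards [k1, self_mem_nhdsWithin] with y h1 h2
    rw [h1, Pi.mul_apply, Pi.pow_apply, mul_div_cancel_left₀ _ (pow_ne_zero _ (ne_of_lt h2))]
  · rw [xc, x0, x0, xe _ _ cω.continuous, xe _ _ cω1.continuous, xe _ _ cω2.continuous, DR.kap,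
      DR.T_apply, DR.T_apply, xG, xE, xρ] at k2
    simp only [x1, x2, map_mul, map_sub, map_add, map_neg, map_ofNat, xe _ _ (sG 0).continuous,
      xe _ _ (sE 0).continuous, xe _ _ (sm _ hr 0).continuous, xe _ _ (sm _ sG 0).continuous,
      xe _ _ (sm _ sE 0).continuous] at k2
    exact k2

end Pool.Agent.MP_ed9623_an.H64
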