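import Pool.Agent.MP_ed9623_an.H64.Epd2
import Pool.Agent.MP_ed9623_an.H64.Link

open Filter Topology MeasureTheory Set
open scoped ContDiff

namespace Pool.Agent.MP_ed9623_an.H64

theorem epd_link {ρ : PP → ℝ} (h : Dom ρ) {r : ST → ℝ} (er : r = fun y => ρ y.2) {z : ST}
    (hr : ∀ k : ℕ, ContDiff ℝ k r) (ht : pd e0 r = 0) (h0 : r z = 0) (hk : 0 < curv r z)
    {a1 a2 w1 w2 P g1 g2 : ST → ℝ} (sa1 : SmAt r z a1) (sa2 : SmAt r z a2)
    (sw1 : SmAt r z w1) (sw2 : SmAt r z w2) (ca1 : Continuous a1) (ca2 : Continuous a2)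
    (cw1 : ContDiff ℝ (1 : ℕ) w1) (cw2 : ContDiff ℝ (1 : ℕ) w2)
    (hS : ∀ᶠ y in 𝓝[{y | r y < 0}] z, Sys a1 a2 w1 w2 P g1 g2 y)
    (hB' : ∀ᶠ y in 𝓝 z, r y = 0 → a1 y = 0 ∧ a2 y = 0 ∧ w1 y = 0 ∧ w2 y = 0)
    (hω : vort w1 w2 z ≠ 0) : ∀ᶠ y in 𝓝[{y | r y < 0}] z, a1 y = 0 ∧ a2 y = 0 := by
  have hd := fderiv_ne_of_curv hk.ne'
  haveI : (𝓝[{y | r y < 0}] z).NeBot := mem_closure_iff_nhdsWithin_neBot.1 (mem_closure_neg h0 hd)
  have cr := (hr 0).continuous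
  let X := gDR hr h0 ht
  have x0 : ∀ f hf, X.d0 (gm f hf) = gm (pd e0 f) (hf.pd cr _) := fun _ _ => rfl
  have x1 : ∀ f hf, X.d1 (gm f hf) = gm (pd e1 f) (hf.pd cr _) := fun _ _ => rfl
  have x2 : ∀ f hf, X.d2 (gm f hf) = gm (pd e2 f) (hf.pd cr _) := fun _ _ => rfl
  have xρ : X.ρ = gm r (SmAt.of_cd hr) := rfl
  have xe : ∀ f hf, Continuous f → X.ev (gm f hf) = f z := fun f hf hc =>
    gev_gm hf hc.continuousAt
  have sm : ∀ {f : ST → ℝ} e, (∀ k : ℕ, ContDiff ℝ k f) → ∀ k : ℕ, ContDiff ℝ k (pd e f) :=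
    fun e h k => contDiff_pd e (h (k + 1))
  have c1 := fun e => (sm e hr 0).continuous
  have c2 := fun e e' => (sm e (sm e' hr) 0).continuous
  have xE : 0 < X.ev X.e := by
    simp only [DR.e, xρ, x1, x2, map_add, map_sub, map_mul, map_ofNat, xe _ _ (c1 _),
      xe _ _ (c2 _ _)]
    unfold curv at hk
    linarith
  have xG : X.ev X.G ≠ 0 := fun hG => by
    simp only [DR.G, xρ, x1, x2, map_add, map_mul, xe _ _ (c1 _)] at hG
    have a1 : pd e1 r z = 0 := by nlinarith [mul_self_nonneg (pd e1 r z), mul_self_nonneg (pd e2 r z)]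
    have a2 : pd e2 r z = 0 := by nlinarith [mul_self_nonneg (pd e1 r z), mul_self_nonneg (pd e2 r z)]
    simp [curv, a1, a2] at hk
  have xc : X.ev (X.curl (gm w1 sw1) (gm w2 sw2)) ≠ 0 := by
    have sω : SmAt r z (vort w1 w2) := (sw2.pd cr _).sub (sw1.pd cr _)
    rwa [show X.curl (gm w1 sw1) (gm w2 sw2) = gm (vort w1 w2) sω from rfl,
      xe _ _ (cd_vort (n := 0) cw1 cw2).continuous]
  have v1 := gm_dvd hr h0 hd sw1 cw1.continuous (hB'.mono fun y h hy => (h hy).2.2.1)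
  have v2 := gm_dvd hr h0 hd sw2 cw2.continuous (hB'.mono fun y h hy => (h hy).2.2.2)
  have da : X.d1 (gm a1 sa1) + X.d2 (gm a2 sa2) = 0 := by
    simp only [x1, x2, gm_add]; exact gm_zero.2 (hS.mono fun y hy => hy.1.2.2.1)
  have dw : X.d1 (gm w1 sw1) + X.d2 (gm w2 sw2) = 0 := by
    simp only [x1, x2, gm_add]; exact gm_zero.2 (hS.mono fun y hy => hy.1.2.2.2)
  obtain ⟨tr, fl⟩ := X.flat_all (gm_dvd hr h0 hd sa1 ca1 (hB'.mono fun y h hy => (h hy).1))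
    (gm_dvd hr h0 hd sa2 ca2 (hB'.mono fun y h hy => (h hy).2.1)) v1 v2 da dw
    (by simp only [DR.lap, x0, x1, x2, gm_add, gm_mul, gm_sub]
        exact gm_zero.2 (hS.mono fun y hy => hy.1.1))
    (by simp only [DR.lap, x0, x1, x2, gm_add, gm_mul, gm_sub]
        exact gm_zero.2 (hS.mono fun y hy => hy.1.2.1)) xG xE.ne' xc
  rw [← xρ] at v1 v2
  generalize gm w1 sw1 = W1 at *
  generalize gm w2 sw2 = W2 at *
  wlog hc : 0 < X.ev (X.curl W1 W2) generalizing W1 W2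
  · have e : X.ev (X.curl (-W1) (-W2)) = -X.ev (X.curl W1 W2) := by
      simp only [DR.curl, map_sub, map_neg]; ring
    refine this (-W1) v1.neg_right (-W2) v2.neg_right (e ▸ neg_ne_zero.2 xc) ?_ ?_
      (e ▸ neg_pos.2 (lt_of_le_of_ne (not_lt.1 hc) xc))
    · simp only [map_neg]; linear_combination -dw
    · simp only [map_neg]; linear_combination -tr
  obtain ⟨μ, l, α1, α2, α3, s1, s2, s3, t1, t2, t3, p1, p2, H⟩ := X.epd v1 v2 dw xG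
  have p3 : 0 < X.ev μ := pos_of_mul_pos_left (p1 ▸ mul_pos hc xE) (sq_nonneg _)
  rw [← p2] at hc
  have lo : ∀ φ : GR r z, 0 < X.ev φ → ∃ f hf δ, φ = gm f hf ∧ 0 < δ ∧
      ∀ᶠ y in 𝓝[{y | r y < 0}] z, δ ≤ f y := fun φ hφ => by
    obtain ⟨f, hf, rfl⟩ := gm_sj φ
    exact ⟨f, hf, _, rfl, half_pos hφ, (gm_tend hf).eventually_const_le (half_lt_self hφ)⟩
  have up : ∀ φ : GR r z, ∃ f hf K, φ = gm f hf ∧ 0 ≤ K ∧
      ∀ᶠ y in 𝓝[{y | r y < 0}] z, |f y| ≤ K := fun φ => by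
    obtain ⟨f, hf, rfl⟩ := gm_sj φ
    exact ⟨f, hf, _, rfl, by positivity, (gm_tend hf).abs.eventually_le_const (lt_add_one _)⟩
  obtain ⟨μ, hμ, δ1, rfl, d1, l1⟩ := lo μ p3
  obtain ⟨l, hl, δ2, rfl, d2, l2⟩ := lo l hc
  obtain ⟨α1, _, K1, rfl, k1, u1⟩ := up α1
  obtain ⟨α2, _, K2, rfl, k2, u2⟩ := up α2
  obtain ⟨α3, _, K3, rfl, k3, u3⟩ := up α3
  obtain ⟨s1, _, K4, rfl, k4, u4⟩ := up s1
  obtain ⟨s2, _, K5, rfl, k5, u5⟩ := up s2
  obtain ⟨s3, _, K6, rfl, k6, u6⟩ := up s3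
  obtain ⟨t1, _, K7, rfl, k7, u7⟩ := up t1
  obtain ⟨t2, _, K8, rfl, k8, u8⟩ := up t2
  obtain ⟨t3, _, K9, rfl, k9, u9⟩ := up t3
  obtain ⟨K, hK⟩ : ∃ K, K = K1 + K2 + K3 + K4 + K5 + K6 + K7 + K8 + K9 := ⟨_, rfl⟩
  obtain ⟨δ, d0, d3, d4⟩ : ∃ δ, 0 < δ ∧ δ ≤ δ1 ∧ δ ≤ δ2 :=
    ⟨min δ1 δ2, lt_min d1 d2, min_le_left _ _, min_le_right _ _⟩
  obtain ⟨k, k0, hk'⟩ : ∃ k, 0 ≤ k ∧ k * δ = 2 * K := ⟨2 * K / δ, by rw [hK]; positivity, by field_simp⟩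
  obtain ⟨m, hm⟩ := exists_nat_ge (k + 1)
  obtain ⟨⟨A1, q1⟩, A2, q2⟩ := fl m
  obtain ⟨n, τ, S1, S2, b1, b2, y1, y2, y3, y4, y5, y6⟩ := H m A1 A2 (q1 ▸ q2 ▸ da) (q1 ▸ q2 ▸ tr)
  rw [y1] at q1
  rw [y2] at q2
  obtain ⟨n, _, rfl⟩ := gm_sj n
  obtain ⟨τ, _, rfl⟩ := gm_sj τ
  obtain ⟨S1, hS1, rfl⟩ := gm_sj S1
  obtain ⟨S2, hS2, rfl⟩ := gm_sj S2
  obtain ⟨b1, _, rfl⟩ := gm_sj b1
  obtain ⟨b2, _, rfl⟩ := gm_sj b2
  have nm : (2 * m + 1 : GR r z) = gm (fun _ => 2 * m + 1) (SmAt.of_cd fun _ => contDiff_const) := rfl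
  simp only [nm, xρ, x1, x2, gm_add, gm_mul, gm_sub, gm_pow, gm_eq] at q1 q2 y3 y4 y5 y6
  have lE : ∀ᶠ y in 𝓝[{y | r y < 0}] z, δ * (-r y * (n y * n y) + τ y * τ y)
      ≤ l y * (τ y * τ y) - r y * μ y * (n y * n y) := by
    filter_upwards [l1, l2, self_mem_nhdsWithin] with y l1 l2 hy
    nlinarith [mul_le_mul_of_nonneg_right (d4.trans l2) (mul_self_nonneg (τ y)),
      mul_le_mul_of_nonneg_right (d3.trans l1) (mul_nonneg (neg_pos.2 hy).le (mul_self_nonneg (n y)))]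
  have := epd_an h er h0 (E := fun y => l y * (τ y * τ y) - r y * μ y * (n y * n y)) (K := k) hS1 hS2 (by
    filter_upwards [lE, u1, u2, u3, u4, u5, u6, u7, u8, u9, y3, y4, y5, y6, self_mem_nhdsWithin,
      mem_nhdsWithin_of_mem_nhds (cr.continuousAt.eventually (lt_mem_nhds (show -1 < r z by
        rw [h0]; norm_num)))] with y lE u1 u2 u3 u4 u5 u6 u7 u8 u9 y3 y4 y5 y6 hy hy'
    have r0 : 0 < -r y := neg_pos.2 hy
    simp only [Pi.add_apply, Pi.mul_apply, Pi.sub_apply] at y3 y4 y5 y6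
    have Y0 : 0 ≤ -r y * (n y * n y) + τ y * τ y :=
      add_nonneg (mul_nonneg r0.le (mul_self_nonneg _)) (mul_self_nonneg _)
    have E0 := (mul_nonneg d0.le Y0).trans lE
    have z1 := mul_le_mul_of_nonneg_left lE k0
    rw [← mul_assoc, hk'] at z1
    refine ⟨by linarith, ?_, E0, fun η e0 e1 e2 => ?_⟩
    · have z2 := quad_le (a := α1 y) (b := α2 y) (c := α3 y) (K := K) (η := 1) (n y) (τ y)
        (by linarith) (by linarith) (by linarith) r0 (by linarith) one_pos le_rfl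
      have z3 := mul_le_mul_of_nonneg_left (le_abs_self (α1 y * (n y * n y) + α2 y * (n y * τ y)
        + α3 y * (τ y * τ y))) r0.le
      nlinarith [mul_le_mul_of_nonneg_right hm E0, mul_nonneg k0 E0]
    · have z2 : ∀ a, |a| ≤ K → |a * r y| ≤ K * η := fun a ha => by
        rw [abs_mul, abs_of_neg hy]
        exact mul_le_mul ha (by nlinarith) r0.le ((abs_nonneg _).trans ha)
      have z3 := mul_le_mul_of_nonneg_left z1 e0.le
      rw [y3, y4]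
      exact ⟨(quad_le _ _ (z2 _ (by linarith)) (by linarith) (by linarith) r0 e2 e0 e1).trans
        (by linarith), (quad_le _ _ (z2 _ (by linarith)) (by linarith) (by linarith) r0 e2 e0
          e1).trans (by linarith)⟩)
  filter_upwards [this, lE, q1, q2, self_mem_nhdsWithin] with y z1 z2 z3 z4 hy
  have z5 := nonpos_of_mul_nonpos_right (z2.trans_eq z1) d0
  have z6 := mul_nonneg (neg_pos.2 hy).le (mul_self_nonneg (n y))
  have z7 : τ y = 0 := mul_self_eq_zero.1 (by linarith [mul_self_nonneg (τ y)])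
  have z8 : n y = 0 := mul_self_eq_zero.1 ((mul_eq_zero.1 (show -r y * (n y * n y) = 0 by
    linarith [mul_self_nonneg (τ y)])).resolve_left (neg_pos.2 hy).ne')
  simp [z3, z4, z7, z8]

end Pool.Agent.MP_ed9623_an.H64
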