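import Pool.Agent.MP_ed9623_an.H64.Traj
import Pool.Agent.MP_ed9623_an.H64.Limit
import Pool.Agent.MP_ed9623_an.H64.Defs2

open Filter Topology MeasureTheory Set

namespace Pool.Agent.MP_ed9623_an.H64

theorem LB_shift {l : Ultrafilter ℕ} {t : ℕ → ℝ} (ht : Tendsto t l atTop) {M : ℝ} {k : ℕ}
    {f : ST → ℝ} (hf : ContDiff ℝ k f)
    (hb : ∀ᶠ s in atTop, ∀ x : ℝ × ℝ, ∀ j ≤ k, ‖iteratedFDeriv ℝ j f (s, x)‖ ≤ M) :
    LB l M k fun n => shift (t n) f := by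
  refine ⟨fun n => cd_shift _ hf, fun z => ?_⟩
  obtain ⟨T, hT⟩ := eventually_atTop.1 hb
  filter_upwards [ht.eventually (eventually_ge_atTop (T - z.1 + 1))] with n hn y hy j hj
  unfold shift
  rw [iteratedFDeriv_comp_add_right]
  have h1 : |y.1 - z.1| < 1 := by
    rw [Metric.mem_ball, Prod.dist_eq, max_lt_iff] at hy
    exact hy.1
  have := hT (y.1 + t n) (by linarith [(abs_lt.1 h1).1]) y.2 j hj
  have e : y + (t n, 0) = (y.1 + t n, y.2) := by ext <;> simp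
  rwa [e]

theorem tendsto_heat {l : Ultrafilter ℕ} {M : ℝ} {a1 a2 f : ℕ → ST → ℝ} (h1 : LB l M 3 a1)
    (h2 : LB l M 3 a2) (hf : LB l M 3 f) (z : ST) :
    Tendsto (fun n => heat (a1 n) (a2 n) (f n) z) l
      (𝓝 (heat (ulim l a1) (ulim l a2) (ulim l f) z)) := by
  have p := fun e => (hf.mono (by norm_num : 2 ≤ 3)).tendsto_pd e z
  exact (((p _).add ((h1.tendsto z).mul (p _))).add ((h2.tendsto z).mul (p _))).sub
    ((hf.tendsto_pd2 _ _ z).add (hf.tendsto_pd2 _ _ z))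

theorem LB.bounds {l : Ultrafilter ℕ} {M : ℝ} {f : ℕ → ST → ℝ} (h : LB l M 3 f) (z : ST) :
    |ulim l f z| ≤ M ∧ (∀ e, ‖e‖ ≤ 1 → |pd e (ulim l f) z| ≤ M) ∧
      ∀ e, ‖e‖ ≤ 1 → |pd e (pd e (ulim l f)) z| ≤ M := by
  have b := (h.2 z).mono fun n hn => hn z (Metric.mem_ball_self one_pos)
  refine ⟨le_of_tendsto (h.tendsto z).abs (b.mono fun n hn => by simpa using hn 0 (by norm_num)),
    fun e he => le_of_tendsto ((h.mono (by norm_num)).tendsto_pd e z).abs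
      (b.mono fun n hn => abs_pd_le (hn 1 (by norm_num)) he),
    fun e he => le_of_tendsto (h.tendsto_pd2 e e z).abs
      (b.mono fun n hn => abs_pd2_le (cdg_le (h.1 n) (by norm_num)) (hn 2 (by norm_num)) he)⟩

variable {ρ g₁ g₂ : ℝ × ℝ → ℝ} {M : ℝ}

theorem Traj.lb {u₁ u₂ p : ST → ℝ} (h : Traj {x | ρ x < 0} g₁ g₂ M u₁ u₂ p) {l : Ultrafilter ℕ}
    {t : ℕ → ℝ} (ht : Tendsto t l atTop) : (LB l M 7 fun n => shift (t n) u₁) ∧
      (LB l M 7 fun n => shift (t n) u₂) ∧ LB l M 3 fun n => shift (t n) p :=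
  ⟨LB_shift ht h.1 (h.2.2.2.mono fun _ hs x j hj => ((hs.2 x).1 j hj).1),
    LB_shift ht h.2.1 (h.2.2.2.mono fun _ hs x j hj => ((hs.2 x).1 j hj).2),
    LB_shift ht h.2.2.1 (h.2.2.2.mono fun _ hs x j hj => (hs.2 x).2 j hj)⟩

theorem Traj.lim {u₁ u₂ p : ST → ℝ} (h : Traj {x | ρ x < 0} g₁ g₂ M u₁ u₂ p) {l : Ultrafilter ℕ}
    {t : ℕ → ℝ} (ht : Tendsto t l atTop) : ∃ τ : Tr ρ g₁ g₂ M,
      τ.u1 = ulim l (fun n => shift (t n) u₁) ∧ τ.u2 = ulim l (fun n => shift (t n) u₂) ∧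
      τ.p = ulim l fun n => shift (t n) p := by
  obtain ⟨b1, b2, b3⟩ := h.lb ht
  have c1 := b1.mono (by norm_num : 3 ≤ 7)
  have c2 := b2.mono (by norm_num : 3 ≤ 7)
  have n0 : ‖e0‖ ≤ 1 := by simp [Prod.norm_def]
  have n1 : ‖e1‖ ≤ 1 := by simp [Prod.norm_def]
  have n2 : ‖e2‖ ≤ 1 := by simp [Prod.norm_def]
  refine ⟨⟨_, _, _, LB.contDiff 6 b1, LB.contDiff 6 b2, LB.contDiff 2 b3, fun s => ?_,
    fun z => ⟨(c1.bounds z).1, (c2.bounds z).1⟩,
    fun z => ⟨(c1.bounds z).2.1 _ n1, (c1.bounds z).2.1 _ n2, (c2.bounds z).2.1 _ n1,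
      (c2.bounds z).2.1 _ n2⟩, fun z => ⟨(c1.bounds z).2.2 _ n0, (c2.bounds z).2.2 _ n0⟩⟩,
    rfl, rfl, rfl⟩
  have ev : ∀ᶠ n in l, NS {x | ρ x < 0} g₁ g₂ (shift (t n) u₁) (shift (t n) u₂)
      (shift (t n) p) s :=
    ((tendsto_atTop_add_const_left _ s ht).eventually h.2.2.2).mono fun n hn => hn.1.shift
  have q := fun e z => (b3.mono (by norm_num : 2 ≤ 3)).tendsto_pd e z
  refine ⟨fun x hx => ⟨?_, ?_, ?_⟩, fun x hx => ⟨?_, ?_⟩⟩
  · exact tendsto_nhds_unique ((tendsto_heat c1 c2 c1 _).add (q _ _))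
      (tendsto_const_nhds.congr' (ev.mono fun n hn => (hn.1 x hx).1.symm))
  · exact tendsto_nhds_unique ((tendsto_heat c1 c2 c2 _).add (q _ _))
      (tendsto_const_nhds.congr' (ev.mono fun n hn => (hn.1 x hx).2.1.symm))
  · exact tendsto_nhds_unique (((c1.mono (by norm_num)).tendsto_pd _ _).add
      ((c2.mono (by norm_num)).tendsto_pd _ _))
      (tendsto_const_nhds.congr' (ev.mono fun n hn => (hn.1 x hx).2.2.symm))
  · exact tendsto_nhds_unique (c1.tendsto _)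
      (tendsto_const_nhds.congr' (ev.mono fun n hn => (hn.2 x hx).1.symm))
  · exact tendsto_nhds_unique (c2.tendsto _)
      (tendsto_const_nhds.congr' (ev.mono fun n hn => (hn.2 x hx).2.symm))

theorem Dom.unif (h : Dom ρ) {l : Ultrafilter ℕ} {f : ℕ → ST → ℝ} (hf : LB l M 1 f) (s : ℝ)
    {η : ℝ} (hη : 0 < η) : ∀ᶠ n in l, ∀ x, ρ x < 0 → |ulim l f (s, x) - f n (s, x)| < η := by
  have hK : IsCompact (({s} : Set ℝ) ×ˢ closure {x | ρ x < 0}) := isCompact_singleton.prod h.compact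
  have := (tendstoLocallyUniformlyOn_iff_tendstoUniformlyOn_of_compact hK).1
    hf.tlu.tendstoLocallyUniformlyOn
  exact (Metric.tendstoUniformlyOn_iff.1 this η hη).mono fun n hn x hx =>
    hn (s, x) ⟨rfl, subset_closure hx⟩

theorem determining_gen (h : Dom ρ) (g₁ g₂ : ℝ × ℝ → ℝ) (M : ℝ) :
    ∃ (N : ℕ) (K : Fin N → ℝ × ℝ → ℝ), (∀ i, MemLp (K i) 2 (volume.restrict {x | ρ x < 0})) ∧
      ∀ u₁ u₂ p v₁ v₂ q : ST → ℝ, Traj {x | ρ x < 0} g₁ g₂ M u₁ u₂ p →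
        Traj {x | ρ x < 0} g₁ g₂ M v₁ v₂ q →
        (∀ (l : Ultrafilter ℕ) (t : ℕ → ℝ), Tendsto t l atTop → ∀ τ σ : Tr ρ g₁ g₂ M,
          τ.u1 = ulim l (fun n => shift (t n) u₁) → τ.u2 = ulim l (fun n => shift (t n) u₂) →
          σ.u1 = ulim l (fun n => shift (t n) v₁) → σ.u2 = ulim l (fun n => shift (t n) v₂) →
          (∀ s x, ρ x < 0 → pd e1 τ.p (s, x) = pd e1 σ.p (s, x) ∧
            pd e2 τ.p (s, x) = pd e2 σ.p (s, x)) →
          ∀ x, ρ x < 0 → τ.u1 (0, x) = σ.u1 (0, x) ∧ τ.u2 (0, x) = σ.u2 (0, x)) →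
        (∀ i, Tendsto (fun t => (∫ x in {x | ρ x < 0}, K i x * p (t, x))
          - ∫ x in {x | ρ x < 0}, K i x * q (t, x)) atTop (𝓝 0)) →
        Tendsto (fun t => ∫ x in {x | ρ x < 0},
          ((u₁ (t, x) - v₁ (t, x)) ^ 2 + (u₂ (t, x) - v₂ (t, x)) ^ 2)) atTop (𝓝 0) := by
  haveI : IsFiniteMeasure (volume.restrict {x | ρ x < 0}) := isFiniteMeasure_restrict.2 h.vol.ne
  obtain ⟨N, K, hK, hinj⟩ := Tr.functionals h g₁ g₂ M
  refine ⟨N, K, hK, fun u₁ u₂ p v₁ v₂ q hu hv huq hlim => ?_⟩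
  by_contra hne
  rw [Metric.tendsto_nhds] at hne
  push Not at hne
  obtain ⟨ε, hε, hfr⟩ := hne
  obtain ⟨t, ht0, hεt⟩ := exists_seq_forall_of_frequently hfr
  let l : Ultrafilter ℕ := Ultrafilter.of atTop
  have ht : Tendsto t l atTop := ht0.mono_left (Ultrafilter.of_le _)
  obtain ⟨τ, τ1, τ2, τ3⟩ := hu.lim ht
  obtain ⟨σ, σ1, σ2, σ3⟩ := hv.lim ht
  obtain ⟨b1, b2, b3⟩ := hu.lb ht
  obtain ⟨c1, c2, c3⟩ := hv.lb ht
  have iK : ∀ i, IntegrableOn (K i) {x | ρ x < 0} volume := fun i => (hK i).integrable one_le_two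
  have iKF : ∀ i (F : ℝ × ℝ → ℝ), Continuous F →
      IntegrableOn (fun x => K i x * F x) {x | ρ x < 0} volume := fun i F hF => by
    obtain ⟨D, -, hD⟩ := h.bound hF
    exact (iK i).mul_bdd hF.aestronglyMeasurable
      ((ae_restrict_iff' h.meas).2 (Eventually.of_forall hD))
  have conv : ∀ i (s : ℝ) (f : ℕ → ST → ℝ), LB l M 1 f →
      Tendsto (fun n => ∫ x in {x | ρ x < 0}, K i x * f n (s, x)) l
        (𝓝 (∫ x in {x | ρ x < 0}, K i x * ulim l f (s, x))) := fun i s f hf => by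
    have cl : Continuous (ulim l f) := (LB.contDiff 0 hf).continuous
    have I0 : 0 ≤ ∫ x in {x | ρ x < 0}, |K i x| := integral_nonneg fun _ => abs_nonneg _
    refine Metric.tendsto_nhds.2 fun η hη => ?_
    filter_upwards [h.unif hf s (η := η / ((∫ x in {x | ρ x < 0}, |K i x|) + 1)) (by positivity)]
      with n hn
    have cn := (hf.1 n).continuous
    have j1 := iKF i (fun x => f n (s, x)) (by fun_prop)
    have j2 := iKF i (fun x => ulim l f (s, x)) (by fun_prop)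
    rw [Real.dist_eq, ← integral_sub j1 j2]
    refine lt_of_le_of_lt (abs_integral_le_integral_abs.trans (setIntegral_mono_on
      (j1.sub j2).abs ((iK i).abs.mul_const (η / ((∫ x in {x | ρ x < 0}, |K i x|) + 1))) h.meas
      fun x hx => ?_)) ?_
    · rw [← mul_sub, abs_mul, abs_sub_comm]
      exact mul_le_mul_of_nonneg_left (hn x hx).le (abs_nonneg _)
    · rw [integral_mul_const, mul_div_assoc', div_lt_iff₀ (by positivity)]
      linarith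
  have hpq : ∀ s x, ρ x < 0 → pd e1 τ.p (s, x) = pd e1 σ.p (s, x) ∧
      pd e2 τ.p (s, x) = pd e2 σ.p (s, x) := fun s x hx => by
    have := hinj (τ.sh s) (σ.sh s) (fun i => ?_) x hx
    · simpa only [Tr.sh, pd_shift, shift_apply, zero_add] using this
    · have a := (conv i s _ (b3.mono (by norm_num))).sub (conv i s _ (c3.mono (by norm_num)))
      have b := (hlim i).comp (tendsto_atTop_add_const_left _ s ht)
      simp only [shift_apply] at a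
      have e := tendsto_nhds_unique a b
      have cp := τ.hp.continuous
      have cq := σ.hp.continuous
      simp only [Tr.sh, shift_apply, zero_add, mul_sub]
      rw [integral_sub (iKF i _ (by fun_prop)) (iKF i _ (by fun_prop)), τ3, σ3, e]
  have huv := huq l t ht τ σ τ1 τ2 σ1 σ2 hpq
  set V := volume.real {x | ρ x < 0} with hV
  have V0 : 0 ≤ V := measureReal_nonneg
  set η := min 1 (ε / (16 * (V + 1))) with hη
  have η0 : 0 < η := lt_min one_pos (by positivity)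
  obtain ⟨n, ⟨d1, d2⟩, d3, d4⟩ := (((h.unif (b1.mono (by norm_num)) 0 η0).and
    (h.unif (b2.mono (by norm_num)) 0 η0)).and ((h.unif (c1.mono (by norm_num)) 0 η0).and
    (h.unif (c2.mono (by norm_num)) 0 η0))).exists
  have := norm_setIntegral_le_of_norm_le_const (μ := volume) (s := {x | ρ x < 0})
    (f := fun x => (u₁ (t n, x) - v₁ (t n, x)) ^ 2 + (u₂ (t n, x) - v₂ (t n, x)) ^ 2)
    (C := 8 * η ^ 2) h.vol fun x hx => by
      obtain ⟨y1, y2⟩ := huv x hx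
      have z1 := abs_lt.1 (d1 x hx)
      have z2 := abs_lt.1 (d2 x hx)
      have z3 := abs_lt.1 (d3 x hx)
      have z4 := abs_lt.1 (d4 x hx)
      rw [← τ1, shift_apply, zero_add] at z1
      rw [← τ2, shift_apply, zero_add] at z2
      rw [← σ1, shift_apply, zero_add] at z3
      rw [← σ2, shift_apply, zero_add] at z4
      have w1 : |u₁ (t n, x) - v₁ (t n, x)| ≤ 2 * η :=
        abs_le.2 ⟨by linarith [z1.2, z3.1], by linarith [z1.1, z3.2]⟩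
      have w2 : |u₂ (t n, x) - v₂ (t n, x)| ≤ 2 * η :=
        abs_le.2 ⟨by linarith [z2.2, z4.1], by linarith [z2.1, z4.2]⟩
      rw [Real.norm_eq_abs, abs_of_nonneg (by positivity)]
      nlinarith [sq_le_of_abs w1, sq_le_of_abs w2]
  have k := hεt n
  rw [dist_zero_right] at k
  have η1 : η ≤ 1 := min_le_left _ _
  have η2 : η * (16 * (V + 1)) ≤ ε := (le_div_iff₀ (by positivity)).1 (min_le_right _ _)
  have η3 : η ^ 2 * V ≤ η * V := mul_le_mul_of_nonneg_right (by nlinarith) V0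
  nlinarith [k.trans this, mul_nonneg η0.le V0]

theorem determining (hρ : ContDiff ℝ (6 : ℕ) ρ) (hreg : ∀ x, ρ x = 0 → fderiv ℝ ρ x ≠ 0)
    (hb : Bornology.IsBounded {x | ρ x < 0}) (hc : IsPreconnected {x | ρ x < 0})
    (hg₁ : ContDiff ℝ (1 : ℕ) g₁) (hg₂ : ContDiff ℝ (1 : ℕ) g₂) {x₀ : ℝ × ℝ} (h0 : ρ x₀ = 0)
    (hk : curv2 ρ x₀ ≠ 0) (hg : pd (1, 0) g₂ x₀ - pd (0, 1) g₁ x₀ ≠ 0) (M : ℝ) :
    ∃ (N : ℕ) (K : Fin N → ℝ × ℝ → ℝ), (∀ i, MemLp (K i) 2 (volume.restrict {x | ρ x < 0})) ∧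
      ∀ u₁ u₂ p v₁ v₂ q : ST → ℝ, Traj {x | ρ x < 0} g₁ g₂ M u₁ u₂ p →
        Traj {x | ρ x < 0} g₁ g₂ M v₁ v₂ q →
        (∀ i, Tendsto (fun t => (∫ x in {x | ρ x < 0}, K i x * p (t, x))
          - ∫ x in {x | ρ x < 0}, K i x * q (t, x)) atTop (𝓝 0)) →
        Tendsto (fun t => ∫ x in {x | ρ x < 0},
          ((u₁ (t, x) - v₁ (t, x)) ^ 2 + (u₂ (t, x) - v₂ (t, x)) ^ 2)) atTop (𝓝 0) := by
  obtain ⟨N, K, hK, H⟩ := determining_gen (ρ := ρ) ⟨cdg_le hρ (by norm_num), hreg, hb⟩ g₁ g₂ M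
  exact ⟨N, K, hK, fun u₁ u₂ p v₁ v₂ q hu hv => H u₁ u₂ p v₁ v₂ q hu hv
    fun _ _ _ τ σ _ _ _ _ hpq => unique_of_pressure hρ hc hg₁ hg₂ h0 hk hg isOpen_univ τ.hu1 τ.hu2
      σ.hu1 σ.hu2 τ.hp (fun s _ => τ.ns s) (fun s _ => σ.ns s) (fun s _ => hpq s) 0 (mem_univ _)⟩

end Pool.Agent.MP_ed9623_an.H64
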