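import Pool.Agent.MP_ed9623_an.H64.Fin5b
import Pool.Agent.MP_ed9623_an.H64.Final4

open Filter Topology MeasureTheory Set
open scoped ContDiff

namespace Pool.Agent.MP_ed9623_an.H64

variable {ρ g₁ g₂ : ℝ × ℝ → ℝ}

theorem determining_zc (h : Dom ρ) (H : ZC ρ g₁ g₂) (M : ℕ → ℝ) :
    ∃ (N : ℕ) (K : Fin N → ℝ × ℝ → ℝ), (∀ i, MemLp (K i) 2 (volume.restrict {x | ρ x < 0})) ∧
      ∀ u₁ u₂ p v₁ v₂ q : ST → ℝ, Continuous u₁ → Continuous u₂ → Continuous v₁ → Continuous v₂ →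
        (∀ᶠ t in atTop, NS {x | ρ x < 0} g₁ g₂ u₁ u₂ p t) →
        (∀ᶠ t in atTop, NS {x | ρ x < 0} g₁ g₂ v₁ v₂ q t) →
        Cls ρ M u₁ → Cls ρ M u₂ → Cls ρ M p → Cls ρ M v₁ → Cls ρ M v₂ → Cls ρ M q →
        (∀ i, Tendsto (fun t => (∫ x in {x | ρ x < 0}, K i x * p (t, x))
          - ∫ x in {x | ρ x < 0}, K i x * q (t, x)) atTop (𝓝 0)) →
        Tendsto (fun t => ∫ x in {x | ρ x < 0},
          ((u₁ (t, x) - v₁ (t, x)) ^ 2 + (u₂ (t, x) - v₂ (t, x)) ^ 2)) atTop (𝓝 0) := by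
  obtain ⟨N, K, hK, H'⟩ := determining_gen h g₁ g₂ (M 7)
  refine ⟨N, K, hK, fun u₁ u₂ p v₁ v₂ q cu1 cu2 cv1 cv2 nu nv su1 su2 sp sv1 sv2 sq hlim => ?_⟩
  have tr : ∀ u₁ u₂ p : ST → ℝ, Continuous u₁ → Continuous u₂ →
      (∀ᶠ t in atTop, NS {x | ρ x < 0} g₁ g₂ u₁ u₂ p t) → Cls ρ M u₁ → Cls ρ M u₂ → Cls ρ M p →
      ∃ U₁ U₂ P, Traj {x | ρ x < 0} g₁ g₂ (M 7) U₁ U₂ P ∧ (∀ z : ST, ρ z.2 < 0 → u₁ z = U₁ z) ∧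
        (∀ z : ST, ρ z.2 < 0 → u₂ z = U₂ z) ∧ ∀ z : ST, ρ z.2 < 0 → p z = P z := by
    intro u₁ u₂ p c1 c2 n s1 s2 s3
    obtain ⟨U₁, a1, b1, d1⟩ := s1 7
    obtain ⟨U₂, a2, b2, d2⟩ := s2 7
    obtain ⟨P, a3, b3, d3⟩ := s3 7
    refine ⟨U₁, U₂, P, ⟨a1, a2, cdg_le (m := 3) a3 (by norm_num), ?_⟩, b1, b2, b3⟩
    filter_upwards [n, d1, d2, d3] with t k0 k1 k2 k3
    exact ⟨k0.congr h c1 c2 a1.continuous a2.continuous b1 b2 b3, fun x =>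
      ⟨fun j hj => ⟨k1 x j hj, k2 x j hj⟩, fun j hj => k3 x j (by omega)⟩⟩
  obtain ⟨U₁, U₂, P, hu, a1, a2, a3⟩ := tr _ _ _ cu1 cu2 nu su1 su2 sp
  obtain ⟨V₁, V₂, Q, hv, b1, b2, b3⟩ := tr _ _ _ cv1 cv2 nv sv1 sv2 sq
  refine (H' U₁ U₂ P V₁ V₂ Q hu hv (fun l t ht τ σ τ1 τ2 σ1 σ2 hpq x hx => ?_)
    fun i => (hlim i).congr fun t => ?_).congr fun t => ?_
  · have l2 := fun {f : ST → ℝ} (h : ContDiff ℝ (6 : ℕ) f) => cdg_le h (by norm_num : 2 ≤ 6)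
    have l4 := fun {f : ST → ℝ} (h : ContDiff ℝ (6 : ℕ) f) => cdg_le h (by norm_num : 4 ≤ 6)
    have l1 := fun {f : ST → ℝ} (h : ContDiff ℝ (6 : ℕ) f) => cdg_le h (by norm_num : 1 ≤ 6)
    have m1 := τ1 ▸ su1.sm a1 ht
    have m2 := τ2 ▸ su2.sm a2 ht
    have m3 := σ1 ▸ sv1.sm b1 ht
    have m4 := σ2 ▸ sv2.sm b2 ht
    have := H _ _ _ _ _ (l2 (cd_hsum τ.hu1 σ.hu1))
      (l2 (cd_hsum τ.hu2 σ.hu2)) (l4 (cd_hdif τ.hu1 σ.hu1)) (l4 (cd_hdif τ.hu2 σ.hu2)) τ.hp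
      (m1.hsum m3) (m2.hsum m4) (m1.hdif m3) (m2.hdif m4)
      (fun y hy => sys_of_NS (l2 τ.hu1) (l2 τ.hu2) (l2 σ.hu1) (l2 σ.hu2) (τ.ns y.1) (σ.ns y.1) hy
        (hpq y.1 y.2 hy).1 (hpq y.1 y.2 hy).2) (fun y hy => by
        have hf := mem_frontier_of_zero h.1.continuous hy (h.2.1 _ hy)
        obtain ⟨a1, a2⟩ := (τ.ns y.1).2 y.2 hf
        obtain ⟨b1, b2⟩ := (σ.ns y.1).2 y.2 hf
        simp only [Prod.mk.eta] at a1 a2 b1 b2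
        simp only [hsum, hdif, a1, a2, b1, b2]
        norm_num) (M 7)
      (fun y => ⟨abs_hdif (τ.b0 y).1 (σ.b0 y).1, abs_hdif (τ.b0 y).2 (σ.b0 y).2⟩) (fun y => by
        rw [vort, Pi.sub_apply, pd_hdif (l1 τ.hu1) (l1 σ.hu1), pd_hdif (l1 τ.hu2) (l1 σ.hu2)]
        linarith [abs_sub (hdif (pd e1 τ.u2) (pd e1 σ.u2) y) (hdif (pd e2 τ.u1) (pd e2 σ.u1) y),
          abs_hdif (τ.b1 y).2.1 (σ.b1 y).2.1, abs_hdif (τ.b1 y).2.2.1 (σ.b1 y).2.2.1]) x hx 0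
    unfold hdif at this
    constructor <;> linarith [this.1, this.2]
  · congr 1
    · exact setIntegral_congr_fun h.meas fun x hx => by rw [a3 (t, x) hx]
    · exact setIntegral_congr_fun h.meas fun x hx => by rw [b3 (t, x) hx]
  · exact setIntegral_congr_fun h.meas fun x hx => by
      simp only [a1 (t, x) hx, a2 (t, x) hx, b1 (t, x) hx, b2 (t, x) hx]

theorem determining5 (hρ : ContDiff ℝ ∞ ρ) (hreg : ∀ x, ρ x = 0 → fderiv ℝ ρ x ≠ 0)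
    (hb : Bornology.IsBounded {x | ρ x < 0}) (hc : IsPreconnected {x | ρ x < 0})
    (hg₁ : ContDiff ℝ ∞ g₁) (hg₂ : ContDiff ℝ ∞ g₂)
    (H : AnalyticOnNhd ℝ (fun x => pd (1, 0) g₂ x - pd (0, 1) g₁ x) {x | ρ x < 0} ∨
      ∃ x₀, ρ x₀ = 0 ∧ ((0 < curvature ρ x₀ ∧ ∃ᶠ x in 𝓝[{x | ρ x < 0}] x₀,
        ¬ AnalyticAt ℝ (fun x => pd (1, 0) g₂ x - pd (0, 1) g₁ x) x) ∨
      curvature ρ x₀ ≠ 0 ∧ ∀ L, Tendsto (fun x => (pd (1, 0) g₂ x - pd (0, 1) g₁ x) / ρ x ^ 6)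
        (𝓝[{x | ρ x < 0}] x₀) (𝓝 L) →
        IsPreconnected {x | ρ x = 0} ∧ dcurvature ρ x₀ ≠ 0 ∧ 0 ≤ L * dcurvature ρ x₀)) :
    ∃ (N : ℕ) (K : Fin N → ℝ × ℝ → ℝ), (∀ i, MemLp (K i) 2 (volume.restrict {x | ρ x < 0})) ∧
      ∀ u₁ u₂ p v₁ v₂ q : ST → ℝ, SmoothTraj {x | ρ x < 0} g₁ g₂ u₁ u₂ p →
        SmoothTraj {x | ρ x < 0} g₁ g₂ v₁ v₂ q →
        (∀ i, Tendsto (fun t => (∫ x in {x | ρ x < 0}, K i x * p (t, x))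
          - ∫ x in {x | ρ x < 0}, K i x * q (t, x)) atTop (𝓝 0)) →
        Tendsto (fun t => ∫ x in {x | ρ x < 0},
          ((u₁ (t, x) - v₁ (t, x)) ^ 2 + (u₂ (t, x) - v₂ (t, x)) ^ 2)) atTop (𝓝 0) := by
  have hρ' := contDiff_infty.1 hρ
  have h : Dom ρ := ⟨hρ' 1, hreg, hb⟩
  have zc : ZC ρ g₁ g₂ := by
    rcases H with H | ⟨x₀, h0, ⟨hk, H⟩ | ⟨hk, H⟩⟩
    · intro a1 a2 w1 w2 P b1 b2 b3 b4 b5 b6 b7 b8 b9 hS hB M hM hM' x hx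
      obtain ⟨x₀, h0, hk⟩ := convex_pt (hρ' 2) h hx
      exact zc_ana hρ' h hc ⟨g₁, hg₁⟩ ⟨g₂, hg₂⟩ h0 hk (fun _ => H) _ _ _ _ _ b1 b2 b3 b4 b5 b6 b7 b8
        b9 hS hB M hM hM' x hx
    · obtain ⟨c, d, -, d0, e, -⟩ := kap2_eq hρ' (hreg _ h0)
      exact zc_ana hρ' h hc ⟨g₁, hg₁⟩ ⟨g₂, hg₂⟩ h0 (e ▸ mul_pos d0 hk)
        fun k => (H (k.mono fun _ => not_not.2)).elim
    · obtain ⟨k1, k2⟩ := hyp_conv hρ' (hreg _ h0) hk H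
      exact fun _ _ _ _ _ b1 b2 b3 b4 b5 b6 b7 b8 b9 hS hB _ => zero_of_complete hρ' h hc
        (contDiff_infty.1 hg₁) (contDiff_infty.1 hg₂) h0 k1 k2 b1 b2 b3 b4 b5 b6 b7 b8 b9 hS hB
  let Q : Dm := ⟨⟨ρ, hρ⟩, hreg, hb⟩
  obtain ⟨M, hM⟩ := cls_sol (Q := Q) (g1 := ⟨g₁, hg₁⟩) (g2 := ⟨g₂, hg₂⟩) hc
  obtain ⟨N, K, hK, H'⟩ := determining_zc h zc M
  refine ⟨N, K, hK, fun u₁ u₂ p v₁ v₂ q ⟨a1, a2, a3, a4⟩ ⟨b1, b2, b3, b4⟩ => ?_⟩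
  obtain ⟨c1, c2, c3⟩ := hM ⟨⟨u₁, a1⟩, ⟨u₂, a2⟩, ⟨p, a3⟩, a4.mono fun _ h => h.1,
    a4.mono fun _ h => h.2⟩
  obtain ⟨d1, d2, d3⟩ := hM ⟨⟨v₁, b1⟩, ⟨v₂, b2⟩, ⟨q, b3⟩, b4.mono fun _ h => h.1,
    b4.mono fun _ h => h.2⟩
  exact H' _ _ _ _ _ _ a1.continuous a2.continuous b1.continuous b2.continuous
    (a4.mono fun _ h => h.1) (b4.mono fun _ h => h.1) c1 c2 c3 d1 d2 d3

end Pool.Agent.MP_ed9623_an.H64
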