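import Pool.Agent.MP_ed9623_an.H64.Energy

open Filter Topology MeasureTheory Set

namespace Pool.Agent.MP_ed9623_an.H64

theorem landau {m m' m'' : ℝ → ℝ} (h1 : ∀ t, HasDerivAt m (m' t) t)
    (h2 : ∀ t, HasDerivAt m' (m'' t) t) {A B θ : ℝ} (hθ : 0 < θ)
    (hA : ∀ t ∈ Icc 0 θ, |m t| ≤ A * θ ^ 2) (hB : ∀ t, |m'' t| ≤ B) :
    |m' 0| ≤ (2 * A + B) * θ := by
  obtain ⟨ξ, hξ, e1⟩ := exists_hasDerivAt_eq_slope m m' hθ
    (fun s _ => (h1 s).continuousAt.continuousWithinAt) (fun s _ => h1 s)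
  obtain ⟨η, -, e2⟩ := exists_hasDerivAt_eq_slope m' m'' hξ.1
    (fun s _ => (h2 s).continuousAt.continuousWithinAt) (fun s _ => h2 s)
  rw [sub_zero, eq_div_iff hθ.ne'] at e1
  rw [sub_zero, eq_div_iff hξ.1.ne'] at e2
  have a1 := abs_le.1 (hA θ ⟨hθ.le, le_rfl⟩)
  have a2 := abs_le.1 (hA 0 ⟨le_rfl, hθ.le⟩)
  have a3 := abs_le.1 (hB η)
  have B0 : 0 ≤ B := (abs_nonneg _).trans (hB 0)
  have b1 : m' ξ ≤ 2 * A * θ := le_of_mul_le_mul_right (by nlinarith) hθ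
  have b2 : -(2 * A * θ) ≤ m' ξ := le_of_mul_le_mul_right (by nlinarith) hθ
  have b3 := mul_le_mul_of_nonneg_left hξ.2.le B0
  rw [abs_le]
  constructor <;> nlinarith [hξ.1, mul_le_mul_of_nonneg_right a3.1 hξ.1.le,
    mul_le_mul_of_nonneg_right a3.2 hξ.1.le]

variable {ρ : ℝ × ℝ → ℝ} {M : ℝ} {a1 a2 w1 w2 r : ST → ℝ}

theorem Dom.l1_le (h : Dom ρ) {F R : ℝ × ℝ → ℝ} (hF : Continuous F) (hR : Continuous R)
    (hle : ∀ x, F x ^ 2 ≤ R x) {Q θ : ℝ} (hQ : ∫ x in {x | ρ x < 0}, R x ≤ Q * θ ^ 4) :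
    ∫ x in {x | ρ x < 0}, |F x| ≤ Real.sqrt (volume.real {x | ρ x < 0} * Q) * θ ^ 2 := by
  have a := h.sq_int_le hF
  have b : ∫ x in {x | ρ x < 0}, F x ^ 2 ≤ ∫ x in {x | ρ x < 0}, R x :=
    integral_mono (h.int (by fun_prop)) (h.int hR) hle
  have V0 : 0 ≤ volume.real {x | ρ x < 0} := measureReal_nonneg
  have c := a.trans (mul_le_mul_of_nonneg_left (b.trans hQ) V0)
  have d : Real.sqrt (volume.real {x | ρ x < 0} * Q) * θ ^ 2
      = Real.sqrt (volume.real {x | ρ x < 0} * (Q * θ ^ 4)) := by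
    rw [← mul_assoc, Real.sqrt_mul' _ (by positivity : 0 ≤ θ ^ 4),
      (by ring : θ ^ 4 = (θ ^ 2) ^ 2), Real.sqrt_sq (by positivity)]
  rw [d]
  exact Real.le_sqrt_of_sq_le c

theorem Lin.hold_aux (h : Dom ρ) (L : Lin ρ M a1 a2 w1 w2 r) {w a : ST → ℝ} {f : ℝ × ℝ}
    (hw : ContDiff ℝ (2 : ℕ) w) (ha : ContDiff ℝ (1 : ℕ) a)
    (heq : ∀ z : ST, ρ z.2 < 0 →
      heat a1 a2 w z + (w1 z * pd e1 a z + w2 z * pd e2 a z) + pd (0, f) r z = 0)
    (hb1 : ∀ z, |pd e1 a z| ≤ M ∧ |pd e2 a z| ≤ M) (hb2 : ∀ z, |pd e0 (pd e0 w) z| ≤ M)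
    (hw0 : ∀ z, w z ^ 2 ≤ w1 z ^ 2 + w2 z ^ 2) (hw1 : ∀ z, gr w z ≤ gr w1 z + gr w2 z)
    {ζ : ℝ × ℝ → ℝ} (hζ : ContDiff ℝ (1 : ℕ) ζ) (hζ0 : ∀ x, ρ x = 0 → ζ x = 0)
    (hζ1 : ∀ x, ρ x < 0 → |ζ x| ≤ 1 ∧ |pd (1, 0) ζ x| ≤ 1 ∧ |pd (0, 1) ζ x| ≤ 1)
    {R θ : ℝ} (hθ : 0 < θ) (hθ1 : θ ≤ 1) (hE : En ρ w1 w2 (-1) ≤ R * θ ^ 4) :
    |∫ x in {x | ρ x < 0}, pd f ζ x * r (0, x)|
      ≤ ((4 * M + 4) * Real.sqrt (volume.real {x | ρ x < 0}
        * (Real.exp (2 * (12 * M ^ 2 + 2)) * R)) + M * volume.real {x | ρ x < 0}) * θ := by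
  set V := volume.real {x | ρ x < 0} with hV
  set Q := Real.exp (2 * (12 * M ^ 2 + 2)) * R with hQ
  set S := Real.sqrt (V * Q) with hS
  have S0 : 0 ≤ S := Real.sqrt_nonneg _
  have M0 : 0 ≤ M := (abs_nonneg _).trans (hb2 0)
  have sm : ∀ t ∈ Icc (-1 : ℝ) 1, En ρ w1 w2 t + (t + 1) * Gn ρ w1 w2 t ≤ Q * θ ^ 4 :=
    fun t ht => (L.smoothing h ht).trans (by
      rw [hQ, mul_assoc]; exact mul_le_mul_of_nonneg_left hE (Real.exp_pos _).le)
  have smE : ∀ t ∈ Icc (0 : ℝ) 1, En ρ w1 w2 t ≤ Q * θ ^ 4 := fun t ht => by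
    have := sm t ⟨by linarith [ht.1], ht.2⟩
    nlinarith [mul_nonneg (by linarith [ht.1] : 0 ≤ t + 1) (Gn_nonneg ρ w1 w2 t)]
  have smG : Gn ρ w1 w2 0 ≤ Q * θ ^ 4 := by
    have := sm 0 ⟨by norm_num, by norm_num⟩
    linarith [En_nonneg ρ w1 w2 0]
  have cw := hw.continuous
  have c1 := L.hw1.continuous
  have c2 := L.hw2.continuous
  have g1 := ct_gr L.hw1
  have g2 := ct_gr L.hw2
  have p := fun e => contDiff_pd (n := 1) e hw
  have cp1 := (p e1).continuous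
  have cp2 := (p e2).continuous
  have cp0 := (p e0).continuous
  have ca1 := L.ha1.continuous
  have ca2 := L.ha2.continuous
  have cb1 := (contDiff_pd (n := 0) e1 ha).continuous
  have cb2 := (contDiff_pd (n := 0) e2 ha).continuous
  have cr := L.hr.continuous
  have cζ := hζ.continuous
  have cζ1 := (contDiff_pd (n := 0) (1, 0) hζ).continuous
  have cζ2 := (contDiff_pd (n := 0) (0, 1) hζ).continuous
  have cζf := (contDiff_pd (n := 0) f hζ).continuous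
  have hZ : ContDiff ℝ (1 : ℕ) fun z : ST => ζ z.2 := hζ.comp contDiff_snd
  have u := cdg_le hw (by norm_num : 1 ≤ 2)
  have dZ : ∀ (e z : ST), HD e z (fun z : ST => ζ z.2) (pd e.2 ζ z.2) := fun e z => by
    rw [← pd_snd (cdg_diff hζ le_rfl z.2)]; exact HD.of_diff (cdg_diff hZ le_rfl z)
  have D := fun {f : ST → ℝ} (h : ContDiff ℝ (1 : ℕ) f) e z =>
    HD.of_diff (e := e) (cdg_diff h le_rfl z)
  have pz : ∀ {F : ST → ℝ}, ContDiff ℝ (1 : ℕ) F → ∀ e z, pd e (fun y => ζ y.2 * F y) z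
      = pd e.2 ζ z.2 * F z + ζ z.2 * pd e F z := fun hF e z =>
    ((dZ e z).mul (D hF e z)).pd_eq (cdg_diff (hZ.mul hF) le_rfl z)
  have pz0 : ∀ x, pd (0, 0) ζ x = 0 := fun x => by unfold pd; simp [Prod.mk_zero_zero]
  have m1 := h.hasDerivAt (hZ.mul u)
  have m2 := h.hasDerivAt (hZ.mul (p e0))
  simp only [pz u, pz (p e0), pz0, zero_mul, zero_add] at m1 m2
  have lan := landau m1 m2 (A := S) (B := M * V) hθ (fun t ht => by
      refine abs_integral_le_integral_abs.trans (le_trans ?_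
        (h.l1_le (F := fun x => w (t, x)) (R := fun x => w1 (t, x) ^ 2 + w2 (t, x) ^ 2)
          (by fun_prop) (by fun_prop) (fun x => hw0 _) (smE t ⟨ht.1, ht.2.trans hθ1⟩)))
      refine setIntegral_mono_on (h.int (by fun_prop)) (h.int (by fun_prop)) h.meas fun x hx => ?_
      rw [abs_mul]
      exact mul_le_of_le_one_left (abs_nonneg _) (hζ1 x hx).1)
    (fun t => by
      have := norm_setIntegral_le_of_norm_le_const (μ := volume) (s := {x | ρ x < 0})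
        (f := fun x => ζ x * pd e0 (pd e0 w) (t, x)) (C := M) h.vol fun x hx => by
          rw [Real.norm_eq_abs, abs_mul]
          exact (mul_le_of_le_one_left (abs_nonneg _) (hζ1 x hx).1).trans (hb2 _)
      exact this)
  have z0 := h.div_zero (t := 0) (hZ.mul L.hr) (fun x hx => by simp [hζ0 x hx]) f
  have z1 := h.div_zero (t := 0) (hZ.mul (p e1)) (fun x hx => by simp [hζ0 x hx]) (1, 0)
  have z2 := h.div_zero (t := 0) (hZ.mul (p e2)) (fun x hx => by simp [hζ0 x hx]) (0, 1)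
  let N : ℝ × ℝ → ℝ := fun x => ζ x * (a1 (0, x) * pd e1 w (0, x) + a2 (0, x) * pd e2 w (0, x)
    + (w1 (0, x) * pd e1 a (0, x) + w2 (0, x) * pd e2 a (0, x)))
    + (pd (1, 0) ζ x * pd e1 w (0, x) + pd (0, 1) ζ x * pd e2 w (0, x))
  have cN : Continuous N := by simp only [N]; fun_prop
  have i0 := h.intST (contDiff_pd (n := 0) (0, f) (hZ.mul L.hr)).continuous 0
  have i1 := h.intST (contDiff_pd (n := 0) e1 (hZ.mul (p e1))).continuous 0
  have i2 := h.intST (contDiff_pd (n := 0) e2 (hZ.mul (p e2))).continuous 0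
  have i3 := h.int (F := fun x => ζ x * pd e0 w (0, x)) (by fun_prop)
  have idn : ∫ x in {x | ρ x < 0}, pd f ζ x * r (0, x)
      = (∫ x in {x | ρ x < 0}, ζ x * pd e0 w (0, x)) + ∫ x in {x | ρ x < 0}, N x := by
    have j1 : IntegrableOn (fun x => pd (0, f) (fun y => ζ y.2 * r y) (0, x)
      - pd e1 (fun y => ζ y.2 * pd e1 w y) (0, x)) {x | ρ x < 0} volume := i0.sub i1
    have j2 : IntegrableOn (fun x => pd (0, f) (fun y => ζ y.2 * r y) (0, x)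
      - pd e1 (fun y => ζ y.2 * pd e1 w y) (0, x)
      - pd e2 (fun y => ζ y.2 * pd e2 w y) (0, x)) {x | ρ x < 0} volume := j1.sub i2
    have j3 : IntegrableOn (fun x => ζ x * pd e0 w (0, x) + N x) {x | ρ x < 0} volume :=
      i3.add (h.int cN)
    have : ∫ x in {x | ρ x < 0}, pd f ζ x * r (0, x)
        = ∫ x in {x | ρ x < 0}, ((pd (0, f) (fun y => ζ y.2 * r y) (0, x)
          - pd e1 (fun y => ζ y.2 * pd e1 w y) (0, x)
          - pd e2 (fun y => ζ y.2 * pd e2 w y) (0, x)) + (ζ x * pd e0 w (0, x) + N x)) := by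
      refine setIntegral_congr_fun h.meas fun x hx => ?_
      have q := heq (0, x) hx
      unfold heat at q
      simp only [pz L.hr, pz (p e1), pz (p e2), N]
      linear_combination (-ζ x) * q
    rw [this, integral_add j2 j3, integral_sub j1 i2, integral_sub i0 i1,
      integral_add i3 (h.int cN), z0, z1, z2]
    ring
  have l1 := h.l1_le (F := fun x => pd e1 w (0, x)) (R := fun x => gr w1 (0, x) + gr w2 (0, x))
    (by fun_prop) (by fun_prop) (fun x => le_trans (by unfold gr; nlinarith [sq_nonneg (pd e2 w (0, x))])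
      (hw1 _)) smG
  have l2 := h.l1_le (F := fun x => pd e2 w (0, x)) (R := fun x => gr w1 (0, x) + gr w2 (0, x))
    (by fun_prop) (by fun_prop) (fun x => le_trans (by unfold gr; nlinarith [sq_nonneg (pd e1 w (0, x))])
      (hw1 _)) smG
  have l3 := h.l1_le (F := fun x => w1 (0, x)) (R := fun x => w1 (0, x) ^ 2 + w2 (0, x) ^ 2)
    (by fun_prop) (by fun_prop) (fun x => by nlinarith [sq_nonneg (w2 (0, x))])
    (smE 0 ⟨le_rfl, zero_le_one⟩)
  have l4 := h.l1_le (F := fun x => w2 (0, x)) (R := fun x => w1 (0, x) ^ 2 + w2 (0, x) ^ 2)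
    (by fun_prop) (by fun_prop) (fun x => by nlinarith [sq_nonneg (w1 (0, x))])
    (smE 0 ⟨le_rfl, zero_le_one⟩)
  have bN : |∫ x in {x | ρ x < 0}, N x| ≤ (4 * M + 2) * (S * θ ^ 2) := by
    have k1 := h.int (F := fun x => |pd e1 w (0, x)|) (by fun_prop)
    have k2 := h.int (F := fun x => |pd e2 w (0, x)|) (by fun_prop)
    have k3 := h.int (F := fun x => |w1 (0, x)|) (by fun_prop)
    have k4 := h.int (F := fun x => |w2 (0, x)|) (by fun_prop)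
    have k5 := h.int (F := fun x => (M + 1) * (|pd e1 w (0, x)| + |pd e2 w (0, x)|)) (by fun_prop)
    have k6 := h.int (F := fun x => M * (|w1 (0, x)| + |w2 (0, x)|)) (by fun_prop)
    have : ∫ x in {x | ρ x < 0}, |N x| ≤ ∫ x in {x | ρ x < 0},
        ((M + 1) * (|pd e1 w (0, x)| + |pd e2 w (0, x)|) + M * (|w1 (0, x)| + |w2 (0, x)|)) := by
      refine setIntegral_mono_on (h.int cN.abs) (k5.add k6) h.meas fun x hx => ?_
      obtain ⟨y0, y1, y2⟩ := hζ1 x hx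
      have t : ∀ a b C : ℝ, |a| ≤ C → |a * b| ≤ C * |b| := fun a b C h => by
        rw [abs_mul]; exact mul_le_mul_of_nonneg_right h (abs_nonneg _)
      have t1 := abs_le.1 (t _ (pd e1 w (0, x)) _ (L.b0 (0, x)).1)
      have t2 := abs_le.1 (t _ (pd e2 w (0, x)) _ (L.b0 (0, x)).2)
      have t3 := abs_le.1 (t _ (w1 (0, x)) _ (hb1 (0, x)).1)
      have t4 := abs_le.1 (t _ (w2 (0, x)) _ (hb1 (0, x)).2)
      have t5 := t _ (pd e1 w (0, x)) _ y1
      have t6 := t _ (pd e2 w (0, x)) _ y2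
      simp only [N]
      refine (abs_add_le _ _).trans ?_
      have t7 := (t _ (a1 (0, x) * pd e1 w (0, x) + a2 (0, x) * pd e2 w (0, x)
        + (w1 (0, x) * pd e1 a (0, x) + w2 (0, x) * pd e2 a (0, x))) _ y0)
      have t8 : |a1 (0, x) * pd e1 w (0, x) + a2 (0, x) * pd e2 w (0, x)
          + (w1 (0, x) * pd e1 a (0, x) + w2 (0, x) * pd e2 a (0, x))|
          ≤ M * (|pd e1 w (0, x)| + |pd e2 w (0, x)|) + M * (|w1 (0, x)| + |w2 (0, x)|) :=
        abs_le.2 ⟨by linarith [t1.1, t2.1, t3.1, t4.1], by linarith [t1.2, t2.2, t3.2, t4.2]⟩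
      linarith [abs_add_le (pd (1, 0) ζ x * pd e1 w (0, x)) (pd (0, 1) ζ x * pd e2 w (0, x))]
    rw [integral_add k5 k6, integral_const_mul, integral_const_mul, integral_add k1 k2,
      integral_add k3 k4] at this
    refine abs_integral_le_integral_abs.trans (this.trans ?_)
    nlinarith [mul_le_mul_of_nonneg_left (add_le_add l1 l2) (by linarith : 0 ≤ M + 1),
      mul_le_mul_of_nonneg_left (add_le_add l3 l4) M0]
  rw [idn]
  refine (abs_add_le _ _).trans ?_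
  have : S * θ ^ 2 ≤ S * θ := mul_le_mul_of_nonneg_left (by nlinarith) S0
  nlinarith [mul_le_mul_of_nonneg_left this (by linarith : 0 ≤ 4 * M + 2)]

theorem Lin.hold (h : Dom ρ) (L : Lin ρ M a1 a2 w1 w2 r)
    {ζ : ℝ × ℝ → ℝ} (hζ : ContDiff ℝ (1 : ℕ) ζ) (hζ0 : ∀ x, ρ x = 0 → ζ x = 0)
    (hζ1 : ∀ x, ρ x < 0 → |ζ x| ≤ 1 ∧ |pd (1, 0) ζ x| ≤ 1 ∧ |pd (0, 1) ζ x| ≤ 1)
    {R θ : ℝ} (hθ : 0 < θ) (hθ1 : θ ≤ 1) (hE : En ρ w1 w2 (-1) ≤ R * θ ^ 4) (b : Bool) :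
    |∫ x in {x | ρ x < 0}, pd (if b then (1, 0) else (0, 1)) ζ x * r (0, x)|
      ≤ ((4 * M + 4) * Real.sqrt (volume.real {x | ρ x < 0}
        * (Real.exp (2 * (12 * M ^ 2 + 2)) * R)) + M * volume.real {x | ρ x < 0}) * θ := by
  cases b
  · exact L.hold_aux h L.hw2 L.ha2 (fun z hz => (L.eq z hz).2.1) (fun z => (L.b1 z).2.2)
      (fun z => (L.b2 z).2) (fun z => by nlinarith [sq_nonneg (w1 z)])
      (fun z => by linarith [gr_nonneg w1 z]) hζ hζ0 hζ1 hθ hθ1 hE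
  · exact L.hold_aux h L.hw1 L.ha1 (fun z hz => (L.eq z hz).1)
      (fun z => ⟨(L.b1 z).1, (L.b1 z).2.1⟩) (fun z => (L.b2 z).1)
      (fun z => by nlinarith [sq_nonneg (w2 z)]) (fun z => by linarith [gr_nonneg w2 z])
      hζ hζ0 hζ1 hθ hθ1 hE

end Pool.Agent.MP_ed9623_an.H64
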