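import Pool.Agent.MP_ed9623_an.H64.Divide
import Pool.Agent.MP_ed9623_an.H64.Carl1

open Filter Topology MeasureTheory Set

namespace Pool.Agent.MP_ed9623_an.H64

section general
variable {E : Type*} [NormedAddCommGroup E] [NormedSpace ℝ E]

theorem mem_closure_neg {r : E → ℝ} {z : E} (h0 : r z = 0) (hd : fderiv ℝ r z ≠ 0) :
    z ∈ closure {y | r y < 0} := by
  rw [mem_closure_iff_frequently]
  by_contra h
  rw [not_frequently] at h
  have : IsLocalMin r z := by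
    filter_upwards [h] with y hy
    rw [h0]; exact not_lt.1 hy
  exact hd this.fderiv_eq_zero

theorem mem_closure_pos {r : E → ℝ} {z : E} (h0 : r z = 0) (hd : fderiv ℝ r z ≠ 0) :
    z ∈ closure {y | 0 < r y} := by
  rw [mem_closure_iff_frequently]
  by_contra h
  rw [not_frequently] at h
  have : IsLocalMax r z := by
    filter_upwards [h] with y hy
    rw [h0]; exact not_lt.1 hy
  exact hd this.fderiv_eq_zero

theorem HD.pow {e z : E} {f : E → ℝ} {f' : ℝ} (hf : HD e z f f') (m : ℕ) :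
    HD e z (fun y => f y ^ (m + 1)) ((m + 1) * f z ^ m * f') := by
  have := HasDerivAt.fun_pow hf (m + 1)
  unfold HD
  simpa using this

theorem pd_pow_mul {r h f : E → ℝ} {z : E} (e : E) (m : ℕ) (hr : ContDiffAt ℝ (1 : ℕ) r z)
    (hh : ContDiffAt ℝ (1 : ℕ) h z) (hf : f =ᶠ[𝓝 z] fun y => r y ^ (m + 1) * h y) :
    pd e f =ᶠ[𝓝 z] fun y => r y ^ m * ((m + 1) * pd e r y * h y + r y * pd e h y) := by
  filter_upwards [pd_congr e hf, cd_eventually hr, cd_eventually hh] with y h1 h2 h3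
  have d2 := cd_diff h2 le_rfl
  have d3 := cd_diff h3 le_rfl
  rw [h1, (((HD.of_diff (e := e) d2).pow m).mul (HD.of_diff d3)).pd_eq ((d2.pow _).mul d3)]
  ring

/-- `f = r ^ m * h` near `z` with `h` of class `C^k` vanishing at `z`. -/
def Van (r : E → ℝ) (z : E) (m k : ℕ) (f : E → ℝ) : Prop :=
  ∃ h : E → ℝ, ContDiffAt ℝ k h z ∧ h z = 0 ∧ f =ᶠ[𝓝 z] fun y => r y ^ m * h y

theorem Van.pd {r f : E → ℝ} {z : E} {m k : ℕ} (hr : ContDiffAt ℝ (k + 1 : ℕ) r z)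
    (h0 : r z = 0) (h : Van r z (m + 1) (k + 1) f) (e : E) : Van r z m k (pd e f) := by
  obtain ⟨h, a1, a2, a3⟩ := h
  refine ⟨_, ?_, ?_, pd_pow_mul e m (cd_le hr (by omega)) (cd_le a1 (by omega)) a3⟩
  · exact ((contDiffAt_const.mul (contDiffAt_pd e hr)).mul (cd_le a1 (by omega))).add
      ((cd_le hr (by omega)).mul (contDiffAt_pd e a1))
  · simp only [a2, h0]; ring

theorem Van.zero {r f : E → ℝ} {z : E} {m k : ℕ} (h : Van r z m k f) : f z = 0 := by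
  obtain ⟨h, -, a2, a3⟩ := h
  rw [a3.eq_of_nhds, a2, mul_zero]

theorem pd_zero_on_open {f : E → ℝ} {z : E} (e : E) (h : ∀ᶠ y in 𝓝 z, f y = 0) :
    ∀ᶠ y in 𝓝 z, pd e f y = 0 := by
  have h1 := pd_congr e (f := f) (g := fun _ => 0) h
  rwa [pd_zero_fun] at h1

theorem pd_comm_fun {f : E → ℝ} (e e' : E) (hf : ContDiff ℝ (2 : ℕ) f) :
    pd e (pd e' f) = pd e' (pd e f) := funext fun _ => pd_comm e e' hf.contDiffAt

end general

theorem tangent_alg {r1 r2 r11 r12 r22 A1 A2 W1 W2 : ℝ} (hA : A1 * r1 + A2 * r2 = 0)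
    (hW : W1 * r1 + W2 * r2 = 0)
    (hH : A1 * W1 * r11 + A1 * W2 * r12 + A2 * W1 * r12 + A2 * W2 * r22 = 0)
    (hk : r11 * r2 ^ 2 - 2 * r12 * r1 * r2 + r22 * r1 ^ 2 ≠ 0) (hW0 : W1 ≠ 0 ∨ W2 ≠ 0) :
    A1 = 0 ∧ A2 = 0 := by
  have hr : r1 ^ 2 + r2 ^ 2 ≠ 0 := by
    intro h
    have a1 : r1 = 0 := by nlinarith [sq_nonneg r1, sq_nonneg r2]
    have a2 : r2 = 0 := by nlinarith [sq_nonneg r1, sq_nonneg r2]
    apply hk; rw [a1, a2]; ring
  have b1 : A1 * (r1 ^ 2 + r2 ^ 2) = -(A2 * r1 - A1 * r2) * r2 := by linear_combination r1 * hA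
  have b2 : A2 * (r1 ^ 2 + r2 ^ 2) = (A2 * r1 - A1 * r2) * r1 := by linear_combination r2 * hA
  have c1 : W1 * (r1 ^ 2 + r2 ^ 2) = -(W2 * r1 - W1 * r2) * r2 := by linear_combination r1 * hW
  have c2 : W2 * (r1 ^ 2 + r2 ^ 2) = (W2 * r1 - W1 * r2) * r1 := by linear_combination r2 * hW
  have hw : W2 * r1 - W1 * r2 ≠ 0 := by
    intro h
    rw [h] at c1 c2
    rcases hW0 with h' | h'
    · exact h' ((mul_eq_zero.1 (by linarith)).resolve_right hr)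
    · exact h' ((mul_eq_zero.1 (by linarith)).resolve_right hr)
  have key : (A2 * r1 - A1 * r2) * ((W2 * r1 - W1 * r2)
      * (r11 * r2 ^ 2 - 2 * r12 * r1 * r2 + r22 * r1 ^ 2)) = 0 := by
    have : (A1 * (r1 ^ 2 + r2 ^ 2)) * (W1 * (r1 ^ 2 + r2 ^ 2)) * r11
      + (A1 * (r1 ^ 2 + r2 ^ 2)) * (W2 * (r1 ^ 2 + r2 ^ 2)) * r12
      + (A2 * (r1 ^ 2 + r2 ^ 2)) * (W1 * (r1 ^ 2 + r2 ^ 2)) * r12
      + (A2 * (r1 ^ 2 + r2 ^ 2)) * (W2 * (r1 ^ 2 + r2 ^ 2)) * r22 = 0 := by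
      linear_combination (r1 ^ 2 + r2 ^ 2) ^ 2 * hH
    rw [b1, b2, c1, c2] at this
    linear_combination this
  have ha : A2 * r1 - A1 * r2 = 0 := (mul_eq_zero.1 key).resolve_right (mul_ne_zero hw hk)
  rw [ha] at b1 b2
  exact ⟨(mul_eq_zero.1 (by linarith)).resolve_right hr,
    (mul_eq_zero.1 (by linarith)).resolve_right hr⟩

noncomputable def curv (r : ST → ℝ) (z : ST) : ℝ :=
  pd e1 (pd e1 r) z * pd e2 r z ^ 2 - 2 * pd e1 (pd e2 r) z * pd e1 r z * pd e2 r z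
    + pd e2 (pd e2 r) z * pd e1 r z ^ 2

theorem fderiv_ne_of_curv {r : ST → ℝ} {z : ST} (h : curv r z ≠ 0) : fderiv ℝ r z ≠ 0 := by
  intro h0
  apply h
  have : ∀ e, pd e r z = 0 := fun e => by unfold pd; rw [h0]; rfl
  unfold curv
  rw [this e1, this e2]; ring

theorem jet_step {r a1 a2 w1 w2 A1 A2 W1 W2 : ST → ℝ} {z : ST} (m : ℕ)
    (hr : ContDiffAt ℝ (2 : ℕ) r z) (hA1 : ContDiffAt ℝ (2 : ℕ) A1 z)
    (hA2 : ContDiffAt ℝ (2 : ℕ) A2 z) (hW1 : ContDiffAt ℝ (2 : ℕ) W1 z)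
    (hW2 : ContDiffAt ℝ (2 : ℕ) W2 z) (h0 : r z = 0) (hk : curv r z ≠ 0)
    (hW : W1 z ≠ 0 ∨ W2 z ≠ 0)
    (ea1 : a1 =ᶠ[𝓝 z] fun y => r y ^ (m + 1) * A1 y)
    (ea2 : a2 =ᶠ[𝓝 z] fun y => r y ^ (m + 1) * A2 y)
    (ew1 : w1 =ᶠ[𝓝 z] fun y => r y ^ (0 + 1) * W1 y)
    (ew2 : w2 =ᶠ[𝓝 z] fun y => r y ^ (0 + 1) * W2 y)
    (heq : ∀ᶠ y in 𝓝 z, r y < 0 → pd e1 a1 y + pd e2 a2 y = 0 ∧ pd e1 w1 y + pd e2 w2 y = 0 ∧
      pd e1 a1 y * pd e1 w1 y + pd e2 a1 y * pd e1 w2 y + pd e1 a2 y * pd e2 w1 y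
        + pd e2 a2 y * pd e2 w2 y = 0) : A1 z = 0 ∧ A2 z = 0 := by
  have r1 := cd_le hr (by norm_num : 1 ≤ 2)
  have A11 := cd_le hA1 (by norm_num : 1 ≤ 2)
  have A21 := cd_le hA2 (by norm_num : 1 ≤ 2)
  have W11 := cd_le hW1 (by norm_num : 1 ≤ 2)
  have W21 := cd_le hW2 (by norm_num : 1 ≤ 2)
  have dr := fun e => contDiffAt_pd (n := 1) e hr
  have dA1 := fun e => contDiffAt_pd (n := 1) e hA1
  have dA2 := fun e => contDiffAt_pd (n := 1) e hA2
  have dW1 := fun e => contDiffAt_pd (n := 1) e hW1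
  have dW2 := fun e => contDiffAt_pd (n := 1) e hW2
  let α : ST → ℝ := fun y => (m + 1) * (A1 y * pd e1 r y + A2 y * pd e2 r y)
    + r y * (pd e1 A1 y + pd e2 A2 y)
  let β : ST → ℝ := fun y => (W1 y * pd e1 r y + W2 y * pd e2 r y)
    + r y * (pd e1 W1 y + pd e2 W2 y)
  let γ : ST → ℝ := fun y => r y * ((pd e1 A1 y + pd e2 A2 y) * (pd e1 W1 y + pd e2 W2 y)
      + (pd e1 A1 y * pd e1 W1 y + pd e2 A1 y * pd e1 W2 y + pd e1 A2 y * pd e2 W1 y
        + pd e2 A2 y * pd e2 W2 y))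
    + (m + 1) * (A1 y * (pd e1 r y * pd e1 W1 y + pd e2 r y * pd e1 W2 y)
      + A2 y * (pd e1 r y * pd e2 W1 y + pd e2 r y * pd e2 W2 y))
    + (W1 y * (pd e1 r y * pd e1 A1 y + pd e2 r y * pd e1 A2 y)
      + W2 y * (pd e1 r y * pd e2 A1 y + pd e2 r y * pd e2 A2 y))
  have hev : ∀ᶠ y in 𝓝 z, y ∈ {y | r y < 0} → α y = 0 ∧ β y = 0 ∧ γ y = 0 := by
    filter_upwards [heq, pd_pow_mul e1 m r1 A11 ea1, pd_pow_mul e2 m r1 A11 ea1,
      pd_pow_mul e1 m r1 A21 ea2, pd_pow_mul e2 m r1 A21 ea2,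
      pd_pow_mul e1 0 r1 W11 ew1, pd_pow_mul e2 0 r1 W11 ew1,
      pd_pow_mul e1 0 r1 W21 ew2, pd_pow_mul e2 0 r1 W21 ew2]
      with y hy p1 p2 p3 p4 q1 q2 q3 q4 hneg
    obtain ⟨b1, b2, b3⟩ := hy hneg
    have hne : r y ≠ 0 := ne_of_lt hneg
    have hpow : r y ^ m ≠ 0 := pow_ne_zero _ hne
    rw [p1, p4] at b1
    rw [q1, q4] at b2
    rw [p1, p2, p3, p4, q1, q2, q3, q4] at b3
    have c1 : α y = 0 := by
      refine (mul_eq_zero.1 (?_ : r y ^ m * α y = 0)).resolve_left hpow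
      simp only [α]; linear_combination b1
    have c2 : β y = 0 := by
      simp only [β]; push_cast at b2; linear_combination b2
    refine ⟨c1, c2, ?_⟩
    refine (mul_eq_zero.1 (?_ : (r y ^ m * r y) * γ y = 0)).resolve_left (mul_ne_zero hpow hne)
    simp only [α, β] at c1 c2
    simp only [γ]
    push_cast at b3
    linear_combination b3 + r y ^ m * (r y * (pd e1 W1 y + pd e2 W2 y)) * c1
      - r y ^ m * ((m + 1) * (A1 y * pd e1 r y + A2 y * pd e2 r y)) * c2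
  have hcl := mem_closure_neg h0 (fderiv_ne_of_curv hk)
  have cα : ContDiffAt ℝ (1 : ℕ) α z :=
    (contDiffAt_const.mul ((A11.mul (dr e1)).add (A21.mul (dr e2)))).add
      (r1.mul ((dA1 e1).add (dA2 e2)))
  have cβ : ContDiffAt ℝ (1 : ℕ) β z :=
    ((W11.mul (dr e1)).add (W21.mul (dr e2))).add (r1.mul ((dW1 e1).add (dW2 e2)))
  have cγ : ContinuousAt γ z := by
    have := r1.continuousAt
    have := A11.continuousAt
    have := A21.continuousAt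
    have := W11.continuousAt
    have := W21.continuousAt
    have := (dr e1).continuousAt
    have := (dr e2).continuousAt
    have := (dA1 e1).continuousAt
    have := (dA1 e2).continuousAt
    have := (dA2 e1).continuousAt
    have := (dA2 e2).continuousAt
    have := (dW1 e1).continuousAt
    have := (dW1 e2).continuousAt
    have := (dW2 e1).continuousAt
    have := (dW2 e2).continuousAt
    simp only [γ]
    fun_prop
  have α0 := eq_zero_of_closure cα.continuousAt hcl (hev.mono fun y h hy => (h hy).1)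
  have β0 := eq_zero_of_closure cβ.continuousAt hcl (hev.mono fun y h hy => (h hy).2.1)
  have γ0 := eq_zero_of_closure cγ hcl (hev.mono fun y h hy => (h hy).2.2)
  obtain ⟨ρ, hρ, hρe⟩ := globalize hr
  have hU : IsOpen {y | ρ y < 0} := isOpen_lt hρ.continuous continuous_const
  have hcl' : z ∈ closure {y | ρ y < 0} :=
    mem_closure_neg (by rw [hρe.eq_of_nhds, h0]) (by rw [hρe.fderiv_eq]; exact fderiv_ne_of_curv hk)
  have hev' : ∀ᶠ y in 𝓝 z, y ∈ {y | ρ y < 0} → α y = 0 ∧ β y = 0 := by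
    filter_upwards [hev, hρe] with y h1 h2 h3
    have h4 : r y < 0 := by rw [← h2]; exact h3
    exact ⟨(h1 h4).1, (h1 h4).2.1⟩
  have D := fun {f : ST → ℝ} (h : ContDiffAt ℝ (1 : ℕ) f z) (e : ST) =>
    HD.of_diff (e := e) (cd_diff h le_rfl)
  have αd := fun e => (pd_eq_zero_of_closure hU e cα hcl'
    (hev'.mono fun y h hy => (h hy).1)).symm.trans
    ((((((D A11 e).mul (D (dr e1) e)).add ((D A21 e).mul (D (dr e2) e))).cmul (m + 1)).add
      ((D r1 e).mul ((D (dA1 e1) e).add (D (dA2 e2) e)))).pd_eq (cd_diff cα le_rfl))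
  have βd := fun e => (pd_eq_zero_of_closure hU e cβ hcl'
    (hev'.mono fun y h hy => (h hy).2)).symm.trans
    (((((D W11 e).mul (D (dr e1) e)).add ((D W21 e).mul (D (dr e2) e))).add
      ((D r1 e).mul ((D (dW1 e1) e).add (D (dW2 e2) e)))).pd_eq (cd_diff cβ le_rfl))
  have α1 := αd e1
  have α2 := αd e2
  have β1 := βd e1
  have β2 := βd e2
  have sym := pd_comm e2 e1 hr
  simp only [α, β, γ, h0] at α0 β0 γ0
  simp only [h0, sym] at α1 α2 β1 β2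
  have hm : (m + 1 : ℝ) ≠ 0 := by positivity
  have tA : A1 z * pd e1 r z + A2 z * pd e2 r z = 0 :=
    (mul_eq_zero.1 (by linarith)).resolve_left hm
  have tW : W1 z * pd e1 r z + W2 z * pd e2 r z = 0 := by linarith
  refine tangent_alg tA tW ?_ hk hW
  have hm2 : ((m + 1) * (m + 2) : ℝ) ≠ 0 := by positivity
  refine (mul_eq_zero.1 ?_).resolve_left hm2
  linear_combination (-(W1 z)) * α1 - W2 z * α2 - (m + 1) ^ 2 * A1 z * β1
    - (m + 1) ^ 2 * A2 z * β2 - (m + 1) * γ0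
    - (pd e1 A1 z + pd e2 A2 z) * tW - (m + 1) ^ 2 * (pd e1 W1 z + pd e2 W2 z) * tA

end Pool.Agent.MP_ed9623_an.H64
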