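import Pool.Agent.MP_ed9623_an.H64.Jet

open Filter Topology MeasureTheory Set

namespace Pool.Agent.MP_ed9623_an.H64

theorem HD_heat {a1 a2 f : ST → ℝ} (ha1 : ContDiff ℝ (1 : ℕ) a1) (ha2 : ContDiff ℝ (1 : ℕ) a2)
    (hf : ContDiff ℝ (3 : ℕ) f) (e z : ST) : HD e z (heat a1 a2 f)
      (pd e (pd e0 f) z + (pd e a1 z * pd e1 f z + a1 z * pd e (pd e1 f) z)
        + (pd e a2 z * pd e2 f z + a2 z * pd e (pd e2 f) z)
        - (pd e (pd e1 (pd e1 f)) z + pd e (pd e2 (pd e2 f)) z)) := by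
  have D := fun {f : ST → ℝ} (h : ContDiff ℝ (1 : ℕ) f) => HD.of_diff (e := e) (cdg_diff h le_rfl z)
  have d1 := fun e => contDiff_pd (n := 2) e hf
  have d2 := fun e => cdg_le (d1 e) (by norm_num : 1 ≤ 2)
  exact (((D (d2 e0)).add ((D ha1).mul (D (d2 e1)))).add ((D ha2).mul (D (d2 e2)))).sub
    ((D (contDiff_pd (n := 1) e1 (d1 e1))).add (D (contDiff_pd (n := 1) e2 (d1 e2))))

theorem cd_heat {a1 a2 f : ST → ℝ} {n : ℕ} (ha1 : ContDiff ℝ n a1) (ha2 : ContDiff ℝ n a2)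
    (hf : ContDiff ℝ (n + 1 + 1 : ℕ) f) : ContDiff ℝ n (heat a1 a2 f) := by
  have d1 := fun e => contDiff_pd (n := n + 1) e hf
  have d2 := fun e => cdg_le (d1 e) (Nat.le_succ n)
  exact (((d2 e0).add (ha1.mul (d2 e1))).add (ha2.mul (d2 e2))).sub
    ((contDiff_pd e1 (d1 e1)).add (contDiff_pd e2 (d1 e2)))

theorem HD.eq_zero {E : Type*} [NormedAddCommGroup E] [NormedSpace ℝ E] {e z : E} {f : E → ℝ}
    {f' : ℝ} (h : HD e z f f') (h0 : ∀ᶠ y in 𝓝 z, f y = 0) : f' = 0 := by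
  have c : Continuous fun s : ℝ => z + s • e := by fun_prop
  have t : Tendsto (fun s : ℝ => z + s • e) (𝓝 0) (𝓝 z) := by simpa using c.tendsto 0
  have h1 : (fun s : ℝ => f (z + s • e)) =ᶠ[𝓝 0] fun _ => 0 := t.eventually h0
  exact HasDerivAt.unique h ((hasDerivAt_const (0 : ℝ) (0 : ℝ)).congr_of_eventuallyEq h1)

theorem div_pd {w1 w2 : ST → ℝ} (h1 : ContDiff ℝ (2 : ℕ) w1) (h2 : ContDiff ℝ (2 : ℕ) w2) {z : ST}
    (h : ∀ᶠ y in 𝓝 z, pd e1 w1 y + pd e2 w2 y = 0) (e : ST) :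
    ∀ᶠ y in 𝓝 z, pd e1 (pd e w1) y + pd e2 (pd e w2) y = 0 := by
  filter_upwards [h.eventually_nhds] with y hy
  rw [pd_comm e1 e h1.contDiffAt, pd_comm e2 e h2.contDiffAt]
  exact ((HD.of_diff (e := e) (cdg_diff (contDiff_pd (n := 1) e1 h1) le_rfl y)).add
    (HD.of_diff (cdg_diff (contDiff_pd (n := 1) e2 h2) le_rfl y))).eq_zero hy

theorem trace_at {a1 a2 w1 w2 : ST → ℝ} (ha1 : ContDiff ℝ (3 : ℕ) a1) (ha2 : ContDiff ℝ (3 : ℕ) a2)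
    (hw1 : ContDiff ℝ (3 : ℕ) w1) (hw2 : ContDiff ℝ (3 : ℕ) w2) {z : ST}
    (h : ∀ᶠ y in 𝓝 z, heat a1 a2 w1 y + (w1 y * pd e1 a1 y + w2 y * pd e2 a1 y) = 0 ∧
      heat a1 a2 w2 y + (w1 y * pd e1 a2 y + w2 y * pd e2 a2 y) = 0 ∧
      pd e1 a1 y + pd e2 a2 y = 0 ∧ pd e1 w1 y + pd e2 w2 y = 0) :
    pd e1 a1 z * pd e1 w1 z + pd e2 a1 z * pd e1 w2 z + pd e1 a2 z * pd e2 w1 z
        + pd e2 a2 z * pd e2 w2 z = 0 := by
  have l1 := fun {f : ST → ℝ} (h : ContDiff ℝ (3 : ℕ) f) => cdg_le h (by norm_num : 1 ≤ 3)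
  have l2 := fun {f : ST → ℝ} (h : ContDiff ℝ (3 : ℕ) f) => cdg_le h (by norm_num : 2 ≤ 3)
  have p2 := fun {f : ST → ℝ} (h : ContDiff ℝ (3 : ℕ) f) e => contDiff_pd (n := 2) e h
  have D := fun {f : ST → ℝ} (h : ContDiff ℝ (3 : ℕ) f) e =>
    HD.of_diff (e := e) (cdg_diff h (by norm_num) z)
  have D' := fun {f : ST → ℝ} (h : ContDiff ℝ (3 : ℕ) f) e e' =>
    HD.of_diff (e := e) (cdg_diff (p2 h e') (by norm_num) z)
  have E1 := ((HD_heat (l1 ha1) (l1 ha2) hw1 e1 z).add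
    (((D hw1 e1).mul (D' ha1 e1 e1)).add ((D hw2 e1).mul (D' ha1 e1 e2)))).eq_zero
    (h.mono fun y hy => hy.1)
  have E2 := ((HD_heat (l1 ha1) (l1 ha2) hw2 e2 z).add
    (((D hw1 e2).mul (D' ha2 e2 e1)).add ((D hw2 e2).mul (D' ha2 e2 e2)))).eq_zero
    (h.mono fun y hy => hy.2.1)
  have da := div_pd (l2 ha1) (l2 ha2) (h.mono fun y hy => hy.2.2.1)
  have dw := div_pd (l2 hw1) (l2 hw2) (h.mono fun y hy => hy.2.2.2)
  have dw1 := (div_pd (p2 hw1 e1) (p2 hw2 e1) (dw e1) e1).self_of_nhds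
  have dw2 := (div_pd (p2 hw1 e2) (p2 hw2 e2) (dw e2) e2).self_of_nhds
  have b0 := (dw e0).self_of_nhds
  have b1 := (dw e1).self_of_nhds
  have b2 := (dw e2).self_of_nhds
  have c1 := (da e1).self_of_nhds
  have c2 := (da e2).self_of_nhds
  linear_combination (1 / 2) * (E1 + E2 - b0 - a1 z * b1 - a2 z * b2 - w1 z * c1 - w2 z * c2
    + dw1 + dw2)

theorem grad_zero_of_van {r w W : ST → ℝ} {z : ST} (hr : ContDiffAt ℝ (1 : ℕ) r z)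
    (hW : ContDiffAt ℝ (1 : ℕ) W z) (h0 : r z = 0)
    (ew : w =ᶠ[𝓝 z] fun y => r y ^ (0 + 1) * W y) (e : ST) : pd e w z = pd e r z * W z := by
  rw [(pd_pow_mul e 0 hr hW ew).eq_of_nhds, h0]; simp

theorem curv_cont {r : ST → ℝ} (hr : ContDiff ℝ (2 : ℕ) r) : Continuous (curv r) := by
  have d1 := fun e => contDiff_pd (n := 1) e hr
  have c1 := (d1 e1).continuous
  have c2 := (d1 e2).continuous
  have c11 := (contDiff_pd (n := 0) e1 (d1 e1)).continuous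
  have c12 := (contDiff_pd (n := 0) e1 (d1 e2)).continuous
  have c22 := (contDiff_pd (n := 0) e2 (d1 e2)).continuous
  unfold curv
  fun_prop

/-- One more power of the defining function divides `a`. -/
theorem jet_iter {r a1 a2 w1 w2 A1 A2 W1 W2 : ST → ℝ} {z : ST} (m n : ℕ)
    (hr : ContDiff ℝ (n + 3 : ℕ) r) (hA1 : ContDiffAt ℝ (n + 3 : ℕ) A1 z)
    (hA2 : ContDiffAt ℝ (n + 3 : ℕ) A2 z) (hW1 : ContDiffAt ℝ (2 : ℕ) W1 z)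
    (hW2 : ContDiffAt ℝ (2 : ℕ) W2 z) (h0 : r z = 0) (hk : curv r z ≠ 0)
    (hW : W1 z ≠ 0 ∨ W2 z ≠ 0)
    (ea1 : a1 =ᶠ[𝓝 z] fun y => r y ^ (m + 1) * A1 y)
    (ea2 : a2 =ᶠ[𝓝 z] fun y => r y ^ (m + 1) * A2 y)
    (ew1 : w1 =ᶠ[𝓝 z] fun y => r y ^ (0 + 1) * W1 y)
    (ew2 : w2 =ᶠ[𝓝 z] fun y => r y ^ (0 + 1) * W2 y)
    (heq : ∀ᶠ y in 𝓝 z, r y < 0 → pd e1 a1 y + pd e2 a2 y = 0 ∧ pd e1 w1 y + pd e2 w2 y = 0 ∧
      pd e1 a1 y * pd e1 w1 y + pd e2 a1 y * pd e1 w2 y + pd e1 a2 y * pd e2 w1 y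
        + pd e2 a2 y * pd e2 w2 y = 0) :
    ∃ B1 B2 : ST → ℝ, ContDiffAt ℝ (n + 2 : ℕ) B1 z ∧ ContDiffAt ℝ (n + 2 : ℕ) B2 z ∧
      (a1 =ᶠ[𝓝 z] fun y => r y ^ (m + 1 + 1) * B1 y) ∧
      (a2 =ᶠ[𝓝 z] fun y => r y ^ (m + 1 + 1) * B2 y) := by
  have hWe : ∀ᶠ y in 𝓝 z, W1 y ≠ 0 ∨ W2 y ≠ 0 := by
    rcases hW with h | h
    · exact (hW1.continuousAt.eventually_ne h).mono fun y hy => Or.inl hy
    · exact (hW2.continuousAt.eventually_ne h).mono fun y hy => Or.inr hy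
  have hr2 := cdg_le hr (by omega : 2 ≤ n + 3)
  have hv : ∀ᶠ y in 𝓝 z, r y = 0 → A1 y = 0 ∧ A2 y = 0 := by
    filter_upwards [cd_eventually hA1, cd_eventually hA2, cd_eventually hW1, cd_eventually hW2,
      (curv_cont hr2).continuousAt.eventually_ne hk, hWe, ea1.eventually_nhds,
      ea2.eventually_nhds, ew1.eventually_nhds, ew2.eventually_nhds, heq.eventually_nhds]
      with y b1 b2 b3 b4 b5 b6 b7 b8 b9 b10 b11 hy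
    exact jet_step m hr2.contDiffAt (cd_le b1 (by omega)) (cd_le b2 (by omega)) b3 b4 hy b5 b6
      b7 b8 b9 b10 b11
  obtain ⟨B1, c1, d1⟩ := exists_div (n := n + 2) hr.contDiffAt hA1 h0 (fderiv_ne_of_curv hk)
    (hv.mono fun y h hy => (h hy).1)
  obtain ⟨B2, c2, d2⟩ := exists_div (n := n + 2) hr.contDiffAt hA2 h0 (fderiv_ne_of_curv hk)
    (hv.mono fun y h hy => (h hy).2)
  refine ⟨B1, B2, c1, c2, ?_, ?_⟩
  · filter_upwards [ea1, d1] with y h1 h2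
    rw [h1, h2]; ring
  · filter_upwards [ea2, d2] with y h1 h2
    rw [h1, h2]; ring

/-- The local system satisfied by the half sum `a` and the half difference `w`. -/
def Sys (a1 a2 w1 w2 P g1 g2 : ST → ℝ) (y : ST) : Prop :=
  (heat a1 a2 w1 y + (w1 y * pd e1 a1 y + w2 y * pd e2 a1 y) = 0 ∧
    heat a1 a2 w2 y + (w1 y * pd e1 a2 y + w2 y * pd e2 a2 y) = 0 ∧
    pd e1 a1 y + pd e2 a2 y = 0 ∧ pd e1 w1 y + pd e2 w2 y = 0) ∧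
  heat a1 a2 a1 y + (w1 y * pd e1 w1 y + w2 y * pd e2 w1 y) + pd e1 P y - g1 y = 0 ∧
  heat a1 a2 a2 y + (w1 y * pd e1 w2 y + w2 y * pd e2 w2 y) + pd e2 P y - g2 y = 0

theorem grad_zero {r a1 a2 w1 w2 P g1 g2 : ST → ℝ} {z : ST} (hr : ContDiff ℝ (6 : ℕ) r)
    (ha1 : ContDiff ℝ (6 : ℕ) a1) (ha2 : ContDiff ℝ (6 : ℕ) a2) (hw1 : ContDiff ℝ (6 : ℕ) w1)
    (hw2 : ContDiff ℝ (6 : ℕ) w2) (hP : ContDiff ℝ (2 : ℕ) P) (hg1 : ContDiff ℝ (1 : ℕ) g1)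
    (hg2 : ContDiff ℝ (1 : ℕ) g2) (h0 : r z = 0) (hk : curv r z ≠ 0)
    (hg : pd e1 g2 z - pd e2 g1 z ≠ 0)
    (hS : ∀ᶠ y in 𝓝 z, r y < 0 → Sys a1 a2 w1 w2 P g1 g2 y)
    (hB : ∀ᶠ y in 𝓝 z, r y = 0 → a1 y = 0 ∧ a2 y = 0 ∧ w1 y = 0 ∧ w2 y = 0) (e : ST) :
    pd e w1 z = 0 ∧ pd e w2 z = 0 := by
  have hd := fderiv_ne_of_curv hk
  have l3 := fun {f : ST → ℝ} (h : ContDiff ℝ (6 : ℕ) f) => cdg_le h (by norm_num : 3 ≤ 6)
  have l1 := fun {f : ST → ℝ} (h : ContDiff ℝ (6 : ℕ) f) => cdg_le h (by norm_num : 1 ≤ 6)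
  have dv : ∀ f : ST → ℝ, ContDiff ℝ (6 : ℕ) f → (∀ᶠ y in 𝓝 z, r y = 0 → f y = 0) →
      ∃ h : ST → ℝ, ContDiffAt ℝ (5 : ℕ) h z ∧ f =ᶠ[𝓝 z] fun y => r y ^ (0 + 1) * h y := by
    intro f hf hv
    obtain ⟨h, b1, b2⟩ := exists_div (n := 5) hr.contDiffAt hf.contDiffAt h0 hd hv
    exact ⟨h, b1, b2.mono fun y hy => by simpa using hy⟩
  obtain ⟨A1, hA1, ea1⟩ := dv a1 ha1 (hB.mono fun y h hy => (h hy).1)
  obtain ⟨A2, hA2, ea2⟩ := dv a2 ha2 (hB.mono fun y h hy => (h hy).2.1)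
  obtain ⟨W1, hW1, ew1⟩ := dv w1 hw1 (hB.mono fun y h hy => (h hy).2.2.1)
  obtain ⟨W2, hW2, ew2⟩ := dv w2 hw2 (hB.mono fun y h hy => (h hy).2.2.2)
  rw [grad_zero_of_van (l1 hr).contDiffAt (cd_le hW1 (by norm_num)) h0 ew1,
    grad_zero_of_van (l1 hr).contDiffAt (cd_le hW2 (by norm_num)) h0 ew2]
  suffices hW : W1 z = 0 ∧ W2 z = 0 by rw [hW.1, hW.2]; simp
  by_contra hW
  rw [not_and_or] at hW
  have hU : IsOpen {y | r y < 0} := isOpen_lt hr.continuous continuous_const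
  have heq : ∀ᶠ y in 𝓝 z, r y < 0 → pd e1 a1 y + pd e2 a2 y = 0 ∧ pd e1 w1 y + pd e2 w2 y = 0 ∧
      pd e1 a1 y * pd e1 w1 y + pd e2 a1 y * pd e1 w2 y + pd e1 a2 y * pd e2 w1 y
        + pd e2 a2 y * pd e2 w2 y = 0 := by
    filter_upwards [hS.eventually_nhds] with y hy hneg
    have : ∀ᶠ x in 𝓝 y, Sys a1 a2 w1 w2 P g1 g2 x := by
      filter_upwards [hy, hU.mem_nhds hneg] with x h1 h2 using h1 h2
    exact ⟨this.self_of_nhds.1.2.2.1, this.self_of_nhds.1.2.2.2,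
      trace_at (l3 ha1) (l3 ha2) (l3 hw1) (l3 hw2) (this.mono fun x hx => hx.1)⟩
  have W12 := cd_le hW1 (by norm_num : 2 ≤ 5)
  have W22 := cd_le hW2 (by norm_num : 2 ≤ 5)
  obtain ⟨B1, B2, hB1, hB2, eb1, eb2⟩ := jet_iter 0 2 (cdg_le hr (by norm_num)) hA1 hA2 W12 W22
    h0 hk hW ea1 ea2 ew1 ew2 heq
  obtain ⟨C1, C2, hC1, hC2, ec1, ec2⟩ := jet_iter 1 1 (cdg_le hr (by norm_num)) hB1 hB2 W12 W22
    h0 hk hW eb1 eb2 ew1 ew2 heq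
  obtain ⟨z1, z2⟩ := jet_step 2 (cdg_le hr (by norm_num)).contDiffAt (cd_le hC1 (by norm_num))
    (cd_le hC2 (by norm_num)) W12 W22 h0 hk hW ec1 ec2 ew1 ew2 heq
  have V1 : Van r z 3 3 a1 := ⟨C1, hC1, z1, ec1⟩
  have V2 : Van r z 3 3 a2 := ⟨C2, hC2, z2, ec2⟩
  have r3 : ContDiffAt ℝ (3 : ℕ) r z := (l3 hr).contDiffAt
  have r2 : ContDiffAt ℝ (2 : ℕ) r z := cd_le r3 (by norm_num)
  have r1 : ContDiffAt ℝ (1 : ℕ) r z := cd_le r3 (by norm_num)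
  have j : ∀ f, Van r z 3 3 f → f z = 0 ∧ (∀ e, pd e f z = 0) ∧ (∀ e e', pd e (pd e' f) z = 0) ∧
      ∀ e e' e'', pd e (pd e' (pd e'' f)) z = 0 := fun f hf =>
    ⟨hf.zero, fun e => (hf.pd r3 h0 e).zero, fun e e' => ((hf.pd r3 h0 e').pd r2 h0 e).zero,
      fun e e' e'' => (((hf.pd r3 h0 e'').pd r2 h0 e').pd r1 h0 e).zero⟩
  obtain ⟨j10, j11, j12, j13⟩ := j a1 V1
  obtain ⟨j20, j21, j22, j23⟩ := j a2 V2
  have hcl := mem_closure_neg h0 hd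
  have p5 := fun {f : ST → ℝ} (h : ContDiff ℝ (6 : ℕ) f) e =>
    cdg_le (contDiff_pd (n := 5) e h) (by norm_num : 1 ≤ 5)
  have D := fun {f : ST → ℝ} (h : ContDiff ℝ (1 : ℕ) f) e =>
    HD.of_diff (e := e) (cdg_diff h le_rfl z)
  have cS1 : ContDiff ℝ (1 : ℕ) fun y => heat a1 a2 a1 y + (w1 y * pd e1 w1 y + w2 y * pd e2 w1 y)
      + pd e1 P y - g1 y :=
    (((cd_heat (l1 ha1) (l1 ha2) (l3 ha1)).add (((l1 hw1).mul (p5 hw1 e1)).add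
      ((l1 hw2).mul (p5 hw1 e2)))).add (contDiff_pd e1 hP)).sub hg1
  have cS2 : ContDiff ℝ (1 : ℕ) fun y => heat a1 a2 a2 y + (w1 y * pd e1 w2 y + w2 y * pd e2 w2 y)
      + pd e2 P y - g2 y :=
    (((cd_heat (l1 ha1) (l1 ha2) (l3 ha2)).add (((l1 hw1).mul (p5 hw2 e1)).add
      ((l1 hw2).mul (p5 hw2 e2)))).add (contDiff_pd e2 hP)).sub hg2
  have E1 := (pd_eq_zero_of_closure hU e2 cS1.contDiffAt hcl
    (hS.mono fun y h hy => (h hy).2.1)).symm.trans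
    (((((HD_heat (l1 ha1) (l1 ha2) (l3 ha1) e2 z).add (((D (l1 hw1) e2).mul
      (D (p5 hw1 e1) e2)).add ((D (l1 hw2) e2).mul (D (p5 hw1 e2) e2)))).add
      (D (contDiff_pd e1 hP) e2)).sub (D hg1 e2)).pd_eq (cdg_diff cS1 le_rfl z))
  have E2 := (pd_eq_zero_of_closure hU e1 cS2.contDiffAt hcl
    (hS.mono fun y h hy => (h hy).2.2)).symm.trans
    (((((HD_heat (l1 ha1) (l1 ha2) (l3 ha2) e1 z).add (((D (l1 hw1) e1).mul
      (D (p5 hw2 e1) e1)).add ((D (l1 hw2) e1).mul (D (p5 hw2 e2) e1)))).add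
      (D (contDiff_pd e2 hP) e1)).sub (D hg2 e1)).pd_eq (cdg_diff cS2 le_rfl z))
  have E3 : pd e1 w1 z + pd e2 w2 z = 0 :=
    eq_zero_of_closure (f := fun y => pd e1 w1 y + pd e2 w2 y)
      ((p5 hw1 e1).add (p5 hw2 e2)).continuous.continuousAt hcl
      (hS.mono fun y h hy => (h hy).1.2.2.2)
  obtain ⟨-, -, y1, y2⟩ := hB.self_of_nhds h0
  have sym := pd_comm e1 e2 (hP.contDiffAt (x := z))
  simp only [j10, j11, j12, j13, j20, j21, j22, j23, y1, y2] at E1 E2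
  apply hg
  linear_combination E2 - E1 + (pd e1 w2 z - pd e2 w1 z) * E3 + sym

end Pool.Agent.MP_ed9623_an.H64
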