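import Mathlib

open Filter Topology MeasureTheory Set Complex

namespace Pool.Agent.MP_ed9623_an.H64

theorem hs_congr {f g : ℕ → ℂ} {a : ℂ} (h : HasSum f a) (e : ∀ n, g n = f n) :
    HasSum g a := (funext e : g = f) ▸ h

theorem ser_main {c : ℕ → ℂ} {B : ℝ} (hc : ∀ n, ‖c n‖ ≤ B ^ n / n.factorial) :
    Differentiable ℂ (fun x : ℂ => ∑' n, c n * x ^ n) ∧ ∀ x : ℂ,
      HasSum (fun n => c n * x ^ n) (∑' n, c n * x ^ n) ∧
      HasSum (fun n => c n * (n * x ^ (n - 1))) (deriv (fun x : ℂ => ∑' n, c n * x ^ n) x) := by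
  have b : ∀ R : ℝ, ∀ n, ∀ w ∈ Metric.ball (0 : ℂ) R,
      ‖c n * w ^ n‖ ≤ (B * R) ^ n / n.factorial := fun R n w hw => by
    rw [norm_mul, norm_pow, mul_pow, mul_div_right_comm]
    exact mul_le_mul (hc n) (pow_le_pow_left₀ (norm_nonneg _) (mem_ball_zero_iff.1 hw).le n)
      (by positivity) ((norm_nonneg _).trans (hc n))
  have d : ∀ (R : ℝ) n, DifferentiableOn ℂ (fun w : ℂ => c n * w ^ n) (Metric.ball 0 R) :=
    fun R n => by fun_prop
  have m : ∀ x : ℂ, x ∈ Metric.ball (0 : ℂ) (‖x‖ + 1) := fun x => mem_ball_zero_iff.2 (by linarith)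
  refine ⟨fun x => (differentiableOn_tsum_of_summable_norm (Real.summable_pow_div_factorial _)
    (d _) Metric.isOpen_ball (b _)).differentiableAt (Metric.isOpen_ball.mem_nhds (m x)),
    fun x => ⟨(Summable.of_norm_bounded (Real.summable_pow_div_factorial _)
      fun n => b _ n x (m x)).hasSum, ?_⟩⟩
  have := hasSum_deriv_of_summable_norm (Real.summable_pow_div_factorial _) (d _)
    Metric.isOpen_ball (b _) (m x)
  rwa [show (fun n => deriv (fun w : ℂ => c n * w ^ n) x) = fun n => c n * (n * x ^ (n - 1)) from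
    funext fun n => ((hasDerivAt_pow n x).const_mul (c n)).deriv] at this

theorem bessel (β : ℂ) : ∃ J H : ℂ → ℂ, Differentiable ℂ J ∧ Differentiable ℂ H ∧ J 0 = 1 ∧
    (∀ x, deriv J x = β * H x) ∧ ∀ x, H x + x * deriv H x = J x := by
  have f0 : ∀ n : ℕ, (0 : ℝ) < n.factorial := fun n => by exact_mod_cast n.factorial_pos
  have f1 : ∀ n : ℕ, (1 : ℝ) ≤ n.factorial := fun n => by exact_mod_cast n.factorial_pos
  have fc : ∀ n : ℕ, (n.factorial : ℂ) ≠ 0 := fun n => by exact_mod_cast n.factorial_ne_zero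
  have g : ∀ n m : ℕ, ‖β ^ n / (n.factorial * m.factorial)‖ ≤ ‖β‖ ^ n / n.factorial := fun n m => by
    rw [norm_div, norm_pow, norm_mul, Complex.norm_natCast, Complex.norm_natCast]
    exact div_le_div_of_nonneg_left (by positivity) (f0 n) (le_mul_of_one_le_right (f0 n).le (f1 m))
  obtain ⟨a1, a2⟩ := ser_main fun n => g n n
  obtain ⟨b1, b2⟩ := ser_main fun n => g n (n + 1)
  refine ⟨_, _, a1, b1, ?_, fun x => ?_, fun x => ?_⟩
  · rw [tsum_eq_single 0 fun n hn => by simp [hn]]; simp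
  · have h := (hasSum_nat_add_iff' 1).2 (a2 x).2
    simp only [Finset.range_one, Finset.sum_singleton, Nat.cast_zero, zero_mul, mul_zero,
      sub_zero] at h
    refine h.unique (hs_congr ((b2 x).1.mul_left β) fun n => ?_)
    have := fc n
    have : (n : ℂ) + 1 ≠ 0 := by exact_mod_cast n.succ_ne_zero
    simp only [Nat.factorial_succ, Nat.add_sub_cancel]
    push_cast
    field_simp
    ring
  · refine ((b2 x).1.add ((b2 x).2.mul_left x)).unique (hs_congr (a2 x).1 fun n => ?_)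
    have := fc n
    have : (n : ℂ) + 1 ≠ 0 := by exact_mod_cast n.succ_ne_zero
    have e : x * (n * x ^ (n - 1)) = n * x ^ n := by
      cases n with
      | zero => simp
      | succ n => simp only [Nat.add_sub_cancel]; ring
    rw [mul_left_comm x, e, Nat.factorial_succ]
    push_cast
    field_simp
    ring

theorem cpi {E : Type*} [NormedAddCommGroup E] [NormedSpace ℝ E] {K : E × ℝ → ℂ}
    (hK : ContDiff ℝ 1 K) : ContDiff ℝ 1 fun p => ∫ s in (0 : ℝ)..1, K (p, s) := by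
  let b : ContDiffBump (0 : ℝ) := ⟨1, 2, by norm_num, by norm_num⟩
  have h := contDiffOn_convolution_right_with_param_comp (μ := volume) (n := (1 : ℕ∞))
    (ContinuousLinearMap.lsmul ℝ ℝ) (s := (univ : Set E)) (v := fun _ => (0 : ℝ))
    contDiffOn_const (f := (Ioc (0 : ℝ) 1).indicator fun _ => (1 : ℝ))
    (g := fun p x => b x • K (p, -x)) (k := tsupport b) isOpen_univ b.hasCompactSupport
    (fun p x _ hx => by rw [image_eq_zero_of_notMem_tsupport hx, zero_smul])
    ((integrable_indicator_iff measurableSet_Ioc).2 (by simp)).locallyIntegrable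
    (by
      refine ContDiff.contDiffOn ?_
      have hb : ContDiff ℝ 1 b := b.contDiff
      change ContDiff ℝ 1 fun q : E × ℝ => b q.2 • K (q.1, -q.2)
      fun_prop)
  rw [contDiffOn_univ] at h
  convert h using 2 with p
  · rfl
  rw [intervalIntegral.integral_of_le zero_le_one, convolution_def,
    ← integral_indicator measurableSet_Ioc]
  congr 1
  funext s
  by_cases hs : s ∈ Ioc (0 : ℝ) 1
  · have : b (-s) = 1 := b.one_of_mem_closedBall (by
      simp only [b, Metric.mem_closedBall, dist_zero_right, norm_neg, Real.norm_eq_abs]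
      rw [abs_of_pos hs.1]; exact hs.2)
    simp [hs, this]
  · simp [hs]

theorem holo_param {G : ℂ × ℝ → ℂ} (hG : ContDiff ℝ 1 G)
    (h : ∀ τ, Differentiable ℂ fun z => G (z, τ)) :
    Differentiable ℂ fun z => ∫ τ in (0 : ℝ)..1, G (z, τ) := by
  intro z₀
  have c := hG.continuous
  have c' : Continuous fun p => fderiv ℝ G p (1, 0) :=
    (hG.continuous_fderiv one_ne_zero).clm_apply continuous_const
  obtain ⟨C, hC⟩ := ((isCompact_closedBall z₀ 1).prod (isCompact_Icc (a := (0 : ℝ)) (b := 1))).exists_bound_of_continuousOn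
    c'.continuousOn
  refine (intervalIntegral.hasDerivAt_integral_of_dominated_loc_of_deriv_le (μ := volume)
    (F := fun z τ => G (z, τ)) (F' := fun z τ => fderiv ℝ G (z, τ) (1, 0)) (bound := fun _ => C)
    (Metric.closedBall_mem_nhds z₀ one_pos)
    (Eventually.of_forall fun z => (by fun_prop : Continuous fun τ => G (z, τ)).aestronglyMeasurable)
    ((by fun_prop : Continuous fun τ => G (z₀, τ)).intervalIntegrable _ _)
    (c'.comp (by fun_prop : Continuous fun τ : ℝ => (z₀, τ))).aestronglyMeasurable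
    (Eventually.of_forall fun τ hτ z hz => hC (z, τ) ⟨hz, Ioc_subset_Icc_self (by simpa using hτ)⟩)
    intervalIntegrable_const (Eventually.of_forall fun τ _ z _ => ?_)).2.differentiableAt
  have k := (h τ z).hasDerivAt
  have k1 := ((hG.differentiable one_ne_zero (z, τ)).hasFDerivAt.comp z
    (hasFDerivAt_prodMk_left (𝕜 := ℝ) z τ)).unique (k.hasFDerivAt.restrictScalars ℝ)
  have k2 := congrArg (fun L : ℂ →L[ℝ] ℂ => L 1) k1
  simp at k2
  rwa [k2]

/-- The primitive along segments from `0` of the form `A dt + B d(conj t)`. -/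
noncomputable def Ph (A B : ℂ × ℂ → ℂ) (p : ℂ × ℂ) : ℂ :=
  ∫ τ in (0 : ℝ)..1, (A (p.1, τ * p.2) * p.2 + B (p.1, τ * p.2) * (starRingEnd ℂ) p.2)

theorem cd_Ph {A B : ℂ × ℂ → ℂ} (hA : ContDiff ℝ 1 A) (hB : ContDiff ℝ 1 B) :
    ContDiff ℝ 1 (Ph A B) := by
  have c1 : ContDiff ℝ 1 fun x : ℝ => (x : ℂ) := ofRealCLM.contDiff
  have c2 : ContDiff ℝ 1 fun x : ℂ => (starRingEnd ℂ) x := conjCLE.contDiff
  exact cpi (K := fun q : (ℂ × ℂ) × ℝ => A (q.1.1, q.2 * q.1.2) * q.1.2
    + B (q.1.1, q.2 * q.1.2) * (starRingEnd ℂ) q.1.2) (by fun_prop)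

/-- The real-linear map `v ↦ a v + b conj v`. -/
noncomputable def lm (a b : ℂ) : ℂ →L[ℝ] ℂ := a • ContinuousLinearMap.id ℝ ℂ + b • (conjCLE : ℂ →L[ℝ] ℂ)

theorem lm_apply (a b v : ℂ) : lm a b v = a * v + b * (starRingEnd ℂ) v := by simp [lm]

theorem Ph_deriv {A B : ℂ × ℂ → ℂ} (hA : ContDiff ℝ 1 A) (hB : ContDiff ℝ 1 B) {D : Set ℂ}
    (hD : Convex ℝ D) (h0 : (0 : ℂ) ∈ closure D) (z : ℂ)
    (hc : ∀ t ∈ D, ∃ L M : ℂ →L[ℝ] ℂ, HasFDerivAt (fun t => A (z, t)) L t ∧
      HasFDerivAt (fun t => B (z, t)) M t ∧ L 1 + I * L I = M 1 - I * M I) {y : ℂ}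
    (hy : y ∈ closure D) :
    HasFDerivWithinAt (fun y => Ph A B (z, y)) (lm (A (z, y)) (B (z, y))) (closure D) y := by
  have a1 : ContDiff ℝ 1 fun t => A (z, t) := by fun_prop
  have b1 : ContDiff ℝ 1 fun t => B (z, t) := by fun_prop
  have a2 := a1.continuous_fderiv one_ne_zero
  have b2 := b1.continuous_fderiv one_ne_zero
  have cl : ∀ t ∈ closure D, fderiv ℝ (fun t => A (z, t)) t 1 + I * fderiv ℝ (fun t => A (z, t)) t I
      = fderiv ℝ (fun t => B (z, t)) t 1 - I * fderiv ℝ (fun t => B (z, t)) t I := by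
    refine closure_minimal (fun t ht => ?_) (isClosed_eq (by fun_prop) (by fun_prop))
    obtain ⟨L, M, k1, k2, k3⟩ := hc t ht
    change _ = _
    rw [k1.fderiv, k2.fderiv, k3]
  have := hD.closure.hasFDerivWithinAt_curveIntegral_segment_of_hasFDerivWithinAt_symmetric
    (𝕜 := ℝ) (ω := fun t => lm (A (z, t)) (B (z, t)))
    (dω := fun t => (fderiv ℝ (fun t => A (z, t)) t).smulRight (ContinuousLinearMap.id ℝ ℂ)
      + (fderiv ℝ (fun t => B (z, t)) t).smulRight (conjCLE : ℂ →L[ℝ] ℂ))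
    (fun t _ => (((a1.differentiable one_ne_zero t).hasFDerivAt.smul_const _).add
      ((b1.differentiable one_ne_zero t).hasFDerivAt.smul_const _)).hasFDerivWithinAt)
    (fun t ht u _ v _ => by
      have k := cl t ht
      generalize fderiv ℝ (fun t => A (z, t)) t = L at k
      generalize fderiv ℝ (fun t => B (z, t)) t = M at k
      have e : ∀ (L : ℂ →L[ℝ] ℂ) (u : ℂ), L u = u.re * L 1 + u.im * L I := fun L u => by
        conv_lhs => rw [show u = u.re • (1 : ℂ) + u.im • I by simp]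
        rw [map_add, map_smul, map_smul]; simp
      simp only [ContinuousLinearMap.add_apply, ContinuousLinearMap.smulRight_apply,
        ContinuousLinearMap.smul_apply, ContinuousLinearMap.id_apply, smul_eq_mul,
        ContinuousLinearEquiv.coe_coe, conjCLE_apply]
      rw [e L u, e L v, e M u, e M v]
      have hu : (starRingEnd ℂ) u = u.re - u.im * I := by simp [Complex.ext_iff]
      have hv : (starRingEnd ℂ) v = v.re - v.im * I := by simp [Complex.ext_iff]
      rw [hu, hv]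
      have ku := re_add_im u
      have kv := re_add_im v
      generalize (u.re : ℂ) = u1 at *
      generalize (u.im : ℂ) = u2 at *
      generalize (v.re : ℂ) = v1 at *
      generalize (v.im : ℂ) = v2 at *
      rw [← ku, ← kv]
      linear_combination (u1 * v2 - u2 * v1) * I * k
        - (u1 * v2 - u2 * v1) * (L I + M I) * I_mul_I) h0 hy
  refine this.congr (fun y _ => ?_) ?_ <;> simp [Ph, curveIntegral_segment, lm_apply,
    AffineMap.lineMap_apply]

theorem Ph_diag {A B : ℂ × ℂ → ℂ} (hA : ContDiff ℝ 1 A) (hB : ContDiff ℝ 1 B)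
    (dA : ∀ t, Differentiable ℂ fun z => A (z, t)) (dB : ∀ t, Differentiable ℂ fun z => B (z, t))
    {D : Set ℂ} (hO : IsOpen D) (hD : Convex ℝ D) (h0 : (0 : ℂ) ∈ closure D) {z : ℂ} (hz : z ∈ D)
    (hc : ∀ t ∈ D, ∃ L M : ℂ →L[ℝ] ℂ, HasFDerivAt (fun t => A (z, t)) L t ∧
      HasFDerivAt (fun t => B (z, t)) M t ∧ L 1 + I * L I = M 1 - I * M I) :
    ∃ a, HasFDerivAt (fun z => Ph A B (z, z)) (lm a (B (z, z))) z := by
  have F := ((cd_Ph hA hB).differentiable one_ne_zero (z, z)).hasFDerivAt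
  have k2 := (F.comp z (hasFDerivAt_prodMk_right (𝕜 := ℝ) z z)).unique
    ((Ph_deriv hA hB hD h0 z hc (subset_closure hz)).hasFDerivAt
      (mem_of_superset (hO.mem_nhds hz) subset_closure))
  have c1 : ContDiff ℝ 1 fun x : ℝ => (x : ℂ) := ofRealCLM.contDiff
  have d := (holo_param (G := fun q : ℂ × ℝ => A (q.1, q.2 * z) * z + B (q.1, q.2 * z)
    * (starRingEnd ℂ) z) (by fun_prop) 
      (fun τ => ((dA (τ * z)).mul_const z).add ((dB (τ * z)).mul_const _)) z).hasDerivAt
  have k1 := (HasFDerivAt.comp (f := fun e => (e, z)) z F (hasFDerivAt_prodMk_left (𝕜 := ℝ) z z)).unique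
    (d.hasFDerivAt.restrictScalars ℝ)
  refine ⟨deriv (fun z' => Ph A B (z', z)) z + A (z, z), ?_⟩
  refine (HasFDerivAt.comp (f := fun e => (e, e)) z F
    ((hasFDerivAt_id (𝕜 := ℝ) z).prodMk (hasFDerivAt_id z))).congr_fderiv
      (ContinuousLinearMap.ext fun v => ?_)
  have a := congrArg (fun L : ℂ →L[ℝ] ℂ => L v) k1
  have b := congrArg (fun L : ℂ →L[ℝ] ℂ => L v) k2
  simp only [ContinuousLinearMap.comp_apply, ContinuousLinearMap.inl_apply,
    ContinuousLinearMap.inr_apply, lm_apply, ContinuousLinearMap.prod_apply,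
    ContinuousLinearMap.id_apply, ContinuousLinearMap.coe_restrictScalars',
    ContinuousLinearMap.toSpanSingleton_apply, smul_eq_mul] at a b ⊢
  rw [show ((v, v) : ℂ × ℂ) = (v, 0) + (0, v) by simp, map_add, a, b]
  unfold Ph
  ring

theorem Ph_arc {A B : ℂ × ℂ → ℂ} (hA : ContDiff ℝ 1 A) (hB : ContDiff ℝ 1 B) {D : Set ℂ}
    (hD : Convex ℝ D) (z : ℂ)
    (hc : ∀ t ∈ D, ∃ L M : ℂ →L[ℝ] ℂ, HasFDerivAt (fun t => A (z, t)) L t ∧
      HasFDerivAt (fun t => B (z, t)) M t ∧ L 1 + I * L I = M 1 - I * M I) {γ γ' : ℝ → ℂ}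
    (hγ : ∀ u, HasDerivAt γ (γ' u) u) (cγ : Continuous γ') (g0 : γ 0 = 0) {δ r : ℝ}
    (hm : ∀ u, |u| < δ → γ u ∈ closure D) (hr : |r| < δ) :
    Ph A B (z, γ r) = ∫ u in (0 : ℝ)..r,
      (A (z, γ u) * γ' u + B (z, γ u) * (starRingEnd ℂ) (γ' u)) := by
  have c : Continuous γ := continuous_iff_continuousAt.2 fun u => (hγ u).continuousAt
  have d0 := (abs_nonneg r).trans_lt hr
  have h0 : (0 : ℂ) ∈ closure D := g0 ▸ hm 0 (by simpa using d0)
  have ca := hA.continuous
  have cb := hB.continuous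
  rw [intervalIntegral.integral_eq_sub_of_hasDerivAt (f := fun u => Ph A B (z, γ u))
    (fun u hu => ?_) (Continuous.intervalIntegrable (by fun_prop) _ _)]
  · simp [g0, Ph]
  have hu' : |u| < δ := lt_of_le_of_lt (by simpa using abs_sub_left_of_mem_uIcc hu) hr
  have o : {u : ℝ | |u| < δ} ∈ 𝓝 u := (isOpen_lt continuous_abs continuous_const).mem_nhds hu'
  rw [← lm_apply]
  exact ((Ph_deriv hA hB hD h0 z hc (hm u hu')).comp_hasDerivWithinAt u
    (hγ u).hasDerivWithinAt hm).hasDerivAt o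

end Pool.Agent.MP_ed9623_an.H64
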