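import Pool.Agent.MP_ed9623_an.H64.Lewy1

open Filter Topology MeasureTheory Set Complex

namespace Pool.Agent.MP_ed9623_an.H64

theorem diff_of_lm {f : ℂ → ℂ} {a z : ℂ} (h : HasFDerivAt f (lm a 0) z) : DifferentiableAt ℂ f z :=
  (h.complexOfReal_hasFDerivAt (by simp [lm_apply, mul_comm])).differentiableAt

theorem int_le {f : ℝ → ℂ} {C : ℝ} (h : ∀ τ ∈ Icc (0 : ℝ) 1, ‖f τ‖ ≤ C) :
    ‖∫ τ in (0 : ℝ)..1, f τ‖ ≤ C := by
  simpa using intervalIntegral.norm_integral_le_of_norm_le_const (a := 0) (b := 1) (f := f) (C := C)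
    fun τ hτ => h τ (Ioc_subset_Icc_self (by simpa using hτ))

theorem volterra {N : ℂ × ℂ × ℂ → ℂ} (hN : ContDiff ℂ 1 N) (N0 : ∀ z t, N (z, t, 0) = 0)
    {W : ℂ → ℂ} (hW : ContDiff ℝ 1 W) {D : Set ℂ} (hO : IsOpen D) (hD : Convex ℝ D)
    (dW : DifferentiableOn ℂ W D) {C ε : ℝ} (C0 : 0 ≤ C)
    (hL : ∀ p q, ‖p‖ ≤ 1 → ‖q‖ ≤ 1 → ‖N p - N q‖ ≤ C * ‖p - q‖)
    (hε : ∀ z ∈ closure D, ‖z‖ ≤ ε) (bW : ∀ z ∈ closure D, ‖W z‖ ≤ 2 * ε) (e1 : 3 * ε ≤ 1)
    (e2 : C * ε ≤ 1 / 12) {γ γ' S : ℝ → ℂ} (hγ : ∀ u, HasDerivAt γ (γ' u) u) (cγ : Continuous γ')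
    (g0 : γ 0 = 0) {δ : ℝ} (d0 : 0 < δ) (d1 : δ ≤ ε) (hm : ∀ u, |u| < δ → γ u ∈ closure D)
    (bγ : ∀ u, |u| < δ → ‖γ' u‖ ≤ 2) (cS : Continuous S) (bS : ∀ u, |u| < δ → ‖S u‖ ≤ ε)
    (hS : ∀ r, |r| < δ → S r = W (γ r) + ∫ u in (0 : ℝ)..r, N (γ r, γ u, S u) * γ' u) :
    ∃ s : ℂ → ℂ, DifferentiableOn ℂ s D ∧ (∀ z₁ ∈ closure D, ∀ z₂ ∈ closure D,
      ‖s z₁ - W z₁ - (s z₂ - W z₂)‖ ≤ 1 / 3 * ‖z₁ - z₂‖) ∧ ∀ r, |r| < δ → s (γ r) = S r := by
  have h0 : (0 : ℂ) ∈ closure D := g0 ▸ hm 0 (by simpa using d0)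
  have ε0 : 0 < ε := d0.trans_le d1
  have hN' : ContDiff ℝ 1 N := hN.restrict_scalars ℝ
  have dN := hN.differentiable one_ne_zero
  have cγ0 : Continuous γ := continuous_iff_continuousAt.2 fun u => (hγ u).continuousAt
  let V : (ℂ → ℂ) → ℂ × ℂ → ℂ := fun f => Ph (fun p => N (p.1, p.2, f p.2)) fun _ => 0
  have V1 : ∀ f z y, V f (z, y) = ∫ τ in (0 : ℝ)..1, N (z, τ * y, f (τ * y)) * y := fun f z y => by
    simp [V, Ph]
  let G : (ℂ → ℂ) → Prop := fun f => ContDiff ℝ 1 f ∧ DifferentiableOn ℂ f D ∧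
    ∀ z ∈ closure D, ‖f z‖ ≤ 3 * ε
  have seg : ∀ y ∈ closure D, ∀ τ ∈ Icc (0 : ℝ) 1, (τ : ℂ) * y ∈ closure D := fun y hy τ hτ => by
    simpa using hD.closure.smul_mem_of_zero_mem h0 hy hτ
  have L : ∀ z ∈ closure D, ∀ z' ∈ closure D, ∀ t ∈ closure D, ∀ a b : ℂ, ‖a‖ ≤ 3 * ε →
      ‖b‖ ≤ 3 * ε → ‖N (z, t, a) - N (z', t, b)‖ ≤ C * max ‖z - z'‖ ‖a - b‖ := by
    intro z hz z' hz' t ht a b ha hb
    have := hε z hz
    have := hε z' hz'
    have := hε t ht
    refine (hL _ _ ?_ ?_).trans (le_of_eq ?_)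
    · simp only [Prod.norm_def, max_le_iff]; exact ⟨by linarith, by linarith, by linarith⟩
    · simp only [Prod.norm_def, max_le_iff]; exact ⟨by linarith, by linarith, by linarith⟩
    · simp [Prod.norm_def]
  have Nb : ∀ z ∈ closure D, ∀ t ∈ closure D, ∀ a : ℂ, ‖a‖ ≤ 3 * ε → ‖N (z, t, a)‖ ≤ 1 / 4 := by
    intro z hz t ht a ha
    have := L z hz z hz t ht a 0 ha (by simp; positivity)
    simp only [N0, sub_zero, sub_self, norm_zero, max_eq_right (norm_nonneg a)] at this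
    nlinarith [mul_le_mul_of_nonneg_left ha C0]
  have cA : ∀ f, G f → ContDiff ℝ 1 fun p : ℂ × ℂ => N (p.1, p.2, f p.2) := fun f hf => by
    have := hf.1
    fun_prop
  have cl : ∀ f, G f → ∀ z, ∀ t ∈ D, ∃ L M : ℂ →L[ℝ] ℂ, HasFDerivAt (fun t => N (z, t, f t)) L t ∧
      HasFDerivAt (fun _ : ℂ => (0 : ℂ)) M t ∧ L 1 + I * L I = M 1 - I * M I := fun f hf z t ht => by
    have k := hf.2.1.differentiableAt (hO.mem_nhds ht)
    have : DifferentiableAt ℂ (fun t => N (z, t, f t)) t := by fun_prop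
    refine ⟨_, _, this.hasDerivAt.hasFDerivAt.restrictScalars ℝ, hasFDerivAt_const _ _, ?_⟩
    simp [← mul_assoc]
  have TG : ∀ f, G f → G fun z => W z + V f (z, z) := fun f hf => by
    refine ⟨hW.add ((cd_Ph (cA f hf) contDiff_const).comp (contDiff_id.prodMk contDiff_id)),
      dW.add fun z hz => ?_, fun z hz => (norm_add_le _ _).trans ?_⟩
    · obtain ⟨a, ha⟩ := Ph_diag (cA f hf) (contDiff_const (c := 0))
        (fun t => (by fun_prop : Differentiable ℂ fun z => N (z, t, f t)))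
        (fun t => differentiable_const _) hO hD h0 hz (cl f hf z)
      exact (diff_of_lm ha).differentiableWithinAt
    · have : ‖V f (z, z)‖ ≤ ε := by
        rw [V1]
        refine int_le fun τ hτ => ?_
        rw [norm_mul]
        nlinarith [Nb z hz _ (seg z hz τ hτ) _ (hf.2.2 _ (seg z hz τ hτ)), hε z hz, norm_nonneg z,
          norm_nonneg (N (z, τ * z, f (τ * z)))]
      linarith [bW z hz]
  have ci : ∀ f, G f → ∀ z y, IntervalIntegrable (fun τ : ℝ => N (z, τ * y, f (τ * y)) * y) volume 0 1 :=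
    fun f hf z y => Continuous.intervalIntegrable (by
      have := hf.1.continuous
      have := hN.continuous
      fun_prop) _ _
  have Vd : ∀ f g, G f → G g → ∀ m, ∀ z ∈ closure D, ∀ z' ∈ closure D, ∀ y ∈ closure D,
      ‖z - z'‖ ≤ m → (∀ t ∈ closure D, ‖f t - g t‖ ≤ m) → ‖V f (z, y) - V g (z', y)‖ ≤ m / 12 := by
    intro f g hf hg m z hz z' hz' y hy k1 k2
    rw [V1, V1, ← intervalIntegral.integral_sub (ci f hf _ _) (ci g hg _ _)]
    refine int_le fun τ hτ => ?_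
    have s := seg y hy τ hτ
    have m0 := (norm_nonneg _).trans k1
    rw [← sub_mul, norm_mul]
    refine (mul_le_mul ((L z hz z' hz' _ s _ _ (hf.2.2 _ s) (hg.2.2 _ s)).trans
      (mul_le_mul_of_nonneg_left (max_le k1 (k2 _ s)) C0)) (hε y hy) (norm_nonneg _)
        (by positivity)).trans ?_
    nlinarith
  have Vl : ∀ f, G f → ∀ z₁ ∈ closure D, ∀ z₂ ∈ closure D,
      ‖V f (z₁, z₁) - V f (z₂, z₂)‖ ≤ 1 / 3 * ‖z₁ - z₂‖ := fun f hf z₁ h1 z₂ h2 => by
    have a := Vd f f hf hf _ z₁ h1 z₂ h2 z₂ h2 le_rfl fun t _ => by simp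
    have b := hD.closure.norm_image_sub_le_of_norm_hasFDerivWithin_le (C := 1 / 4)
      (fun y hy => Ph_deriv (cA f hf) (contDiff_const (c := 0)) hD h0 z₁ (cl f hf z₁) hy)
      (fun y hy => ContinuousLinearMap.opNorm_le_bound _ (by norm_num) fun v => by
        rw [lm_apply, zero_mul, add_zero, norm_mul]
        exact mul_le_mul_of_nonneg_right (Nb _ h1 _ hy _ (hf.2.2 _ hy)) (norm_nonneg _)) h2 h1
    have c := norm_sub_le_norm_sub_add_norm_sub (V f (z₁, z₁)) (V f (z₁, z₂)) (V f (z₂, z₂))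
    change ‖V f (z₁, z₁) - V f (z₁, z₂)‖ ≤ _ at b
    linarith
  let s : ℕ → ℂ → ℂ := fun n => (fun f z => W z + V f (z, z))^[n] fun _ => 0
  have ss : ∀ n z, s (n + 1) z = W z + V (s n) (z, z) := fun n z => by
    simp only [s, Function.iterate_succ_apply']
  have sG : ∀ n, G (s n) := fun n => by
    induction n with
    | zero => exact ⟨contDiff_const, differentiableOn_const _, fun z _ => by simp [s]; positivity⟩
    | succ n ih => exact (funext (ss n) : s (n + 1) = _) ▸ TG _ ih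
  have st : ∀ n, ∀ z ∈ closure D, ‖s n z - s (n + 1) z‖ ≤ (1 / 2) ^ n := fun n => by
    induction n with
    | zero =>
      intro z hz
      rw [show s 0 z = 0 from rfl, zero_sub, norm_neg, pow_zero]
      exact ((sG 1).2.2 z hz).trans e1
    | succ n ih =>
      intro z hz
      rw [ss n, ss (n + 1), add_sub_add_left_eq_sub]
      refine (Vd _ _ (sG _) (sG _) _ z hz z hz z hz (by simp) ih).trans ?_
      rw [pow_succ]
      nlinarith [pow_pos (by norm_num : (0 : ℝ) < 1 / 2) n]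
  have sa : ∀ n r, |r| < δ → ‖s n (γ r) - S r‖ ≤ (1 / 2) ^ n := fun n => by
    induction n with
    | zero => exact fun r hr => by simpa [s] using (bS r hr).trans (by linarith)
    | succ n ih =>
      intro r hr
      have cs := (sG n).1.continuous
      have cN := hN.continuous
      rw [ss n, hS r hr, add_sub_add_left_eq_sub]
      simp only [V]
      rw [Ph_arc (cA _ (sG n)) contDiff_const hD _ (cl _ (sG n) _) hγ cγ g0 hm hr,
        ← intervalIntegral.integral_sub (Continuous.intervalIntegrable (by fun_prop) _ _)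
          (Continuous.intervalIntegrable (by fun_prop) _ _)]
      refine (intervalIntegral.norm_integral_le_of_norm_le_const (C := C * (1 / 2) ^ n * 2)
        fun u hu => ?_).trans ?_
      · have hu' : |u| < δ :=
          lt_of_le_of_lt (by simpa using abs_sub_left_of_mem_uIcc (uIoc_subset_uIcc hu)) hr
        rw [zero_mul, add_zero, ← sub_mul, norm_mul]
        refine mul_le_mul ((L _ (hm r hr) _ (hm r hr) _ (hm u hu') _ _ ((sG n).2.2 _ (hm u hu'))
          ((bS u hu').trans (by linarith))).trans (mul_le_mul_of_nonneg_left (max_le (by simp)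
            (ih u hu')) C0)) (bγ u hu') (norm_nonneg _) (by positivity)
      · rw [pow_succ, sub_zero]
        nlinarith [pow_pos (by norm_num : (0 : ℝ) < 1 / 2) n, mul_le_mul_of_nonneg_left
          (hr.le.trans d1) C0]
  have cv : ∀ z ∈ closure D, ∃ l, Tendsto (fun n => s n z) atTop (𝓝 l) := fun z hz =>
    cauchySeq_tendsto_of_complete (cauchySeq_of_le_geometric (1 / 2) 1 (by norm_num) fun n => by
      rw [dist_eq_norm, one_mul]; exact st n z hz)
  choose! l hl using cv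
  have t0 : Tendsto (fun n : ℕ => (1 / 2 : ℝ) ^ n) atTop (𝓝 0) :=
    tendsto_pow_atTop_nhds_zero_of_lt_one (by norm_num) (by norm_num)
  refine ⟨l, TendstoLocallyUniformlyOn.differentiableOn (φ := atTop) (F := s)
    (TendstoUniformlyOn.tendstoLocallyUniformlyOn (Metric.tendstoUniformlyOn_iff.2 fun η hη => ?_))
    (Eventually.of_forall fun n => (sG n).2.1) hO, fun z₁ h1 z₂ h2 => ?_, fun r hr => ?_⟩
  · filter_upwards [t0.eventually (gt_mem_nhds (half_pos hη))] with n hn z hz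
    have := dist_le_of_le_geometric_of_tendsto (1 / 2) 1 (by norm_num) (fun n => by
      rw [dist_eq_norm, one_mul]; exact st n z (subset_closure hz)) (hl z (subset_closure hz)) n
    rw [dist_comm]
    norm_num at this hn
    rw [div_eq_mul_inv _ (1 / 2 : ℝ)] at this
    norm_num at this
    linarith
  · refine le_of_tendsto' ((((hl z₁ h1).comp (tendsto_add_atTop_nat 1)).sub_const _).sub
      (((hl z₂ h2).comp (tendsto_add_atTop_nat 1)).sub_const _)).norm fun n => ?_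
    simpa [ss] using Vl _ (sG n) z₁ h1 z₂ h2
  · exact tendsto_nhds_unique (hl _ (hm r hr)) (tendsto_iff_norm_sub_tendsto_zero.2
      (squeeze_zero (fun _ => norm_nonneg _) (fun n => sa n r hr) t0))

end Pool.Agent.MP_ed9623_an.H64
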