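import Mathlib

open Filter Topology MeasureTheory Set Complex

namespace Pool.Agent.MP_ed9623_an.H64

theorem line_rem {f : ℂ → ℂ} {U : Set ℂ} (hU : IsOpen U) (hc : ContinuousOn f U)
    (hd : ∀ z ∈ U, z.im ≠ 0 → DifferentiableAt ℂ f z) : DifferentiableOn ℂ f U := by
  refine (isConservativeOn_and_continuousOn_iff_isDifferentiableOn hU).1 ⟨fun z w h => ?_, hc⟩
  rw [← add_eq_zero_iff_eq_neg, wedgeIntegral_add_wedgeIntegral_eq]
  have key : ∀ z w : ℂ, Rectangle z w ⊆ U → 0 ≤ z.im * w.im →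
      (∫ x : ℝ in z.re..w.re, f (x + z.im * I)) - (∫ x : ℝ in z.re..w.re, f (x + w.im * I)) +
      I • (∫ y : ℝ in z.im..w.im, f (w.re + y * I)) -
      I • (∫ y : ℝ in z.im..w.im, f (z.re + y * I)) = 0 := fun z w h k =>
    integral_boundary_rect_eq_zero_of_continuousOn_of_differentiableOn f z w (hc.mono h)
      fun x hx => (hd x (h ⟨Ioo_subset_Icc_self hx.1, Ioo_subset_Icc_self hx.2⟩) fun e => by
        have a := hx.2.1
        have b := hx.2.2
        rw [e, min_lt_iff] at a
        rw [e, lt_max_iff] at b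
        rcases a with a | a <;> rcases b with b | b <;> nlinarith).differentiableWithinAt
  rcases le_or_gt 0 (z.im * w.im) with k | k
  · exact key z w h k
  have m : (0 : ℝ) ∈ uIcc z.im w.im := by
    rcases mul_neg_iff.1 k with a | a
    · exact mem_uIcc_of_ge a.2.le a.1.le
    · exact mem_uIcc_of_le a.1.le a.2.le
  have a := key z ⟨w.re, 0⟩ (fun x hx => h ⟨hx.1, uIcc_subset_uIcc_left m hx.2⟩) (by simp)
  have b := key ⟨z.re, 0⟩ w (fun x hx => h ⟨hx.1, uIcc_subset_uIcc_right m hx.2⟩) (by simp)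
  have i : ∀ c ∈ uIcc z.re w.re, ∀ p ∈ uIcc z.im w.im, ∀ q ∈ uIcc z.im w.im,
      IntervalIntegrable (fun y : ℝ => f (c + y * I)) volume p q := fun c hc' p hp q hq =>
    (hc.comp (by fun_prop) fun y hy => h ⟨by simpa using hc', by
      simpa using uIcc_subset_uIcc hp hq hy⟩).intervalIntegrable
  have s := fun c hc' => intervalIntegral.integral_add_adjacent_intervals
    (i c hc' _ left_mem_uIcc _ m) (i c hc' _ m _ right_mem_uIcc)
  rw [← s _ left_mem_uIcc, ← s _ right_mem_uIcc]
  simp only [smul_eq_mul] at a b ⊢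
  linear_combination a + b

theorem reflect {φ : ℝ → ℝ} {X : ℂ → ℂ} {ε : ℝ} (e0 : 0 < ε) (φ0 : φ 0 = 0)
    (Lφ : ∀ a b, |a| < ε → |b| < ε → |φ a - φ b| ≤ 1 / 2 * |a - b|) {D : Set ℂ} (hO : IsOpen D)
    (hD : ∀ z : ℂ, ‖z‖ < ε → φ z.re < z.im → z ∈ D) (dX : DifferentiableOn ℂ X D)
    (LX : ∀ z₁ ∈ closure D, ∀ z₂ ∈ closure D, ‖X z₁ - X z₂ - (z₁ - z₂)‖ ≤ 1 / 3 * ‖z₁ - z₂‖)
    (hm : ∀ r : ℝ, |r| < ε / 2 → (r + φ r * I : ℂ) ∈ closure D)
    (hX : ∀ r : ℝ, |r| < ε / 2 → X (r + φ r * I) = r) : AnalyticAt ℝ φ 0 := by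
  have ap : ApproximatesLinearOn X (ContinuousLinearMap.id ℝ ℂ) (closure D) (1 / 3) :=
    fun a ha b hb => by simpa using LX a ha b hb
  have ex : ∀ ξ : ℂ, |ξ.re| < ε / 4 ∧ 0 ≤ ξ.im ∧ ξ.im < ε / 4 → ∃ z ∈ closure D, X z = ξ ∧
      (0 < ξ.im → z ∈ D) ∧ (ξ.im = 0 → z = ξ.re + φ ξ.re * I) := by
    rintro ξ ⟨h1, h2, h3⟩
    have h4 : |ξ.re| < ε / 2 := by linarith
    rcases h2.eq_or_lt with h | h
    · exact ⟨_, hm _ h4, by rw [hX _ h4]; simp [Complex.ext_iff, ← h], fun k => absurd h k.ne,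
        fun _ => rfl⟩
    have f := Lφ ξ.re 0 (by linarith) (by simpa using e0)
    rw [φ0, sub_zero, sub_zero] at f
    have sub : Metric.closedBall (ξ + φ ξ.re * I) (ξ.im / 2) ⊆ D := fun z hz => by
      rw [mem_closedBall_iff_norm] at hz
      have a := (abs_re_le_norm _).trans hz
      have b := (abs_im_le_norm _).trans hz
      simp only [sub_re, add_re, mul_re, ofReal_re, I_re, mul_zero, ofReal_im, I_im, mul_one,
        sub_self, add_zero, sub_im, add_im, mul_im] at a b
      have c := norm_le_abs_re_add_abs_im z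
      have a' := abs_le.1 a
      have b' := abs_le.1 b
      have f' := abs_le.1 f
      have h' := abs_lt.1 h1
      have r : |z.re| < 3 * ε / 8 := abs_lt.2 ⟨by linarith, by linarith⟩
      have i : |z.im| < 5 * ε / 8 := abs_lt.2 ⟨by linarith, by linarith⟩
      have l := abs_le.1 (Lφ z.re ξ.re (by linarith) (by linarith))
      exact hD z (by linarith) (by linarith)
    have mb : ξ + φ ξ.re * I ∈ closure D :=
      subset_closure (sub (Metric.mem_closedBall_self (by positivity)))
    obtain ⟨z, k1, k2⟩ := ap.surjOn_closedBall_of_nonlinearRightInverse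
      ⟨id, 1, fun y => by simp, fun y => rfl⟩ (by positivity) (sub.trans subset_closure) (a := ξ) (by
        have := LX _ mb _ (hm _ h4)
        rw [hX _ h4, show ξ + φ ξ.re * I - (ξ.re + φ ξ.re * I) = ξ.im * I by
          simp [Complex.ext_iff], show X (ξ + φ ξ.re * I) - ξ.re - ξ.im * I
            = X (ξ + φ ξ.re * I) - ξ by rw [sub_sub, re_add_im]] at this
        rw [mem_closedBall_iff_norm']
        simp only [norm_mul, norm_real, norm_I, Real.norm_eq_abs, abs_of_pos h] at this
        push_cast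
        linarith)
    exact ⟨z, subset_closure (sub k1), k2, fun _ => sub k1, fun k => absurd k h.ne'⟩
  choose! Z z1 z2 z3 z4 using ex
  let H : Set ℂ := {ξ | |ξ.re| < ε / 4 ∧ 0 ≤ ξ.im ∧ ξ.im < ε / 4}
  have cZ : ContinuousOn Z H := (LipschitzOnWith.of_dist_le_mul (K := 3 / 2) fun a ha b hb => by
    have := LX _ (z1 a ha) _ (z1 b hb)
    rw [z2 a ha, z2 b hb] at this
    have k := norm_sub_norm_le (Z a - Z b) (a - b)
    rw [norm_sub_rev (Z a - Z b)] at k
    rw [dist_eq_norm, dist_eq_norm]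
    push_cast
    linarith).continuousOn
  let g : ℂ → ℂ := fun ξ => -I * (Z ξ - ξ)
  have cg : ContinuousOn g H := continuousOn_const.mul (cZ.sub continuousOn_id)
  have dg : ∀ ξ : ℂ, |ξ.re| < ε / 4 → 0 < ξ.im → ξ.im < ε / 4 → DifferentiableAt ℂ g ξ := by
    intro ξ h1 h2 h3
    have n : H ∈ 𝓝 ξ := by
      filter_upwards [(isOpen_lt continuous_re.abs continuous_const).mem_nhds h1,
        (isOpen_lt continuous_const continuous_im).mem_nhds h2,
        (isOpen_lt continuous_im continuous_const).mem_nhds h3] with x a b c using ⟨a, le_of_lt b, c⟩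
    have m := z3 ξ ⟨h1, h2.le, h3⟩ h2
    have d := (dX.differentiableAt (hO.mem_nhds m)).hasDerivAt
    have l := (d.sub (hasDerivAt_id _)).le_of_lip' (C := 1 / 3) (by norm_num) (by
      filter_upwards [hO.mem_nhds m] with x hx
      have := LX _ (subset_closure hx) _ (subset_closure m)
      rwa [sub_sub_sub_comm] at this)
    have := (HasDerivAt.of_local_left_inverse (cZ.continuousAt n) d (fun e => by
      rw [e] at l; norm_num at l) (mem_of_superset n z2)).differentiableAt
    fun_prop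
  have gr : ∀ r : ℝ, |r| < ε / 4 → g r = φ r := fun r hr => by
    simp only [g]
    rw [z4 r ⟨by simpa using hr, by simp, by simp [e0]⟩ (by simp)]
    simp [Complex.ext_iff]
  let B : Set ℂ := {ξ | |ξ.re| < ε / 4 ∧ |ξ.im| < ε / 4}
  have oB : IsOpen B := (isOpen_lt continuous_re.abs continuous_const).inter
    (isOpen_lt continuous_im.abs continuous_const)
  have dΨ : DifferentiableOn ℂ (fun ξ => if 0 ≤ ξ.im then g ξ
      else (starRingEnd ℂ) (g ((starRingEnd ℂ) ξ))) B := by
    refine line_rem oB (ContinuousOn.if (fun a ha => ?_) (cg.mono fun a ha => ?_) ?_) fun ξ hξ h => ?_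
    · have := frontier_le_subset_eq continuous_const continuous_im ha.2
      obtain ⟨r, rfl⟩ : ∃ r : ℝ, a = r := ⟨a.re, by simp [Complex.ext_iff, ← (show 0 = a.im from this)]⟩
      rw [conj_ofReal, gr r (by simpa using ha.1.1), conj_ofReal]
    · exact ⟨ha.1.1, closure_minimal Subset.rfl (isClosed_le continuous_const continuous_im) ha.2,
        (abs_lt.1 ha.1.2).2⟩
    · refine continuous_conj.comp_continuousOn (cg.comp continuous_conj.continuousOn fun a ha => ?_)
      have : a.im ≤ 0 := closure_minimal (fun x hx => (not_le.1 hx).le)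
        (isClosed_le continuous_im continuous_const) ha.2
      exact ⟨by simpa using ha.1.1, by simpa using this, by simpa using neg_lt.1 (abs_lt.1 ha.1.2).1⟩
    · rcases h.lt_or_gt with h | h
      · refine (differentiableAt_conj_conj_iff.2 (dg _ (by simpa using hξ.1) (by simpa using h)
          (by simpa using neg_lt.1 (abs_lt.1 hξ.2).1))).congr_of_eventuallyEq ?_
        filter_upwards [(isOpen_lt continuous_im continuous_const).mem_nhds h] with x hx
        exact if_neg (not_le.2 hx)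
      · refine (dg _ hξ.1 h (abs_lt.1 hξ.2).2).congr_of_eventuallyEq ?_
        filter_upwards [(isOpen_lt continuous_const continuous_im).mem_nhds h] with x hx
        exact if_pos (le_of_lt hx)
  have an := (dΨ.analyticAt (z := ((0 : ℝ) : ℂ)) (oB.mem_nhds ⟨by simp [e0], by simp [e0]⟩)).restrictScalars (𝕜 := ℝ)
  refine ((reCLM.analyticAt _).comp (an.comp (ofRealCLM.analyticAt 0))).congr ?_
  filter_upwards [(isOpen_lt continuous_abs continuous_const).mem_nhds
    (show |(0 : ℝ)| < ε / 4 by simp [e0])] with r hr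
  simp [gr r hr]

end Pool.Agent.MP_ed9623_an.H64
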