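import Pool.Agent.MP_ed9623_an.H64.Lewy2
import Pool.Agent.MP_ed9623_an.H64.Lewy3

open Filter Topology MeasureTheory Set Complex

namespace Pool.Agent.MP_ed9623_an.H64

theorem lewy {φ φ' : ℝ → ℝ} (hφ : ∀ r, HasDerivAt φ (φ' r) r) (cφ : Continuous φ') (φ0 : φ 0 = 0)
    (φ1 : φ' 0 = 0) {η : ℝ} (η0 : 0 < η) (cv : ConvexOn ℝ (Ioo (-η) η) φ) {P U : ℂ → ℂ}
    (hP : ContDiff ℝ 1 P) (hU : ContDiff ℝ 1 U) {β : ℂ}
    (h : ∀ᶠ z in 𝓝 (0 : ℂ), (φ z.re < z.im → fderiv ℝ P z 1 + I * fderiv ℝ P z I = 2 * U z ∧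
      fderiv ℝ U z 1 - I * fderiv ℝ U z I = 2 * β * P z) ∧ (z.im = φ z.re → P z = 0 ∧ U z = 1)) :
    AnalyticAt ℝ φ 0 := by
  obtain ⟨J, H, dJ, dH, J0, J1, JH⟩ := bessel β
  have H0 : H 0 = 1 := by simpa [J0] using JH 0
  have cJ : ContDiff ℝ 1 J := (dJ.contDiff (n := 1)).restrict_scalars ℝ
  have cH : ContDiff ℝ 1 H := (dH.contDiff (n := 1)).restrict_scalars ℝ
  have cH' : ContDiff ℂ 1 (deriv H) := dH.deriv.contDiff
  have cc : ContDiff ℝ 1 fun x : ℂ => (starRingEnd ℂ) x := conjCLE.contDiff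
  have c0 : Continuous φ := continuous_iff_continuousAt.2 fun u => (hφ u).continuousAt
  have b1 : ∀ᶠ z in 𝓝 (0 : ℂ), |φ' z.re| ≤ 1 / 2 ∧ |z.re| < η :=
    ((by fun_prop : Continuous fun z : ℂ => |φ' z.re|).continuousAt.eventually
      (ge_mem_nhds (by simp [φ1]))).and (continuous_re.abs.continuousAt.eventually
        (gt_mem_nhds (by simpa using η0)))
  obtain ⟨e, e0, he⟩ := Metric.eventually_nhds_iff_ball.1 (h.and b1)
  simp only [mem_ball_zero_iff] at he
  have b2 : ∀ r : ℝ, |r| < e → |φ' r| ≤ 1 / 2 := fun r hr => by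
    simpa using (he r (by simpa using hr)).2.1
  have Lφ : ∀ a b, |a| < e → |b| < e → |φ a - φ b| ≤ 1 / 2 * |a - b| := fun a b ha hb =>
    (convex_ball (0 : ℝ) e).norm_image_sub_le_of_norm_hasDerivWithin_le
      (fun x _ => (hφ x).hasDerivWithinAt) (fun x hx => b2 x (by simpa using hx))
      (by simpa using hb) (by simpa using ha)
  let γ : ℝ → ℂ := fun r => r + φ r * I
  let γ' : ℝ → ℂ := fun r => 1 + φ' r * I
  have hγ : ∀ r, HasDerivAt γ (γ' r) r := fun r =>
    (hasDerivAt_id r).ofReal_comp.add ((hφ r).ofReal_comp.mul_const I)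
  have cγ : Continuous γ := by fun_prop
  have cγ' : Continuous γ' := by fun_prop
  have g0 : γ 0 = 0 := by simp [γ, φ0]
  have bγ : ∀ r, |r| < e → ‖γ r‖ ≤ 3 / 2 * |r| := fun r hr => by
    have := Lφ r 0 hr (by simpa using e0)
    rw [φ0, sub_zero, sub_zero] at this
    have k := norm_le_abs_re_add_abs_im (γ r)
    simp only [γ, add_re, ofReal_re, mul_re, I_re, mul_zero, ofReal_im, I_im, mul_one, sub_self,
      add_zero, add_im, mul_im, zero_add] at k ⊢
    linarith
  have PU : ∀ r, |r| < e / 2 → P (γ r) = 0 ∧ U (γ r) = 1 := fun r hr =>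
    (he _ (by linarith [bγ r (by linarith)])).1.2 (by simp [γ])
  let D : ℝ → Set ℂ := fun ε => {z | ‖z‖ < ε ∧ φ z.re < z.im}
  have oD : ∀ ε, IsOpen (D ε) := fun ε => (isOpen_lt continuous_norm continuous_const).inter
    (isOpen_lt (by fun_prop) continuous_im)
  have vD : ∀ ε ≤ e, Convex ℝ (D ε) := fun ε hε a ha b hb s t s0 t0 st => by
    have m := fun z (hz : z ∈ D ε) => abs_lt.1 (he z (hz.1.trans_le hε)).2.2
    refine ⟨mem_ball_zero_iff.1 (convex_ball (0 : ℂ) ε (mem_ball_zero_iff.2 ha.1)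
      (mem_ball_zero_iff.2 hb.1) s0 t0 st), ?_⟩
    simpa using (cv.convex_strict_epigraph (x := (a.re, a.im)) ⟨m a ha, ha.2⟩ (y := (b.re, b.im))
      ⟨m b hb, hb.2⟩ s0 t0 st).2
  have mD : ∀ ε ≤ e, ∀ r, |r| < ε / 2 → γ r ∈ closure (D ε) := fun ε hε r hr => by
    have t : Tendsto (fun y : ℝ => γ r + y * I) (𝓝 0) (𝓝 (γ r)) := by
      simpa using (by fun_prop : Continuous fun y : ℝ => γ r + y * I).tendsto 0
    refine mem_closure_of_tendsto (t.mono_left (nhdsWithin_le_nhds (s := Ioi 0))) ?_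
    filter_upwards [self_mem_nhdsWithin, mem_nhdsWithin_of_mem_nhds (t.norm.eventually
      (gt_mem_nhds (show ‖γ r‖ < ε by linarith [bγ r (by linarith), abs_nonneg r])))] with y a b
    exact ⟨b, by simpa [γ] using a⟩
  let A : ℂ × ℂ → ℂ := fun p => P p.2 * (β * ((starRingEnd ℂ) p.2
    * H ((p.2 - p.1) * (starRingEnd ℂ) p.2)))
  let B : ℂ × ℂ → ℂ := fun p => U p.2 * J ((p.2 - p.1) * (starRingEnd ℂ) p.2)
  have cA : ContDiff ℝ 1 A := by fun_prop
  have cB : ContDiff ℝ 1 B := by fun_prop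
  have cl : ∀ ε ≤ e, ∀ z, ∀ t ∈ D ε, ∃ L M : ℂ →L[ℝ] ℂ, HasFDerivAt (fun t => A (z, t)) L t ∧
      HasFDerivAt (fun t => B (z, t)) M t ∧ L 1 + I * L I = M 1 - I * M I := fun ε hε z t ht => by
    obtain ⟨k1, k2⟩ := (he t (ht.1.trans_le hε)).1.1 ht.2
    have j := conjCLE.hasFDerivAt (x := t)
    have x := ((hasFDerivAt_id (𝕜 := ℝ) t).sub_const z).mul j
    refine ⟨_, _, (hP.differentiable one_ne_zero t).hasFDerivAt.mul ((j.mul
      (((dH _).hasDerivAt.hasFDerivAt.restrictScalars ℝ).comp t x)).const_mul β),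
      (hU.differentiable one_ne_zero t).hasFDerivAt.mul
        (((dJ _).hasDerivAt.hasFDerivAt.restrictScalars ℝ).comp t x), ?_⟩
    have q := JH ((t - z) * (starRingEnd ℂ) t)
    simp [J1]
    rw [← q]
    linear_combination (β * (starRingEnd ℂ) t * H ((t - z) * (starRingEnd ℂ) t)) * k1
      - (H ((t - z) * (starRingEnd ℂ) t) + (t - z) * (starRingEnd ℂ) t
        * deriv H ((t - z) * (starRingEnd ℂ) t)) * k2 + (β * (P t * ((starRingEnd ℂ) t
        * deriv H ((t - z) * (starRingEnd ℂ) t) * ((starRingEnd ℂ) t - (t - z))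
        - H ((t - z) * (starRingEnd ℂ) t)) + U t * H ((t - z) * (starRingEnd ℂ) t)
        * ((starRingEnd ℂ) t - (t - z)))) * I_mul_I
  let W : ℂ → ℂ := fun z => Ph A B (z, z) - P z
  have cW : ContDiff ℝ 1 W := ((cd_Ph cA cB).comp (contDiff_id.prodMk contDiff_id)).sub hP
  have z0 : ∀ ε ≤ e, 0 < ε → (0 : ℂ) ∈ closure (D ε) := fun ε h1 h2 =>
    g0 ▸ mD ε h1 0 (by simpa using h2)
  have dW : ∀ z ∈ D e, fderiv ℝ W z I = I • fderiv ℝ W z 1 := fun z hz => by
    obtain ⟨a, ha⟩ := Ph_diag cA cB (fun t => by simp only [A]; fun_prop)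
      (fun t => by simp only [B]; fun_prop) (oD e) (vD e le_rfl) (z0 e le_rfl e0) hz (cl e le_rfl z)
    have k1 := ((he z hz.1).1.1 hz.2).1
    rw [HasFDerivAt.fderiv (f := W) (ha.sub (hP.differentiable one_ne_zero z).hasFDerivAt)]
    simp [lm_apply, B, J0]
    linear_combination I * k1 - fderiv ℝ P z I * I_mul_I
  have W1 : fderiv ℝ W 0 = ContinuousLinearMap.id ℝ ℂ := by
    have c := cW.continuous_fderiv one_ne_zero
    have k1 : fderiv ℝ W 0 I = I • fderiv ℝ W 0 1 :=
      closure_minimal dW (isClosed_eq (by fun_prop) (by fun_prop)) (z0 e le_rfl e0)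
    have o : {u : ℝ | |u| < e / 2} ∈ 𝓝 0 :=
      (isOpen_lt continuous_abs continuous_const).mem_nhds (by simpa using e0)
    have y : HasDerivAt γ 1 0 := by simpa [γ', φ1] using hγ 0
    have F := ((cd_Ph cA cB).differentiable one_ne_zero (0, 0)).hasFDerivAt
    have p := (hP.differentiable one_ne_zero 0).hasFDerivAt
    have k2 := (HasFDerivAt.comp_hasDerivAt_of_eq (f := γ) 0 p y g0.symm).unique
      ((hasDerivAt_const 0 0).congr_of_eventuallyEq (mem_of_superset o fun u hu => (PU u hu).1))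
    have k3 := (HasFDerivAt.comp_hasDerivAt_of_eq (f := fun u => (γ u, 0)) 0 F
      (y.prodMk (hasDerivAt_const 0 0)) (by rw [g0])).unique ((hasDerivAt_const 0 0).congr_of_eventuallyEq
        (Eventually.of_forall fun u => by simp [Ph]))
    have k4 := (HasFDerivAt.comp_hasDerivAt_of_eq (f := fun u => (0, γ u)) 0 F
      ((hasDerivAt_const 0 0).prodMk y) (by rw [g0])).unique
        (((Ph_deriv cA cB (vD e le_rfl) (z0 e le_rfl e0) 0 (cl e le_rfl 0)
          (mD e le_rfl 0 (by simpa using e0))).comp_hasDerivWithinAt 0 y.hasDerivWithinAt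
            (mD e le_rfl)).hasDerivAt o)
    have k5 : fderiv ℝ W 0 1 = 1 := by
      rw [HasFDerivAt.fderiv (f := W) ((HasFDerivAt.comp (f := fun e => (e, e)) 0 F
        ((hasFDerivAt_id (𝕜 := ℝ) (0 : ℂ)).prodMk (hasFDerivAt_id 0))).sub p)]
      have := PU 0 (by simpa using e0)
      simp only [ContinuousLinearMap.sub_apply, ContinuousLinearMap.comp_apply,
        ContinuousLinearMap.prod_apply, ContinuousLinearMap.id_apply]
      rw [show ((1, 1) : ℂ × ℂ) = (1, 0) + (0, 1) by simp, map_add, k2, k3, k4]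
      simp only [lm_apply, A, B, this]
      simp [g0, J0]
    refine ContinuousLinearMap.ext fun v => ?_
    conv_lhs => rw [show v = v.re • (1 : ℂ) + v.im • I by simp]
    rw [map_add, map_smul, map_smul, k1, k5]
    simp
  obtain ⟨T, hT, aW⟩ := (cW.contDiffAt.hasStrictFDerivAt (x := 0) one_ne_zero).approximates_deriv_on_nhds
      (c := 1 / 3) (Or.inr (by norm_num))
  rw [W1] at aW
  let N : ℂ × ℂ × ℂ → ℂ := fun p => p.2.2 ^ 2 * deriv H ((p.2.1 - p.1) * p.2.2)
  have cN : ContDiff ℂ 1 N := by fun_prop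
  obtain ⟨C, hC⟩ := (cN.restrict_scalars ℝ).contDiffOn.exists_lipschitzOnWith one_ne_zero
    (convex_closedBall 0 1) (isCompact_closedBall 0 1)
  obtain ⟨ε, ⟨⟨⟨k1, k2⟩, k3⟩, k4⟩, k0⟩ := ((((eventually_closedBall_subset hT).and
    (ge_mem_nhds e0)).and ((by fun_prop : Continuous fun x : ℝ => 3 * x).continuousAt.eventually
      (ge_mem_nhds (a := 1) (by simp)))).and
    ((by fun_prop : Continuous fun x : ℝ => C * x).continuousAt.eventually
      (ge_mem_nhds (a := 1 / 12) (by simp)))).filter_mono (nhdsWithin_le_nhds (s := Ioi 0))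
        |>.and self_mem_nhdsWithin |>.exists
  have k0 : 0 < ε := k0
  have bD : ∀ z ∈ closure (D ε), ‖z‖ ≤ ε :=
    closure_minimal (fun z hz => hz.1.le) (isClosed_le continuous_norm continuous_const)
  have LW : ∀ a ∈ closure (D ε), ∀ b ∈ closure (D ε), ‖W a - W b - (a - b)‖ ≤ 1 / 3 * ‖a - b‖ :=
    fun a ha b hb => by
      simpa using aW a (k1 (mem_closedBall_zero_iff.2 (bD a ha))) b
        (k1 (mem_closedBall_zero_iff.2 (bD b hb)))
  have cj := cc.continuous
  obtain ⟨s, s1, s2, s3⟩ := volterra cN (fun z t => by simp [N]) cW (oD ε) (vD ε k2)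
    (fun z hz => (differentiableAt_complex_iff_differentiableAt_real.2
      ⟨cW.differentiable one_ne_zero z, dW z ⟨hz.1.trans_le k2, hz.2⟩⟩).differentiableWithinAt)
    C.2 (fun p q hp hq => hC.norm_sub_le (mem_closedBall_zero_iff.2 hp) (mem_closedBall_zero_iff.2 hq))
    bD (fun z hz => by
      have := LW z hz 0 (z0 ε k2 k0)
      have w0 : W 0 = 0 := by simpa [W, Ph, g0] using (PU 0 (by simpa using e0)).1
      rw [w0, sub_zero, sub_zero] at this
      linarith [norm_sub_norm_le (W z) z, bD z hz, norm_nonneg z]) k3 k4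
    (S := fun r => (starRingEnd ℂ) (γ r)) hγ cγ' g0 (half_pos k0) (half_le_self k0.le) (mD ε k2)
    (fun u hu => (norm_add_le _ _).trans (by
      have := b2 u (by linarith)
      simp only [norm_one, norm_mul, norm_real, norm_I, Real.norm_eq_abs]
      linarith)) (by fun_prop) (fun u hu => by
      rw [norm_conj]; linarith [bγ u (by linarith)]) (fun r hr => by
      have ca := cA.continuous
      have cb := cB.continuous
      have cn := cN.continuous
      simp only [W]
      rw [Ph_arc cA cB (vD ε k2) _ (cl ε k2 _) hγ cγ' g0 (mD ε k2) hr, (PU r (by linarith)).1,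
        sub_zero, ← intervalIntegral.integral_add (Continuous.intervalIntegrable (by fun_prop) _ _)
          (Continuous.intervalIntegrable (by fun_prop) _ _),
        intervalIntegral.integral_eq_sub_of_hasDerivAt (f := fun u => (starRingEnd ℂ) (γ u)
          * H ((γ u - γ r) * (starRingEnd ℂ) (γ u))) (fun u hu => ?_)
          (Continuous.intervalIntegrable (by fun_prop) _ _)]
      · simp [g0, H0]
      have hu' : |u| < e / 2 :=
        lt_of_le_of_lt (by simpa using abs_sub_left_of_mem_uIcc hu) (hr.trans_le (by linarith))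
      have j : HasDerivAt (fun u => (starRingEnd ℂ) (γ u)) ((starRingEnd ℂ) (γ' u)) u :=
        conjCLE.hasFDerivAt.comp_hasDerivAt u (hγ u)
      refine (j.mul ((dH _).hasDerivAt.comp_of_eq u (((hγ u).sub_const _).mul j) rfl)).congr_deriv ?_
      simp only [A, B, N, PU u hu', ← JH, Function.comp, Pi.mul_apply]
      ring)
  refine reflect (X := fun z => (z + s z) / 2) k0 φ0 (fun a b ha hb => Lφ a b (by linarith)
    (by linarith)) (oD ε) (fun z a b => ⟨a, b⟩) ((differentiableOn_id.add s1).div_const 2)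
    (fun a ha b hb => ?_) (mD ε k2) fun r hr => ?_
  · rw [show (a + s a) / 2 - (b + s b) / 2 - (a - b) = ((s a - W a - (s b - W b))
      + (W a - W b - (a - b))) / 2 by ring, norm_div, Complex.norm_two]
    linarith [norm_add_le (s a - W a - (s b - W b)) (W a - W b - (a - b)), s2 a ha b hb,
      LW a ha b hb]
  · rw [s3 r hr]
    simp [γ]
    ring

end Pool.Agent.MP_ed9623_an.H64
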