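import Pool.Agent.MP_ed9623_an.H64.NA1

open Filter Topology MeasureTheory Set

namespace Pool.Agent.MP_ed9623_an.H64

variable {ρ : ℝ × ℝ → ℝ} {x₀ : ℝ × ℝ} {ε : ℝ} {I : Set ℝ}

theorem loc_uc (hρ : ∀ k : ℕ, ContDiff ℝ k ρ) (h0 : ρ x₀ = 0) (hd : fderiv ℝ ρ x₀ ≠ 0) (hε : 0 < ε)
    (hI : IsOpen I) {w : ST → ℝ} (hw : ContDiff ℝ (4 : ℕ) w)
    (hS : ∀ y : ST, y.1 ∈ I → y.2 ∈ Metric.ball x₀ ε → ρ y.2 < 0 → Lh w y = 0)
    (hB : ∀ y : ST, y.1 ∈ I → y.2 ∈ Metric.ball x₀ ε → ρ y.2 = 0 →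
      curv2 ρ y.2 ≠ 0 ∧ w y = 0 ∧ ∀ e, pd e w y = 0) :
    ∀ y : ST, y.1 ∈ I → y.2 ∈ Metric.ball x₀ ε → ρ y.2 < 0 → w y = 0 := by
  set r : ST → ℝ := fun y => ρ y.2
  have hr : ContDiff ℝ (4 : ℕ) r := (hρ 4).comp contDiff_snd
  have cr := hr.continuous
  have l2 := cdg_le hw (by norm_num : 2 ≤ 4)
  have hO : IsOpen {y : ST | y.1 ∈ I ∧ y.2 ∈ Metric.ball x₀ ε} :=
    (hI.preimage continuous_fst).inter (Metric.isOpen_ball.preimage continuous_snd)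
  have hess : ∀ z : ST, z.1 ∈ I → z.2 ∈ Metric.ball x₀ ε → r z = 0 →
      ∀ e e', pd e (pd e' w) z = 0 := fun z h1 h2 h =>
    hess_zero (a1 := fun _ => 0) (a2 := fun _ => 0) (b := fun _ => 0) hr hw continuous_const
      continuous_const continuous_const h (by rw [curv_snd (hρ 2)]; exact (hB z h1 h2 h).1) rfl
      (mem_of_superset (hO.mem_nhds ⟨h1, h2⟩) fun y hy hn => by
        have := hS y hy.1 hy.2 hn
        unfold Lh at this
        unfold heat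
        linarith) (mem_of_superset (hO.mem_nhds ⟨h1, h2⟩) fun y hy hn => (hB y hy.1 hy.2 hn).2)
  obtain ⟨x₁, hx₁, hx₁'⟩ := mem_closure_iff_nhds.1 (mem_closure_pos h0 hd) _
    (Metric.ball_mem_nhds x₀ hε)
  intro y h1 h2 h3
  have := (uc_connected Metric.isOpen_ball (convex_ball x₀ ε).isPreconnected hI
    (W₁ := {x | r x < 0}.indicator w) (W₂ := fun _ => 0) (Cf := fun _ => 0) continuous_const
    (fun z h1 h2 => ?_) hx₁ (by
      filter_upwards [(isOpen_lt continuous_const (hρ 0).continuous).mem_nhds hx₁'] with x hx t _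
      exact ⟨indicator_of_notMem (s := {x | r x < 0}) (not_lt.2 (le_of_lt hx)) _, rfl⟩) y.2 h2 y.1 h1).1
  · rwa [indicator_of_mem (s := {x | r x < 0}) h3] at this
  have L : ∀ᶠ y in 𝓝 z, r y = 0 → w y = 0 ∧ (∀ e, pd e w y = 0) ∧
      ∀ e e', pd e (pd e' w) y = 0 := by
    filter_upwards [hO.mem_nhds ⟨h1, h2⟩] with y hy h using
      ⟨(hB y hy.1 hy.2 h).2.1, (hB y hy.1 hy.2 h).2.2, hess y hy.1 hy.2 h⟩
  refine ⟨ind_C2 cr l2 (L.mono fun y hy h => ⟨(hy h).1, fderiv_zero_of_pd (hy h).2.1,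
    fderiv2_zero_of_pd l2 (hy h).2.2⟩), contDiffAt_const, ?_⟩
  have z0 : Lh (fun _ => 0) z = 0 := by simp only [Lh, pd_zero_fun]; ring
  suffices Lh ({x | r x < 0}.indicator w) z = 0 by rw [this, z0]; simp
  by_cases hn : r z < 0
  · rw [Lh_congr (ind_neg cr w hn), hS z h1 h2 hn]
  have p1 : ∀ e, pd e ({x | r x < 0}.indicator w) =ᶠ[𝓝 z] {x | r x < 0}.indicator (pd e w) :=
    fun e => L.mono fun y hy => pd_ind cr (cdg_diff hw (by norm_num) y)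
      (fun h => ⟨(hy h).1, (hy h).2.1⟩) e
  have p2 : ∀ e, pd e (pd e ({x | r x < 0}.indicator w)) z = 0 := fun e => by
    rw [pd_congr_pt e (p1 e), pd_ind cr (cdg_diff (contDiff_pd (n := 3) e hw) (by norm_num) z)
      (fun h => ⟨(L.self_of_nhds h).2.1 e, fun e' => (L.self_of_nhds h).2.2 e' e⟩) e]
    exact indicator_of_notMem (s := {x | r x < 0}) hn _
  unfold Lh
  rw [p2, p2, (p1 e0).eq_of_nhds, indicator_of_notMem (s := {x | r x < 0}) hn]; ring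

theorem gsq_ne {x : ℝ × ℝ} (k : curv2 ρ x ≠ 0) : 0 < gsq ρ x := by
  refine lt_of_le_of_ne (by unfold gsq; positivity) fun e => k ?_
  unfold gsq at e
  unfold curv2
  generalize pd (1, 0) ρ x = r1 at *
  generalize pd (0, 1) ρ x = r2 at *
  rw [show r1 = 0 by nlinarith [sq_nonneg r1, sq_nonneg r2],
    show r2 = 0 by nlinarith [sq_nonneg r1, sq_nonneg r2]]
  ring

theorem grad_arc (hρ : ∀ k : ℕ, ContDiff ℝ k ρ) {w1 w2 : ST → ℝ} (hw1 : ContDiff ℝ (2 : ℕ) w1)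
    (hw2 : ContDiff ℝ (2 : ℕ) w2) {y : ST} (hy : ρ y.2 = 0) (k : curv2 ρ y.2 ≠ 0)
    (hB : ∀ y : ST, ρ y.2 = 0 → w1 y = 0 ∧ w2 y = 0)
    (hS : ∀ᶠ z : ST in 𝓝 y, ρ z.2 < 0 → pd e1 w1 z + pd e2 w2 z = 0) (o : vort w1 w2 y = 0) (e : ST) :
    pd e w1 y = 0 ∧ pd e w2 y = 0 := by
  have hr : ∀ k : ℕ, ContDiff ℝ k fun y : ST => ρ y.2 := fun k => (hρ k).comp contDiff_snd
  have rd : fderiv ℝ (fun y : ST => ρ y.2) y ≠ 0 := fderiv_ne_of_curv (by rwa [curv_snd (hρ 2)])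
  have dv : ∀ f : ST → ℝ, ContDiff ℝ (2 : ℕ) f → (∀ y : ST, ρ y.2 = 0 → f y = 0) →
      ∃ W : ℝ, ∀ e, pd e f y = pd e.2 ρ y.2 * W := fun f hf hv => by
    obtain ⟨W, b1, b2⟩ := exists_div (n := 1) (z₀ := y) (hr 2).contDiffAt hf.contDiffAt
      hy rd (Eventually.of_forall hv)
    exact ⟨_, fun e => by
      rw [grad_zero_of_van (hr 1).contDiffAt b1 hy (b2.mono fun y hy => by simpa using hy),
        pd_snd_fun (hρ 1)]⟩
  obtain ⟨W1, q1⟩ := dv w1 hw1 fun y hy => (hB y hy).1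
  obtain ⟨W2, q2⟩ := dv w2 hw2 fun y hy => (hB y hy).2
  have d := eq_zero_of_closure ((contDiff_pd (n := 1) e1 hw1).continuous.add
    (contDiff_pd (n := 1) e2 hw2).continuous).continuousAt (mem_closure_neg hy rd) hS
  simp only [vort, Pi.add_apply, Pi.sub_apply, q1, q2] at d o ⊢
  have G := (gsq_ne k).ne'
  unfold gsq at G
  generalize pd (1, 0) ρ y.2 = r1 at *
  generalize pd (0, 1) ρ y.2 = r2 at *
  have z1 : W1 = 0 := (mul_eq_zero.1 (by linear_combination r1 * d - r2 * o)).resolve_left G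
  have z2 : W2 = 0 := (mul_eq_zero.1 (by linear_combination r2 * d + r1 * o)).resolve_left G
  simp [z1, z2]

/-- A second order operator in time with constant coefficients. -/
noncomputable def Tm (a b c : ℝ) (f : ST → ℝ) : ST → ℝ :=
  fun y => a * pd e0 (pd e0 f) y + b * pd e0 f y + c * f y

variable {a b c : ℝ} {f g : ST → ℝ}

theorem cd_Tm {n : ℕ} (hf : ContDiff ℝ (n + 2 : ℕ) f) : ContDiff ℝ n (Tm a b c f) :=
  ((contDiff_const.mul (contDiff_pd _ (contDiff_pd _ hf))).add (contDiff_const.mul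
    (contDiff_pd _ (cdg_le hf (by omega))))).add (contDiff_const.mul (cdg_le hf (by omega)))

theorem pd_Tm (hf : ContDiff ℝ (3 : ℕ) f) (e : ST) : pd e (Tm a b c f) = Tm a b c (pd e f) := by
  funext y
  have f2 := cdg_le hf (by norm_num : 2 ≤ 3)
  have f1 := contDiff_pd (n := 2) e0 hf
  have d := fun {f : ST → ℝ} (h : ContDiff ℝ (1 : ℕ) f) => HD.of_diff (e := e) (cdg_diff h le_rfl y)
  rw [HD.pd_eq (f := Tm a b c f) ((((d (contDiff_pd e0 f1)).cmul a).add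
    ((d (contDiff_pd e0 f2)).cmul b)).add ((d (cdg_le f2 one_le_two)).cmul c))
    (cdg_diff (cd_Tm (n := 1) hf) le_rfl y), pd_comm_fun e e0 f1, pd_comm_fun e e0 f2]
  rfl

theorem Tm_lin (hf : ContDiff ℝ (2 : ℕ) f) (hg : ContDiff ℝ (2 : ℕ) g) (s : ℝ) (y : ST) :
    Tm a b c (fun y => f y + s * g y) y = Tm a b c f y + s * Tm a b c g y := by
  have k : ∀ {f g : ST → ℝ}, ContDiff ℝ (1 : ℕ) f → ContDiff ℝ (1 : ℕ) g →
      pd e0 (fun y => f y + s * g y) = fun y => pd e0 f y + s * pd e0 g y := fun hf hg =>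
    funext fun y => by
      rw [pd_add _ (cdg_diff hf le_rfl y) ((cdg_diff hg le_rfl y).const_mul s),
        pd_const_mul _ _ (cdg_diff hg le_rfl y)]
  unfold Tm
  rw [k (cdg_le hf one_le_two) (cdg_le hg one_le_two), k (contDiff_pd _ hf) (contDiff_pd _ hg)]
  ring

theorem Tm_zero {y : ST} (h : ∀ᶠ z in 𝓝 y, f z = 0) : Tm a b c f y = 0 := by
  unfold Tm
  rw [h.self_of_nhds, (pd_zero_on_open _ h).self_of_nhds,
    (pd_zero_on_open _ (pd_zero_on_open _ h)).self_of_nhds]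
  ring

theorem vec_uc (hρ : ∀ k : ℕ, ContDiff ℝ k ρ) (h0 : ρ x₀ = 0) (hd : fderiv ℝ ρ x₀ ≠ 0) (hε : 0 < ε)
    (hI : IsOpen I) {w1 w2 : ST → ℝ} (hw1 : ContDiff ℝ (6 : ℕ) w1) (hw2 : ContDiff ℝ (6 : ℕ) w2)
    (hS : ∀ y : ST, y.1 ∈ I → y.2 ∈ Metric.ball x₀ ε → ρ y.2 < 0 →
      Lh w1 y = 0 ∧ Lh w2 y = 0 ∧ pd e1 w1 y + pd e2 w2 y = 0)
    (hB : ∀ y : ST, ρ y.2 = 0 → w1 y = 0 ∧ w2 y = 0)
    (hV : ∀ y : ST, y.1 ∈ I → y.2 ∈ Metric.ball x₀ ε → ρ y.2 = 0 →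
      curv2 ρ y.2 ≠ 0 ∧ Tm a b c (vort w1 w2) y = 0) :
    ∀ y : ST, y.1 ∈ I → y.2 ∈ Metric.ball x₀ ε → ρ y.2 < 0 →
      Tm a b c w1 y = 0 ∧ Tm a b c w2 y = 0 := by
  have hO : IsOpen {y : ST | y.1 ∈ I ∧ y.2 ∈ Metric.ball x₀ ε} :=
    (hI.preimage continuous_fst).inter (Metric.isOpen_ball.preimage continuous_snd)
  have ev : ∀ y : ST, y.1 ∈ I → y.2 ∈ Metric.ball x₀ ε → ρ y.2 < 0 → ∀ᶠ z in 𝓝 y,
      Lh w1 z = 0 ∧ Lh w2 z = 0 ∧ pd e1 w1 z + pd e2 w2 z = 0 := fun y h1 h2 h3 => by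
    filter_upwards [hO.mem_nhds ⟨h1, h2⟩, (isOpen_lt ((hρ 0).continuous.comp continuous_snd)
      continuous_const).mem_nhds h3] with z k1 k2 using hS z k1.1 k1.2 k2
  have l3 := fun {f : ST → ℝ} (h : ContDiff ℝ (6 : ℕ) f) => cdg_le h (by norm_num : 3 ≤ 6)
  have p2 := fun {f : ST → ℝ} (h : ContDiff ℝ (6 : ℕ) f) e => contDiff_pd (n := 2) e (l3 h)
  have p3 := fun {f : ST → ℝ} (h : ContDiff ℝ (6 : ℕ) f) e =>
    contDiff_pd (n := 3) e (cdg_le h (by norm_num))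
  have lh : ∀ {w : ST → ℝ}, ContDiff ℝ (6 : ℕ) w → ∀ y, (∀ᶠ z in 𝓝 y, Lh w z = 0) →
      Lh (Tm a b c w) y = 0 := fun {w} hw y h => by
    have q := fun e => contDiff_pd (n := 2) e (p3 hw e)
    have k := Tm_zero (a := a) (b := b) (c := c) (f := fun y => (pd e1 (pd e1 w) y
      + 1 * pd e2 (pd e2 w) y) + -1 * pd e0 w y) (h.mono fun z hz => by unfold Lh at hz; linarith)
    rw [Tm_lin ((q _).add (contDiff_const.mul (q _))) (p2 hw _), Tm_lin (q _) (q _)] at k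
    unfold Lh
    rw [pd_Tm (l3 hw), pd_Tm (l3 hw), pd_Tm (l3 hw), pd_Tm (p3 hw _), pd_Tm (p3 hw _)]
    linarith
  have tz : ∀ {w : ST → ℝ}, ContDiff ℝ (6 : ℕ) w → (∀ y : ST, ρ y.2 = 0 → w y = 0) →
      ∀ y : ST, ρ y.2 = 0 → Tm a b c w y = 0 := fun {w} hw h y hy => by
    have k := fun y => pd_time_zero (z := y) (cdg_le hw (by norm_num)) h
    unfold Tm
    rw [pd_time_zero (cdg_le (p2 hw _) one_le_two) k hy, k y hy, h y hy]
    ring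
  have t1 := tz hw1 fun y hy => (hB y hy).1
  have t2 := tz hw2 fun y hy => (hB y hy).2
  have gr := fun (y : ST) h1 h2 h3 => grad_arc hρ (cd_Tm (a := a) (b := b) (c := c) (n := 2)
    (cdg_le hw1 (by norm_num))) (cd_Tm (a := a) (b := b) (c := c) (n := 2) (cdg_le hw2 (by norm_num)))
    h3 (hV y h1 h2 h3).1 (fun y hy => ⟨t1 y hy, t2 y hy⟩) (by
      filter_upwards [hO.mem_nhds ⟨h1, h2⟩] with z k1 k2
      have k := Tm_zero (a := a) (b := b) (c := c) (f := fun y => pd e1 w1 y + 1 * pd e2 w2 y)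
        ((ev z k1.1 k1.2 k2).mono fun z hz => by linarith [hz.2.2])
      rw [Tm_lin (p2 hw1 _) (p2 hw2 _)] at k
      rw [pd_Tm (l3 hw1), pd_Tm (l3 hw2)]
      linarith) (by
      have k := (hV y h1 h2 h3).2
      rw [show vort w1 w2 = fun y => pd e1 w2 y + -1 * pd e2 w1 y from funext fun y => by
        simp [vort, sub_eq_add_neg], Tm_lin (p2 hw2 _) (p2 hw1 _)] at k
      rw [vort, Pi.sub_apply, pd_Tm (l3 hw1), pd_Tm (l3 hw2)]
      linarith)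
  exact fun y h1 h2 h3 => ⟨loc_uc hρ h0 hd hε hI (cd_Tm hw1)
    (fun y h1 h2 h3 => lh hw1 y ((ev y h1 h2 h3).mono fun _ h => h.1))
    (fun y h1 h2 h3 => ⟨(hV y h1 h2 h3).1, t1 y h3, fun e => (gr y h1 h2 h3 e).1⟩) y h1 h2 h3,
    loc_uc hρ h0 hd hε hI (cd_Tm hw2)
    (fun y h1 h2 h3 => lh hw2 y ((ev y h1 h2 h3).mono fun _ h => h.2.1))
    (fun y h1 h2 h3 => ⟨(hV y h1 h2 h3).1, t2 y h3, fun e => (gr y h1 h2 h3 e).2⟩) y h1 h2 h3⟩

end Pool.Agent.MP_ed9623_an.H64
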