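import Pool.Agent.MP_ed9623_an.H64.NA2
import Pool.Agent.MP_ed9623_an.H64.Lewy4

open Filter Topology MeasureTheory Set Complex

namespace Pool.Agent.MP_ed9623_an.H64

variable {ρ : ℝ × ℝ → ℝ} {x₀ : ℝ × ℝ}

/-- The rigid motion with origin `x₀` and first axis `τ`. -/
def Xi (x₀ τ p : ℝ × ℝ) : ℝ × ℝ := (x₀.1 + τ.1 * p.1 - τ.2 * p.2, x₀.2 + τ.2 * p.1 + τ.1 * p.2)

@[fun_prop] theorem cd_Xi (x₀ τ : ℝ × ℝ) (n : WithTop ℕ∞) : ContDiff ℝ n (Xi x₀ τ) := by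
  unfold Xi; fun_prop

theorem Xi_zero (x₀ τ : ℝ × ℝ) : Xi x₀ τ (0, 0) = x₀ := by simp [Xi]

theorem pd_Xi {g : ℝ × ℝ → ℝ} (hg : ContDiff ℝ (1 : ℕ) g) (τ e p : ℝ × ℝ) :
    pd e (fun p => g (Xi x₀ τ p)) p = (τ.1 * e.1 - τ.2 * e.2) * pd (1, 0) g (Xi x₀ τ p)
      + (τ.2 * e.1 + τ.1 * e.2) * pd (0, 1) g (Xi x₀ τ p) := by
  have l := fun a b : ℝ => ((hasDerivAt_id (0 : ℝ)).mul_const b).const_add a
  refine HD.pd_eq ?_ (cdg_diff (hg.comp (cd_Xi _ _ _)) le_rfl p)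
  simpa [HD, Xi] using hd_curve hg ((((l p.1 e.1).const_mul τ.1).const_add x₀.1).sub
    ((l p.2 e.2).const_mul τ.2)) ((((l p.1 e.1).const_mul τ.2).const_add x₀.2).add
    ((l p.2 e.2).const_mul τ.1))

theorem geo (hρ : ∀ k : ℕ, ContDiff ℝ k ρ) (h0 : ρ x₀ = 0) (hk : 0 < curv2 ρ x₀) :
    ∃ (τ : ℝ × ℝ) (φ : ℝ → ℝ), τ.1 ^ 2 + τ.2 ^ 2 = 1 ∧ ContDiff ℝ (2 : ℕ) φ ∧ φ 0 = 0 ∧ deriv φ 0 = 0 ∧
      (∃ η > 0, ConvexOn ℝ (Ioo (-η) η) φ) ∧ (∀ᶠ p in 𝓝 ((0, 0) : ℝ × ℝ),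
        (φ p.1 < p.2 → ρ (Xi x₀ τ p) < 0) ∧ (ρ (Xi x₀ τ p) = 0 ↔ p.2 = φ p.1)) ∧
      ((∀ᶠ x in 𝓝 x₀, ρ x = 0 → kap2 ρ x = 0) → AnalyticAt ℝ φ 0) ∧ (AnalyticAt ℝ φ 0 →
        ∃ F : ℝ × ℝ → ℝ, AnalyticAt ℝ F x₀ ∧ fderiv ℝ F x₀ ≠ 0 ∧ ∀ᶠ x in 𝓝 x₀, ρ x = 0 ↔ F x = 0) := by
  have g0 := gsq_ne hk.ne'
  obtain ⟨m, m0, m2⟩ : ∃ m, 0 < m ∧ m ^ 2 = gsq ρ x₀ := ⟨_, Real.sqrt_pos.2 g0, Real.sq_sqrt g0.le⟩
  have g1 := gsq.eq_1 ρ x₀
  obtain ⟨τ, t1, t2⟩ : ∃ τ : ℝ × ℝ, pd (1, 0) ρ x₀ = m * τ.2 ∧ pd (0, 1) ρ x₀ = -m * τ.1 :=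
    ⟨(-pd (0, 1) ρ x₀ / m, pd (1, 0) ρ x₀ / m), by field_simp, by field_simp⟩
  have t3 : τ.1 ^ 2 + τ.2 ^ 2 = 1 := mul_left_cancel₀ (pow_pos m0 2).ne' (by
    rw [t1, t2] at g1; linear_combination -g1 - m2)
  have p := fun e => contDiff_pd (n := 1) e (hρ 2)
  obtain ⟨φ, c, φ0, φ1, cv, h⟩ := graph (f := fun p => ρ (Xi x₀ τ p))
    (fun k => (hρ k).comp (cd_Xi _ _ _)) (by rwa [Xi_zero])
    (by rw [pd_Xi (hρ 1), Xi_zero, t1, t2]; ring)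
    (by rw [pd_Xi (hρ 1), Xi_zero, t1, t2]; nlinarith) (by
      have d : ∀ e, DifferentiableAt ℝ (fun y => pd e ρ (Xi x₀ τ y)) (0, 0) :=
        fun e => cdg_diff ((p e).comp (cd_Xi x₀ τ _)) le_rfl (0, 0)
      rw [funext (pd_Xi (hρ 1) τ (1, 0)), pd_add _ ((d _).const_mul _) ((d _).const_mul _),
        pd_const_mul _ _ (d _), pd_const_mul _ _ (d _), pd_Xi (p _), pd_Xi (p _), Xi_zero,
        pd_comm (0, 1) (1, 0) (hρ 2).contDiffAt]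
      unfold curv2 at hk
      rw [t1, t2] at hk
      refine pos_of_mul_pos_left (b := m ^ 2) (hk.trans_eq ?_) (by positivity)
      ring)
  refine ⟨τ, φ, t3, c, φ0, φ1, cv, h, fun hc => ?_, fun ha => ?_⟩
  · have d1 : ∀ r, HasDerivAt φ (deriv φ r) r := fun r => (cdg_diff c one_le_two r).hasDerivAt
    have c0 := c.continuous
    have t : Tendsto (fun r => (r, φ r)) (𝓝 0) (𝓝 ((0, 0) : ℝ × ℝ)) := by
      simpa [φ0] using (by fun_prop : Continuous fun r => (r, φ r)).tendsto 0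
    have t' := ((cd_Xi x₀ τ 0).continuous.tendsto (0, 0)).comp t
    rw [Xi_zero] at t'
    have k := circle hρ (a := fun r => x₀.1 + τ.1 * r - τ.2 * φ r)
      (b := fun r => x₀.2 + τ.2 * r + τ.1 * φ r)
      (fun r => (((hasDerivAt_id r).const_mul _).const_add _).sub ((d1 r).const_mul _))
      (fun r => (((hasDerivAt_id r).const_mul _).const_add _).add ((d1 r).const_mul _)) (by
        filter_upwards [t.eventually h, t'.eventually hc, t'.eventually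
          ((curv2_cont (hρ 2)).continuousAt.eventually_ne hk.ne')] with r a b d
        exact ⟨a.2.2 rfl, d, b (a.2.2 rfl)⟩)
    simp only [φ0, mul_zero, add_zero, sub_zero, Prod.mk.eta, t1, t2] at k
    obtain ⟨R, R0, e⟩ : ∃ R, 0 < R ∧ R = gsq ρ x₀ / curv2 ρ x₀ * m := ⟨_, by positivity, rfl⟩
    have an : ContDiffAt ℝ ⊤ (fun r : ℝ => R - √(R ^ 2 - r ^ 2)) 0 :=
      contDiffAt_const.sub (ContDiffAt.sqrt (by fun_prop) (by simp [R0.ne']))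
    refine an.analyticAt.congr ?_
    filter_upwards [k, c0.continuousAt.eventually (gt_mem_nhds (show φ 0 < R by rwa [φ0]))] with r a b
    rw [show R ^ 2 - r ^ 2 = (R - φ r) ^ 2 by
      rw [e]; linear_combination -a + (r ^ 2 + φ r ^ 2 - 2 * (gsq ρ x₀ / curv2 ρ x₀ * m) * φ r) * t3,
      Real.sqrt_sq (sub_pos.2 b).le]
    ring
  · let A : ℝ × ℝ → ℝ := fun x => τ.1 * (x.1 - x₀.1) + τ.2 * (x.2 - x₀.2)
    let B : ℝ × ℝ → ℝ := fun x => τ.1 * (x.2 - x₀.2) - τ.2 * (x.1 - x₀.1)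
    have a1 : AnalyticAt ℝ A x₀ := (by fun_prop : ContDiffAt ℝ ⊤ A x₀).analyticAt
    have a2 : AnalyticAt ℝ B x₀ := (by fun_prop : ContDiffAt ℝ ⊤ B x₀).analyticAt
    have a3 := a2.sub (ha.comp_of_eq a1 (by simp [A]))
    refine ⟨_, a3, fun hz => ?_, ?_⟩
    · have l := fun a b : ℝ => ((hasDerivAt_id (0 : ℝ)).mul_const b).const_add a
      have k := HasFDerivAt.comp_hasDerivAt_of_eq (f := fun s : ℝ => (x₀.1 + s * -τ.2, x₀.2 + s * τ.1))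
        0 a3.differentiableAt.hasFDerivAt ((l _ _).prodMk (l _ _)) (by simp)
      rw [hz] at k
      refine zero_ne_one (k.unique ((hasDerivAt_id (0 : ℝ)).congr_of_eventuallyEq
        (Eventually.of_forall fun s => ?_)))
      simp only [Function.comp, Pi.sub_apply, A, B, id]
      rw [show τ.1 * (x₀.1 + s * -τ.2 - x₀.1) + τ.2 * (x₀.2 + s * τ.1 - x₀.2) = 0 by ring, φ0]
      linear_combination s * t3
    · have t : Tendsto (fun x => (A x, B x)) (𝓝 x₀) (𝓝 ((0, 0) : ℝ × ℝ)) := by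
        simpa [A, B] using (a1.continuousAt.prodMk a2.continuousAt).tendsto
      filter_upwards [t.eventually h] with x hx
      have e : Xi x₀ τ (A x, B x) = x := Prod.ext
        (by simp only [Xi, A, B]; linear_combination (x.1 - x₀.1) * t3)
        (by simp only [Xi, A, B]; linear_combination (x.2 - x₀.2) * t3)
      rw [e] at hx
      exact hx.2.trans sub_eq_zero.symm

theorem lift_d {f : ST → ℝ} (hf : ContDiff ℝ (1 : ℕ) f) (t : ℝ) (τ : ℝ × ℝ) :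
    ContDiff ℝ 1 (fun z : ℂ => (f (t, Xi x₀ τ (z.re, z.im)) : ℂ)) ∧ ∀ z : ℂ, ∃ L : ℂ →L[ℝ] ℂ,
      HasFDerivAt (fun z : ℂ => (f (t, Xi x₀ τ (z.re, z.im)) : ℂ)) L z ∧
      L 1 = τ.1 * pd e1 f (t, Xi x₀ τ (z.re, z.im)) + τ.2 * pd e2 f (t, Xi x₀ τ (z.re, z.im)) ∧
      L I = -τ.2 * pd e1 f (t, Xi x₀ τ (z.re, z.im)) + τ.1 * pd e2 f (t, Xi x₀ τ (z.re, z.im)) := by
  have c1 : ContDiff ℝ (1 : ℕ) fun x => f (t, x) := by fun_prop
  have c2 : ContDiff ℝ (1 : ℕ) fun x => f (t, Xi x₀ τ x) := c1.comp (cd_Xi _ _ _)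
  refine ⟨ofRealCLM.contDiff.comp (c2.comp (reCLM.contDiff.prodMk imCLM.contDiff)), fun z =>
    ⟨_, ofRealCLM.hasFDerivAt.comp z (HasFDerivAt.comp (f := fun z : ℂ => (z.re, z.im)) z
      (cdg_diff c2 le_rfl (z.re, z.im)).hasFDerivAt
      (reCLM.hasFDerivAt.prodMk imCLM.hasFDerivAt)), ?_, ?_⟩⟩
  · have := pd_Xi (x₀ := x₀) c1 τ (1, 0) (z.re, z.im)
    rw [pd_slice (cdg_diff hf le_rfl _), pd_slice (cdg_diff hf le_rfl _)] at this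
    unfold pd at this ⊢
    simp [this]
  · have := pd_Xi (x₀ := x₀) c1 τ (0, 1) (z.re, z.im)
    rw [pd_slice (cdg_diff hf le_rfl _), pd_slice (cdg_diff hf le_rfl _)] at this
    unfold pd at this ⊢
    simp [this]

theorem helm (hρ : Continuous ρ) {τ : ℝ × ℝ} {φ : ℝ → ℝ} (hτ : τ.1 ^ 2 + τ.2 ^ 2 = 1)
    (c : ContDiff ℝ (2 : ℕ) φ) (φ0 : φ 0 = 0) (φ1 : deriv φ 0 = 0)
    (cv : ∃ η > 0, ConvexOn ℝ (Ioo (-η) η) φ) (h : ∀ᶠ p in 𝓝 ((0, 0) : ℝ × ℝ),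
      (φ p.1 < p.2 → ρ (Xi x₀ τ p) < 0) ∧ (ρ (Xi x₀ τ p) = 0 ↔ p.2 = φ p.1))
    {w1 w2 : ST → ℝ} (hw1 : ContDiff ℝ (3 : ℕ) w1) (hw2 : ContDiff ℝ (3 : ℕ) w2) {t : ℝ}
    {p q σ k : ℂ} (hk : k ≠ 0) (hS : ∀ᶠ y : ST in 𝓝 (t, x₀), ρ y.2 < 0 →
      Lh w1 y = 0 ∧ Lh w2 y = 0 ∧ pd e1 w1 y + pd e2 w2 y = 0)
    (hB : ∀ y : ST, ρ y.2 = 0 → w1 y = 0 ∧ w2 y = 0)
    (hE : ∀ᶠ x in 𝓝 x₀, (ρ x < 0 → p * pd e0 (pd e0 w1) (t, x) + q * pd e0 w1 (t, x)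
      = σ * (p * pd e0 w1 (t, x) + q * w1 (t, x)) ∧ p * pd e0 (pd e0 w2) (t, x) + q * pd e0 w2 (t, x)
      = σ * (p * pd e0 w2 (t, x) + q * w2 (t, x))) ∧
      (ρ x = 0 → p * pd e0 (vort w1 w2) (t, x) + q * vort w1 w2 (t, x) = k)) :
    AnalyticAt ℝ φ 0 := by
  obtain ⟨η, η0, cv⟩ := cv
  have l2 := fun {f : ST → ℝ} (h : ContDiff ℝ (3 : ℕ) f) => cdg_le h (by norm_num : 2 ≤ 3)
  have l1 := fun {f : ST → ℝ} (h : ContDiff ℝ (3 : ℕ) f) => cdg_le h (by norm_num : 1 ≤ 3)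
  have p1 := fun {f : ST → ℝ} (h : ContDiff ℝ (3 : ℕ) f) e => contDiff_pd (n := 1) e (l2 h)
  have p2 := fun {f : ST → ℝ} (h : ContDiff ℝ (3 : ℕ) f) e => contDiff_pd (n := 2) e h
  have cω := cd_vort (n := 2) hw1 hw2
  obtain ⟨a1, b1⟩ := lift_d (x₀ := x₀) (l1 hw1) t τ
  obtain ⟨a2, b2⟩ := lift_d (x₀ := x₀) (l1 hw2) t τ
  obtain ⟨a3, b3⟩ := lift_d (x₀ := x₀) (p1 hw1 e0) t τ
  obtain ⟨a4, b4⟩ := lift_d (x₀ := x₀) (p1 hw2 e0) t τ
  obtain ⟨a5, b5⟩ := lift_d (x₀ := x₀) (cdg_le cω one_le_two) t τ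
  obtain ⟨a6, b6⟩ := lift_d (x₀ := x₀) (contDiff_pd (n := 1) e0 cω) t τ
  have t1 : Tendsto (fun z : ℂ => (z.re, z.im)) (𝓝 0) (𝓝 (0, 0)) :=
    (continuous_re.prodMk continuous_im).tendsto 0
  have t2 := ((cd_Xi x₀ τ 0).continuous.tendsto (0, 0)).comp t1
  rw [Xi_zero] at t2
  have t3 := (tendsto_const_nhds (x := t)).prodMk_nhds t2
  refine lewy (fun r => (cdg_diff c one_le_two r).hasDerivAt) (c.continuous_deriv (by norm_num))
    φ0 φ1 η0 cv (β := σ / 4) ((contDiff_const (c := 2 * I * (τ.1 + τ.2 * I) / k)).mul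
      ((((contDiff_const (c := p)).mul a3).add ((contDiff_const (c := q)).mul a1)).sub
        ((contDiff_const (c := I)).mul (((contDiff_const (c := p)).mul a4).add
          ((contDiff_const (c := q)).mul a2))))) ((contDiff_const (c := 1 / k)).mul
      (((contDiff_const (c := p)).mul a6).add ((contDiff_const (c := q)).mul a5))) ?_
  filter_upwards [t1.eventually h, t2.eventually hE, t3.eventually hS.eventually_nhds] with z k1 k2 k3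
  simp only [Function.comp] at k2 k3
  refine ⟨fun hz => ?_, fun hz => ?_⟩
  · have n := k1.1 hz
    obtain ⟨L1, d1, u1, v1⟩ := b1 z
    obtain ⟨L2, d2, u2, v2⟩ := b2 z
    obtain ⟨L3, d3, u3, v3⟩ := b3 z
    obtain ⟨L4, d4, u4, v4⟩ := b4 z
    obtain ⟨L5, d5, u5, v5⟩ := b5 z
    obtain ⟨L6, d6, u6, v6⟩ := b6 z
    rw [((((d3.const_mul p).fun_add (d1.const_mul q)).fun_sub (((d4.const_mul p).fun_add
      (d2.const_mul q)).const_mul I)).const_mul _).fderiv,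
      (((d6.const_mul p).fun_add (d5.const_mul q)).const_mul _).fderiv]
    simp only [ContinuousLinearMap.smul_apply, ContinuousLinearMap.add_apply,
      ContinuousLinearMap.sub_apply, smul_eq_mul, u1, u2, u3, u4, u5, u6, v1, v2, v3, v4, v5, v6]
    obtain ⟨s1, s2⟩ := k2.1 n
    generalize Xi x₀ τ (z.re, z.im) = x at *
    have ev : ∀ᶠ y : ST in 𝓝 (t, x), Lh w1 y = 0 ∧ Lh w2 y = 0 ∧ pd e1 w1 y + pd e2 w2 y = 0 := by
      filter_upwards [k3, (isOpen_lt (hρ.comp continuous_snd) continuous_const).mem_nhds n]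
        with y a b using a b
    have e1' : pd e1 (vort w1 w2) =ᶠ[𝓝 (t, x)] pd e0 w2 := ev.eventually_nhds.mono fun y hy => by
      have := hy.self_of_nhds.2.1
      unfold Lh at this
      linarith [(vort_pd (l2 hw1) (l2 hw2) (hy.mono fun _ h => h.2.2)).1]
    have e2' : pd e2 (vort w1 w2) =ᶠ[𝓝 (t, x)] fun y => -pd e0 w1 y :=
      ev.eventually_nhds.mono fun y hy => by
        have := hy.self_of_nhds.1
        unfold Lh at this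
        linarith [(vort_pd (l2 hw1) (l2 hw2) (hy.mono fun _ h => h.2.2)).2]
    have r1 := ev.self_of_nhds.2.2
    have r2 := (pd_zero_on_open e0 (ev.mono fun _ h => h.2.2)).self_of_nhds
    rw [pd_add _ (cdg_diff (p1 hw1 _) le_rfl _) (cdg_diff (p1 hw2 _) le_rfl _),
      pd_comm _ _ (l2 hw1).contDiffAt, pd_comm _ _ (l2 hw2).contDiffAt] at r2
    have r3 : vort w1 w2 (t, x) = pd e1 w2 (t, x) - pd e2 w1 (t, x) := rfl
    have r4 : pd e0 (vort w1 w2) (t, x) = pd e1 (pd e0 w2) (t, x) - pd e2 (pd e0 w1) (t, x) := by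
      rw [← pd_comm _ _ (l2 hw1).contDiffAt, ← pd_comm _ _ (l2 hw2).contDiffAt]
      exact pd_sub _ (cdg_diff (p1 hw2 _) le_rfl _) (cdg_diff (p1 hw1 _) le_rfl _)
    rw [pd_comm e1 e0 cω.contDiffAt, pd_comm e2 e0 cω.contDiffAt, pd_congr_pt e0 e1',
      pd_congr_pt e0 e2', pd_neg, e1'.eq_of_nhds, e2'.eq_of_nhds, r3, r4,
      eq_neg_of_add_eq_zero_left r1, eq_neg_of_add_eq_zero_left r2]
    have ht := congrArg ofReal hτ
    push_cast at ht ⊢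
    constructor
    · linear_combination (norm := (ring_nf; simp only [I_sq, I_pow_three, I_pow_four]; ring)) 2 / k
        * (p * pd e1 (pd e0 w2) (t, x) + q * pd e1 w2 (t, x) - p * pd e2 (pd e0 w1) (t, x)
          - q * pd e2 w1 (t, x)) * ht
    · linear_combination (norm := (ring_nf; simp only [I_sq, I_pow_three]; ring))
        (τ.1 + I * τ.2) / k * s2 + (-τ.2 + I * τ.1) / k * s1
  · have n := k1.2.2 hz
    have z1 := fun y => pd_time_zero (z := y) (l1 hw1) fun y hy => (hB y hy).1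
    have z2 := fun y => pd_time_zero (z := y) (l1 hw2) fun y hy => (hB y hy).2
    generalize Xi x₀ τ (z.re, z.im) = x at *
    rw [z1 (t, x) n, z2 (t, x) n, (hB (t, x) n).1, (hB (t, x) n).2, k2.2 n]
    simp [hk]

end Pool.Agent.MP_ed9623_an.H64
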