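import Pool.Agent.MP_ed9623_an.H64.Approx

open Filter Topology MeasureTheory Set

namespace Pool.Agent.MP_ed9623_an.H64

variable {ρ : ℝ × ℝ → ℝ}

theorem Dom.sq_int_le (h : Dom ρ) {F : ℝ × ℝ → ℝ} (hF : Continuous F) :
    (∫ x in {x | ρ x < 0}, |F x|) ^ 2
      ≤ volume.real {x | ρ x < 0} * ∫ x in {x | ρ x < 0}, F x ^ 2 := by
  have i1 := h.int (F := fun x => |F x|) (by fun_prop)
  have i2 := h.int (F := fun x => F x ^ 2) (by fun_prop)
  have key : ∀ l : ℝ, 0 ≤ volume.real {x | ρ x < 0} * (l * l)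
      + (-2 * ∫ x in {x | ρ x < 0}, |F x|) * l + ∫ x in {x | ρ x < 0}, F x ^ 2 := by
    intro l
    have h0 : 0 ≤ ∫ x in {x | ρ x < 0}, (l * l + (-2 * l) * |F x| + F x ^ 2) :=
      integral_nonneg fun x => by
        have := sq_nonneg (l - |F x|)
        have e := sq_abs (F x)
        simp only [Pi.zero_apply]
        nlinarith
    have i3 : IntegrableOn (fun x => l * l + (-2 * l) * |F x|) {x | ρ x < 0} volume :=
      h.int (by fun_prop)
    rw [integral_add i3 i2, integral_add (h.int continuous_const) (i1.const_mul _),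
      setIntegral_const, integral_const_mul, smul_eq_mul] at h0
    linarith
  have := discrim_le_zero key
  unfold discrim at this
  nlinarith

theorem pd_dir2 (F : ℝ × ℝ → ℝ) (x y : ℝ × ℝ) :
    pd y F x = y.1 * pd (1, 0) F x + y.2 * pd (0, 1) F x := by
  have : y = y.1 • ((1, 0) : ℝ × ℝ) + y.2 • ((0, 1) : ℝ × ℝ) := by ext <;> simp
  conv_lhs => rw [this]
  rw [pd_add_dir, pd_smul_dir, pd_smul_dir]

theorem Dom.autocorr (h : Dom ρ) {G : ℝ × ℝ → ℝ} (hG : ContDiff ℝ (1 : ℕ) G)
    (hc : HasCompactSupport G) {y : ℝ × ℝ} {r : ℝ} (hy : ‖y‖ ≤ r) :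
    (∫ x in {x | ρ x < 0}, G x ^ 2) - ∫ x in {x | ρ x < 0}, G x * G (x + y)
      ≤ 1 / 4 * (∫ x in {x | ρ x < 0}, G x ^ 2)
        + 2 * r ^ 2 * ∫ x, (pd (1, 0) G x ^ 2 + pd (0, 1) G x ^ 2) := by
  haveI := haar2
  have cG := hG.continuous
  have c1 := (contDiff_pd (n := 0) (1, 0) hG).continuous
  have c2 := (contDiff_pd (n := 0) (0, 1) hG).continuous
  let F : ST → ℝ := fun z => G z.2 * G (z.2 + z.1 • y)
  have hF : ContDiff ℝ (1 : ℕ) F := by simp only [F]; fun_prop
  have hd : ∀ s x, pd e0 F (s, x) = G x * pd y G (x + s • y) := by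
    intro s x
    have a := HD.of_diff (e := y) (cdg_diff hG le_rfl (x + s • y))
    have b : HD e0 (s, x) F (G x * pd y G (x + s • y)) := by
      unfold HD at a ⊢
      have := a.const_mul (G x)
      simpa [F, add_smul, add_assoc, Prod.mk_zero_zero] using this
    exact b.pd_eq (cdg_diff hF le_rfl _)
  obtain ⟨ξ, -, hξ⟩ := exists_hasDerivAt_eq_slope (fun s => ∫ x in {x | ρ x < 0}, F (s, x))
    (fun s => ∫ x in {x | ρ x < 0}, pd e0 F (s, x)) one_pos
    (fun s _ => (h.hasDerivAt hF s).continuousAt.continuousWithinAt)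
    (fun s _ => h.hasDerivAt hF s)
  simp only [F, hd, one_smul, zero_smul, add_zero, sub_zero, div_one, ← sq] at hξ
  have ig : Integrable (fun x => pd (1, 0) G x ^ 2 + pd (0, 1) G x ^ 2) volume := by
    refine Continuous.integrable_of_hasCompactSupport (by fun_prop)
      (HasCompactSupport.intro hc fun x hx => ?_)
    have h : G =ᶠ[𝓝 x] fun _ => 0 := notMem_tsupport_iff_eventuallyEq.1 hx
    rw [pd_congr_pt _ h, pd_congr_pt _ h, pd_const, pd_const]; ring
  have t1 : ∫ x in {x | ρ x < 0}, (pd (1, 0) G (x + ξ • y) ^ 2 + pd (0, 1) G (x + ξ • y) ^ 2)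
      ≤ ∫ x, (pd (1, 0) G x ^ 2 + pd (0, 1) G x ^ 2) := by
    rw [← integral_add_right_eq_self (fun x => pd (1, 0) G x ^ 2 + pd (0, 1) G x ^ 2) (ξ • y)]
    exact setIntegral_le_integral (ig.comp_add_right (ξ • y))
      (Eventually.of_forall fun x => by simp only [Pi.zero_apply]; positivity)
  have cy := (contDiff_pd (n := 0) y hG).continuous
  have i1 := h.int (F := fun x => G x ^ 2) (by fun_prop)
  have i2 := h.int (F := fun x => pd (1, 0) G (x + ξ • y) ^ 2 + pd (0, 1) G (x + ξ • y) ^ 2)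
    (by fun_prop)
  have t2 : ∫ x in {x | ρ x < 0}, -(G x * pd y G (x + ξ • y))
      ≤ ∫ x in {x | ρ x < 0}, (1 / 4 * G x ^ 2
        + 2 * r ^ 2 * (pd (1, 0) G (x + ξ • y) ^ 2 + pd (0, 1) G (x + ξ • y) ^ 2)) := by
    refine integral_mono (h.int (by fun_prop)) (h.int (by fun_prop)) fun x => ?_
    simp only
    rw [pd_dir2 G _ y]
    have y1 : y.1 ^ 2 ≤ r ^ 2 := by
      rw [← sq_abs]; exact pow_le_pow_left₀ (abs_nonneg _) ((norm_fst_le y).trans hy) 2
    have y2 : y.2 ^ 2 ≤ r ^ 2 := by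
      rw [← sq_abs]; exact pow_le_pow_left₀ (abs_nonneg _) ((norm_snd_le y).trans hy) 2
    generalize pd (1, 0) G (x + ξ • y) = a
    generalize pd (0, 1) G (x + ξ • y) = b
    nlinarith [sq_nonneg (G x / 2 + (y.1 * a + y.2 * b)), sq_nonneg (y.1 * a - y.2 * b),
      mul_le_mul_of_nonneg_right y1 (sq_nonneg a), mul_le_mul_of_nonneg_right y2 (sq_nonneg b)]
  rw [integral_neg, integral_add (i1.const_mul _) (i2.const_mul _), integral_const_mul,
    integral_const_mul, hξ] at t2
  nlinarith [mul_le_mul_of_nonneg_left t1 (by positivity : 0 ≤ 2 * r ^ 2)]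

theorem Dom.poincare (h : Dom ρ) {ε : ℝ} (hε : 0 < ε) : ∃ (m : ℕ) (κ : Fin m → ℝ × ℝ → ℝ)
    (A : ℝ), 0 ≤ A ∧ (∀ i, Continuous (κ i)) ∧ ∀ F : ℝ × ℝ → ℝ, ContDiff ℝ (1 : ℕ) F →
      (∀ x, ρ x = 0 → F x = 0) → ∫ x in {x | ρ x < 0}, F x ^ 2
        ≤ ε * (∫ x in {x | ρ x < 0}, (pd (1, 0) F x ^ 2 + pd (0, 1) F x ^ 2))
          + A * ∑ i, (∫ x in {x | ρ x < 0}, κ i x * F x) ^ 2 := by
  haveI := haar2
  set V := volume.real {x | ρ x < 0} with hV
  have V0 : 0 ≤ V := measureReal_nonneg
  set r := Real.sqrt (ε / 8) with hr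
  have r0 : 0 < r := Real.sqrt_pos.2 (by positivity)
  have r2 : r ^ 2 = ε / 8 := Real.sq_sqrt (by positivity)
  let b : ContDiffBump (0 : ℝ × ℝ) := ⟨r / 2, r, by positivity, by linarith⟩
  let φ := b.normed volume
  have cφ : Continuous φ := b.continuous_normed
  have sφ : HasCompactSupport φ := b.hasCompactSupport_normed
  obtain ⟨δ, δ0, hδ⟩ := Metric.uniformContinuous_iff.1 (sφ.uniformContinuous_of_continuous cφ)
    (1 / (4 * (V + 1))) (by positivity)
  obtain ⟨t, -, ht, hcov⟩ := h.compact.finite_cover_balls δ0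
  obtain ⟨m, c, hc⟩ := ht.fin_param
  refine ⟨m, fun i x => φ (x - c i), 4 * V, by positivity, fun i => by fun_prop, ?_⟩
  have main : ∀ G : ℝ × ℝ → ℝ, ContDiff ℝ (1 : ℕ) G → HasCompactSupport G →
      (∀ x, ¬ ρ x < 0 → G x = 0) → ∫ x, G x ^ 2
        ≤ ε * (∫ x, (pd (1, 0) G x ^ 2 + pd (0, 1) G x ^ 2))
          + 4 * V * ∑ i, (∫ x, φ (x - c i) * G x) ^ 2 := by
    intro G hG sG h0
    have cG := hG.continuous
    have red : ∀ H : ℝ × ℝ → ℝ, ∫ x in {x | ρ x < 0}, G x * H x = ∫ x, G x * H x := fun H =>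
      setIntegral_eq_integral_of_forall_compl_eq_zero fun x hx => by rw [h0 x hx, zero_mul]
    have red2 : ∫ x in {x | ρ x < 0}, G x ^ 2 = ∫ x, G x ^ 2 :=
      setIntegral_eq_integral_of_forall_compl_eq_zero fun x hx => by rw [h0 x hx]; ring
    have red3 : ∫ x in {x | ρ x < 0}, |G x| = ∫ x, |G x| :=
      setIntegral_eq_integral_of_forall_compl_eq_zero fun x hx => by rw [h0 x hx, abs_zero]
    set J := ∫ x, G x ^ 2 with hJ
    set Dg := ∫ x, (pd (1, 0) G x ^ 2 + pd (0, 1) G x ^ 2) with hDg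
    set S := ∑ i, (∫ x, φ (x - c i) * G x) ^ 2 with hS
    set I := ∫ x, |G x| with hI
    have cs : Continuous (Function.uncurry fun y x : ℝ × ℝ => φ y * (G x * G (x + y))) := by
      unfold Function.uncurry; fun_prop
    have ss : HasCompactSupport
        (Function.uncurry fun y x : ℝ × ℝ => φ y * (G x * G (x + y))) := by
      refine HasCompactSupport.intro (sφ.prod sG) fun q hq => ?_
      change φ q.1 * (G q.2 * G (q.2 + q.1)) = 0
      rcases not_and_or.1 hq with h' | h'
      · rw [image_eq_zero_of_notMem_tsupport h', zero_mul]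
      · rw [image_eq_zero_of_notMem_tsupport h', zero_mul, mul_zero]
    have sw := integral_integral_swap_of_hasCompactSupport (μ := volume) (ν := volume) cs ss
    have iφ : Integrable φ volume := b.integrable_normed
    have iA : Integrable (fun y => ∫ x, φ y * (G x * G (x + y))) volume :=
      (cs.integrable_of_hasCompactSupport (μ := volume.prod volume) ss).integral_prod_left
    have s1 : ∫ y, φ y * (3 / 4 * J - ε / 4 * Dg) ≤ ∫ y, ∫ x, φ y * (G x * G (x + y)) := by
      refine integral_mono (iφ.mul_const _) iA fun y => ?_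
      simp only
      rw [integral_const_mul]
      by_cases hy : y ∈ Metric.ball (0 : ℝ × ℝ) r
      · refine mul_le_mul_of_nonneg_left ?_ (b.nonneg_normed y)
        have := h.autocorr hG sG (y := y) (r := r) (by simpa using (mem_ball_zero_iff.1 hy).le)
        rw [red2, red, r2] at this
        linarith
      · have : φ y = 0 := by
          have := b.support_normed_eq (μ := volume)
          exact Function.notMem_support.1 (by rw [this]; exact hy)
        rw [this, zero_mul, zero_mul]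
    rw [integral_mul_const, b.integral_normed, one_mul, sw] at s1
    have e1 : ∀ x, ∫ y, φ y * (G x * G (x + y)) = G x * ∫ y, φ (y - x) * G y := fun x => by
      rw [← integral_sub_right_eq_self (fun y => φ y * (G x * G (x + y))) x,
        ← integral_const_mul]
      congr 1; funext y; rw [add_sub_cancel]; ring
    simp only [e1] at s1
    rw [← red] at s1
    have iG : Integrable (fun x => |G x|) volume :=
      (cG.integrable_of_hasCompactSupport sG).abs
    have I0 : 0 ≤ I := integral_nonneg fun x => abs_nonneg _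
    have s2 : ∫ x in {x | ρ x < 0}, G x * ∫ y, φ (y - x) * G y
        ≤ ∫ x in {x | ρ x < 0}, (1 / 4 * G x ^ 2 + S + 1 / (4 * (V + 1)) * I * |G x|) := by
      refine setIntegral_mono_on ?_ (h.int (by fun_prop)) h.meas fun x hx => ?_
      · have := (cs.integrable_of_hasCompactSupport (μ := volume.prod volume)
          ss).integral_prod_right
        simp only [Function.uncurry, e1] at this
        exact this.integrableOn
      · obtain ⟨a, ha, hxa⟩ := mem_iUnion₂.1 (hcov (subset_closure hx))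
        obtain ⟨i, rfl⟩ : a ∈ range c := hc.2.symm ▸ ha
        have ia : ∀ a : ℝ × ℝ, Integrable (fun y => φ (y - a) * G y) volume := fun a =>
          Continuous.integrable_of_hasCompactSupport (by fun_prop) sG.mul_left
        have d1 : |(∫ y, φ (y - x) * G y) - ∫ y, φ (y - c i) * G y|
            ≤ 1 / (4 * (V + 1)) * I := by
          rw [← integral_sub (ia x) (ia (c i)), hI, ← integral_const_mul]
          refine (abs_integral_le_integral_abs).trans (integral_mono ((ia x).sub (ia _)).abs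
            (iG.const_mul _) fun y => ?_)
          simp only
          rw [← sub_mul, abs_mul]
          refine mul_le_mul_of_nonneg_right (le_of_lt (hδ ?_)) (abs_nonneg _)
          rwa [dist_sub_left]
        have d2 : (∫ y, φ (y - c i) * G y) ^ 2 ≤ S :=
          Finset.single_le_sum (f := fun i => (∫ x, φ (x - c i) * G x) ^ 2)
            (fun j _ => sq_nonneg _) (Finset.mem_univ i)
        have d3 := mul_le_mul_of_nonneg_left d1 (abs_nonneg (G x))
        rw [← abs_mul] at d3
        have d4 := le_abs_self (G x * ((∫ y, φ (y - x) * G y) - ∫ y, φ (y - c i) * G y))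
        nlinarith [sq_nonneg (G x / 2 - ∫ y, φ (y - c i) * G y)]
    have i1 := h.int (F := fun x => 1 / 4 * G x ^ 2) (by fun_prop)
    have i2 := h.int (F := fun x => 1 / 4 * G x ^ 2 + S) (by fun_prop)
    rw [integral_add i2 (h.int (by fun_prop)), integral_add i1 (h.int continuous_const),
      integral_const_mul, integral_const_mul, setIntegral_const, red2, red3, smul_eq_mul] at s2
    have s3 := h.sq_int_le cG
    rw [red2, red3] at s3
    have J0 : 0 ≤ J := integral_nonneg fun x => sq_nonneg _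
    have s4 : 1 / (4 * (V + 1)) * I * I ≤ 1 / 4 * J := by
      rw [mul_assoc, one_div_mul_eq_div, div_le_iff₀ (by positivity)]
      nlinarith
    linarith
  intro F hF h0
  obtain ⟨G, g1, g2, g3, g4, ⟨C, g5⟩, g6⟩ := h.approx hF h0
  obtain ⟨C1, g7⟩ := g6 (1, 0)
  obtain ⟨C2, g8⟩ := g6 (0, 1)
  have cG := fun n => (g1 n).continuous
  have cG1 := fun n e => (contDiff_pd (n := 0) e (g1 n)).continuous
  have sq : ∀ {a C : ℝ}, |a| ≤ C → a ^ 2 ≤ C ^ 2 := fun h => by
    rw [← sq_abs]; exact pow_le_pow_left₀ (abs_nonneg _) h 2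
  have l1 := h.lim (G := fun n x => G n x ^ 2) (F := fun x => F x ^ 2) (C := C ^ 2)
    (fun n => (cG n).pow 2) (fun n x hx => by rw [(g3 n x hx).1]; ring)
    (fun x hx => (g4 x hx).mono fun n hn => by rw [hn.1])
    (fun n x hx => by rw [abs_of_nonneg (sq_nonneg _)]; exact sq (g5 n x hx))
  have l2 := h.lim (G := fun n x => pd (1, 0) (G n) x ^ 2 + pd (0, 1) (G n) x ^ 2)
    (F := fun x => pd (1, 0) F x ^ 2 + pd (0, 1) F x ^ 2) (C := C1 ^ 2 + C2 ^ 2)
    (fun n => ((cG1 n _).pow 2).add ((cG1 n _).pow 2))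
    (fun n x hx => by rw [(g3 n x hx).2, (g3 n x hx).2]; ring)
    (fun x hx => (g4 x hx).mono fun n hn => by rw [hn.2, hn.2])
    (fun n x hx => by
      rw [abs_of_nonneg (by positivity)]; exact add_le_add (sq (g7 n x hx)) (sq (g8 n x hx)))
  have l3 : ∀ i, Tendsto (fun n => ∫ x, φ (x - c i) * G n x) atTop
      (𝓝 (∫ x in {x | ρ x < 0}, φ (x - c i) * F x)) := fun i => by
    obtain ⟨D, D0, hD⟩ := h.bound (F := fun x => φ (x - c i)) (by fun_prop)
    exact h.lim (C := D * C) (fun n => by have := cG n; fun_prop)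
      (fun n x hx => by rw [(g3 n x hx).1, mul_zero])
      (fun x hx => (g4 x hx).mono fun n hn => by rw [hn.1])
      (fun n x hx => by
        rw [abs_mul]; exact mul_le_mul (hD x hx) (g5 n x hx) (abs_nonneg _) D0)
  exact le_of_tendsto_of_tendsto' l1 ((l2.const_mul ε).add
    ((tendsto_finset_sum _ fun i _ => (l3 i).pow 2).const_mul (4 * V)))
    fun n => main (G n) (g1 n) (g2 n) fun x hx => (g3 n x hx).1

end Pool.Agent.MP_ed9623_an.H64
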