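import Mathlib

namespace Pool.Agent.MP_ed9623_an.H64

variable {R : Type*} [CommRing R]

/-- Leibniz rule. -/
def Lb (d : R →+ R) : Prop := ∀ f g, d (f * g) = d f * g + f * d g

theorem Lb.one {d : R →+ R} (h : Lb d) : d 1 = 0 := by
  have := h 1 1
  simpa using this

theorem Lb.nat {d : R →+ R} (h : Lb d) (n : ℕ) : d n = 0 := by
  rw [← nsmul_one, map_nsmul, h.one, nsmul_zero]

theorem Lb.ofNat {d : R →+ R} (h : Lb d) (n : ℕ) [n.AtLeastTwo] :
    d (no_index (OfNat.ofNat n : R)) = 0 := h.nat n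

theorem Lb.pow {d : R →+ R} (h : Lb d) (f : R) (n : ℕ) :
    d (f ^ (n + 1)) = (n + 1) * f ^ n * d f := by
  induction n with
  | zero => simp
  | succ n ih => rw [pow_succ, h, ih]; push_cast; ring

/-- A local ring with a regular element killed by the evaluation. -/
structure Loc (ρ : R) (ev : R →+* ℝ) : Prop where
  reg : ∀ x, ρ * x = 0 → x = 0
  evρ : ev ρ = 0
  unit : ∀ x, ev x ≠ 0 → IsUnit x

theorem Loc.dv {ρ : R} {ev : R →+* ℝ} (h : Loc ρ ev) {u x : R} (hu : ev u ≠ 0)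
    (hx : Ideal.Quotient.mk (Ideal.span {ρ}) (u * x) = 0) : ∃ z, x = ρ * z :=
  ((h.unit u hu).dvd_mul_left).1 ((Ideal.Quotient.eq_zero_iff_dvd _ _).1 hx)

theorem Loc.mk0 (ρ : R) : Ideal.Quotient.mk (Ideal.span {ρ}) ρ = 0 :=
  (Ideal.Quotient.eq_zero_iff_dvd _ _).2 dvd_rfl

theorem frame {N T : R →+ R} (hN : Lb N) (hT : Lb T) {ρ G a b e L : R} {ev : R →+* ℝ}
    (H : Loc ρ ev) (hG : ev G ≠ 0) (hNρ : N ρ = G) (hTρ : T ρ = 0) (hNG : N G = 2 * a)
    (hTG : T G = 2 * b) (hL : G * L = a + e)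
    (hc : ∀ f, G * (N (T f) - T (N f)) = -2 * b * N f + (a - e) * T f) (p q ω : ℕ → R)
    (C : ∀ j, G * q j + ρ * (N (q j) + L * q j) - ρ * ρ * T (p j) = ω j)
    (D : ∀ j, 2 * G * p j + ρ * (N (p j) + L * p j) + T (q j) = 0)
    (hNω : ∀ j, N (ω j) = G * ρ * q (j + 1)) (hTω : ∀ j, T (ω j) = -(G * ρ * ρ * p (j + 1)))
    (hW : p 0 * q 2 - q 0 * p 2 = 0) :
    ∃ E1, ω 0 * (p 0 * q 1 - q 0 * p 1) = ρ ^ 3 * E1 ∧ 90 * ev G ^ 7 * ev E1
      = ev (ω 0) * (ev (ω 0) * ev (ω 2) - ev (ω 1) ^ 2) * (ev G * ev (T e) - 3 * ev e * ev b) := by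
  have π0 := Loc.mk0 ρ
  set π := Ideal.Quotient.mk (Ideal.span {ρ}) with hπ
  have evρ := H.evρ
  have n2 := hN.ofNat 2
  have n3 := hN.ofNat 3
  have n4 := hN.ofNat 4
  have t2 := hT.ofNat 2
  have t3 := hT.ofNat 3
  have t5 := hT.ofNat 5
  have hN' : ∀ f g, N (f * g) = N f * g + f * N g := hN
  have hT' : ∀ f g, T (f * g) = T f * g + f * T g := hT
  have G2 : ev (2 * G) ≠ 0 := by rw [map_mul, map_ofNat]; positivity
  have G3 : ev (3 * G) ≠ 0 := by rw [map_mul, map_ofNat]; positivity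
  obtain ⟨Q1, hQ1⟩ : ∃ Q1, Q1 = ω 0 * q 1 - ω 1 * q 0 := ⟨_, rfl⟩
  obtain ⟨P2, hP2⟩ : ∃ P2, P2 = ω 0 * p 1 - ω 1 * p 0 := ⟨_, rfl⟩
  obtain ⟨y, hy⟩ : ∃ y, y = q 1 * q 1 - q 2 * q 0 := ⟨_, rfl⟩
  obtain ⟨y2, hy2⟩ : ∃ y, y = p 1 * p 1 - p 2 * p 0 := ⟨_, rfl⟩
  have cz : G * Q1 + ρ * (N Q1 + L * Q1) - ρ * ρ * T P2 = ρ * ρ * (G * (y + ρ * ρ * y2)) := by
    simp only [hQ1, hP2, hy, hy2, map_sub, hN', hT', hNω, hTω]
    linear_combination ω 0 * C 1 - ω 1 * C 0
  have dz : 2 * G * P2 + ρ * (N P2 + L * P2) + T Q1 = 0 := by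
    simp only [hQ1, hP2, map_sub, hN', hT', hNω, hTω]
    linear_combination ω 0 * D 1 - ω 1 * D 0 + ρ * ρ * G * (-hW)
  obtain ⟨Q2, rfl⟩ : ∃ z, Q1 = ρ * z := H.dv hG (by
    have := congrArg π cz
    simp only [map_add, map_sub, map_mul, π0] at this ⊢
    linear_combination this)
  obtain ⟨r, rfl⟩ : ∃ z, Q2 = ρ * z := H.dv G2 (by
    have h1 : 2 * G * Q2 + ρ * (N Q2 + L * Q2) - ρ * T P2 - ρ * (G * (y + ρ * ρ * y2)) = 0 :=
      H.reg _ (by simp only [hN', hNρ] at cz; linear_combination cz)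
    have := congrArg π h1
    simp only [map_add, map_sub, map_mul, π0, map_zero] at this ⊢
    linear_combination this)
  obtain ⟨P3, rfl⟩ : ∃ z, P2 = ρ * z := H.dv G2 (by
    have := congrArg π dz
    simp only [hT', hTρ, map_add, map_mul, π0, map_zero] at this ⊢
    linear_combination this)
  obtain ⟨s, rfl⟩ : ∃ z, P3 = ρ * z := H.dv G3 (by
    have h1 : 3 * G * P3 + ρ * (N P3 + L * P3) + ρ * T r = 0 :=
      H.reg _ (by simp only [hN', hNρ, hT', hTρ] at dz; linear_combination dz)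
    have := congrArg π h1
    simp only [map_add, map_mul, π0, map_zero] at this ⊢
    linear_combination this)
  have C2 : 3 * G * r + ρ * (N r + L * r) - ρ * ρ * T s - G * (y + ρ * ρ * y2) = 0 :=
    H.reg _ (H.reg _ (by simp only [hN', hNρ, hT', hTρ] at cz; linear_combination cz))
  have D2 : 4 * G * s + ρ * (N s + L * s) + T r = 0 :=
    H.reg _ (H.reg _ (by simp only [hN', hNρ, hT', hTρ] at dz; linear_combination dz))
  have πL := congrArg π hL
  simp only [map_add, map_mul] at πL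
  have g1 : ∀ j, π (2 * G * N (q j) + (3 * a + e) * q j) = 0 := fun j => by
    have := congrArg (fun x => π (N x)) (C j)
    simp only [map_add, map_sub, hN', hNρ, hNG, hNω, map_mul, π0, map_ofNat] at this ⊢
    linear_combination this - π (q j) * πL
  have g2 : ∀ j, π (G * T (q j) + 2 * b * q j) = 0 := fun j => by
    have := congrArg (fun x => π (T x)) (C j)
    simp only [map_add, map_sub, hT', hTρ, hTG, hTω, map_mul, map_neg, π0, map_ofNat,
      map_zero] at this ⊢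
    linear_combination this
  obtain ⟨z3, g3⟩ : ∃ z, 3 * r - y = ρ * z := H.dv hG (by
    have := congrArg π C2
    simp only [map_add, map_sub, map_mul, π0, map_zero, map_ofNat] at this ⊢
    linear_combination this)
  have g3a := congrArg π g3
  have g3b := congrArg (fun x => π (T x)) g3
  simp only [hy, map_sub, hT', hTρ, t3, map_add, map_mul, π0, map_ofNat, map_zero] at g3a g3b
  obtain ⟨z4, g4⟩ : ∃ z, 2 * G * N r + (5 * a + 2 * e) * r = ρ * z :=
    H.dv (u := 4) (by rw [map_ofNat]; norm_num) (by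
      have := congrArg (fun x => π (N x)) C2
      have k0 := g1 0
      have k1 := g1 1
      have k2 := g1 2
      simp only [hy, map_add, map_sub, hN', hNρ, hNG, n3, map_mul, π0, map_ofNat,
        map_zero] at this k0 k1 k2 ⊢
      linear_combination 2 * this - 2 * π r * πL + 2 * π (q 1) * k1 - π (q 0) * k2
        - π (q 2) * k0 + (2 * π a + 2 * π e) * g3a)
  obtain ⟨E1, hE⟩ : ∃ z, p 0 * r - q 0 * s = ρ * z :=
    H.dv (u := 12 * G * G) (by simp only [map_mul, map_ofNat]; positivity) (by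
      have d1 := congrArg π (D 0)
      have d2 := congrArg π D2
      have k0 := g2 0
      have k1 := g2 1
      have k2 := g2 2
      simp only [map_add, map_sub, map_mul, π0, map_ofNat, map_zero] at d1 d2 k0 k1 k2 ⊢
      linear_combination 6 * π G * π r * d1 - 3 * π G * π (q 0) * d2 - 6 * π r * k0
        + π G * π (q 0) * g3b + π (q 0) * (2 * π (q 1) * k1 - π (q 0) * k2 - π (q 2) * k0)
        + 4 * π b * π (q 0) * g3a)
  refine ⟨E1, by linear_combination -p 0 * hQ1 + q 0 * hP2 + ρ * ρ * hE, ?_⟩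
  obtain ⟨z1, h1⟩ := (Ideal.Quotient.eq_zero_iff_dvd _ _).1 (g1 0)
  obtain ⟨z2, h2⟩ := (Ideal.Quotient.eq_zero_iff_dvd _ _).1 (g2 0)
  obtain ⟨z5, h5⟩ : ∃ z, G * T r + 4 * b * r = ρ * z :=
    H.dv (u := 3) (by rw [map_ofNat]; norm_num) (by
      have k0 := g2 0
      have k1 := g2 1
      have k2 := g2 2
      simp only [map_add, map_mul, map_ofNat] at k0 k1 k2 ⊢
      linear_combination π G * g3b + (2 * π (q 1) * k1 - π (q 0) * k2 - π (q 2) * k0)
        + 4 * π b * g3a)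
  have a1 := congrArg ev h1
  have a2 := congrArg ev h2
  have a3 := congrArg ev g3
  have a4 := congrArg ev g4
  have a5 := congrArg ev h5
  have a6 := congrArg (fun x => ev (T x)) h1
  have a7 := congrArg (fun x => ev (T x)) g4
  have a8 := congrArg ev (hc (q 0))
  have a9 := congrArg ev (hc r)
  have b1 := congrArg ev (D 0)
  have b2 := congrArg ev D2
  have b3 := congrArg (fun x => ev (N x)) (D 0)
  have b4 := congrArg (fun x => ev (N x)) D2
  have b5 := congrArg (fun x => ev (N x)) hE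
  have b6 := congrArg ev hL
  have c0 := congrArg ev (C 0)
  have c1 := congrArg ev (C 1)
  have c2 := congrArg ev (C 2)
  simp only [hy, map_add, map_sub, hN', hT', hNρ, hTρ, hNG, hTG, n2, n4, t2, t3, t5, map_mul,
    map_neg, map_ofNat, map_zero, evρ, zero_mul, add_zero, sub_zero, zero_add]
    at a1 a2 a3 a4 a5 a6 a7 a8 a9 b1 b2 b3 b4 b5 b6 c0 c1 c2
  generalize ev (T a) = Ta at *
  generalize ev (T e) = Te at *
  generalize ev G = G at *
  generalize ev a = a at *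
  generalize ev b = b at *
  generalize ev e = e at *
  have e1 : G ^ 2 * ev (p 0) = b * ev (q 0) := by linear_combination (G / 2) * b1 - (1 / 2) * a2
  have e2 : G ^ 2 * ev s = b * ev r := by linear_combination (G / 4) * b2 - (1 / 4) * a5
  have e3 : 2 * G ^ 2 * ev (N (T (q 0))) = ev (q 0) * (14 * a * b + 10 * b * e
      - G * (3 * Ta + Te)) := by
    linear_combination 2 * G * a8 + G * a6 - 4 * b * a1 - (a + 3 * e) * a2
  have e4 : 2 * G ^ 2 * ev (N (T r)) = ev r * (32 * a * b + 24 * b * e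
      - G * (5 * Ta + 2 * Te)) := by
    linear_combination 2 * G * a9 + G * a7 - 4 * b * a4 - (3 * a + 4 * e) * a5
  have e5 : 6 * G ^ 3 * ev (N (p 0)) = ev (q 0) * (-24 * a * b - 12 * b * e
      + G * (3 * Ta + Te)) := by
    linear_combination 2 * G ^ 2 * b3 - e3 - 2 * G ^ 2 * ev (p 0) * b6 - (10 * a + 2 * e) * e1
  have e6 : 10 * G ^ 3 * ev (N s) = ev r * (-50 * a * b - 26 * b * e
      + G * (5 * Ta + 2 * Te)) := by
    linear_combination 2 * G ^ 2 * b4 - e4 - 2 * G ^ 2 * ev s * b6 - (18 * a + 2 * e) * e2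
  have e7 : 30 * G ^ 4 * ev E1 = -(ev (q 0) * ev r * (G * Te - 3 * e * b)) := by
    linear_combination -30 * G ^ 3 * b5 + 5 * ev r * e5 - 3 * ev (q 0) * e6
      + 30 * G * ev (N r) * e1 + 15 * b * ev (q 0) * a4 - 30 * G * ev (N (q 0)) * e2
      - 15 * b * ev r * a1
  rw [← c0, ← c1, ← c2]
  linear_combination 3 * G ^ 3 * e7 - G ^ 3 * ev (q 0) * (G * Te - 3 * e * b) * a3

end Pool.Agent.MP_ed9623_an.H64
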