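import Pool.Agent.MP_ed9623_an.H64.Ring1

namespace Pool.Agent.MP_ed9623_an.H64

/-- A differential local ring modelling germs at a boundary point. -/
structure DR (R : Type*) [CommRing R] where
  d0 : R →+ R
  d1 : R →+ R
  d2 : R →+ R
  l0 : ∀ f g, d0 (f * g) = d0 f * g + f * d0 g
  l1 : ∀ f g, d1 (f * g) = d1 f * g + f * d1 g
  l2 : ∀ f g, d2 (f * g) = d2 f * g + f * d2 g
  c01 : ∀ f, d0 (d1 f) = d1 (d0 f)
  c02 : ∀ f, d0 (d2 f) = d2 (d0 f)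
  c12 : ∀ f, d2 (d1 f) = d1 (d2 f)
  ρ : R
  ev : R →+* ℝ
  loc : Loc ρ ev
  h0 : d0 ρ = 0

variable {R : Type*} [CommRing R]

theorem Loc.reg_pow {ρ : R} {ev : R →+* ℝ} (h : Loc ρ ev) (m : ℕ) :
    ∀ x, ρ ^ m * x = 0 → x = 0 := by
  induction m with
  | zero => intro x hx; simpa using hx
  | succ m ih => intro x hx; exact h.reg _ (ih _ (by linear_combination hx))

namespace DR
variable (X : DR R)

def G : R := X.d1 X.ρ * X.d1 X.ρ + X.d2 X.ρ * X.d2 X.ρ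
def e : R := X.d1 (X.d1 X.ρ) * (X.d2 X.ρ * X.d2 X.ρ)
  - 2 * X.d1 (X.d2 X.ρ) * X.d1 X.ρ * X.d2 X.ρ + X.d2 (X.d2 X.ρ) * (X.d1 X.ρ * X.d1 X.ρ)
def T : R →+ R := AddMonoidHom.mk' (fun f => -X.d2 X.ρ * X.d1 f + X.d1 X.ρ * X.d2 f)
  fun f g => by simp only [map_add]; ring
def N : R →+ R := AddMonoidHom.mk' (fun f => X.d1 X.ρ * X.d1 f + X.d2 X.ρ * X.d2 f)
  fun f g => by simp only [map_add]; ring
def kap : R := 2 * X.G * X.T X.e - 3 * X.e * X.T X.G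
def curl (w1 w2 : R) : R := X.d1 w2 - X.d2 w1
def lap (f : R) : R := X.d1 (X.d1 f) + X.d2 (X.d2 f)

theorem T_apply (f : R) : X.T f = -X.d2 X.ρ * X.d1 f + X.d1 X.ρ * X.d2 f := rfl
theorem N_apply (f : R) : X.N f = X.d1 X.ρ * X.d1 f + X.d2 X.ρ * X.d2 f := rfl

theorem heat_jet {w1 w2 : R} (h1 : X.ρ ∣ w1) (h2 : X.ρ ∣ w2) (hd : X.d1 w1 + X.d2 w2 = 0)
    (e1 : X.d0 w1 = X.lap w1) (e2 : X.d0 w2 = X.lap w2)
    (hG0 : X.d0 (w1 * X.d1 (X.curl w1 w2) + w2 * X.d2 (X.curl w1 w2)) = 0)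
    (hG : X.ev X.G ≠ 0) (hω : X.ev (X.curl w1 w2) ≠ 0) :
    ∃ G6, w1 * X.d1 (X.curl w1 w2) + w2 * X.d2 (X.curl w1 w2) = X.ρ ^ 6 * G6 ∧
      180 * X.ev X.G ^ 6 * X.ev G6 = (X.ev (X.curl w1 w2) * X.ev (X.d0 (X.d0 (X.curl w1 w2)))
        - X.ev (X.d0 (X.curl w1 w2)) ^ 2) * X.ev X.kap := by
  obtain ⟨W1, hW1⟩ := h1
  obtain ⟨W2, hW2⟩ := h2
  obtain ⟨g, hg⟩ := (X.loc.unit _ hG).exists_left_inv
  obtain ⟨o, ho⟩ := (X.loc.unit _ hω).exists_left_inv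
  have t1 : X.d1 2 = 0 := Lb.ofNat X.l1 2
  have t2 : X.d2 2 = 0 := Lb.ofNat X.l2 2
  have z1 : X.d0 (X.d1 X.ρ) = 0 := by rw [X.c01, X.h0, map_zero]
  have z2 : X.d0 (X.d2 X.ρ) = 0 := by rw [X.c02, X.h0, map_zero]
  let p : ℕ → R := fun j => X.d0^[j] (-g * (X.d1 W1 + X.d2 W2))
  let q : ℕ → R := fun j => X.d0^[j] (g * (-X.d2 X.ρ * W1 + X.d1 X.ρ * W2))
  let u : ℕ → R := fun j => X.d0^[j] w1
  let v : ℕ → R := fun j => X.d0^[j] w2
  have sp : ∀ j, p (j + 1) = X.d0 (p j) := fun j => Function.iterate_succ_apply' _ _ _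
  have sq : ∀ j, q (j + 1) = X.d0 (q j) := fun j => Function.iterate_succ_apply' _ _ _
  have su : ∀ j, u (j + 1) = X.d0 (u j) := fun j => Function.iterate_succ_apply' _ _ _
  have sv : ∀ j, v (j + 1) = X.d0 (v j) := fun j => Function.iterate_succ_apply' _ _ _
  have fr : ∀ j, u j = X.ρ * X.ρ * p j * X.d1 X.ρ - X.ρ * q j * X.d2 X.ρ ∧
      v j = X.ρ * X.ρ * p j * X.d2 X.ρ + X.ρ * q j * X.d1 X.ρ := by
    intro j
    induction j with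
    | zero =>
      rw [hW1, hW2, X.l1, X.l2] at hd
      unfold G at hg
      change w1 = X.ρ * X.ρ * (-g * (X.d1 W1 + X.d2 W2)) * X.d1 X.ρ
        - X.ρ * (g * (-X.d2 X.ρ * W1 + X.d1 X.ρ * W2)) * X.d2 X.ρ ∧
        w2 = X.ρ * X.ρ * (-g * (X.d1 W1 + X.d2 W2)) * X.d2 X.ρ
        + X.ρ * (g * (-X.d2 X.ρ * W1 + X.d1 X.ρ * W2)) * X.d1 X.ρ
      constructor
      · linear_combination hW1 - X.ρ * W1 * hg + X.ρ * g * X.d1 X.ρ * hd
      · linear_combination hW2 - X.ρ * W2 * hg + X.ρ * g * X.d2 X.ρ * hd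
    | succ j ih =>
      rw [su, sv, sp, sq, ih.1, ih.2]
      simp only [map_add, map_sub, X.l0, X.h0, z1, z2]
      constructor <;> ring
  have ht : ∀ j, X.d1 (u j) + X.d2 (v j) = 0 ∧ X.d0 (u j) = X.lap (u j) ∧
      X.d0 (v j) = X.lap (v j) := by
    intro j
    induction j with
    | zero => exact ⟨hd, e1, e2⟩
    | succ j ih =>
      have a1 := congrArg X.d0 ih.1
      have a2 := congrArg X.d0 ih.2.1
      have a3 := congrArg X.d0 ih.2.2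
      unfold lap at a2 a3 ⊢
      simp only [map_add, X.c01, X.c02, map_zero] at a1 a2 a3
      rw [su, sv]
      exact ⟨a1, a2, a3⟩
  have g1 : ∀ j, X.d1 (X.curl (u j) (v j)) = v (j + 1) := fun j => by
    have := congrArg X.d2 (ht j).1
    rw [sv, (ht j).2.2]
    unfold curl lap
    simp only [map_add, map_sub, X.c12, map_zero] at this ⊢
    linear_combination -this
  have g2 : ∀ j, X.d2 (X.curl (u j) (v j)) = -u (j + 1) := fun j => by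
    have := congrArg X.d1 (ht j).1
    rw [su, (ht j).2.1]
    unfold curl lap
    simp only [map_add, map_sub, X.c12, map_zero] at this ⊢
    linear_combination this
  have sω : ∀ j, X.d0 (X.curl (u j) (v j)) = X.curl (u (j + 1)) (v (j + 1)) := fun j => by
    unfold curl
    rw [su, sv, map_sub, X.c01, X.c02]
  have k0 : w1 * X.d1 (X.curl w1 w2) + w2 * X.d2 (X.curl w1 w2) = u 0 * v 1 - v 0 * u 1 := by
    rw [show X.curl w1 w2 = X.curl (u 0) (v 0) from rfl, g1, g2]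
    change u 0 * _ + v 0 * _ = _
    ring
  have cr : ∀ i j, u i * v j - v i * u j = X.ρ ^ 3 * (X.G * (p i * q j - q i * p j)) := by
    intro i j
    rw [(fr i).1, (fr i).2, (fr j).1, (fr j).2]
    unfold G; ring
  obtain ⟨E1, k1, k2⟩ := frame (N := X.N) (T := X.T) (ρ := X.ρ) (G := X.G)
    (a := X.d1 X.ρ * X.d1 X.ρ * X.d1 (X.d1 X.ρ) + 2 * X.d1 X.ρ * X.d2 X.ρ * X.d1 (X.d2 X.ρ)
      + X.d2 X.ρ * X.d2 X.ρ * X.d2 (X.d2 X.ρ))
    (b := X.d1 X.ρ * X.d2 X.ρ * (X.d2 (X.d2 X.ρ) - X.d1 (X.d1 X.ρ))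
      + X.d1 (X.d2 X.ρ) * (X.d1 X.ρ * X.d1 X.ρ - X.d2 X.ρ * X.d2 X.ρ)) (e := X.e)
    (L := X.lap X.ρ) (fun f g => by simp only [N_apply, X.l1, X.l2]; ring)
    (fun f g => by simp only [T_apply, X.l1, X.l2]; ring) X.loc hG rfl
    (by rw [T_apply]; ring) (by simp only [N_apply, G, map_add, X.l1, X.l2, X.c12]; ring)
    (by simp only [T_apply, G, map_add, X.l1, X.l2, X.c12]; ring)
    (by simp only [G, e, lap]; ring)
    (fun f => by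
      simp only [N_apply, T_apply, G, e, map_add, map_neg, X.l1, X.l2, X.c12]; ring)
    p q (fun j => X.curl (u j) (v j))
    (fun j => by
      simp only [(fr j).1, (fr j).2, curl, lap, G, N_apply, T_apply, map_add, map_sub, X.l1, X.l2,
        X.c12]
      ring)
    (fun j => X.loc.reg _ (by
      have := (ht j).1
      simp only [(fr j).1, (fr j).2, lap, G, N_apply, T_apply, map_add, map_sub, X.l1, X.l2,
        X.c12] at this ⊢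
      linear_combination this))
    (fun j => by rw [N_apply, g1, g2, (fr _).1, (fr _).2, G]; ring)
    (fun j => by rw [T_apply, g1, g2, (fr _).1, (fr _).2, G]; ring)
    (by
      rw [k0, map_sub, X.l0, X.l0, ← su, ← sv, ← su, ← sv] at hG0
      have := X.loc.reg_pow 3 _ ((cr 0 2).symm.trans (by linear_combination hG0))
      linear_combination g * this - (p 0 * q 2 - q 0 * p 2) * hg)
  refine ⟨X.G * o * E1, ?_, ?_⟩
  · rw [k0, cr]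
    have ho' : o * X.curl (u 0) (v 0) = 1 := ho
    linear_combination X.ρ ^ 3 * X.G * o * k1 - X.ρ ^ 3 * X.G * (p 0 * q 1 - q 0 * p 1) * ho'
  · have ho' := congrArg X.ev ho
    have kk : X.kap = 2 * (X.G * X.T X.e - 3 * X.e * (X.d1 X.ρ * X.d2 X.ρ * (X.d2 (X.d2 X.ρ)
        - X.d1 (X.d1 X.ρ)) + X.d1 (X.d2 X.ρ) * (X.d1 X.ρ * X.d1 X.ρ - X.d2 X.ρ * X.d2 X.ρ))) := by
      have : X.T X.G = 2 * (X.d1 X.ρ * X.d2 X.ρ * (X.d2 (X.d2 X.ρ) - X.d1 (X.d1 X.ρ))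
          + X.d1 (X.d2 X.ρ) * (X.d1 X.ρ * X.d1 X.ρ - X.d2 X.ρ * X.d2 X.ρ)) := by
        simp only [T_apply, G, map_add, X.l1, X.l2, X.c12]; ring
      rw [kap, this]; ring
    rw [show X.curl w1 w2 = X.curl (u 0) (v 0) from rfl] at ho' ⊢
    rw [sω, sω, kk]
    generalize X.d1 X.ρ * X.d2 X.ρ * (X.d2 (X.d2 X.ρ) - X.d1 (X.d1 X.ρ))
      + X.d1 (X.d2 X.ρ) * (X.d1 X.ρ * X.d1 X.ρ - X.d2 X.ρ * X.d2 X.ρ) = b at *
    simp only [map_mul, map_sub, map_ofNat, map_one] at ho' ⊢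
    linear_combination 2 * X.ev o * k2 + 2 * (X.ev (X.curl (u 0) (v 0)) * X.ev (X.curl (u 2) (v 2))
      - X.ev (X.curl (u 1) (v 1)) ^ 2) * (X.ev X.G * X.ev (X.T X.e) - 3 * X.ev X.e * X.ev b) * ho'

theorem flat_step {A1 A2 w1 w2 : R} (m : ℕ) (h1 : X.ρ ∣ w1) (h2 : X.ρ ∣ w2)
    (hd : X.d1 w1 + X.d2 w2 = 0) (ha : X.d1 (X.ρ ^ (m + 1) * A1) + X.d2 (X.ρ ^ (m + 1) * A2) = 0)
    (ht : X.d1 (X.ρ ^ (m + 1) * A1) * X.d1 w1 + X.d2 (X.ρ ^ (m + 1) * A1) * X.d1 w2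
      + X.d1 (X.ρ ^ (m + 1) * A2) * X.d2 w1 + X.d2 (X.ρ ^ (m + 1) * A2) * X.d2 w2 = 0)
    (hG : X.ev X.G ≠ 0) (he : X.ev X.e ≠ 0) (hω : X.ev (X.curl w1 w2) ≠ 0) :
    X.ρ ∣ A1 ∧ X.ρ ∣ A2 := by
  obtain ⟨W1, rfl⟩ := h1
  obtain ⟨W2, rfl⟩ := h2
  have π0 := Loc.mk0 X.ρ
  set π := Ideal.Quotient.mk (Ideal.span {X.ρ}) with hπ
  obtain ⟨M, hM⟩ : ∃ M : R, M = m + 1 := ⟨_, rfl⟩
  have M1 : X.d1 M = 0 := by rw [hM, map_add, Lb.nat X.l1, Lb.one X.l1, add_zero]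
  have M2 : X.d2 M = 0 := by rw [hM, map_add, Lb.nat X.l2, Lb.one X.l2, add_zero]
  have M0 : 0 < X.ev M := by rw [hM, map_add, map_natCast, map_one]; positivity
  simp only [X.l1, X.l2, Lb.pow X.l1, Lb.pow X.l2, ← hM] at hd ha ht
  have ha' : M * (X.d1 X.ρ * A1 + X.d2 X.ρ * A2) + X.ρ * (X.d1 A1 + X.d2 A2) = 0 :=
    X.loc.reg_pow m _ (by linear_combination ha)
  have ht' : M * (X.d1 X.ρ * (A1 * X.d1 W1 + A2 * X.d2 W1)
      + X.d2 X.ρ * (A1 * X.d1 W2 + A2 * X.d2 W2)) + (X.d1 X.ρ * (W1 * X.d1 A1 + W2 * X.d2 A1)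
      + X.d2 X.ρ * (W1 * X.d1 A2 + W2 * X.d2 A2)) + X.ρ * ((X.d1 A1 + X.d2 A2) * (X.d1 W1 + X.d2 W2)
      + (X.d1 A1 * X.d1 W1 + X.d2 A1 * X.d1 W2 + X.d1 A2 * X.d2 W1 + X.d2 A2 * X.d2 W2)) = 0 :=
    X.loc.reg_pow (m + 1) _ (by
      linear_combination ht - X.ρ ^ m * M * (X.d1 X.ρ * A1 + X.d2 X.ρ * A2) * hd
        + X.ρ ^ (m + 1) * (X.d1 W1 + X.d2 W2) * ha')
  obtain ⟨z, hz⟩ : ∃ z, X.d1 X.ρ * A1 + X.d2 X.ρ * A2 = X.ρ * z := X.loc.dv M0.ne' (by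
    have := congrArg π ha'
    simp only [map_add, map_mul, π0, map_zero] at this ⊢
    linear_combination this)
  have a0 := congrArg π hz
  have a1 := congrArg (fun x => π (X.d1 x)) ha'
  have a2 := congrArg (fun x => π (X.d2 x)) ha'
  have b0 := congrArg π hd
  have b1 := congrArg (fun x => π (X.d1 x)) hd
  have b2 := congrArg (fun x => π (X.d2 x)) hd
  have c := congrArg π ht'
  simp only [map_add, map_mul, π0, map_zero, X.l1, X.l2, M1, M2, X.c12, zero_mul, zero_add,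
    add_zero] at a0 a1 a2 b0 b1 b2 c
  have u0 : X.ev (M * (M + 1) * X.e * X.curl (X.ρ * W1) (X.ρ * W2) * X.G) ≠ 0 := by
    simp only [map_mul, map_add, map_one]
    positivity
  have H : π M * (π M + 1) * (π A1 * π W1 * π (X.d1 (X.d1 X.ρ))
      + (π A1 * π W2 + π A2 * π W1) * π (X.d1 (X.d2 X.ρ))
      + π A2 * π W2 * π (X.d2 (X.d2 X.ρ))) = 0 := by
    linear_combination π M * π M * (π A1 * b1 + π A2 * b2) + π W1 * a1 + π W2 * a2 - π M * c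
      - π M * π M * (π (X.d1 W1) + π (X.d2 W2)) * a0 - (π (X.d1 A1) + π (X.d2 A2)) * b0
  have H2 : π (M * (M + 1) * X.e * X.curl (X.ρ * W1) (X.ρ * W2))
      * (-π (X.d2 X.ρ) * π A1 + π (X.d1 X.ρ) * π A2) = 0 := by
    simp only [e, curl, X.l1, X.l2, map_add, map_mul, map_sub, map_one, map_ofNat, π0]
    generalize π (X.d1 (X.d1 X.ρ)) = r11 at *
    generalize π (X.d1 (X.d2 X.ρ)) = r12 at *
    generalize π (X.d2 (X.d2 X.ρ)) = r22 at *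
    generalize π (X.d1 X.ρ) = r1 at *
    generalize π (X.d2 X.ρ) = r2 at *
    linear_combination (r1 * r1 + r2 * r2) ^ 2 * H - π M * (π M + 1) * ((r1 * π W1 + r2 * π W2)
      * (r1 * r1 * r11 + 2 * r1 * r2 * r12 + r2 * r2 * r22) + (-r2 * π W1 + r1 * π W2)
      * (r1 * r2 * (r22 - r11) + r12 * (r1 * r1 - r2 * r2))) * a0 - π M * (π M + 1)
      * (-r2 * π A1 + r1 * π A2) * (r1 * r2 * (r22 - r11) + r12 * (r1 * r1 - r2 * r2)) * b0
  generalize M * (M + 1) * X.e * X.curl (X.ρ * W1) (X.ρ * W2) = U at *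
  constructor
  · refine X.loc.dv u0 ?_
    simp only [G, map_add, map_mul]
    linear_combination π U * π (X.d1 X.ρ) * a0 - π (X.d2 X.ρ) * H2
  · refine X.loc.dv u0 ?_
    simp only [G, map_add, map_mul]
    linear_combination π U * π (X.d2 X.ρ) * a0 + π (X.d1 X.ρ) * H2

end DR

end Pool.Agent.MP_ed9623_an.H64
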