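import Pool.Agent.MP_ed9623_an.H64.Ring2

namespace Pool.Agent.MP_ed9623_an.H64

variable {R : Type*} [CommRing R]

/-- The ideal of flat elements. -/
def flat (ρ : R) : Ideal R where
  carrier := {x | ∀ m, ρ ^ m ∣ x}
  add_mem' := fun ha hb m => (ha m).add (hb m)
  zero_mem' := fun _ => dvd_zero _
  smul_mem' := fun c _ ha m => (ha m).mul_left c

theorem flat_d {ρ : R} {d : R →+ R} (h : Lb d) {x : R} (hx : x ∈ flat ρ) : d x ∈ flat ρ := by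
  intro m
  obtain ⟨y, rfl⟩ := hx (m + 1)
  exact ⟨(m + 1) * d ρ * y + ρ * d y, by rw [h, h.pow]; ring⟩

theorem exists_lift (I : Ideal R) (d : R →+ R) (h : ∀ x ∈ I, d x ∈ I) :
    ∃ d' : R ⧸ I →+ R ⧸ I, ∀ x, d' (Ideal.Quotient.mk I x) = Ideal.Quotient.mk I (d x) := by
  refine ⟨(Ideal.Quotient.mk I).toAddMonoidHom.liftOfSurjective Ideal.Quotient.mk_surjective
    ⟨(Ideal.Quotient.mk I).toAddMonoidHom.comp d, fun x hx => ?_⟩, fun x => ?_⟩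
  · exact Ideal.Quotient.eq_zero_iff_mem.2 (h x (Ideal.Quotient.eq_zero_iff_mem.1 hx))
  · exact AddMonoidHom.liftOfRightInverse_comp_apply _ _ _ _ x

theorem DR.exists_quot (X : DR R) : ∃ Y : DR (R ⧸ flat X.ρ),
    (∀ x, Y.d0 (Ideal.Quotient.mk _ x) = Ideal.Quotient.mk _ (X.d0 x)) ∧
    (∀ x, Y.d1 (Ideal.Quotient.mk _ x) = Ideal.Quotient.mk _ (X.d1 x)) ∧
    (∀ x, Y.d2 (Ideal.Quotient.mk _ x) = Ideal.Quotient.mk _ (X.d2 x)) ∧
    Y.ρ = Ideal.Quotient.mk _ X.ρ ∧ ∀ x, Y.ev (Ideal.Quotient.mk _ x) = X.ev x := by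
  obtain ⟨d0, h0⟩ := exists_lift (flat X.ρ) X.d0 fun x => flat_d X.l0
  obtain ⟨d1, h1⟩ := exists_lift (flat X.ρ) X.d1 fun x => flat_d X.l1
  obtain ⟨d2, h2⟩ := exists_lift (flat X.ρ) X.d2 fun x => flat_d X.l2
  have sj := Ideal.Quotient.mk_surjective (I := flat X.ρ)
  have hev : ∀ x ∈ flat X.ρ, X.ev x = 0 := fun x hx => by
    obtain ⟨y, rfl⟩ := hx 1
    rw [map_mul, pow_one, X.loc.evρ, zero_mul]
  refine ⟨⟨d0, d1, d2, sj.forall₂.2 fun f g => ?_, sj.forall₂.2 fun f g => ?_,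
    sj.forall₂.2 fun f g => ?_, sj.forall.2 fun f => ?_, sj.forall.2 fun f => ?_,
    sj.forall.2 fun f => ?_, Ideal.Quotient.mk _ X.ρ, Ideal.Quotient.lift _ X.ev hev,
    ⟨sj.forall.2 fun x hx => ?_, X.loc.evρ, sj.forall.2 fun x hx => (X.loc.unit x hx).map _⟩, ?_⟩,
    h0, h1, h2, rfl, fun x => rfl⟩
  · simp only [← map_mul, h0, X.l0, ← map_add]
  · simp only [← map_mul, h1, X.l1, ← map_add]
  · simp only [← map_mul, h2, X.l2, ← map_add]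
  · simp only [h0, h1, X.c01]
  · simp only [h0, h2, X.c02]
  · simp only [h1, h2, X.c12]
  · rw [← map_mul, Ideal.Quotient.eq_zero_iff_mem] at hx
    refine Ideal.Quotient.eq_zero_iff_mem.2 fun m => ?_
    obtain ⟨y, hy⟩ := hx (m + 1)
    exact ⟨y, sub_eq_zero.1 (X.loc.reg _ (by linear_combination hy))⟩
  · rw [h0, X.h0, map_zero]

theorem DR.main (X : DR R) {a1 a2 w1 w2 Gc : R} (ha1 : X.ρ ∣ a1) (ha2 : X.ρ ∣ a2)
    (hw1 : X.ρ ∣ w1) (hw2 : X.ρ ∣ w2) (da : X.d1 a1 + X.d2 a2 = 0) (dw : X.d1 w1 + X.d2 w2 = 0)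
    (e1 : X.d0 w1 + a1 * X.d1 w1 + a2 * X.d2 w1 - X.lap w1 + (w1 * X.d1 a1 + w2 * X.d2 a1) = 0)
    (e2 : X.d0 w2 + a1 * X.d1 w2 + a2 * X.d2 w2 - X.lap w2 + (w1 * X.d1 a2 + w2 * X.d2 a2) = 0)
    (hc : Gc = X.curl
      (X.d0 a1 + a1 * X.d1 a1 + a2 * X.d2 a1 - X.lap a1 + (w1 * X.d1 w1 + w2 * X.d2 w1))
      (X.d0 a2 + a1 * X.d1 a2 + a2 * X.d2 a2 - X.lap a2 + (w1 * X.d1 w2 + w2 * X.d2 w2)))
    (h0 : X.d0 Gc = 0) (hG : X.ev X.G ≠ 0) (he : X.ev X.e ≠ 0) (hω : X.ev (X.curl w1 w2) ≠ 0) :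
    ∃ G6, Gc = X.ρ ^ 6 * G6 ∧
      180 * X.ev X.G ^ 6 * X.ev G6 = (X.ev (X.curl w1 w2) * X.ev (X.d0 (X.d0 (X.curl w1 w2)))
        - X.ev (X.d0 (X.curl w1 w2)) ^ 2) * X.ev X.kap := by
  have tr : X.d1 a1 * X.d1 w1 + X.d2 a1 * X.d1 w2 + X.d1 a2 * X.d2 w1 + X.d2 a2 * X.d2 w2 = 0 := by
    refine (X.loc.unit 2 (by rw [map_ofNat]; norm_num)).mul_right_eq_zero.1 ?_
    have k1 := congrArg X.d1 e1
    have k2 := congrArg X.d2 e2
    have k3 := congrArg X.d0 dw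
    have k4 := congrArg X.d1 dw
    have k5 := congrArg X.d2 dw
    have k6 := congrArg X.d1 da
    have k7 := congrArg X.d2 da
    have k8 := congrArg X.d1 k4
    have k9 := congrArg X.d2 k5
    simp only [DR.lap, map_add, map_sub, map_zero, X.l1, X.l2, X.c12, X.c01, X.c02]
      at k1 k2 k3 k4 k5 k6 k7 k8 k9
    linear_combination k1 + k2 - k3 - a1 * k4 - a2 * k5 - w1 * k6 - w2 * k7 + k8 + k9
  have fl : ∀ m, X.ρ ^ (m + 1) ∣ a1 ∧ X.ρ ^ (m + 1) ∣ a2 := by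
    intro m
    induction m with
    | zero => simpa using ⟨ha1, ha2⟩
    | succ m ih =>
      obtain ⟨⟨A1, rfl⟩, ⟨A2, rfl⟩⟩ := ih
      obtain ⟨k1, k2⟩ := X.flat_step m hw1 hw2 dw da tr hG he hω
      rw [pow_succ _ (m + 1)]
      exact ⟨mul_dvd_mul_left _ k1, mul_dvd_mul_left _ k2⟩
  obtain ⟨Y, q0, q1, q2, qρ, qe⟩ := X.exists_quot
  set π := Ideal.Quotient.mk (flat X.ρ) with hπ
  have z1 : π a1 = 0 := Ideal.Quotient.eq_zero_iff_mem.2 fun m =>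
    (pow_dvd_pow _ (Nat.le_succ m)).trans (fl m).1
  have z2 : π a2 = 0 := Ideal.Quotient.eq_zero_iff_mem.2 fun m =>
    (pow_dvd_pow _ (Nat.le_succ m)).trans (fl m).2
  have qc : Y.curl (π w1) (π w2) = π (X.curl w1 w2) := by simp only [DR.curl, q1, q2, map_sub]
  have qG : Y.G = π X.G := by simp only [DR.G, qρ, q1, q2, map_add, map_mul]
  have qE : Y.e = π X.e := by simp only [DR.e, qρ, q1, q2, map_add, map_mul, map_sub, map_ofNat]
  have qT : ∀ f, Y.T (π f) = π (X.T f) := fun f => by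
    simp only [DR.T_apply, qρ, q1, q2, map_add, map_mul, map_neg]
  have qk : Y.kap = π X.kap := by simp only [DR.kap, qG, qE, qT, map_mul, map_sub, map_ofNat]
  have dw' := congrArg π dw
  have e1' := congrArg π e1
  have e2' := congrArg π e2
  have hc' := congrArg π hc
  simp only [DR.curl, DR.lap, map_add, map_sub, map_mul, map_zero, ← q0, ← q1, ← q2, z1, z2,
    zero_mul, mul_zero, add_zero, sub_zero, zero_add] at dw' e1' e2' hc'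
  have hGc : π w1 * Y.d1 (Y.curl (π w1) (π w2)) + π w2 * Y.d2 (Y.curl (π w1) (π w2)) = π Gc := by
    rw [hc']
    simp only [DR.curl, map_sub, map_add, Y.l1, Y.l2, Y.c12]
    linear_combination -(Y.d1 (π w2) - Y.d2 (π w1)) * dw'
  obtain ⟨G6, k1, k2⟩ := Y.heat_jet (w1 := π w1) (w2 := π w2) (qρ ▸ map_dvd π hw1)
    (qρ ▸ map_dvd π hw2) dw' (by rw [DR.lap]; linear_combination e1')
    (by rw [DR.lap]; linear_combination e2') (by rw [hGc, q0, h0, map_zero])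
    (by rwa [qG, qe]) (by rwa [qc, qe])
  obtain ⟨G6, rfl⟩ := Ideal.Quotient.mk_surjective G6
  rw [hGc, qρ, ← map_pow, ← map_mul, Ideal.Quotient.eq] at k1
  obtain ⟨z, hz⟩ := k1 7
  refine ⟨G6 + X.ρ * z, by linear_combination hz, ?_⟩
  rw [qG, qc, qk, q0, q0, qe, qe, qe, qe, qe, qe] at k2
  rw [map_add, map_mul, X.loc.evρ, zero_mul, add_zero, k2]

end Pool.Agent.MP_ed9623_an.H64
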