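import Pool.Agent.MP_ed9623_an.H64.Alg
import Pool.Agent.MP_ed9623_an.H64.Unique2

open Filter Topology MeasureTheory Set
open scoped ContDiff

namespace Pool.Agent.MP_ed9623_an.H64

theorem norm_fderiv_le2 (F : PP → ℝ) (x : PP) :
    ‖fderiv ℝ F x‖ ≤ |pd (1, 0) F x| + |pd (0, 1) F x| := by
  refine ContinuousLinearMap.opNorm_le_bound _ (by positivity) fun y => ?_
  have := pd_dir2 F x y
  unfold pd at this ⊢
  rw [this, Real.norm_eq_abs]
  refine (abs_add_le _ _).trans ?_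
  rw [abs_mul, abs_mul]
  have y1 : |y.1| ≤ ‖y‖ := norm_fst_le y
  have y2 : |y.2| ≤ ‖y‖ := norm_snd_le y
  nlinarith [mul_le_mul_of_nonneg_right y1 (abs_nonneg (fderiv ℝ F x (1, 0))),
    mul_le_mul_of_nonneg_right y2 (abs_nonneg (fderiv ℝ F x (0, 1)))]

theorem gns : ∃ C, 0 ≤ C ∧ ∀ u : PP → ℝ, ContDiff ℝ (1 : ℕ) u → HasCompactSupport u →
    ∫ x, u x * u x ≤ C * (∫ x, (|pd (1, 0) u x| + |pd (0, 1) u x|)) ^ 2 := by
  haveI := haar2
  refine ⟨(eLpNormLESNormFDerivOneConst (volume : Measure PP) 2 : ℝ) ^ 2, by positivity,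
    fun u hu hc => ?_⟩
  have hp : NNReal.HolderConjugate (Module.finrank ℝ PP) 2 := by
    have : Module.finrank ℝ PP = 2 := by simp
    rw [this]; exact_mod_cast NNReal.HolderConjugate.two_two
  have h := eLpNorm_le_eLpNorm_fderiv_one (μ := volume) (by exact_mod_cast hu) hc hp
  have i1 : Integrable (fderiv ℝ u) volume :=
    (hu.continuous_fderiv (by simp)).integrable_of_hasCompactSupport (hc.fderiv ℝ)
  have m2 : MemLp u 2 volume := hu.continuous.memLp_of_hasCompactSupport hc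
  rw [eLpNorm_one_eq_lintegral_enorm, ← ofReal_integral_norm_eq_lintegral_enorm i1] at h
  have e2 := m2.eLpNorm_eq_integral_rpow_norm two_ne_zero ENNReal.ofNat_ne_top
  simp only [ENNReal.toReal_ofNat, Real.rpow_two, Real.norm_eq_abs, sq_abs] at e2
  rw [show ((2 : NNReal) : ENNReal) = 2 from rfl, e2, ← ENNReal.ofReal_coe_nnreal,
    ← ENNReal.ofReal_mul (by positivity), ENNReal.ofReal_le_ofReal_iff (by positivity)] at h
  have J0 : 0 ≤ ∫ x, u x ^ 2 := integral_nonneg fun _ => sq_nonneg _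
  have h2 := pow_le_pow_left₀ (by positivity) h 2
  rw [← Real.rpow_two, ← Real.rpow_mul J0, inv_mul_cancel₀ two_ne_zero, Real.rpow_one,
    mul_pow] at h2
  simp only [← sq]
  refine h2.trans (mul_le_mul_of_nonneg_left (pow_le_pow_left₀ (by positivity) ?_ 2)
    (by positivity))
  have c1 := (contDiff_pd (n := 0) (1, 0) hu).continuous
  have c2 := (contDiff_pd (n := 0) (0, 1) hu).continuous
  exact integral_mono i1.norm (((c1.integrable_of_hasCompactSupport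
    (hc.fderiv_apply ℝ _)).abs).add (c2.integrable_of_hasCompactSupport
      (hc.fderiv_apply ℝ _)).abs) (norm_fderiv_le2 u)

namespace Dm
variable {Q : Dm}

theorem L1_fix (a : SA PP) : ∃ C, 0 ≤ C ∧ ∀ f, Q.L1 (a * f) ≤ C * Q.L1 f := by
  obtain ⟨C, c0, hC⟩ := Q.dom.bound a.ct
  refine ⟨C, c0, fun f => ?_⟩
  unfold L1
  rw [← integral_const_mul]
  refine setIntegral_mono_on (Q.dom.int (a * f).ct.abs) ((Q.dom.int f.ct.abs).const_mul C)
    Q.dom.meas fun x hx => ?_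
  change |a.1 x * f.1 x| ≤ _
  rw [abs_mul]
  exact mul_le_mul_of_nonneg_right (hC x hx) (abs_nonneg _)

theorem G_pos (x : PP) : 0 < (d1 Q.ρ).1 x ^ 2 + (d2 Q.ρ).1 x ^ 2 + Q.ρ.1 x ^ 2 := by
  by_contra h
  have a0 : Q.ρ.1 x = 0 := by
    nlinarith [sq_nonneg ((d1 Q.ρ).1 x), sq_nonneg ((d2 Q.ρ).1 x), sq_nonneg (Q.ρ.1 x)]
  have a1 : pd (1, 0) Q.ρ.1 x = 0 := by
    change (d1 Q.ρ).1 x = 0
    nlinarith [sq_nonneg ((d1 Q.ρ).1 x), sq_nonneg ((d2 Q.ρ).1 x), sq_nonneg (Q.ρ.1 x)]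
  have a2 : pd (0, 1) Q.ρ.1 x = 0 := by
    change (d2 Q.ρ).1 x = 0
    nlinarith [sq_nonneg ((d1 Q.ρ).1 x), sq_nonneg ((d2 Q.ρ).1 x), sq_nonneg (Q.ρ.1 x)]
  exact Q.reg x a0 (fderiv_zero_of_pd fun e => by rw [pd_dir2, a1, a2]; ring)

variable (Q) in
noncomputable def Ginv : SA PP :=
  ⟨fun x => ((d1 Q.ρ).1 x ^ 2 + (d2 Q.ρ).1 x ^ 2 + Q.ρ.1 x ^ 2)⁻¹,
    ((((d1 Q.ρ).sm.pow 2).add ((d2 Q.ρ).sm.pow 2)).add (Q.ρ.sm.pow 2)).inv
      fun x => (G_pos x).ne'⟩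

theorem Ginv_mul : Q.Ginv * (d1 Q.ρ * d1 Q.ρ + d2 Q.ρ * d2 Q.ρ + Q.ρ * Q.ρ) = 1 :=
  Subtype.ext (funext fun x => by
    have := (G_pos (Q := Q) x).ne'
    change ((d1 Q.ρ).1 x ^ 2 + (d2 Q.ρ).1 x ^ 2 + Q.ρ.1 x ^ 2)⁻¹ * ((d1 Q.ρ).1 x * (d1 Q.ρ).1 x
      + (d2 Q.ρ).1 x * (d2 Q.ρ).1 x + Q.ρ.1 x * Q.ρ.1 x) = 1
    simp only [← sq]
    exact inv_mul_cancel₀ this)

theorem W11 : ∃ C, 0 ≤ C ∧ ∀ F : SA PP, (∀ x, 0 ≤ F.1 x) →
    Q.I (F * F) ≤ C * (Q.L1 F + Q.L1 (d1 F) + Q.L1 (d2 F)) ^ 2 := by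
  obtain ⟨C0, c0, hC0⟩ := gns
  obtain ⟨B, b0, hB⟩ := st_deriv_bound
  obtain ⟨K, k0, hK⟩ := Q.dom.bound (F := fun x => (|(d1 Q.ρ).1 x| + |(d2 Q.ρ).1 x|) * Q.Ginv.1 x)
    (((d1 Q.ρ).ct.abs.add (d2 Q.ρ).ct.abs).mul Q.Ginv.ct)
  obtain ⟨R, r0, hR⟩ := Q.dom.bound Q.ρ.ct
  obtain ⟨A0, a0, hA0⟩ := L1_fix (Q := Q) (d1 (d1 Q.ρ) + d2 (d2 Q.ρ))
  obtain ⟨A1, a1, hA1⟩ := L1_fix (Q := Q) (d1 Q.ρ)
  obtain ⟨A2, a2, hA2⟩ := L1_fix (Q := Q) (d2 Q.ρ)
  refine ⟨C0 * (K * (A0 + A1 + A2 + B * R) + 1) ^ 2, by positivity, fun F hF => ?_⟩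
  let s : ℕ → PP → ℝ := fun n x => -(((n : ℝ) + 1) * Q.ρ.1 x) - 1
  have hs : ∀ n, ContDiff ℝ ∞ (s n) := fun n => (contDiff_const.mul Q.ρ.sm).neg.sub contDiff_const
  let θ : ℕ → SA PP := fun n => ⟨fun x => Real.smoothTransition (s n x),
    Real.smoothTransition.contDiff.comp (hs n)⟩
  let Λ : ℕ → SA PP := fun n => ⟨fun x => ((n : ℝ) + 1) * deriv Real.smoothTransition (s n x),
    contDiff_const.mul ((contDiff_infty_iff_deriv.1 Real.smoothTransition.contDiff).2.comp (hs n))⟩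
  have dθ : ∀ n e, D e (θ n) = -(Λ n * D e Q.ρ) := fun n e => Subtype.ext (funext fun x => by
    have k1 : HD e x (s n) (-(((n : ℝ) + 1) * pd e Q.ρ.1 x)) := by
      have := ((HD.const e x 0).sub ((HD.of_diff (e := e) (cdg_diff (Q.ρ.cd 1) le_rfl x)).cmul
        ((n : ℝ) + 1))).sub (HD.const e x 1)
      simpa [s] using this
    have a : HasDerivAt Real.smoothTransition (deriv Real.smoothTransition (s n x))
        (s n (x + (0 : ℝ) • e)) := by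
      simpa using ((Real.smoothTransition.contDiff (n := 1)).differentiable (by simp)
        (s n x)).hasDerivAt
    have k2 : HD e x (fun y => Real.smoothTransition (s n y))
        (deriv Real.smoothTransition (s n x) * -(((n : ℝ) + 1) * pd e Q.ρ.1 x)) :=
      HasDerivAt.comp (h₂ := Real.smoothTransition) (h := fun r : ℝ => s n (x + r • e))
        (0 : ℝ) a k1
    change pd e (fun y => Real.smoothTransition (s n y)) x
      = -(((n : ℝ) + 1) * deriv Real.smoothTransition (s n x) * pd e Q.ρ.1 x)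
    rw [k2.pd_eq (cdg_diff ((θ n).cd 1) le_rfl x)]; ring)
  have off : ∀ n x, ¬ Q.ρ.1 x < 0 → (θ n * F).1 =ᶠ[𝓝 x] fun _ => 0 := fun n x hx => by
    have : s n x < 0 := by
      simp only [s]
      nlinarith [mul_nonneg (by positivity : (0 : ℝ) ≤ n + 1) (not_lt.1 hx)]
    filter_upwards [(hs n).continuous.continuousAt.eventually (gt_mem_nhds this)] with y hy
    change Real.smoothTransition (s n y) * F.1 y = 0
    rw [Real.smoothTransition.zero_of_nonpos (le_of_lt hy), zero_mul]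
  have θB : ∀ n, θ n ∈ Q.B := fun n x hx =>
    Real.smoothTransition.zero_of_nonpos (by simp only [s, hx]; norm_num)
  have θ0 : ∀ n x, 0 ≤ (θ n).1 x := fun n x => Real.smoothTransition.nonneg _
  have θ1 : ∀ n x, (θ n).1 x ≤ 1 := fun n x => Real.smoothTransition.le_one _
  have Λ0 : ∀ n x, 0 ≤ (Λ n).1 x := fun n x =>
    mul_nonneg (by positivity) Real.smoothTransition.monotone.deriv_nonneg
  have ΛB : ∀ n x, |(Λ n).1 x * Q.ρ.1 x| ≤ B := fun n x => by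
    have := hB (s n x)
    rw [← abs_neg]
    convert this using 2
    simp only [s, Λ]; ring
  have l0 := L1_nonneg (Q := Q) F
  have l1 := L1_nonneg (Q := Q) (d1 F)
  have l2 := L1_nonneg (Q := Q) (d2 F)
  have key : ∀ n, ∫ x, (θ n * F).1 x * (θ n * F).1 x
      ≤ C0 * (K * (A0 + A1 + A2 + B * R) + 1) ^ 2 * (Q.L1 F + Q.L1 (d1 F) + Q.L1 (d2 F)) ^ 2 := by
    intro n
    refine (hC0 _ ((θ n * F).cd 1) (HasCompactSupport.intro Q.dom.compact fun x hx =>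
      (off n x fun h' => hx (subset_closure h')).eq_of_nhds)).trans ?_
    rw [mul_assoc, ← mul_pow]
    refine mul_le_mul_of_nonneg_left (pow_le_pow_left₀ (integral_nonneg fun _ => by
      simp only [Pi.zero_apply]; positivity) ?_ 2) c0
    have e0 : ∫ x in {x | Q.ρ.1 x < 0}, (|pd (1, 0) (θ n * F).1 x| + |pd (0, 1) (θ n * F).1 x|)
        = ∫ x, (|pd (1, 0) (θ n * F).1 x| + |pd (0, 1) (θ n * F).1 x|) :=
      setIntegral_eq_integral_of_forall_compl_eq_zero fun x hx => by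
        rw [pd_congr_pt _ (off n x hx), pd_congr_pt _ (off n x hx), pd_const, pd_const]; simp
    rw [← e0]
    have e1 : Q.I (Λ n * (d1 Q.ρ * d1 Q.ρ + d2 Q.ρ * d2 Q.ρ) * F)
        = Q.I (θ n * ((d1 (d1 Q.ρ) + d2 (d2 Q.ρ)) * F + d1 Q.ρ * d1 F + d2 Q.ρ * d2 F)) := by
      have z1 := I_D (Q.B.mul_mem_right (d1 Q.ρ * F) (θB n)) (1, 0)
      have z2 := I_D (Q.B.mul_mem_right (d2 Q.ρ * F) (θB n)) (0, 1)
      have z3 : Λ n * (d1 Q.ρ * d1 Q.ρ + d2 Q.ρ * d2 Q.ρ) * F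
          = θ n * ((d1 (d1 Q.ρ) + d2 (d2 Q.ρ)) * F + d1 Q.ρ * d1 F + d2 Q.ρ * d2 F)
            - d1 (θ n * (d1 Q.ρ * F)) - d2 (θ n * (d2 Q.ρ * F)) := by
        simp only [D_mul, dθ]; ring
      rw [z3, map_sub, map_sub, z1, z2]; ring
    have e2 : Q.I (θ n * ((d1 (d1 Q.ρ) + d2 (d2 Q.ρ)) * F + d1 Q.ρ * d1 F + d2 Q.ρ * d2 F))
        ≤ A0 * Q.L1 F + A1 * Q.L1 (d1 F) + A2 * Q.L1 (d2 F) := by
      refine le_trans ?_ ((L1_add _ _).trans (add_le_add ((L1_add _ _).trans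
        (add_le_add (hA0 F) (hA1 _))) (hA2 _)))
      refine setIntegral_mono_on (Q.dom.int (SA.ct _)) (Q.dom.int (SA.ct _).abs) Q.dom.meas
        fun x _ => (le_abs_self _).trans ?_
      change |(θ n).1 x * _| ≤ _
      rw [abs_mul, abs_of_nonneg (θ0 n x)]
      exact mul_le_of_le_one_left (abs_nonneg _) (θ1 n x)
    have i1 := Q.dom.int (Λ n * (d1 Q.ρ * d1 Q.ρ + d2 Q.ρ * d2 Q.ρ) * F).ct
    have i2 := Q.dom.int F.ct.abs
    have i3 := Q.dom.int (d1 F).ct.abs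
    have i4 := Q.dom.int (d2 F).ct.abs
    have i5 : IntegrableOn (fun x => K * ((Λ n * (d1 Q.ρ * d1 Q.ρ + d2 Q.ρ * d2 Q.ρ) * F).1 x
          + B * R * |F.1 x|)) {x | Q.ρ.1 x < 0} := (i1.add (i2.const_mul (B * R))).const_mul K
    have i6 : IntegrableOn (fun x => |(d1 F).1 x| + |(d2 F).1 x|) {x | Q.ρ.1 x < 0} := i3.add i4
    have e3 : ∫ x in {x | Q.ρ.1 x < 0}, (|pd (1, 0) (θ n * F).1 x| + |pd (0, 1) (θ n * F).1 x|)
        ≤ ∫ x in {x | Q.ρ.1 x < 0}, (K * ((Λ n * (d1 Q.ρ * d1 Q.ρ + d2 Q.ρ * d2 Q.ρ) * F).1 x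
          + B * R * |F.1 x|) + (|(d1 F).1 x| + |(d2 F).1 x|)) := by
      refine setIntegral_mono_on (Q.dom.int ((d1 (θ n * F)).ct.abs.add (d2 (θ n * F)).ct.abs))
        (i5.add i6) Q.dom.meas fun x hx => ?_
      change |(d1 (θ n * F)).1 x| + |(d2 (θ n * F)).1 x| ≤ _
      rw [D_mul, D_mul, dθ, dθ]
      change |-((Λ n).1 x * (d1 Q.ρ).1 x) * F.1 x + (θ n).1 x * (d1 F).1 x|
        + |-((Λ n).1 x * (d2 Q.ρ).1 x) * F.1 x + (θ n).1 x * (d2 F).1 x|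
        ≤ K * ((Λ n).1 x * ((d1 Q.ρ).1 x * (d1 Q.ρ).1 x + (d2 Q.ρ).1 x * (d2 Q.ρ).1 x) * F.1 x
          + B * R * |F.1 x|) + (|(d1 F).1 x| + |(d2 F).1 x|)
      have g := G_pos (Q := Q) x
      have k1 : |(d1 Q.ρ).1 x| + |(d2 Q.ρ).1 x|
          ≤ K * ((d1 Q.ρ).1 x ^ 2 + (d2 Q.ρ).1 x ^ 2 + Q.ρ.1 x ^ 2) := by
        rw [← div_le_iff₀ g, div_eq_mul_inv]
        exact (le_abs_self _).trans (hK x hx)
      have k2 : (Λ n).1 x * Q.ρ.1 x ^ 2 ≤ B * R := by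
        have := mul_le_mul (ΛB n x) (hR x hx) (abs_nonneg _) b0
        rw [← abs_mul] at this
        refine le_trans (le_of_eq (by ring)) ((le_abs_self _).trans this)
      have f0 := hF x
      have lam0 := Λ0 n x
      have t : ∀ a b : ℝ, |-((Λ n).1 x * a) * F.1 x + (θ n).1 x * b|
          ≤ (Λ n).1 x * F.1 x * |a| + |b| := fun a b => by
        refine (abs_add_le _ _).trans (add_le_add (le_of_eq ?_) ?_)
        · rw [abs_mul, abs_neg, abs_mul, abs_of_nonneg lam0, abs_of_nonneg f0]; ring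
        · rw [abs_mul, abs_of_nonneg (θ0 n x)]
          exact mul_le_of_le_one_left (abs_nonneg _) (θ1 n x)
      rw [abs_of_nonneg f0]
      nlinarith [t ((d1 Q.ρ).1 x) ((d1 F).1 x), t ((d2 Q.ρ).1 x) ((d2 F).1 x),
        mul_le_mul_of_nonneg_left k1 (mul_nonneg lam0 f0),
        mul_le_mul_of_nonneg_left k2 (mul_nonneg k0 f0)]
    rw [integral_add i5 i6, integral_const_mul, integral_add i1 (i2.const_mul _),
      integral_const_mul, integral_add i3 i4] at e3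
    change _ ≤ K * (Q.I _ + B * R * Q.L1 F) + (Q.L1 (d1 F) + Q.L1 (d2 F)) at e3
    rw [e1] at e3
    refine e3.trans ?_
    have br : 0 ≤ B * R := by positivity
    nlinarith [mul_le_mul_of_nonneg_left e2 k0, mul_nonneg k0 (mul_nonneg a0 l1),
      mul_nonneg k0 (mul_nonneg a0 l2), mul_nonneg k0 (mul_nonneg a1 l0),
      mul_nonneg k0 (mul_nonneg a1 l2), mul_nonneg k0 (mul_nonneg a2 l0),
      mul_nonneg k0 (mul_nonneg a2 l1), mul_nonneg k0 (mul_nonneg br l1),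
      mul_nonneg k0 (mul_nonneg br l2)]
  obtain ⟨M, m0, hM⟩ := Q.dom.bound F.ct
  have lim := Q.dom.lim (G := fun n x => (θ n * F).1 x * (θ n * F).1 x)
    (F := fun x => F.1 x * F.1 x) (C := M * M) (fun n => (θ n * F).ct.mul (θ n * F).ct)
    (fun n x hx => by rw [(off n x hx).eq_of_nhds, zero_mul]) (fun x hx => by
      obtain ⟨m, hm⟩ := exists_nat_gt (2 / (-Q.ρ.1 x))
      rw [div_lt_iff₀ (by linarith)] at hm
      filter_upwards [eventually_ge_atTop m] with n hn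
      have hn' : (m : ℝ) ≤ n := by exact_mod_cast hn
      have : 1 ≤ s n x := by simp only [s]; nlinarith
      change Real.smoothTransition (s n x) * F.1 x * (Real.smoothTransition (s n x) * F.1 x) = _
      rw [Real.smoothTransition.one_of_one_le this, one_mul])
    (fun n x hx => by
      have : |(θ n * F).1 x| ≤ M := by
        change |(θ n).1 x * F.1 x| ≤ M
        rw [abs_mul, abs_of_nonneg (θ0 n x)]
        exact (mul_le_of_le_one_left (abs_nonneg _) (θ1 n x)).trans (hM x hx)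
      rw [abs_mul]
      exact mul_le_mul this this (abs_nonneg _) m0)
  exact le_of_tendsto' lim key

theorem L1_two (f : SA PP) : Q.L1 (2 * f) ≤ 2 * Q.L1 f := by
  rw [two_mul, two_mul]; exact L1_add f f

/-- Ladyzhenskaya inequality in the domain. -/
theorem lady : ∃ C, 0 ≤ C ∧ ∀ f : SA PP, Q.S 0 (f * f) ≤ C * (Q.S 0 f * Q.S 1 f) := by
  obtain ⟨C, c0, hC⟩ := W11 (Q := Q)
  refine ⟨12 * C, by positivity, fun f => ?_⟩
  have h := hC (f * f) fun x => mul_self_nonneg (f.1 x)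
  have e : ∀ e, D e (f * f) = 2 * (f * D e f) := fun e => by rw [D_mul]; ring
  rw [e, e] at h
  have a0 := L1_mul (Q := Q) f f
  have a1 := L1_mul (Q := Q) f (d1 f)
  have a2 := L1_mul (Q := Q) f (d2 f)
  have b1 := L1_two (Q := Q) (f * d1 f)
  have b2 := L1_two (Q := Q) (f * d2 f)
  have n0 := L1_nonneg (Q := Q) (f * f)
  have n1 := L1_nonneg (Q := Q) (2 * (f * d1 f))
  have n2 := L1_nonneg (Q := Q) (2 * (f * d2 f))
  have h2 : (Q.L1 (f * f) + Q.L1 (2 * (f * d1 f)) + Q.L1 (2 * (f * d2 f))) ^ 2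
      ≤ (Q.L1 (f * f) + 2 * Q.L1 (f * d1 f) + 2 * Q.L1 (f * d2 f)) ^ 2 :=
    pow_le_pow_left₀ (by positivity) (by linarith) 2
  simp only [S]
  have p := mul_nonneg (I_sq_nonneg (Q := Q) f) (I_sq_nonneg (Q := Q) f)
  have h3 : (Q.L1 (f * f) + 2 * Q.L1 (f * d1 f) + 2 * Q.L1 (f * d2 f)) ^ 2
      ≤ 12 * (Q.I (f * f) * (Q.I (f * f) + Q.I (d1 f * d1 f) + Q.I (d2 f * d2 f))) := by
    nlinarith [sq_nonneg (Q.L1 (f * f) - 2 * Q.L1 (f * d1 f)),
      sq_nonneg (Q.L1 (f * f) - 2 * Q.L1 (f * d2 f)),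
      sq_nonneg (Q.L1 (f * d1 f) - Q.L1 (f * d2 f)), sq_nonneg (Q.L1 (f * f))]
  nlinarith [mul_le_mul_of_nonneg_left (h2.trans h3) c0]

theorem lady2 : ∃ C, 0 ≤ C ∧ ∀ f g : SA PP,
    Q.S 0 (f * g) ^ 2 ≤ C * ((Q.S 0 f * Q.S 1 f) * (Q.S 0 g * Q.S 1 g)) := by
  obtain ⟨C, c0, hC⟩ := lady (Q := Q)
  refine ⟨C ^ 2, by positivity, fun f g => ?_⟩
  have h := I_mul_sq (Q := Q) (f * f) (g * g)
  have e : Q.S 0 (f * g) = Q.I (f * f * (g * g)) := by
    simp only [S]; congr 1; ring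
  have h2 := mul_le_mul (hC f) (hC g) (S_nonneg _ _) ((S_nonneg _ _).trans (hC f))
  rw [e]
  simp only [S] at h2 ⊢
  nlinarith

theorem lady3 : ∃ C, 0 ≤ C ∧ ∀ f g : SA PP, Q.S 0 (f * g) ≤ C * (Q.S 1 f * Q.S 1 g) := by
  obtain ⟨C, c0, hC⟩ := lady2 (Q := Q)
  refine ⟨Real.sqrt C, Real.sqrt_nonneg _, fun f g => ?_⟩
  have f1 := S_nonneg (Q := Q) 1 f
  have g1 := S_nonneg (Q := Q) 1 g
  refine le_of_sq_le_sq ((hC f g).trans ?_) (by positivity)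
  rw [mul_pow, Real.sq_sqrt c0]
  refine mul_le_mul_of_nonneg_left ?_ c0
  have := mul_le_mul (mul_le_mul_of_nonneg_right (S_succ (Q := Q) 0 f) f1)
    (mul_le_mul_of_nonneg_right (S_succ (Q := Q) 0 g) g1)
    (mul_nonneg (S_nonneg _ _) g1) (mul_nonneg f1 f1)
  nlinarith

end Dm

end Pool.Agent.MP_ed9623_an.H64
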