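import Pool.Agent.MP_ed9623_an.H64.Sob

open Filter Topology MeasureTheory Set
open scoped ContDiff

namespace Pool.Agent.MP_ed9623_an.H64

theorem one_d {φ φ' : ℝ → ℝ} (hd : ∀ s, HasDerivAt φ (φ' s) s) (hc : Continuous φ') {h : ℝ}
    (h0 : 0 ≤ h) : h * |φ 0| ≤ ∫ s in Ioc 0 h, (|φ s| + h * |φ' s|) := by
  have cφ : Continuous φ := continuous_iff_continuousAt.2 fun s => (hd s).continuousAt
  have i1 : IntegrableOn (fun s => |φ s|) (Ioc 0 h) := cφ.abs.integrableOn_Ioc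
  have i2 : IntegrableOn (fun s => |φ' s|) (Ioc 0 h) := hc.abs.integrableOn_Ioc
  have key : ∀ s ∈ Ioc 0 h, |φ 0| ≤ |φ s| + ∫ r in Ioc 0 h, |φ' r| := fun s hs => by
    have e := intervalIntegral.integral_eq_sub_of_hasDerivAt (a := 0) (b := s) (fun x _ => hd x)
      (hc.intervalIntegrable _ _)
    have b := intervalIntegral.abs_integral_le_integral_abs (μ := volume) (f := φ') hs.1.le
    rw [e, intervalIntegral.integral_of_le hs.1.le] at b
    have c := setIntegral_mono_set i2 (Eventually.of_forall fun _ => abs_nonneg _)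
      (Ioc_subset_Ioc_right hs.2).eventuallyLE
    linarith [abs_sub_abs_le_abs_sub (φ 0) (φ s), abs_sub_comm (φ 0) (φ s)]
  have := setIntegral_mono_on (integrableOn_const (by simp)) (i1.add (integrableOn_const (by simp)))
    measurableSet_Ioc key
  rw [integral_add i1 (i2.const_mul h), integral_const_mul]
  simp only [Pi.add_apply] at this
  rw [integral_add i1 (integrableOn_const (by simp))] at this
  simpa [h0] using this

theorem line_deriv (F : SA PP) (y e : PP) (s : ℝ) :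
    HasDerivAt (fun r : ℝ => F.1 (y + r • e)) ((D e F).1 (y + s • e)) s := by
  have a : HasDerivAt (fun r : ℝ => y + r • e) e s := by
    simpa using ((hasDerivAt_id s).smul_const e).const_add y
  exact (cdg_diff (F.cd 1) le_rfl _).hasFDerivAt.comp_hasDerivAt s a

theorem two_d (F : SA PP) (x e e' : PP) {h : ℝ} (h0 : 0 ≤ h) :
    h * (h * |F.1 x|) ≤ ∫ s in Ioc 0 h ×ˢ Ioc 0 h, ((|F.1 (x + s.1 • e + s.2 • e')|
      + h * |(D e' F).1 (x + s.1 • e + s.2 • e')|) + h * (|(D e F).1 (x + s.1 • e + s.2 • e')|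
      + h * |(D e' (D e F)).1 (x + s.1 • e + s.2 • e')|)) := by
  have c0 := F.ct
  have c1 := (D e F).ct
  have c2 := (D e' F).ct
  have c3 := (D e' (D e F)).ct
  have iG : IntegrableOn (fun s : ℝ × ℝ => (|F.1 (x + s.1 • e + s.2 • e')|
      + h * |(D e' F).1 (x + s.1 • e + s.2 • e')|) + h * (|(D e F).1 (x + s.1 • e + s.2 • e')|
      + h * |(D e' (D e F)).1 (x + s.1 • e + s.2 • e')|)) (Ioc 0 h ×ˢ Ioc 0 h)
      (volume.prod volume) :=
    ((Continuous.continuousOn (by fun_prop)).integrableOn_compact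
      (isCompact_Icc.prod isCompact_Icc)).mono_set
        (prod_mono Ioc_subset_Icc_self Ioc_subset_Icc_self)
  have a := one_d (line_deriv F x e) (by fun_prop) h0
  rw [zero_smul, add_zero] at a
  refine (mul_le_mul_of_nonneg_left a h0).trans ?_
  rw [← integral_const_mul, Measure.volume_eq_prod, setIntegral_prod _ iG]
  refine setIntegral_mono_on (Continuous.integrableOn_Ioc (by fun_prop)) ?_ measurableSet_Ioc
    fun s _ => ?_
  · rw [IntegrableOn, ← Measure.prod_restrict] at iG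
    exact iG.integral_prod_left
  · have b1 := one_d (line_deriv F (x + s • e) e') (by fun_prop) h0
    have b2 := one_d (line_deriv (D e F) (x + s • e) e') (by fun_prop) h0
    rw [zero_smul, add_zero] at b1 b2
    rw [integral_add (Continuous.integrableOn_Ioc (by fun_prop))
      (Continuous.integrableOn_Ioc (by fun_prop)), integral_const_mul]
    nlinarith [mul_le_mul_of_nonneg_left b2 h0]

namespace Dm
variable {Q : Dm}

theorem para {e e' : PP} (hd : e.1 * e'.2 - e.2 * e'.1 ≠ 0) : ∃ c, 0 < c ∧ ∀ (x : PP) (h : ℝ),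
    (∀ a ∈ Ioc 0 h, ∀ b ∈ Ioc 0 h, Q.ρ.1 (x + a • e + b • e') < 0) → ∀ G : PP → ℝ, Continuous G →
      (∀ y, 0 ≤ G y) → c * ∫ s in Ioc 0 h ×ˢ Ioc 0 h, G (x + s.1 • e + s.2 • e')
        ≤ ∫ y in {y | Q.ρ.1 y < 0}, G y := by
  haveI := haar2
  let L : PP →L[ℝ] PP := (ContinuousLinearMap.toSpanSingleton ℝ e).coprod
    (ContinuousLinearMap.toSpanSingleton ℝ e')
  have hL : ∀ s : PP, L s = s.1 • e + s.2 • e' := fun s => rfl
  have inj : ∀ s : PP, L s = 0 → s = 0 := fun s hs => by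
    have a1 := congrArg Prod.fst hs
    have a2 := congrArg Prod.snd hs
    simp only [hL, Prod.fst_add, Prod.smul_fst, Prod.snd_add, Prod.smul_snd, smul_eq_mul,
      Prod.fst_zero, Prod.snd_zero] at a1 a2
    ext
    · exact (mul_eq_zero.1 (by linear_combination e'.2 * a1 - e'.1 * a2)).resolve_right hd
    · exact (mul_eq_zero.1 (by linear_combination e.1 * a2 - e.2 * a1)).resolve_right hd
  have det0 : L.det ≠ 0 := fun h => LinearMap.det_eq_zero_iff_ker_ne_bot.1 h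
    (LinearMap.ker_eq_bot'.2 inj)
  refine ⟨|L.det|, abs_pos.2 det0, fun x h hin G cG G0 => ?_⟩
  have := integral_image_eq_integral_abs_det_fderiv_smul (volume : Measure PP)
    (s := Ioc 0 h ×ˢ Ioc 0 h) (f := fun s => x + L s) (f' := fun _ => L)
    (measurableSet_Ioc.prod measurableSet_Ioc)
    (fun s _ => (L.hasFDerivAt.const_add x).hasFDerivWithinAt)
    (fun a _ b _ hab => sub_eq_zero.1 (inj _ (by rw [map_sub, add_left_cancel hab, sub_self]))) G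
  simp only [hL, smul_eq_mul, ← add_assoc] at this
  rw [← integral_const_mul, ← this]
  refine setIntegral_mono_set (Q.dom.int cG) (Eventually.of_forall G0)
    (HasSubset.Subset.eventuallyLE ?_)
  rintro _ ⟨s, hs, rfl⟩
  exact hin _ hs.1 _ hs.2

theorem geom {x₀ : PP} (hx : Q.ρ.1 x₀ ≤ 0) : ∃ (e e' : PP) (h : ℝ), 0 < h ∧
    e.1 * e'.2 - e.2 * e'.1 ≠ 0 ∧ Q.ρ.1 (x₀ + (h / 2) • e + (h / 2) • e') < 0 ∧
    ∀ᶠ x in 𝓝 x₀, Q.ρ.1 x < 0 → ∀ a ∈ Icc 0 h, ∀ b ∈ Icc 0 h, Q.ρ.1 (x + a • e + b • e') < 0 := by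
  have key : ∀ (e e' : PP) (U : Set PP), U ∈ 𝓝 x₀ → ∃ h : ℝ, 0 < h ∧
      ∀ᶠ x in 𝓝 x₀, ∀ a ∈ Icc 0 h, ∀ b ∈ Icc 0 h, x + a • e + b • e' ∈ U := fun e e' U hU => by
    have c : Continuous fun q : PP × ℝ × ℝ => q.1 + q.2.1 • e + q.2.2 • e' := by fun_prop
    have t : Tendsto (fun q : PP × ℝ × ℝ => q.1 + q.2.1 • e + q.2.2 • e') (𝓝 (x₀, 0, 0)) (𝓝 x₀) := by
      simpa using c.tendsto (x₀, 0, 0)
    obtain ⟨ε, hε, hb⟩ := Metric.eventually_nhds_iff.1 (t.eventually hU)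
    refine ⟨ε / 2, by positivity, ?_⟩
    filter_upwards [Metric.ball_mem_nhds x₀ hε] with x hx a ha b hb'
    refine @hb (x, a, b) ?_
    simp only [Prod.dist_eq, max_lt_iff, dist_zero_right, Real.norm_eq_abs, abs_of_nonneg ha.1,
      abs_of_nonneg hb'.1]
    exact ⟨max_lt_iff.1 hx, by linarith [ha.2], by linarith [hb'.2]⟩
  rcases hx.lt_or_eq with hx | hx
  · obtain ⟨h, h0, hh⟩ := key (1, 0) (0, 1) _ (Q.dom.isOpen.mem_nhds hx)
    have m : h / 2 ∈ Icc 0 h := ⟨by positivity, by linarith⟩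
    exact ⟨(1, 0), (0, 1), h, h0, by simp, hh.self_of_nhds _ m _ m, hh.mono fun x a _ => a⟩
  · have g := G_pos (Q := Q) x₀
    rw [hx] at g
    set r1 := (d1 Q.ρ).1 x₀
    set r2 := (d2 Q.ρ).1 x₀
    have n1 : (D (-r1 - r2, -r2 + r1) Q.ρ).1 x₀ < 0 := by
      rw [D_val, pd_dir2]
      change (-r1 - r2) * r1 + (-r2 + r1) * r2 < 0
      nlinarith
    have n2 : (D (-r1 + r2, -r2 - r1) Q.ρ).1 x₀ < 0 := by
      rw [D_val, pd_dir2]
      change (-r1 + r2) * r1 + (-r2 - r1) * r2 < 0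
      nlinarith
    obtain ⟨h, h0, hh⟩ := key (-r1 - r2, -r2 + r1) (-r1 + r2, -r2 - r1) _
      (inter_mem ((SA.ct _).continuousAt.eventually (gt_mem_nhds n1))
        ((SA.ct _).continuousAt.eventually (gt_mem_nhds n2)))
    refine ⟨(-r1 - r2, -r2 + r1), (-r1 + r2, -r2 - r1), h, h0, by simp only; nlinarith, ?_⟩
    generalize ((-r1 - r2, -r2 + r1) : PP) = e at *
    generalize ((-r1 + r2, -r2 - r1) : PP) = e' at *
    have dec : ∀ y v, (∀ a ∈ Icc 0 h, (D v Q.ρ).1 (y + a • v) < 0) →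
        StrictAntiOn (fun a : ℝ => Q.ρ.1 (y + a • v)) (Icc 0 h) := fun y v hv =>
      strictAntiOn_of_deriv_neg (convex_Icc _ _)
        (fun a _ => (line_deriv _ y v a).continuousAt.continuousWithinAt) fun a ha => by
          rw [(line_deriv _ y v a).deriv]; exact hv a (interior_subset ha)
    have z : (0 : ℝ) ∈ Icc 0 h := ⟨le_rfl, h0.le⟩
    have st : ∀ x, (∀ a ∈ Icc 0 h, ∀ b ∈ Icc 0 h, x + a • e + b • e' ∈
        {y | (D e Q.ρ).1 y < 0} ∩ {y | (D e' Q.ρ).1 y < 0}) → ∀ a ∈ Icc 0 h, ∀ b ∈ Icc 0 h,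
        Q.ρ.1 (x + a • e + b • e') ≤ Q.ρ.1 (x + a • e) ∧ Q.ρ.1 (x + a • e) ≤ Q.ρ.1 x ∧
          (0 < a → Q.ρ.1 (x + a • e) < Q.ρ.1 x) := fun x hx a ha b hb => by
      have k1 := dec x e fun a ha => by simpa using (hx a ha 0 z).1
      have k2 := dec (x + a • e) e' fun b hb => (hx a ha b hb).2
      exact ⟨by simpa using k2.antitoneOn z hb hb.1, by simpa using k1.antitoneOn z ha ha.1,
        fun a0 => by simpa using k1 z ha a0⟩
    have m : h / 2 ∈ Icc 0 h := ⟨by positivity, by linarith⟩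
    refine ⟨?_, hh.mono fun x hx hn a ha b hb => ?_⟩
    · obtain ⟨k1, -, k3⟩ := st _ hh.self_of_nhds _ m _ m
      linarith [k3 (by positivity)]
    · obtain ⟨k1, k2, -⟩ := st _ hx a ha b hb
      linarith

theorem cover {P : ℝ → PP → Prop} (hm : ∀ C C' x, C ≤ C' → P C x → P C' x)
    (h : ∀ x₀, Q.ρ.1 x₀ ≤ 0 → ∃ C, ∀ᶠ x in 𝓝 x₀, Q.ρ.1 x < 0 → P C x) :
    ∃ C, 0 ≤ C ∧ ∀ x, Q.ρ.1 x < 0 → P C x := by
  have key : ∃ C, 0 ≤ C ∧ ∀ x ∈ closure {x | Q.ρ.1 x < 0}, Q.ρ.1 x < 0 → P C x := by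
    refine Q.dom.compact.induction_on (p := fun s => ∃ C, 0 ≤ C ∧ ∀ x ∈ s, Q.ρ.1 x < 0 → P C x)
      ⟨0, le_rfl, by simp⟩ ?_ ?_ ?_
    · rintro s t hst ⟨C, a, b⟩
      exact ⟨C, a, fun x hx => b x (hst hx)⟩
    · rintro s t ⟨C, a, b⟩ ⟨D, a', b'⟩
      refine ⟨max C D, le_max_of_le_left a, fun x hx hn => ?_⟩
      rcases hx with hx | hx
      · exact hm _ _ _ (le_max_left _ _) (b x hx hn)
      · exact hm _ _ _ (le_max_right _ _) (b' x hx hn)
    · intro x hx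
      obtain ⟨C, hC⟩ := h x (closure_lt_subset_le Q.ρ.ct continuous_const hx)
      exact ⟨_, mem_nhdsWithin_of_mem_nhds hC, max C 0, le_max_right _ _,
        fun y hy hn => hm _ _ _ (le_max_left _ _) (hy hn)⟩
  obtain ⟨C, a, b⟩ := key
  exact ⟨C, a, fun x hx => b x (subset_closure hx) hx⟩

theorem abs_D_le (e : PP) (F : SA PP) (y : PP) :
    |(D e F).1 y| ≤ ‖e‖ * (|(d1 F).1 y| + |(d2 F).1 y|) := by
  have := (fderiv ℝ F.1 y).le_of_opNorm_le (norm_fderiv_le2 F.1 y) e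
  rw [mul_comm]; exact this

variable (Q) in
noncomputable def W2 (F : SA PP) : ℝ := Q.L1 F + Q.L1 (d1 F) + Q.L1 (d2 F) + Q.L1 (d1 (d1 F))
  + Q.L1 (d1 (d2 F)) + Q.L1 (d2 (d2 F))

theorem W21 : ∃ C, 0 ≤ C ∧ ∀ x, Q.ρ.1 x < 0 → ∀ F : SA PP, |F.1 x| ≤ C * Q.W2 F := by
  have W0 : ∀ F, 0 ≤ Q.W2 F := fun F => by
    unfold W2
    have := @L1_nonneg Q
    exact add_nonneg (add_nonneg (add_nonneg (add_nonneg (add_nonneg (this _) (this _)) (this _))
      (this _)) (this _)) (this _)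
  refine cover (fun C C' x h H F => (H F).trans (mul_le_mul_of_nonneg_right h (W0 F)))
    fun x₀ hx₀ => ?_
  obtain ⟨e, e', h, h0, hd, -, hh⟩ := geom hx₀
  obtain ⟨c, c0, hc⟩ := para (Q := Q) hd
  set K := 1 + h * ‖e‖ + h * ‖e'‖ + 2 * (h * ‖e‖ * (h * ‖e'‖)) with hK
  refine ⟨K / (c * h * h), hh.mono fun x hx hn F => ?_⟩
  have c0 := F.ct
  have c1 := (d1 F).ct
  have c2 := (d2 F).ct
  have c3 := (d1 (d1 F)).ct
  have c4 := (d1 (d2 F)).ct
  have c5 := (d2 (d2 F)).ct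
  have c6 := (D e F).ct
  have c7 := (D e' F).ct
  have c8 := (D e' (D e F)).ct
  have a := (mul_le_mul_of_nonneg_left (two_d F x e e' h0.le) (by positivity : 0 ≤ c)).trans
    (hc x h (fun a ha b hb => hx hn a (Ioc_subset_Icc_self ha) b (Ioc_subset_Icc_self hb))
      (fun y => (|F.1 y| + h * |(D e' F).1 y|) + h * (|(D e F).1 y| + h * |(D e' (D e F)).1 y|))
      (by fun_prop) fun y => by positivity)
  have b : Q.W2 F = ∫ y in {y | Q.ρ.1 y < 0}, (|F.1 y| + |(d1 F).1 y| + |(d2 F).1 y|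
      + |(d1 (d1 F)).1 y| + |(d1 (d2 F)).1 y| + |(d2 (d2 F)).1 y|) := by
    unfold W2 L1
    repeat rw [integral_add (Q.dom.int (by fun_prop)) (Q.dom.int (by fun_prop))]
  rw [div_mul_eq_mul_div, le_div_iff₀ (by positivity), b, ← integral_const_mul]
  refine le_trans (le_of_eq (by ring)) (a.trans (integral_mono (Q.dom.int (by fun_prop))
    (Q.dom.int (by fun_prop)) fun y => ?_))
  have k1 := abs_D_le e F y
  have k2 := abs_D_le e' F y
  have k3 := abs_D_le e' (D e F) y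
  have k4 := abs_D_le e (d1 F) y
  have k5 := abs_D_le e (d2 F) y
  rw [D_comm (1, 0) e, D_comm (0, 1) e] at k3
  rw [d21] at k4
  have p1 : 0 ≤ h * ‖e‖ := by positivity
  have p2 : 0 ≤ h * ‖e'‖ := by positivity
  have k6 := mul_le_mul_of_nonneg_left (add_le_add k4 k5) (norm_nonneg e')
  have k7 := mul_le_mul_of_nonneg_left (k3.trans k6) (mul_pos h0 h0).le
  have k8 := mul_le_mul_of_nonneg_left k1 h0.le
  have k9 := mul_le_mul_of_nonneg_left k2 h0.le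
  have p3 := mul_nonneg p1 p2
  simp only [hK]
  have q0 := abs_nonneg (F.1 y)
  have q1 := abs_nonneg ((d1 F).1 y)
  have q2 := abs_nonneg ((d2 F).1 y)
  have q3 := abs_nonneg ((d1 (d1 F)).1 y)
  have q4 := abs_nonneg ((d1 (d2 F)).1 y)
  have q5 := abs_nonneg ((d2 (d2 F)).1 y)
  nlinarith [mul_nonneg p1 (add_nonneg (add_nonneg q0 q3) (add_nonneg q4 q5)),
    mul_nonneg p2 (add_nonneg (add_nonneg q0 q3) (add_nonneg q4 q5)),
    mul_nonneg p3 (add_nonneg (add_nonneg q0 q1) q2), mul_nonneg p3 (add_nonneg q3 q5)]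

theorem L1_le_sqrt (f g : SA PP) : Q.L1 (f * g) ≤ √(Q.S 0 f * Q.S 0 g) :=
  Real.le_sqrt_of_sq_le (L1_mul f g)

theorem path (hc : IsPreconnected {x | Q.ρ.1 x < 0}) : ∃ C, 0 ≤ C ∧ ∀ x y, Q.ρ.1 x < 0 →
    Q.ρ.1 y < 0 → ∀ (f : SA PP) (m : ℝ), (∀ z, Q.ρ.1 z < 0 → |(d1 f).1 z| + |(d2 f).1 z| ≤ m) →
      |f.1 x - f.1 y| ≤ C * m := by
  let P : ℝ → PP → PP → Prop := fun C x y => ∀ (f : SA PP) (m : ℝ),
    (∀ z, Q.ρ.1 z < 0 → |(d1 f).1 z| + |(d2 f).1 z| ≤ m) → |f.1 x - f.1 y| ≤ C * m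
  have tr : ∀ C C' x y z, P C x y → P C' y z → P (C + C') x z := fun C C' x y z a b f m hm => by
    linarith [a f m hm, b f m hm, abs_sub_le (f.1 x) (f.1 y) (f.1 z)]
  have sy : ∀ C x y, P C x y → P C y x := fun C x y a f m hm => by
    rw [abs_sub_comm]; exact a f m hm
  have loc : ∀ x₀, Q.ρ.1 x₀ ≤ 0 → ∃ C z, Q.ρ.1 z < 0 ∧ ∀ᶠ x in 𝓝 x₀, Q.ρ.1 x < 0 → P C x z := by
    intro x₀ hx₀
    obtain ⟨e, e', h, h0, hd, hz, hh⟩ := geom hx₀
    set δ := e.1 * e'.2 - e.2 * e'.1 with hδ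
    have c1 : Continuous fun x : PP => h / 2 + ((x₀ - x).1 * e'.2 - (x₀ - x).2 * e'.1) / δ := by
      fun_prop
    have c2 : Continuous fun x : PP => h / 2 + (e.1 * (x₀ - x).2 - e.2 * (x₀ - x).1) / δ := by
      fun_prop
    have m : ∀ᶠ y in 𝓝 (h / 2), y ∈ Ioo 0 h := Ioo_mem_nhds (by positivity) (by linarith)
    refine ⟨h * ‖e‖ + h * ‖e'‖, _, hz, ?_⟩
    filter_upwards [hh, c1.continuousAt.eventually (p := (· ∈ Ioo 0 h)) (by
      simpa only [sub_self, Prod.fst_zero, Prod.snd_zero, zero_mul, zero_div, add_zero] using m),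
      c2.continuousAt.eventually (p := (· ∈ Ioo 0 h)) (by
      simpa only [sub_self, Prod.fst_zero, Prod.snd_zero, mul_zero, zero_div, add_zero] using m)]
      with x hx ha hb hn f m hm
    generalize hA : h / 2 + ((x₀ - x).1 * e'.2 - (x₀ - x).2 * e'.1) / δ = a at ha
    generalize hB : h / 2 + (e.1 * (x₀ - x).2 - e.2 * (x₀ - x).1) / δ = b at hb
    have e0 : x₀ + (h / 2) • e + (h / 2) • e' = x + a • e + b • e' := by
      rw [← hA, ← hB]
      ext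
      · simp only [Prod.fst_add, Prod.smul_fst, smul_eq_mul, Prod.fst_sub, Prod.snd_sub]
        field_simp; rw [hδ]; ring
      · simp only [Prod.snd_add, Prod.smul_snd, smul_eq_mul, Prod.fst_sub, Prod.snd_sub]
        field_simp; rw [hδ]; ring
    have m0 : 0 ≤ m := le_trans (by positivity) (hm x hn)
    have seg : ∀ (y v : PP) (c : ℝ), c ∈ Ioo 0 h → (∀ s ∈ Icc 0 h, Q.ρ.1 (y + s • v) < 0) →
        |f.1 y - f.1 (y + c • v)| ≤ h * ‖v‖ * m := fun y v c hc hy => by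
      have := norm_image_sub_le_of_norm_deriv_le_segment' (f := fun r : ℝ => f.1 (y + r • v))
        (a := 0) (b := h) (C := ‖v‖ * m)
        (fun s _ => (line_deriv f y v s).hasDerivWithinAt) (fun s hs => (abs_D_le v f _).trans
          (mul_le_mul_of_nonneg_left (hm _ (hy s (Ico_subset_Icc_self hs))) (norm_nonneg _))) c
          (Ioo_subset_Icc_self hc)
      rw [zero_smul, add_zero, sub_zero, Real.norm_eq_abs, abs_sub_comm] at this
      nlinarith [mul_nonneg (norm_nonneg v) m0, hc.2]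
    have k1 := seg x e a ha fun s hs => by simpa using hx hn s hs 0 ⟨le_rfl, h0.le⟩
    have k2 := seg (x + a • e) e' b hb fun s hs => hx hn a (Ioo_subset_Icc_self ha) s hs
    rw [e0]
    linarith [abs_sub_le (f.1 x) (f.1 (x + a • e)) (f.1 (x + a • e + b • e'))]
  have all : ∀ x y, Q.ρ.1 x < 0 → Q.ρ.1 y < 0 → ∃ C, P C x y := fun x y hx hy =>
    hc.induction₂' (fun x y => ∃ C, P C x y) (fun x hx => by
      obtain ⟨C, z, -, hz⟩ := loc x (le_of_lt hx)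
      filter_upwards [mem_nhdsWithin_of_mem_nhds hz, self_mem_nhdsWithin] with y a b
      have := tr _ _ _ _ _ (hz.self_of_nhds hx) (sy _ _ _ (a b))
      exact ⟨⟨_, this⟩, ⟨_, sy _ _ _ this⟩⟩)
      (fun _ _ _ _ _ _ ⟨_, a⟩ ⟨_, b⟩ => ⟨_, tr _ _ _ _ _ a b⟩) hx hy
  rcases eq_empty_or_nonempty {x | Q.ρ.1 x < 0} with he | ⟨z, hz⟩
  · exact ⟨0, le_rfl, fun x y hx => absurd (he ▸ hx : x ∈ (∅ : Set PP)) (notMem_empty x)⟩
  obtain ⟨C, c0, hC⟩ := cover (Q := Q) (P := fun C x => P C x z)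
    (fun C C' x h H f m hm => (H f m hm).trans
      (mul_le_mul_of_nonneg_right h (le_trans (by positivity) (hm z hz)))) fun x₀ hx₀ => by
    obtain ⟨C, w, hw, H⟩ := loc x₀ hx₀
    obtain ⟨C', H'⟩ := all w z hw hz
    exact ⟨_, H.mono fun x a b => tr _ _ _ _ _ (a b) H'⟩
  exact ⟨C + C, by positivity, fun x y hx hy => tr _ _ _ _ _ (hC x hx) (sy _ _ _ (hC y hy))⟩

theorem bigL1 {ι : Type*} {l : Filter ι} {F G : ι → SA PP} {X : ι → ℝ}
    (h : Big l (fun i => Q.S 0 (F i) * Q.S 0 (G i)) X) :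
    Big l (fun i => Q.L1 (F i * G i)) fun i => √(X i) :=
  Big.sqrt (h.le_left (Eventually.of_forall fun _ => L1_mul _ _))

theorem bigL1_fix {ι : Type*} {l : Filter ι} {F : ι → SA PP} {X : ι → ℝ} (a : SA PP)
    (h : Big l (fun i => Q.L1 (F i)) X) : Big l (fun i => Q.L1 (a * F i)) X := by
  obtain ⟨C, c, H⟩ := L1_fix (Q := Q) a
  exact (Big.cmul c h).le_left (Eventually.of_forall fun _ => H _)

theorem sup6 : ∃ C, 0 ≤ C ∧ ∀ (f : SA PP) x, Q.ρ.1 x < 0 →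
    (f.1 x ^ 2) ^ 3 ≤ C * (Q.S 1 f ^ 2 * Q.S 2 f) := by
  have n := @S_nonneg Q
  have s01 : ∀ f, Q.S 0 f ≤ Q.S 1 f := S_succ 0
  have s02 : ∀ f, Q.S 0 f ≤ Q.S 2 f := S_mono (by norm_num)
  have a1 : Big ⊤ (fun f => Q.S 0 (f * f)) fun f => Q.S 1 f ^ 2 := by
    obtain ⟨C, c, H⟩ := lady3 (Q := Q)
    exact ⟨C, c, Eventually.of_forall fun f => by simp only [sq]; exact H f f⟩
  have a2 : ∀ G : SA PP → SA PP, (∀ f, Q.S 0 (G f) ≤ Q.S 2 f) →
      Big ⊤ (fun f => Q.L1 (f * f * G f)) fun f => √(Q.S 1 f ^ 2 * Q.S 2 f) := fun G hG =>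
    bigL1 (a1.mul (Big.of_le' hG) (fun _ => n _ _) fun _ => n _ _)
  have a3 : ∀ G H : SA PP → SA PP, (∀ k f, Q.S k (G f) ≤ Q.S (k + 1) f) →
      (∀ k f, Q.S k (H f) ≤ Q.S (k + 1) f) →
      Big ⊤ (fun f => Q.L1 (f * (G f * H f))) fun f => √(Q.S 1 f ^ 2 * Q.S 2 f) := fun G H hG hH => by
    obtain ⟨C, c, K⟩ := lady2 (Q := Q)
    have b : Big ⊤ (fun f => Q.S 0 (G f * H f) ^ 2) fun f => (Q.S 1 f * Q.S 2 f) ^ 2 :=
      ⟨C, c, Eventually.of_forall fun f => (K _ _).trans (mul_le_mul_of_nonneg_left (by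
        simp only [sq]
        exact mul_le_mul (mul_le_mul (hG 0 f) (hG 1 f) (n _ _) (n _ _))
          (mul_le_mul (hH 0 f) (hH 1 f) (n _ _) (n _ _)) (mul_nonneg (n _ _) (n _ _))
          (mul_nonneg (n _ _) (n _ _))) c)⟩
    refine bigL1 (((Big.of_le' s01).mul b.sqrt (fun _ => n _ _) fun _ => n _ _).le_right
      (Eventually.of_forall fun f => le_of_eq ?_))
    rw [Real.sqrt_sq (mul_nonneg (n _ _) (n _ _))]; ring
  have a4 : ∀ e : PP, (∀ k f, Q.S k (D e f) ≤ Q.S (k + 1) f) →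
      Big ⊤ (fun f => Q.L1 (D e (f * f * f))) fun f => √(Q.S 1 f ^ 2 * Q.S 2 f) := fun e he => by
    have := bigL1_fix 3 (a2 (D e) fun f => (he 0 f).trans (S_succ 1 f))
    convert this using 3
    simp only [D_mul]; ring
  have a5 : ∀ e e' : PP, (∀ k f, Q.S k (D e f) ≤ Q.S (k + 1) f) →
      (∀ k f, Q.S k (D e' f) ≤ Q.S (k + 1) f) → Big ⊤ (fun f => Q.L1 (D e (D e' (f * f * f))))
        fun f => √(Q.S 1 f ^ 2 * Q.S 2 f) := fun e e' he he' => by
    refine ((bigL1_fix 3 (a2 (fun f => D e (D e' f)) fun f => (he 0 _).trans (he' 1 f))).add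
      (bigL1_fix 6 (a3 _ _ he he'))).le_left (Eventually.of_forall fun f => ?_)
    refine le_trans (le_of_eq ?_) (L1_add _ _)
    congr 1
    simp only [D_mul, map_add]; ring
  obtain ⟨C, c, H⟩ := (((((a2 id s02).add (a4 _ S_d1)).add (a4 _ S_d2)).add (a5 _ _ S_d1 S_d1)).add
    (a5 _ _ S_d1 S_d2)).add (a5 _ _ S_d2 S_d2)
  obtain ⟨C', c', H'⟩ := W21 (Q := Q)
  refine ⟨(C' * C) ^ 2, by positivity, fun f x hx => ?_⟩
  have k := (H' x hx (f * f * f)).trans (mul_le_mul_of_nonneg_left (eventually_top.1 H f) c')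
  have k2 := pow_le_pow_left₀ (abs_nonneg _) k 2
  rw [sq_abs, ← mul_assoc, mul_pow, Real.sq_sqrt (mul_nonneg (sq_nonneg _) (n _ _))] at k2
  refine le_trans (le_of_eq ?_) k2
  change _ = (f.1 x * f.1 x * f.1 x) ^ 2
  ring

theorem sup2 : ∃ C, 0 ≤ C ∧ ∀ (f : SA PP) x, Q.ρ.1 x < 0 → f.1 x ^ 2 ≤ C * Q.S 2 f := by
  obtain ⟨C, c, H⟩ := sup6 (Q := Q)
  refine ⟨C + 1, by positivity, fun f x hx => ?_⟩
  have n1 := S_nonneg (Q := Q) 1 f
  have n2 := S_nonneg (Q := Q) 2 f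
  refine le_of_pow_le_pow_left₀ (n := 3) (by norm_num) (by positivity) ((H f x hx).trans ?_)
  have a := mul_le_mul_of_nonneg_right (pow_le_pow_left₀ n1 (S_succ 1 f) 2) n2
  rw [mul_pow]
  exact mul_le_mul (by nlinarith [sq_nonneg C, pow_nonneg c 3]) (by linarith) (by positivity)
    (by positivity)

theorem S_mul (k : ℕ) : ∃ C, 0 ≤ C ∧ ∀ f g : SA PP,
    Q.S k (f * g) ≤ C * (Q.S (max k 2) f * Q.S k g) := by
  have n := @S_nonneg Q
  obtain ⟨C0, c0, H0⟩ := sup2 (Q := Q)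
  have P0 : ∀ f g : SA PP, Q.S 0 (f * g) ≤ C0 * (Q.S 2 f * Q.S 0 g) := fun f g => by
    rw [← mul_assoc]; exact S0_mul_le (H0 f) g
  induction k with
  | zero => exact ⟨C0, c0, P0⟩
  | succ k ih =>
    obtain ⟨C, c, H⟩ := ih
    obtain ⟨C1, c1, H1⟩ : ∃ C, 0 ≤ C ∧ ∀ f g : SA PP,
        Q.S k (f * g) ≤ C * (Q.S (max (k + 1) 2 - 1) f * Q.S (k + 1) g) := by
      rcases k with _ | k
      · exact lady3
      · refine ⟨C, c, fun f g => ?_⟩
        rw [mul_comm f, mul_comm (Q.S _ f)]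
        exact (H g f).trans (mul_le_mul_of_nonneg_left (mul_le_mul (S_mono (by omega) _)
          (S_mono (by omega) _) (n _ _) (n _ _)) c)
    refine ⟨C0 + 4 * C1 + 4 * C, by positivity, fun f g => ?_⟩
    have e : Q.S (k + 1) (f * g) = Q.S 0 (f * g) + Q.S k (d1 f * g + f * d1 g)
      + Q.S k (d2 f * g + f * d2 g) := by simp only [S, D_mul]
    have e2 : max (k + 1) 2 = max (k + 1) 2 - 1 + 1 := by omega
    have b0 := mul_le_mul_of_nonneg_left (mul_le_mul (S_mono (Q := Q) (le_max_right (k + 1) 2) f)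
      (S_mono (Q := Q) (Nat.zero_le (k + 1)) g) (n _ _) (n _ _)) c0
    have b1 := mul_le_mul_of_nonneg_left (mul_le_mul_of_nonneg_right
      ((S_d1 (Q := Q) (max (k + 1) 2 - 1) f).trans (S_mono e2.ge f)) (n (k + 1) g)) c1
    have b2 := mul_le_mul_of_nonneg_left (mul_le_mul_of_nonneg_right
      ((S_d2 (Q := Q) (max (k + 1) 2 - 1) f).trans (S_mono e2.ge f)) (n (k + 1) g)) c1
    have m : Q.S (max k 2) f ≤ Q.S (max (k + 1) 2) f := S_mono (by omega) f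
    have b3 := mul_le_mul_of_nonneg_left (mul_le_mul m (S_d1 (Q := Q) k g) (n _ _) (n _ _)) c
    have b4 := mul_le_mul_of_nonneg_left (mul_le_mul m (S_d2 (Q := Q) k g) (n _ _) (n _ _)) c
    rw [e]
    linarith [P0 f g, H1 (d1 f) g, H1 (d2 f) g, H f (d1 g), H f (d2 g),
      S_add (Q := Q) k (d1 f * g) (f * d1 g), S_add (Q := Q) k (d2 f * g) (f * d2 g)]

end Dm

end Pool.Agent.MP_ed9623_an.H64
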