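import Pool.Agent.MP_ed9623_an.H64.Sob2

open Filter Topology MeasureTheory Set
open scoped ContDiff

namespace Pool.Agent.MP_ed9623_an.H64

noncomputable def Tg (χ f : SA PP) : SA PP := -d2 χ * d1 f + d1 χ * d2 f
noncomputable def lp2 (f : SA PP) : SA PP := d1 (d1 f) + d2 (d2 f)
noncomputable def lie1 (χ a b : SA PP) : SA PP := Tg χ a + d1 (d2 χ) * a + d2 (d2 χ) * b
noncomputable def lie2 (χ a b : SA PP) : SA PP := Tg χ b - d1 (d1 χ) * a - d1 (d2 χ) * b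
def cx : SA PP := ⟨Prod.fst, (contDiff_fst : ContDiff ℝ ∞ (Prod.fst : PP → ℝ))⟩
def cy : SA PP := ⟨Prod.snd, (contDiff_snd : ContDiff ℝ ∞ (Prod.snd : PP → ℝ))⟩

theorem D_cx (e : PP) : D e cx = algebraMap ℝ _ e.1 := Subtype.ext (funext fun x => by
  change fderiv ℝ Prod.fst x e = e.1
  rw [fderiv_fst]; rfl)

theorem D_cy (e : PP) : D e cy = algebraMap ℝ _ e.2 := Subtype.ext (funext fun x => by
  change fderiv ℝ Prod.snd x e = e.2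
  rw [fderiv_snd]; rfl)

variable {Q : Dm}

theorem Tg_B {χ f : SA PP} (hχ : χ ∈ Q.B) (hf : f ∈ Q.B) : Tg χ f ∈ Q.B := fun x hx => by
  have k : ∀ g ∈ Q.B, ∃ W, ∀ e, (D e g).1 x = (D e Q.ρ).1 x * W := fun g hg => by
    obtain ⟨W, a, b⟩ := exists_div (n := 1) (Q.ρ.cd 2).contDiffAt (g.cd 2).contDiffAt hx
      (Q.reg x hx) (Eventually.of_forall hg)
    refine ⟨W x, fun e => ?_⟩
    have := (pd_pow_mul e 0 (Q.ρ.cd 1).contDiffAt a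
      (b.mono fun y hy => by simpa using hy)).eq_of_nhds
    rw [hx] at this
    simpa [D_val] using this
  obtain ⟨W, a⟩ := k χ hχ
  obtain ⟨V, b⟩ := k f hf
  change -(d2 χ).1 x * (d1 f).1 x + (d1 χ).1 x * (d2 f).1 x = 0
  rw [a, a, b, b]; ring

theorem Tg_Z (χ : SA PP) {f : SA PP} (hf : f ∈ Q.Z) : Tg χ f ∈ Q.Z :=
  Q.Z.add_mem (Q.Z.mul_mem_left _ (Dm.Z_D hf _)) (Q.Z.mul_mem_left _ (Dm.Z_D hf _))

theorem I_Tg {χ : SA PP} (hχ : χ ∈ Q.B) (f : SA PP) : Q.I (Tg χ f) = 0 := by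
  have e : Tg χ f = d1 (χ * d2 f) - d2 (χ * d1 f) := by simp only [Tg, D_mul, d21]; ring
  rw [e, map_sub, Dm.I_D (Q.B.mul_mem_right _ hχ), Dm.I_D (Q.B.mul_mem_right _ hχ), sub_zero]

theorem lie_div (χ a b : SA PP) : d1 (lie1 χ a b) + d2 (lie2 χ a b) = Tg χ (d1 a + d2 b) := by
  simp only [lie1, lie2, Tg, D_mul, d21, map_add, map_sub, map_neg]; ring

section
variable {ι : Type*} {l : Filter ι} {k : ℕ} {a b : ι → SA PP} {X : ι → ℝ}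

theorem Ctl.Tg (χ : SA PP) (h : Ctl Q l (k + 1) a X) : Ctl Q l k (fun i => Tg χ (a i)) X :=
  (h.d1.fix _).add (h.d2.fix _)

theorem Ctl.lp2 (h : Ctl Q l (k + 2) a X) : Ctl Q l k (fun i => lp2 (a i)) X :=
  h.d1.d1.add h.d2.d2

theorem Ctl.lie1 (χ : SA PP) (h : Ctl Q l (k + 1) a X) (h' : Ctl Q l (k + 1) b X) :
    Ctl Q l k (fun i => lie1 χ (a i) (b i)) X :=
  ((h.Tg χ).add (h.pred.fix _)).add (h'.pred.fix _)

theorem Ctl.lie2 (χ : SA PP) (h : Ctl Q l (k + 1) a X) (h' : Ctl Q l (k + 1) b X) :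
    Ctl Q l k (fun i => lie2 χ (a i) (b i)) X :=
  ((h'.Tg χ).sub (h.pred.fix _)).sub (h'.pred.fix _)

theorem Ctl.unlie (χ : SA PP) (h : Ctl Q l k a X) (h' : Ctl Q l k b X)
    (h1 : Ctl Q l k (fun i => H64.lie1 χ (a i) (b i)) X)
    (h2 : Ctl Q l k (fun i => H64.lie2 χ (a i) (b i)) X) :
    Ctl Q l k (fun i => H64.Tg χ (a i)) X ∧ Ctl Q l k (fun i => H64.Tg χ (b i)) X :=
  ⟨((h1.sub (h.fix (H64.d1 (H64.d2 χ)))).sub (h'.fix (H64.d2 (H64.d2 χ)))).eq fun i => by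
    simp only [H64.lie1]; ring,
   ((h2.add (h.fix (H64.d1 (H64.d1 χ)))).add (h'.fix (H64.d1 (H64.d2 χ)))).eq fun i => by
    simp only [H64.lie2]; ring⟩

theorem Ctl.com1 (χ : SA PP) (h : Ctl Q l (k + 1) a X) :
    Ctl Q l k (fun i => H64.d1 (H64.Tg χ (a i)) - H64.Tg χ (H64.d1 (a i))) X :=
  ((h.d1.fix (-H64.d1 (H64.d2 χ))).add (h.d2.fix (H64.d1 (H64.d1 χ)))).eq fun i => by
    simp only [H64.Tg, D_mul, d21, map_add, map_neg]; ring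

theorem Ctl.com2 (χ : SA PP) (h : Ctl Q l (k + 1) a X) :
    Ctl Q l k (fun i => H64.d2 (H64.Tg χ (a i)) - H64.Tg χ (H64.d2 (a i))) X :=
  ((h.d1.fix (-H64.d2 (H64.d2 χ))).add (h.d2.fix (H64.d1 (H64.d2 χ)))).eq fun i => by
    simp only [H64.Tg, D_mul, d21, map_add, map_neg]; ring

theorem Ctl.comL (χ : SA PP) (h : Ctl Q l (k + 2) a X) :
    Ctl Q l k (fun i => H64.lp2 (H64.Tg χ (a i)) - H64.Tg χ (H64.lp2 (a i))) X :=
  ((((h.com1 χ).d1.add (h.d1.com1 χ)).add (h.com2 χ).d2).add (h.d2.com2 χ)).eq fun i => by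
    simp only [H64.lp2, H64.Tg, map_add, map_sub]; ring

theorem Ctl.rho (h : ∀ χ ∈ Q.B, Ctl Q l k (fun i => H64.Tg χ (a i)) X) :
    Ctl Q l k (fun i => Q.ρ * H64.d1 (a i)) X ∧ Ctl Q l k (fun i => Q.ρ * H64.d2 (a i)) X :=
  ⟨(((h _ Dm.ρ_mem).fix cy).sub (h _ (Q.B.mul_mem_right cy Dm.ρ_mem))).eq fun i => by
    simp only [H64.Tg, D_mul, D_cy, map_one, map_zero]; ring,
   ((h _ (Q.B.mul_mem_right cx Dm.ρ_mem)).sub ((h _ Dm.ρ_mem).fix cx)).eq fun i => by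
    simp only [H64.Tg, D_mul, D_cx, map_one, map_zero]; ring⟩

theorem Ctl.recover (hd : ∀ᶠ i in l, H64.d1 (a i) + H64.d2 (b i) ∈ Q.Z)
    (hω : Ctl Q l k (fun i => H64.d1 (b i) - H64.d2 (a i)) X) (ha : Ctl Q l k a X)
    (hb : Ctl Q l k b X) (h : ∀ χ ∈ Q.B, Ctl Q l k (fun i => H64.Tg χ (a i)) X ∧
      Ctl Q l k (fun i => H64.Tg χ (b i)) X) : Ctl Q l (k + 1) a X ∧ Ctl Q l (k + 1) b X := by
  obtain ⟨ta, tb⟩ := h _ Dm.ρ_mem
  obtain ⟨-, ra⟩ := Ctl.rho fun χ hχ => (h χ hχ).1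
  obtain ⟨rb1, rb2⟩ := Ctl.rho fun χ hχ => (h χ hχ).2
  have g := Dm.Ginv_mul (Q := Q)
  set r1 := H64.d1 Q.ρ with hr1
  set r2 := H64.d2 Q.ρ with hr2
  have k1 : Ctl Q l k (fun i => H64.d1 (b i)) X :=
    (((((hω.fix (r1 * r1)).sub (tb.fix r2)).add (ta.fix r1)).add (rb1.fix Q.ρ)).fix Q.Ginv).congr
      (hd.mono fun i hi => by
        convert Q.Z.mul_mem_left (Q.Ginv * r1 * r2) hi using 1
        simp only [H64.Tg, ← hr1, ← hr2]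
        linear_combination -H64.d1 (b i) * g)
  have k2 : Ctl Q l k (fun i => H64.d2 (b i)) X :=
    (((((hω.fix (r1 * r2)).add (tb.fix r1)).add (ta.fix r2)).add (rb2.fix Q.ρ)).fix Q.Ginv).congr
      (hd.mono fun i hi => by
        convert Q.Z.mul_mem_left (Q.Ginv * r2 * r2) hi using 1
        simp only [H64.Tg, ← hr1, ← hr2]
        linear_combination -H64.d2 (b i) * g)
  exact ⟨ha.succ (k2.neg.congr (hd.mono fun i hi => by rwa [sub_neg_eq_add]))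
    ((k1.sub hω).eq fun i => by ring), hb.succ k1 k2⟩

end

variable (Q) in
/-- Stationary Stokes data. -/
structure Stk where
  u1 : SA PP
  u2 : SA PP
  p : SA PP
  f1 : SA PP
  f2 : SA PP
  b1 : u1 ∈ Q.B
  b2 : u2 ∈ Q.B
  dv : d1 u1 + d2 u2 ∈ Q.Z
  e1 : d1 p - lp2 u1 - f1 ∈ Q.Z
  e2 : d2 p - lp2 u2 - f2 ∈ Q.Z

theorem Stk.weak (s : Stk Q) {a b : SA PP} (ha : a ∈ Q.B) (hb : b ∈ Q.B)
    (hd : d1 a + d2 b ∈ Q.Z) : Q.I (d1 s.u1 * d1 a) + Q.I (d2 s.u1 * d2 a) + Q.I (d1 s.u2 * d1 b)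
      + Q.I (d2 s.u2 * d2 b) = Q.I (s.f1 * a) + Q.I (s.f2 * b) := by
  have z1 := Dm.I_D (Q.B.add_mem (Q.B.mul_mem_left (d1 s.u1 - s.p) ha)
    (Q.B.mul_mem_left (d1 s.u2) hb)) (1, 0)
  have z2 := Dm.I_D (Q.B.add_mem (Q.B.mul_mem_left (d2 s.u1) ha)
    (Q.B.mul_mem_left (d2 s.u2 - s.p) hb)) (0, 1)
  have z3 := Dm.I_Z (Q.Z.add_mem (Q.Z.add_mem (Q.Z.mul_mem_left a s.e1)
    (Q.Z.mul_mem_left b s.e2)) (Q.Z.mul_mem_left s.p hd))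
  have e : d1 s.u1 * d1 a + d2 s.u1 * d2 a + d1 s.u2 * d1 b + d2 s.u2 * d2 b
      = s.f1 * a + s.f2 * b + d1 ((d1 s.u1 - s.p) * a + d1 s.u2 * b)
        + d2 (d2 s.u1 * a + (d2 s.u2 - s.p) * b) + (a * (d1 s.p - lp2 s.u1 - s.f1)
        + b * (d2 s.p - lp2 s.u2 - s.f2) + s.p * (d1 a + d2 b)) := by
    simp only [lp2, D_mul, map_add, map_sub]; ring
  have := congrArg Q.I e
  rw [map_add, map_add, map_add, map_add, map_add, map_add, map_add, z1, z2, z3] at this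
  linarith

noncomputable def Stk.lie (s : Stk Q) {χ : SA PP} (hχ : χ ∈ Q.B) : Stk Q where
  u1 := lie1 χ s.u1 s.u2
  u2 := lie2 χ s.u1 s.u2
  p := Tg χ s.p
  f1 := Tg χ s.f1 - d1 (d2 χ) * (s.f1 + lp2 s.u1) + d1 (d1 χ) * (s.f2 + lp2 s.u2)
    - (lp2 (Tg χ s.u1) - Tg χ (lp2 s.u1)) - lp2 (d1 (d2 χ) * s.u1 + d2 (d2 χ) * s.u2)
  f2 := Tg χ s.f2 - d2 (d2 χ) * (s.f1 + lp2 s.u1) + d1 (d2 χ) * (s.f2 + lp2 s.u2)
    - (lp2 (Tg χ s.u2) - Tg χ (lp2 s.u2)) + lp2 (d1 (d1 χ) * s.u1 + d1 (d2 χ) * s.u2)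
  b1 := Q.B.add_mem (Q.B.add_mem (Tg_B hχ s.b1) (Q.B.mul_mem_left _ s.b1))
    (Q.B.mul_mem_left _ s.b2)
  b2 := Q.B.sub_mem (Q.B.sub_mem (Tg_B hχ s.b2) (Q.B.mul_mem_left _ s.b1))
    (Q.B.mul_mem_left _ s.b2)
  dv := by rw [lie_div]; exact Tg_Z χ s.dv
  e1 := by
    convert Q.Z.add_mem (Q.Z.sub_mem (Tg_Z χ s.e1) (Q.Z.mul_mem_left (d1 (d2 χ)) s.e1))
      (Q.Z.mul_mem_left (d1 (d1 χ)) s.e2) using 1
    simp only [lie1, lp2, Tg, D_mul, d21, map_add, map_sub, map_neg]; ring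
  e2 := by
    convert Q.Z.add_mem (Q.Z.sub_mem (Tg_Z χ s.e2) (Q.Z.mul_mem_left (d2 (d2 χ)) s.e1))
      (Q.Z.mul_mem_left (d1 (d2 χ)) s.e2) using 1
    simp only [lie2, lp2, Tg, D_mul, d21, map_add, map_sub, map_neg]; ring

variable {ι : Type*} {l : Filter ι} {k : ℕ} {σ : ι → Stk Q} {X : ι → ℝ}

theorem ctl_lie_f {χ : SA PP} (hχ : χ ∈ Q.B) (f1 : Ctl Q l (k + 1) (fun i => (σ i).f1) X)
    (f2 : Ctl Q l (k + 1) (fun i => (σ i).f2) X) (u1 : Ctl Q l (k + 2) (fun i => (σ i).u1) X)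
    (u2 : Ctl Q l (k + 2) (fun i => (σ i).u2) X) :
    Ctl Q l k (fun i => ((σ i).lie hχ).f1) X ∧ Ctl Q l k (fun i => ((σ i).lie hχ).f2) X :=
  ⟨((((f1.Tg χ).sub ((f1.pred.add u1.lp2).fix _)).add ((f2.pred.add u2.lp2).fix _)).sub
      (u1.comL χ)).sub ((u1.fix _).add (u2.fix _)).lp2,
    ((((f2.Tg χ).sub ((f1.pred.add u1.lp2).fix _)).add ((f2.pred.add u2.lp2).fix _)).sub
      (u2.comL χ)).add ((u1.fix _).add (u2.fix _)).lp2⟩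

theorem Ctl.of_sum {a b : ι → SA PP} : Ctl Q l k a (fun i => Q.S k (a i) + Q.S k (b i)) ∧
    Ctl Q l k b fun i => Q.S k (a i) + Q.S k (b i) :=
  ⟨Big.of_le' fun _ => le_add_of_nonneg_right (Dm.S_nonneg _ _),
    Big.of_le' fun _ => le_add_of_nonneg_left (Dm.S_nonneg _ _)⟩

theorem Ctl.to_sum {a b : ι → SA PP} (h : Big l (fun i => Q.S k (a i) + Q.S k (b i)) X) :
    Ctl Q l k a X ∧ Ctl Q l k b X := ⟨Ctl.of_sum.1.trans h, Ctl.of_sum.2.trans h⟩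

theorem Big.radd {P Y : ι → ℝ} (h : Big l P X) (hY : ∀ i, 0 ≤ Y i) : Big l P fun i => X i + Y i :=
  h.le_right (Eventually.of_forall fun i => le_add_of_nonneg_right (hY i))

theorem Big.ladd {P Y : ι → ℝ} (h : Big l P X) (hY : ∀ i, 0 ≤ Y i) : Big l P fun i => Y i + X i :=
  h.le_right (Eventually.of_forall fun i => le_add_of_nonneg_left (hY i))

theorem tangential {χ : SA PP} (hχ : χ ∈ Q.B) (X0 : ∀ i, 0 ≤ X i)
    (f1 : Ctl Q l 0 (fun i => (σ i).f1) X) (f2 : Ctl Q l 0 (fun i => (σ i).f2) X)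
    (u1 : Ctl Q l 1 (fun i => (σ i).u1) X) (u2 : Ctl Q l 1 (fun i => (σ i).u2) X) :
    Ctl Q l 1 (fun i => lie1 χ (σ i).u1 (σ i).u2) X ∧
      Ctl Q l 1 (fun i => lie2 χ (σ i).u1 (σ i).u2) X := by
  refine Ctl.to_sum (Big.absorb ?_ X0 fun i => add_nonneg (Dm.S_nonneg _ _) (Dm.S_nonneg _ _))
  obtain ⟨v1, v2⟩ := Ctl.of_sum (Q := Q) (l := l) (k := 1) (a := fun i => lie1 χ (σ i).u1 (σ i).u2)
    (b := fun i => lie2 χ (σ i).u1 (σ i).u2)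
  have A : ∀ {a b : ι → SA PP} {Y : ι → ℝ}, Ctl Q l 1 a Y → Ctl Q l 1 b Y →
      Ctl Q l 0 (fun i => d1 (lie1 χ (a i) (b i)) - Tg χ (d1 (a i))) Y ∧
      Ctl Q l 0 (fun i => d2 (lie1 χ (a i) (b i)) - Tg χ (d2 (a i))) Y ∧
      Ctl Q l 0 (fun i => d1 (lie2 χ (a i) (b i)) - Tg χ (d1 (b i))) Y ∧
      Ctl Q l 0 (fun i => d2 (lie2 χ (a i) (b i)) - Tg χ (d2 (b i))) Y := fun ha hb =>
    ⟨((ha.com1 χ).add ((ha.fix (d1 (d2 χ))).add (hb.fix (d2 (d2 χ)))).d1).eq fun i => by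
        simp only [lie1, map_add]; ring,
      ((ha.com2 χ).add ((ha.fix (d1 (d2 χ))).add (hb.fix (d2 (d2 χ)))).d2).eq fun i => by
        simp only [lie1, map_add]; ring,
      ((hb.com1 χ).sub ((ha.fix (d1 (d1 χ))).add (hb.fix (d1 (d2 χ)))).d1).eq fun i => by
        simp only [lie2, map_add, map_sub]; ring,
      ((hb.com2 χ).sub ((ha.fix (d1 (d1 χ))).add (hb.fix (d1 (d2 χ)))).d2).eq fun i => by
        simp only [lie2, map_add, map_sub]; ring⟩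
  obtain ⟨a1, a2, a3, a4⟩ := A u1 u2
  obtain ⟨c1, c2, c3, c4⟩ := A v1 v2
  have s0 := fun i => Real.sqrt_nonneg (X i * (Q.S 1 (lie1 χ (σ i).u1 (σ i).u2)
    + Q.S 1 (lie2 χ (σ i).u1 (σ i).u2)))
  refine (((Big.add (u1.lie1 χ u2) (u1.lie2 χ u2)).radd s0).add (((((((((((f1.mix (v1.lie1 χ v2)).add
    (f2.mix (v1.lie2 χ v2))).add (a1.mix v1.d1)).add (a2.mix v1.d2)).add (a3.mix v2.d1)).add
    (a4.mix v2.d2)).add (u1.d1.mix c1)).add (u1.d2.mix c2)).add (u2.d1.mix c3)).add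
    (u2.d2.mix c4)).ladd X0)).le_left (Eventually.of_forall fun i => ?_)
  have w := (σ i).weak (((σ i).lie hχ).lie hχ).b1 (((σ i).lie hχ).lie hχ).b2
    (((σ i).lie hχ).lie hχ).dv
  have t : ∀ u v W : SA PP, Q.I (u * W) = -Q.I (v * v) + Q.I ((v - Tg χ u) * v)
      + Q.I (u * (W - Tg χ v)) := fun u v W => by
    have e : u * W = -(v * v) + (v - Tg χ u) * v + u * (W - Tg χ v) + Tg χ (u * v) := by
      simp only [Tg, D_mul]; ring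
    rw [e, map_add, map_add, map_add, map_neg, I_Tg hχ, add_zero]
  simp only [Stk.lie] at w
  set v1 := lie1 χ (σ i).u1 (σ i).u2
  set v2 := lie2 χ (σ i).u1 (σ i).u2
  rw [t _ (d1 v1), t (d2 (σ i).u1) (d2 v1), t (d1 (σ i).u2) (d1 v2), t (d2 (σ i).u2) (d2 v2)] at w
  simp only [Dm.S]
  linarith [neg_abs_le (Q.I ((σ i).f1 * lie1 χ v1 v2)), neg_abs_le (Q.I ((σ i).f2 * lie2 χ v1 v2)),
    le_abs_self (Q.I ((d1 v1 - Tg χ (d1 (σ i).u1)) * d1 v1)),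
    le_abs_self (Q.I ((d2 v1 - Tg χ (d2 (σ i).u1)) * d2 v1)),
    le_abs_self (Q.I ((d1 v2 - Tg χ (d1 (σ i).u2)) * d1 v2)),
    le_abs_self (Q.I ((d2 v2 - Tg χ (d2 (σ i).u2)) * d2 v2)),
    le_abs_self (Q.I (d1 (σ i).u1 * (d1 (lie1 χ v1 v2) - Tg χ (d1 v1)))),
    le_abs_self (Q.I (d2 (σ i).u1 * (d2 (lie1 χ v1 v2) - Tg χ (d2 v1)))),
    le_abs_self (Q.I (d1 (σ i).u2 * (d1 (lie2 χ v1 v2) - Tg χ (d1 v2)))),
    le_abs_self (Q.I (d2 (σ i).u2 * (d2 (lie2 χ v1 v2) - Tg χ (d2 v2))))]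

theorem sqrt_step {a b y : ℝ} (ha : 0 ≤ a) (hb : 0 ≤ b) (hy : 0 ≤ y) :
    a + √(a * (b + y)) ≤ (a + √(a * b)) + √((a + √(a * b)) * y) := by
  have s := Real.sqrt_nonneg (a * b)
  have h1 : √(a * (b + y)) ≤ √(a * b) + √(a * y) := by
    refine Real.sqrt_le_iff.2 ⟨by positivity, ?_⟩
    nlinarith [Real.sq_sqrt (mul_nonneg ha hb), Real.sq_sqrt (mul_nonneg ha hy),
      mul_nonneg s (Real.sqrt_nonneg (a * y))]
  have h2 : √(a * y) ≤ √((a + √(a * b)) * y) := Real.sqrt_le_sqrt (by nlinarith)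
  linarith

theorem Stk.lap_curl (s : Stk Q) : lp2 (d1 s.u2 - d2 s.u1) - (d2 s.f1 - d1 s.f2) ∈ Q.Z := by
  convert Q.Z.sub_mem (Dm.Z_D s.e1 (0, 1)) (Dm.Z_D s.e2 (1, 0)) using 1
  simp only [lp2, map_add, map_sub, d21]; ring

theorem Stk.d1_curl (s : Stk Q) : d1 (d1 s.u2 - d2 s.u1) - lp2 s.u2 ∈ Q.Z := by
  convert Q.Z.neg_mem (Dm.Z_D s.dv (0, 1)) using 1
  simp only [lp2, map_add, map_sub, d21]; ring

theorem Stk.d2_curl (s : Stk Q) : d2 (d1 s.u2 - d2 s.u1) - -lp2 s.u1 ∈ Q.Z := by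
  convert Dm.Z_D s.dv (1, 0) using 1
  simp only [lp2, map_add, map_sub, d21]; ring

theorem rellich {w g : ι → SA PP} {X' : ι → ℝ} (X0 : ∀ i, 0 ≤ X i) (X1 : ∀ i, 0 ≤ X' i)
    (hT : ∀ χ ∈ Q.B, Ctl Q l 0 (fun i => Tg χ (w i)) X) (hw : Ctl Q l 0 w X)
    (hg : Ctl Q l 0 g X') (he : ∀ i, lp2 (w i) - g i ∈ Q.Z) :
    Ctl Q l 1 w fun i => X i + √(X i * X' i) := by
  obtain ⟨r1, r2⟩ := Ctl.rho hT
  have t := hT _ Dm.ρ_mem
  have s0 := fun i => Real.sqrt_nonneg (X i * X' i)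
  have key : Big l (fun i => Q.S 0 (d1 (w i)) + Q.S 0 (d2 (w i))) fun i => X i + √(X i * X' i) := by
    refine Big.absorb ?_ (fun i => add_nonneg (X0 i) (s0 i))
      fun i => add_nonneg (Dm.S_nonneg _ _) (Dm.S_nonneg _ _)
    obtain ⟨y1, y2⟩ := Ctl.of_sum (Q := Q) (l := l) (k := 0) (a := fun i => d1 (w i))
      (b := fun i => d2 (w i))
    set Y := fun i => Q.S 0 (d1 (w i)) + Q.S 0 (d2 (w i)) with hY
    have s1 := fun i => Real.sqrt_nonneg ((X i + √(X i * X' i)) * Y i)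
    have m1 := Ctl.mix (Big.radd r1 s0) (((y1.fix (lp2 Q.ρ)).sub
      (y1.fix (2 * d1 (d1 Q.ρ)))).sub (y2.fix (2 * d1 (d2 Q.ρ))))
    have m2 := Ctl.mix (Big.radd r2 s0) (((y2.fix (lp2 Q.ρ)).sub
      (y1.fix (2 * d1 (d2 Q.ρ)))).sub (y2.fix (2 * d2 (d2 Q.ρ))))
    have m3 := ((r1.fix (d1 Q.ρ)).add (r2.fix (d2 Q.ρ))).mix hg
    have n : Ctl Q l 0 (fun i => d1 Q.ρ * d1 (w i) + d2 Q.ρ * d2 (w i))
        fun i => X i + √(X i * X' i) + √((X i + √(X i * X' i)) * Y i) := by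
      refine (((((Big.radd t s0).add ((Big.cmul zero_le_two m3).ladd X0)).radd s1).add
        ((m1.add m2).ladd fun i => add_nonneg (X0 i) (s0 i)))).le_left
          (Eventually.of_forall fun i => ?_)
      have z1 := Dm.I_D (Q.B.mul_mem_right (2 * (d1 Q.ρ * d1 (w i) + d2 Q.ρ * d2 (w i)) * d1 (w i)
        - (d1 (w i) * d1 (w i) + d2 (w i) * d2 (w i)) * d1 Q.ρ) Dm.ρ_mem) (1, 0)
      have z2 := Dm.I_D (Q.B.mul_mem_right (2 * (d1 Q.ρ * d1 (w i) + d2 Q.ρ * d2 (w i)) * d2 (w i)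
        - (d1 (w i) * d1 (w i) + d2 (w i) * d2 (w i)) * d2 Q.ρ) Dm.ρ_mem) (0, 1)
      have z3 := Dm.I_Z (Q.Z.mul_mem_left (2 * (d1 Q.ρ * (Q.ρ * d1 (w i))
        + d2 Q.ρ * (Q.ρ * d2 (w i)))) (he i))
      have e : (d1 Q.ρ * d1 (w i) + d2 Q.ρ * d2 (w i)) * (d1 Q.ρ * d1 (w i) + d2 Q.ρ * d2 (w i))
          = Tg Q.ρ (w i) * Tg Q.ρ (w i)
            - 2 * ((d1 Q.ρ * (Q.ρ * d1 (w i)) + d2 Q.ρ * (Q.ρ * d2 (w i))) * g i)
            + Q.ρ * d1 (w i) * (lp2 Q.ρ * d1 (w i) - 2 * d1 (d1 Q.ρ) * d1 (w i)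
              - 2 * d1 (d2 Q.ρ) * d2 (w i))
            + Q.ρ * d2 (w i) * (lp2 Q.ρ * d2 (w i) - 2 * d1 (d2 Q.ρ) * d1 (w i)
              - 2 * d2 (d2 Q.ρ) * d2 (w i))
            + d1 (Q.ρ * (2 * (d1 Q.ρ * d1 (w i) + d2 Q.ρ * d2 (w i)) * d1 (w i)
              - (d1 (w i) * d1 (w i) + d2 (w i) * d2 (w i)) * d1 Q.ρ))
            + d2 (Q.ρ * (2 * (d1 Q.ρ * d1 (w i) + d2 Q.ρ * d2 (w i)) * d2 (w i)
              - (d1 (w i) * d1 (w i) + d2 (w i) * d2 (w i)) * d2 Q.ρ))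
            - 2 * (d1 Q.ρ * (Q.ρ * d1 (w i)) + d2 Q.ρ * (Q.ρ * d2 (w i))) * (lp2 (w i) - g i) := by
        simp only [Tg, lp2, D_mul, D_ofNat, d21, map_add, map_sub]; ring
      simp only [Dm.S]
      rw [e, map_sub, map_add, map_add, map_add, map_add, map_sub, Dm.I_two, z1, z2, z3]
      linarith [neg_abs_le (Q.I ((d1 Q.ρ * (Q.ρ * d1 (w i)) + d2 Q.ρ * (Q.ρ * d2 (w i))) * g i)),
        le_abs_self (Q.I (Q.ρ * d1 (w i) * (lp2 Q.ρ * d1 (w i) - 2 * d1 (d1 Q.ρ) * d1 (w i)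
          - 2 * d1 (d2 Q.ρ) * d2 (w i)))), le_abs_self (Q.I (Q.ρ * d2 (w i) * (lp2 Q.ρ * d2 (w i)
          - 2 * d1 (d2 Q.ρ) * d1 (w i) - 2 * d2 (d2 Q.ρ) * d2 (w i))))]
    have up : ∀ {F : ι → SA PP}, Ctl Q l 0 F X → Ctl Q l 0 F
        fun i => X i + √(X i * X' i) + √((X i + √(X i * X' i)) * Y i) := fun h =>
      Big.radd (Big.radd h s0) s1
    have g := Dm.Ginv_mul (Q := Q)
    exact Big.add (((((n.fix (d1 Q.ρ)).sub ((up t).fix (d2 Q.ρ))).add ((up r1).fix Q.ρ)).fix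
      Q.Ginv).eq fun i => by simp only [Tg]; linear_combination -d1 (w i) * g)
      (((((n.fix (d2 Q.ρ)).add ((up t).fix (d1 Q.ρ))).add ((up r2).fix Q.ρ)).fix
      Q.Ginv).eq fun i => by simp only [Tg]; linear_combination -d2 (w i) * g)
  obtain ⟨k1, k2⟩ := Ctl.to_sum key
  exact Ctl.succ (Big.radd hw s0) k1 k2

theorem stokes (k : ℕ) : ∀ (σ : ι → Stk Q) (X X' : ι → ℝ), (∀ i, 0 ≤ X i) → (∀ i, 0 ≤ X' i) →
    Ctl Q l k (fun i => (σ i).f1) X → Ctl Q l k (fun i => (σ i).f2) X →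
    Ctl Q l (k + 1) (fun i => (σ i).u1) X → Ctl Q l (k + 1) (fun i => (σ i).u2) X →
    Ctl Q l (k + 1) (fun i => (σ i).f1) X' → Ctl Q l (k + 1) (fun i => (σ i).f2) X' →
    Ctl Q l (k + 2) (fun i => (σ i).u1) (fun i => X i + √(X i * X' i)) ∧
      Ctl Q l (k + 2) (fun i => (σ i).u2) fun i => X i + √(X i * X' i) := by
  induction k with
  | zero =>
    intro σ X X' X0 X1 f1 f2 u1 u2 g1 g2
    have s0 := fun i => Real.sqrt_nonneg (X i * X' i)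
    have T : ∀ χ ∈ Q.B, Ctl Q l 1 (fun i => Tg χ (σ i).u1) X ∧
        Ctl Q l 1 (fun i => Tg χ (σ i).u2) X := fun χ hχ => by
      obtain ⟨a, b⟩ := tangential hχ X0 f1 f2 u1 u2
      exact Ctl.unlie χ u1 u2 a b
    refine Ctl.recover (Eventually.of_forall fun i => (σ i).dv) (rellich X0 X1 (fun χ hχ => ?_)
      (u2.d1.sub u1.d2) (g1.d2.sub g2.d1) fun i => (σ i).lap_curl) (Big.radd u1 s0) (Big.radd u2 s0)
      fun χ hχ => ⟨Big.radd (T χ hχ).1 s0, Big.radd (T χ hχ).2 s0⟩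
    exact (((T χ hχ).2.d1.sub (u2.com1 χ)).sub ((T χ hχ).1.d2.sub (u1.com2 χ))).eq fun i => by
      simp only [Tg, map_sub]; ring
  | succ k ih =>
    intro σ X X' X0 X1 f1 f2 u1 u2 g1 g2
    have s0 := fun i => Real.sqrt_nonneg (X i * X' i)
    have Y0 := fun i => add_nonneg (Dm.S_nonneg (Q := Q) (k + 1 + 2) (σ i).u1)
      (Dm.S_nonneg (Q := Q) (k + 1 + 2) (σ i).u2)
    refine Ctl.to_sum (Big.absorb ?_ (fun i => add_nonneg (X0 i) (s0 i)) Y0)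
    obtain ⟨y1, y2⟩ := Ctl.of_sum (Q := Q) (l := l) (k := k + 1 + 2) (a := fun i => (σ i).u1)
      (b := fun i => (σ i).u2)
    set Y := fun i => Q.S (k + 1 + 2) (σ i).u1 + Q.S (k + 1 + 2) (σ i).u2 with hY
    have up : ∀ {m} {F : ι → SA PP}, Ctl Q l m F X → Ctl Q l m F
        fun i => X i + √(X i * X' i) + √((X i + √(X i * X' i)) * Y i) := fun h =>
      Big.radd (Big.radd h s0) fun i => Real.sqrt_nonneg _
    have T : ∀ χ ∈ Q.B, Ctl Q l (k + 2) (fun i => Tg χ (σ i).u1)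
        (fun i => X i + √(X i * X' i) + √((X i + √(X i * X' i)) * Y i)) ∧
        Ctl Q l (k + 2) (fun i => Tg χ (σ i).u2)
        fun i => X i + √(X i * X' i) + √((X i + √(X i * X' i)) * Y i) := fun χ hχ => by
      obtain ⟨a1, a2⟩ := ctl_lie_f hχ f1 f2 u1 u2
      obtain ⟨b1, b2⟩ := ctl_lie_f (X := fun i => X' i + Y i) hχ (Big.radd g1 Y0) (Big.radd g2 Y0)
        (Big.ladd y1 X1) (Big.ladd y2 X1)
      obtain ⟨c1, c2⟩ := ih (fun i => (σ i).lie hχ) X _ X0 (fun i => add_nonneg (X1 i) (Y0 i)) a1 a2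
        (u1.lie1 χ u2) (u1.lie2 χ u2) b1 b2
      have le := Eventually.of_forall (f := l) fun i => sqrt_step (X0 i) (X1 i) (Y0 i)
      exact Ctl.unlie χ (up u1) (up u2) (Big.le_right c1 le) (Big.le_right c2 le)
    obtain ⟨w1, w2⟩ := Ctl.recover (a := fun i => lp2 (σ i).u1) (b := fun i => lp2 (σ i).u2)
      (Eventually.of_forall fun i => by
        convert Q.Z.add_mem (Dm.Z_D (Dm.Z_D (σ i).dv (1, 0)) (1, 0))
          (Dm.Z_D (Dm.Z_D (σ i).dv (0, 1)) (0, 1)) using 1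
        simp only [lp2, map_add, d21]; ring)
      ((up (f1.d2.sub f2.d1)).congr (Eventually.of_forall fun i => by
        convert (σ i).lap_curl using 2
        simp only [lp2, map_add, map_sub, d21]; ring)) (up u1.lp2) (up u2.lp2) fun χ hχ =>
      ⟨((T χ hχ).1.lp2.sub (up (u1.comL χ))).eq fun i => by ring,
        ((T χ hχ).2.lp2.sub (up (u2.comL χ))).eq fun i => by ring⟩
    obtain ⟨z1, z2⟩ := Ctl.recover (Eventually.of_forall fun i => (σ i).dv)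
      ((up (u2.d1.sub u1.d2)).succ (w2.congr (Eventually.of_forall fun i => (σ i).d1_curl))
        (w1.neg.congr (Eventually.of_forall fun i => (σ i).d2_curl))) (up u1) (up u2) T
    exact Big.add z1 z2

end Pool.Agent.MP_ed9623_an.H64
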