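import Pool.Agent.MP_ed9623_an.H64.Ana3
import Pool.Agent.MP_ed9623_an.H64.Boot
import Pool.Agent.MP_ed9623_an.H64.Unique3

open Filter Topology MeasureTheory Set
open scoped ContDiff Nat

namespace Pool.Agent.MP_ed9623_an.H64

variable {Q : Dm} {g1 g2 : SA PP}

theorem dt_gt {f : SA ST} {P : PP → Prop} {T : ℝ} (h : ∀ t, T < t → ∀ x, P x → f.1 (t, x) = 0)
    (j : ℕ) : ∀ t, T < t → ∀ x, P x → (dt^[j] f).1 (t, x) = 0 := by
  induction j with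
  | zero => exact h
  | succ j ih =>
    intro t ht x hx
    rw [Function.iterate_succ_apply']
    refine (hasDerivAt_time ((dt^[j] f).cd 1) x t).unique
      ((hasDerivAt_const t (0 : ℝ)).congr_of_eventuallyEq ?_)
    filter_upwards [lt_mem_nhds ht] with s hs using ih s hs x hx

/-- The weak form of the `j`-th time derivative of the equation. -/
def WK (j : ℕ) (i : Sol Q g1 g2 × ℝ) : Prop :=
  (V1 j i ∈ Q.B ∧ V2 j i ∈ Q.B ∧ d1 (V1 j i) + d2 (V2 j i) ∈ Q.Z) ∧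
    ∀ a b, a ∈ Q.B ∧ b ∈ Q.B ∧ d1 a + d2 b ∈ Q.Z → Q.I (d1 (V1 j i) * d1 a) + Q.I (d2 (V1 j i) * d2 a)
      + Q.I (d1 (V2 j i) * d1 b) + Q.I (d2 (V2 j i) * d2 b) = Q.I (GG g1 j * a) + Q.I (GG g2 j * b)
      - Q.I (V1 (j + 1) i * a) - Q.I (V2 (j + 1) i * b) - Q.I (NL V1 j i * a)
      - Q.I (NL V2 j i * b)

theorem weak_all (s : Sol Q g1 g2) : ∃ T, ∀ t, T < t → ∀ j, WK j (s, t) := by
  obtain ⟨T, hT⟩ := eventually_atTop.1 s.ns
  refine ⟨T, fun t ht j => ?_⟩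
  have hf := fun x hx => mem_frontier_of_zero Q.ρ.ct hx (Q.reg x hx)
  have b1 : sl t (dt^[j] s.u1) ∈ Q.B := dt_gt (P := fun x => Q.ρ.1 x = 0)
    (fun t h x hx => ((hT t h.le).2 x (hf x hx)).1) j t ht
  have b2 : sl t (dt^[j] s.u2) ∈ Q.B := dt_gt (P := fun x => Q.ρ.1 x = 0)
    (fun t h x hx => ((hT t h.le).2 x (hf x hx)).2) j t ht
  have dv : sl t (dt^[j] (D e1 s.u1 + D e2 s.u2)) ∈ Q.Z := dt_gt (P := fun x => Q.ρ.1 x < 0)
    (fun t h x hx => ((hT t h.le).1 x hx).2.2) j t ht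
  have q1 : sl t (dt^[j] (dt s.u1 + s.u1 * D e1 s.u1 + s.u2 * D e2 s.u1
      - (D e1 (D e1 s.u1) + D e2 (D e2 s.u1)) + D e1 s.p - up g1)) ∈ Q.Z :=
    dt_gt (P := fun x => Q.ρ.1 x < 0) (fun t h x hx => sub_eq_zero.2 ((hT t h.le).1 x hx).1) j t ht
  have q2 : sl t (dt^[j] (dt s.u2 + s.u1 * D e1 s.u2 + s.u2 * D e2 s.u2
      - (D e1 (D e1 s.u2) + D e2 (D e2 s.u2)) + D e2 s.p - up g2)) ∈ Q.Z :=
    dt_gt (P := fun x => Q.ρ.1 x < 0) (fun t h x hx => sub_eq_zero.2 ((hT t h.le).1 x hx).2.1) j t ht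
  have gg : ∀ g, sl t (dt^[j] (up g)) = GG g j := fun g => by
    rcases j with _ | j
    · rfl
    · rw [Function.iterate_succ_apply, dt_up, iterate_map_zero, map_zero]; simp [GG]
  simp only [iterate_map_add, iterate_map_sub, D_iter_mul, iter_D, map_add, map_sub, map_sum,
    map_mul, map_natCast, gg, sl_e1, sl_e2] at dv q1 q2
  let σ : Stk Q := ⟨V1 j (s, t), V2 j (s, t), PV j (s, t), GG g1 j - V1 (j + 1) (s, t) - NL V1 j (s, t),
    GG g2 j - V2 (j + 1) (s, t) - NL V2 j (s, t), b1, b2, dv, by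
      convert q1 using 1
      simp only [V1, V2, PV, NL, lp2, Function.iterate_succ_apply', mul_add, Finset.sum_add_distrib]
      ring, by
      convert q2 using 1
      simp only [V1, V2, PV, NL, lp2, Function.iterate_succ_apply', mul_add, Finset.sum_add_distrib]
      ring⟩
  refine ⟨⟨b1, b2, dv⟩, fun a b h => ?_⟩
  have := σ.weak h.1 h.2.1 h.2.2
  simp only [σ, sub_mul, map_sub] at this
  linarith

theorem nl_bound {A1 A2 B : ℕ → SA PP} (hA : ∀ a, A1 a ∈ Q.B ∧ A2 a ∈ Q.B ∧ d1 (A1 a) + d2 (A2 a) ∈ Q.Z)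
    (j : ℕ) (f : SA PP) (w : ℕ × ℕ → ℝ) (hw : ∀ q, 0 < w q) (c : ℝ) (z : ℕ × ℕ → Prop)
    [DecidablePred z] (hz : ∀ q ∈ Finset.HasAntidiagonal.antidiagonal j, z q → B q.2 = f) :
    -2 * c * Q.I ((∑ q ∈ Finset.HasAntidiagonal.antidiagonal j, (j.choose q.1 : SA PP)
      * (A1 q.1 * d1 (B q.2) + A2 q.1 * d2 (B q.2))) * f)
      ≤ (∑ q ∈ Finset.HasAntidiagonal.antidiagonal j, j.choose q.1 * w q)
        * (Q.S 0 (d1 f) + Q.S 0 (d2 f)) + ∑ q ∈ Finset.HasAntidiagonal.antidiagonal j, j.choose q.1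
          * if z q then 0 else c ^ 2 / w q * (Q.S 0 (A1 q.1 * B q.2) + Q.S 0 (A2 q.1 * B q.2)) := by
  rw [Finset.sum_mul, Finset.sum_mul, map_sum, Finset.mul_sum, ← Finset.sum_add_distrib]
  refine Finset.sum_le_sum fun q hq => ?_
  rw [mul_assoc (_ : SA PP), Dm.I_natCast, mul_left_comm, mul_assoc (j.choose q.1 : ℝ), ← mul_add]
  refine mul_le_mul_of_nonneg_left ?_ (Nat.cast_nonneg _)
  have w0 := hw q
  have n := add_nonneg (Dm.S_nonneg (Q := Q) 0 (d1 f)) (Dm.S_nonneg (Q := Q) 0 (d2 f))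
  obtain ⟨a1, a2, a3⟩ := hA q.1
  split_ifs with h
  · rw [hz q hq h, tri_self a1 a2 a3]
    simpa using by positivity
  · have y1 := Dm.young (Q := Q) (c / w q) (d1 f) (A1 q.1 * B q.2)
    have y2 := Dm.young (Q := Q) (c / w q) (d2 f) (A2 q.1 * B q.2)
    have y3 := mul_le_mul_of_nonneg_left (add_le_add y1 y2) w0.le
    rw [tri_parts a1 a2 a3, mul_comm _ (d1 f), mul_comm _ (d2 f)]
    have e1 : w q * 2 * (c / w q) = 2 * c := by field_simp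
    have e2 : w q * (c / w q) ^ 2 = c ^ 2 / w q := by field_simp
    simp only [mul_add, ← mul_assoc (w q), e1, e2] at y3 ⊢
    linarith

theorem IB.fsum {α : Type*} {τ : ℝ} (hτ : τ ≤ 1) (s : Finset α) {F : α → ℝ → ℝ} {C : α → ℝ}
    (h : ∀ a ∈ s, IB τ (F a) (C a)) : IB τ (fun t => ∑ a ∈ s, F a t) (∑ a ∈ s, C a) := by
  classical
  induction s using Finset.induction_on with
  | empty => simpa using IB.const hτ le_rfl
  | insert a s ha ih =>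
    simp only [Finset.sum_insert ha]
    exact (h a (Finset.mem_insert_self _ _)).add (ih fun b hb => h b (Finset.mem_insert_of_mem hb))

theorem mj_conv' {R : ℝ} (hR : 0 < R) (k : ℕ) : ∑ q ∈ Finset.HasAntidiagonal.antidiagonal k,
    (k.choose q.1 : ℝ) * (mj R q.1 * mj R q.2) ≤ 3 * mj R k := by
  rcases k with _ | k
  · simp [mj_zero]
  · exact mj_conv hR k

theorem S1_eq (f : SA PP) : Q.S 1 f = Q.S 0 f + (Q.S 0 (d1 f) + Q.S 0 (d2 f)) := by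
  simp only [Dm.S]; ring

section
variable (s : Sol Q g1 g2) (t0 : ℝ)

noncomputable def W1 (k : ℕ) (τ : ℝ) : SA PP := τ ^ k • V1 k (s, t0 + τ)
noncomputable def W2 (k : ℕ) (τ : ℝ) : SA PP := τ ^ k • V2 k (s, t0 + τ)
noncomputable def YW (k : ℕ) (τ : ℝ) : ℝ := Q.S 0 (W1 s t0 k τ) + Q.S 0 (W2 s t0 k τ)
noncomputable def HW (k : ℕ) (τ : ℝ) : ℝ := Q.S 1 (W1 s t0 k τ) + Q.S 1 (W2 s t0 k τ)
noncomputable def PW (q : ℕ × ℕ) (τ : ℝ) : ℝ :=
  Q.S 0 (W1 s t0 q.1 τ * W1 s t0 q.2 τ) + Q.S 0 (W2 s t0 q.1 τ * W1 s t0 q.2 τ)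
    + (Q.S 0 (W1 s t0 q.1 τ * W2 s t0 q.2 τ) + Q.S 0 (W2 s t0 q.1 τ * W2 s t0 q.2 τ))
noncomputable def RW (j : ℕ) (τ : ℝ) (a b : SA PP) : ℝ :=
  τ ^ j * (Q.I (V1 (j + 1) (s, t0 + τ) * a) + Q.I (V2 (j + 1) (s, t0 + τ) * b))

theorem YW_deriv (j : ℕ) (τ : ℝ) : HasDerivAt (YW s t0 (j + 1))
    (2 * (j + 1) * RW s t0 j τ (W1 s t0 (j + 1) τ) (W2 s t0 (j + 1) τ)
      + 2 * RW s t0 (j + 1) τ (W1 s t0 (j + 1) τ) (W2 s t0 (j + 1) τ)) τ := by
  have e : YW s t0 (j + 1) = fun τ => τ ^ (j + 1) * τ ^ (j + 1) * SS 0 (j + 1) (s, t0 + τ) := by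
    funext τ
    simp only [YW, W1, W2, Dm.S0_smul, SS]; ring
  have a := hasDerivAt_pow (j + 1) τ
  rw [e]
  refine ((a.fun_mul a).fun_mul ((SS_deriv (j + 1) s (t0 + τ)).comp_const_add t0 τ)).congr_deriv ?_
  simp only [RW, W1, W2, mul_smul_comm, map_smul, smul_eq_mul, dd, SS, Dm.S, Nat.add_sub_cancel]
  push_cast
  ring

variable {s t0}

theorem W_ok {τ : ℝ} (h : ∀ j, WK j (s, t0 + τ)) (a : ℕ) : W1 s t0 a τ ∈ Q.B ∧ W2 s t0 a τ ∈ Q.B ∧
    d1 (W1 s t0 a τ) + d2 (W2 s t0 a τ) ∈ Q.Z := by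
  obtain ⟨a1, a2, a3⟩ := (h a).1
  refine ⟨Q.B.smul_of_tower_mem _ a1, Q.B.smul_of_tower_mem _ a2, ?_⟩
  rw [W1, W2, map_smul, map_smul, ← smul_add]
  exact Q.Z.smul_of_tower_mem _ a3

theorem RW_le {τ : ℝ} (h : ∀ j, WK j (s, t0 + τ)) (j k : ℕ) (w : ℕ × ℕ → ℝ) (hw : ∀ q, 0 < w q)
    (hs : ∑ q ∈ Finset.HasAntidiagonal.antidiagonal j, j.choose q.1 * w q ≤ 1 / 4) (c : ℝ)
    (z : ℕ × ℕ → Prop) [DecidablePred z]
    (hz : ∀ q ∈ Finset.HasAntidiagonal.antidiagonal j, z q → q.2 = k) :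
    2 * c * RW s t0 j τ (W1 s t0 k τ) (W2 s t0 k τ) ≤ 2 * c * (τ ^ j * (Q.I (GG g1 j * W1 s t0 k τ)
      + Q.I (GG g2 j * W2 s t0 k τ)) - (Q.I (d1 (W1 s t0 j τ) * d1 (W1 s t0 k τ))
      + Q.I (d2 (W1 s t0 j τ) * d2 (W1 s t0 k τ)) + Q.I (d1 (W2 s t0 j τ) * d1 (W2 s t0 k τ))
      + Q.I (d2 (W2 s t0 j τ) * d2 (W2 s t0 k τ)))) + (HW s t0 k τ - YW s t0 k τ) / 4
      + ∑ q ∈ Finset.HasAntidiagonal.antidiagonal j, j.choose q.1
          * if z q then 0 else c ^ 2 / w q * PW s t0 q τ := by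
  have n1 := nl_bound (B := fun b => W1 s t0 b τ) (W_ok h) j _ w hw c z fun q hq hq' => by
    rw [hz q hq hq']
  have n2 := nl_bound (B := fun b => W2 s t0 b τ) (W_ok h) j _ w hw c z fun q hq hq' => by
    rw [hz q hq hq']
  have e : ∀ (V : ℕ → Sol Q g1 g2 × ℝ → SA PP) (B : ℕ → SA PP), (∀ b, B b = τ ^ b • V b (s, t0 + τ)) →
      ∑ q ∈ Finset.HasAntidiagonal.antidiagonal j, (j.choose q.1 : SA PP) * (W1 s t0 q.1 τ * d1 (B q.2)
        + W2 s t0 q.1 τ * d2 (B q.2)) = τ ^ j • NL V j (s, t0 + τ) := fun V B hB => by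
    rw [NL, Finset.smul_sum]
    refine Finset.sum_congr rfl fun q hq => ?_
    rw [← Finset.HasAntidiagonal.mem_antidiagonal.1 hq]
    simp only [W1, W2, hB, map_smul]
    simp only [Algebra.smul_def, map_pow]
    ring
  rw [e V1 (fun b => W1 s t0 b τ) fun _ => rfl, smul_mul_assoc, map_smul, smul_eq_mul] at n1
  rw [e V2 (fun b => W2 s t0 b τ) fun _ => rfl, smul_mul_assoc, map_smul, smul_eq_mul] at n2
  have ww := congrArg (2 * c * τ ^ j * ·) ((h j).2 _ _ (W_ok h k))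
  have e3 : ∑ q ∈ Finset.HasAntidiagonal.antidiagonal j, (j.choose q.1 : ℝ)
      * (if z q then 0 else c ^ 2 / w q * PW s t0 q τ)
      = ∑ q ∈ Finset.HasAntidiagonal.antidiagonal j, (j.choose q.1 : ℝ) * (if z q then 0 else
        c ^ 2 / w q * (Q.S 0 (W1 s t0 q.1 τ * W1 s t0 q.2 τ) + Q.S 0 (W2 s t0 q.1 τ * W1 s t0 q.2 τ)))
      + ∑ q ∈ Finset.HasAntidiagonal.antidiagonal j, (j.choose q.1 : ℝ) * (if z q then 0 else
        c ^ 2 / w q * (Q.S 0 (W1 s t0 q.1 τ * W2 s t0 q.2 τ)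
          + Q.S 0 (W2 s t0 q.1 τ * W2 s t0 q.2 τ))) := by
    rw [← Finset.sum_add_distrib]
    refine Finset.sum_congr rfl fun q _ => ?_
    unfold PW
    split_ifs <;> ring
  have m1 := mul_le_mul_of_nonneg_right hs (add_nonneg (Dm.S_nonneg (Q := Q) 0 (d1 (W1 s t0 k τ)))
    (Dm.S_nonneg (Q := Q) 0 (d2 (W1 s t0 k τ))))
  have m2 := mul_le_mul_of_nonneg_right hs (add_nonneg (Dm.S_nonneg (Q := Q) 0 (d1 (W2 s t0 k τ)))
    (Dm.S_nonneg (Q := Q) 0 (d2 (W2 s t0 k τ))))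
  rw [e3, HW, YW, S1_eq, S1_eq, RW]
  have e4 : ∀ (e : PP) (a : SA PP), Q.I (D e (W1 s t0 j τ) * a) = τ ^ j * Q.I (D e (V1 j (s, t0 + τ)) * a) :=
    fun e a => by rw [W1, map_smul, smul_mul_assoc, map_smul, smul_eq_mul]
  have e5 : ∀ (e : PP) (a : SA PP), Q.I (D e (W2 s t0 j τ) * a) = τ ^ j * Q.I (D e (V2 j (s, t0 + τ)) * a) :=
    fun e a => by rw [W2, map_smul, smul_mul_assoc, map_smul, smul_eq_mul]
  rw [e4, e4, e5, e5]
  beta_reduce at ww n1 n2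
  linarith

variable (s t0) in
def TP (k : ℕ) (B : ℝ) : Prop := (∀ τ ∈ Icc (0 : ℝ) 1, YW s t0 k τ ≤ B) ∧ IB 1 (HW s t0 k) B

theorem YW_nonneg (k : ℕ) (τ : ℝ) : 0 ≤ YW s t0 k τ := add_nonneg (Dm.S_nonneg _ _) (Dm.S_nonneg _ _)

theorem PW_IB {C : ℝ} (c0 : 0 ≤ C) (hC : ∀ (f g : SA PP) (a c : ℝ), Q.S 0 f ≤ a → Q.S 0 g ≤ c →
      Q.S 0 (f * g) ≤ C * (c * Q.S 1 f + a * Q.S 1 g)) {q : ℕ × ℕ} {A B : ℝ} (ha : TP s t0 q.1 A)
    (hb : TP s t0 q.2 B) : IB 1 (PW s t0 q) (4 * C * A * B) := by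
  have a0 := (YW_nonneg _ _).trans (ha.1 0 ⟨le_rfl, zero_le_one⟩)
  have b0 := (YW_nonneg _ _).trans (hb.1 0 ⟨le_rfl, zero_le_one⟩)
  refine ((ha.2.cmul (2 * C * B) (by positivity)).add (hb.2.cmul (2 * C * A) (by positivity))).mono
    (fun τ hτ => ?_) (le_of_eq (by ring))
  have a1 := (le_add_of_nonneg_right (Dm.S_nonneg _ _)).trans (ha.1 τ hτ)
  have a2 := (le_add_of_nonneg_left (Dm.S_nonneg _ _)).trans (ha.1 τ hτ)
  have b1 := (le_add_of_nonneg_right (Dm.S_nonneg _ _)).trans (hb.1 τ hτ)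
  have b2 := (le_add_of_nonneg_left (Dm.S_nonneg _ _)).trans (hb.1 τ hτ)
  have := hC _ _ _ _ a1 b1
  have := hC _ _ _ _ a2 b1
  have := hC _ _ _ _ a1 b2
  have := hC _ _ _ _ a2 b2
  unfold PW HW
  linarith

theorem tstep {R A ε M C : ℝ} (hR : 1 ≤ R) (a0 : 0 ≤ A) (m0 : 0 ≤ M) (c0 : 0 ≤ C) (e0 : 0 < ε)
    (hW : ∀ τ ∈ Icc (0 : ℝ) 1, ∀ j, WK j (s, t0 + τ))
    (hM : ∀ τ ∈ Icc (0 : ℝ) 1, ∀ x, Q.ρ.1 x < 0 → (V1 0 (s, t0 + τ)).1 x ^ 2 ≤ M ∧
      (V2 0 (s, t0 + τ)).1 x ^ 2 ≤ M)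
    (hC : ∀ (f g : SA PP) (a c : ℝ), Q.S 0 f ≤ a → Q.S 0 g ≤ c →
      Q.S 0 (f * g) ≤ C * (c * Q.S 1 f + a * Q.S 1 g))
    (r1 : Real.exp (2 + 24 * M) * (144 * C * ε) ≤ 1 / 2)
    (r2 : Real.exp (2 + 24 * M) * (Q.S 0 g1 + Q.S 0 g2 + 2 * A + 144 * C * A ^ 2) ≤ ε / 2 * R ^ 2)
    (j : ℕ) (ihA : ∀ a ≤ j, TP s t0 a (A * mj R a ^ 2))
    (ihe : ∀ a ≤ j, a ≠ 0 → TP s t0 a (ε * mj R a ^ 2)) :
    TP s t0 (j + 1) (ε * mj R (j + 1) ^ 2) := by
  have R0 : 0 < R := by linarith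
  have mp := mj_pos R0
  have n := @Dm.S_nonneg Q 0
  have wp : ∀ (k : ℕ) (q : ℕ × ℕ), 0 < mj R q.1 * mj R q.2 / (12 * mj R k) := fun k q => by
    have := mp k; have := mp q.1; have := mp q.2; positivity
  have ws : ∀ k : ℕ, ∑ q ∈ Finset.HasAntidiagonal.antidiagonal k,
      k.choose q.1 * (mj R q.1 * mj R q.2 / (12 * mj R k)) ≤ 1 / 4 := fun k => by
    have := mp k
    simp only [← mul_div_assoc, ← Finset.sum_div]
    rw [div_le_iff₀ (by positivity)]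
    linarith [mj_conv' R0 k]
  let LA : ℕ × ℕ → ℝ → ℝ := fun q τ => (j + 1).choose q.1 * if q.1 = 0 ∨ q.2 = 0 then 0 else
    1 ^ 2 / (mj R q.1 * mj R q.2 / (12 * mj R (j + 1))) * PW s t0 q τ
  let LB : ℕ × ℕ → ℝ → ℝ := fun q τ => j.choose q.1 * if False then 0 else
    ((j : ℝ) + 1) ^ 2 / (mj R q.1 * mj R q.2 / (12 * mj R j)) * PW s t0 q τ
  have kA : ∀ q ∈ Finset.HasAntidiagonal.antidiagonal (j + 1), IB 1 (LA q)
      ((j + 1).choose q.1 * (mj R q.1 * mj R q.2) * (48 * C * ε ^ 2 * mj R (j + 1))) := fun q hq => by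
    have hq := Finset.HasAntidiagonal.mem_antidiagonal.1 hq
    have := mp (j + 1); have := mp q.1; have := mp q.2
    by_cases h : q.1 = 0 ∨ q.2 = 0
    · exact (IB.const le_rfl le_rfl).mono (fun τ _ => by simp only [LA, if_pos h, mul_zero, le_refl])
        (by positivity)
    · simp only [LA, if_neg h]
      refine (((PW_IB c0 hC (ihe q.1 (by omega) (by omega)) (ihe q.2 (by omega) (by omega))).cmul _
        (by positivity)).cmul _ (Nat.cast_nonneg _)).mono (fun _ _ => le_rfl) (le_of_eq ?_)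
      field_simp; ring
  have kB : ∀ q ∈ Finset.HasAntidiagonal.antidiagonal j, IB 1 (LB q)
      (j.choose q.1 * (mj R q.1 * mj R q.2) * (48 * C * A ^ 2 * (j + 1) ^ 2 * mj R j)) := fun q hq => by
    have hq := Finset.HasAntidiagonal.mem_antidiagonal.1 hq
    have := mp j; have := mp q.1; have := mp q.2
    simp only [LB, if_false]
    refine (((PW_IB c0 hC (ihA q.1 (by omega)) (ihA q.2 (by omega))).cmul _
      (by positivity)).cmul _ (Nat.cast_nonneg _)).mono (fun _ _ => le_rfl) (le_of_eq ?_)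
    field_simp; ring
  have k3 := (((IB.const le_rfl (c := ((j : ℝ) + 1) ^ 2 * (Q.S 0 g1 + Q.S 0 g2))
    (by have := n g1; have := n g2; positivity)).add
    ((ihA j le_rfl).2.cmul (2 * ((j : ℝ) + 1) ^ 2) (by positivity))).add (IB.fsum le_rfl _ kA)).add
    (IB.fsum le_rfl _ kB)
  obtain ⟨f1, f2⟩ := IB.gron le_rfl (H := HW s t0 (j + 1)) (K := 2 + 24 * M) (by positivity) k3
    (YW_deriv s t0 j) (by simp [YW, W1, W2, Dm.S]) (YW_nonneg _)
    (fun _ => add_nonneg (Dm.S_nonneg _ _) (Dm.S_nonneg _ _)) fun τ hτ => by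
      have x1 := RW_le (hW τ hτ) (j + 1) (j + 1) _ (wp (j + 1)) (ws (j + 1)) 1 (fun q => q.1 = 0)
        fun q hq h => by have := Finset.HasAntidiagonal.mem_antidiagonal.1 hq; omega
      have x2 := RW_le (hW τ hτ) j (j + 1) _ (wp j) (ws j) (j + 1) (fun _ => False) fun _ _ h => h.elim
      have x3 : ∑ q ∈ Finset.HasAntidiagonal.antidiagonal (j + 1), ((j + 1).choose q.1 : ℝ)
          * (if q.1 = 0 then 0 else 1 ^ 2 / (mj R q.1 * mj R q.2 / (12 * mj R (j + 1))) * PW s t0 q τ)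
          ≤ 24 * M * YW s t0 (j + 1) τ + ∑ q ∈ Finset.HasAntidiagonal.antidiagonal (j + 1), LA q τ := by
        have := Finset.sum_ite_eq_of_mem' (Finset.HasAntidiagonal.antidiagonal (j + 1)) (j + 1, 0)
          (fun _ => 24 * M * YW s t0 (j + 1) τ) (by simp)
        rw [← this, ← Finset.sum_add_distrib]
        refine Finset.sum_le_sum fun ⟨a, b⟩ hq => ?_
        have hq := Finset.HasAntidiagonal.mem_antidiagonal.1 hq
        dsimp only at hq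
        by_cases hb : b = 0
        · subst hb
          obtain rfl : a = j + 1 := hq
          have := mp (j + 1)
          have u := fun f => Dm.S0_mul_le (fun x hx => (hM τ hτ x hx).1) f
          have v := fun f => Dm.S0_mul_le (fun x hx => (hM τ hτ x hx).2) f
          have e : 1 ^ 2 / (mj R (j + 1) * 1 / (12 * mj R (j + 1))) = 12 := by field_simp
          simp only [LA, mj_zero, e, PW, YW, Nat.choose_self, Nat.succ_ne_zero, if_false, if_true, or_true,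
            Nat.cast_one, one_mul, mul_zero, add_zero]
          rw [mul_comm (W1 s t0 _ τ), mul_comm (W2 s t0 _ τ), mul_comm (W1 s t0 (j + 1) τ),
            mul_comm (W2 s t0 (j + 1) τ)]
          simp only [W1, W2, pow_zero, one_smul]
          linarith [u (τ ^ (j + 1) • V1 (j + 1) (s, t0 + τ)), u (τ ^ (j + 1) • V2 (j + 1) (s, t0 + τ)),
            v (τ ^ (j + 1) • V1 (j + 1) (s, t0 + τ)), v (τ ^ (j + 1) • V2 (j + 1) (s, t0 + τ))]
        · simp only [LA, hb, or_false, Prod.mk.injEq, and_false, if_false, zero_add, le_refl]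
      change _ ≤ _ + ∑ q ∈ _, LB q τ at x2
      have yg : ∀ (g f : SA PP), 2 * (((j : ℝ) + 1) * τ ^ j) * Q.I (GG g j * f)
          ≤ Q.S 0 f + ((j : ℝ) + 1) ^ 2 * Q.S 0 g := fun g f => by
        have t1 : (τ ^ j) ^ 2 ≤ 1 := pow_le_one₀ (pow_nonneg hτ.1 _) (pow_le_one₀ hτ.1 hτ.2)
        have t2 : Q.S 0 (GG g j) ≤ Q.S 0 g := by
          unfold GG; split_ifs
          · rfl
          · simpa [Dm.S] using n g
        rw [mul_comm (GG g j)]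
        refine (Dm.young _ _ _).trans (add_le_add le_rfl ?_)
        rw [mul_pow, mul_assoc]
        exact mul_le_mul_of_nonneg_left ((mul_le_of_le_one_left (n _) t1).trans t2) (by positivity)
      have y1 := yg g1 (W1 s t0 (j + 1) τ)
      have y2 := yg g2 (W2 s t0 (j + 1) τ)
      have yy := fun f g => Dm.young (Q := Q) (-(2 * ((j : ℝ) + 1))) f g
      have y3 := yy (d1 (W1 s t0 (j + 1) τ)) (d1 (W1 s t0 j τ))
      have y4 := yy (d2 (W1 s t0 (j + 1) τ)) (d2 (W1 s t0 j τ))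
      have y5 := yy (d1 (W2 s t0 (j + 1) τ)) (d1 (W2 s t0 j τ))
      have y6 := yy (d2 (W2 s t0 (j + 1) τ)) (d2 (W2 s t0 j τ))
      rw [mul_comm (d1 _)] at y3 y5
      rw [mul_comm (d2 _)] at y4 y6
      have y7 := mul_nonneg (sq_nonneg ((j : ℝ) + 1)) (YW_nonneg (s := s) (t0 := t0) j τ)
      simp only [GG, Nat.succ_ne_zero, if_false, zero_mul, map_zero] at x1
      simp only [HW, YW, S1_eq] at *
      simp only [Dm.S] at *
      linarith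
  have fin : Real.exp (2 + 24 * M) * (((j : ℝ) + 1) ^ 2 * (Q.S 0 g1 + Q.S 0 g2)
      + 2 * ((j : ℝ) + 1) ^ 2 * (A * mj R j ^ 2) + ∑ q ∈ Finset.HasAntidiagonal.antidiagonal (j + 1),
        (j + 1).choose q.1 * (mj R q.1 * mj R q.2) * (48 * C * ε ^ 2 * mj R (j + 1))
      + ∑ q ∈ Finset.HasAntidiagonal.antidiagonal j, j.choose q.1 * (mj R q.1 * mj R q.2)
        * (48 * C * A ^ 2 * (j + 1) ^ 2 * mj R j)) ≤ ε * mj R (j + 1) ^ 2 := by
    have p1 := mp j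
    have p2 := mp (j + 1)
    rw [← Finset.sum_mul, ← Finset.sum_mul]
    have z1 := mul_le_mul_of_nonneg_right (mj_conv' R0 (j + 1))
      (by positivity : 0 ≤ 48 * C * ε ^ 2 * mj R (j + 1))
    have z2 := mul_le_mul_of_nonneg_right (mj_conv' R0 j)
      (by positivity : 0 ≤ 48 * C * A ^ 2 * ((j : ℝ) + 1) ^ 2 * mj R j)
    have z3 : 1 ≤ mj R j := le_trans (one_le_mul_of_one_le_of_one_le (one_le_pow₀ hR)
      (by exact_mod_cast Nat.factorial_pos j)) (mj_ge R0 j)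
    have z4 := mul_le_mul_of_nonneg_left (one_le_pow₀ z3 (n := 2))
      (by have := n g1; have := n g2; positivity : 0 ≤ ((j : ℝ) + 1) ^ 2 * (Q.S 0 g1 + Q.S 0 g2))
    have z5 := mul_le_mul_of_nonneg_left (pow_le_pow_left₀ (by positivity) (mj_succ R0 j) 2) e0.le
    have z6 := mul_le_mul_of_nonneg_right r1 (by positivity : 0 ≤ ε * mj R (j + 1) ^ 2)
    have z7 := mul_le_mul_of_nonneg_right r2 (by positivity : 0 ≤ (((j : ℝ) + 1) * mj R j) ^ 2)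
    refine (mul_le_mul_of_nonneg_left (show _ ≤ 144 * C * ε * (ε * mj R (j + 1) ^ 2) + (Q.S 0 g1
      + Q.S 0 g2 + 2 * A + 144 * C * A ^ 2) * (((j : ℝ) + 1) * mj R j) ^ 2 by
      push_cast at z1 ⊢; linarith) (Real.exp_pos _).le).trans ?_
    linarith
  exact ⟨fun t ht => (f1 t ht).trans fin, f2.mono (fun _ _ => le_rfl) fin⟩

end

theorem time_bound (s : Sol Q g1 g2) : ∃ A R : ℝ, 0 ≤ A ∧ 0 < R ∧ ∀ᶠ t in atTop, ∀ k,
    SS 0 k (s, t) ≤ A * (R ^ k * k !) ^ 2 := by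
  obtain ⟨T, hT⟩ := weak_all s
  obtain ⟨A, a0, hA⟩ := bound1 (Q := Q) (g1 := g1) (g2 := g2) 0
  obtain ⟨M1, m1, h1⟩ := (bound_u (Q := Q) (g1 := g1) (g2 := g2) cmp1 2 0).sup
  obtain ⟨M2, m2, h2⟩ := (bound_u (Q := Q) (g1 := g1) (g2 := g2) cmp2 2 0).sup
  obtain ⟨C, c0, hC⟩ := Dm.lady4 (Q := Q)
  obtain ⟨T', hT'⟩ := eventually_atTop.1 ((ev_late.1 hA s).and ((ev_late.1 h1 s).and (ev_late.1 h2 s)))
  obtain ⟨E, hE⟩ : ∃ E, E = Real.exp (2 + 24 * (M1 ^ 2 + M2 ^ 2)) := ⟨_, rfl⟩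
  have E0 : 0 < E := hE ▸ Real.exp_pos _
  obtain ⟨ε, e0, e1, r1⟩ : ∃ ε, 0 < ε ∧ ε ≤ 1 ∧ E * (144 * C * ε) ≤ 1 / 2 := by
    refine ⟨1 / (288 * E * C + 1), by positivity, div_le_one_of_le₀ (by nlinarith) (by positivity), ?_⟩
    rw [← mul_div_assoc, ← mul_div_assoc, div_le_iff₀ (by positivity)]
    linarith
  have n1 := Dm.S_nonneg (Q := Q) 0 g1
  have n2 := Dm.S_nonneg (Q := Q) 0 g2
  obtain ⟨R, hR, r2⟩ : ∃ R : ℝ, 1 ≤ R ∧ E * (Q.S 0 g1 + Q.S 0 g2 + 2 * (A + 1) + 144 * C * (A + 1) ^ 2)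
      ≤ ε / 2 * R ^ 2 := by
    generalize hX : E * _ = X
    have X0 : 0 ≤ X := by rw [← hX]; positivity
    refine ⟨1 + 2 * X / ε, le_add_of_nonneg_right (by positivity), ?_⟩
    have : ε / 2 * (1 + 2 * X / ε) ^ 2 = ε / 2 + 2 * X + 2 * X ^ 2 / ε := by field_simp; ring
    rw [this]
    have : 0 ≤ 2 * X ^ 2 / ε := by positivity
    linarith
  have R0 : 0 < R := by linarith
  refine ⟨A + 1, 4 * R, by positivity, by positivity, ?_⟩
  filter_upwards [eventually_gt_atTop (T + 1), eventually_ge_atTop (T' + 1)] with t t1 t2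
  have key : ∀ j, ∀ a ≤ j, TP s (t - 1) a ((A + 1) * mj R a ^ 2) ∧
      (a ≠ 0 → TP s (t - 1) a (ε * mj R a ^ 2)) := fun j => by
    induction j with
    | zero =>
      intro a ha
      obtain rfl := Nat.le_zero.1 ha
      have b : ∀ τ ∈ Icc (0 : ℝ) 1, HW s (t - 1) 0 τ ≤ (A + 1) * mj R 0 ^ 2 := fun τ hτ => by
        have := (hT' (t - 1 + τ) (by linarith [hτ.1])).1
        simp only [HW, W1, W2, pow_zero, one_smul, mj_zero, SS] at this ⊢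
        linarith
      exact ⟨⟨fun τ hτ => (add_le_add (Dm.S_succ _ _) (Dm.S_succ _ _)).trans (b τ hτ),
        (IB.const le_rfl (by positivity)).mono b le_rfl⟩, fun h => (h rfl).elim⟩
    | succ j ih =>
      intro a ha
      rcases Nat.le_succ_iff.1 ha with h | rfl
      · exact ih a h
      have st := tstep (s := s) (t0 := t - 1) (M := M1 ^ 2 + M2 ^ 2) hR (by positivity) (by positivity)
        c0 e0 (fun τ hτ => hT _ (by linarith [hτ.1])) (fun τ hτ x hx => by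
          obtain ⟨-, b1, b2⟩ := hT' (t - 1 + τ) (by linarith [hτ.1])
          have c1 := sq_le_sq' (abs_le.1 (b1 x hx)).1 (abs_le.1 (b1 x hx)).2
          have c2 := sq_le_sq' (abs_le.1 (b2 x hx)).1 (abs_le.1 (b2 x hx)).2
          constructor <;> nlinarith) hC (hE ▸ r1) (hE ▸ r2) j (fun a h => (ih a h).1)
        fun a h => (ih a h).2
      have le := mul_le_mul_of_nonneg_right (show ε ≤ A + 1 by linarith) (sq_nonneg (mj R (j + 1)))
      exact ⟨⟨fun τ hτ => (st.1 τ hτ).trans le, st.2.mono (fun _ _ => le_rfl) le⟩, fun _ => st⟩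
  intro k
  have := (key k k le_rfl).1.1 1 ⟨zero_le_one, le_rfl⟩
  simp only [YW, W1, W2, one_pow, one_smul, sub_add_cancel] at this
  exact this.trans (mul_le_mul_of_nonneg_left (pow_le_pow_left₀ (mj_pos R0 k).le (mj_le R0 k) 2)
    (by positivity))

end Pool.Agent.MP_ed9623_an.H64
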