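import Pool.Agent.MP_ed9623_an.H64.Time1

open Filter Topology MeasureTheory Set
open scoped ContDiff

namespace Pool.Agent.MP_ed9623_an.H64

variable {Q : Dm} {g1 g2 : SA PP}

theorem tri_parts {a b : SA PP} (ha : a ∈ Q.B) (hb : b ∈ Q.B) (hd : d1 a + d2 b ∈ Q.Z)
    (f φ : SA PP) : Q.I ((a * d1 f + b * d2 f) * φ) = -(Q.I (a * f * d1 φ) + Q.I (b * f * d2 φ)) := by
  have e : (a * d1 f + b * d2 f) * φ = -(a * f * d1 φ + b * f * d2 φ) + d1 (a * (f * φ))
      + d2 (b * (f * φ)) - f * φ * (d1 a + d2 b) := by simp only [D_mul]; ring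
  rw [e, map_sub, map_add, map_add, map_neg, map_add, Dm.I_D (Q.B.mul_mem_right _ ha),
    Dm.I_D (Q.B.mul_mem_right _ hb), Dm.I_Z (Q.Z.mul_mem_left _ hd)]
  ring

theorem tri_self {a b : SA PP} (ha : a ∈ Q.B) (hb : b ∈ Q.B) (hd : d1 a + d2 b ∈ Q.Z)
    (f : SA PP) : Q.I ((a * d1 f + b * d2 f) * f) = 0 := by
  have := tri_parts ha hb hd f f
  rw [← map_add, show a * f * d1 f + b * f * d2 f = (a * d1 f + b * d2 f) * f by ring] at this
  linarith

theorem poin : ∃ K, 0 ≤ K ∧ ∀ f ∈ Q.B, Q.S 0 f ≤ K * Q.S 0 (d1 f) := by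
  obtain ⟨C, c, H⟩ := Dm.S_mul_fix (Q := Q) 0 cx
  refine ⟨4 * C, by positivity, fun f hf => ?_⟩
  have e : f * f = d1 (f * (cx * f)) - 2 * (cx * f * d1 f) := by
    simp only [D_mul, D_cx, map_one]; ring
  have a : Q.S 0 f = -(2 * Q.I (cx * f * d1 f)) := by
    simp only [Dm.S]
    rw [e, map_sub, Dm.I_D (Q.B.mul_mem_right _ hf), Dm.I_two, zero_sub]
  have b := Dm.I_mul_sq (Q := Q) (cx * f) (d1 f)
  have n := Dm.S_nonneg (Q := Q) 0 (d1 f)
  have c2 := mul_le_mul_of_nonneg_right (H f) n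
  rcases (Dm.S_nonneg (Q := Q) 0 f).eq_or_lt with h | h
  · rw [← h]; positivity
  · refine le_of_mul_le_mul_left ?_ h
    simp only [Dm.S] at a b c2 n ⊢
    have : Q.I (f * f) * Q.I (f * f) = 4 * Q.I (cx * f * d1 f) ^ 2 := by rw [a]; ring
    linarith

section
variable {ι : Type*} {l : Filter ι} {F G : ι → SA PP} {X Y : ι → ℝ}

theorem Ctl.prod0 (f0 : Ctl Q l 0 F X) (f1 : Ctl Q l 1 F Y) (g0 : Ctl Q l 0 G X)
    (g1 : Ctl Q l 1 G Y) (h : ∀ i, 0 ≤ X i * Y i) :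
    Ctl Q l 0 (fun i => F i * G i) fun i => X i * Y i := by
  obtain ⟨C, c, H⟩ := Dm.lady2 (Q := Q)
  have n := @Dm.S_nonneg Q
  have a := (Big.mul (Big.mul f0 f1 (fun _ => n _ _) fun _ => n _ _)
    (Big.mul g0 g1 (fun _ => n _ _) fun _ => n _ _) (fun _ => mul_nonneg (n _ _) (n _ _))
    fun _ => mul_nonneg (n _ _) (n _ _)).cmul c
  exact (Big.sqrt (a.le_left (Eventually.of_forall fun i => H _ _))).le_right
    (Eventually.of_forall fun i => (Real.sqrt_mul_self (h i)).le)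

theorem Big.young {d A : ι → ℝ} (h : Big l (fun i => d i / 2 + A i) fun i => X i + √(X i * A i))
    (hX : ∀ i, 0 ≤ X i) (hA : ∀ i, 0 ≤ A i) : Big l (fun i => d i + A i) X := by
  obtain ⟨C, c0, hC⟩ := h
  refine ⟨2 * C + C ^ 2, by positivity, hC.mono fun i a => ?_⟩
  have e := Real.sq_sqrt (mul_nonneg (hX i) (hA i))
  have b := hX i
  have q := hA i
  simp only at a ⊢
  generalize Real.sqrt (X i * A i) = s at *
  have : 2 * (C * s) ≤ C ^ 2 * X i + A i := by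
    refine le_of_sq_le_sq ?_ (by positivity) |> id
    nlinarith [sq_nonneg (C ^ 2 * X i - A i)]
  nlinarith

theorem big_tri {a b f φ : ι → SA PP}
    (h : ∀ᶠ i in l, a i ∈ Q.B ∧ b i ∈ Q.B ∧ d1 (a i) + d2 (b i) ∈ Q.Z)
    (h1 : Ctl Q l 0 (fun i => a i * f i) X) (h2 : Ctl Q l 0 (fun i => b i * f i) X)
    (h3 : Ctl Q l 1 φ Y) :
    Big l (fun i => |Q.I ((a i * d1 (f i) + b i * d2 (f i)) * φ i)|) fun i => √(X i * Y i) :=
  ((h1.mix h3.d1).add (h2.mix h3.d2)).le_left (h.mono fun i hi => by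
    rw [tri_parts hi.1 hi.2.1 hi.2.2, abs_neg]; exact abs_add_le _ _)

end

theorem big_NL {l : Filter (Sol Q g1 g2 × ℝ)} {V : ℕ → Sol Q g1 g2 × ℝ → SA PP} {j : ℕ}
    {φ : Sol Q g1 g2 × ℝ → SA PP} {X : Sol Q g1 g2 × ℝ → ℝ}
    (h : ∀ a b, a + b = j → Big l
      (fun i => |Q.I ((V1 a i * d1 (V b i) + V2 a i * d2 (V b i)) * φ i)|) X) :
    Big l (fun i => |Q.I (NL V j i * φ i)|) X := by
  refine (Big.sum (Finset.HasAntidiagonal.antidiagonal j) fun q hq => (h q.1 q.2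
    (Finset.HasAntidiagonal.mem_antidiagonal.1 hq)).cmul (Nat.cast_nonneg (j.choose q.1))).le_left
    (Eventually.of_forall fun i => ?_)
  rw [NL, Finset.sum_mul, map_sum]
  refine (Finset.abs_sum_le_sum_abs _ _).trans (le_of_eq (Finset.sum_congr rfl fun q _ => ?_))
  rw [mul_assoc, Dm.I_natCast, abs_mul, Nat.abs_cast]

noncomputable def SS (k j : ℕ) (i : Sol Q g1 g2 × ℝ) : ℝ := Q.S k (V1 j i) + Q.S k (V2 j i)
noncomputable def HH (j : ℕ) (i : Sol Q g1 g2 × ℝ) : ℝ := 1 + ∑ a ∈ Finset.range j, SS 1 a i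
noncomputable def dd (j : ℕ) (i : Sol Q g1 g2 × ℝ) : ℝ :=
  2 * (Q.I (V1 (j + 1) i * V1 j i) + Q.I (V2 (j + 1) i * V2 j i))

theorem SS_nonneg (k j : ℕ) (i : Sol Q g1 g2 × ℝ) : 0 ≤ SS k j i :=
  add_nonneg (Dm.S_nonneg _ _) (Dm.S_nonneg _ _)

theorem HH_one (j : ℕ) (i : Sol Q g1 g2 × ℝ) : 1 ≤ HH j i :=
  le_add_of_nonneg_right (Finset.sum_nonneg fun _ _ => SS_nonneg _ _ _)

theorem SS_HH {a j : ℕ} (h : a < j) (i : Sol Q g1 g2 × ℝ) : SS 1 a i ≤ HH j i :=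
  (Finset.single_le_sum (f := fun a => SS 1 a i) (fun _ _ => SS_nonneg _ _ _)
    (Finset.mem_range.2 h)).trans (le_add_of_nonneg_left zero_le_one)

theorem SS_deriv (j : ℕ) (s : Sol Q g1 g2) (t : ℝ) :
    HasDerivAt (fun t => SS 0 j (s, t)) (dd j (s, t)) t := by
  have := (I_deriv (Q := Q) (dt^[j] s.u1 * dt^[j] s.u1) t).add
    (I_deriv (Q := Q) (dt^[j] s.u2 * dt^[j] s.u2) t)
  refine HasDerivAt.congr_deriv this ?_
  simp only [dd, V1, V2, D_mul, map_add, map_mul, Function.iterate_succ_apply',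
    mul_comm (sl t (dt^[j] s.u1)), mul_comm (sl t (dt^[j] s.u2))]
  ring

/-- `V` is one of the two components. -/
def Cmp (V : ℕ → Sol Q g1 g2 × ℝ → SA PP) : Prop := ∀ k j i, Q.S k (V j i) ≤ SS k j i

theorem cmp1 : Cmp (V1 (Q := Q) (g1 := g1) (g2 := g2)) :=
  fun _ _ _ => le_add_of_nonneg_right (Dm.S_nonneg _ _)

theorem cmp2 : Cmp (V2 (Q := Q) (g1 := g1) (g2 := g2)) :=
  fun _ _ _ => le_add_of_nonneg_left (Dm.S_nonneg _ _)

theorem Cmp.ctl {V : ℕ → Sol Q g1 g2 × ℝ → SA PP} (h : Cmp V) {l} {k j : ℕ} {X}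
    (hX : Big l (SS k j) X) : Ctl Q l k (V j) X := (Big.of_le' (h k j)).trans hX

theorem weakj (j : ℕ) : ∀ᶠ i in late Q g1 g2,
    (V1 j i ∈ Q.B ∧ V2 j i ∈ Q.B ∧ d1 (V1 j i) + d2 (V2 j i) ∈ Q.Z) ∧
    ∀ a b, a ∈ Q.B ∧ b ∈ Q.B ∧ d1 a + d2 b ∈ Q.Z → Q.I (d1 (V1 j i) * d1 a) + Q.I (d2 (V1 j i) * d2 a)
      + Q.I (d1 (V2 j i) * d1 b) + Q.I (d2 (V2 j i) * d2 b) = Q.I (GG g1 j * a) + Q.I (GG g2 j * b)
      - Q.I (V1 (j + 1) i * a) - Q.I (V2 (j + 1) i * b) - Q.I (NL V1 j i * a)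
      - Q.I (NL V2 j i * b) := by
  filter_upwards [good j] with i ⟨s, h1, h2, _, h4, h5⟩
  refine ⟨⟨h1 ▸ s.b1, h2 ▸ s.b2, h1 ▸ h2 ▸ s.dv⟩, fun a b h => ?_⟩
  have := s.weak h.1 h.2.1 h.2.2
  rw [h1, h2, h4, h5, sub_mul, sub_mul, sub_mul, sub_mul, map_sub, map_sub, map_sub,
    map_sub] at this
  linarith

theorem prod_lt {V W : ℕ → Sol Q g1 g2 × ℝ → SA PP} (hV : Cmp V) (hW : Cmp W) {j a b : ℕ}
    (hy : ∀ a < j, Big (late Q g1 g2) (SS 0 a) fun _ => 1) (ha : a < j) (hb : b < j) :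
    Ctl Q (late Q g1 g2) 0 (fun i => V a i * W b i) (HH j) := by
  have := (hV.ctl (hy a ha)).prod0 (hV.ctl (Big.of_le' (SS_HH ha))) (hW.ctl (hy b hb))
    (hW.ctl (Big.of_le' (SS_HH hb))) fun i => by linarith [HH_one j i]
  simpa only [one_mul] using this

theorem energy (j : ℕ) (hy : ∀ a < j, Big (late Q g1 g2) (SS 0 a) fun _ => 1) :
    Big (late Q g1 g2) (fun i => dd j i + SS 1 j i) fun i => HH j i * (1 + SS 0 j i) := by
  have y0 := SS_nonneg (Q := Q) (g1 := g1) (g2 := g2) 0 j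
  have h1 := HH_one (Q := Q) (g1 := g1) (g2 := g2) j
  have X1 : ∀ i : Sol Q g1 g2 × ℝ, HH j i ≤ HH j i * (1 + SS 0 j i) := fun i => by
    nlinarith [y0 i, h1 i]
  have X0 := fun i => (zero_le_one.trans (h1 i)).trans (X1 i)
  refine Big.young ?_ X0 (SS_nonneg 1 j)
  have n : ∀ V, Cmp V → Big (late Q g1 g2) (fun i => |Q.I (NL V j i * V j i)|)
      fun i => √(HH j i * (1 + SS 0 j i) * SS 1 j i) := fun V hV => big_NL fun a b hab => by
    rcases (show b = j ∨ (b < j ∧ a < j) ∨ (b < j ∧ a = j) by omega) with rfl | h | ⟨h, rfl⟩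
    · exact Big.zero.le_left ((weakj a).mono fun i hi => by
        rw [tri_self hi.1.1 hi.1.2.1 hi.1.2.2, abs_zero])
    · exact big_tri ((weakj a).mono fun i hi => hi.1)
        (Big.le_right (prod_lt cmp1 hV hy h.2 h.1) (Eventually.of_forall X1))
        (Big.le_right (prod_lt cmp2 hV hy h.2 h.1) (Eventually.of_forall X1)) (hV.ctl Big.refl)
    · have p := fun W (hW : Cmp W) => (hW.ctl (l := late Q g1 g2) (j := a) Big.refl).prod0
        (hW.ctl Big.refl) (hV.ctl Big.refl) (hV.ctl Big.refl)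
        fun i => mul_nonneg (y0 i) (SS_nonneg 1 a i)
      have q := hV.ctl (l := late Q g1 g2) (Big.of_le' (SS_HH h))
      refine ((((p _ cmp1).mix q.d1).add ((p _ cmp2).mix q.d2)).le_left
        (Eventually.of_forall fun i => ?_)).le_right
          (Eventually.of_forall fun i => Real.sqrt_le_sqrt ?_)
      · rw [show (V1 a i * d1 (V b i) + V2 a i * d2 (V b i)) * V a i
          = V1 a i * V a i * d1 (V b i) + V2 a i * V a i * d2 (V b i) by ring, map_add]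
        exact abs_add_le _ _
      · nlinarith [mul_nonneg (zero_le_one.trans (h1 i)) (SS_nonneg 1 a i)]
  have c := fun (g : SA PP) V (hV : Cmp V) => (Ctl.const (l := late Q g1 g2) (k := 0) (GG g j)
    fun i => (h1 i).trans (X1 i)).mix (hV.ctl (j := j) Big.refl).pred
  refine (((Big.of_le' (Q := SS 0 j) fun i => by nlinarith [y0 i, h1 i]).radd
    fun i => Real.sqrt_nonneg _).add (((((c g1 _ cmp1).add (c g2 _ cmp2)).add (n _ cmp1)).add
      (n _ cmp2)).ladd X0)).le_left ((weakj j).mono fun i hi => ?_)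
  have := hi.2 _ _ hi.1
  simp only [dd, SS, Dm.S]
  linarith [le_abs_self (Q.I (GG g1 j * V1 j i)), le_abs_self (Q.I (GG g2 j * V2 j i)),
    neg_abs_le (Q.I (NL V1 j i * V1 j i)), neg_abs_le (Q.I (NL V2 j i * V2 j i))]

theorem riccati (j : ℕ) (hy : ∀ a < j + 1, Big (late Q g1 g2) (SS 0 a) fun _ => 1) :
    Big (late Q g1 g2) (SS 0 (j + 1)) fun i => √(HH (j + 1) i * SS 1 (j + 1) i) := by
  have n : ∀ V, Cmp V → Big (late Q g1 g2) (fun i => |Q.I (NL V j i * V (j + 1) i)|)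
      fun i => √(HH (j + 1) i * SS 1 (j + 1) i) := fun V hV => big_NL fun a b hab =>
    big_tri ((weakj a).mono fun i hi => hi.1) (prod_lt cmp1 hV hy (by omega) (by omega))
      (prod_lt cmp2 hV hy (by omega) (by omega)) (hV.ctl Big.refl)
  have c := fun (g : SA PP) V (hV : Cmp V) => (Ctl.const (l := late Q g1 g2) (k := 0) (GG g j)
    (HH_one (j + 1))).mix (hV.ctl (j := j + 1) Big.refl).pred
  have a := fun V (hV : Cmp V) => hV.ctl (l := late Q g1 g2) (Big.of_le' (SS_HH (Nat.lt_succ_self j)))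
  have b := fun V (hV : Cmp V) => hV.ctl (l := late Q g1 g2) (k := 1) (j := j + 1) Big.refl
  refine ((((((((c g1 _ cmp1).add (c g2 _ cmp2)).add (n _ cmp1)).add (n _ cmp2)).add
    ((a _ cmp1).d1.mix (b _ cmp1).d1)).add ((a _ cmp1).d2.mix (b _ cmp1).d2)).add
    ((a _ cmp2).d1.mix (b _ cmp2).d1)).add ((a _ cmp2).d2.mix (b _ cmp2).d2)).le_left ?_
  filter_upwards [weakj j, weakj (j + 1)] with i h1 h2
  have := h1.2 _ _ h2.1
  simp only [SS, Dm.S]
  linarith [le_abs_self (Q.I (GG g1 j * V1 (j + 1) i)), le_abs_self (Q.I (GG g2 j * V2 (j + 1) i)),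
    neg_abs_le (Q.I (NL V1 j i * V1 (j + 1) i)), neg_abs_le (Q.I (NL V2 j i * V2 (j + 1) i)),
    neg_abs_le (Q.I (d1 (V1 j i) * d1 (V1 (j + 1) i))),
    neg_abs_le (Q.I (d2 (V1 j i) * d2 (V1 (j + 1) i))),
    neg_abs_le (Q.I (d1 (V2 j i) * d1 (V2 (j + 1) i))),
    neg_abs_le (Q.I (d2 (V2 j i) * d2 (V2 (j + 1) i)))]

theorem energy0 : ∃ K, 0 < K ∧ ∀ᶠ i in late Q g1 g2, K * dd 0 i + SS 1 0 i ≤ K ^ 2 := by
  obtain ⟨K, k0, H⟩ := poin (Q := Q)
  have n := @Dm.S_nonneg Q 0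
  have n1 := n g1
  have n2 := n g2
  refine ⟨(K + 1) * (Q.S 0 g1 + Q.S 0 g2 + 1), by positivity, (weakj 0).mono fun i hi => ?_⟩
  have w := hi.2 _ _ hi.1
  have z1 := tri_self hi.1.1 hi.1.2.1 hi.1.2.2 (V1 0 i)
  have z2 := tri_self hi.1.1 hi.1.2.1 hi.1.2.2 (V2 0 i)
  have yg : ∀ g v : SA PP, 2 * (K + 1) * Q.I (g * v) ≤ (K + 1) ^ 2 * Q.S 0 g + Q.S 0 v := by
    intro g v
    have := n ((K + 1) • g - v)
    simp only [Dm.S, sub_mul, mul_sub, smul_mul_assoc, mul_smul_comm, map_sub, map_smul,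
      smul_eq_mul, mul_comm v g] at this ⊢
    linarith
  have p1 := H _ hi.1.1
  have p2 := H _ hi.1.2.1
  have y1 := yg g1 (V1 0 i)
  have y2 := yg g2 (V2 0 i)
  have m1 := mul_nonneg k0 (n (d2 (V1 0 i)))
  have m2 := mul_nonneg k0 (n (d2 (V2 0 i)))
  have s0 := SS_nonneg 1 0 i
  simp only [NL, Finset.Nat.antidiagonal_zero, Finset.sum_singleton, Nat.choose_self,
    Nat.cast_one, one_mul, z1, z2, GG, if_true] at w
  have key : (K + 1) * dd 0 i + SS 1 0 i ≤ (K + 1) ^ 2 * (Q.S 0 g1 + Q.S 0 g2) := by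
    have a1 := n (d1 (V1 0 i))
    have a2 := n (d1 (V2 0 i))
    have a3 := n (d2 (V1 0 i))
    have a4 := n (d2 (V2 0 i))
    have w2 := congrArg ((K + 1) * ·) w
    simp only [dd, SS, Dm.S] at *
    nlinarith
  nlinarith [mul_le_mul_of_nonneg_left key (by positivity : 0 ≤ Q.S 0 g1 + Q.S 0 g2 + 1),
    mul_nonneg (add_nonneg n1 n2) s0, mul_nonneg (sq_nonneg (K + 1))
      (by positivity : 0 ≤ Q.S 0 g1 + Q.S 0 g2 + 1)]

theorem pot (j : ℕ) : (∀ a < j + 1, Big (late Q g1 g2) (SS 0 a) fun _ => 1) ∧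
    ∃ z z' : Sol Q g1 g2 × ℝ → ℝ, (∀ s t, HasDerivAt (fun t => z (s, t)) (z' (s, t)) t) ∧
      (∀ i, 0 ≤ z i) ∧ Big (late Q g1 g2) z (fun _ => 1) ∧
      Big (late Q g1 g2) (fun i => z' i + HH (j + 1) i) fun _ => 1 := by
  induction j with
  | zero =>
    obtain ⟨K, k0, H⟩ := energy0 (Q := Q) (g1 := g1) (g2 := g2)
    have y : Big (late Q g1 g2) (SS 0 0) fun _ => 1 := by
      refine ⟨K ^ 2 + 1, by positivity, ev_late.2 fun s => ?_⟩
      simp only [mul_one]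
      refine ode_absorb K k0 _ _ (SS_deriv 0 s) ((ev_late.1 H s).mono fun t ht => ?_)
      have a := Dm.S_succ (Q := Q) 0 (V1 0 (s, t))
      have b := Dm.S_succ (Q := Q) 0 (V2 0 (s, t))
      simp only [SS] at ht ⊢
      linarith
    refine ⟨fun a ha => by rwa [show a = 0 by omega], fun i => K * SS 0 0 i, fun i => K * dd 0 i,
      fun s t => (SS_deriv 0 s t).const_mul K, fun i => mul_nonneg k0.le (SS_nonneg _ _ _),
      y.cmul k0.le, K ^ 2 + 1, by positivity, H.mono fun i hi => ?_⟩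
    simp only [HH, zero_add, Finset.range_one, Finset.sum_singleton]
    linarith
  | succ j ih =>
    obtain ⟨hy, z, z', dz, z0, ⟨C1, c1, H1⟩, ⟨C2, c2, H2⟩⟩ := ih
    obtain ⟨C3, c3, H3⟩ := energy (j + 1) hy
    obtain ⟨C4, c4, H4⟩ := riccati j hy
    obtain ⟨C, c, H⟩ := ode_bound (C1 + C2 + C3 + C4) (by positivity)
    have y : ∀ᶠ i in late Q g1 g2, SS 0 (j + 1) i ≤ C := ev_late.2 fun s => by
      refine H _ _ (fun t => SS 1 (j + 1) (s, t)) (fun t => HH (j + 1) (s, t) - 1) _ _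
        (SS_deriv (j + 1) s) (dz s) (fun t => SS_nonneg _ _ _) (fun t => SS_nonneg _ _ _)
        (fun t => sub_nonneg.2 (HH_one _ _)) (fun t => z0 _) ?_
      filter_upwards [ev_late.1 H1 s, ev_late.1 H2 s, ev_late.1 H3 s, ev_late.1 H4 s]
        with t a1 a2 a3 a4
      simp only [add_sub_cancel, mul_one] at a1 a2 ⊢
      have q := mul_nonneg (zero_le_one.trans (HH_one (j + 1) (s, t)))
        (add_nonneg zero_le_one (SS_nonneg 0 (j + 1) (s, t)))
      exact ⟨a3.trans (mul_le_mul_of_nonneg_right (by linarith) q),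
        a4.trans (mul_le_mul_of_nonneg_right (by linarith) (Real.sqrt_nonneg _)), by linarith,
        by linarith⟩
    have y' : Big (late Q g1 g2) (SS 0 (j + 1)) fun _ => 1 := ⟨C, c, by simpa using y⟩
    have k0 : 0 ≤ C3 * (1 + C) + 1 := by positivity
    refine ⟨fun a ha => ?_, fun i => SS 0 (j + 1) i + (C3 * (1 + C) + 1) * z i,
      fun i => dd (j + 1) i + (C3 * (1 + C) + 1) * z' i,
      fun s t => (SS_deriv _ s t).add ((dz s t).const_mul _),
      fun i => add_nonneg (SS_nonneg _ _ _) (mul_nonneg k0 (z0 i)),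
      y'.add (Big.cmul k0 ⟨C1, c1, H1⟩), (C3 * (1 + C) + 1) * C2, by positivity, ?_⟩
    · rcases Nat.lt_succ_iff_lt_or_eq.1 ha with h | rfl
      · exact hy a h
      · exact y'
    · filter_upwards [y, H2, H3] with i a1 a2 a3
      have e : HH (j + 1 + 1) i = HH (j + 1) i + SS 1 (j + 1) i := by
        simp only [HH, Finset.sum_range_succ _ (j + 1)]; ring
      rw [e]
      nlinarith [mul_le_mul_of_nonneg_left a2 k0, mul_le_mul_of_nonneg_left a1
        (mul_nonneg c3 (zero_le_one.trans (HH_one (j + 1) i)))]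

theorem bound0 (j : ℕ) : Big (late Q g1 g2) (SS 0 j) fun _ => 1 := (pot j).1 j (Nat.lt_succ_self j)

theorem bound1 (j : ℕ) : Big (late Q g1 g2) (SS 1 j) fun _ => 1 := by
  induction j using Nat.strong_induction_on with
  | _ j ih =>
    have h : Big (late Q g1 g2) (HH j) fun _ => 1 :=
      Big.add Big.refl (Big.sum _ fun a ha => ih a (Finset.mem_range.1 ha))
    have e := (energy j fun a _ => bound0 a).trans (h.mul (Big.add Big.refl (bound0 j))
      (fun i => zero_le_one.trans (HH_one j i)) fun i => add_nonneg zero_le_one (SS_nonneg _ _ _))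
    have m := fun V (hV : Cmp V) => (hV.ctl (bound0 (Q := Q) (g1 := g1) (g2 := g2) (j + 1))).mix
      (hV.ctl (bound0 j))
    simp only [mul_one, Real.sqrt_one] at e m
    refine (e.add (Big.cmul zero_le_two ((m _ cmp1).add (m _ cmp2)))).le_left
      (Eventually.of_forall fun i => ?_)
    simp only [dd]
    linarith [neg_abs_le (Q.I (V1 (j + 1) i * V1 j i)), neg_abs_le (Q.I (V2 (j + 1) i * V2 j i))]

end Pool.Agent.MP_ed9623_an.H64
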